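import Mathlib.LinearAlgebra.Dimension.Finrank
import Mathlib.LinearAlgebra.FiniteDimensional.Lemmas
import Pool.Agent.TM2Lib.Poly

/-!
# Elimination, abstract form

Vectors of a `K`-module `V`, coordinates = linear functionals. A state is a pair `(D, R)` of
lists: `D` the vectors with a pivot, `R` the remaining ones. `stepV φ` takes the first vector of
`R` on which `φ` does not vanish as a new pivot vector.
-/

namespace Pool.Agent.RTB

open Pool.Agent.TM2Lib Module

variable {K V : Type*} [Field K] [DecidableEq K] [AddCommGroup V] [Module K V]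

/-- subtract the multiple of `r` that kills `φ` (if `φ r = 1`) -/
def elimV (φ : V →ₗ[K] K) (r v : V) : V := v - φ v • r

/-- normalise -/
def normV (φ : V →ₗ[K] K) (r : V) : V := (φ r)⁻¹ • r

/-- one step of the elimination -/
def stepV (φ : V →ₗ[K] K) (s : List V × List V) : List V × List V :=
  match s.2.filter (fun v => !decide (φ v = 0)) with
  | [] => s
  | r :: l => (normV φ r :: s.1.map (elimV φ (normV φ r)),
      l.map (elimV φ (normV φ r)) ++ s.2.filter (fun v => decide (φ v = 0)))

/-- the span of a list -/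
def spanL (l : List V) : Submodule K V := Submodule.span K {v | v ∈ l}

/-- dual systems -/
def Dual : List (V →ₗ[K] K) → List V → Prop
  | [], [] => True
  | φ :: P, v :: D => φ v = 1 ∧ (∀ w ∈ D, φ w = 0) ∧ (∀ ψ ∈ P, ψ v = 0) ∧ Dual P D
  | _, _ => False

/-- elimination with a list of functionals -/
def elimAll (Φ : List (V →ₗ[K] K)) (s : List V × List V) : List V × List V :=
  Φ.foldl (fun s φ => stepV φ s) s

omit [DecidableEq K] in
theorem spanL_nil : spanL (K := K) ([] : List V) = ⊥ := by
  simp [spanL]

omit [DecidableEq K] in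
theorem mem_spanL {l : List V} {v : V} (h : v ∈ l) : v ∈ spanL (K := K) l :=
  Submodule.subset_span h

omit [DecidableEq K] in
theorem spanL_le {l : List V} {S : Submodule K V} : spanL (K := K) l ≤ S ↔ ∀ v ∈ l, v ∈ S :=
  Submodule.span_le

omit [DecidableEq K] in
theorem spanL_append (l l' : List V) : spanL (K := K) (l ++ l') = spanL l ⊔ spanL l' := by
  rw [spanL, spanL, spanL, ← Submodule.span_union]
  congr 1
  ext v
  simp

omit [DecidableEq K] in
theorem spanL_cons (v : V) (l : List V) :
    spanL (K := K) (v :: l) = Submodule.span K {v} ⊔ spanL l := by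
  rw [spanL, spanL, ← Submodule.span_union]
  congr 1
  ext w
  simp

omit [DecidableEq K] in
theorem mem_spanL_cons {v w : V} {l : List V} :
    w ∈ spanL (K := K) (v :: l) ↔ ∃ a : K, ∃ u ∈ spanL (K := K) l, w = a • v + u := by
  rw [spanL_cons, Submodule.mem_sup]
  constructor
  · rintro ⟨x, hx, y, hy, rfl⟩
    obtain ⟨a, rfl⟩ := Submodule.mem_span_singleton.1 hx
    exact ⟨a, y, hy, rfl⟩
  · rintro ⟨a, u, hu, rfl⟩
    exact ⟨a • v, Submodule.smul_mem _ _ (Submodule.mem_span_singleton_self v), u, hu, rfl⟩

theorem stepV_nil {φ : V →ₗ[K] K} {s : List V × List V} (h : ∀ v ∈ s.2, φ v = 0) :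
    stepV φ s = s := by
  have : s.2.filter (fun v => !decide (φ v = 0)) = [] := by
    rw [List.filter_eq_nil_iff]
    intro v hv
    simp [h v hv]
  simp only [stepV, this]

theorem stepV_cons {φ : V →ₗ[K] K} {s : List V × List V} (h : ¬ ∀ v ∈ s.2, φ v = 0) :
    ∃ r l, s.2.filter (fun v => !decide (φ v = 0)) = r :: l ∧
      stepV φ s = (normV φ r :: s.1.map (elimV φ (normV φ r)),
      l.map (elimV φ (normV φ r)) ++ s.2.filter (fun v => decide (φ v = 0))) := by
  have h0 : s.2.filter (fun v => !decide (φ v = 0)) ≠ [] := by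
    intro h1
    apply h
    intro v hv
    by_contra h2
    have : v ∈ s.2.filter (fun v => !decide (φ v = 0)) := by
      rw [List.mem_filter]
      exact ⟨hv, by simp [h2]⟩
    rw [h1] at this
    simp at this
  rcases hl : s.2.filter (fun v => !decide (φ v = 0)) with _ | ⟨r, l⟩
  · exact absurd hl h0
  · refine ⟨r, l, rfl, ?_⟩
    simp only [stepV, hl]

theorem mem_of_filter {φ : V →ₗ[K] K} {R : List V} {r : V} {l : List V}
    (h : R.filter (fun v => !decide (φ v = 0)) = r :: l) :
    (r ∈ R ∧ φ r ≠ 0) ∧ ∀ v ∈ l, v ∈ R := by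
  constructor
  · have : r ∈ R.filter (fun v => !decide (φ v = 0)) := by
      rw [h]
      exact List.mem_cons_self
    rw [List.mem_filter] at this
    exact ⟨this.1, by simpa using this.2⟩
  · intro v hv
    have : v ∈ R.filter (fun v => !decide (φ v = 0)) := by
      rw [h]
      exact List.mem_cons_of_mem _ hv
    exact (List.mem_filter.1 this).1

theorem length_stepV (φ : V →ₗ[K] K) (s : List V × List V) :
    (stepV φ s).1.length + (stepV φ s).2.length = s.1.length + s.2.length := by
  by_cases h : ∀ v ∈ s.2, φ v = 0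
  · rw [stepV_nil h]
  · obtain ⟨r, l, hl, hs⟩ := stepV_cons h
    rw [hs]
    have h1 := congrArg List.length hl
    have h2 := List.length_eq_length_filter_add (l := s.2) (fun v => decide (φ v = 0))
    simp only [List.length_cons, List.length_map, List.length_append] at h1 ⊢
    omega

omit [DecidableEq K] in
theorem φ_normV {φ : V →ₗ[K] K} {r : V} (h : φ r ≠ 0) : φ (normV φ r) = 1 := by
  rw [normV, map_smul, smul_eq_mul, inv_mul_cancel₀ h]

omit [DecidableEq K] in
theorem φ_elimV {φ : V →ₗ[K] K} {r v : V} (h : φ r = 1) : φ (elimV φ r v) = 0 := by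
  rw [elimV, map_sub, map_smul, smul_eq_mul, h, mul_one, sub_self]

omit [DecidableEq K] in
theorem ψ_elimV {φ ψ : V →ₗ[K] K} {r v : V} (h : ψ r = 0) : ψ (elimV φ r v) = ψ v := by
  rw [elimV, map_sub, map_smul, smul_eq_mul, h, mul_zero, sub_zero]

theorem span_stepV (φ : V →ₗ[K] K) (s : List V × List V) :
    spanL (K := K) ((stepV φ s).1 ++ (stepV φ s).2) = spanL (s.1 ++ s.2) := by
  by_cases h : ∀ v ∈ s.2, φ v = 0
  · rw [stepV_nil h]
  · obtain ⟨r, l, hl, hs⟩ := stepV_cons h
    obtain ⟨⟨hr, hφ⟩, hm⟩ := mem_of_filter hl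
    have hnr : normV φ r ∈ spanL (K := K) ((stepV φ s).1 ++ (stepV φ s).2) := by
      rw [hs]
      exact mem_spanL (by simp)
    apply le_antisymm
    · rw [spanL_le, hs]
      have h1 : normV φ r ∈ spanL (K := K) (s.1 ++ s.2) :=
        Submodule.smul_mem _ _ (mem_spanL (List.mem_append.2 (Or.inr hr)))
      have h2 : ∀ v ∈ s.1 ++ s.2, elimV φ (normV φ r) v ∈ spanL (K := K) (s.1 ++ s.2) :=
        fun v hv => Submodule.sub_mem _ (mem_spanL hv) (Submodule.smul_mem _ _ h1)
      intro v hv
      simp only [List.cons_append, List.mem_cons, List.mem_append, List.mem_map,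
        List.mem_filter] at hv
      rcases hv with rfl | ⟨w, hw, rfl⟩ | ⟨w, hw, rfl⟩ | ⟨hw, _⟩
      · exact h1
      · exact h2 w (List.mem_append.2 (Or.inl hw))
      · exact h2 w (List.mem_append.2 (Or.inr (hm w hw)))
      · exact mem_spanL (List.mem_append.2 (Or.inr hw))
    · rw [spanL_le]
      have key : ∀ v : V, elimV φ (normV φ r) v ∈
          spanL (K := K) ((stepV φ s).1 ++ (stepV φ s).2) →
          v ∈ spanL (K := K) ((stepV φ s).1 ++ (stepV φ s).2) := by
        intro v hv
        have : v = elimV φ (normV φ r) v + φ v • normV φ r := by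
          rw [elimV]; abel
        rw [this]
        exact Submodule.add_mem _ hv (Submodule.smul_mem _ _ hnr)
      intro v hv
      rcases List.mem_append.1 hv with hv | hv
      · apply key
        apply mem_spanL
        rw [hs]
        simp only [List.cons_append, List.mem_cons, List.mem_append, List.mem_map]
        exact Or.inr (Or.inl ⟨v, hv, rfl⟩)
      · by_cases hv0 : φ v = 0
        · apply mem_spanL
          rw [hs]
          simp only [List.cons_append, List.mem_cons, List.mem_append, List.mem_map,
            List.mem_filter]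
          exact Or.inr (Or.inr (Or.inr ⟨hv, by simp [hv0]⟩))
        · have hmem : v ∈ s.2.filter (fun v => !decide (φ v = 0)) := by
            rw [List.mem_filter]
            exact ⟨hv, by simp [hv0]⟩
          rw [hl] at hmem
          rcases List.mem_cons.1 hmem with rfl | hmem
          · have : v = φ v • normV φ v := by
              rw [normV, smul_smul, mul_inv_cancel₀ hv0, one_smul]
            rw [this]
            exact Submodule.smul_mem _ _ hnr
          · apply key
            apply mem_spanL
            rw [hs]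
            simp only [List.cons_append, List.mem_cons, List.mem_append, List.mem_map]
            exact Or.inr (Or.inr (Or.inl ⟨v, hmem, rfl⟩))

omit [DecidableEq K] in
theorem Dual.map {φ : V →ₗ[K] K} {r : V} : ∀ {P : List (V →ₗ[K] K)} {D : List V},
    (∀ ψ ∈ P, ψ r = 0) → Dual P D → Dual P (D.map (elimV φ r))
  | [], [], _, _ => trivial
  | ψ :: P, v :: D, hr, h => by
    obtain ⟨h1, h2, h3, h4⟩ := h
    refine ⟨?_, ?_, ?_, Dual.map (fun χ hχ => hr χ (List.mem_cons_of_mem _ hχ)) h4⟩
    · rw [ψ_elimV (hr ψ List.mem_cons_self), h1]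
    · intro w hw
      obtain ⟨u, hu, rfl⟩ := List.mem_map.1 hw
      rw [ψ_elimV (hr ψ List.mem_cons_self), h2 u hu]
    · intro χ hχ
      rw [ψ_elimV (hr χ (List.mem_cons_of_mem _ hχ)), h3 χ hχ]
  | [], _ :: _, _, h => h.elim
  | _ :: _, [], _, h => h.elim

omit [DecidableEq K] in
theorem Dual.length : ∀ {P : List (V →ₗ[K] K)} {D : List V}, Dual P D → P.length = D.length
  | [], [], _ => rfl
  | ψ :: P, v :: D, h => by
    rw [List.length_cons, List.length_cons, Dual.length h.2.2.2]
  | [], _ :: _, h => h.elim
  | _ :: _, [], h => h.elim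

/-- invariant of the elimination: pivots `P` (a sublist of the reversed list of functionals used)
dual to the first component, all functionals used vanish on the second one -/
structure InvE (Φ : List (V →ₗ[K] K)) (P : List (V →ₗ[K] K)) (s : List V × List V) : Prop where
  sub : List.Sublist P Φ.reverse
  dual : Dual P s.1
  van : ∀ v ∈ s.2, ∀ φ ∈ Φ, φ v = 0

theorem InvE.step {Φ P : List (V →ₗ[K] K)} {s : List V × List V} (h : InvE Φ P s)
    (φ : V →ₗ[K] K) : ∃ P', InvE (Φ ++ [φ]) P' (stepV φ s) := by
  by_cases h0 : ∀ v ∈ s.2, φ v = 0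
  · refine ⟨P, ?_, ?_, ?_⟩
    · rw [List.reverse_append]
      exact h.sub.trans (List.sublist_append_right _ _)
    · rw [stepV_nil h0]
      exact h.dual
    · rw [stepV_nil h0]
      intro v hv ψ hψ
      rcases List.mem_append.1 hψ with hψ | hψ
      · exact h.van v hv ψ hψ
      · rw [List.mem_singleton.1 hψ]
        exact h0 v hv
  · obtain ⟨r, l, hl, hs⟩ := stepV_cons h0
    obtain ⟨⟨hr, hφ⟩, hm⟩ := mem_of_filter hl
    have hP : ∀ ψ ∈ Φ, ψ (normV φ r) = 0 := by
      intro ψ hψ
      rw [normV, map_smul, h.van r hr ψ hψ, smul_zero]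
    have hPΦ : ∀ ψ ∈ P, ψ ∈ Φ := fun ψ hψ => List.mem_reverse.1 (h.sub.subset hψ)
    refine ⟨φ :: P, ?_, ?_, ?_⟩
    · rw [List.reverse_append, List.reverse_singleton, List.singleton_append]
      exact h.sub.cons_cons φ
    · rw [hs]
      refine ⟨φ_normV hφ, ?_, ?_, ?_⟩
      · intro w hw
        obtain ⟨u, hu, rfl⟩ := List.mem_map.1 hw
        exact φ_elimV (φ_normV hφ)
      · intro ψ hψ
        exact hP ψ (hPΦ ψ hψ)
      · exact h.dual.map fun ψ hψ => hP ψ (hPΦ ψ hψ)
    · rw [hs]
      intro v hv ψ hψ
      rcases List.mem_append.1 hψ with hψ | hψ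
      · rcases List.mem_append.1 hv with hv | hv
        · obtain ⟨u, hu, rfl⟩ := List.mem_map.1 hv
          rw [ψ_elimV (hP ψ hψ)]
          exact h.van u (hm u hu) ψ hψ
        · exact h.van v (List.mem_filter.1 hv).1 ψ hψ
      · rw [List.mem_singleton.1 hψ]
        rcases List.mem_append.1 hv with hv | hv
        · obtain ⟨u, hu, rfl⟩ := List.mem_map.1 hv
          exact φ_elimV (φ_normV hφ)
        · simpa using (List.mem_filter.1 hv).2

theorem inv_elimAll : ∀ (Ψ Φ : List (V →ₗ[K] K)) (P : List (V →ₗ[K] K)) (s : List V × List V),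
    InvE Φ P s → ∃ P', InvE (Φ ++ Ψ) P' (elimAll Ψ s)
  | [], Φ, P, s, h => ⟨P, by simpa [elimAll] using h⟩
  | ψ :: Ψ, Φ, P, s, h => by
    obtain ⟨P1, h1⟩ := h.step ψ
    obtain ⟨P2, h2⟩ := inv_elimAll Ψ (Φ ++ [ψ]) P1 (stepV ψ s) h1
    refine ⟨P2, ?_⟩
    rw [List.append_assoc, List.singleton_append] at h2
    exact h2

/-- **the invariant after the elimination** -/
theorem inv_elim (Φ : List (V →ₗ[K] K)) (L : List V) :
    ∃ P, InvE Φ P (elimAll Φ (([] : List V), L)) := by
  obtain ⟨P, h⟩ := inv_elimAll Φ [] [] (([] : List V), L)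
    ⟨List.Sublist.refl _, trivial, fun _ _ _ h => by simp at h⟩
  exact ⟨P, by simpa using h⟩

theorem span_elimAll : ∀ (Φ : List (V →ₗ[K] K)) (s : List V × List V),
    spanL (K := K) ((elimAll Φ s).1 ++ (elimAll Φ s).2) = spanL (s.1 ++ s.2)
  | [], s => rfl
  | φ :: Φ, s => by
    have h := span_elimAll Φ (stepV φ s)
    rw [span_stepV] at h
    exact h

theorem length_elimAll : ∀ (Φ : List (V →ₗ[K] K)) (s : List V × List V),
    (elimAll Φ s).1.length + (elimAll Φ s).2.length = s.1.length + s.2.length
  | [], s => rfl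
  | φ :: Φ, s => by
    have h := length_elimAll Φ (stepV φ s)
    rw [length_stepV] at h
    exact h

omit [DecidableEq K] in
/-- a vector of the span of `D ++ R` killed by the pivots is in the span of `R` -/
theorem mem_span_of_dual {R : List V} : ∀ {P : List (V →ₗ[K] K)} {D : List V}, Dual P D →
    (∀ v ∈ R, ∀ φ ∈ P, φ v = 0) → ∀ v ∈ spanL (K := K) (D ++ R), (∀ φ ∈ P, φ v = 0) →
      v ∈ spanL (K := K) R
  | [], [], _, _, v, hv, _ => hv
  | ψ :: P, w :: D, h, hR, v, hv, h0 => by
    obtain ⟨h1, h2, h3, h4⟩ := h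
    rw [List.cons_append, mem_spanL_cons] at hv
    obtain ⟨a, u, hu, rfl⟩ := hv
    have hψu : ψ u = 0 := by
      have : spanL (K := K) (D ++ R) ≤ LinearMap.ker ψ := by
        rw [spanL_le]
        intro x hx
        rw [LinearMap.mem_ker]
        rcases List.mem_append.1 hx with hx | hx
        · exact h2 x hx
        · exact hR x hx ψ List.mem_cons_self
      exact this hu
    have ha : a = 0 := by
      have := h0 ψ List.mem_cons_self
      rw [map_add, map_smul, h1, hψu] at this
      simpa using this
    subst ha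
    rw [zero_smul, zero_add] at h0 ⊢
    exact mem_span_of_dual h4 (fun x hx φ hφ => hR x hx φ (List.mem_cons_of_mem _ hφ)) u hu
      fun φ hφ => h0 φ (List.mem_cons_of_mem _ hφ)
  | [], _ :: _, h, _, _, _, _ => h.elim
  | _ :: _, [], h, _, _, _, _ => h.elim

/-- **kernel**: the vectors of the span killed by all functionals are spanned by the second
component -/
theorem mem_span_snd_iff (Φ : List (V →ₗ[K] K)) (L : List V) (v : V) :
    v ∈ spanL (K := K) (elimAll Φ (([] : List V), L)).2 ↔
      v ∈ spanL (K := K) L ∧ ∀ φ ∈ Φ, φ v = 0 := by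
  obtain ⟨P, h⟩ := inv_elim Φ L
  have hs := span_elimAll Φ (([] : List V), L)
  rw [List.nil_append] at hs
  constructor
  · intro hv
    refine ⟨?_, fun φ hφ => ?_⟩
    · rw [← hs, spanL_append]
      exact Submodule.mem_sup_right hv
    · have : spanL (K := K) (elimAll Φ (([] : List V), L)).2 ≤ LinearMap.ker φ := by
        rw [spanL_le]
        intro x hx
        exact h.van x hx φ hφ
      exact this hv
  · rintro ⟨hv, h0⟩
    rw [← hs] at hv
    have hPΦ : ∀ ψ ∈ P, ψ ∈ Φ := fun ψ hψ => List.mem_reverse.1 (h.sub.subset hψ)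
    exact mem_span_of_dual h.dual (fun x hx φ hφ => h.van x hx φ (hPΦ φ hφ)) v hv
      fun φ hφ => h0 φ (hPΦ φ hφ)

omit [DecidableEq K] in
theorem linearIndependent_of_dual : ∀ {P : List (V →ₗ[K] K)} {D : List V}, Dual P D →
    LinearIndependent K D.get
  | [], [], _ => by
    haveI : IsEmpty (Fin ([] : List V).length) := inferInstanceAs (IsEmpty (Fin 0))
    exact linearIndependent_empty_type
  | ψ :: P, w :: D, h => by
    obtain ⟨h1, h2, h3, h4⟩ := h
    have ih := linearIndependent_of_dual h4
    have : (w :: D).get = Fin.cons w D.get := by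
      funext i
      refine Fin.cases ?_ (fun i => ?_) i
      · rfl
      · rfl
    rw [this, linearIndependent_finCons]
    refine ⟨ih, fun hw => ?_⟩
    have h5 : Submodule.span K (Set.range D.get) ≤ LinearMap.ker ψ := by
      rw [Submodule.span_le]
      rintro _ ⟨i, rfl⟩
      exact h2 _ (List.get_mem _ _)
    have h6 : ψ w = 0 := h5 hw
    rw [h1] at h6
    exact one_ne_zero h6
  | [], _ :: _, h => h.elim
  | _ :: _, [], h => h.elim

omit [DecidableEq K] in
theorem spanL_eq_range (l : List V) : spanL (K := K) l = Submodule.span K (Set.range l.get) := by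
  rw [spanL]
  congr 1
  ext v
  show v ∈ l ↔ _
  rw [List.mem_iff_get]
  rfl

theorem indep_fst (Φ : List (V →ₗ[K] K)) (L : List V) :
    LinearIndependent K (elimAll Φ (([] : List V), L)).1.get := by
  obtain ⟨P, h⟩ := inv_elim Φ L
  exact linearIndependent_of_dual h.dual

/-- if the given vectors are independent, so are the final ones -/
theorem indep_append (Φ : List (V →ₗ[K] K)) (L : List V) (hL : LinearIndependent K L.get) :
    LinearIndependent K ((elimAll Φ (([] : List V), L)).1 ++
      (elimAll Φ (([] : List V), L)).2).get := by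
  rw [linearIndependent_iff_card_eq_finrank_span]
  have h1 := finrank_span_eq_card hL
  rw [← spanL_eq_range] at h1
  have hs := span_elimAll Φ (([] : List V), L)
  rw [List.nil_append] at hs
  have hl := length_elimAll Φ (([] : List V), L)
  rw [Set.finrank, ← spanL_eq_range, hs, h1, Fintype.card_fin, Fintype.card_fin,
    List.length_append, hl]
  simp

omit [DecidableEq K] in
theorem linearIndependent_append_right {l l' : List V}
    (h : LinearIndependent K (l ++ l').get) : LinearIndependent K l'.get := by
  have := h.comp (fun i : Fin l'.length => (⟨l.length + i.1, by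
    rw [List.length_append]; omega⟩ : Fin (l ++ l').length)) (by
      intro i j hij
      have := congrArg Fin.val hij
      simp only at this
      exact Fin.ext (by omega))
  convert this using 1
  funext i
  simp [List.getElem_append_right]

/-- if the given vectors are independent, so are the remaining ones -/
theorem indep_snd (Φ : List (V →ₗ[K] K)) (L : List V) (hL : LinearIndependent K L.get) :
    LinearIndependent K (elimAll Φ (([] : List V), L)).2.get :=
  linearIndependent_append_right (indep_append Φ L hL)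

end Pool.Agent.RTB
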