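import Mathlib.Data.ZMod.Basic
import Mathlib.Algebra.Field.ZMod
import Pool.Agent.RTB.LinA

/-!
# Elimination over `ZMod p`, executable form

Vectors are lists of natural numbers (read modulo `p`, entries beyond the end are `0`); `m` is the
number of coordinates. All vectors produced have exactly `m` entries, all less than `p`.
-/

namespace Pool.Agent.RTB

/-- table of `m` values -/
def vt (m : ℕ) (f : ℕ → ℕ) : List ℕ := (List.range m).map f

/-- entry -/
def ent (v : List ℕ) (j : ℕ) : ℕ := v.getD j 0

/-- the vector coded by a list -/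
def toV (p m : ℕ) (v : List ℕ) : Fin m → ZMod p := fun i => ((ent v i : ℕ) : ZMod p)

/-- `v - c r` -/
def lsub (p m c : ℕ) (r v : List ℕ) : List ℕ :=
  vt m fun i => (ent v i + (p - c % p) * ent r i) % p

/-- `c v` -/
def lsmul (p m c : ℕ) (v : List ℕ) : List ℕ := vt m fun i => (c * ent v i) % p

/-- inverse modulo `p` (`p` prime), found by search -/
def pinv (p a : ℕ) : ℕ := ((List.range p).filter fun b => decide (a * b % p = 1)).headD 0

/-- kill the entry `j` of `v` -/
def elimL (p m j : ℕ) (r v : List ℕ) : List ℕ := lsub p m (ent v j) r v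

/-- make the entry `j` equal to `1` -/
def normL (p m j : ℕ) (r : List ℕ) : List ℕ := lsmul p m (pinv p (ent r j)) r

/-- one step of the elimination -/
def stepL (p m j : ℕ) (s : List (List ℕ) × List (List ℕ)) : List (List ℕ) × List (List ℕ) :=
  match s.2.filter (fun v => !decide (ent v j % p = 0)) with
  | [] => s
  | r :: l => (normL p m j r :: s.1.map (elimL p m j (normL p m j r)),
      l.map (elimL p m j (normL p m j r)) ++ s.2.filter (fun v => decide (ent v j % p = 0)))

/-- elimination in the first `n` coordinates of vectors of length `m` -/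
def elimN (p m n : ℕ) (L : List (List ℕ)) : List (List ℕ) × List (List ℕ) :=
  (List.range n).foldl (fun s j => stepL p m j s) ([], L)

theorem ent_vt {m : ℕ} (f : ℕ → ℕ) {i : ℕ} (h : i < m) : ent (vt m f) i = f i := by
  simp [ent, vt, List.getD_eq_getElem?_getD, h]

theorem ent_vt_of_le {m : ℕ} (f : ℕ → ℕ) {i : ℕ} (h : m ≤ i) : ent (vt m f) i = 0 := by
  simp only [ent, vt, List.getD_eq_getElem?_getD]
  rw [List.getElem?_eq_none (by simpa using h)]
  rfl

theorem length_vt (m : ℕ) (f : ℕ → ℕ) : (vt m f).length = m := by simp [vt]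

section
variable {p : ℕ}

theorem toV_vt {m : ℕ} (f : ℕ → ℕ) (i : Fin m) : toV p m (vt m f) i = ((f i : ℕ) : ZMod p) := by
  rw [toV, ent_vt _ i.2]

theorem toV_lsmul (m c : ℕ) (v : List ℕ) :
    toV p m (lsmul p m c v) = (c : ZMod p) • toV p m v := by
  funext i
  rw [lsmul, toV_vt, ZMod.natCast_mod, Nat.cast_mul]
  rfl

theorem cast_sub_mod [NeZero p] (c : ℕ) : ((p - c % p : ℕ) : ZMod p) = -(c : ZMod p) := by
  rw [Nat.cast_sub (Nat.mod_lt c (NeZero.pos p)).le, ZMod.natCast_self, ZMod.natCast_mod,
    zero_sub]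

theorem toV_lsub [NeZero p] (m c : ℕ) (r v : List ℕ) :
    toV p m (lsub p m c r v) = toV p m v - (c : ZMod p) • toV p m r := by
  funext i
  rw [lsub, toV_vt, ZMod.natCast_mod, Nat.cast_add, Nat.cast_mul, cast_sub_mod]
  show _ = toV p m v i - (c : ZMod p) * toV p m r i
  rw [toV, toV]
  ring

theorem pinv_spec [hp : Fact p.Prime] (a : ℕ) (ha : (a : ZMod p) ≠ 0) :
    ((pinv p a : ℕ) : ZMod p) = (a : ZMod p)⁻¹ := by
  have hne : ((List.range p).filter fun b => decide (a * b % p = 1)) ≠ [] := by
    intro h
    rw [List.filter_eq_nil_iff] at h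
    have hb := h ((a : ZMod p)⁻¹).val (List.mem_range.2 (ZMod.val_lt _))
    apply hb
    rw [decide_eq_true_iff]
    have h1 : ((a * ((a : ZMod p)⁻¹).val : ℕ) : ZMod p) = ((1 : ℕ) : ZMod p) := by
      rw [Nat.cast_mul, ZMod.natCast_zmod_val, mul_inv_cancel₀ ha, Nat.cast_one]
    rw [ZMod.natCast_eq_natCast_iff'] at h1
    rw [h1, Nat.mod_eq_of_lt hp.out.one_lt]
  rcases hl : (List.range p).filter fun b => decide (a * b % p = 1) with _ | ⟨b, l⟩
  · exact absurd hl hne
  · have hb : b ∈ (List.range p).filter fun b => decide (a * b % p = 1) := by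
      rw [hl]
      exact List.mem_cons_self
    have hb1 : a * b % p = 1 := by simpa using (List.mem_filter.1 hb).2
    have h2 : pinv p a = b := by rw [pinv, hl]; rfl
    rw [h2]
    have h3 : ((a * b : ℕ) : ZMod p) = 1 := by
      rw [← ZMod.natCast_mod, hb1, Nat.cast_one]
    rw [Nat.cast_mul] at h3
    exact (inv_eq_of_mul_eq_one_right h3).symm

/-- the coordinates as linear functionals -/
def coor (p m j : ℕ) : (Fin m → ZMod p) →ₗ[ZMod p] ZMod p :=
  if h : j < m then LinearMap.proj ⟨j, h⟩ else 0

theorem coor_toV {m j : ℕ} (h : j < m) (v : List ℕ) :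
    coor p m j (toV p m v) = ((ent v j : ℕ) : ZMod p) := by
  rw [coor, dif_pos h]
  rfl

theorem toV_elimL [hp : Fact p.Prime] {m j : ℕ} (h : j < m) (r v : List ℕ) :
    toV p m (elimL p m j r v) = elimV (coor p m j) (toV p m r) (toV p m v) := by
  rw [elimL, toV_lsub, elimV, coor_toV h]

theorem toV_normL [hp : Fact p.Prime] {m j : ℕ} (h : j < m) (r : List ℕ)
    (hr : ((ent r j : ℕ) : ZMod p) ≠ 0) :
    toV p m (normL p m j r) = normV (coor p m j) (toV p m r) := by
  rw [normL, toV_lsmul, normV, coor_toV h, pinv_spec _ hr]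

theorem decide_mod {m j : ℕ} (h : j < m) (v : List ℕ) :
    decide (ent v j % p = 0) = decide (coor p m j (toV p m v) = 0) := by
  rw [decide_eq_decide, coor_toV h, ZMod.natCast_eq_zero_iff, Nat.dvd_iff_mod_eq_zero]

/-- map a state -/
def mapS {A B : Type*} (f : A → B) (s : List A × List A) : List B × List B :=
  (s.1.map f, s.2.map f)

theorem step_sim [hp : Fact p.Prime] {m j : ℕ} (h : j < m)
    (s : List (List ℕ) × List (List ℕ)) :
    mapS (toV p m) (stepL p m j s) = stepV (coor p m j) (mapS (toV p m) s) := by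
  have h1 : (s.2.map (toV p m)).filter (fun v => !decide (coor p m j v = 0)) =
      (s.2.filter (fun v => !decide (ent v j % p = 0))).map (toV p m) := by
    rw [List.filter_map]
    congr 1
    apply List.filter_congr
    intro v _
    rw [decide_mod h]
    rfl
  have h2 : (s.2.map (toV p m)).filter (fun v => decide (coor p m j v = 0)) =
      (s.2.filter (fun v => decide (ent v j % p = 0))).map (toV p m) := by
    rw [List.filter_map]
    congr 1
    apply List.filter_congr
    intro v _
    rw [decide_mod h]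
    rfl
  rcases hl : s.2.filter (fun v => !decide (ent v j % p = 0)) with _ | ⟨r, l⟩
  · rw [hl] at h1
    have e1 : stepL p m j s = s := by simp only [stepL, hl]
    have e2 : stepV (coor p m j) (mapS (toV p m) s) = mapS (toV p m) s := by
      simp only [stepV, mapS, h1, List.map_nil]
    rw [e1, e2]
  · have hr : ((ent r j : ℕ) : ZMod p) ≠ 0 := by
      have : r ∈ s.2.filter (fun v => !decide (ent v j % p = 0)) := by
        rw [hl]
        exact List.mem_cons_self
      have h3 := (List.mem_filter.1 this).2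
      intro h4
      rw [ZMod.natCast_eq_zero_iff, Nat.dvd_iff_mod_eq_zero] at h4
      simp [h4] at h3
    rw [hl] at h1
    have e1 : stepL p m j s = (normL p m j r :: s.1.map (elimL p m j (normL p m j r)),
        l.map (elimL p m j (normL p m j r)) ++
          s.2.filter (fun v => decide (ent v j % p = 0))) := by
      simp only [stepL, hl]
    have e2 : stepV (coor p m j) (mapS (toV p m) s) =
        (normV (coor p m j) (toV p m r) :: (s.1.map (toV p m)).map
            (elimV (coor p m j) (normV (coor p m j) (toV p m r))),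
          (l.map (toV p m)).map (elimV (coor p m j) (normV (coor p m j) (toV p m r))) ++
          (s.2.map (toV p m)).filter (fun v => decide (coor p m j v = 0))) := by
      simp only [stepV, mapS, h1, List.map_cons]
    rw [e1, e2, h2]
    simp only [mapS, List.map_cons, List.map_append, List.map_map]
    rw [toV_normL h r hr]
    have e3 : ∀ v, (toV p m ∘ elimL p m j (normL p m j r)) v =
        (elimV (coor p m j) (normV (coor p m j) (toV p m r)) ∘ toV p m) v := by
      intro v
      rw [Function.comp_apply, Function.comp_apply, toV_elimL h, toV_normL h r hr]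
    rw [funext e3]

/-- the list of the first `n` coordinate functionals -/
def coors (p m n : ℕ) : List ((Fin m → ZMod p) →ₗ[ZMod p] ZMod p) :=
  (List.range n).map (coor p m)

theorem elim_sim' [hp : Fact p.Prime] {m : ℕ} : ∀ (l : List ℕ) (_ : ∀ j ∈ l, j < m)
    (s : List (List ℕ) × List (List ℕ)),
    mapS (toV p m) (l.foldl (fun s j => stepL p m j s) s) =
      elimAll (l.map (coor p m)) (mapS (toV p m) s)
  | [], _, s => rfl
  | j :: l, h, s => by
    have h1 := elim_sim' l (fun i hi => h i (List.mem_cons_of_mem _ hi)) (stepL p m j s)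
    rw [step_sim (h j List.mem_cons_self)] at h1
    exact h1

theorem elim_sim [hp : Fact p.Prime] {m n : ℕ} (hn : n ≤ m) (L : List (List ℕ)) :
    mapS (toV p m) (elimN p m n L) = elimAll (coors p m n) ([], L.map (toV p m)) :=
  elim_sim' _ (fun _ hj => (List.mem_range.1 hj).trans_le hn) _

theorem fst_sim [hp : Fact p.Prime] {m n : ℕ} (hn : n ≤ m) (L : List (List ℕ)) :
    (elimN p m n L).1.map (toV p m) = (elimAll (coors p m n) ([], L.map (toV p m))).1 :=
  congrArg Prod.fst (elim_sim hn L)

theorem snd_sim [hp : Fact p.Prime] {m n : ℕ} (hn : n ≤ m) (L : List (List ℕ)) :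
    (elimN p m n L).2.map (toV p m) = (elimAll (coors p m n) ([], L.map (toV p m))).2 :=
  congrArg Prod.snd (elim_sim hn L)

/-- the subspace spanned by a list of coded vectors -/
def sp (p m : ℕ) (L : List (List ℕ)) : Submodule (ZMod p) (Fin m → ZMod p) :=
  Submodule.span (ZMod p) {v | v ∈ L.map (toV p m)}

theorem sp_eq (m : ℕ) (L : List (List ℕ)) [Fact p.Prime] :
    sp p m L = spanL (K := ZMod p) (L.map (toV p m)) := rfl

/-- independence of a list of coded vectors -/
def Ind (p m : ℕ) (L : List (List ℕ)) : Prop :=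
  LinearIndependent (ZMod p) (L.map (toV p m)).get

/-- the vector `v` has `m` entries, all less than `p` -/
def Red (p m : ℕ) (v : List ℕ) : Prop := v.length = m ∧ ∀ x ∈ v, x < p

theorem red_vt [hp : NeZero p] (m : ℕ) (f : ℕ → ℕ) : Red p m (vt m fun i => f i % p) := by
  refine ⟨length_vt _ _, ?_⟩
  intro x hx
  simp only [vt, List.mem_map] at hx
  obtain ⟨i, _, rfl⟩ := hx
  exact Nat.mod_lt _ (NeZero.pos p)

theorem toV_inj {m : ℕ} {v w : List ℕ} (hv : Red p m v) (hw : Red p m w)
    (h : toV p m v = toV p m w) : v = w := by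
  apply List.ext_getElem (hv.1.trans hw.1.symm)
  intro i h1 h2
  have h3 := congrFun h ⟨i, hv.1 ▸ h1⟩
  simp only [toV, ent] at h3
  rw [List.getD_eq_getElem _ _ h1, List.getD_eq_getElem _ _ h2,
    ZMod.natCast_eq_natCast_iff'] at h3
  rwa [Nat.mod_eq_of_lt (hv.2 _ (List.getElem_mem h1)),
    Nat.mod_eq_of_lt (hw.2 _ (List.getElem_mem h2))] at h3

/-- a basis of the span of a list of vectors -/
def bas (p m : ℕ) (L : List (List ℕ)) : List (List ℕ) := (elimN p m m L).1

theorem elimN_snd_zero [hp : Fact p.Prime] {m : ℕ} (L : List (List ℕ)) :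
    ∀ v ∈ (elimN p m m L).2, toV p m v = 0 := by
  intro v hv
  have h1 : toV p m v ∈ spanL (K := ZMod p)
      (elimAll (coors p m m) ([], L.map (toV p m))).2 := by
    rw [← snd_sim le_rfl]
    exact mem_spanL (List.mem_map.2 ⟨v, hv, rfl⟩)
  rw [mem_span_snd_iff] at h1
  funext i
  have h2 := h1.2 (coor p m i) (by
    rw [coors, List.mem_map]
    exact ⟨i, List.mem_range.2 i.2, rfl⟩)
  rw [coor_toV i.2] at h2
  exact h2

/-- **span of `bas`** -/
theorem sp_bas [hp : Fact p.Prime] (m : ℕ) (L : List (List ℕ)) : sp p m (bas p m L) = sp p m L := by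
  rw [sp_eq, sp_eq, bas]
  have h := span_elimAll (coors p m m) ([], L.map (toV p m))
  rw [List.nil_append, ← fst_sim le_rfl, ← snd_sim le_rfl, spanL_append] at h
  rw [← h]
  have h2 : spanL (K := ZMod p) ((elimN p m m L).2.map (toV p m)) = ⊥ := by
    rw [eq_bot_iff, spanL_le]
    intro v hv
    obtain ⟨w, hw, rfl⟩ := List.mem_map.1 hv
    rw [elimN_snd_zero L w hw]
    exact Submodule.zero_mem _
  rw [h2, sup_bot_eq]

/-- **independence of `bas`** -/
theorem ind_bas [hp : Fact p.Prime] (m : ℕ) (L : List (List ℕ)) : Ind p m (bas p m L) := by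
  rw [Ind, bas, fst_sim le_rfl]
  exact indep_fst _ _

theorem finrank_of_ind [hp : Fact p.Prime] {m : ℕ} {L : List (List ℕ)} (h : Ind p m L) :
    Module.finrank (ZMod p) (sp p m L) = L.length := by
  rw [sp_eq, spanL_eq_range]
  rw [Ind] at h
  rw [finrank_span_eq_card h, Fintype.card_fin, List.length_map]

/-- the length of `bas` is the dimension of the span -/
theorem length_bas [hp : Fact p.Prime] (m : ℕ) (L : List (List ℕ)) :
    (bas p m L).length = Module.finrank (ZMod p) (sp p m L) := by
  rw [← sp_bas, finrank_of_ind (ind_bas m L)]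

end

end Pool.Agent.RTB
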