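import Mathlib.LinearAlgebra.Pi
import Mathlib.LinearAlgebra.StdBasis
import Pool.Agent.RTB.LinB

/-!
# Relations, linear systems and membership over `ZMod p`
-/

namespace Pool.Agent.RTB

/-- row `i` -/
def row (L : List (List ℕ)) (i : ℕ) : List ℕ := L.getD i []

/-- the combination of the first `k` vectors of `L` -/
def comb (p m k : ℕ) (L : List (List ℕ)) (c : Fin k → ZMod p) : Fin m → ZMod p :=
  ∑ i : Fin k, c i • toV p m (row L i)

/-- the vector `v` followed by the unit vector `e_i` of length `k` -/
def augRow (m k i : ℕ) (v : List ℕ) : List ℕ :=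
  vt (m + k) fun j => if j < m then ent v j else if j = m + i then 1 else 0

/-- augmented list -/
def augL (m k : ℕ) (L : List (List ℕ)) : List (List ℕ) :=
  (List.range k).map fun i => augRow m k i (row L i)

/-- a basis of the space of the relations `∑ c_i L_i = 0` between the first `k` vectors -/
def rels (p m k : ℕ) (L : List (List ℕ)) : List (List ℕ) :=
  (elimN p (m + k) m (augL m k L)).2.map fun v => vt k fun i => ent v (m + i) % p

/-- a solution of `∑ c_i L_i = b` -/
def solve (p m k : ℕ) (L : List (List ℕ)) (b : List ℕ) : Option (List ℕ) :=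
  match (rels p m (k + 1) (b :: L)).filter (fun c => !decide (ent c 0 % p = 0)) with
  | [] => none
  | c :: _ => some (vt k fun i => (p - pinv p (ent c 0) % p) * ent c (i + 1) % p)

/-- membership in the span -/
def memb (p m : ℕ) (L : List (List ℕ)) (b : List ℕ) : Bool := (solve p m L.length L b).isSome

section
variable {p : ℕ} [hp : Fact p.Prime]

theorem linearIndependent_map_get {K V W : Type*} [Field K] [AddCommGroup V] [Module K V]
    (f : W → V) (l : List W) :
    LinearIndependent K (l.map f).get ↔ LinearIndependent K (fun i => f (l.get i)) := by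
  rw [← linearIndependent_equiv (finCongr (List.length_map (as := l) f))]
  have : (fun i => f (l.get i)) ∘ (finCongr (List.length_map (as := l) f)) = (l.map f).get := by
    funext i
    simp
  rw [this]

/-- first part -/
def pr1 (p m k : ℕ) : (Fin (m + k) → ZMod p) →ₗ[ZMod p] (Fin m → ZMod p) :=
  LinearMap.funLeft (ZMod p) (ZMod p) (Fin.castAdd k)

/-- second part -/
def pr2 (p m k : ℕ) : (Fin (m + k) → ZMod p) →ₗ[ZMod p] (Fin k → ZMod p) :=
  LinearMap.funLeft (ZMod p) (ZMod p) (Fin.natAdd m)

theorem pr1_apply {m k : ℕ} (w : Fin (m + k) → ZMod p) (i : Fin m) :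
    pr1 p m k w i = w (Fin.castAdd k i) := rfl

theorem pr2_apply {m k : ℕ} (w : Fin (m + k) → ZMod p) (i : Fin k) :
    pr2 p m k w i = w (Fin.natAdd m i) := rfl

theorem pr1_aug (m k i : ℕ) (v : List ℕ) :
    pr1 p m k (toV p (m + k) (augRow m k i v)) = toV p m v := by
  funext j
  rw [pr1_apply, augRow, toV_vt, Fin.val_castAdd, if_pos j.2]
  rfl

theorem pr2_aug (m k : ℕ) (i : Fin k) (v : List ℕ) :
    pr2 p m k (toV p (m + k) (augRow m k i v)) = Pi.single i (1 : ZMod p) := by
  funext j
  rw [pr2_apply, augRow, toV_vt, Fin.val_natAdd, if_neg (by omega), Pi.single_apply]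
  by_cases h : j = i
  · rw [if_pos h, if_pos (by rw [h]), Nat.cast_one]
  · rw [if_neg h, if_neg (fun h1 => h (Fin.ext (by omega))), Nat.cast_zero]

/-- the augmented vectors -/
def augV (p m k : ℕ) (L : List (List ℕ)) (i : Fin k) : Fin (m + k) → ZMod p :=
  toV p (m + k) (augRow m k i (row L i))

theorem pr1_sum_augV {m k : ℕ} (L : List (List ℕ)) (c : Fin k → ZMod p) :
    pr1 p m k (∑ i, c i • augV p m k L i) = comb p m k L c := by
  rw [map_sum, comb]
  refine Finset.sum_congr rfl fun i _ => ?_
  rw [map_smul, augV, pr1_aug]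

theorem pr2_sum_augV {m k : ℕ} (L : List (List ℕ)) (c : Fin k → ZMod p) :
    pr2 p m k (∑ i, c i • augV p m k L i) = c := by
  rw [map_sum]
  have : ∀ i, pr2 p m k (c i • augV p m k L i) = Pi.single i (c i) := by
    intro i
    rw [map_smul, augV, pr2_aug, ← Pi.single_smul, smul_eq_mul, mul_one]
  rw [Finset.sum_congr rfl fun i _ => this i]
  exact Finset.univ_sum_single c

theorem linearIndependent_augV (m k : ℕ) (L : List (List ℕ)) :
    LinearIndependent (ZMod p) (augV p m k L) := by
  rw [Fintype.linearIndependent_iff]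
  intro c hc i
  have := pr2_sum_augV (p := p) (m := m) L c
  rw [hc, map_zero] at this
  exact (congrFun this i).symm

theorem map_augL (m k : ℕ) (L : List (List ℕ)) :
    (augL m k L).map (toV p (m + k)) =
      (List.finRange k).map (augV p m k L) := by
  rw [augL, List.map_map, ← List.map_coe_finRange_eq_range, List.map_map]
  rfl

theorem ind_augL (m k : ℕ) (L : List (List ℕ)) : Ind p (m + k) (augL m k L) := by
  rw [Ind, map_augL, linearIndependent_map_get]
  have h := linearIndependent_augV (p := p) m k L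
  exact h.comp (fun i => (List.finRange k).get i)
    (List.nodup_iff_injective_get.1 (List.nodup_finRange k))

theorem mem_span_augL {m k : ℕ} {L : List (List ℕ)} {w : Fin (m + k) → ZMod p} :
    w ∈ spanL (K := ZMod p) ((augL m k L).map (toV p (m + k))) ↔
      ∃ c : Fin k → ZMod p, ∑ i, c i • augV p m k L i = w := by
  rw [map_augL, ← Submodule.mem_span_range_iff_exists_fun, spanL]
  have : {v | v ∈ (List.finRange k).map (augV p m k L)} = Set.range (augV p m k L) := by
    ext v
    simp [List.mem_finRange]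
  rw [this]

theorem toV_pr2 (m k : ℕ) (v : List ℕ) :
    toV p k (vt k fun i => ent v (m + i) % p) = pr2 p m k (toV p (m + k) v) := by
  funext i
  rw [toV_vt, ZMod.natCast_mod]
  rfl

theorem sp_rels (m k : ℕ) (L : List (List ℕ)) :
    sp p k (rels p m k L) = Submodule.map (pr2 p m k)
      (spanL (K := ZMod p) (elimAll (coors p (m + k) m) ([], (augL m k L).map
        (toV p (m + k)))).2) := by
  rw [← snd_sim (Nat.le_add_right m k), sp_eq, spanL, spanL, Submodule.map_span]
  congr 1
  ext c
  show c ∈ _ ↔ c ∈ _ '' {v | v ∈ _}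
  rw [rels, List.map_map]
  simp only [List.mem_map, Function.comp_apply, Set.mem_image]
  constructor
  · rintro ⟨v, hv, rfl⟩
    exact ⟨_, ⟨v, hv, rfl⟩, (toV_pr2 m k v).symm⟩
  · rintro ⟨_, ⟨v, hv, rfl⟩, rfl⟩
    exact ⟨v, hv, toV_pr2 m k v⟩

theorem coors_zero_iff {m k : ℕ} (w : Fin (m + k) → ZMod p) :
    (∀ φ ∈ coors p (m + k) m, φ w = 0) ↔ pr1 p m k w = 0 := by
  constructor
  · intro h
    funext i
    have := h (coor p (m + k) i) (List.mem_map.2 ⟨i, List.mem_range.2 i.2, rfl⟩)
    rw [coor, dif_pos (show (i : ℕ) < m + k by omega)] at this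
    exact this
  · intro h φ hφ
    obtain ⟨j, hj, rfl⟩ := List.mem_map.1 hφ
    have hj' := List.mem_range.1 hj
    rw [coor, dif_pos (show j < m + k by omega)]
    exact congrFun h ⟨j, hj'⟩

/-- **the relations** -/
theorem mem_rels {m k : ℕ} {L : List (List ℕ)} {c : Fin k → ZMod p} :
    c ∈ sp p k (rels p m k L) ↔ comb p m k L c = 0 := by
  rw [sp_rels, Submodule.mem_map]
  constructor
  · rintro ⟨w, hw, rfl⟩
    rw [mem_span_snd_iff, coors_zero_iff, mem_span_augL] at hw
    obtain ⟨⟨c, rfl⟩, h0⟩ := hw
    rw [pr2_sum_augV]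
    rwa [pr1_sum_augV] at h0
  · intro h
    refine ⟨∑ i, c i • augV p m k L i, ?_, pr2_sum_augV L c⟩
    rw [mem_span_snd_iff, coors_zero_iff, mem_span_augL]
    exact ⟨⟨c, rfl⟩, by rw [pr1_sum_augV, h]⟩

/-- **the relations are independent** -/
theorem ind_rels (m k : ℕ) (L : List (List ℕ)) : Ind p k (rels p m k L) := by
  have h1 : LinearIndependent (ZMod p)
      (((elimN p (m + k) m (augL m k L)).2).map (toV p (m + k))).get := by
    rw [snd_sim (Nat.le_add_right m k)]
    exact indep_snd _ _ (ind_augL m k L)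
  rw [linearIndependent_map_get] at h1
  rw [Ind, rels, List.map_map, linearIndependent_map_get]
  have h2 := h1.map_injOn (pr2 p m k) (by
    intro x hx y hy hxy
    have key : ∀ w ∈ Submodule.span (ZMod p) (Set.range fun i =>
        toV p (m + k) ((elimN p (m + k) m (augL m k L)).2.get i)), pr1 p m k w = 0 := by
      intro w hw
      rw [← coors_zero_iff]
      have h3 : w ∈ spanL (K := ZMod p)
          (elimAll (coors p (m + k) m) ([], (augL m k L).map (toV p (m + k)))).2 := by
        rw [← snd_sim (Nat.le_add_right m k)]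
        revert hw w
        change Submodule.span (ZMod p) _ ≤ _
        rw [Submodule.span_le]
        rintro _ ⟨i, rfl⟩
        exact mem_spanL (List.mem_map.2 ⟨_, List.get_mem _ _, rfl⟩)
      rw [mem_span_snd_iff] at h3
      exact h3.2
    have hx0 := key x hx
    have hy0 := key y hy
    funext i
    refine Fin.addCases (fun j => ?_) (fun j => ?_) i
    · exact (congrFun hx0 j).trans (congrFun hy0 j).symm
    · exact congrFun hxy j)
  have h4 : (fun i => ((toV p k ∘ fun v => vt k fun i => ent v (m + i) % p)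
      ((elimN p (m + k) m (augL m k L)).2.get i))) =
      (pr2 p m k) ∘ fun i => toV p (m + k) ((elimN p (m + k) m (augL m k L)).2.get i) := by
    funext i
    exact toV_pr2 m k _
  rw [h4]
  exact h2

theorem red_rels (m k : ℕ) (L : List (List ℕ)) : ∀ v ∈ rels p m k L, Red p k v := by
  intro v hv
  rw [rels] at hv
  obtain ⟨w, _, rfl⟩ := List.mem_map.1 hv
  exact red_vt k _

theorem row_cons_zero (b : List ℕ) (L : List (List ℕ)) : row (b :: L) 0 = b := rfl

theorem row_cons_succ (b : List ℕ) (L : List (List ℕ)) (i : ℕ) :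
    row (b :: L) (i + 1) = row L i := rfl

theorem comb_cons {m k : ℕ} (b : List ℕ) (L : List (List ℕ)) (c : Fin (k + 1) → ZMod p) :
    comb p m (k + 1) (b :: L) c = c 0 • toV p m b + comb p m k L (fun i => c i.succ) := by
  rw [comb, Fin.sum_univ_succ]
  rfl

theorem comb_smul {m k : ℕ} (L : List (List ℕ)) (a : ZMod p) (c : Fin k → ZMod p) :
    comb p m k L (fun i => a * c i) = a • comb p m k L c := by
  rw [comb, comb, Finset.smul_sum]
  refine Finset.sum_congr rfl fun i _ => ?_
  rw [smul_smul]

/-- the vector found solves the system -/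
theorem solve_some {m k : ℕ} {L : List (List ℕ)} {b c : List ℕ}
    (h : solve p m k L b = some c) : comb p m k L (toV p k c) = toV p m b ∧ Red p k c := by
  unfold solve at h
  rcases hl : (rels p m (k + 1) (b :: L)).filter (fun c => !decide (ent c 0 % p = 0))
    with _ | ⟨d, l⟩
  · rw [hl] at h
    simp at h
  · rw [hl] at h
    simp only [Option.some.injEq] at h
    subst h
    refine ⟨?_, red_vt k _⟩
    have hd : d ∈ (rels p m (k + 1) (b :: L)).filter (fun c => !decide (ent c 0 % p = 0)) := by
      rw [hl]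
      exact List.mem_cons_self
    obtain ⟨hd1, hd2⟩ := List.mem_filter.1 hd
    have hd0 : ((ent d 0 : ℕ) : ZMod p) ≠ 0 := by
      intro h4
      rw [ZMod.natCast_eq_zero_iff, Nat.dvd_iff_mod_eq_zero] at h4
      simp [h4] at hd2
    have h5 : comb p m (k + 1) (b :: L) (toV p (k + 1) d) = 0 := by
      rw [← mem_rels, sp_eq]
      exact mem_spanL (List.mem_map.2 ⟨d, hd1, rfl⟩)
    rw [comb_cons] at h5
    have h6 : toV p k (vt k fun i => (p - pinv p (ent d 0) % p) * ent d (i + 1) % p) =
        fun i => (-((ent d 0 : ℕ) : ZMod p)⁻¹) * (toV p (k + 1) d) i.succ := by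
      funext i
      rw [toV_vt, ZMod.natCast_mod, Nat.cast_mul, cast_sub_mod, pinv_spec _ hd0]
      rfl
    rw [h6, comb_smul]
    have h7 : comb p m k L (fun i => (toV p (k + 1) d) i.succ) =
        -(((ent d 0 : ℕ) : ZMod p) • toV p m b) := by
      rw [eq_neg_iff_add_eq_zero, add_comm]
      exact h5
    rw [h7, smul_neg, neg_smul, neg_neg, smul_smul, inv_mul_cancel₀ hd0, one_smul]

/-- if nothing is found there is no solution -/
theorem solve_none {m k : ℕ} {L : List (List ℕ)} {b : List ℕ}
    (h : solve p m k L b = none) (c : Fin k → ZMod p) : comb p m k L c ≠ toV p m b := by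
  intro hc
  unfold solve at h
  rcases hl : (rels p m (k + 1) (b :: L)).filter (fun c => !decide (ent c 0 % p = 0))
    with _ | ⟨d, l⟩
  · rw [List.filter_eq_nil_iff] at hl
    have h1 : (Fin.cons 1 fun i => -1 * c i : Fin (k + 1) → ZMod p) ∈
        sp p (k + 1) (rels p m (k + 1) (b :: L)) := by
      rw [mem_rels, comb_cons]
      simp only [Fin.cons_zero, Fin.cons_succ]
      rw [comb_smul, hc, one_smul, neg_smul, one_smul, add_neg_cancel]
    have h2 : sp p (k + 1) (rels p m (k + 1) (b :: L)) ≤
        LinearMap.ker (LinearMap.proj (R := ZMod p) (φ := fun _ : Fin (k + 1) => ZMod p) 0) := by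
      rw [sp_eq, spanL_le]
      intro v hv
      obtain ⟨w, hw, rfl⟩ := List.mem_map.1 hv
      have h3 := hl w hw
      rw [LinearMap.mem_ker, LinearMap.proj_apply]
      show ((ent w 0 : ℕ) : ZMod p) = 0
      rw [ZMod.natCast_eq_zero_iff, Nat.dvd_iff_mod_eq_zero]
      simpa using h3
    have h4 := h2 h1
    rw [LinearMap.mem_ker, LinearMap.proj_apply, Fin.cons_zero] at h4
    exact one_ne_zero h4
  · rw [hl] at h
    simp at h

theorem solve_isSome_iff {m k : ℕ} {L : List (List ℕ)} {b : List ℕ} :
    (solve p m k L b).isSome = true ↔ ∃ c : Fin k → ZMod p, comb p m k L c = toV p m b := by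
  rcases h : solve p m k L b with _ | c
  · simp only [Option.isSome_none, Bool.false_eq_true, false_iff, not_exists]
    exact solve_none h
  · simp only [Option.isSome_some, true_iff]
    exact ⟨_, (solve_some h).1⟩

theorem mem_sp_iff_comb {m : ℕ} {L : List (List ℕ)} {x : Fin m → ZMod p} :
    x ∈ sp p m L ↔ ∃ c : Fin L.length → ZMod p, comb p m L.length L c = x := by
  rw [sp]
  have : {v | v ∈ L.map (toV p m)} =
      Set.range (fun i : Fin L.length => toV p m (row L i)) := by
    ext v
    show v ∈ L.map (toV p m) ↔ _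
    rw [List.mem_map, Set.mem_range]
    constructor
    · rintro ⟨w, hw, rfl⟩
      obtain ⟨i, hi, rfl⟩ := List.mem_iff_getElem.1 hw
      exact ⟨⟨i, hi⟩, by rw [row, List.getD_eq_getElem _ _ hi]⟩
    · rintro ⟨i, rfl⟩
      refine ⟨row L i, ?_, rfl⟩
      rw [row, List.getD_eq_getElem _ _ i.2]
      exact List.getElem_mem _
  rw [this, Submodule.mem_span_range_iff_exists_fun]
  rfl

/-- **membership** -/
theorem memb_iff {m : ℕ} {L : List (List ℕ)} {b : List ℕ} :
    memb p m L b = true ↔ toV p m b ∈ sp p m L := by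
  rw [memb, solve_isSome_iff, mem_sp_iff_comb]

end

end Pool.Agent.RTB
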