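import Mathlib.LinearAlgebra.Matrix.Rank
import Mathlib.LinearAlgebra.Matrix.NonsingularInverse
import Pool.Agent.RTB.LinC

/-!
# Matrices over `ZMod p`, executable form

A matrix is the list of its rows. `toM p m n A` is the `m × n` matrix coded by `A`.
-/

namespace Pool.Agent.RTB

open Matrix

/-- table matrix -/
def mt (m n : ℕ) (f : ℕ → ℕ → ℕ) : List (List ℕ) := (List.range m).map fun i => vt n (f i)

/-- entry of a matrix -/
def entM (A : List (List ℕ)) (i j : ℕ) : ℕ := ent (row A i) j

/-- the matrix coded by a list of rows -/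
def toM (p m n : ℕ) (A : List (List ℕ)) : Matrix (Fin m) (Fin n) (ZMod p) :=
  Matrix.of fun i j => ((entM A i j : ℕ) : ZMod p)

/-- sum over `0, .., n - 1` -/
def sm (n : ℕ) (f : ℕ → ℕ) : ℕ := ((List.range n).map f).sum

/-- matrix times vector (`m × n` matrix) -/
def mulVecL (p m n : ℕ) (A : List (List ℕ)) (x : List ℕ) : List ℕ :=
  vt m fun i => sm n (fun j => entM A i j * ent x j) % p

/-- product of an `m × n` and an `n × k` matrix -/
def mulL (p m n k : ℕ) (A B : List (List ℕ)) : List (List ℕ) :=
  mt m k fun i j => sm n (fun l => entM A i l * entM B l j) % p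

/-- transpose of an `m × n` matrix -/
def transpL (m n : ℕ) (A : List (List ℕ)) : List (List ℕ) := mt n m fun i j => entM A j i

/-- sum of two matrices -/
def addL (p m n : ℕ) (A B : List (List ℕ)) : List (List ℕ) :=
  mt m n fun i j => (entM A i j + entM B i j) % p

/-- multiple of a matrix -/
def smulL (p m n c : ℕ) (A : List (List ℕ)) : List (List ℕ) :=
  mt m n fun i j => (c * entM A i j) % p

/-- unit vector -/
def unitL (m i : ℕ) : List ℕ := vt m fun j => if j = i then 1 else 0

/-- identity matrix -/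
def idL (m : ℕ) : List (List ℕ) := (List.range m).map (unitL m)

/-- rank of an `m × n` matrix -/
def rkL (p m n : ℕ) (A : List (List ℕ)) : ℕ := (bas p n ((List.range m).map (row A))).length

/-- basis of the kernel of an `m × n` matrix -/
def kerL (p m n : ℕ) (A : List (List ℕ)) : List (List ℕ) := rels p m n (transpL m n A)

/-- solution of `A x = b` -/
def solveL (p m n : ℕ) (A : List (List ℕ)) (b : List ℕ) : Option (List ℕ) :=
  solve p m n (transpL m n A) b

/-- spanning vectors of the preimage of the span of `W` under an `m × n` matrix -/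
def preimL (p m n : ℕ) (A W : List (List ℕ)) : List (List ℕ) :=
  (rels p m (n + W.length) (transpL m n A ++ W)).map fun v => vt n fun i => ent v i % p

/-- inverse of an `n × n` matrix -/
def invL (p n : ℕ) (A : List (List ℕ)) : List (List ℕ) :=
  transpL n n ((List.range n).map fun j => (solveL p n n A (unitL n j)).getD [])

/-- add to `W` those vectors of `L` which are not in the span of the earlier ones -/
def greedy (p m : ℕ) (W L : List (List ℕ)) : List (List ℕ) :=
  L.foldl (fun cur v => if memb p m cur v then cur else cur ++ [v]) W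

/-- extend `W` to a basis of the whole space by unit vectors -/
def extL (p m : ℕ) (W : List (List ℕ)) : List (List ℕ) := greedy p m W (idL m)

section
variable {p : ℕ}

theorem row_map_range {m : ℕ} (f : ℕ → List ℕ) {i : ℕ} (h : i < m) :
    row ((List.range m).map f) i = f i := by
  simp [row, List.getD_eq_getElem?_getD, h]

theorem entM_mt {m n : ℕ} (f : ℕ → ℕ → ℕ) {i j : ℕ} (hi : i < m) (hj : j < n) :
    entM (mt m n f) i j = f i j := by
  rw [entM, mt, row_map_range _ hi, ent_vt _ hj]

theorem toM_mt {m n : ℕ} (f : ℕ → ℕ → ℕ) :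
    toM p m n (mt m n f) =
      Matrix.of fun (i : Fin m) (j : Fin n) => ((f i j : ℕ) : ZMod p) := by
  ext i j
  rw [toM, Matrix.of_apply, Matrix.of_apply, entM_mt _ i.2 j.2]

theorem toM_apply {m n : ℕ} (A : List (List ℕ)) (i : Fin m) (j : Fin n) :
    toM p m n A i j = ((entM A i j : ℕ) : ZMod p) := rfl

theorem toM_row {m n : ℕ} (A : List (List ℕ)) (i : Fin m) :
    toM p m n A i = toV p n (row A i) := rfl

theorem sm_eq (n : ℕ) (f : ℕ → ℕ) : sm n f = ∑ i ∈ Finset.range n, f i := by
  induction n with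
  | zero => rfl
  | succ n ih =>
    rw [Finset.sum_range_succ, ← ih, sm, sm, List.range_succ, List.map_append, List.sum_append]
    simp

theorem cast_sm (n : ℕ) (f : ℕ → ℕ) :
    ((sm n f : ℕ) : ZMod p) = ∑ i : Fin n, ((f i : ℕ) : ZMod p) := by
  rw [sm_eq, Finset.sum_range, Nat.cast_sum]

theorem toV_mulVecL (m n : ℕ) (A : List (List ℕ)) (x : List ℕ) :
    toV p m (mulVecL p m n A x) = toM p m n A *ᵥ toV p n x := by
  funext i
  rw [mulVecL, toV_vt, ZMod.natCast_mod, cast_sm]
  refine Finset.sum_congr rfl fun j _ => ?_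
  rw [Nat.cast_mul]
  rfl

theorem toM_mulL (m n k : ℕ) (A B : List (List ℕ)) :
    toM p m k (mulL p m n k A B) = toM p m n A * toM p n k B := by
  rw [mulL, toM_mt]
  ext i j
  rw [Matrix.of_apply, ZMod.natCast_mod, cast_sm, Matrix.mul_apply]
  refine Finset.sum_congr rfl fun l _ => ?_
  rw [Nat.cast_mul]
  rfl

theorem toM_transpL (m n : ℕ) (A : List (List ℕ)) :
    toM p n m (transpL m n A) = (toM p m n A)ᵀ := by
  rw [transpL, toM_mt]
  rfl

theorem toM_addL (m n : ℕ) (A B : List (List ℕ)) :
    toM p m n (addL p m n A B) = toM p m n A + toM p m n B := by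
  rw [addL, toM_mt]
  ext i j
  rw [Matrix.of_apply, ZMod.natCast_mod, Nat.cast_add]
  rfl

theorem toM_smulL (m n c : ℕ) (A : List (List ℕ)) :
    toM p m n (smulL p m n c A) = (c : ZMod p) • toM p m n A := by
  rw [smulL, toM_mt]
  ext i j
  rw [Matrix.of_apply, ZMod.natCast_mod, Nat.cast_mul]
  rfl

theorem toV_unitL {m : ℕ} (i : Fin m) : toV p m (unitL m i) = Pi.single i (1 : ZMod p) := by
  funext j
  rw [unitL, toV_vt, Pi.single_apply]
  by_cases h : j = i
  · rw [if_pos h, if_pos (by rw [h]), Nat.cast_one]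
  · rw [if_neg h, if_neg (fun h1 => h (Fin.ext h1)), Nat.cast_zero]

theorem toM_idL (m : ℕ) : toM p m m (idL m) = 1 := by
  ext i j
  have h : toM p m m (idL m) i j = toV p m (unitL m i) j := by
    rw [toM_row, idL, row_map_range _ i.2]
  rw [h, toV_unitL, Pi.single_apply, Matrix.one_apply]
  simp only [eq_comm]

theorem row_append_left {A B : List (List ℕ)} {i : ℕ} (h : i < A.length) :
    row (A ++ B) i = row A i := by
  rw [row, row, List.getD_eq_getElem?_getD, List.getD_eq_getElem?_getD,
    List.getElem?_append_left h]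

theorem row_append_right {A B : List (List ℕ)} {i : ℕ} :
    row (A ++ B) (A.length + i) = row B i := by
  rw [row, row, List.getD_eq_getElem?_getD, List.getD_eq_getElem?_getD,
    List.getElem?_append_right (by omega)]
  congr 2
  omega

theorem length_transpL (m n : ℕ) (A : List (List ℕ)) : (transpL m n A).length = n := by
  simp [transpL, mt]

variable [hp : Fact p.Prime]

theorem comb_transpL {m n : ℕ} (A : List (List ℕ)) (c : Fin n → ZMod p) :
    comb p m n (transpL m n A) c = toM p m n A *ᵥ c := by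
  funext i
  rw [comb, Finset.sum_apply]
  refine Finset.sum_congr rfl fun j _ => ?_
  show c j * toV p m (row (transpL m n A) j) i = toM p m n A i j * c j
  have h : toV p m (row (transpL m n A) j) i = toM p n m (transpL m n A) j i := rfl
  rw [h, toM_transpL, mul_comm]
  rfl

/-- **rank** -/
theorem rkL_eq (m n : ℕ) (A : List (List ℕ)) : rkL p m n A = (toM p m n A).rank := by
  have hs : {v | v ∈ ((List.range m).map (row A)).map (toV p n)} =
      Set.range (toM p m n A).row := by
    ext v
    show v ∈ List.map _ _ ↔ _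
    rw [List.map_map, List.mem_map, Set.mem_range]
    constructor
    · rintro ⟨i, hi, rfl⟩
      exact ⟨⟨i, List.mem_range.1 hi⟩, rfl⟩
    · rintro ⟨i, rfl⟩
      exact ⟨i, List.mem_range.2 i.2, rfl⟩
  rw [rkL, length_bas, Matrix.rank_eq_finrank_span_row, sp, hs]

/-- **kernel** -/
theorem mem_kerL {m n : ℕ} {A : List (List ℕ)} {x : Fin n → ZMod p} :
    x ∈ sp p n (kerL p m n A) ↔ toM p m n A *ᵥ x = 0 := by
  rw [kerL, mem_rels, comb_transpL]

theorem ind_kerL (m n : ℕ) (A : List (List ℕ)) : Ind p n (kerL p m n A) := ind_rels _ _ _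

theorem red_kerL (m n : ℕ) (A : List (List ℕ)) : ∀ v ∈ kerL p m n A, Red p n v :=
  red_rels _ _ _

theorem solveL_some {m n : ℕ} {A : List (List ℕ)} {b c : List ℕ}
    (h : solveL p m n A b = some c) : toM p m n A *ᵥ toV p n c = toV p m b ∧ Red p n c := by
  have := solve_some h
  rwa [comb_transpL] at this

theorem solveL_isSome_iff {m n : ℕ} {A : List (List ℕ)} {b : List ℕ} :
    (solveL p m n A b).isSome = true ↔ ∃ x, toM p m n A *ᵥ x = toV p m b := by
  rw [solveL, solve_isSome_iff]
  simp only [comb_transpL]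

/-- **image** -/
theorem sp_map_mulVecL (m n : ℕ) (A U : List (List ℕ)) :
    sp p m (U.map (mulVecL p m n A)) = Submodule.map (toM p m n A).mulVecLin (sp p n U) := by
  rw [sp, sp, Submodule.map_span]
  congr 1
  ext v
  show v ∈ List.map _ _ ↔ _
  rw [List.map_map, List.mem_map, Set.mem_image]
  constructor
  · rintro ⟨u, hu, rfl⟩
    exact ⟨toV p n u, List.mem_map.2 ⟨u, hu, rfl⟩, (toV_mulVecL m n A u).symm⟩
  · rintro ⟨w, hw, rfl⟩
    obtain ⟨u, hu, rfl⟩ := List.mem_map.1 hw
    exact ⟨u, hu, toV_mulVecL m n A u⟩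

theorem comb_append {m n w : ℕ} {L L' : List (List ℕ)} (hL : L.length = n)
    (c : Fin (n + w) → ZMod p) :
    comb p m (n + w) (L ++ L') c = comb p m n L (fun i => c (Fin.castAdd w i)) +
      comb p m w L' (fun i => c (Fin.natAdd n i)) := by
  subst hL
  rw [comb, Fin.sum_univ_add]
  congr 1
  · refine Finset.sum_congr rfl fun i _ => ?_
    rw [Fin.val_castAdd, row_append_left i.2]
  · refine Finset.sum_congr rfl fun i _ => ?_
    rw [Fin.val_natAdd, row_append_right]

/-- **preimage** -/
theorem mem_preimL {m n : ℕ} {A W : List (List ℕ)} {x : Fin n → ZMod p} :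
    x ∈ sp p n (preimL p m n A W) ↔ toM p m n A *ᵥ x ∈ sp p m W := by
  have h1 : sp p n (preimL p m n A W) = Submodule.map (LinearMap.funLeft (ZMod p) (ZMod p)
      (Fin.castAdd W.length)) (sp p (n + W.length) (rels p m (n + W.length)
        (transpL m n A ++ W))) := by
    rw [sp, sp, Submodule.map_span]
    congr 1
    ext v
    show v ∈ List.map _ _ ↔ _
    have key : ∀ v : List ℕ, toV p n (vt n fun i => ent v i % p) =
        LinearMap.funLeft (ZMod p) (ZMod p) (Fin.castAdd W.length)
          (toV p (n + W.length) v) := by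
      intro v
      funext i
      rw [toV_vt, ZMod.natCast_mod]
      rfl
    rw [preimL, List.map_map, List.mem_map, Set.mem_image]
    constructor
    · rintro ⟨u, hu, rfl⟩
      exact ⟨toV p _ u, List.mem_map.2 ⟨u, hu, rfl⟩, (key u).symm⟩
    · rintro ⟨w, hw, rfl⟩
      obtain ⟨u, hu, rfl⟩ := List.mem_map.1 hw
      exact ⟨u, hu, key u⟩
  rw [h1, Submodule.mem_map]
  constructor
  · rintro ⟨c, hc, rfl⟩
    rw [mem_rels, comb_append (length_transpL m n A), comb_transpL, add_eq_zero_iff_eq_neg]
      at hc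
    show toM p m n A *ᵥ (fun i => c (Fin.castAdd W.length i)) ∈ _
    rw [hc]
    exact Submodule.neg_mem _ (mem_sp_iff_comb.2 ⟨_, rfl⟩)
  · intro h
    obtain ⟨c, hc⟩ := mem_sp_iff_comb.1 h
    refine ⟨Fin.append x (fun i => -1 * c i), ?_, ?_⟩
    · rw [mem_rels, comb_append (length_transpL m n A), comb_transpL]
      simp only [Fin.append_left, Fin.append_right]
      rw [comb_smul, hc, neg_smul, one_smul, add_neg_cancel]
    · funext i
      rw [LinearMap.funLeft_apply, Fin.append_left]

theorem toM_invL_aux {n : ℕ} {A : List (List ℕ)} (h : IsUnit (toM p n n A)) (j : Fin n) :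
    toM p n n A *ᵥ toV p n ((solveL p n n A (unitL n j)).getD []) = Pi.single j 1 := by
  have h1 : (solveL p n n A (unitL n j)).isSome = true := by
    rw [solveL_isSome_iff]
    refine ⟨(toM p n n A)⁻¹ *ᵥ toV p n (unitL n j), ?_⟩
    rw [Matrix.mulVec_mulVec, Matrix.mul_nonsing_inv _ ((Matrix.isUnit_iff_isUnit_det _).1 h),
      Matrix.one_mulVec]
  obtain ⟨c, hc⟩ := Option.isSome_iff_exists.1 h1
  rw [hc, Option.getD_some, (solveL_some hc).1, toV_unitL]

/-- **inverse** -/
theorem toM_invL {n : ℕ} {A : List (List ℕ)} (h : IsUnit (toM p n n A)) :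
    toM p n n (invL p n A) = (toM p n n A)⁻¹ := by
  refine (Matrix.inv_eq_right_inv ?_).symm
  rw [invL, toM_transpL]
  ext i j
  have h1 := congrFun (toM_invL_aux h j) i
  rw [Matrix.one_apply]
  rw [Pi.single_apply] at h1
  rw [← h1, Matrix.mul_apply, Matrix.mulVec, dotProduct]
  refine Finset.sum_congr rfl fun l _ => ?_
  congr 1
  rw [Matrix.transpose_apply, toM_row, row_map_range _ j.2]

theorem ind_append_singleton {m : ℕ} {L : List (List ℕ)} {v : List ℕ} (h : Ind p m L)
    (hv : toV p m v ∉ sp p m L) : Ind p m (L ++ [v]) := by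
  rw [Ind, linearIndependent_map_get] at h ⊢
  have h1 : LinearIndependent (ZMod p) (Fin.snoc (fun i => toV p m (L.get i)) (toV p m v) :
      Fin (L.length + 1) → Fin m → ZMod p) := by
    rw [linearIndependent_finSnoc]
    refine ⟨h, ?_⟩
    intro h2
    apply hv
    have h3 : Submodule.span (ZMod p) (Set.range fun i => toV p m (L.get i)) ≤ sp p m L := by
      rw [Submodule.span_le]
      rintro _ ⟨i, rfl⟩
      exact Submodule.subset_span (List.mem_map.2 ⟨_, List.get_mem _ _, rfl⟩)
    exact h3 h2
  rw [← linearIndependent_equiv (finCongr (show L.length + 1 = (L ++ [v]).length by simp))]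
  have e : (fun i => toV p m ((L ++ [v]).get i)) ∘
      (finCongr (show L.length + 1 = (L ++ [v]).length by simp)) =
      Fin.snoc (fun i => toV p m (L.get i)) (toV p m v) := by
    funext i
    refine Fin.lastCases ?_ (fun i => ?_) i
    · simp
    · simp
  rw [e]
  exact h1

theorem greedy_spec {m : ℕ} : ∀ (L W : List (List ℕ)),
    (∃ E : List (List ℕ), E.Sublist L ∧ greedy p m W L = W ++ E) ∧
      sp p m (greedy p m W L) = sp p m W ⊔ sp p m L ∧ (Ind p m W → Ind p m (greedy p m W L))
  | [], W => by
    refine ⟨⟨[], List.Sublist.refl _, by simp [greedy]⟩, ?_, fun h => h⟩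
    have : sp p m ([] : List (List ℕ)) = ⊥ := by simp [sp]
    rw [this, sup_bot_eq]
    rfl
  | v :: L, W => by
    have hc : sp p m (v :: L) = sp p m [v] ⊔ sp p m L := by
      rw [sp_eq, sp_eq, sp_eq, ← spanL_append]
      rfl
    by_cases h : memb p m W v = true
    · have e : greedy p m W (v :: L) = greedy p m W L := by
        rw [greedy, List.foldl_cons, if_pos h]
        rfl
      obtain ⟨⟨E, hE1, hE2⟩, h2, h3⟩ := greedy_spec L W
      rw [e]
      refine ⟨⟨E, hE1.cons v, hE2⟩, ?_, h3⟩
      rw [h2, hc, ← sup_assoc]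
      congr 1
      rw [eq_comm, sup_eq_left, sp_eq, spanL_le]
      intro w hw
      rw [List.map_cons, List.map_nil, List.mem_singleton] at hw
      subst hw
      exact memb_iff.1 h
    · have e : greedy p m W (v :: L) = greedy p m (W ++ [v]) L := by
        rw [greedy, List.foldl_cons, if_neg h]
        rfl
      obtain ⟨⟨E, hE1, hE2⟩, h2, h3⟩ := greedy_spec L (W ++ [v])
      rw [e]
      refine ⟨⟨v :: E, hE1.cons_cons v, by rw [hE2, List.append_assoc]; rfl⟩, ?_, fun hW => ?_⟩
      · rw [h2, hc, ← sup_assoc]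
        congr 1
        rw [sp_eq, sp_eq, sp_eq, ← spanL_append, List.map_append]
      · exact h3 (ind_append_singleton hW fun h4 => h (memb_iff.2 h4))

theorem sp_idL (m : ℕ) : sp p m (idL m) = ⊤ := by
  rw [eq_top_iff]
  intro x _
  rw [← Finset.univ_sum_single x]
  refine Submodule.sum_mem _ fun i _ => ?_
  have : (Pi.single i (x i) : Fin m → ZMod p) = x i • toV p m (unitL m i) := by
    rw [toV_unitL, ← Pi.single_smul, smul_eq_mul, mul_one]
  rw [this]
  refine Submodule.smul_mem _ _ (Submodule.subset_span ?_)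
  refine List.mem_map.2 ⟨unitL m i, ?_, rfl⟩
  exact List.mem_map.2 ⟨i, List.mem_range.2 i.2, rfl⟩

/-- **extension to a basis** -/
theorem extL_spec {m : ℕ} {W : List (List ℕ)} (h : Ind p m W) :
    (∃ E : List (List ℕ), E.Sublist (idL m) ∧ extL p m W = W ++ E) ∧
      sp p m (extL p m W) = ⊤ ∧ Ind p m (extL p m W) ∧ (extL p m W).length = m := by
  obtain ⟨h1, h2, h3⟩ := greedy_spec (p := p) (m := m) (idL m) W
  refine ⟨h1, ?_, h3 h, ?_⟩
  · rw [extL, h2, sp_idL, sup_top_eq]
  · rw [extL, ← finrank_of_ind (h3 h), h2, sp_idL, sup_top_eq, finrank_top,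
      Module.finrank_fin_fun]

/-- a list of `m` independent vectors is an invertible matrix (rows) -/
theorem isUnit_of_ind {m : ℕ} {L : List (List ℕ)} (h : Ind p m L) (hl : L.length = m) :
    IsUnit (toM p m m L) := by
  subst hl
  rw [← Matrix.linearIndependent_rows_iff_isUnit]
  rw [Ind, linearIndependent_map_get] at h
  have e : (toM p L.length L.length L).row = fun i => toV p L.length (L.get i) := by
    funext i
    show toV p _ (row L i) = _
    rw [row, List.getD_eq_getElem _ _ i.2]
    rfl
  rw [e]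
  exact h

end

end Pool.Agent.RTB
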