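import Pool.Agent.RTO.PolyD

/-!
# A prime above `n` (in unary)
-/

namespace Pool.Agent.RTB

open Pool.Agent.TM2Lib Pool.Agent.M3

/-- primality by trial division -/
def isPr (k : ℕ) : Bool :=
  decide (2 ≤ k) && (List.range k).all fun d => !(decide (2 ≤ d) && decide (k % d = 0))

theorem isPr_iff (k : ℕ) : isPr k = true ↔ k.Prime := by
  unfold isPr
  rw [Bool.and_eq_true, decide_eq_true_iff, List.all_eq_true]
  constructor
  · rintro ⟨h2, h⟩
    rw [Nat.prime_def_lt]
    refine ⟨h2, fun m hm hd => ?_⟩
    have h1 := h m (List.mem_range.2 hm)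
    have hm0 : m ≠ 0 := by
      rintro rfl
      have := Nat.eq_zero_of_zero_dvd hd
      omega
    by_contra hm1
    simp only [Bool.not_eq_true', Bool.and_eq_false_iff, decide_eq_false_iff_not] at h1
    rcases h1 with h1 | h1
    · omega
    · exact h1 (Nat.mod_eq_zero_of_dvd hd)
  · intro hp
    refine ⟨hp.two_le, fun d hd => ?_⟩
    rw [List.mem_range] at hd
    simp only [Bool.not_eq_true', Bool.and_eq_false_iff, decide_eq_false_iff_not]
    by_cases h : 2 ≤ d
    · right
      intro h0
      have h1 := (Nat.dvd_prime hp).1 (Nat.dvd_of_mod_eq_zero h0)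
      omega
    · left
      exact h

/-- the least prime above `n` -/
def primeAbove (n : ℕ) : ℕ :=
  ((List.range (2 * n + 3)).filter fun k => decide (n < k) && isPr k).headD 2

theorem primeAbove_mem (n : ℕ) :
    primeAbove n ∈ (List.range (2 * n + 3)).filter fun k => decide (n < k) && isPr k := by
  have hne : ((List.range (2 * n + 3)).filter fun k => decide (n < k) && isPr k) ≠ [] := by
    intro h
    rw [List.filter_eq_nil_iff] at h
    obtain ⟨q, hq, h1, h2⟩ := Nat.exists_prime_lt_and_le_two_mul (n + 1) (by omega)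
    refine h q (List.mem_range.2 (by omega)) ?_
    rw [Bool.and_eq_true, decide_eq_true_iff, isPr_iff]
    exact ⟨by omega, hq⟩
  rcases hl : (List.range (2 * n + 3)).filter fun k => decide (n < k) && isPr k with _ | ⟨b, l⟩
  · exact absurd hl hne
  · rw [primeAbove, hl]
    exact List.mem_cons_self

theorem primeAbove_prime (n : ℕ) : (primeAbove n).Prime := by
  have h := (List.mem_filter.1 (primeAbove_mem n)).2
  rw [Bool.and_eq_true, isPr_iff] at h
  exact h.2

theorem lt_primeAbove (n : ℕ) : n < primeAbove n := by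
  have h := (List.mem_filter.1 (primeAbove_mem n)).2
  rw [Bool.and_eq_true, decide_eq_true_iff] at h
  exact h.1

theorem primeAbove_le (n : ℕ) : primeAbove n ≤ 2 * n + 2 := by
  have h := List.mem_range.1 (List.mem_filter.1 (primeAbove_mem n)).1
  omega

variable {α : Type} [Enc α]

theorem poly_isPr {f : α → ℕ} (hf : UPoly f) : Poly (fun a => isPr (f a)) := by
  have h1 : Poly (fun a => ((List.range (f a)).map Un.mk).all fun d =>
      !(decide (2 ≤ d.n) && decide (f a % d.n = 0))) := by
    refine Poly.all (h := fun x : α × Un => !(decide (2 ≤ x.2.n) && decide (f x.1 % x.2.n = 0)))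
      (Poly.range hf) ?_
    have hd : UPoly (fun x : α × Un => x.2.n) := UPoly.comp UPoly.n Poly.snd
    have hff : UPoly (fun x : α × Un => f x.1) := UPoly.comp hf Poly.fst
    exact ((UPoly.le (UPoly.const 2) hd).and (UPoly.eq (hff.mod hd) (UPoly.const 0))).not
  refine ((UPoly.le (UPoly.const 2) hf).and h1).of_eq fun a => ?_
  rw [isPr, List.all_map]
  rfl

theorem upoly_primeAbove {f : α → ℕ} (hf : UPoly f) : UPoly (fun a => primeAbove (f a)) := by
  have h1 : Poly (fun a => ((List.range (2 * f a + 3)).map Un.mk).filter fun k =>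
      decide (f a < k.n) && isPr k.n) := by
    refine Poly.filter (h := fun x : α × Un => decide (f x.1 < x.2.n) && isPr x.2.n)
      (Poly.range (((UPoly.const 2).mul hf).add (UPoly.const 3))) ?_
    have hd : UPoly (fun x : α × Un => x.2.n) := UPoly.comp UPoly.n Poly.snd
    exact (UPoly.lt (UPoly.comp hf Poly.fst) hd).and (poly_isPr hd)
  refine Poly.of_eq (Poly.headD h1 (TM2Lib.Poly.const (⟨2⟩ : Un))) fun a => ?_
  rw [List.filter_map]
  simp only [Function.comp_def, primeAbove]
  rcases (List.range (2 * f a + 3)).filter fun k => decide (f a < k) && isPr k with _ | ⟨b, l⟩ <;>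
    rfl

end Pool.Agent.RTB
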