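import Pool.Agent.RTO.AlgDefs
import Pool.Agent.RTB.LinD
import Pool.Agent.RTB.PolyPr

/-!
# Binary lengths: the executable algorithm

All matrices have entries that are read modulo the prime `p`; a matrix is the list of its
rows. Linear algebra: `LinB`, `LinC`, `LinD` (`vt`, `ent`, `mt`, `entM`, `bas`, `solveL`, `kerL`,
`memb`, `rkL`, `invL`, `extL`, `mulL`, `transpL`).
-/

namespace Pool.Agent.RTB

open Pool.Agent.RTO (Arc rev dartL vlist)

/-! ### vectors and matrices -/

/-- vector over the index set `(i, a)`, `i < m`, `a < n`; position `i * n + a` -/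
def mkV2 (m n : ℕ) (f : ℕ → ℕ → ℕ) : List ℕ := (List.range m).flatMap fun i => vt n (f i)
/-- vector over the index set `(i, j, a)`, `i < l`, `j < m`, `a < n`; position `(i * m + j) * n + a` -/
def mkV3 (l m n : ℕ) (f : ℕ → ℕ → ℕ → ℕ) : List ℕ :=
  (List.range l).flatMap fun i => mkV2 m n (f i)
/-- entry `(i, a)` of a vector over the index set `(i, a)`, `a < n` -/
def ent2 (n : ℕ) (v : List ℕ) (i a : ℕ) : ℕ := ent v (i * n + a)
/-- matrix with rows and columns `(i, a)`, `i < m`, `a < n` -/
def mkK (m n : ℕ) (f : ℕ → ℕ → ℕ → ℕ → ℕ) : List (List ℕ) :=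
  (List.range m).flatMap fun i => (List.range n).map fun a => mkV2 m n (f i a)
/-- `a - b` modulo `n`, for `a, b < n` -/
def sbm (n a b : ℕ) : ℕ := if b ≤ a then a - b else a + n - b
/-- `w ^ i` modulo `p` -/
def powp (p w i : ℕ) : ℕ := (List.range i).foldl (fun x _ => x * w % p) (1 % p)

/-! ### the linear matrix `∑ B_k ⊗ X_k` -/

/-- the generator `(k, a, b)` stands for the matrix `B_k ⊗ E_ab` -/
abbrev Gen : Type := ℕ × (ℕ × ℕ)

/-- entry of `∑ B_k ⊗ X_k` at row `(i, a)`, column `(i', b)` -/
def entA (p : ℕ) (Bs Xs : List (List (List ℕ))) (i a i' b : ℕ) : ℕ :=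
  ((Bs.zip Xs).map fun x => entM x.1 i i' * entM x.2 a b).sum % p
/-- the matrix `∑ B_k ⊗ X_k` -/
def bigA (p N d : ℕ) (Bs Xs : List (List (List ℕ))) : List (List ℕ) := mkK N d (entA p Bs Xs)
/-- apply the generator `g` to `x` -/
def appG (p N d : ℕ) (Bs : List (List (List ℕ))) (g : Gen) (x : List ℕ) : List ℕ :=
  mkV2 N d fun i a => if a = g.2.1 then
    sm N (fun i' => entM (Bs.getD g.1 []) i i' * ent2 d x i' g.2.2) % p else 0
/-- all generators -/
def gens (K d : ℕ) : List Gen :=
  (List.range K).flatMap fun k => (List.range d).flatMap fun a => (List.range d).map fun b =>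
    (k, (a, b))

/-- state of the closure: list of pairs (vector, history), the head of the history is the generator
applied last; and the list of the escaping histories -/
abbrev PL : Type := List (List ℕ × List Gen) × List (List Gen)

/-- apply `g` to `x` (with history `h`): escape, or add a preimage if it is new -/
def expS (p N d : ℕ) (Bs : List (List (List ℕ))) (A : List (List ℕ)) (x : List ℕ) (h : List Gen)
    (st : PL) (g : Gen) : PL :=
  match solveL p (N * d) (N * d) A (appG p N d Bs g x) with
  | none => (st.1, st.2 ++ [g :: h])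
  | some x' => if decide (N * d ≤ st.1.length) || memb p (N * d) (st.1.map Prod.fst) x' then st
      else (st.1 ++ [(x', g :: h)], st.2)
/-- expand the `i`-th vector of the list -/
def wongS (p N d : ℕ) (Bs : List (List (List ℕ))) (A : List (List ℕ)) (st : PL) (i : ℕ) : PL :=
  if i < st.1.length then
    (gens Bs.length d).foldl
      (expS p N d Bs A (st.1.getD i ([], [])).1 (st.1.getD i ([], [])).2) st
  else st
/-- the closure of the kernel under `x ↦ A⁻¹ (B_k ⊗ E_ab) x`; `ker` a basis of the kernel of `A` -/
def wong (p N d : ℕ) (Bs : List (List (List ℕ))) (A ker : List (List ℕ)) : PL :=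
  (List.range (N * d)).foldl (wongS p N d Bs A) (ker.map fun x => (x, []), [])
/-- components (vectors of length `N`) of the vectors `xs` -/
def comps (N d : ℕ) (xs : List (List ℕ)) : List (List ℕ) :=
  xs.flatMap fun x => (List.range d).map fun a => vt N fun i => ent2 d x i a
/-- images of the vectors `us` under all `B_k` -/
def imgs (p N : ℕ) (Bs : List (List (List ℕ))) (us : List (List ℕ)) : List (List ℕ) :=
  Bs.flatMap fun M => us.map (mulVecL p N N M)
/-- the block bidiagonal coefficient matrices: `h = [C_0, …, C_{l-1}]`, size `(l + 1) * d` with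
the index `(c, a)`, position `c * d + a` -/
def blow (d : ℕ) (Xs : List (List (List ℕ))) (h : List Gen) : List (List (List ℕ)) :=
  Xs.zipIdx.map fun x => mkK (h.length + 1) d fun c a c' b =>
    if c = c' then entM x.1 a b
    else if c = c' + 1 ∧ h.getD c' (0, (0, 0)) = (x.2, (a, b)) then 1 else 0

/-! ### regularity -/

/-- `∑_{i < n} u ^ i v ^ (m i mod n)` -/
def kapE (p n u v m : ℕ) : ℕ := sm n (fun i => powp p u i * powp p v (m * i % n)) % p
/-- entry `(a, b)` of `X(u, v, y)`, where
`X(u, v, y)_{a b} = y ^ (a - b) * ∑_{a'} X_{a', a' - (a - b)} kapE (a - a')` -/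
def famE (p n : ℕ) (X : List (List ℕ)) (u v y a b : ℕ) : ℕ :=
  powp p y (sbm n a b) * sm n (fun a' =>
    entM X a' (sbm n a' (sbm n a b)) * kapE p n u v (sbm n a a')) % p
/-- the family `X_k(u, v, y)` -/
def famL (p n : ℕ) (Xs : List (List (List ℕ))) (q : ℕ × (ℕ × ℕ)) : List (List (List ℕ)) :=
  Xs.map fun X => mt n n (famE p n X q.1 q.2.1 q.2.2)
/-- all parameters `(u, v, y)` -/
def pars (p : ℕ) : List (ℕ × (ℕ × ℕ)) :=
  (List.range p).flatMap fun u => (List.range p).flatMap fun v => (List.range p).map fun y =>
    (u, (v, y))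
/-- regularity: from rank `> (r - 1) n` to rank `≥ r n` -/
def reg (p N n : ℕ) (Bs Xs : List (List (List ℕ))) (r : ℕ) : List (List (List ℕ)) :=
  famL p n Xs (((pars p).filter fun q =>
    decide (r * n ≤ rkL p (N * n) (N * n) (bigA p N n Bs (famL p n Xs q)))).headD (0, (0, 0)))
/-- upper left blocks of size `n` -/
def minr (n : ℕ) (Xs : List (List (List ℕ))) : List (List (List ℕ)) :=
  Xs.map fun X => mt n n fun a b => entM X a b
/-- from size `n + k` down to size `n`, keeping the rank `≥ r * size` -/
def down (p N n r : ℕ) (Bs : List (List (List ℕ))) (k : ℕ) (Xs : List (List (List ℕ))) :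
    List (List (List ℕ)) :=
  (List.range k).foldl (fun Xs j => reg p N (n + (k - 1 - j)) Bs (minr (n + (k - 1 - j)) Xs) r) Xs

/-! ### the rank algorithm -/

/-- state of the rank algorithm: (finished, (nonsingular, ((W, U), X))) -/
abbrev NSt : Type := Bool × (Bool × ((List (List ℕ) × List (List ℕ)) × List (List (List ℕ))))

/-- one round at blow-up size `d` -/
def ncS (p N d : ℕ) (Bs : List (List (List ℕ))) (st : NSt) : NSt :=
  if st.1 then st else
  let Xs := st.2.2.2
  let A := bigA p N d Bs Xs
  let ker := kerL p (N * d) (N * d) A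
  if ker.isEmpty then (true, (true, (([], []), Xs)))
  else
    let pl := wong p N d Bs A ker
    match pl.2.head? with
    | none =>
      let us := bas p N (comps N d (pl.1.map Prod.fst))
      (true, (false, ((bas p N (imgs p N Bs us), us), Xs)))
    | some h =>
      let r := ((List.range (N + 1)).filter fun j => decide (d * j + ker.length ≤ N * d)).length
      (false, (false, (([], []), down p N d r Bs (d * h.length)
        (reg p N (d * (h.length + 1)) Bs (blow d Xs h.reverse) r))))

/-- the rank algorithm: `none` = nonsingular; `some (W, U)`: `ℬ U ⊆ W` and `dim W < dim U` -/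
def ncr (p N d : ℕ) (Bs : List (List (List ℕ))) : Option (List (List ℕ) × List (List ℕ)) :=
  let fin := (List.range (N + 1)).foldl (fun st _ => ncS p N d Bs st)
    (false, (false, (([], []), Bs.map fun _ => mt d d fun _ _ => 0)))
  if fin.2.1 then none else some fin.2.2.1

/-! ### the order of the determinant of `∑ M_k Y_k t ^ (c_k)` -/

/-- polynomials with matrix coefficients: list of the coefficients (constant term first) -/
abbrev PMat : Type := List (List (List ℕ))

/-- change of coordinates and division, for one polynomial; `w = dim W`, `u = dim U` -/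
def ascP (p N hh w u : ℕ) (S T : List (List ℕ)) (P : PMat) : PMat :=
  let Q := P.map fun M => mulL p N N N (mulL p N N N S M) T
  (List.range hh).map fun h => mt N N fun a b =>
    if w ≤ a then (if b < u then entM (Q.getD (h + 1) []) a b else entM (Q.getD h []) a b)
    else (if b < u then entM (Q.getD h []) a b
      else if h = 0 then 0 else entM (Q.getD (h - 1) []) a b)
/-- one ascent step -/
def ordS (p N d hh : ℕ) (st : ℕ × List PMat) : ℕ × List PMat :=
  match ncr p N d (st.2.map fun P => P.getD 0 []) with
  | none => st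
  | some WU =>
    (st.1 + (WU.2.length - WU.1.length),
      st.2.map (ascP p N hh WU.1.length WU.2.length (invL p N (transpL N N (extL p N WU.1)))
        (transpL N N (extL p N WU.2))))
/-- bit `i` of `c` -/
def bitAt (c i : ℕ) : ℕ := if c.bits.getD i false then 1 else 0
/-- `t ↦ t ^ 2`, then multiply by `t ^ b` -/
def dblP (N hh b : ℕ) (P : PMat) : PMat :=
  (List.range hh).map fun h => mt N N fun i j =>
    if b ≤ h ∧ (h - b) % 2 = 0 then entM (P.getD ((h - b) / 2) []) i j else 0
/-- start of a phase -/
def dblS (N hh : ℕ) (cs : List ℕ) (i : ℕ) (st : ℕ × List PMat) : ℕ × List PMat :=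
  (2 * st.1, (cs.zip st.2).map fun x => dblP N hh (bitAt x.1 i) x.2)
/-- a phase -/
def phaseS (p N d hh : ℕ) (cs : List ℕ) (st : ℕ × List PMat) (i : ℕ) : ℕ × List PMat :=
  (List.range N).foldl (fun st _ => ordS p N d hh st) (dblS N hh cs i st)
/-- number of phases -/
def nbits (cs : List ℕ) : ℕ := (cs.map fun c => c.bits.length).sum
/-- order of the determinant (divided by the size of the `Y_k`), `none` if it is zero -/
def ordDet (p N d : ℕ) (Ms : List (List (List ℕ))) (cs : List ℕ) : Option ℕ :=
  match ncr p N d Ms with
  | some _ => none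
  | none => some ((List.range (nbits cs)).reverse.foldl (phaseS p N d (2 * N + 1) cs)
      (0, Ms.map fun M => [M])).1

/-! ### the linear matrix of a family of walks -/

/-- a row: `(isPath, (X, (len, dummy)))`; `X` = the forbidden letters, latest first -/
abbrev Row : Type := Bool × (List ℕ × (ℕ × ℕ))

/-- the graph data: `(darts, ((a, m), (nv, s)))`: the list of all darts `(start, (end, length))`
(arcs, then edges in direction `true`, then edges in direction `false`) with vertices `< nv`,
the number `a` of arcs and `m` of edges, the vertex `s` -/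
abbrev GD : Type := List Arc × ((ℕ × ℕ) × (ℕ × ℕ))

/-- number of darts -/
def GD.nd (g : GD) : ℕ := g.1.length
/-- number of columns `1 + nd` -/
def GD.np (g : GD) : ℕ := 1 + g.1.length
/-- number of vertices -/
def GD.nv (g : GD) : ℕ := g.2.2.1
/-- number of rows of the block `T` -/
def GD.nt (g : GD) : ℕ := g.np * g.nd * (g.nv + 1)
/-- size of the big matrix -/
def GD.sz (g : GD) : ℕ := g.nt + g.np
/-- start of a dart -/
def GD.hd (g : GD) (q : ℕ) : ℕ := (g.1.getD q (0, (0, 0))).1
/-- end of a dart -/
def GD.tl (g : GD) (q : ℕ) : ℕ := (g.1.getD q (0, (0, 0))).2.1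
/-- length of a dart -/
def GD.len (g : GD) (q : ℕ) : ℕ := (g.1.getD q (0, (0, 0))).2.2

/-- the `i`-th row -/
def gR (B : List Row) (i : ℕ) : Row := B.getD i (false, ([], (0, 0)))
/-- number of crossings of a row -/
def rkk (r : Row) : ℕ := if r.1 then r.2.1.length else 0
/-- the `j`-th crossing (in the order of time) -/
def rcr (r : Row) (j : ℕ) : ℕ := r.2.1.reverse.getD j 0
/-- the letter of crossing `j` does not occur at the crossings `j + 1, …, j'` -/
def lastc (r : Row) (j j' : ℕ) : Bool :=
  (List.range (j' + 1)).all fun i => decide (i ≤ j) || (rcr r i != rcr r j)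

/-- constant coefficient, block `T` at row `(j, z)`, column `(j', z')` of the row `r` -/
def entT0 (g : GD) (r : Row) (j z j' z' : ℕ) : ℕ :=
  if j = j' ∧ z = z' then 1
  else if j ≤ j' ∧ j' < rkk r ∧ z = g.nv ∧ z' < g.nv ∧ z' = g.hd (rcr r j) ∧ lastc r j j' then 1
  else 0
/-- coefficient of the letter `q`, block `T` (up to the sign) -/
def entTq (g : GD) (r : Row) (q j z j' z' : ℕ) : ℕ :=
  if j = j' ∧ j < rkk r ∧ z = g.tl q ∧ z < g.nv ∧
    ((z' = g.hd q ∧ z' < g.nv) ∨ (z' = g.nv ∧ rcr r j = q)) then 1 else 0
/-- constant coefficient, block `- C` at row `(j, z)`, column `f` (up to the sign) -/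
def entC0 (g : GD) (r : Row) (j z f : ℕ) : ℕ :=
  if j < rkk r ∧ z = g.nv ∧ f = 1 + rcr r j ∧ lastc r j (rkk r - 1) then 1 else 0
/-- constant coefficient, block `S` at column `(j, z)` -/
def entS0 (g : GD) (r : Row) (j z : ℕ) : ℕ := if j < rkk r ∧ z = g.2.2.2 then 1 else 0
/-- constant coefficient, block `D` at column `f` -/
def entD0 (r : Row) (f : ℕ) : ℕ := if f = (if r.1 then 0 else r.2.2.2) then 1 else 0
/-- constant coefficient matrix; row and column index `(i * nd + j) * (nv + 1) + z` or `nt + f` -/
def lm0 (p : ℕ) (g : GD) (B : List Row) : List (List ℕ) :=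
  ((List.range g.np).flatMap fun i => (List.range g.nd).flatMap fun j =>
    (List.range (g.nv + 1)).map fun z =>
      mkV3 g.np g.nd (g.nv + 1) (fun i' j' z' => if i = i' then entT0 g (gR B i) j z j' z' else 0) ++
        vt g.np fun f => (p - 1) * entC0 g (gR B i) j z f) ++
  (List.range g.np).map fun i =>
    mkV3 g.np g.nd (g.nv + 1) (fun i' j z => if i = i' then entS0 g (gR B i) j z else 0) ++
      vt g.np fun f => entD0 (gR B i) f
/-- coefficient matrix of the letter `q` -/
def lmq (p : ℕ) (g : GD) (B : List Row) (q : ℕ) : List (List ℕ) :=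
  ((List.range g.np).flatMap fun i => (List.range g.nd).flatMap fun j =>
    (List.range (g.nv + 1)).map fun z =>
      mkV3 g.np g.nd (g.nv + 1) (fun i' j' z' =>
        if i = i' then (p - 1) * entTq g (gR B i) q j z j' z' else 0) ++ vt g.np fun _ => 0) ++
  (List.range g.np).map fun _ => vt g.sz fun _ => 0
/-- all coefficient matrices -/
def lm (p : ℕ) (g : GD) (B : List Row) : List (List (List ℕ)) :=
  lm0 p g B :: (List.range g.nd).map (lmq p g B)
/-- the exponents -/
def lmc (g : GD) : List ℕ := 0 :: (List.range g.nd).map g.len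

/-! ### families of walks -/

/-- order of the determinant of the rows `B`, with the lengths -/
def delta (p : ℕ) (g : GD) (B : List Row) : Option ℕ :=
  (ordDet p g.sz (2 * g.sz) (lm p g B) (lmc g)).map fun v => v + (B.map fun r => r.2.2.1).sum
/-- better of two candidates `(value, family)` -/
def better (x y : Option (ℕ × List Row)) : Option (ℕ × List Row) :=
  match x, y with
  | none, y => y
  | x, none => x
  | some x, some y => if y.1 < x.1 then some y else some x
/-- the candidate without row `i` -/
def cand (p : ℕ) (g : GD) (C : List Row) (i : ℕ) : Option (ℕ × List Row) :=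
  (delta p g (C.eraseIdx i)).map fun v => (v, C.eraseIdx i)
/-- insert the row `r` into the family `B` of `np` rows -/
def select (p : ℕ) (g : GD) (B : List Row) (r : Row) : List Row :=
  (((List.range (g.np + 1)).foldl (fun acc i => better acc (cand p g (B ++ [r]) i)) none).map
      Prod.snd).getD B
/-- the dummy family -/
def dummies (g : GD) (H : ℕ) : List Row := (List.range g.np).map fun j => (false, ([], (H, j)))
/-- the letter that is forbidden for `Q` if `P` uses the dart `q` -/
def confl (g : GD) (q : ℕ) : List ℕ :=
  if q < g.2.1.1 then [] else if q < g.2.1.1 + g.2.1.2 then [q + g.2.1.2] else [q - g.2.1.2]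
/-- extend a row by the dart `q` -/
def extR (g : GD) (q : ℕ) (r : Row) : Row := (r.1, (confl g q ++ r.2.1, (r.2.2.1 + g.len q, r.2.2.2)))
/-- the extensions of the rows of the families `F` that end in `w` -/
def exts (g : GD) (F : List (List Row)) (w : ℕ) : List Row :=
  ((List.range g.nd).filter fun q => decide (g.tl q = w)).flatMap fun q =>
    ((F.getD (g.hd q) []).filter fun r => r.1).map (extR g q)
/-- new family at the vertex `w` -/
def newFam (p : ℕ) (g : GD) (F : List (List Row)) (w : ℕ) : List Row :=
  (exts g F w).foldl (select p g) (F.getD w [])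
/-- one round -/
def roundF (p : ℕ) (g : GD) (F : List (List Row)) : List (List Row) :=
  (List.range g.nv).map (newFam p g F)
/-- first families -/
def initF (p : ℕ) (g : GD) (H : ℕ) : List (List Row) :=
  (List.range g.nv).map fun x => if x = g.2.2.2 then
    select p g (dummies g H) (true, ([], (0, 0))) else dummies g H
/-- final families -/
def finF (p : ℕ) (g : GD) (H : ℕ) : List (List Row) :=
  (List.range g.nd).foldl (fun F _ => roundF p g F) (initF p g H)

/-! ### the value -/

/-- minimum of two distances -/
def omin (x y : Option ℕ) : Option ℕ :=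
  match x, y with
  | none, y => y
  | x, none => x
  | some x, some y => some (min x y)
/-- one round of Bellman-Ford: distances from `t` avoiding the darts in `X` -/
def bfS (g : GD) (X : List ℕ) (D : List (Option ℕ)) : List (Option ℕ) :=
  (List.range g.nv).map fun w =>
    ((List.range g.nd).filter fun q => decide (g.tl q = w) && !(X.contains q)).foldl
      (fun acc q => omin acc ((D.getD (g.hd q) none).map fun x => x + g.len q)) (D.getD w none)
/-- distance from `t` to `s` avoiding the darts in `X` -/
def bf (g : GD) (t : ℕ) (X : List ℕ) : Option ℕ :=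
  ((List.range g.nd).foldl (fun D _ => bfS g X D)
    ((List.range g.nv).map fun x => if x = t then some 0 else none)).getD g.2.2.2 none
/-- the minimum over the rows of a family -/
def valF (g : GD) (t : ℕ) (B : List Row) : Option ℕ :=
  (B.filter fun r => r.1).foldl (fun acc r => omin acc ((bf g t r.2.1).map fun x => x + r.2.2.1)) none

/-- graph data of two lists with vertices `< nv` -/
def mkGD (A E : List Arc) (s nv : ℕ) : GD := (dartL A E, ((A.length, E.length), (nv, s)))
/-- length of the dummies -/
def bigH (A E : List Arc) : ℕ := 4 * ((A ++ E).map fun x => x.2.2).sum + 1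
/-- size of the prime -/
def prB (g : GD) : ℕ := 36 * g.sz ^ 7 + 1
/-- the minimum length of a round trip, if all vertices are `< nv` -/
def valR (A E : List Arc) (s t nv : ℕ) : Option ℕ :=
  valF (mkGD A E s nv) t
    ((finF (primeAbove (prB (mkGD A E s nv))) (mkGD A E s nv) (bigH A E)).getD t [])

/-- index of a vertex -/
def idx (vs : List ℕ) (v : ℕ) : ℕ := ((vs.zipIdx.filter fun x => x.1 == v).map Prod.snd).headD 0
/-- relabel the ends of an arc or edge -/
def relab (f : ℕ → ℕ) (x : Arc) : Arc := (f x.1, (f x.2.1, x.2.2))
/-- the minimum length of a round trip -/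
def valB (A E : List Arc) (s t : ℕ) : Option ℕ :=
  valR (A.map (relab (idx (vlist A E s t)))) (E.map (relab (idx (vlist A E s t))))
    (idx (vlist A E s t) s) (idx (vlist A E s t) t) (vlist A E s t).length

/-- orient the undirected edges one after the other -/
def goB (s t : ℕ) : List Arc → List Arc → List Bool
  | _, [] => []
  | A, e :: E => if valB (e :: A) E s t = valB A (e :: E) s t then true :: goB s t (e :: A) E
      else false :: goB s t (rev e :: A) E

end Pool.Agent.RTB
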