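import Pool.Agent.RTB.GDefs

/-!
# RTB: correctness of `bf` and `valF`
-/

set_option autoImplicit false

namespace Pool.Agent.RTB

open Pool.Agent.RTO (Arc rev dartL vlist)

/-! ### walks of an `LG` -/

theorem LG.isWalk_append {G : LG} {l l' : List ℕ} {a b : ℕ} :
    G.IsWalk a (l ++ l') b ↔ ∃ c, G.IsWalk a l c ∧ G.IsWalk c l' b := by
  induction l generalizing a with
  | nil =>
    constructor
    · intro h
      exact ⟨a, rfl, h⟩
    · rintro ⟨c, hc, h⟩
      have hc' : a = c := hc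
      subst hc'
      exact h
  | cons d l ih =>
    constructor
    · rintro ⟨h0, h1, h2⟩
      obtain ⟨c, hc, h⟩ := ih.1 h2
      exact ⟨c, ⟨h0, h1, hc⟩, h⟩
    · rintro ⟨c, ⟨h0, h1, hc⟩, h⟩
      exact ⟨h0, h1, ih.2 ⟨c, hc, h⟩⟩

theorem LG.isWalk_snoc {G : LG} {l : List ℕ} {q a b : ℕ} :
    G.IsWalk a (l ++ [q]) b ↔ G.IsWalk a l (G.hd q) ∧ q < G.D ∧ G.tl q = b := by
  rw [LG.isWalk_append]
  constructor
  · rintro ⟨c, hc, h0, h1, h2⟩
    subst h1
    exact ⟨hc, h0, h2⟩
  · rintro ⟨hc, h0, h2⟩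
    exact ⟨_, hc, h0, rfl, h2⟩

theorem LG.cost_append (G : LG) (l l' : List ℕ) : G.cost (l ++ l') = G.cost l + G.cost l' := by
  simp [LG.cost]

theorem LG.cost_cons (G : LG) (q : ℕ) (l : List ℕ) : G.cost (q :: l) = G.len q + G.cost l := by
  simp [LG.cost]

theorem LG.lt_of_mem {G : LG} {l : List ℕ} {a b : ℕ} (h : G.IsWalk a l b) :
    ∀ q ∈ l, q < G.D := by
  induction l generalizing a with
  | nil => simp
  | cons d l ih =>
    obtain ⟨h0, _, h2⟩ := h
    intro q hq
    rcases List.mem_cons.1 hq with rfl | hq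
    · exact h0
    · exact ih h2 q hq

/-- walks can be shortened to use every dart at most once -/
theorem LG.exists_nodup {G : LG} {l : List ℕ} {a b : ℕ} (h : G.IsWalk a l b) :
    ∃ l', G.IsWalk a l' b ∧ l' ⊆ l ∧ l'.Nodup ∧ G.cost l' ≤ G.cost l := by
  induction l generalizing a with
  | nil => exact ⟨[], h, fun x hx => hx, List.nodup_nil, le_refl _⟩
  | cons d l ih =>
    obtain ⟨h0, h1, h2⟩ := h
    obtain ⟨l', hw, hsub, hnd, hcost⟩ := ih h2
    by_cases hd : d ∈ l'
    · obtain ⟨l₁, l₂, rfl⟩ := List.append_of_mem hd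
      obtain ⟨c, _, hc⟩ := LG.isWalk_append.1 hw
      refine ⟨d :: l₂, ⟨h0, h1, hc.2.2⟩, ?_, ?_, ?_⟩
      · intro x hx
        rcases List.mem_cons.1 hx with rfl | hx
        · simp
        · exact List.mem_cons_of_mem _ (hsub (by simp [hx]))
      · exact hnd.of_append_right
      · rw [LG.cost_append] at hcost
        rw [LG.cost_cons G d l]
        omega
    · refine ⟨d :: l', ⟨h0, h1, hw⟩, ?_, List.nodup_cons.2 ⟨hd, hnd⟩, ?_⟩
      · intro x hx
        rcases List.mem_cons.1 hx with rfl | hx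
        · simp
        · exact List.mem_cons_of_mem _ (hsub hx)
      · rw [LG.cost_cons, LG.cost_cons]
        omega

theorem nodup_length_le {l : List ℕ} {n : ℕ} (h : l.Nodup) (hn : ∀ x ∈ l, x < n) :
    l.length ≤ n := by
  have h1 : l.toFinset.card = l.length := List.toFinset_card_of_nodup h
  have h2 : l.toFinset ⊆ Finset.range n := by
    intro x hx
    rw [List.mem_toFinset] at hx
    exact Finset.mem_range.2 (hn x hx)
  have h3 := Finset.card_le_card h2
  rw [Finset.card_range] at h3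
  omega

/-! ### minima of optional numbers -/

/-- the value is defined and at most `c` -/
def LeO (x : Option ℕ) (c : ℕ) : Prop := ∃ v, x = some v ∧ v ≤ c

theorem LeO.mono {x : Option ℕ} {c d : ℕ} (h : LeO x c) (hd : c ≤ d) : LeO x d := by
  obtain ⟨v, hv, hvc⟩ := h
  exact ⟨v, hv, hvc.trans hd⟩

theorem leO_omin {x y : Option ℕ} {c : ℕ} : LeO (omin x y) c ↔ LeO x c ∨ LeO y c := by
  rcases x with _ | x <;> rcases y with _ | y <;> simp [omin, LeO]

theorem omin_eq {x y : Option ℕ} {c : ℕ} (h : omin x y = some c) : x = some c ∨ y = some c := by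
  rcases x with _ | x <;> rcases y with _ | y <;> simp [omin] at h ⊢
  · exact h
  · exact h
  · omega

theorem leO_map {x : Option ℕ} {f : ℕ → ℕ} {c : ℕ} :
    LeO (x.map f) c ↔ ∃ v, x = some v ∧ f v ≤ c := by
  rcases x with _ | x <;> simp [LeO]

theorem leO_fold {β : Type} (f : β → Option ℕ) (l : List β) (a : Option ℕ) (c : ℕ) :
    LeO (l.foldl (fun acc q => omin acc (f q)) a) c ↔ LeO a c ∨ ∃ q ∈ l, LeO (f q) c := by
  induction l generalizing a with
  | nil => simp
  | cons x l ih =>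
    rw [List.foldl_cons, ih, leO_omin]
    simp only [List.mem_cons, exists_eq_or_imp]
    tauto

theorem fold_omin_eq {β : Type} (f : β → Option ℕ) (l : List β) (a : Option ℕ) {c : ℕ}
    (h : l.foldl (fun acc q => omin acc (f q)) a = some c) :
    a = some c ∨ ∃ q ∈ l, f q = some c := by
  induction l generalizing a with
  | nil => exact Or.inl h
  | cons x l ih =>
    rw [List.foldl_cons] at h
    rcases ih _ h with h | ⟨q, hq, h⟩
    · rcases omin_eq h with h | h
      · exact Or.inl h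
      · exact Or.inr ⟨x, List.mem_cons_self, h⟩
    · exact Or.inr ⟨q, List.mem_cons_of_mem _ hq, h⟩

/-! ### Bellman-Ford -/

/-- all darts have their ends `< nv` -/
def GD.Ends (g : GD) : Prop := ∀ q, q < g.nd → g.hd q < g.nv ∧ g.tl q < g.nv

theorem getD_bfS (g : GD) (X : List ℕ) (D : List (Option ℕ)) (w : ℕ) :
    (bfS g X D).getD w none = if w < g.nv then
      ((List.range g.nd).filter fun q => decide (g.tl q = w) && !(X.contains q)).foldl
      (fun acc q => omin acc ((D.getD (g.hd q) none).map fun x => x + g.len q)) (D.getD w none)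
      else none := by
  unfold bfS
  by_cases hw : w < g.nv
  · rw [if_pos hw, List.getD_eq_getElem?_getD, List.getElem?_map, List.getElem?_range hw]
    rfl
  · rw [if_neg hw, List.getD_eq_getElem?_getD, List.getElem?_eq_none]
    · rfl
    · rw [List.length_map, List.length_range]
      omega

theorem mem_bfS {g : GD} {X : List ℕ} {w q : ℕ} :
    q ∈ ((List.range g.nd).filter fun q => decide (g.tl q = w) && !(X.contains q)) ↔
      q < g.nd ∧ g.tl q = w ∧ q ∉ X := by
  rw [List.mem_filter, List.mem_range]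
  simp

/-- the entries are costs of walks -/
theorem bfS_sound {g : GD} {X : List ℕ} {t : ℕ} {D : List (Option ℕ)}
    (h : ∀ w c, D.getD w none = some c →
      ∃ Q, g.lg.IsWalk t Q w ∧ (∀ q ∈ Q, q ∉ X) ∧ g.lg.cost Q = c) :
    ∀ w c, (bfS g X D).getD w none = some c →
      ∃ Q, g.lg.IsWalk t Q w ∧ (∀ q ∈ Q, q ∉ X) ∧ g.lg.cost Q = c := by
  intro w c hc
  rw [getD_bfS] at hc
  split_ifs at hc with hw
  rcases fold_omin_eq _ _ _ hc with hc | ⟨q, hq, hc⟩
  · exact h w c hc
  · obtain ⟨hq1, hq2, hq3⟩ := mem_bfS.1 hq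
    rcases hD : D.getD (g.hd q) none with _ | x
    · rw [hD] at hc
      simp at hc
    · rw [hD] at hc
      simp only [Option.map_some, Option.some.injEq] at hc
      obtain ⟨Q, hQ1, hQ2, hQ3⟩ := h _ _ hD
      refine ⟨Q ++ [q], LG.isWalk_snoc.2 ⟨hQ1, hq1, hq2⟩, ?_, ?_⟩
      · intro y hy
        rcases List.mem_append.1 hy with hy | hy
        · exact hQ2 y hy
        · rw [List.mem_singleton.1 hy]
          exact hq3
      · rw [LG.cost_append, hQ3, ← hc]
        simp [LG.cost, GD.lg]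

/-- first distances -/
def bf0 (g : GD) (t : ℕ) : List (Option ℕ) :=
  (List.range g.nv).map fun x => if x = t then some 0 else none

theorem getD_bf0 (g : GD) (t w : ℕ) :
    (bf0 g t).getD w none = if w < g.nv ∧ w = t then some 0 else none := by
  unfold bf0
  by_cases hw : w < g.nv
  · rw [List.getD_eq_getElem?_getD, List.getElem?_map, List.getElem?_range hw]
    simp [hw]
  · rw [if_neg (fun h => hw h.1), List.getD_eq_getElem?_getD, List.getElem?_eq_none]
    · rfl
    · rw [List.length_map, List.length_range]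
      omega

/-- the distances after `k` rounds -/
def bfK (g : GD) (t : ℕ) (X : List ℕ) (k : ℕ) : List (Option ℕ) :=
  (List.range k).foldl (fun D _ => bfS g X D) (bf0 g t)

theorem bfK_succ (g : GD) (t : ℕ) (X : List ℕ) (k : ℕ) :
    bfK g t X (k + 1) = bfS g X (bfK g t X k) := by
  unfold bfK
  rw [List.range_succ, List.foldl_append]
  rfl

theorem bf_eq (g : GD) (t : ℕ) (X : List ℕ) :
    bf g t X = (bfK g t X g.nd).getD g.2.2.2 none := rfl

theorem bfK_sound (g : GD) (t : ℕ) (X : List ℕ) (k : ℕ) :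
    ∀ w c, (bfK g t X k).getD w none = some c →
      ∃ Q, g.lg.IsWalk t Q w ∧ (∀ q ∈ Q, q ∉ X) ∧ g.lg.cost Q = c := by
  induction k with
  | zero =>
    intro w c hc
    have h0 : bfK g t X 0 = bf0 g t := rfl
    rw [h0, getD_bf0] at hc
    split_ifs at hc with h
    obtain ⟨_, rfl⟩ := h
    refine ⟨[], rfl, by simp, ?_⟩
    simp only [Option.some.injEq] at hc
    rw [← hc]
    rfl
  | succ k ih =>
    rw [bfK_succ]
    exact bfS_sound ih

theorem bfK_complete {g : GD} (hE : g.Ends) {t : ℕ} (ht : t < g.nv) (X : List ℕ) (k : ℕ) :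
    ∀ (Q : List ℕ) (w : ℕ), Q.length ≤ k → g.lg.IsWalk t Q w → (∀ q ∈ Q, q ∉ X) → w < g.nv →
      LeO ((bfK g t X k).getD w none) (g.lg.cost Q) := by
  induction k with
  | zero =>
    intro Q w hk hQ _ hw
    have hQ0 : Q = [] := List.length_eq_zero_iff.1 (Nat.le_zero.1 hk)
    subst hQ0
    have htw : t = w := hQ
    subst htw
    have h0 : bfK g t X 0 = bf0 g t := rfl
    rw [h0, getD_bf0, if_pos ⟨hw, rfl⟩]
    exact ⟨0, rfl, Nat.zero_le _⟩
  | succ k ih =>
    intro Q w hk hQ hX hw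
    rw [bfK_succ, getD_bfS, if_pos hw, leO_fold]
    by_cases hk' : Q.length ≤ k
    · exact Or.inl (ih Q w hk' hQ hX hw)
    · right
      have hne : Q ≠ [] := by
        rintro rfl
        simp at hk'
      obtain ⟨Q', q, rfl⟩ : ∃ Q' q, Q = Q' ++ [q] :=
        ⟨Q.dropLast, Q.getLast hne, (List.dropLast_append_getLast hne).symm⟩
      obtain ⟨h1, h2, h3⟩ := LG.isWalk_snoc.1 hQ
      have hq : q ∉ X := hX q (by simp)
      refine ⟨q, mem_bfS.2 ⟨h2, h3, hq⟩, ?_⟩
      obtain ⟨v, hv, hvc⟩ := ih Q' (g.hd q) (by simp at hk; omega) h1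
        (fun x hx => hX x (by simp [hx])) (hE q h2).1
      rw [leO_map]
      refine ⟨v, hv, ?_⟩
      rw [LG.cost_append]
      have hc : g.lg.cost [q] = g.len q := by simp [LG.cost, GD.lg]
      rw [hc]
      omega

theorem bf_sound {g : GD} {t : ℕ} {X : List ℕ} {c : ℕ} (h : bf g t X = some c) :
    ∃ Q, g.lg.IsWalk t Q g.2.2.2 ∧ (∀ q ∈ Q, q ∉ X) ∧ g.lg.cost Q = c := by
  rw [bf_eq] at h
  exact bfK_sound g t X _ _ _ h

theorem bf_complete {g : GD} (hE : g.Ends) {t : ℕ} (ht : t < g.nv) (hs : g.2.2.2 < g.nv)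
    {X Q : List ℕ} (hQ : g.lg.IsWalk t Q g.2.2.2) (hX : ∀ q ∈ Q, q ∉ X) :
    ∃ c, bf g t X = some c ∧ c ≤ g.lg.cost Q := by
  obtain ⟨Q', h1, h2, h3, h4⟩ := LG.exists_nodup hQ
  obtain ⟨v, hv, hvc⟩ := bfK_complete hE ht X g.nd Q' _
    (nodup_length_le h3 (LG.lt_of_mem h1)) h1 (fun q hq => hX q (h2 hq)) hs
  exact ⟨v, hv, hvc.trans h4⟩

/-! ### the minimum over a family -/

theorem valF_sound {g : GD} {t : ℕ} {B : List Row} {c : ℕ} (h : valF g t B = some c) :
    ∃ r ∈ B, r.1 = true ∧ ∃ Q, g.lg.IsWalk t Q g.2.2.2 ∧ (∀ q ∈ Q, q ∉ r.2.1) ∧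
      g.lg.cost Q + r.2.2.1 = c := by
  unfold valF at h
  rcases fold_omin_eq _ _ _ h with h | ⟨r, hr, h⟩
  · simp at h
  · rw [List.mem_filter] at hr
    rcases hb : bf g t r.2.1 with _ | x
    · rw [hb] at h
      simp at h
    · rw [hb] at h
      simp only [Option.map_some, Option.some.injEq] at h
      obtain ⟨Q, h1, h2, h3⟩ := bf_sound hb
      exact ⟨r, hr.1, hr.2, Q, h1, h2, by rw [h3]; exact h⟩

theorem valF_complete {g : GD} (hE : g.Ends) {t : ℕ} (ht : t < g.nv) (hs : g.2.2.2 < g.nv)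
    {B : List Row} {r : Row} (hr : r ∈ B) (hr1 : r.1 = true) {Q : List ℕ}
    (hQ : g.lg.IsWalk t Q g.2.2.2) (hX : ∀ q ∈ Q, q ∉ r.2.1) :
    ∃ c, valF g t B = some c ∧ c ≤ g.lg.cost Q + r.2.2.1 := by
  obtain ⟨v, hv, hvc⟩ := bf_complete hE ht hs hQ hX
  have h := (leO_fold (fun r : Row => (bf g t r.2.1).map fun x => x + r.2.2.1)
    (B.filter fun r => r.1) none (g.lg.cost Q + r.2.2.1)).2
    (Or.inr ⟨r, List.mem_filter.2 ⟨hr, hr1⟩, leO_map.2 ⟨v, hv, by omega⟩⟩)
  exact h

end Pool.Agent.RTB
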