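import Mathlib

/-!
# RTB CHAIN: the rank of the block bidiagonal matrix

`chain_rank`: let `k = dim ker A`. A kernel vector of the big matrix is `(v_0, …, v_l)` with `A v_0 = 0`,
`C_{i} v_i + A v_{i+1} = 0`. Filter the kernel by `F_i = {v_0 = … = v_{i-1} = 0}`; `v ↦ v_i` embeds
`F_i / F_{i+1}` into `ker A`; so `dim ker ≤ (l + 1) k`, and if equality holds all these maps are onto; then
there is a kernel vector with `v_0 = x_0`, and (subtracting elements of `F_1`, `F_2`, …) one with
`v_i = (-1) ^ i x_i` for all `i ≤ l - 1`; then `C_{l-1} v_{l-1} = - A v_l`, contradiction to `hout`. So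
`dim ker ≤ (l + 1) k - 1`.
-/

namespace Pool.Agent.RTB

/-- the block bidiagonal matrix -/
def bidiag {F : Type} [Field F] {ι : Type} (A : Matrix ι ι F) (l : ℕ) (C : ℕ → Matrix ι ι F) :
    Matrix (ι × Fin (l + 1)) (ι × Fin (l + 1)) F :=
  fun u v => if u.2 = v.2 then A u.1 v.1
    else if (u.2 : ℕ) = (v.2 : ℕ) + 1 then C (v.2 : ℕ) u.1 v.1 else 0

/-- the block number `i` of a vector, as a linear map -/
def blk {F : Type} [Field F] {ι : Type} {l : ℕ} (i : Fin (l + 1)) :
    ((ι × Fin (l + 1)) → F) →ₗ[F] (ι → F) where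
  toFun v := fun a => v (a, i)
  map_add' _ _ := rfl
  map_smul' _ _ := rfl

theorem bidiag_mulVec_zero {F : Type} [Field F] {ι : Type} [Fintype ι] [DecidableEq ι]
    (A : Matrix ι ι F) (l : ℕ) (C : ℕ → Matrix ι ι F) (v : (ι × Fin (l + 1)) → F) (a : ι) :
    (bidiag A l C).mulVec v (a, 0) = A.mulVec (blk 0 v) a := by
  rw [Matrix.mulVec, dotProduct, Fintype.sum_prod_type_right]
  rw [Finset.sum_eq_single (0 : Fin (l + 1))]
  · simp [bidiag, Matrix.mulVec, dotProduct, blk]
  · intro b _ hb
    apply Finset.sum_eq_zero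
    intro x _
    have h1 : (0 : Fin (l + 1)) ≠ b := fun h => hb h.symm
    simp [bidiag, h1]
  · intro h; exact absurd (Finset.mem_univ _) h

theorem bidiag_mulVec_succ {F : Type} [Field F] {ι : Type} [Fintype ι] [DecidableEq ι]
    (A : Matrix ι ι F) (l : ℕ) (C : ℕ → Matrix ι ι F) (v : (ι × Fin (l + 1)) → F) (a : ι) (i : Fin l) :
    (bidiag A l C).mulVec v (a, i.succ)
      = A.mulVec (blk i.succ v) a + (C (i : ℕ)).mulVec (blk i.castSucc v) a := by
  rw [Matrix.mulVec, dotProduct, Fintype.sum_prod_type_right]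
  have hne : i.succ ≠ i.castSucc := by
    intro h
    have := congrArg Fin.val h
    simp at this
  rw [← Finset.sum_subset (Finset.subset_univ {i.succ, i.castSucc}), Finset.sum_pair hne]
  · congr 1
    · simp [bidiag, Matrix.mulVec, dotProduct, blk]
    · have : i.succ ≠ i.castSucc := hne
      simp [bidiag, Matrix.mulVec, dotProduct, blk, this]
  · intro b _ hb
    apply Finset.sum_eq_zero
    intro x _
    have h1 : i.succ ≠ b := by
      intro h; apply hb; simp [← h]
    have h2 : ¬ ((i : ℕ) + 1 = (b : ℕ) + 1) := by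
      intro h; apply hb
      have : b = i.castSucc := by
        apply Fin.ext; simp; omega
      simp [this]
    simp [bidiag, h1]
    intro h; exact absurd (by omega) h2

/-- one level of the filtration -/
theorem chain_level {F V W : Type} [Field F] [AddCommGroup V] [Module F V] [FiniteDimensional F V]
    [AddCommGroup W] [Module F W] [FiniteDimensional F W] (S S' : Submodule F V) (T : Submodule F W)
    (f : V →ₗ[F] W) (h1 : ∀ v ∈ S, f v ∈ T) (h2 : ∀ v ∈ S, f v = 0 → v ∈ S') :
    Module.finrank F S ≤ Module.finrank F T + Module.finrank F S' ∧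
      (Module.finrank F T + Module.finrank F S' ≤ Module.finrank F S →
        ∀ w ∈ T, ∃ v ∈ S, f v = w) := by
  have hm : S.map f ≤ T := by
    rintro _ ⟨v, hv, rfl⟩
    exact h1 v hv
  have hr : Module.finrank F (S.map f) + Module.finrank F (LinearMap.ker (f.domRestrict S))
      = Module.finrank F S := by
    have := LinearMap.finrank_range_add_finrank_ker (f.domRestrict S)
    rw [← this]
    congr 1
    rw [LinearMap.range_domRestrict]
  have hk : Module.finrank F (LinearMap.ker (f.domRestrict S)) ≤ Module.finrank F S' := by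
    rw [← Submodule.finrank_map_subtype_eq S (LinearMap.ker (f.domRestrict S))]
    apply Submodule.finrank_mono
    rintro _ ⟨v, hv, rfl⟩
    exact h2 v.1 v.2 hv
  refine ⟨?_, ?_⟩
  · have := Submodule.finrank_mono hm
    omega
  · intro h w hw
    have h3 : Module.finrank F T ≤ Module.finrank F (S.map f) := by omega
    have h4 : S.map f = T := Submodule.eq_of_le_of_finrank_le hm h3
    rw [← h4] at hw
    obtain ⟨v, hv, hvw⟩ := hw
    exact ⟨v, hv, hvw⟩

/-- the filtration of the kernel -/
def filt {F : Type} [Field F] {ι : Type} [Fintype ι] [DecidableEq ι] (A : Matrix ι ι F) (l : ℕ)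
    (C : ℕ → Matrix ι ι F) (j : ℕ) : Submodule F ((ι × Fin (l + 1)) → F) where
  carrier := {v | (bidiag A l C).mulVec v = 0 ∧ ∀ i : Fin (l + 1), (i : ℕ) < j → blk i v = 0}
  add_mem' := by
    rintro v w ⟨hv, hv'⟩ ⟨hw, hw'⟩
    refine ⟨by rw [Matrix.mulVec_add, hv, hw, add_zero], fun i hi => ?_⟩
    rw [map_add, hv' i hi, hw' i hi, add_zero]
  zero_mem' := ⟨Matrix.mulVec_zero _, fun i _ => map_zero _⟩
  smul_mem' := by
    rintro c v ⟨hv, hv'⟩
    refine ⟨by rw [Matrix.mulVec_smul, hv, smul_zero], fun i hi => ?_⟩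
    rw [map_smul, hv' i hi, smul_zero]

theorem chain_rank {F : Type} [Field F] {ι : Type} [Fintype ι] [DecidableEq ι] (A : Matrix ι ι F)
    (l : ℕ) (C : ℕ → Matrix ι ι F) (x : ℕ → ι → F) (h0 : A.mulVec (x 0) = 0)
    (h : ∀ i, i + 1 < l → A.mulVec (x (i + 1)) = (C i).mulVec (x i)) (hl : 0 < l)
    (hout : ∀ z, A.mulVec z ≠ (C (l - 1)).mulVec (x (l - 1))) :
    (l + 1) * A.rank + 1 ≤ (bidiag A l C).rank := by
  classical
  set k := Module.finrank F (LinearMap.ker A.mulVecLin) with hkdef
  have hA : A.rank + k = Fintype.card ι := by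
    have := LinearMap.finrank_range_add_finrank_ker A.mulVecLin
    rw [Module.finrank_fintype_fun_eq_card] at this
    exact this
  have hB : (bidiag A l C).rank + Module.finrank F (LinearMap.ker (bidiag A l C).mulVecLin)
      = Fintype.card ι * (l + 1) := by
    have := LinearMap.finrank_range_add_finrank_ker (bidiag A l C).mulVecLin
    rw [Module.finrank_fintype_fun_eq_card, Fintype.card_prod, Fintype.card_fin] at this
    exact this
  have hker : filt A l C 0 = LinearMap.ker (bidiag A l C).mulVecLin := by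
    ext v
    constructor
    · rintro ⟨hv, _⟩
      exact hv
    · intro hv
      exact ⟨hv, fun i hi => absurd hi (Nat.not_lt_zero _)⟩
  -- one level
  have hlev : ∀ j (hj : j < l + 1),
      Module.finrank F (filt A l C j) ≤ k + Module.finrank F (filt A l C (j + 1)) ∧
      (k + Module.finrank F (filt A l C (j + 1)) ≤ Module.finrank F (filt A l C j) →
        ∀ w, A.mulVec w = 0 → ∃ v ∈ filt A l C j, blk ⟨j, hj⟩ v = w) := by
    intro j hj
    have := chain_level (filt A l C j) (filt A l C (j + 1)) (LinearMap.ker A.mulVecLin)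
      (blk ⟨j, hj⟩) ?_ ?_
    · refine ⟨this.1, fun h1 w hw => this.2 h1 w hw⟩
    · rintro v ⟨hv, hv'⟩
      show A.mulVec (blk ⟨j, hj⟩ v) = 0
      funext a
      rcases Nat.eq_zero_or_pos j with h0 | hpos
      · subst h0
        have e := bidiag_mulVec_zero A l C v a
        rw [hv] at e
        exact e.symm
      · obtain ⟨i, rfl⟩ : ∃ i, j = i + 1 := ⟨j - 1, by omega⟩
        have e := bidiag_mulVec_succ A l C v a ⟨i, by omega⟩
        rw [hv] at e
        have e2 : blk (⟨i, by omega⟩ : Fin l).castSucc v = 0 := hv' _ (by simp)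
        rw [e2, Matrix.mulVec_zero] at e
        simp only [Pi.zero_apply, add_zero] at e
        exact e.symm
    · rintro v ⟨hv, hv'⟩ h1
      refine ⟨hv, fun i hi => ?_⟩
      rcases Nat.lt_succ_iff_lt_or_eq.1 hi with h2 | h2
      · exact hv' i h2
      · have : i = ⟨j, hj⟩ := Fin.ext h2
        rw [this]; exact h1
  have hlast : Module.finrank F (filt A l C (l + 1)) = 0 := by
    have : filt A l C (l + 1) = ⊥ := by
      rw [eq_bot_iff]
      rintro v ⟨_, hv⟩
      rw [Submodule.mem_bot]
      funext ⟨a, i⟩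
      exact congrFun (hv i i.2) a
    rw [this, finrank_bot]
  -- upper bounds
  have hup : ∀ m j, m + j = l + 1 → Module.finrank F (filt A l C j) ≤ m * k := by
    intro m
    induction m with
    | zero =>
      intro j hj
      have : j = l + 1 := by omega
      rw [this, hlast]; simp
    | succ m ih =>
      intro j hj
      have h1 := (hlev j (by omega)).1
      have h2 := ih (j + 1) (by omega)
      have : (m + 1) * k = m * k + k := by ring
      omega
  have hmain : Module.finrank F (filt A l C 0) + 1 ≤ (l + 1) * k := by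
    by_contra hcon
    have hlow : ∀ j, j ≤ l + 1 → (l + 1) * k ≤ Module.finrank F (filt A l C j) + j * k := by
      intro j
      induction j with
      | zero => intro _; omega
      | succ j ih =>
        intro hj
        have h1 := ih (by omega)
        have h2 := (hlev j (by omega)).1
        have : (j + 1) * k = j * k + k := by ring
        omega
    have hsurj : ∀ j (hj : j < l + 1), ∀ w, A.mulVec w = 0 → ∃ v ∈ filt A l C j,
        blk ⟨j, hj⟩ v = w := by
      intro j hj
      apply (hlev j hj).2
      obtain ⟨m, hm⟩ : ∃ m, m + (j + 1) = l + 1 := ⟨l + 1 - (j + 1), by omega⟩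
      have h1 := hup m (j + 1) hm
      have h2 := hlow j (by omega)
      have h3 : (l + 1) * k = m * k + j * k + k := by rw [← hm]; ring
      omega
    have hex : ∀ j, (hj : j < l) → ∃ v, (bidiag A l C).mulVec v = 0 ∧
        blk ⟨j, by omega⟩ v = (-1 : F) ^ j • x j := by
      intro j
      induction j with
      | zero =>
        intro hj
        obtain ⟨v, hv, hv2⟩ := hsurj 0 (by omega) (x 0) h0
        exact ⟨v, hv.1, by rw [hv2, pow_zero, one_smul]⟩
      | succ j ih =>
        intro hj
        obtain ⟨v, hv, hv2⟩ := ih (by omega)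
        have hz : A.mulVec (blk ⟨j + 1, by omega⟩ v - (-1 : F) ^ (j + 1) • x (j + 1)) = 0 := by
          rw [Matrix.mulVec_sub, Matrix.mulVec_smul, h j hj]
          funext a
          have e := bidiag_mulVec_succ A l C v a ⟨j, by omega⟩
          rw [hv] at e
          have e1 : blk (⟨j, by omega⟩ : Fin l).castSucc v = (-1 : F) ^ j • x j := hv2
          rw [e1, Matrix.mulVec_smul] at e
          have e2 : blk (⟨j, by omega⟩ : Fin l).succ v = blk ⟨j + 1, by omega⟩ v := rfl
          rw [e2] at e
          simp only [Pi.zero_apply, Pi.smul_apply, smul_eq_mul] at e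
          simp only [Pi.zero_apply, Pi.smul_apply, Pi.sub_apply, smul_eq_mul, pow_succ]
          linear_combination -e
        obtain ⟨w, hw, hw2⟩ := hsurj (j + 1) (by omega) _ hz
        refine ⟨v - w, by rw [Matrix.mulVec_sub, hv, hw.1, sub_zero], ?_⟩
        rw [map_sub, hw2, sub_sub_cancel]
    obtain ⟨v, hv, hv2⟩ := hex (l - 1) (by omega)
    apply hout ((-1 : F) ^ l • blk ⟨l, by omega⟩ v)
    funext a
    have e := bidiag_mulVec_succ A l C v a ⟨l - 1, by omega⟩
    rw [hv] at e
    have e1 : blk (⟨l - 1, by omega⟩ : Fin l).castSucc v = (-1 : F) ^ (l - 1) • x (l - 1) := hv2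
    have e2 : blk (⟨l - 1, by omega⟩ : Fin l).succ v = blk ⟨l, by omega⟩ v := by
      congr 2
      apply Fin.ext
      simp; omega
    rw [e1, e2, Matrix.mulVec_smul] at e
    rw [Matrix.mulVec_smul]
    simp only [Pi.zero_apply, Pi.smul_apply, smul_eq_mul] at e ⊢
    obtain ⟨m, rfl⟩ : ∃ m, l = m + 1 := ⟨l - 1, by omega⟩
    simp only [Nat.add_sub_cancel] at e ⊢
    have hs : ((-1 : F) ^ m) * ((-1 : F) ^ m) = 1 := by
      rw [← mul_pow]; simp
    rw [pow_succ]
    linear_combination ((-1 : F) ^ m) * e + ((C m).mulVec (x m) a) * hs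
  rw [hker] at hmain
  have e1 : Fintype.card ι * (l + 1) = (l + 1) * A.rank + (l + 1) * k := by
    rw [← hA]; ring
  omega

end Pool.Agent.RTB
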