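import Mathlib

/-!
# RTB CLOS: dimension count for a closed space

`A` an endomorphism of `F ^ N ⊗ F ^ d`, `ker A ≤ S`, `W' ⊗ F ^ d ≤ A S`, `S ≤ U' ⊗ F ^ d`; then
`d dim W' + dim ker A ≤ d dim U'`.
-/

set_option autoImplicit false

open Module

namespace Pool.Agent.RTB

section Clos

variable {F : Type} [Field F] {N d : ℕ}

/-- the component `b` -/
def cmpL (F : Type) [Field F] (N : ℕ) {d : ℕ} (b : Fin d) : (Fin N × Fin d → F) →ₗ[F] (Fin N → F) where
  toFun x := fun i => x (i, b)
  map_add' _ _ := rfl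
  map_smul' _ _ := rfl

/-- `v ⊗ e_a` -/
def tenL (F : Type) [Field F] (N : ℕ) {d : ℕ} (a : Fin d) : (Fin N → F) →ₗ[F] (Fin N × Fin d → F) where
  toFun v := fun u => if u.2 = a then v u.1 else 0
  map_add' x y := by
    funext u
    by_cases h : u.2 = a
    · simp [h]
    · simp [h]
  map_smul' c x := by
    funext u
    by_cases h : u.2 = a
    · simp [h]
    · simp [h]

/-- `V ⊗ F ^ d` -/
def tenS {d : ℕ} (V : Submodule F (Fin N → F)) : Submodule F (Fin N × Fin d → F) where
  carrier := {x | ∀ b, cmpL F N b x ∈ V}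
  zero_mem' := fun b => by simp
  add_mem' := fun hx hy b => by
    rw [map_add]
    exact V.add_mem (hx b) (hy b)
  smul_mem' := fun c x hx b => by
    rw [map_smul]
    exact V.smul_mem c (hx b)

theorem mem_tenS {V : Submodule F (Fin N → F)} {x : Fin N × Fin d → F} :
    x ∈ tenS V ↔ ∀ b, cmpL F N b x ∈ V := Iff.rfl

/-- `V ⊗ F ^ d` is the power of `V` -/
def tenEquiv {d : ℕ} (V : Submodule F (Fin N → F)) : tenS (d := d) V ≃ₗ[F] (Fin d → V) where
  toFun x := fun b => ⟨cmpL F N b x.1, x.2 b⟩
  invFun y := ⟨fun u => (y u.2).1 u.1, fun b => (y b).2⟩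
  map_add' _ _ := rfl
  map_smul' _ _ := rfl
  left_inv _ := rfl
  right_inv _ := rfl

theorem finrank_tenS (V : Submodule F (Fin N → F)) :
    finrank F (tenS (d := d) V) = d * finrank F V := by
  rw [(tenEquiv V).finrank_eq, Module.finrank_pi_fintype]
  simp

theorem sum_tenL (x : Fin N × Fin d → F) : x = ∑ a : Fin d, tenL F N a (cmpL F N a x) := by
  funext u
  rw [Finset.sum_apply, Finset.sum_eq_single u.2]
  · simp [tenL, cmpL]
  · intro b _ hb
    simp [tenL, Ne.symm hb]
  · intro h
    exact absurd (Finset.mem_univ _) h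

theorem clos_dim (A : (Fin N × Fin d → F) →ₗ[F] (Fin N × Fin d → F))
    (S : Submodule F (Fin N × Fin d → F)) (W' U' : Submodule F (Fin N → F))
    (hker : LinearMap.ker A ≤ S) (hW : ∀ v ∈ W', ∀ a, tenL F N a v ∈ S.map A)
    (hU : ∀ x ∈ S, ∀ b, cmpL F N b x ∈ U') :
    d * finrank F W' + finrank F (LinearMap.ker A) ≤ d * finrank F U' := by
  have h1 : tenS (d := d) W' ≤ S.map A := by
    intro x hx
    rw [sum_tenL x]
    exact Submodule.sum_mem _ fun a _ => hW _ (hx a) a
  have h5 : finrank F S = finrank F (S.map A) + finrank F (LinearMap.ker A) := by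
    have h6 := LinearMap.finrank_range_add_finrank_ker (A.domRestrict S)
    rw [← h6]
    congr 1
    · rw [LinearMap.range_domRestrict]
    · have h7 : LinearMap.ker (A.domRestrict S) = (LinearMap.ker A).comap S.subtype := by
        ext x
        rfl
      rw [h7]
      exact (Submodule.comapSubtypeEquivOfLe hker).finrank_eq
  have h8 : finrank F S ≤ finrank F (tenS (d := d) U') :=
    Submodule.finrank_mono fun x hx => hU x hx
  have h9 : finrank F (tenS (d := d) W') ≤ finrank F (S.map A) := Submodule.finrank_mono h1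
  rw [finrank_tenS] at h8 h9
  omega

end Clos

end Pool.Agent.RTB
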