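import Mathlib

/-!
# RTB REGDEFS: definitions for the regularity lemma
-/

namespace Pool.Agent.RTB

/-- the family of matrices through `X` -/
def fam {R : Type} [CommRing R] {n : ℕ} [NeZero n] (X : Matrix (Fin n) (Fin n) R) (x : Fin n → R)
    (y : R) : Matrix (Fin n) (Fin n) R :=
  fun a b => y ^ ((a - b : Fin n) : ℕ) * ∑ a', X a' (a' - (a - b)) * x (a - a')

/-- the parameters `x_m = ∑_{i < n} u ^ i v ^ (m i mod n)` -/
def kapv {R : Type} [CommRing R] {n : ℕ} (u v : R) (m : Fin n) : R :=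
  ∑ i : Fin n, u ^ (i : ℕ) * v ^ ((m : ℕ) * (i : ℕ) % n)

/-- `∑_{k < c} B k ⊗ X k` -/
def kr {R : Type} [CommRing R] {N n : ℕ} (c : ℕ) (B : ℕ → Matrix (Fin N) (Fin N) R)
    (X : ℕ → Matrix (Fin n) (Fin n) R) : Matrix (Fin N × Fin n) (Fin N × Fin n) R :=
  ∑ k ∈ Finset.range c, Matrix.kroneckerMap (· * ·) (B k) (X k)

end Pool.Agent.RTB
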