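import Pool.Agent.RTB.Sem
import Pool.Agent.RTB.RegDefs
import Pool.Agent.RTB.Clos

/-!
# RTB WONG: the closure of the kernel (specification of `wong`)
-/

set_option autoImplicit false

open Module Matrix

namespace Pool.Agent.RTB

section

variable {F : Type} [CommRing F] {N d : ℕ}

/-- the matrix of the generator `g = (k, a, b)`: `B_k ⊗ E_ab` -/
def opG (d : ℕ) (B : ℕ → Matrix (Fin N) (Fin N) F) (g : Gen) :
    Matrix (Fin N × Fin d) (Fin N × Fin d) F :=
  fun u v => if (u.2 : ℕ) = g.2.1 ∧ (v.2 : ℕ) = g.2.2 then B g.1 u.1 v.1 else 0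

/-- vectors that come from the kernel along a history -/
inductive Hist (B : ℕ → Matrix (Fin N) (Fin N) F) (A : Matrix (Fin N × Fin d) (Fin N × Fin d) F) :
    List Gen → (Fin N × Fin d → F) → Prop
  | nil (x : Fin N × Fin d → F) (h : A *ᵥ x = 0) : Hist B A [] x
  | cons (g : Gen) (h : List Gen) (x x' : Fin N × Fin d → F) (hx : Hist B A h x)
      (he : A *ᵥ x' = opG d B g *ᵥ x) : Hist B A (g :: h) x'

/-- escaping histories -/
def Esc (B : ℕ → Matrix (Fin N) (Fin N) F) (A : Matrix (Fin N × Fin d) (Fin N × Fin d) F)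
    (e : List Gen) : Prop :=
  ∃ g h x, e = g :: h ∧ Hist B A h x ∧ ∀ z, A *ᵥ z ≠ opG d B g *ᵥ x

theorem hist_chain (B : ℕ → Matrix (Fin N) (Fin N) F)
    (A : Matrix (Fin N × Fin d) (Fin N × Fin d) F) (h : List Gen) (y : Fin N × Fin d → F)
    (hy : Hist B A h y) : ∃ x : ℕ → Fin N × Fin d → F, A *ᵥ x 0 = 0 ∧
      (∀ i < h.length, A *ᵥ x (i + 1) = opG d B (h.reverse.getD i (0, (0, 0))) *ᵥ x i) ∧
      x h.length = y := by
  induction hy with
  | nil x hx => exact ⟨fun _ => x, hx, fun i hi => absurd hi (by simp), rfl⟩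
  | cons g h x x' hx he ih =>
    obtain ⟨z, h0, h1, h2⟩ := ih
    refine ⟨fun i => if i ≤ h.length then z i else x', by simpa using h0, ?_, by simp⟩
    intro i hi
    rw [List.length_cons] at hi
    rw [List.reverse_cons]
    by_cases h3 : i < h.length
    · have h4 : i + 1 ≤ h.length := h3
      have h5 : i ≤ h.length := by omega
      simp only [h4, h5, if_true]
      rw [List.getD_append _ _ _ _ (by simpa using h3)]
      exact h1 i h3
    · have h6 : i = h.length := by omega
      subst h6
      have h7 : ¬ h.length + 1 ≤ h.length := by omega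
      simp only [h7, if_false, le_refl, if_true]
      rw [List.getD_append_right _ _ _ _ (by simp)]
      simp only [List.length_reverse, Nat.sub_self, List.getD_cons_zero]
      rw [h2]
      exact he

/-- an escaping history gives the data for `chain_rank` -/
theorem esc_chain (B : ℕ → Matrix (Fin N) (Fin N) F)
    (A : Matrix (Fin N × Fin d) (Fin N × Fin d) F) (e : List Gen) (he : Esc B A e) :
    0 < e.length ∧ ∃ x : ℕ → Fin N × Fin d → F, A *ᵥ x 0 = 0 ∧
      (∀ i, i + 1 < e.length →
        A *ᵥ x (i + 1) = opG d B (e.reverse.getD i (0, (0, 0))) *ᵥ x i) ∧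
      ∀ z, A *ᵥ z ≠ opG d B (e.reverse.getD (e.length - 1) (0, (0, 0))) *ᵥ x (e.length - 1) := by
  obtain ⟨g, h, y, rfl, hy, hz⟩ := he
  obtain ⟨x, h0, h1, h2⟩ := hist_chain B A h y hy
  refine ⟨by simp, x, h0, ?_, ?_⟩
  · intro i hi
    rw [List.length_cons] at hi
    rw [List.reverse_cons, List.getD_append _ _ _ _ (by simp; omega)]
    exact h1 i (by omega)
  · intro z
    rw [List.length_cons, Nat.add_sub_cancel, List.reverse_cons,
      List.getD_append_right _ _ _ _ (by simp)]
    simp only [List.length_reverse, Nat.sub_self, List.getD_cons_zero]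
    rw [h2]
    exact hz z

end

section

variable {p : ℕ} {N d : ℕ}

/-- semantics of `appG` -/
theorem toV2_appG (Bs : List (List (List ℕ))) (g : Gen) (hg : g.2.2 < d) (x : List ℕ) :
    toV2 p N d (appG p N d Bs g x) = opG d (mB p N Bs) g *ᵥ toV2 p N d x := by
  funext u
  rw [toV2_apply, appG, ent2_mkV2 _ u.1.2 u.2.2, Matrix.mulVec, dotProduct,
    Fintype.sum_prod_type]
  by_cases h : (u.2 : ℕ) = g.2.1
  · rw [if_pos h, ZMod.natCast_mod, cast_sm]
    refine Finset.sum_congr rfl fun i' _ => ?_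
    rw [Finset.sum_eq_single (⟨g.2.2, hg⟩ : Fin d)]
    · rw [toV2_apply]
      simp only [opG, h, true_and, if_true, Nat.cast_mul]
      rfl
    · intro b _ hb
      have h1 : ¬ ((b : ℕ) = g.2.2) := fun h2 => hb (Fin.ext h2)
      simp [opG, h1]
    · intro h1
      exact absurd (Finset.mem_univ _) h1
  · rw [if_neg h, Nat.cast_zero]
    symm
    refine Finset.sum_eq_zero fun i' _ => Finset.sum_eq_zero fun b _ => ?_
    simp [opG, h]

theorem mem_gens {K d : ℕ} {g : Gen} : g ∈ gens K d ↔ g.1 < K ∧ g.2.1 < d ∧ g.2.2 < d := by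
  obtain ⟨k, a, b⟩ := g
  simp only [gens, List.mem_flatMap, List.mem_map, List.mem_range, Prod.mk.injEq]
  constructor
  · rintro ⟨k', hk, a', ha, b', hb, rfl, rfl, rfl⟩
    exact ⟨hk, ha, hb⟩
  · rintro ⟨hk, ha, hb⟩
    exact ⟨k, hk, a, ha, b, hb, rfl, rfl, rfl⟩

/-- reindexing -/
noncomputable def eV (p N d : ℕ) : (Fin (N * d) → ZMod p) ≃ₗ[ZMod p] (Fin N × Fin d → ZMod p) :=
  LinearEquiv.funCongrLeft (ZMod p) (ZMod p) finProdFinEquiv

theorem eV_toV (v : List ℕ) : eV p N d (toV p (N * d) v) = toV2 p N d v := rfl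

/-- the span of a list of vectors -/
noncomputable def sp2 (p N d : ℕ) (L : List (List ℕ)) : Submodule (ZMod p) (Fin N × Fin d → ZMod p) :=
  (sp p (N * d) L).map (eV p N d).toLinearMap

theorem mem_sp2 {L : List (List ℕ)} {v : List ℕ} :
    toV2 p N d v ∈ sp2 p N d L ↔ toV p (N * d) v ∈ sp p (N * d) L := by
  rw [sp2, ← eV_toV]
  constructor
  · rintro ⟨w, hw, h⟩
    have : w = toV p (N * d) v := (eV p N d).injective h
    rw [← this]
    exact hw
  · intro h
    exact ⟨_, h, rfl⟩

theorem sp2_eq (L : List (List ℕ)) :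
    sp2 p N d L = Submodule.span (ZMod p) {v | ∃ x ∈ L, v = toV2 p N d x} := by
  rw [sp2, sp, Submodule.map_span]
  congr 1
  ext v
  constructor
  · rintro ⟨w, hw, rfl⟩
    obtain ⟨x, hx, rfl⟩ := List.mem_map.1 hw
    exact ⟨x, hx, rfl⟩
  · rintro ⟨x, hx, rfl⟩
    exact ⟨_, List.mem_map.2 ⟨x, hx, rfl⟩, rfl⟩

theorem sp2_mono {L L' : List (List ℕ)} (h : ∀ x ∈ L, x ∈ L') : sp2 p N d L ≤ sp2 p N d L' := by
  rw [sp2_eq, sp2_eq]
  refine Submodule.span_mono ?_
  rintro v ⟨x, hx, rfl⟩
  exact ⟨x, h x hx, rfl⟩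

end

section

variable {p : ℕ} [hp : Fact p.Prime] {N d : ℕ}

theorem solveL_some2 {A : List (List ℕ)} {b c : List ℕ}
    (h : solveL p (N * d) (N * d) A b = some c) :
    toM2 p N d A *ᵥ toV2 p N d c = toV2 p N d b := by
  rw [mulVec_toM2, (solveL_some h).1]
  rfl

theorem solveL_none2 {A : List (List ℕ)} {b : List ℕ}
    (h : solveL p (N * d) (N * d) A b = none) (z : Fin N × Fin d → ZMod p) :
    toM2 p N d A *ᵥ z ≠ toV2 p N d b := by
  intro hz
  have h1 : (solveL p (N * d) (N * d) A b).isSome = true := by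
    rw [solveL_isSome_iff]
    refine ⟨(eV p N d).symm z, ?_⟩
    apply (eV p N d).injective
    rw [eV_toV, ← hz]
    funext x
    show ((toM p (N * d) (N * d) A).mulVec ((eV p N d).symm z)) (finProdFinEquiv x) = _
    rw [Matrix.mulVec, dotProduct, Matrix.mulVec, dotProduct]
    refine (Fintype.sum_equiv finProdFinEquiv _ _ fun y => ?_).symm
    rw [toM2, Matrix.submatrix_apply]
    congr 1
    show z y = z (finProdFinEquiv.symm (finProdFinEquiv y))
    rw [Equiv.symm_apply_apply]
  rw [h] at h1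
  exact absurd h1 (by simp)

theorem mem_kerL2 {A : List (List ℕ)} {x : Fin N × Fin d → ZMod p}
    : x ∈ sp2 p N d (kerL p (N * d) (N * d) A) ↔ toM2 p N d A *ᵥ x = 0 := by
  have h1 : ∀ y : Fin (N * d) → ZMod p, toM2 p N d A *ᵥ (eV p N d y) =
      eV p N d (toM p (N * d) (N * d) A *ᵥ y) := by
    intro y
    funext x
    rw [Matrix.mulVec, dotProduct]
    show _ = (toM p (N * d) (N * d) A *ᵥ y) (finProdFinEquiv x)
    rw [Matrix.mulVec, dotProduct]
    exact Fintype.sum_equiv finProdFinEquiv _ _ fun y => rfl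
  constructor
  · rintro ⟨y, hy, rfl⟩
    have h2 := mem_kerL.1 hy
    show toM2 p N d A *ᵥ (eV p N d y) = 0
    rw [h1, h2, map_zero]
  · intro h
    refine ⟨(eV p N d).symm x, ?_, LinearEquiv.apply_symm_apply _ _⟩
    refine mem_kerL.2 ?_
    apply (eV p N d).injective
    rw [← h1, LinearEquiv.apply_symm_apply, h, map_zero]

/-- the invariant of the closure: `i` vectors have been expanded -/
structure WInv (p N d : ℕ) (Bs : List (List (List ℕ))) (A : List (List ℕ)) (i : ℕ) (st : PL) :
    Prop where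
  hist : ∀ j x h, st.1[j]? = some (x, h) →
    Hist (mB p N Bs) (toM2 p N d A) h (toV2 p N d x) ∧ h.length ≤ j ∧ ∀ g ∈ h, g.1 < Bs.length
  esc : ∀ e ∈ st.2, Esc (mB p N Bs) (toM2 p N d A) e ∧ e.length ≤ N * d ∧
    ∀ g ∈ e, g.1 < Bs.length
  ind : Ind p (N * d) (st.1.map Prod.fst)
  ker : ∀ x, toM2 p N d A *ᵥ x = 0 → x ∈ sp2 p N d (st.1.map Prod.fst)
  clo : st.2 = [] → ∀ j < i, ∀ x h, st.1[j]? = some (x, h) → ∀ g ∈ gens Bs.length d,
    ∃ x' ∈ sp2 p N d (st.1.map Prod.fst),
      toM2 p N d A *ᵥ x' = opG d (mB p N Bs) g *ᵥ toV2 p N d x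

theorem ind_length_le {m : ℕ} {L : List (List ℕ)} (h : Ind p m L) : L.length ≤ m := by
  have h1 := finrank_of_ind h
  have h2 : finrank (ZMod p) (sp p m L) ≤ finrank (ZMod p) (Fin m → ZMod p) :=
    Submodule.finrank_le _
  rw [Module.finrank_fin_fun] at h2
  omega

theorem ind_full {m : ℕ} {L : List (List ℕ)} (h : Ind p m L) (hm : m ≤ L.length) :
    sp p m L = ⊤ := by
  have h1 := finrank_of_ind h
  apply Submodule.eq_top_of_finrank_eq
  rw [Module.finrank_fin_fun]
  have h2 := ind_length_le h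
  omega

/-- one expansion step keeps the invariant -/
theorem expS_inv (Bs : List (List (List ℕ))) (A : List (List ℕ)) (i : ℕ) (st : PL)
    (hst : WInv p N d Bs A i st) (x : List ℕ) (h : List Gen) (hx : st.1[i]? = some (x, h))
    (g : Gen) (hg : g ∈ gens Bs.length d) :
    WInv p N d Bs A i (expS p N d Bs A x h st g) ∧
    (∃ E, (expS p N d Bs A x h st g).1 = st.1 ++ E) ∧
    ((expS p N d Bs A x h st g).2 = [] → st.2 = [] ∧
      ∃ x' ∈ sp2 p N d ((expS p N d Bs A x h st g).1.map Prod.fst),
        toM2 p N d A *ᵥ x' = opG d (mB p N Bs) g *ᵥ toV2 p N d x) := by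
  have hgd : g.2.2 < d := (mem_gens.1 hg).2.2
  have hi : i < st.1.length := by
    by_contra hc
    rw [List.getElem?_eq_none (by omega)] at hx
    exact absurd hx (by simp)
  have hlen : st.1.length ≤ N * d := by
    have := ind_length_le hst.ind
    simpa using this
  obtain ⟨hH, hhi, hgh⟩ := hst.hist i x h hx
  have hgh' : ∀ g' ∈ g :: h, g'.1 < Bs.length := by
    intro g' hg'
    rcases List.mem_cons.1 hg' with rfl | h1
    · exact (mem_gens.1 hg).1
    · exact hgh g' h1
  rcases hs : solveL p (N * d) (N * d) A (appG p N d Bs g x) with _ | x'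
  · -- escape
    have he : expS p N d Bs A x h st g = (st.1, st.2 ++ [g :: h]) := by
      simp only [expS, hs]
    rw [he]
    refine ⟨⟨hst.hist, ?_, hst.ind, hst.ker, ?_⟩, ⟨[], by simp⟩, ?_⟩
    · intro e he'
      rcases List.mem_append.1 he' with h1 | h1
      · exact hst.esc e h1
      · rw [List.mem_singleton] at h1
        subst h1
        refine ⟨⟨g, h, _, rfl, hH, ?_⟩, ?_, hgh'⟩
        · intro z
          rw [← toV2_appG Bs g hgd x]
          exact solveL_none2 hs z
        · rw [List.length_cons]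
          omega
    · intro h0
      simp at h0
    · intro h0
      simp at h0
  · have hAx : toM2 p N d A *ᵥ toV2 p N d x' = opG d (mB p N Bs) g *ᵥ toV2 p N d x := by
      rw [solveL_some2 hs, toV2_appG Bs g hgd x]
    by_cases hc : (decide (N * d ≤ st.1.length) || memb p (N * d) (st.1.map Prod.fst) x') = true
    · have he : expS p N d Bs A x h st g = st := by
        simp only [expS, hs, hc, if_true]
      rw [he]
      refine ⟨hst, ⟨[], by simp⟩, fun h0 => ⟨h0, toV2 p N d x', ?_, hAx⟩⟩
      rw [mem_sp2]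
      rcases Bool.or_eq_true_iff.1 hc with h1 | h1
      · rw [ind_full hst.ind (by simpa using h1)]
        exact Submodule.mem_top
      · exact memb_iff.1 h1
    · have he : expS p N d Bs A x h st g = (st.1 ++ [(x', g :: h)], st.2) := by
        simp only [expS, hs]
        rw [if_neg hc]
      have hmem : ∀ y ∈ st.1.map Prod.fst, y ∈ (st.1 ++ [(x', g :: h)]).map Prod.fst := by
        intro y hy
        rw [List.map_append]
        exact List.mem_append_left _ hy
      have hx' : toV2 p N d x' ∈ sp2 p N d ((st.1 ++ [(x', g :: h)]).map Prod.fst) := by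
        rw [mem_sp2, sp]
        refine Submodule.subset_span ?_
        show toV p (N * d) x' ∈ List.map _ _
        simp
      rw [he]
      refine ⟨⟨?_, hst.esc, ?_, ?_, ?_⟩, ⟨_, rfl⟩, ?_⟩
      · intro j y k hj
        rcases Nat.lt_trichotomy j st.1.length with h1 | h1 | h1
        · rw [List.getElem?_append_left h1] at hj
          exact hst.hist j y k hj
        · subst h1
          rw [List.getElem?_append_right (le_refl _), Nat.sub_self] at hj
          simp only [List.getElem?_cons_zero, Option.some.injEq, Prod.mk.injEq] at hj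
          obtain ⟨rfl, rfl⟩ := hj
          refine ⟨Hist.cons g h _ _ hH hAx, ?_, hgh'⟩
          rw [List.length_cons]
          omega
        · rw [List.getElem?_eq_none (by simp; omega)] at hj
          exact absurd hj (by simp)
      · rw [List.map_append]
        refine ind_append_singleton hst.ind ?_
        intro h1
        apply hc
        rw [Bool.or_eq_true_iff]
        exact Or.inr (memb_iff.2 h1)
      · intro y hy
        exact sp2_mono hmem (hst.ker y hy)
      · intro h0 j hj y k hjk g' hg'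
        have h1 : j < st.1.length := by omega
        rw [List.getElem?_append_left h1] at hjk
        obtain ⟨z, hz1, hz2⟩ := hst.clo h0 j hj y k hjk g' hg'
        exact ⟨z, sp2_mono hmem hz1, hz2⟩
      · intro h0
        exact ⟨h0, toV2 p N d x', hx', hAx⟩

/-- expansion by a list of generators -/
theorem expS_fold (Bs : List (List (List ℕ))) (A : List (List ℕ)) (i : ℕ) (x : List ℕ)
    (h : List Gen) : ∀ (gs : List Gen) (st : PL), (∀ g ∈ gs, g ∈ gens Bs.length d) →
    WInv p N d Bs A i st → st.1[i]? = some (x, h) →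
    WInv p N d Bs A i (gs.foldl (expS p N d Bs A x h) st) ∧
    (∃ E, (gs.foldl (expS p N d Bs A x h) st).1 = st.1 ++ E) ∧
    ((gs.foldl (expS p N d Bs A x h) st).2 = [] → st.2 = [] ∧ ∀ g ∈ gs,
      ∃ x' ∈ sp2 p N d ((gs.foldl (expS p N d Bs A x h) st).1.map Prod.fst),
        toM2 p N d A *ᵥ x' = opG d (mB p N Bs) g *ᵥ toV2 p N d x)
  | [], st, _, hst, _ => ⟨hst, ⟨[], by simp⟩, fun h0 => ⟨h0, by simp⟩⟩
  | g :: gs, st, hgs, hst, hx => by
    obtain ⟨h1, ⟨E1, hE1⟩, h3⟩ := expS_inv Bs A i st hst x h hx g (hgs g (by simp))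
    have hx1 : (expS p N d Bs A x h st g).1[i]? = some (x, h) := by
      have hi : i < st.1.length := by
        by_contra hc
        rw [List.getElem?_eq_none (by omega)] at hx
        exact absurd hx (by simp)
      rw [hE1, List.getElem?_append_left hi]
      exact hx
    obtain ⟨h4, ⟨E2, hE2⟩, h6⟩ := expS_fold Bs A i x h gs (expS p N d Bs A x h st g)
      (fun g' hg' => hgs g' (by simp [hg'])) h1 hx1
    rw [List.foldl_cons]
    refine ⟨h4, ⟨E1 ++ E2, by rw [hE2, hE1, List.append_assoc]⟩, ?_⟩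
    intro h0
    obtain ⟨h7, h8⟩ := h6 h0
    obtain ⟨h9, z, hz1, hz2⟩ := h3 h7
    refine ⟨h9, ?_⟩
    intro g' hg'
    rcases List.mem_cons.1 hg' with rfl | hg'
    · refine ⟨z, sp2_mono ?_ hz1, hz2⟩
      intro y hy
      rw [hE2, List.map_append]
      exact List.mem_append_left _ hy
    · exact h8 g' hg'

theorem wongS_inv (Bs : List (List (List ℕ))) (A : List (List ℕ)) (i : ℕ) (st : PL)
    (hst : WInv p N d Bs A i st) : WInv p N d Bs A (i + 1) (wongS p N d Bs A st i) := by
  by_cases hi : i < st.1.length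
  · have hx : st.1[i]? = some ((st.1.getD i ([], [])).1, (st.1.getD i ([], [])).2) := by
      rw [List.getElem?_eq_getElem hi, List.getD_eq_getElem _ _ hi]
    have he : wongS p N d Bs A st i = (gens Bs.length d).foldl
        (expS p N d Bs A (st.1.getD i ([], [])).1 (st.1.getD i ([], [])).2) st := by
      simp only [wongS, hi, if_true]
    obtain ⟨h1, ⟨E, hE⟩, h3⟩ := expS_fold Bs A i (st.1.getD i ([], [])).1
      (st.1.getD i ([], [])).2 (gens Bs.length d) st (fun g hg => hg) hst hx
    rw [he]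
    refine ⟨h1.hist, h1.esc, h1.ind, h1.ker, ?_⟩
    intro h0 j hj y k hjk g hg
    rcases Nat.lt_succ_iff_lt_or_eq.1 hj with h4 | h4
    · exact h1.clo h0 j h4 y k hjk g hg
    · subst h4
      obtain ⟨_, h5⟩ := h3 h0
      obtain ⟨z, hz1, hz2⟩ := h5 g hg
      refine ⟨z, hz1, ?_⟩
      rw [hE, List.getElem?_append_left hi, hx] at hjk
      simp only [Option.some.injEq, Prod.mk.injEq] at hjk
      rw [hz2, hjk.1]
  · have he : wongS p N d Bs A st i = st := by
      simp only [wongS, hi, if_false]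
    rw [he]
    refine ⟨hst.hist, hst.esc, hst.ind, hst.ker, ?_⟩
    intro h0 j hj y k hjk g hg
    rcases Nat.lt_succ_iff_lt_or_eq.1 hj with h4 | h4
    · exact hst.clo h0 j h4 y k hjk g hg
    · subst h4
      rw [List.getElem?_eq_none (by omega)] at hjk
      exact absurd hjk (by simp)

theorem wong_inv (Bs : List (List (List ℕ))) (A : List (List ℕ)) :
    WInv p N d Bs A (N * d) (wong p N d Bs A (kerL p (N * d) (N * d) A)) := by
  have key : ∀ m, WInv p N d Bs A m ((List.range m).foldl (wongS p N d Bs A)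
      ((kerL p (N * d) (N * d) A).map fun x => (x, []), [])) := by
    intro m
    induction m with
    | zero =>
      rw [List.range_zero, List.foldl_nil]
      have hm : ((kerL p (N * d) (N * d) A).map fun x => (x, ([] : List Gen))).map Prod.fst =
          kerL p (N * d) (N * d) A := by
        rw [List.map_map]
        simp [Function.comp_def]
      refine ⟨?_, by simp, ?_, ?_, ?_⟩
      · intro j x h hj
        have h1 : (x, h) ∈ (kerL p (N * d) (N * d) A).map fun x => (x, ([] : List Gen)) :=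
          List.mem_of_getElem? hj
        rw [List.mem_map] at h1
        obtain ⟨y, hy, h2⟩ := h1
        simp only [Prod.mk.injEq] at h2
        obtain ⟨rfl, rfl⟩ := h2
        refine ⟨Hist.nil _ ?_, by simp, by simp⟩
        rw [← mem_kerL2, mem_sp2, sp]
        exact Submodule.subset_span (List.mem_map.2 ⟨y, hy, rfl⟩)
      · show Ind p (N * d) (((kerL p (N * d) (N * d) A).map fun x => (x, ([] : List Gen))).map
          Prod.fst)
        rw [hm]
        exact ind_kerL _ _ _
      · intro x hx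
        show x ∈ sp2 p N d (((kerL p (N * d) (N * d) A).map fun x => (x, ([] : List Gen))).map
          Prod.fst)
        rw [hm]
        exact mem_kerL2.2 hx
      · intro _ j hj
        omega
    | succ m ih =>
      rw [List.range_succ, List.foldl_append]
      exact wongS_inv Bs A m _ ih
  exact key (N * d)

/-- **escape** -/
theorem wong_esc (Bs : List (List (List ℕ))) (A : List (List ℕ)) (e : List Gen)
    (he : e ∈ (wong p N d Bs A (kerL p (N * d) (N * d) A)).2) :
    Esc (mB p N Bs) (toM2 p N d A) e ∧ e.length ≤ N * d ∧ ∀ g ∈ e, g.1 < Bs.length :=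
  (wong_inv Bs A).esc e he

theorem toV_comp (x : List ℕ) (a : Fin d) :
    toV p N (vt N fun i => ent2 d x i a) = cmpL (ZMod p) N a (toV2 p N d x) := by
  funext i
  rw [toV_vt]
  show _ = toV2 p N d x (i, a)
  rw [toV2_apply]

theorem mem_comps {xs : List (List ℕ)} {x : List ℕ} (hx : x ∈ xs) (a : Fin d) :
    cmpL (ZMod p) N a (toV2 p N d x) ∈ sp p N (comps N d xs) := by
  rw [← toV_comp, sp]
  refine Submodule.subset_span (List.mem_map.2 ⟨_, ?_, rfl⟩)
  rw [comps, List.mem_flatMap]
  exact ⟨x, hx, List.mem_map.2 ⟨a, List.mem_range.2 a.2, rfl⟩⟩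

/-- **no escape**: a shrunk subspace -/
theorem wong_closed (Bs : List (List (List ℕ))) (A : List (List ℕ))
    (h0 : (wong p N d Bs A (kerL p (N * d) (N * d) A)).2 = [])
    (hk : kerL p (N * d) (N * d) A ≠ []) :
    let us := bas p N (comps N d ((wong p N d Bs A (kerL p (N * d) (N * d) A)).1.map Prod.fst))
    let ws := bas p N (imgs p N Bs us)
    Ind p N ws ∧ Ind p N us ∧ ws.length < us.length ∧
      ∀ k < Bs.length, ∀ x ∈ sp p N us, mB p N Bs k *ᵥ x ∈ sp p N ws := by
  intro us ws
  have hI := wong_inv (p := p) (N := N) (d := d) Bs A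
  set st := wong p N d Bs A (kerL p (N * d) (N * d) A) with hst
  have hlen : st.1.length ≤ N * d := by
    have := ind_length_le hI.ind
    simpa using this
  have hus : sp p N us = sp p N (comps N d (st.1.map Prod.fst)) := sp_bas _ _
  have hws : sp p N ws = sp p N (imgs p N Bs us) := sp_bas _ _
  -- images
  have himg : ∀ k < Bs.length, ∀ x ∈ sp p N us, mB p N Bs k *ᵥ x ∈ sp p N ws := by
    intro k hk x hx
    rw [hws]
    have h1 : sp p N (us.map (mulVecL p N N (Bs.getD k []))) ≤ sp p N (imgs p N Bs us) := by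
      rw [sp, sp]
      refine Submodule.span_mono ?_
      intro v hv
      obtain ⟨w, hw, rfl⟩ := List.mem_map.1 hv
      refine List.mem_map.2 ⟨w, ?_, rfl⟩
      rw [imgs, List.mem_flatMap]
      refine ⟨Bs.getD k [], ?_, hw⟩
      rw [List.getD_eq_getElem _ _ hk]
      exact List.getElem_mem hk
    apply h1
    rw [sp_map_mulVecL]
    exact ⟨x, hx, rfl⟩
  refine ⟨ind_bas _ _, ind_bas _ _, ?_, himg⟩
  -- the closed space
  have hclo : ∀ x ∈ sp2 p N d (st.1.map Prod.fst), ∀ g ∈ gens Bs.length d,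
      opG d (mB p N Bs) g *ᵥ x ∈ (sp2 p N d (st.1.map Prod.fst)).map
        (toM2 p N d A).mulVecLin := by
    intro x hx g hg
    rw [sp2_eq] at hx
    refine Submodule.span_induction (p := fun x _ => opG d (mB p N Bs) g *ᵥ x ∈
      (sp2 p N d (st.1.map Prod.fst)).map (toM2 p N d A).mulVecLin) ?_ ?_ ?_ ?_ hx
    · rintro _ ⟨y, hy, rfl⟩
      rw [List.mem_map] at hy
      obtain ⟨⟨y', k⟩, hy', rfl⟩ := hy
      obtain ⟨j, hj⟩ := List.mem_iff_getElem?.1 hy'
      have hjl : j < st.1.length := by
        by_contra hc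
        rw [List.getElem?_eq_none (by omega)] at hj
        exact absurd hj (by simp)
      obtain ⟨z, hz1, hz2⟩ := hI.clo h0 j (by omega) y' k hj g hg
      exact ⟨z, hz1, hz2⟩
    · rw [Matrix.mulVec_zero]
      exact Submodule.zero_mem _
    · intro x y _ _ hx hy
      rw [Matrix.mulVec_add]
      exact Submodule.add_mem _ hx hy
    · intro r x _ hx
      rw [Matrix.mulVec_smul]
      exact Submodule.smul_mem _ _ hx
  have hcomp : ∀ x ∈ sp2 p N d (st.1.map Prod.fst), ∀ b, cmpL (ZMod p) N b x ∈ sp p N us := by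
    intro x hx b
    rw [hus]
    rw [sp2_eq] at hx
    refine Submodule.span_induction (p := fun x _ => cmpL (ZMod p) N b x ∈
      sp p N (comps N d (st.1.map Prod.fst))) ?_ ?_ ?_ ?_ hx
    · rintro _ ⟨y, hy, rfl⟩
      exact mem_comps hy b
    · rw [map_zero]
      exact Submodule.zero_mem _
    · intro x y _ _ hx hy
      rw [map_add]
      exact Submodule.add_mem _ hx hy
    · intro r x _ hx
      rw [map_smul]
      exact Submodule.smul_mem _ _ hx
  -- `W ⊗ F ^ d ≤ A S`
  have hop : ∀ (k : ℕ) (a b : Fin d) (x : Fin N × Fin d → ZMod p),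
      opG d (mB p N Bs) (k, ((a : ℕ), (b : ℕ))) *ᵥ x =
        tenL (ZMod p) N a (mB p N Bs k *ᵥ cmpL (ZMod p) N b x) := by
    intro k a b x
    funext u
    rw [Matrix.mulVec, dotProduct, Fintype.sum_prod_type]
    by_cases h : u.2 = a
    · have h1 : tenL (ZMod p) N a (mB p N Bs k *ᵥ cmpL (ZMod p) N b x) u =
          (mB p N Bs k *ᵥ cmpL (ZMod p) N b x) u.1 := by
        simp [tenL, h]
      rw [h1, Matrix.mulVec, dotProduct]
      refine Finset.sum_congr rfl fun i' _ => ?_
      rw [Finset.sum_eq_single b]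
      · simp only [opG, h, and_self, if_true]
        rfl
      · intro b' _ hb'
        have h2 : ¬ ((b' : ℕ) = (b : ℕ)) := fun h3 => hb' (Fin.ext h3)
        simp [opG, h2]
      · intro h2
        exact absurd (Finset.mem_univ _) h2
    · have h1 : tenL (ZMod p) N a (mB p N Bs k *ᵥ cmpL (ZMod p) N b x) u = 0 := by
        simp [tenL, h]
      rw [h1]
      refine Finset.sum_eq_zero fun i' _ => Finset.sum_eq_zero fun b' _ => ?_
      have h2 : ¬ ((u.2 : ℕ) = (a : ℕ)) := fun h3 => h (Fin.ext h3)
      simp [opG, h2]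
  have hW : ∀ v ∈ sp p N ws, ∀ a : Fin d, tenL (ZMod p) N a v ∈
      (sp2 p N d (st.1.map Prod.fst)).map (toM2 p N d A).mulVecLin := by
    intro v hv a
    rw [hws, sp] at hv
    refine Submodule.span_induction (p := fun v _ => tenL (ZMod p) N a v ∈
      (sp2 p N d (st.1.map Prod.fst)).map (toM2 p N d A).mulVecLin) ?_ ?_ ?_ ?_ hv
    · intro v hv
      obtain ⟨w, hw, rfl⟩ := List.mem_map.1 hv
      rw [imgs, List.mem_flatMap] at hw
      obtain ⟨M, hM, hw⟩ := hw
      obtain ⟨u, hu, rfl⟩ := List.mem_map.1 hw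
      obtain ⟨k, hk, rfl⟩ := List.getElem_of_mem hM
      rw [toV_mulVecL]
      have hMk : toM p N N (Bs[k]) = mB p N Bs k := by
        rw [mB, List.getD_eq_getElem _ _ hk]
      rw [hMk]
      -- `u` is a combination of components
      have hu1 : toV p N u ∈ sp p N us := by
        rw [sp]
        exact Submodule.subset_span (List.mem_map.2 ⟨u, hu, rfl⟩)
      rw [hus, sp] at hu1
      refine Submodule.span_induction (p := fun v _ => tenL (ZMod p) N a (mB p N Bs k *ᵥ v) ∈
        (sp2 p N d (st.1.map Prod.fst)).map (toM2 p N d A).mulVecLin) ?_ ?_ ?_ ?_ hu1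
      · intro v hv
        obtain ⟨c, hc, rfl⟩ := List.mem_map.1 hv
        rw [comps, List.mem_flatMap] at hc
        obtain ⟨x, hx, hc⟩ := hc
        obtain ⟨b, hb, rfl⟩ := List.mem_map.1 hc
        rw [List.mem_range] at hb
        have h1 := toV_comp (p := p) (N := N) x (⟨b, hb⟩ : Fin d)
        rw [h1, ← hop k a ⟨b, hb⟩]
        refine hclo _ ?_ _ ?_
        · rw [mem_sp2, sp]
          exact Submodule.subset_span (List.mem_map.2 ⟨x, hx, rfl⟩)
        · exact mem_gens.2 ⟨hk, a.2, hb⟩
      · rw [Matrix.mulVec_zero, map_zero]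
        exact Submodule.zero_mem _
      · intro x y _ _ hx hy
        rw [Matrix.mulVec_add, map_add]
        exact Submodule.add_mem _ hx hy
      · intro r x _ hx
        rw [Matrix.mulVec_smul, map_smul]
        exact Submodule.smul_mem _ _ hx
    · rw [map_zero]
      exact Submodule.zero_mem _
    · intro x y _ _ hx hy
      rw [map_add]
      exact Submodule.add_mem _ hx hy
    · intro r x _ hx
      rw [map_smul]
      exact Submodule.smul_mem _ _ hx
  have hdim := clos_dim (toM2 p N d A).mulVecLin (sp2 p N d (st.1.map Prod.fst)) (sp p N ws)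
    (sp p N us) (fun x hx => hI.ker x hx) hW hcomp
  have hker : 0 < finrank (ZMod p) (LinearMap.ker (toM2 p N d A).mulVecLin) := by
    have h1 : LinearMap.ker (toM2 p N d A).mulVecLin =
        sp2 p N d (kerL p (N * d) (N * d) A) := by
      ext x
      exact mem_kerL2.symm
    rw [h1, sp2, LinearEquiv.finrank_map_eq, finrank_of_ind (ind_kerL _ _ _)]
    exact List.length_pos_iff.2 hk
  have h3 : finrank (ZMod p) (sp p N ws) = ws.length := finrank_of_ind (ind_bas _ _)
  have h4 : finrank (ZMod p) (sp p N us) = us.length := finrank_of_ind (ind_bas _ _)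
  rw [h3, h4] at hdim
  have h2 : d * ws.length < d * us.length := by omega
  exact lt_of_mul_lt_mul_left h2 (Nat.zero_le d)

end

end Pool.Agent.RTB
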