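import Pool.Agent.RTB.RegX
import Pool.Agent.RTB.Wong
import Pool.Agent.RTB.Chain

/-!
# RTB BLOW: the blown-up matrices form the block bidiagonal matrix

The index `(i, c * d + a)` of the big matrix corresponds to `((i, a), c)`.
-/

set_option autoImplicit false

namespace Pool.Agent.RTB

variable {p : ℕ}

/-- renaming of the indices -/
def blowE (N d l : ℕ) : Fin N × Fin ((l + 1) * d) ≃ (Fin N × Fin d) × Fin (l + 1) :=
  ((Equiv.refl (Fin N)).prodCongr (finProdFinEquiv.symm.trans (Equiv.prodComm _ _))).trans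
    (Equiv.prodAssoc _ _ _).symm

theorem length_blow (d : ℕ) (Xs : List (List (List ℕ))) (h : List Gen) :
    (blow d Xs h).length = Xs.length := by simp [blow]

theorem getD_blow (d : ℕ) (Xs : List (List (List ℕ))) (h : List Gen) {k : ℕ}
    (hk : k < Xs.length) : (blow d Xs h).getD k [] = mkK (h.length + 1) d fun c a c' b =>
      if c = c' then entM (Xs.getD k []) a b
      else if c = c' + 1 ∧ h.getD c' (0, (0, 0)) = (k, (a, b)) then 1 else 0 := by
  unfold blow
  rw [List.getD_eq_getElem?_getD, List.getElem?_map, List.getElem?_zipIdx,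
    List.getElem?_eq_getElem hk]
  simp only [Option.map_some, Option.getD_some, Nat.zero_add]
  rw [List.getD_eq_getElem?_getD, List.getElem?_eq_getElem hk, Option.getD_some]

theorem mB_blow (d : ℕ) (Xs : List (List (List ℕ))) (h : List Gen) {k : ℕ}
    (hk : k < Xs.length) (x y : Fin (h.length + 1) × Fin d) :
    mB p ((h.length + 1) * d) (blow d Xs h) k (finProdFinEquiv x) (finProdFinEquiv y) =
      if x.1 = y.1 then mB p d Xs k x.2 y.2
      else if (x.1 : ℕ) = (y.1 : ℕ) + 1 ∧
        h.getD y.1 (0, (0, 0)) = (k, ((x.2 : ℕ), (y.2 : ℕ))) then 1 else 0 := by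
  rw [mB, getD_blow d Xs h hk, toM_apply, pos_eq, pos_eq,
    entM_mkK _ x.1.2 x.2.2 y.1.2 y.2.2]
  by_cases h1 : x.1 = y.1
  · rw [if_pos (by rw [h1]), if_pos h1, mB, toM_apply]
  · rw [if_neg (fun e => h1 (Fin.ext e)), if_neg h1]
    split_ifs <;> simp

/-- **the blown-up matrix is the block bidiagonal matrix** -/
theorem kr_blow {N d : ℕ} (Bs Xs : List (List (List ℕ))) (h : List Gen)
    [Fact p.Prime] (hX : Xs.length = Bs.length) (hC : ∀ g ∈ h, g.1 < Bs.length) :
    kr Bs.length (mB p N Bs) (mB p ((h.length + 1) * d) (blow d Xs h)) =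
      (bidiag (kr Bs.length (mB p N Bs) (mB p d Xs)) h.length
        fun i => opG d (mB p N Bs) (h.getD i (0, (0, 0)))).submatrix
          (blowE N d h.length) (blowE N d h.length) := by
  ext u v
  obtain ⟨i, P⟩ := u
  obtain ⟨j, Q⟩ := v
  obtain ⟨x, rfl⟩ := finProdFinEquiv.surjective P
  obtain ⟨y, rfl⟩ := finProdFinEquiv.surjective Q
  obtain ⟨c, a⟩ := x
  obtain ⟨c', b⟩ := y
  have e1 : blowE N d h.length (i, finProdFinEquiv (c, a)) = ((i, a), c) := by
    simp [blowE]
  have e2 : blowE N d h.length (j, finProdFinEquiv (c', b)) = ((j, b), c') := by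
    simp [blowE]
  rw [Matrix.submatrix_apply, e1, e2, kr, Matrix.sum_apply]
  have h1 : ∀ k ∈ Finset.range Bs.length,
      Matrix.kroneckerMap (· * ·) (mB p N Bs k) (mB p ((h.length + 1) * d) (blow d Xs h) k)
        (i, finProdFinEquiv (c, a)) (j, finProdFinEquiv (c', b)) = mB p N Bs k i j *
        (if c = c' then mB p d Xs k a b
          else if (c : ℕ) = (c' : ℕ) + 1 ∧
            h.getD c' (0, (0, 0)) = (k, ((a : ℕ), (b : ℕ))) then 1 else 0) := by
    intro k hk
    rw [Matrix.kroneckerMap_apply]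
    simp only
    rw [mB_blow d Xs h (by rw [hX]; exact Finset.mem_range.1 hk)]
  rw [Finset.sum_congr rfl h1, bidiag]
  by_cases hc : c = c'
  · simp only [hc, if_true]
    rw [kr, Matrix.sum_apply]
    rfl
  · simp only [hc, if_false]
    by_cases hc2 : (c : ℕ) = (c' : ℕ) + 1
    · simp only [hc2, true_and, if_true]
      have hlt : (c' : ℕ) < h.length := by have := c.2; omega
      have hg : (h.getD c' (0, (0, 0))).1 < Bs.length := by
        rw [List.getD_eq_getElem _ _ hlt]
        exact hC _ (List.getElem_mem hlt)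
      generalize h.getD c' (0, (0, 0)) = g at hg
      rw [opG]
      by_cases hab : (a : ℕ) = g.2.1 ∧ (b : ℕ) = g.2.2
      · rw [if_pos hab, Finset.sum_eq_single g.1]
        · rw [if_pos (by ext <;> simp [hab.1, hab.2]), mul_one]
        · intro k _ hk
          rw [if_neg (fun e => hk (by rw [e])), mul_zero]
        · intro hn
          exact absurd (Finset.mem_range.2 hg) hn
      · rw [if_neg hab]
        refine Finset.sum_eq_zero fun k _ => ?_
        rw [if_neg (fun e => hab ⟨by rw [e], by rw [e]⟩), mul_zero]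
    · simp only [hc2, false_and, if_false, mul_zero, Finset.sum_const_zero]

theorem blow_rank [Fact p.Prime] {N d n : ℕ} (Bs Xs : List (List (List ℕ))) (h : List Gen)
    (hX : Xs.length = Bs.length) (hC : ∀ g ∈ h, g.1 < Bs.length)
    (hn : n = (h.length + 1) * d) :
    (kr Bs.length (mB p N Bs) (mB p n (blow d Xs h))).rank =
      (bidiag (kr Bs.length (mB p N Bs) (mB p d Xs)) h.length
        fun i => opG d (mB p N Bs) (h.getD i (0, (0, 0)))).rank := by
  subst hn
  rw [kr_blow Bs Xs h hX hC, Matrix.rank_submatrix]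

/-- **the rank of the blown-up matrix if there is a chain that leaves the image** -/
theorem blow_spec [Fact p.Prime] {N d n : ℕ} (Bs Xs : List (List (List ℕ))) (h : List Gen)
    (hX : Xs.length = Bs.length) (hC : ∀ g ∈ h, g.1 < Bs.length)
    (hn : n = d * (h.length + 1)) (x : ℕ → Fin N × Fin d → ZMod p)
    (h0 : (kr Bs.length (mB p N Bs) (mB p d Xs)).mulVec (x 0) = 0)
    (hi : ∀ i, i + 1 < h.length → (kr Bs.length (mB p N Bs) (mB p d Xs)).mulVec (x (i + 1)) =
      (opG d (mB p N Bs) (h.getD i (0, (0, 0)))).mulVec (x i)) (hl : 0 < h.length)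
    (hout : ∀ z, (kr Bs.length (mB p N Bs) (mB p d Xs)).mulVec z ≠
      (opG d (mB p N Bs) (h.getD (h.length - 1) (0, (0, 0)))).mulVec (x (h.length - 1))) :
    (h.length + 1) * (kr Bs.length (mB p N Bs) (mB p d Xs)).rank + 1 ≤
      (kr Bs.length (mB p N Bs) (mB p n (blow d Xs h))).rank := by
  rw [blow_rank Bs Xs h hX hC (by rw [hn, Nat.mul_comm])]
  exact chain_rank _ _ _ x h0 hi hl hout

end Pool.Agent.RTB
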