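import Mathlib

/-!
# RTB R: the numbers `rr Q X`

`X` = the letters forbidden for `Q` by the walk `P` (latest first). Proof of `rr_disj`: induction on `Q`.
-/

namespace Pool.Agent.RTB

variable {L : Type} [DecidableEq L]

/-- the part of `X` from the first occurrence of `q` on -/
def up (q : L) : List L → List L
  | [] => []
  | x :: X => if x = q then x :: X else up q X

/-- the coefficient of the walk `Q` for the forbidden letters `X` -/
def rr : List L → List L → ℤ
  | [], _ => 1
  | q :: Q, X => rr Q X - if q ∈ X then rr Q (up q X) else 0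

theorem up_self (q : L) (X : List L) : up q (q :: X) = q :: X := by simp [up]

theorem up_cons_ne {q x : L} (h : x ≠ q) (X : List L) : up q (x :: X) = up q X := by simp [up, h]

/-- letters before the first occurrence do not matter -/
theorem up_append {q : L} {X₂ : List L} (h : q ∉ X₂) (X₁ : List L) :
    up q (X₂ ++ X₁) = up q X₁ := by
  induction X₂ with
  | nil => rfl
  | cons x X ih =>
    have h1 : x ≠ q := fun e => h (by simp [e])
    rw [List.cons_append, up_cons_ne h1, ih (fun e => h (by simp [e]))]

/-- splitting at the first occurrence -/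
theorem up_split {q : L} {X : List L} (h : q ∈ X) : ∃ X₂ X₁, X = X₂ ++ q :: X₁ ∧ q ∉ X₂ ∧
    up q X = q :: X₁ := by
  induction X with
  | nil => simp at h
  | cons x X ih =>
    by_cases hx : x = q
    · subst hx
      exact ⟨[], X, rfl, by simp, up_self _ _⟩
    · have h1 : q ∈ X := by
        rcases List.mem_cons.1 h with h | h
        · exact absurd h.symm hx
        · exact h
      obtain ⟨X₂, X₁, h2, h3, h4⟩ := ih h1
      refine ⟨x :: X₂, X₁, by rw [h2]; rfl, ?_, by rw [up_cons_ne hx, h4]⟩
      simp only [List.mem_cons, not_or]
      exact ⟨fun e => hx e.symm, h3⟩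

theorem rr_disj {Q X : List L} (h : ∀ q ∈ Q, q ∉ X) : rr Q X = 1 := by
  induction Q with
  | nil => rfl
  | cons q Q ih =>
    rw [rr, if_neg (h q (by simp)), ih fun x hx => h x (by simp [hx])]
    simp

end Pool.Agent.RTB
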