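import Pool.Agent.RTO.Walk
import Pool.Agent.RTO.Defs
import Pool.Agent.RTB.R

/-!
# RTB BRIDGE: a separating undirected edge makes `rr` vanish

Notation: `S = U`, `T = Uᶜ`; darts of `P ++ Q` that cross `U` have `und d = inr e₀`. If `Q` uses `q`, the
walk `P` conflicts with it by using `flp q`. `forb P` = the letters `flp d` of the undirected darts
`d` of `P`, latest first; `forb (P₁ ++ P₂) = forb P₂ ++ forb P₁`.
Prove together, by induction on `Q'` (a walk `z → s`, all darts as above), for walks `P₁ : s → x`: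
(I) `x ∉ U`, `z ∉ U` ⟹ `rr Q' (forb P₁) = 0`;
(II) `x ∉ U`, `P₂` a walk starting at `x` without darts crossing `U`, `z ∈ U` ⟹
`rr Q' (forb (P₁ ++ P₂)) = rr Q' (forb P₁)`.
`Q' = []`: `z = s ∈ U`; (I) is void, (II) is `1 = 1`. `Q' = q :: Q''`, `q : z → z'`:
(I), `z' ∉ U`: `rr Q'' (forb P₁) = 0` by (I); if `q ∈ forb P₁`, then `up q (forb P₁) = forb P₁'` where
`P₁'` is the beginning of `P₁` up to its last use of `flp q`, it ends at `hd q = z ∉ U`; (I) again.
(I), `z' ∈ U`: `q` crosses, so `q = inr (e₀, b)`; `P₁` goes from `s ∈ U` to `x ∉ U`, so it enters `Uᶜ`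
(from `U`), necessarily by `flp q`; take the last such dart: `P₁ = P₁' ++ P₂` with `P₁'` ending with
`flp q` at `hd q ∉ U` and `P₂` not using `flp q`, hence (it starts and ends in `Uᶜ`) not crossing;
`up q (forb P₁) = forb P₁'`; so `rr (q :: Q'') (forb P₁) = rr Q'' (forb P₁) - rr Q'' (forb P₁') = 0`
by (II).
(II), `z' ∈ U`: `q` has both ends in `U`, the darts of `P₂` have both ends in `Uᶜ`, so `q ∉ forb P₂`, use
`up_append` and (II). (II), `z' ∉ U`: both `rr Q'' (…)` are `0` by (I), `flp q ∉ P₂` because it crosses,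
so the other terms are equal.
-/

namespace Pool.Agent.RTB

open Pool.Agent.RTO

variable {V A E : Type}

/-- the other direction of an undirected dart -/
def flp : Dart A E → Dart A E
  | .inl a => .inl a
  | .inr x => .inr (x.1, !x.2)

/-- is the dart undirected -/
def isE : Dart A E → Bool
  | .inl _ => false
  | .inr _ => true

/-- letters forbidden for `Q` after `P` (latest first) -/
def forb (P : List (Dart A E)) : List (Dart A E) := ((P.filter isE).map flp).reverse

theorem forb_append (P₁ P₂ : List (Dart A E)) : forb (P₁ ++ P₂) = forb P₂ ++ forb P₁ := by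
  simp [forb]

theorem mem_forb {P : List (Dart A E)} {x : E × Bool} :
    (Sum.inr x : Dart A E) ∈ forb P ↔ (Sum.inr (x.1, !x.2) : Dart A E) ∈ P := by
  unfold forb
  rw [List.mem_reverse, List.mem_map]
  constructor
  · rintro ⟨d, hd, h⟩
    obtain ⟨h1, h2⟩ := List.mem_filter.1 hd
    cases d with
    | inl a => simp [isE] at h2
    | inr y =>
      simp only [flp, Sum.inr.injEq] at h
      rw [← h]
      simpa using h1
  · intro h
    refine ⟨_, List.mem_filter.2 ⟨h, rfl⟩, ?_⟩
    simp [flp]

theorem inl_notMem_forb {P : List (Dart A E)} {a : A} : (Sum.inl a : Dart A E) ∉ forb P := by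
  unfold forb
  rw [List.mem_reverse, List.mem_map]
  rintro ⟨d, hd, h⟩
  cases d with
  | inl a =>
    obtain ⟨_, h2⟩ := List.mem_filter.1 hd
    simp [isE] at h2
  | inr y => simp [flp] at h

theorem forb_single (x : E × Bool) :
    forb [(Sum.inr x : Dart A E)] = [Sum.inr (x.1, !x.2)] := rfl

theorem forb_mid (P₁ P₂ : List (Dart A E)) (x : E × Bool) :
    forb (P₁ ++ .inr x :: P₂) = forb P₂ ++ Sum.inr (x.1, !x.2) :: forb P₁ := by
  have h : P₁ ++ .inr x :: P₂ = (P₁ ++ [.inr x]) ++ P₂ := by simp
  rw [h, forb_append, forb_append, forb_single]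
  rfl

theorem forb_end (P₁ : List (Dart A E)) (x : E × Bool) :
    forb (P₁ ++ [.inr x]) = Sum.inr (x.1, !x.2) :: forb P₁ := by
  rw [forb_append, forb_single]
  rfl

/-- the last occurrence in a list -/
theorem exists_last {L : Type} {f : L} {P : List L} (h : f ∈ P) :
    ∃ P₁ P₂, P = P₁ ++ f :: P₂ ∧ f ∉ P₂ := by
  induction P with
  | nil => simp at h
  | cons g P ih =>
    by_cases hf : f ∈ P
    · obtain ⟨P₁, P₂, h1, h2⟩ := ih hf
      exact ⟨g :: P₁, P₂, by rw [h1]; rfl, h2⟩
    · rcases List.mem_cons.1 h with rfl | h'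
      · exact ⟨[], P, rfl, hf⟩
      · exact absurd h' hf

section main

variable {G : MGr V A E} {U : Set V} {e₀ : E}

theorem hd_not (e : E) (b : Bool) : G.hd (.inr (e, !b)) = G.tl (.inr (e, b)) := by
  cases b <;> rfl

theorem tl_not (e : E) (b : Bool) : G.tl (.inr (e, !b)) = G.hd (.inr (e, b)) := by
  cases b <;> rfl

/-- the last crossing of a walk that ends outside `U` -/
theorem last_cross {x : V} (hx : x ∉ U) : ∀ {P : List (Dart A E)} {a : V}, G.IsWalk a P x →
    (a ∉ U ∧ ∀ d ∈ P, G.hd d ∉ U ∧ G.tl d ∉ U) ∨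
    ∃ P₁ d P₂, P = P₁ ++ d :: P₂ ∧ G.hd d ∈ U ∧ G.tl d ∉ U ∧
      ∀ d' ∈ P₂, G.hd d' ∉ U ∧ G.tl d' ∉ U
  | [], a, h => by
    have h' : a = x := h
    rw [h']
    exact Or.inl ⟨hx, by simp⟩
  | d :: P, a, h => by
    obtain ⟨h1, h2⟩ := h
    rcases last_cross hx h2 with ⟨h3, h4⟩ | ⟨P₁, d₁, P₂, h3, h4⟩
    · by_cases ha : a ∈ U
      · right
        exact ⟨[], d, P, rfl, by rw [h1]; exact ha, h3, h4⟩
      · left
        refine ⟨ha, fun d' hd' => ?_⟩
        rcases List.mem_cons.1 hd' with rfl | hd'
        · exact ⟨by rw [h1]; exact ha, h3⟩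
        · exact h4 d' hd'
    · right
      exact ⟨d :: P₁, d₁, P₂, by rw [h3]; rfl, h4⟩

theorem prefix_walk {P₁ P₂ : List (Dart A E)} {d : Dart A E} {a x : V}
    (h : G.IsWalk a (P₁ ++ d :: P₂) x) : G.IsWalk a (P₁ ++ [d]) (G.tl d) := by
  obtain ⟨c, h1, h2, _⟩ := isWalk_append.1 h
  exact isWalk_append.2 ⟨c, h1, h2, rfl⟩

theorem bridge_aux [DecidableEq A] [DecidableEq E] {s : V} (hs : s ∈ U) :
    ∀ (Q : List (Dart A E)) (y : V),
    G.IsWalk y Q s → (∀ d ∈ Q, G.Crosses U d → und d = Sum.inr e₀) →
    (y ∉ U → ∀ (P : List (Dart A E)) (x : V), G.IsWalk s P x → x ∉ U →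
      (∀ d ∈ P, G.Crosses U d → und d = Sum.inr e₀) → rr Q (forb P) = 0) ∧
    (y ∈ U → ∀ (P₁ P₂ : List (Dart A E)) (f : E × Bool) (x : V),
      G.IsWalk s (P₁ ++ .inr f :: P₂) x → x ∉ U →
      (∀ d ∈ P₁ ++ .inr f :: P₂, G.Crosses U d → und d = Sum.inr e₀) →
      G.hd (.inr f) ∈ U → G.tl (.inr f) ∉ U →
      (∀ d ∈ P₂, G.hd d ∉ U ∧ G.tl d ∉ U) →
      rr Q (forb (P₁ ++ .inr f :: P₂)) = rr Q (forb (P₁ ++ [.inr f])))
  | [], y, hQ, _ => by
    have h' : y = s := hQ
    rw [h']
    exact ⟨fun h => absurd hs h, fun _ _ _ _ _ _ _ _ _ _ _ => rfl⟩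
  | .inl a :: Q, y, hQ, hc => by
    obtain ⟨h1, h2⟩ := hQ
    have hn : ¬ G.Crosses U (.inl a) := fun h => by
      have := hc _ List.mem_cons_self h
      simp [und] at this
    have h3 : y ∈ U ↔ G.tl (.inl a) ∈ U := by
      rw [← h1]
      by_contra hcc
      exact hn hcc
    obtain ⟨ihA, ihB⟩ := bridge_aux hs Q _ h2 fun d hd => hc d (List.mem_cons_of_mem _ hd)
    have h4 : ∀ P : List (Dart A E), rr (.inl a :: Q) (forb P) = rr Q (forb P) := fun P => by
      rw [rr, if_neg inl_notMem_forb, sub_zero]
    simp only [h4]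
    exact ⟨fun hy => ihA fun h => hy (h3.2 h), fun hy => ihB (h3.1 hy)⟩
  | .inr (e, b) :: Q, y, hQ, hc => by
    obtain ⟨h1, h2⟩ := hQ
    obtain ⟨ihA, ihB⟩ := bridge_aux hs Q _ h2 fun d hd => hc d (List.mem_cons_of_mem _ hd)
    simp only [rr]
    have hhd : G.hd (.inr (e, !b)) = G.tl (.inr (e, b)) := hd_not e b
    have htl : G.tl (.inr (e, !b)) = y := by rw [tl_not, h1]
    constructor
    · intro hy P x hP hx hPc
      by_cases ht : G.tl (.inr (e, b)) ∈ U
      · -- the first dart of `Q` is the separating edge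
        have hcr : G.Crosses U (.inr (e, b)) := by
          intro h
          rw [h1] at h
          exact hy (h.2 ht)
        have he : e = e₀ := by
          have := hc _ List.mem_cons_self hcr
          simpa [und] using this
        subst he
        rcases last_cross hx hP with ⟨h3, _⟩ | ⟨P₁, d, P₂, rfl, h4, h5, h6⟩
        · exact absurd hs h3
        · have hd0 : d = .inr (e, !b) := by
            have h7 := hPc d (by simp) (by
              intro h
              exact h5 (h.1 h4))
            cases d with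
            | inl a => simp [und] at h7
            | inr z =>
              obtain ⟨e', b'⟩ := z
              simp only [und, Sum.inr.injEq] at h7
              subst h7
              by_cases hb : b' = b
              · subst hb
                exact absurd ht h5
              · have : b' = !b := by
                  cases b <;> cases b' <;> simp_all
                rw [this]
          subst hd0
          have hnot : (Sum.inr (e, b) : Dart A E) ∉ forb P₂ := by
            rw [mem_forb]
            intro h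
            exact (h6 _ h).1 h4
          rw [ihB ht P₁ P₂ (e, !b) x hP hx hPc h4 h5 h6, forb_end, forb_mid]
          simp only [Bool.not_not]
          rw [up_append hnot, up_self, if_pos (by simp), sub_self]
      · rw [ihA ht P x hP hx hPc, zero_sub, neg_eq_zero]
        split_ifs with hf
        · obtain ⟨P₁, P₂, rfl, h4⟩ := exists_last (mem_forb.1 hf)
          have hnot : (Sum.inr (e, b) : Dart A E) ∉ forb P₂ := fun h => h4 (mem_forb.1 h)
          have h5 := ihA ht (P₁ ++ [.inr (e, !b)]) _ (prefix_walk hP) (by rw [htl]; exact hy)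
            (fun d hd => hPc d (by
              rcases List.mem_append.1 hd with h | h
              · exact List.mem_append_left _ h
              · rw [List.mem_singleton] at h
                rw [h]
                simp))
          rw [forb_end] at h5
          rw [forb_mid]
          simp only [Bool.not_not] at h5 ⊢
          rw [up_append hnot, up_self]
          exact h5
        · rfl
    · intro hy P₁ P₂ f x hP hx hPc hf1 hf2 hst
      -- the letter does not occur in the last part
      have hnot : (Sum.inr (e, b) : Dart A E) ∉ forb P₂ := by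
        rw [mem_forb]
        intro h
        exact (hst _ h).2 (by rw [htl]; exact hy)
      have hmem : (Sum.inr (e, b) : Dart A E) ∈ forb (P₁ ++ .inr f :: P₂) ↔
          (Sum.inr (e, b) : Dart A E) ∈ forb (P₁ ++ [.inr f]) := by
        rw [forb_end, forb_mid, List.mem_append]
        exact ⟨fun h => h.resolve_left hnot, Or.inr⟩
      have hup : up (Sum.inr (e, b) : Dart A E) (forb (P₁ ++ .inr f :: P₂)) =
          up (Sum.inr (e, b) : Dart A E) (forb (P₁ ++ [.inr f])) := by
        rw [forb_end, forb_mid, up_append hnot]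
      suffices hmain : rr Q (forb (P₁ ++ .inr f :: P₂)) = rr Q (forb (P₁ ++ [.inr f])) by
        rw [hup, hmain]
        by_cases hq : (Sum.inr (e, b) : Dart A E) ∈ forb (P₁ ++ .inr f :: P₂)
        · rw [if_pos hq, if_pos (hmem.1 hq)]
        · rw [if_neg hq, if_neg fun h => hq (hmem.2 h)]
      by_cases ht : G.tl (.inr (e, b)) ∈ U
      · exact ihB ht P₁ P₂ f x hP hx hPc hf1 hf2 hst
      · rw [ihA ht _ x hP hx hPc]
        exact (ihA ht (P₁ ++ [.inr f]) _ (prefix_walk hP) hf2
          (fun d hd => hPc d (by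
            rcases List.mem_append.1 hd with h | h
            · exact List.mem_append_left _ h
            · rw [List.mem_singleton] at h
              rw [h]
              simp))).symm

end main

theorem bridge [DecidableEq A] [DecidableEq E] (G : MGr V A E) {s t : V}
    {P Q : List (Dart A E)} (hP : G.IsWalk s P t) (hQ : G.IsWalk t Q s) (U : Set V) (hs : s ∈ U)
    (ht : t ∉ U) (e₀ : E) (h : ∀ d ∈ P ++ Q, G.Crosses U d → und d = Sum.inr e₀) :
    rr Q (forb P) = 0 :=
  (bridge_aux hs Q t hQ fun d hd => h d (List.mem_append_right _ hd)).1 ht P t hP ht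
    fun d hd => h d (List.mem_append_left _ hd)

end Pool.Agent.RTB
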