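import Mathlib

/-!
# RTB DELR: deleting a row or a column lowers the rank by at most one
-/

namespace Pool.Agent.RTB

/-- deleting the last row of each block lowers the rank by at most the number of blocks -/
theorem delR_rows {F : Type} [Field F] {N n : ℕ} {β : Type} [Fintype β]
    (M : Matrix (Fin N × Fin (n + 1)) β F) :
    M.rank ≤ (M.submatrix (fun x : Fin N × Fin n => (x.1, x.2.castSucc)) id).rank + N := by
  classical
  rw [Matrix.rank_eq_finrank_span_row, Matrix.rank_eq_finrank_span_row]
  have hsub : Submodule.span F (Set.range M.row) ≤
      Submodule.span F (Set.range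
        (M.submatrix (fun x : Fin N × Fin n => (x.1, x.2.castSucc)) id).row) ⊔
      Submodule.span F (Set.range (fun i : Fin N => M (i, Fin.last n))) := by
    rw [Submodule.span_le]
    rintro v ⟨⟨i, a⟩, rfl⟩
    induction a using Fin.lastCases with
    | last =>
      exact Submodule.mem_sup_right (Submodule.subset_span ⟨i, rfl⟩)
    | cast a =>
      exact Submodule.mem_sup_left (Submodule.subset_span ⟨(i, a), rfl⟩)
  have h1 := Submodule.finrank_mono hsub
  have h2 := Submodule.finrank_add_le_finrank_add_finrank
    (Submodule.span F (Set.range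
        (M.submatrix (fun x : Fin N × Fin n => (x.1, x.2.castSucc)) id).row))
    (Submodule.span F (Set.range (fun i : Fin N => M (i, Fin.last n))))
  have h3 : Module.finrank F
      (Submodule.span F (Set.range (fun i : Fin N => M (i, Fin.last n)))) ≤ N := by
    have h := finrank_range_le_card (R := F) (fun i : Fin N => M (i, Fin.last n))
    rw [Fintype.card_fin] at h
    exact h
  omega

theorem del_rank {F : Type} [Field F] {N n : ℕ}
    (M : Matrix (Fin N × Fin (n + 1)) (Fin N × Fin (n + 1)) F) :
    M.rank ≤ (M.submatrix (fun x : Fin N × Fin n => (x.1, x.2.castSucc))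
      (fun x : Fin N × Fin n => (x.1, x.2.castSucc))).rank + 2 * N := by
  have h1 := delR_rows M
  set M1 := M.submatrix (fun x : Fin N × Fin n => (x.1, x.2.castSucc)) id with hM1
  have h2 := delR_rows M1.transpose
  rw [Matrix.rank_transpose] at h2
  have h3 : (M1.transpose.submatrix (fun x : Fin N × Fin n => (x.1, x.2.castSucc)) id) =
      (M.submatrix (fun x : Fin N × Fin n => (x.1, x.2.castSucc))
      (fun x : Fin N × Fin n => (x.1, x.2.castSucc))).transpose := by
    ext i j
    rfl
  rw [h3, Matrix.rank_transpose] at h2
  omega

end Pool.Agent.RTB
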