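import Mathlib
import Pool.Agent.RTB.R

/-!
# RTB RHO: the power series `ρ_X(z)` and its functional equation

`G : LG` is a finite directed multigraph; vertices are natural numbers, the darts (letters) are the
numbers `q < G.D`; all lengths positive. `rho` sums `rr Q X * word Q * t ^ (cost Q)` over all walks
`Q : z → s`. There are finitely many walks of a given cost (length `≤ cost`, letters `< D`).
`rho_eq`: split the walks by their first letter `q` (`Q = []` gives the term `[z = s]`):
`word (q :: Q) = word Q * Y q`, and `rr (q :: Q) X = rr Q X - [q ∈ X] rr Q (up q X)`.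
-/

namespace Pool.Agent.RTB

/-- a directed multigraph with lengths; the darts are the numbers `< D` -/
structure LG where
  /-- number of darts -/
  D : ℕ
  /-- start -/
  hd : ℕ → ℕ
  /-- end -/
  tl : ℕ → ℕ
  /-- length -/
  len : ℕ → ℕ

namespace LG

variable (G : LG)

/-- walks -/
def IsWalk : ℕ → List ℕ → ℕ → Prop
  | a, [], b => a = b
  | a, d :: l, b => d < G.D ∧ G.hd d = a ∧ IsWalk (G.tl d) l b

/-- total length -/
def cost (l : List ℕ) : ℕ := (l.map G.len).sum

/-- all lengths are positive -/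
def Pos : Prop := ∀ q, q < G.D → 0 < G.len q

end LG

/-- product of the letters of a walk, the last letter on the left -/
def word {L K : Type} [Ring K] (Y : L → K) : List L → K
  | [] => 1
  | q :: Q => word Y Q * Y q

variable {K : Type} [Ring K]

/-- the walks from `z` to `s` of cost `n` -/
def wks (G : LG) (s : ℕ) (n : ℕ) (z : ℕ) : Set (List ℕ) :=
  {Q | G.IsWalk z Q s ∧ G.cost Q = n}

/-- the series `ρ_X(z)` -/
noncomputable def rho (G : LG) (Y : ℕ → K) (s : ℕ) (X : List ℕ) (z : ℕ) : PowerSeries K :=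
  PowerSeries.mk fun n => ∑ᶠ (Q : List ℕ) (_ : Q ∈ wks G s n z), ((rr Q X : ℤ) : K) * word Y Q

/-- the weight of a letter -/
noncomputable def xt (G : LG) (Y : ℕ → K) (q : ℕ) : PowerSeries K :=
  PowerSeries.monomial (G.len q) (Y q)

/-- the coordinate `ν_f(X)` -/
noncomputable def nu (G : LG) (Y : ℕ → K) (s : ℕ) (X : List ℕ) (f : ℕ) : PowerSeries K :=
  if f ∈ X then rho G Y s (up f X) (G.tl f) * xt G Y f else 0

/-- the vector `v(X)` -/
noncomputable def vec (G : LG) (Y : ℕ → K) (s : ℕ) (X : List ℕ) : Fin (1 + G.D) → PowerSeries K :=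
  fun f => if f.1 = 0 then 1 else nu G Y s X (f.1 - 1)

/-- the row `t ^ l * v(X)` -/
noncomputable def rowW (G : LG) (Y : ℕ → K) (s : ℕ) (X : List ℕ) (l : ℕ) :
    Fin (1 + G.D) → PowerSeries K := fun f => PowerSeries.X ^ l * vec G Y s X f

/-- the dummy row `t ^ H * e_j` -/
noncomputable def rowD (G : LG) (K : Type) [Ring K] (H j : ℕ) : Fin (1 + G.D) → PowerSeries K :=
  fun f => if f.1 = j then PowerSeries.X ^ H else 0

theorem walk_lt (G : LG) : ∀ (Q : List ℕ) (a b : ℕ), G.IsWalk a Q b → ∀ q ∈ Q, q < G.D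
  | [], _, _, _, q, hq => by simp at hq
  | d :: Q, a, b, h, q, hq => by
    rcases List.mem_cons.1 hq with rfl | hq
    · exact h.1
    · exact walk_lt G Q _ b h.2.2 q hq

theorem length_le_cost (G : LG) (hG : G.Pos) : ∀ (Q : List ℕ), (∀ q ∈ Q, q < G.D) →
    Q.length ≤ G.cost Q
  | [], _ => Nat.zero_le _
  | d :: Q, h => by
    have h1 : 0 < G.len d := hG d (h d (by simp))
    have h2 := length_le_cost G hG Q fun q hq => h q (by simp [hq])
    have h3 : G.cost (d :: Q) = G.len d + G.cost Q := by simp [LG.cost]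
    rw [h3, List.length_cons]
    omega

theorem wks_finite (G : LG) (hG : G.Pos) (s : ℕ) (n : ℕ) (z : ℕ) : (wks G s n z).Finite := by
  have h1 : ({l : List (Fin G.D) | l.length ≤ n}).Finite := List.finite_length_le (Fin G.D) n
  refine (h1.image (List.map Fin.val)).subset ?_
  rintro Q ⟨hQ, hc⟩
  have h2 := walk_lt G Q _ _ hQ
  have h3 := length_le_cost G hG Q h2
  refine ⟨Q.pmap (fun q hq => (⟨q, hq⟩ : Fin G.D)) h2, ?_, ?_⟩
  · simp only [Set.mem_ofPred_eq, List.length_pmap]
    omega
  · rw [List.map_pmap]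
    simp

/-- the walks of cost `n` as a finset -/
noncomputable def W (G : LG) (hG : G.Pos) (s : ℕ) (n : ℕ) (z : ℕ) : Finset (List ℕ) :=
  (wks_finite G hG s n z).toFinset

theorem mem_W {G : LG} {hG : G.Pos} {s n z : ℕ} {Q : List ℕ} :
    Q ∈ W G hG s n z ↔ G.IsWalk z Q s ∧ G.cost Q = n := by
  simp [W, wks]

theorem coeff_rho (G : LG) (hG : G.Pos) (Y : ℕ → K) (s : ℕ) (X : List ℕ) (z n : ℕ) :
    PowerSeries.coeff n (rho G Y s X z) =
      ∑ Q ∈ W G hG s n z, ((rr Q X : ℤ) : K) * word Y Q := by
  rw [rho, PowerSeries.coeff_mk, finsum_mem_eq_finite_toFinset_sum _ (wks_finite G hG s n z)]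
  rfl

/-- splitting a sum over walks by the first letter -/
theorem sum_W {M : Type} [AddCommMonoid M] (G : LG) (hG : G.Pos) (s n z : ℕ) (f : List ℕ → M) :
    ∑ Q ∈ W G hG s n z, f Q = (if z = s ∧ n = 0 then f [] else 0) +
      ∑ q ∈ Finset.range G.D, if G.hd q = z ∧ G.len q ≤ n then
        ∑ Q ∈ W G hG s (n - G.len q) (G.tl q), f (q :: Q) else 0 := by
  classical
  rw [← Finset.sum_filter_add_sum_filter_not (W G hG s n z) (fun Q => Q = [])]
  congr 1
  · by_cases h : z = s ∧ n = 0
    · rw [if_pos h]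
      have h1 : (W G hG s n z).filter (fun Q => Q = []) = {[]} := by
        ext Q
        simp only [Finset.mem_filter, Finset.mem_singleton, mem_W]
        constructor
        · exact fun h => h.2
        · rintro rfl
          exact ⟨⟨h.1, by simp [LG.cost, h.2]⟩, rfl⟩
      rw [h1, Finset.sum_singleton]
    · rw [if_neg h]
      have h1 : (W G hG s n z).filter (fun Q => Q = []) = ∅ := by
        ext Q
        simp only [Finset.mem_filter, mem_W, Finset.notMem_empty, iff_false]
        rintro ⟨⟨h2, h3⟩, rfl⟩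
        exact h ⟨h2, by simpa [LG.cost] using h3.symm⟩
      rw [h1, Finset.sum_empty]
  · have hmap : ∀ Q ∈ (W G hG s n z).filter (fun Q => ¬ Q = []), Q.headI ∈ Finset.range G.D := by
      intro Q hQ
      rw [Finset.mem_filter, mem_W] at hQ
      obtain ⟨⟨h1, h2⟩, h3⟩ := hQ
      cases Q with
      | nil => exact absurd rfl h3
      | cons q Q => exact Finset.mem_range.2 h1.1
    rw [← Finset.sum_fiberwise_of_maps_to hmap]
    refine Finset.sum_congr rfl fun q hq => ?_
    rw [Finset.mem_range] at hq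
    by_cases h : G.hd q = z ∧ G.len q ≤ n
    · rw [if_pos h]
      have h1 : ((W G hG s n z).filter (fun Q => ¬ Q = [])).filter (fun Q => Q.headI = q) =
          (W G hG s (n - G.len q) (G.tl q)).image (fun Q => q :: Q) := by
        ext Q
        simp only [Finset.mem_filter, mem_W, Finset.mem_image]
        constructor
        · rintro ⟨⟨⟨h2, h3⟩, h4⟩, h5⟩
          cases Q with
          | nil => exact absurd rfl h4
          | cons a Q =>
            have h6 : a = q := h5
            subst h6
            refine ⟨Q, ⟨h2.2.2, ?_⟩, rfl⟩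
            have h7 : G.cost (a :: Q) = G.len a + G.cost Q := by simp [LG.cost]
            omega
        · rintro ⟨Q', ⟨h2, h3⟩, rfl⟩
          refine ⟨⟨⟨⟨hq, h.1, h2⟩, ?_⟩, by simp⟩, rfl⟩
          have h7 : G.cost (q :: Q') = G.len q + G.cost Q' := by simp [LG.cost]
          have h8 := h.2
          omega
      rw [h1, Finset.sum_image]
      intro a _ b _ hab
      exact (List.cons.inj hab).2
    · rw [if_neg h]
      refine Finset.sum_eq_zero fun Q hQ => ?_
      exfalso
      rw [Finset.mem_filter, Finset.mem_filter, mem_W] at hQ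
      obtain ⟨⟨⟨h2, h3⟩, h4⟩, h5⟩ := hQ
      cases Q with
      | nil => exact h4 rfl
      | cons a Q =>
        have h6 : a = q := h5
        subst h6
        have h7 : G.cost (a :: Q) = G.len a + G.cost Q := by simp [LG.cost]
        exact h ⟨h2.2.1, by omega⟩

theorem coeff_mul_xt (G : LG) (Y : ℕ → K) (φ : PowerSeries K) (q n : ℕ) :
    PowerSeries.coeff n (φ * xt G Y q) =
      if G.len q ≤ n then PowerSeries.coeff (n - G.len q) φ * Y q else 0 := by
  rw [PowerSeries.coeff_mul]
  by_cases h : G.len q ≤ n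
  · rw [if_pos h, Finset.sum_eq_single (n - G.len q, G.len q)]
    · simp [xt]
    · rintro ⟨a, b⟩ hab hne
      rw [Finset.HasAntidiagonal.mem_antidiagonal] at hab
      have hb : b ≠ G.len q := by
        rintro rfl
        exact hne (by
          have : a = n - G.len q := by simp only at hab; omega
          rw [this])
      simp [xt, PowerSeries.coeff_monomial, hb]
    · intro hn
      exact absurd (by rw [Finset.HasAntidiagonal.mem_antidiagonal]; simp only; omega) hn
  · rw [if_neg h]
    refine Finset.sum_eq_zero fun ab hab => ?_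
    rw [Finset.HasAntidiagonal.mem_antidiagonal] at hab
    have hb : ab.2 ≠ G.len q := by omega
    simp [xt, PowerSeries.coeff_monomial, hb]

theorem rho_eq (G : LG) (hG : G.Pos) (Y : ℕ → K) (s : ℕ) (X : List ℕ) (z : ℕ) :
    rho G Y s X z = (if z = s then 1 else 0) + ∑ q ∈ Finset.range G.D,
      if G.hd q = z then rho G Y s X (G.tl q) * xt G Y q - nu G Y s X q else 0 := by
  ext n
  rw [coeff_rho G hG, sum_W G hG, map_add, map_sum]
  congr 1
  · by_cases h1 : z = s
    · by_cases h2 : n = 0
      · subst h2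
        simp [h1, rr, word]
      · simp [h1, h2, PowerSeries.coeff_one]
    · simp [h1]
  · refine Finset.sum_congr rfl fun q _ => ?_
    by_cases hz : G.hd q = z
    · rw [if_pos hz, map_sub, coeff_mul_xt]
      by_cases hl : G.len q ≤ n
      · rw [if_pos ⟨hz, hl⟩, if_pos hl, coeff_rho G hG]
        by_cases hX : q ∈ X
        · rw [nu, if_pos hX, coeff_mul_xt, if_pos hl, coeff_rho G hG, Finset.sum_mul,
            Finset.sum_mul, ← Finset.sum_sub_distrib]
          refine Finset.sum_congr rfl fun Q _ => ?_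
          rw [rr, if_pos hX, word, Int.cast_sub, sub_mul, mul_assoc, mul_assoc]
        · rw [nu, if_neg hX, map_zero, sub_zero, Finset.sum_mul]
          refine Finset.sum_congr rfl fun Q _ => ?_
          rw [rr, if_neg hX, word, sub_zero, mul_assoc]
      · rw [if_neg (fun h => hl h.2), if_neg hl]
        by_cases hX : q ∈ X
        · rw [nu, if_pos hX, coeff_mul_xt, if_neg hl, sub_zero]
        · rw [nu, if_neg hX, map_zero, sub_zero]
    · rw [if_neg hz, if_neg (fun h => hz h.1), map_zero]

/-- a nonzero coefficient comes from a walk -/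
theorem rho_coeff_ne (G : LG) (Y : ℕ → K) (s : ℕ) (X : List ℕ) (z : ℕ) (n : ℕ)
    (h : PowerSeries.coeff n (rho G Y s X z) ≠ 0) :
    ∃ Q, G.IsWalk z Q s ∧ G.cost Q = n ∧ rr Q X ≠ 0 := by
  rw [rho, PowerSeries.coeff_mk] at h
  obtain ⟨Q, hQ, h1⟩ := exists_ne_zero_of_finsum_mem_ne_zero h
  refine ⟨Q, hQ.1, hQ.2, fun h2 => h1 ?_⟩
  rw [h2, Int.cast_zero, zero_mul]

theorem nu_self (G : LG) (Y : ℕ → K) (s : ℕ) (X : List ℕ) (f : ℕ) :
    nu G Y s (f :: X) f = rho G Y s (f :: X) (G.tl f) * xt G Y f := by
  simp [nu, up_self]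

theorem nu_cons_ne (G : LG) (Y : ℕ → K) (s : ℕ) (X : List ℕ) {f x : ℕ} (h : x ≠ f) :
    nu G Y s (x :: X) f = nu G Y s X f := by
  unfold nu
  rw [up_cons_ne h]
  have : f ∈ x :: X ↔ f ∈ X := by
    simp only [List.mem_cons]
    constructor
    · rintro (h1 | h1)
      · exact absurd h1.symm h
      · exact h1
    · exact Or.inr
  simp only [this]

end Pool.Agent.RTB
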