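import Pool.Agent.RTB.Twist
import Pool.Agent.RTB.Rho

/-!
# RTB GEN: a division ring with generic letters

`S = MvPolynomial (ℕ × Fin n × Fin n) (ZMod p)` (variables `x f j i`), `E = FractionRing S`, `σ` = the
automorphism of `E` with `x f j i ↦ x f j (i + 1)`, `F = LaurentSeries E`, `K`, `φ` from `twist`,
`Y f` = the element with `φ (Y f) a b = x f (a - b) a * y ^ ((a - b).val)`.
Everything is specialised: the matrices `φ (Y f)` come from matrices over `S[y]` (polynomials; the map
`S[y] → F` is injective), and for arbitrary matrices `M f` over a commutative ring `R` of characteristic `p`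
there is a ring homomorphism `S[y] → R` with `y ↦ 1`, `x f (a - b) a ↦ M f a b`, that maps the matrix of
`Y f` to `M f`.
`words`: specialise to `M f = [f ∈ Q₀] • 1` over `ZMod p`.
`lin`: specialise to `M k = Z 0 ⁻¹ * Z k` with generic matrices `Z k` over the field `E`.
-/

namespace Pool.Agent.RTB

/-- `Z` satisfies every linear nonvanishing that holds for some matrices over the prime field -/
def Lin (p : ℕ) {n : ℕ} {F : Type} [Field F] [Algebra (ZMod p) F]
    (Z : ℕ → Matrix (Fin n) (Fin n) F) : Prop :=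
  ∀ (N c : ℕ) (B : ℕ → Matrix (Fin N) (Fin N) (ZMod p))
    (X : ℕ → Matrix (Fin n) (Fin n) (ZMod p)),
    (∑ k ∈ Finset.range c, Matrix.kroneckerMap (· * ·) (B k) (X k)).det ≠ 0 →
    (∑ k ∈ Finset.range c, Matrix.kroneckerMap (· * ·) ((B k).map (algebraMap (ZMod p) F))
      (Z k)).det ≠ 0

/-- `1, Y 0, Y 1, …` as matrices -/
def ZZ {K F : Type} [DivisionRing K] [Field F] {n : ℕ} (φ : K →+* Matrix (Fin n) (Fin n) F)
    (Y : ℕ → K) : ℕ → Matrix (Fin n) (Fin n) F
  | 0 => 1
  | k + 1 => φ (Y k)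

namespace Gen

open Matrix

/-- the polynomial ring of the variables -/
abbrev SS (p n : ℕ) : Type := MvPolynomial (ℕ × Fin n × Fin n) (ZMod p)

/-- the field of the coefficients -/
abbrev EE (p n : ℕ) [Fact p.Prime] : Type := FractionRing (SS p n)

variable {p n : ℕ}

/-- shift of the last index -/
def shE (n : ℕ) [NeZero n] : (ℕ × Fin n × Fin n) ≃ (ℕ × Fin n × Fin n) :=
  Equiv.prodCongr (Equiv.refl ℕ) (Equiv.prodCongr (Equiv.refl (Fin n)) (Equiv.addRight 1))

/-- the automorphism -/
noncomputable def sig (p n : ℕ) [Fact p.Prime] [NeZero n] : EE p n ≃+* EE p n :=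
  IsFractionRing.ringEquivOfRingEquiv
    (MvPolynomial.renameEquiv (ZMod p) (shE n)).toRingEquiv

theorem sig_X [Fact p.Prime] [NeZero n] (f : ℕ) (j i : Fin n) :
    sig p n (algebraMap (SS p n) (EE p n) (MvPolynomial.X (f, j, i))) =
      algebraMap (SS p n) (EE p n) (MvPolynomial.X (f, j, i + 1)) := by
  rw [sig, IsFractionRing.ringEquivOfRingEquiv_algebraMap]
  congr 1
  simp [shE]

/-- the embedding of the polynomials -/
noncomputable def io (p n : ℕ) [Fact p.Prime] :
    Polynomial (SS p n) →+* LaurentSeries (EE p n) :=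
  (HahnSeries.ofPowerSeries ℤ (EE p n)).comp
    ((Polynomial.coeToPowerSeries.ringHom (R := EE p n)).comp
      (Polynomial.mapRingHom (algebraMap (SS p n) (EE p n))))

theorem io_inj [Fact p.Prime] : Function.Injective (io p n) := by
  unfold io
  rw [RingHom.coe_comp, RingHom.coe_comp]
  refine HahnSeries.ofPowerSeries_injective.comp (Function.Injective.comp ?_ ?_)
  · intro a b h
    exact Polynomial.coe_injective (EE p n) h
  · exact Polynomial.map_injective _ (IsFractionRing.injective (SS p n) (EE p n))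

theorem io_mon [Fact p.Prime] (m : ℕ) (a : SS p n) :
    io p n (Polynomial.C a * Polynomial.X ^ m) =
      HahnSeries.single (m : ℤ) (algebraMap (SS p n) (EE p n) a) := by
  simp [io]

/-- the generic matrices over the polynomials -/
noncomputable def GG (p n : ℕ) (f : ℕ) : Matrix (Fin n) (Fin n) (Polynomial (SS p n)) :=
  fun a b => Polynomial.C (MvPolynomial.X (f, a - b, a)) * Polynomial.X ^ ((a - b : Fin n) : ℕ)

theorem isTw [Fact p.Prime] [NeZero n] (f : ℕ) :
    IsTw (sig p n) ((GG p n f).map (io p n)) := by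
  refine ⟨fun a b j h => ?_, fun a b j => ?_⟩
  · rw [Matrix.map_apply, GG, io_mon, HahnSeries.coeff_single] at h
    have hj : j = ((a - b : Fin n) : ℕ) := by
      by_contra hne
      exact h (if_neg hne)
    subst hj
    have h1 : ((a - b : Fin n) : ℕ) = (n - (b : ℕ) + (a : ℕ)) % n := rfl
    have h2 : (b : ℕ) < n := b.2
    rw [h1]
    have h3 : (((n - (b : ℕ) + (a : ℕ)) % n : ℕ) : ℤ) = ((n : ℤ) - (b : ℕ) + (a : ℕ)) % (n : ℤ) := by
      push_cast [Nat.cast_sub h2.le]
      rfl
    rw [h3]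
    have h4 := Int.emod_add_mul_ediv ((n : ℤ) - (b : ℕ) + (a : ℕ)) n
    refine ⟨((n : ℤ) - (b : ℕ) + (a : ℕ)) / n - 1, ?_⟩
    linarith
  · rw [Matrix.map_apply, Matrix.map_apply, GG, GG, io_mon, io_mon, HahnSeries.coeff_single,
      HahnSeries.coeff_single, add_sub_add_right_eq_sub]
    split_ifs
    · rw [sig_X]
    · rw [map_zero]

/-- specialisation of the generic matrices -/
noncomputable def ps (p n : ℕ) {R : Type} [CommRing R] [Algebra (ZMod p) R]
    (M : ℕ → Matrix (Fin n) (Fin n) R) : Polynomial (SS p n) →+* R :=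
  Polynomial.eval₂RingHom
    (MvPolynomial.aeval (R := ZMod p) fun v : ℕ × Fin n × Fin n =>
      M v.1 v.2.2 (v.2.2 - v.2.1)).toRingHom 1

theorem ps_G {R : Type} [CommRing R] [Algebra (ZMod p) R] [NeZero n]
    (M : ℕ → Matrix (Fin n) (Fin n) R) (f : ℕ) : (GG p n f).map (ps p n M) = M f := by
  ext a b
  rw [Matrix.map_apply, GG, ps, Polynomial.coe_eval₂RingHom, Polynomial.eval₂_mul,
    Polynomial.eval₂_C, Polynomial.eval₂_pow, Polynomial.eval₂_X, one_pow, mul_one]
  simp

theorem word_map {L A B : Type} [Ring A] [Ring B] (g : A →+* B) (Y : L → A) (Q : List L) :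
    g (word Y Q) = word (fun q => g (Y q)) Q := by
  induction Q with
  | nil => simp [word]
  | cons q Q ih => rw [word, word, map_mul, ih]

theorem word_ind {L A : Type} [Ring A] [DecidableEq L] (Q₀ Q : List L) :
    word (fun q => if q ∈ Q₀ then (1 : A) else 0) Q = if (∀ q ∈ Q, q ∈ Q₀) then 1 else 0 := by
  induction Q with
  | nil => simp [word]
  | cons q Q ih =>
    rw [word, ih]
    by_cases h : q ∈ Q₀
    · simp [h]
    · simp [h]

theorem kron_map {N c n : ℕ} {R T : Type} [CommRing R] [CommRing T] (g : R →+* T)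
    (B : ℕ → Matrix (Fin N) (Fin N) R) (X : ℕ → Matrix (Fin n) (Fin n) R) :
    g (∑ k ∈ Finset.range c, Matrix.kroneckerMap (· * ·) (B k) (X k)).det =
      (∑ k ∈ Finset.range c,
        Matrix.kroneckerMap (· * ·) ((B k).map g) ((X k).map g)).det := by
  rw [RingHom.map_det, map_sum]
  congr 1
  refine Finset.sum_congr rfl fun k _ => ?_
  ext i j
  simp [Matrix.kroneckerMap_apply]

/-- the matrices of variables -/
noncomputable def xk (p n : ℕ) (k : ℕ) : Matrix (Fin n) (Fin n) (SS p n) :=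
  fun a b => MvPolynomial.X (k, a, b)

theorem xk_map {R : Type} [CommRing R] [Algebra (ZMod p) R]
    (M : ℕ → Matrix (Fin n) (Fin n) R) (k : ℕ) :
    (xk p n k).map (MvPolynomial.aeval (R := ZMod p) fun v : ℕ × Fin n × Fin n =>
      M v.1 v.2.1 v.2.2).toRingHom = M k := by
  ext a b
  simp [xk]

theorem point [Fact p.Prime] {N c : ℕ} (B : ℕ → Matrix (Fin N) (Fin N) (ZMod p))
    (X : ℕ → Matrix (Fin n) (Fin n) (ZMod p))
    (h : (∑ k ∈ Finset.range c, Matrix.kroneckerMap (· * ·) (B k) (X k)).det ≠ 0) :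
    ∃ M : ℕ → Matrix (Fin n) (Fin n) (EE p n), M 0 = 1 ∧
      (∑ k ∈ Finset.range c, Matrix.kroneckerMap (· * ·)
        ((B k).map (algebraMap (ZMod p) (EE p n))) (M k)).det ≠ 0 := by
  have hinj : Function.Injective (algebraMap (SS p n) (EE p n)) :=
    IsFractionRing.injective (SS p n) (EE p n)
  have h1 : (∑ k ∈ Finset.range c, Matrix.kroneckerMap (· * ·)
      ((B k).map (algebraMap (ZMod p) (SS p n))) (xk p n k)).det ≠ 0 := by
    intro h0
    apply h
    have h2 := kron_map (c := c) (MvPolynomial.aeval (R := ZMod p) fun v : ℕ × Fin n × Fin n =>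
      X v.1 v.2.1 v.2.2).toRingHom (fun k => (B k).map (algebraMap (ZMod p) (SS p n))) (xk p n)
    rw [h0, map_zero] at h2
    rw [h2]
    congr 1
    refine Finset.sum_congr rfl fun k _ => ?_
    rw [xk_map]
    congr 1
    ext i j
    simp
  have h3 : (xk p n 0).det ≠ 0 := by
    intro h0
    have h4 := RingHom.map_det (MvPolynomial.aeval (R := ZMod p) fun v : ℕ × Fin n × Fin n =>
      (1 : Matrix (Fin n) (Fin n) (ZMod p)) v.2.1 v.2.2).toRingHom (xk p n 0)
    rw [h0, map_zero, RingHom.mapMatrix_apply,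
      xk_map (fun _ => (1 : Matrix (Fin n) (Fin n) (ZMod p))), Matrix.det_one] at h4
    exact zero_ne_one h4
  set Z : ℕ → Matrix (Fin n) (Fin n) (EE p n) :=
    fun k => (xk p n k).map (algebraMap (SS p n) (EE p n)) with hZ
  have h5 : (Z 0).det ≠ 0 := by
    have h6 := RingHom.map_det (algebraMap (SS p n) (EE p n)) (xk p n 0)
    rw [RingHom.mapMatrix_apply] at h6
    rw [hZ, ← h6]
    exact fun h0 => h3 (hinj (h0.trans (map_zero _).symm))
  have h7 : (∑ k ∈ Finset.range c, Matrix.kroneckerMap (· * ·)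
      ((B k).map (algebraMap (ZMod p) (EE p n))) (Z k)).det ≠ 0 := by
    have h8 := kron_map (c := c) (algebraMap (SS p n) (EE p n))
      (fun k => (B k).map (algebraMap (ZMod p) (SS p n))) (xk p n)
    intro h0
    apply h1
    apply hinj
    rw [h8, map_zero, ← h0]
    congr 1
  refine ⟨fun k => (Z 0)⁻¹ * Z k, Matrix.nonsing_inv_mul _ (isUnit_iff_ne_zero.2 h5), ?_⟩
  have h9 : ∑ k ∈ Finset.range c, Matrix.kroneckerMap (· * ·)
      ((B k).map (algebraMap (ZMod p) (EE p n))) ((Z 0)⁻¹ * Z k) =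
      Matrix.kroneckerMap (· * ·) (1 : Matrix (Fin N) (Fin N) (EE p n)) (Z 0)⁻¹ *
      ∑ k ∈ Finset.range c, Matrix.kroneckerMap (· * ·)
        ((B k).map (algebraMap (ZMod p) (EE p n))) (Z k) := by
    rw [Finset.mul_sum]
    refine Finset.sum_congr rfl fun k _ => ?_
    rw [← Matrix.mul_kronecker_mul, one_mul]
  rw [h9, Matrix.det_mul]
  refine mul_ne_zero ?_ h7
  rw [Matrix.det_kronecker, Matrix.det_one, one_pow, one_mul]
  refine pow_ne_zero _ ?_
  rw [Matrix.det_nonsing_inv]
  exact (isUnit_iff_ne_zero.2 h5).ringInverse.ne_zero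

end Gen

theorem gen_exists (p : ℕ) [Fact p.Prime] (n : ℕ) (hn : 0 < n) :
    ∃ (K F : Type) (_ : DivisionRing K) (_ : Field F) (_ : Algebra (ZMod p) F)
      (φ : K →+* Matrix (Fin n) (Fin n) F) (Y : ℕ → K),
      (∀ (S : Finset (List ℕ)) (Q₀ : List ℕ), Q₀ ∈ S → (∀ Q ∈ S, Q ≠ Q₀ → ∃ q ∈ Q, q ∉ Q₀) →
        ∑ Q ∈ S, word Y Q ≠ 0) ∧
      Lin p (ZZ φ Y) := by
  have : NeZero n := ⟨hn.ne'⟩
  obtain ⟨K, hK, φ, hφ⟩ := twist (Gen.sig p n) n
  have hY : ∀ f, ∃ x, φ x = (Gen.GG p n f).map (Gen.io p n) := fun f => (hφ _).2 (Gen.isTw f)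
  choose Y hY using hY
  let hA : Algebra (ZMod p) (LaurentSeries (Gen.EE p n)) :=
    ((Gen.io p n).comp (algebraMap (ZMod p) (Polynomial (Gen.SS p n)))).toAlgebra
  refine ⟨K, LaurentSeries (Gen.EE p n), hK, inferInstance, hA, φ, Y, ?_, ?_⟩
  · intro S Q₀ hQ₀ hS h0
    have h1 : (Gen.io p n).mapMatrix (∑ Q ∈ S, word (Gen.GG p n) Q) = 0 := by
      rw [map_sum]
      have h2 := congrArg φ h0
      rw [map_sum, map_zero] at h2
      rw [← h2]
      refine Finset.sum_congr rfl fun Q _ => ?_
      rw [Gen.word_map, Gen.word_map]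
      congr 1
      funext q
      rw [hY]
      rfl
    have h3 : ∑ Q ∈ S, word (Gen.GG p n) Q = 0 := by
      ext1 a b
      apply Gen.io_inj
      have h4 := congrFun (congrFun h1 a) b
      rw [RingHom.mapMatrix_apply, Matrix.map_apply] at h4
      rw [h4]
      simp
    have h5 := congrArg (Gen.ps p n (R := ZMod p)
      (fun q => if q ∈ Q₀ then (1 : Matrix (Fin n) (Fin n) (ZMod p)) else 0)).mapMatrix h3
    rw [map_sum, map_zero] at h5
    have h6 : ∀ Q ∈ S, (Gen.ps p n (R := ZMod p)
        (fun q => if q ∈ Q₀ then (1 : Matrix (Fin n) (Fin n) (ZMod p)) else 0)).mapMatrix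
        (word (Gen.GG p n) Q) = if Q = Q₀ then 1 else 0 := by
      intro Q hQ
      rw [Gen.word_map]
      have h7 : (fun q => (Gen.ps p n (R := ZMod p)
          (fun q => if q ∈ Q₀ then (1 : Matrix (Fin n) (Fin n) (ZMod p)) else 0)).mapMatrix
          (Gen.GG p n q)) =
          fun q => if q ∈ Q₀ then (1 : Matrix (Fin n) (Fin n) (ZMod p)) else 0 := by
        funext q
        rw [RingHom.mapMatrix_apply, Gen.ps_G]
      rw [h7, Gen.word_ind]
      by_cases hQQ : Q = Q₀
      · subst hQQ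
        simp
      · obtain ⟨q, hq, hq2⟩ := hS Q hQ hQQ
        rw [if_neg (fun h => hq2 (h q hq)), if_neg hQQ]
    rw [Finset.sum_congr rfl h6, Finset.sum_ite_eq' S Q₀, if_pos hQ₀] at h5
    exact one_ne_zero h5
  · intro N c B X hX
    obtain ⟨M, hM0, hM⟩ := Gen.point B X hX
    set H : ℕ → Matrix (Fin n) (Fin n) (Polynomial (Gen.SS p n)) :=
      fun k => match k with
        | 0 => 1
        | k + 1 => Gen.GG p n k with hH
    have h1 : ∀ k, (H k).map (Gen.ps p n fun f => M (f + 1)) = M k := by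
      intro k
      cases k with
      | zero =>
        rw [hM0]
        exact Matrix.map_one _ (map_zero _) (map_one _)
      | succ k => exact Gen.ps_G _ _
    have h2 : ∀ k, (H k).map (Gen.io p n) = ZZ φ Y k := by
      intro k
      cases k with
      | zero => exact Matrix.map_one _ (map_zero _) (map_one _)
      | succ k => exact (hY k).symm
    have h3 : (∑ k ∈ Finset.range c, Matrix.kroneckerMap (· * ·)
        ((B k).map (algebraMap (ZMod p) (Polynomial (Gen.SS p n)))) (H k)).det ≠ 0 := by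
      intro h0
      have h4 := Gen.kron_map (c := c) (Gen.ps p n fun f => M (f + 1))
        (fun k => (B k).map (algebraMap (ZMod p) (Polynomial (Gen.SS p n)))) H
      rw [h0, map_zero] at h4
      apply hM
      rw [h4]
      congr 1
      refine Finset.sum_congr rfl fun k _ => ?_
      rw [h1, Matrix.map_map, ← RingHom.coe_comp]
      congr 3
      exact Subsingleton.elim _ _
    have h5 := Gen.kron_map (c := c) (Gen.io p n)
      (fun k => (B k).map (algebraMap (ZMod p) (Polynomial (Gen.SS p n)))) H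
    have h6 : (∑ k ∈ Finset.range c, Matrix.kroneckerMap (· * ·)
        ((B k).map (algebraMap (ZMod p) (LaurentSeries (Gen.EE p n)))) (ZZ φ Y k)).det =
        Gen.io p n (∑ k ∈ Finset.range c, Matrix.kroneckerMap (· * ·)
          ((B k).map (algebraMap (ZMod p) (Polynomial (Gen.SS p n)))) (H k)).det := by
      rw [h5]
      congr 1
      refine Finset.sum_congr rfl fun k _ => ?_
      rw [h2, Matrix.map_map, ← RingHom.coe_comp]
      rfl
    rw [h6]
    exact fun h0 => h3 (Gen.io_inj (h0.trans (map_zero _).symm))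

end Pool.Agent.RTB
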