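import Pool.Agent.RTB.OrdDefs

/-!
# RTB ORDA: start, doubling (see the header of `OrdDefs`)
-/

namespace Pool.Agent.RTB

variable {p : ℕ} [Fact p.Prime] {N : ℕ}

theorem rel_zero (c : ℕ) (M : ℕ → Matrix (Fin N) (Fin N) (ZMod p)) :
    Rel c M (fun _ => 0) 0 fun k => (M k).map (PowerSeries.C (R := ZMod p)) := by
  refine ⟨1, 1, 0, by simp, by simp, by simp, ?_⟩
  intro k hk
  simp

/-- `t ↦ t ^ 2` -/
noncomputable def ordaE (R : Type) [CommRing R] : PowerSeries R →+* PowerSeries R :=
  (PowerSeries.expand (R := R) 2 two_ne_zero).toRingHom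

theorem ordaE_coeff (R : Type) [CommRing R] (f : PowerSeries R) (h : ℕ) :
    PowerSeries.coeff h (ordaE R f) = if 2 ∣ h then PowerSeries.coeff (h / 2) f else 0 :=
  PowerSeries.coeff_expand 2 two_ne_zero f

theorem ordaE_C (R : Type) [CommRing R] (r : R) :
    ordaE R (PowerSeries.C r) = PowerSeries.C r :=
  PowerSeries.expand_C 2 two_ne_zero r

theorem ordaE_X_pow (R : Type) [CommRing R] (e : ℕ) :
    ordaE R (PowerSeries.X ^ e) = PowerSeries.X ^ (2 * e) := by
  rw [map_pow]
  have h : ordaE R PowerSeries.X = PowerSeries.X ^ 2 := PowerSeries.expand_X 2 two_ne_zero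
  rw [h, pow_mul]

theorem ordaE_order (R : Type) [CommRing R] (f : PowerSeries R) :
    (ordaE R f).order = 2 * f.order := by
  have h : (ordaE R f).order = 2 • f.order := PowerSeries.order_expand 2 two_ne_zero f
  rw [h, nsmul_eq_mul]
  rfl

theorem ordaE_ne_zero (R : Type) [CommRing R] (f : PowerSeries R) (hf : f ≠ 0) :
    ordaE R f ≠ 0 := by
  intro h
  apply hf
  ext m
  have h1 := ordaE_coeff R f (2 * m)
  rw [h, if_pos (Dvd.intro m rfl), Nat.mul_div_cancel_left _ (by norm_num)] at h1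
  rw [← h1]
  simp

theorem rel_dbl (c : ℕ) (M : ℕ → Matrix (Fin N) (Fin N) (ZMod p)) (cs b : ℕ → ℕ) (v : ℕ)
    (P P' : ℕ → Matrix (Fin N) (Fin N) (PowerSeries (ZMod p))) (h : Rel c M cs v P)
    (hP : ∀ k < c, ∀ i j h, PowerSeries.coeff h (P' k i j) =
      if b k ≤ h ∧ 2 ∣ h - b k then PowerSeries.coeff ((h - b k) / 2) (P k i j) else 0) :
    Rel c M (fun k => 2 * cs k + b k) (2 * v) P' := by
  obtain ⟨S, T, e, hS, hT, hv, hk⟩ := h
  refine ⟨S.map (ordaE (ZMod p)), T.map (ordaE (ZMod p)), 2 * e, ?_, ?_, ?_, ?_⟩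
  · rw [← RingHom.mapMatrix_apply, ← RingHom.map_det]
    exact ordaE_ne_zero _ _ hS
  · rw [← RingHom.mapMatrix_apply, ← RingHom.map_det]
    exact ordaE_ne_zero _ _ hT
  · rw [← RingHom.mapMatrix_apply, ← RingHom.map_det, ← RingHom.mapMatrix_apply,
      ← RingHom.map_det, ordaE_order, ordaE_order]
    have h1 : ((N * (2 * e) : ℕ) : ℕ∞) = 2 * ((N * e : ℕ) : ℕ∞) := by
      push_cast
      ring
    rw [h1, ← hv]
    push_cast
    ring
  · intro k hkc
    have h1 : (S.map (ordaE (ZMod p)) * (M k).map (PowerSeries.C (R := ZMod p)) *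
        T.map (ordaE (ZMod p))) =
        (S * (M k).map (PowerSeries.C (R := ZMod p)) * T).map (ordaE (ZMod p)) := by
      rw [Matrix.map_mul, Matrix.map_mul]
      congr 2
      ext1 i j
      simp only [Matrix.map_apply]
      rw [ordaE_C]
    rw [h1]
    ext1 i j
    have h2 := congrArg (fun A => ordaE (ZMod p) (A i j)) (hk k hkc)
    simp only [Matrix.smul_apply, smul_eq_mul, map_mul, ordaE_X_pow] at h2
    have h3 : P' k i j = PowerSeries.X ^ b k * ordaE (ZMod p) (P k i j) := by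
      ext h
      rw [hP k hkc, PowerSeries.coeff_X_pow_mul', ordaE_coeff]
      by_cases h4 : b k ≤ h
      · by_cases h5 : 2 ∣ h - b k
        · rw [if_pos ⟨h4, h5⟩, if_pos h4, if_pos h5]
        · rw [if_neg (fun h6 => h5 h6.2), if_pos h4, if_neg h5]
      · rw [if_neg (fun h6 => h4 h6.1), if_neg h4]
    simp only [Matrix.smul_apply, smul_eq_mul, Matrix.map_apply]
    rw [h3, pow_add]
    calc PowerSeries.X ^ (2 * cs k) * PowerSeries.X ^ b k *
          ordaE (ZMod p) ((S * (M k).map (PowerSeries.C (R := ZMod p)) * T) i j)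
        = PowerSeries.X ^ b k * (PowerSeries.X ^ (2 * cs k) *
          ordaE (ZMod p) ((S * (M k).map (PowerSeries.C (R := ZMod p)) * T) i j)) := by ring
      _ = PowerSeries.X ^ b k * (PowerSeries.X ^ (2 * e) * ordaE (ZMod p) (P k i j)) := by
          rw [h2]
      _ = PowerSeries.X ^ (2 * e) * (PowerSeries.X ^ b k * ordaE (ZMod p) (P k i j)) := by ring

variable {F : Type} [Field F] [Algebra (ZMod p) F] {n : ℕ}

/-- the order with all exponents doubled, plus one -/
theorem ord_dbl (c : ℕ) (Z : ℕ → Matrix (Fin n) (Fin n) F)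
    (M : ℕ → Matrix (Fin N) (Fin N) (ZMod p)) (cs : ℕ → ℕ) (v : ℕ)
    (h : (bigS c Z M cs).det.order = ((n * v : ℕ) : ℕ∞)) :
    (bigS c Z M fun k => 2 * cs k + 1).det.order = ((n * (N + 2 * v) : ℕ) : ℕ∞) := by
  have h1 : (bigS c Z M fun k => 2 * cs k + 1) =
      (PowerSeries.X : PowerSeries F) • (bigS c Z M cs).map (ordaE F) := by
    ext1 x y
    simp only [bigS, Matrix.smul_apply, Matrix.map_apply, smul_eq_mul]
    rw [map_sum, Finset.mul_sum]
    apply Finset.sum_congr rfl
    intro k hk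
    ext m
    rcases m with _ | m
    · simp [PowerSeries.coeff_monomial]
    · rw [PowerSeries.coeff_succ_X_mul, ordaE_coeff, PowerSeries.coeff_monomial,
        PowerSeries.coeff_monomial]
      by_cases h4 : m = 2 * cs k
      · subst h4
        rw [if_pos rfl, if_pos (Dvd.intro _ rfl), if_pos (by omega)]
      · rw [if_neg (by omega)]
        by_cases h5 : 2 ∣ m
        · rw [if_pos h5, if_neg (by omega)]
        · rw [if_neg h5]
  rw [h1, Matrix.det_smul, ← RingHom.mapMatrix_apply, ← RingHom.map_det, PowerSeries.order_mul,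
    ordaE_order, PowerSeries.order_X_pow, h]
  simp only [Fintype.card_prod, Fintype.card_fin]
  push_cast
  ring

end Pool.Agent.RTB
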