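import Pool.Agent.RTB.OrdDefs

/-!
# RTB ORDB: the ascent step (see the header of `OrdDefs`)
-/

namespace Pool.Agent.RTB

variable {p : ℕ} [Fact p.Prime] {N : ℕ}

theorem ordb_prod_lt {R : Type} [CommRing R] (x : R) (N w : ℕ) (h : w ≤ N) :
    ∏ a : Fin N, (if w ≤ (a : ℕ) then 1 else x) = x ^ w := by
  rw [Fin.prod_univ_eq_prod_range (fun a => if w ≤ a then (1 : R) else x) N]
  rw [← Finset.prod_range_mul_prod_Ico _ h]
  rw [Finset.prod_congr rfl (g := fun _ => x), Finset.prod_congr (s₁ := Finset.Ico w N) rfl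
    (g := fun _ => (1 : R))]
  · simp
  · intro a ha
    rw [Finset.mem_Ico] at ha
    rw [if_pos ha.1]
  · intro a ha
    rw [Finset.mem_range] at ha
    rw [if_neg (by omega)]

theorem ordb_prod_ge {R : Type} [CommRing R] (x : R) (N u : ℕ) (h : u ≤ N) :
    ∏ a : Fin N, (if u ≤ (a : ℕ) then x else 1) = x ^ (N - u) := by
  rw [Fin.prod_univ_eq_prod_range (fun a => if u ≤ a then x else (1 : R)) N]
  rw [← Finset.prod_range_mul_prod_Ico _ h]
  rw [Finset.prod_congr rfl (g := fun _ => (1 : R)), Finset.prod_congr (s₁ := Finset.Ico u N) rfl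
    (g := fun _ => x)]
  · simp
  · intro a ha
    rw [Finset.mem_Ico] at ha
    rw [if_pos ha.1]
  · intro a ha
    rw [Finset.mem_range] at ha
    rw [if_neg (by omega)]

theorem ordb_det_C {R : Type} [CommRing R] (A : Matrix (Fin N) (Fin N) R) :
    (A.map (PowerSeries.C (R := R))).det = PowerSeries.C A.det := by
  rw [← RingHom.mapMatrix_apply, ← RingHom.map_det]

theorem ordb_order_C (r : ZMod p) (h : r ≠ 0) :
    (PowerSeries.C r : PowerSeries (ZMod p)).order = 0 := by
  have h1 := PowerSeries.order_monomial_of_ne_zero 0 r h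
  simpa using h1

theorem rel_asc (c : ℕ) (M : ℕ → Matrix (Fin N) (Fin N) (ZMod p)) (cs : ℕ → ℕ) (v : ℕ)
    (P P' : ℕ → Matrix (Fin N) (Fin N) (PowerSeries (ZMod p))) (h : Rel c M cs v P)
    (S₀ T₀ : Matrix (Fin N) (Fin N) (ZMod p)) (hS : S₀.det ≠ 0) (hT : T₀.det ≠ 0) (w u : ℕ)
    (hwu : w ≤ u) (hu : u ≤ N)
    (hP : ∀ k < c, ∀ a b : Fin N, (if w ≤ (a : ℕ) then PowerSeries.X * P' k a b else P' k a b) =
      (if u ≤ (b : ℕ) then PowerSeries.X * (S₀.map (PowerSeries.C (R := ZMod p)) * P k *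
          T₀.map (PowerSeries.C (R := ZMod p))) a b
        else (S₀.map (PowerSeries.C (R := ZMod p)) * P k *
          T₀.map (PowerSeries.C (R := ZMod p))) a b)) :
    Rel c M cs (v + (u - w)) P' := by
  obtain ⟨S, T, e, hS1, hT1, hv, hk⟩ := h
  have hX : (PowerSeries.X : PowerSeries (ZMod p)) ≠ 0 := PowerSeries.X_ne_zero
  refine ⟨Matrix.diagonal (fun a : Fin N => if w ≤ (a : ℕ) then 1 else PowerSeries.X) *
    S₀.map (PowerSeries.C (R := ZMod p)) * S, T * T₀.map (PowerSeries.C (R := ZMod p)) *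
    Matrix.diagonal (fun a : Fin N => if u ≤ (a : ℕ) then PowerSeries.X else 1), e + 1,
    ?_, ?_, ?_, ?_⟩
  · rw [Matrix.det_mul, Matrix.det_mul, Matrix.det_diagonal, ordb_prod_lt _ _ _ (hwu.trans hu),
      ordb_det_C]
    refine mul_ne_zero (mul_ne_zero (pow_ne_zero _ hX) ?_) hS1
    intro h
    apply hS
    have := congrArg (PowerSeries.constantCoeff (R := ZMod p)) h
    simpa using this
  · rw [Matrix.det_mul, Matrix.det_mul, Matrix.det_diagonal, ordb_prod_ge _ _ _ hu,
      ordb_det_C]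
    refine mul_ne_zero (mul_ne_zero hT1 ?_) (pow_ne_zero _ hX)
    intro h
    apply hT
    have := congrArg (PowerSeries.constantCoeff (R := ZMod p)) h
    simpa using this
  · rw [Matrix.det_mul, Matrix.det_mul, Matrix.det_diagonal, ordb_prod_lt _ _ _ (hwu.trans hu),
      Matrix.det_mul, Matrix.det_mul, Matrix.det_diagonal, ordb_prod_ge _ _ _ hu,
      ordb_det_C, ordb_det_C, PowerSeries.order_mul, PowerSeries.order_mul,
      PowerSeries.order_mul, PowerSeries.order_mul, PowerSeries.order_X_pow,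
      PowerSeries.order_X_pow, ordb_order_C _ hS, ordb_order_C _ hT]
    have h1 : ((N * (e + 1) : ℕ) : ℕ∞) = ((N * e : ℕ) : ℕ∞) + ((w + (N - u) + (u - w) : ℕ) : ℕ∞) := by
      rw [← Nat.cast_add]
      congr 1
      rw [Nat.mul_add, Nat.mul_one]
      omega
    rw [h1, ← hv]
    push_cast
    ring
  · intro k hkc
    have h1 : Matrix.diagonal (fun a : Fin N => if w ≤ (a : ℕ) then 1 else PowerSeries.X) *
        S₀.map (PowerSeries.C (R := ZMod p)) * S * (M k).map (PowerSeries.C (R := ZMod p)) *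
        (T * T₀.map (PowerSeries.C (R := ZMod p)) *
        Matrix.diagonal (fun a : Fin N => if u ≤ (a : ℕ) then PowerSeries.X else 1)) =
        Matrix.diagonal (fun a : Fin N => if w ≤ (a : ℕ) then 1 else PowerSeries.X) *
        (S₀.map (PowerSeries.C (R := ZMod p)) * (S * (M k).map (PowerSeries.C (R := ZMod p)) * T) *
          T₀.map (PowerSeries.C (R := ZMod p))) *
        Matrix.diagonal (fun a : Fin N => if u ≤ (a : ℕ) then PowerSeries.X else 1) := by
      simp only [Matrix.mul_assoc]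
    rw [h1, ← Matrix.smul_mul, ← Matrix.mul_smul, ← Matrix.smul_mul, ← Matrix.mul_smul,
      hk k hkc]
    ext1 a b
    rw [Matrix.mul_diagonal, Matrix.diagonal_mul, Matrix.mul_smul, Matrix.smul_mul]
    simp only [Matrix.smul_apply, smul_eq_mul]
    have h2 := hP k hkc a b
    generalize (S₀.map (PowerSeries.C (R := ZMod p)) * P k *
          T₀.map (PowerSeries.C (R := ZMod p))) a b = q at h2 ⊢
    generalize P' k a b = r at h2 ⊢
    by_cases h3 : w ≤ (a : ℕ)
    · by_cases h4 : u ≤ (b : ℕ)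
      · rw [if_pos h3, if_pos h4] at h2 ⊢
        have h5 := mul_left_cancel₀ hX h2
        rw [h5]
        ring
      · rw [if_pos h3, if_neg h4] at h2 ⊢
        rw [← h2]
        ring
    · by_cases h4 : u ≤ (b : ℕ)
      · rw [if_neg h3, if_pos h4] at h2 ⊢
        rw [h2]
        ring
      · rw [if_neg h3, if_neg h4] at h2 ⊢
        rw [← h2]
        ring

end Pool.Agent.RTB
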