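import Pool.Agent.RTB.OrdDefs

/-!
# RTB ORDC: weak duality and equality (see the header of `OrdDefs`)
-/

namespace Pool.Agent.RTB

variable {p : ℕ} [Fact p.Prime] {N : ℕ}

variable {F : Type} [Field F] [Algebra (ZMod p) F] {n : ℕ}

open scoped Kronecker

/-- the map on power series -/
private noncomputable abbrev Phi (p : ℕ) (F : Type) [Field F] [Algebra (ZMod p) F] :
    PowerSeries (ZMod p) →+* PowerSeries F := PowerSeries.map (algebraMap (ZMod p) F)

private theorem ordC_monomial (k : ℕ) (a : F) :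
    PowerSeries.monomial k a = (PowerSeries.X : PowerSeries F) ^ k * PowerSeries.C a := by
  ext m
  rw [mul_comm, PowerSeries.coeff_C_mul_X_pow, PowerSeries.coeff_monomial]

private theorem ordC_bigS (c : ℕ) (Z : ℕ → Matrix (Fin n) (Fin n) F)
    (M : ℕ → Matrix (Fin N) (Fin N) (ZMod p)) (cs : ℕ → ℕ) :
    bigS c Z M cs = ∑ k ∈ Finset.range c, (PowerSeries.X ^ cs k : PowerSeries F) •
      ((((M k).map (PowerSeries.C (R := ZMod p))).map (Phi p F)) ⊗ₖ
        ((Z k).map (PowerSeries.C (R := F)))) := by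
  ext1 x y
  rw [Matrix.sum_apply]
  unfold bigS
  refine Finset.sum_congr rfl fun k _ => ?_
  rw [Matrix.smul_apply, Matrix.kronecker_apply, Matrix.map_apply, Matrix.map_apply,
    Matrix.map_apply, ordC_monomial, PowerSeries.map_C, smul_eq_mul, map_mul]

private theorem ordC_order_map (f : PowerSeries (ZMod p)) : (Phi p F f).order = f.order := by
  refine le_antisymm ?_ (PowerSeries.le_order_map _)
  by_cases hf : f = 0
  · simp [hf]
  · rw [← PowerSeries.coe_toNat_order hf]
    refine PowerSeries.order_le _ ?_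
    rw [PowerSeries.coeff_map]
    intro h0
    exact PowerSeries.coeff_order hf ((map_eq_zero_iff _ (algebraMap (ZMod p) F).injective).1 h0)

/-- the transformed big matrix -/
private noncomputable def bigP (p : ℕ) {F : Type} [Field F] [Algebra (ZMod p) F] {N n : ℕ} (c : ℕ)
    (Z : ℕ → Matrix (Fin n) (Fin n) F) (P : ℕ → Matrix (Fin N) (Fin N) (PowerSeries (ZMod p)))
    (d : ℕ → ℕ) : Matrix (Fin N × Fin n) (Fin N × Fin n) (PowerSeries F) :=
  ∑ k ∈ Finset.range c, (PowerSeries.X ^ d k : PowerSeries F) •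
    (((P k).map (Phi p F)) ⊗ₖ ((Z k).map (PowerSeries.C (R := F))))

private theorem ordC_trans (c : ℕ) (Z : ℕ → Matrix (Fin n) (Fin n) F)
    (M : ℕ → Matrix (Fin N) (Fin N) (ZMod p)) (cs cs' : ℕ → ℕ)
    (P : ℕ → Matrix (Fin N) (Fin N) (PowerSeries (ZMod p)))
    (S T : Matrix (Fin N) (Fin N) (PowerSeries (ZMod p))) (e : ℕ)
    (h : ∀ k < c, (PowerSeries.X ^ cs k : PowerSeries (ZMod p)) •
      (S * (M k).map (PowerSeries.C (R := ZMod p)) * T) =
        (PowerSeries.X ^ e : PowerSeries (ZMod p)) • P k)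
    (hcs : ∀ k < c, cs k ≤ cs' k) :
    ((S.map (Phi p F)) ⊗ₖ (1 : Matrix (Fin n) (Fin n) (PowerSeries F))) * bigS c Z M cs' *
      ((T.map (Phi p F)) ⊗ₖ (1 : Matrix (Fin n) (Fin n) (PowerSeries F))) =
      (PowerSeries.X ^ e : PowerSeries F) • bigP p c Z P fun k => cs' k - cs k := by
  rw [ordC_bigS, Finset.mul_sum, Finset.sum_mul, bigP, Finset.smul_sum]
  refine Finset.sum_congr rfl fun k hk => ?_
  have hk' := Finset.mem_range.1 hk
  rw [Matrix.mul_smul, Matrix.smul_mul, ← Matrix.mul_kronecker_mul, ← Matrix.mul_kronecker_mul,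
    one_mul, mul_one, ← Matrix.map_mul, ← Matrix.map_mul]
  have h1 := congrArg (fun A : Matrix (Fin N) (Fin N) (PowerSeries (ZMod p)) => A.map (Phi p F))
    (h k hk')
  have hsm : ∀ (j : ℕ) (A : Matrix (Fin N) (Fin N) (PowerSeries (ZMod p))),
      ((PowerSeries.X ^ j : PowerSeries (ZMod p)) • A).map (Phi p F) =
        (PowerSeries.X ^ j : PowerSeries F) • A.map (Phi p F) := by
    intro j A
    ext1 a b
    simp only [Matrix.map_apply, Matrix.smul_apply, smul_eq_mul, map_mul, map_pow,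
      PowerSeries.map_X]
  simp only [hsm] at h1
  have h2 : cs' k = (cs' k - cs k) + cs k := (Nat.sub_add_cancel (hcs k hk')).symm
  conv_lhs => rw [h2, pow_add, mul_smul, ← Matrix.smul_kronecker, h1, Matrix.smul_kronecker]
  rw [smul_comm]

private theorem ordC_det (c : ℕ) (Z : ℕ → Matrix (Fin n) (Fin n) F)
    (M : ℕ → Matrix (Fin N) (Fin N) (ZMod p)) (cs cs' : ℕ → ℕ)
    (P : ℕ → Matrix (Fin N) (Fin N) (PowerSeries (ZMod p)))
    (S T : Matrix (Fin N) (Fin N) (PowerSeries (ZMod p))) (e : ℕ)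
    (h : ∀ k < c, (PowerSeries.X ^ cs k : PowerSeries (ZMod p)) •
      (S * (M k).map (PowerSeries.C (R := ZMod p)) * T) =
        (PowerSeries.X ^ e : PowerSeries (ZMod p)) • P k)
    (hcs : ∀ k < c, cs k ≤ cs' k) :
    n • S.det.order + (bigS c Z M cs').det.order + n • T.det.order =
      ((n * (N * e) : ℕ) : ℕ∞) + (bigP p c Z P fun k => cs' k - cs k).det.order := by
  have h1 : (((S.map (Phi p F)) ⊗ₖ (1 : Matrix (Fin n) (Fin n) (PowerSeries F))) *
      bigS c Z M cs' * ((T.map (Phi p F)) ⊗ₖ (1 : Matrix (Fin n) (Fin n) (PowerSeries F)))).det =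
      ((PowerSeries.X ^ e : PowerSeries F) • bigP p c Z P fun k => cs' k - cs k).det := by
    rw [ordC_trans c Z M cs cs' P S T e h hcs]
  rw [Matrix.det_mul, Matrix.det_mul, Matrix.det_kronecker, Matrix.det_kronecker, Matrix.det_one,
    one_pow, mul_one, mul_one, Matrix.det_smul, Fintype.card_prod, Fintype.card_fin,
    Fintype.card_fin] at h1
  have hmap : ∀ A : Matrix (Fin N) (Fin N) (PowerSeries (ZMod p)),
      (A.map (Phi p F)).det = Phi p F A.det := fun A => ((Phi p F).map_det A).symm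
  rw [hmap, hmap] at h1
  have h2 := congrArg PowerSeries.order h1
  rw [PowerSeries.order_mul, PowerSeries.order_mul, PowerSeries.order_pow, PowerSeries.order_pow,
    PowerSeries.order_mul, PowerSeries.order_pow, ordC_order_map, ordC_order_map,
    PowerSeries.order_X_pow] at h2
  rw [h2]
  congr 1
  rw [nsmul_eq_mul]
  push_cast
  ring

private theorem ordC_arith {a b x y : ℕ∞} {n v N e : ℕ} (ha : a ≠ ⊤) (hb : b ≠ ⊤)
    (h : a + b + (v : ℕ∞) = ((N * e : ℕ) : ℕ∞))
    (h2 : n • a + x + n • b = ((n * (N * e) : ℕ) : ℕ∞) + y) : x = ((n * v : ℕ) : ℕ∞) + y := by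
  lift a to ℕ using ha
  lift b to ℕ using hb
  have h' : a + b + v = N * e := by exact_mod_cast h
  rw [← h'] at h2
  have h3 : ((n * a + n * b : ℕ) : ℕ∞) + x = ((n * a + n * b : ℕ) : ℕ∞) +
      (((n * v : ℕ) : ℕ∞) + y) := by
    simp only [nsmul_eq_mul] at h2
    push_cast at h2 ⊢
    calc (n : ℕ∞) * a + n * b + x = n * a + x + n * b := by ring
      _ = n * (a + b + v) + y := h2
      _ = _ := by ring
  exact ENat.add_right_injective_of_ne_top (ENat.natCast_ne_top _) h3

theorem rel_le (c : ℕ) (Z : ℕ → Matrix (Fin n) (Fin n) F)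
    (M : ℕ → Matrix (Fin N) (Fin N) (ZMod p)) (cs cs' : ℕ → ℕ) (v : ℕ)
    (P : ℕ → Matrix (Fin N) (Fin N) (PowerSeries (ZMod p))) (h : Rel c M cs v P)
    (hcs : ∀ k < c, cs k ≤ cs' k) : ((n * v : ℕ) : ℕ∞) ≤ (bigS c Z M cs').det.order := by
  obtain ⟨S, T, e, hS, hT, hv, hk⟩ := h
  have h1 := ordC_det c Z M cs cs' P S T e hk hcs
  have h2 := ordC_arith (mt PowerSeries.order_eq_top.1 hS) (mt PowerSeries.order_eq_top.1 hT) hv h1
  rw [h2]
  exact le_self_add

theorem rel_eq (c : ℕ) (Z : ℕ → Matrix (Fin n) (Fin n) F)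
    (M : ℕ → Matrix (Fin N) (Fin N) (ZMod p)) (cs : ℕ → ℕ) (v : ℕ)
    (P : ℕ → Matrix (Fin N) (Fin N) (PowerSeries (ZMod p))) (h : Rel c M cs v P)
    (hP : (∑ k ∈ Finset.range c, Matrix.kroneckerMap (· * ·)
      ((P k).map fun f => algebraMap (ZMod p) F (PowerSeries.constantCoeff f)) (Z k)).det ≠ 0) :
    (bigS c Z M cs).det.order = ((n * v : ℕ) : ℕ∞) := by
  obtain ⟨S, T, e, hS, hT, hv, hk⟩ := h
  have h1 := ordC_det c Z M cs cs P S T e hk fun k _ => le_rfl
  have h2 := ordC_arith (mt PowerSeries.order_eq_top.1 hS) (mt PowerSeries.order_eq_top.1 hT) hv h1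
  rw [h2]
  have h3 : (bigP p c Z P fun k => cs k - cs k).det.order = 0 := by
    have h4 : (bigP p c Z P fun k => cs k - cs k).map (PowerSeries.constantCoeff (R := F)) =
        ∑ k ∈ Finset.range c, Matrix.kroneckerMap (· * ·)
          ((P k).map fun f => algebraMap (ZMod p) F (PowerSeries.constantCoeff f)) (Z k) := by
      ext1 x y
      rw [Matrix.map_apply, bigP, Matrix.sum_apply, map_sum, Matrix.sum_apply]
      refine Finset.sum_congr rfl fun k _ => ?_
      rw [Matrix.smul_apply, Matrix.kronecker_apply, Nat.sub_self, pow_zero, one_smul, map_mul]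
      rw [Matrix.map_apply, Matrix.map_apply, Matrix.kroneckerMap_apply,
        Matrix.map_apply, PowerSeries.constantCoeff_C]
      congr 1
    rw [← h4] at hP
    have h5 : ((bigP p c Z P fun k => cs k - cs k).map (PowerSeries.constantCoeff (R := F))).det =
        PowerSeries.constantCoeff (bigP p c Z P fun k => cs k - cs k).det :=
      ((PowerSeries.constantCoeff (R := F)).map_det _).symm
    rw [h5] at hP
    have h6 : (bigP p c Z P fun k => cs k - cs k).det.order ≤ ((0 : ℕ) : ℕ∞) :=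
      PowerSeries.order_le 0 (by rwa [PowerSeries.coeff_zero_eq_constantCoeff_apply])
    exact le_antisymm (by simpa using h6) bot_le
  rw [h3, add_zero]

end Pool.Agent.RTB
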