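import Pool.Agent.RTB.Alg
import Pool.Agent.RTB.OrdA
import Pool.Agent.RTB.OrdB
import Pool.Agent.RTB.OrdC
import Pool.Agent.RTB.Gen
import Pool.Agent.RTB.RegDefs

/-!
# RTB ORDX: correctness of `ordDet`

Hypothesis: the specification `NcrSpec` of the rank algorithm.
-/

namespace Pool.Agent.RTB

open Matrix

/-- specification of the rank algorithm -/
def NcrSpec (p N d : ℕ) : Prop := ∀ Bs : List (List (List ℕ)),
  (ncr p N d Bs = none → ∃ X : ℕ → Matrix (Fin d) (Fin d) (ZMod p),
    (kr Bs.length (fun k => toM p N N (Bs.getD k [])) X).det ≠ 0) ∧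
  ∀ W U, ncr p N d Bs = some (W, U) → Ind p N W ∧ Ind p N U ∧ W.length < U.length ∧
    ∀ k < Bs.length, ∀ x ∈ sp p N U, toM p N N (Bs.getD k []) *ᵥ x ∈ sp p N W

section
variable {p : ℕ}

theorem toM_nil (m n : ℕ) : toM p m n [] = 0 := by
  ext i j
  rw [toM_apply]
  simp [entM, row, ent]

/-- the coefficient matrix of degree `h` -/
noncomputable def cM {N : ℕ} (h : ℕ) (P : Matrix (Fin N) (Fin N) (PowerSeries (ZMod p))) :
    Matrix (Fin N) (Fin N) (ZMod p) := P.map fun f => PowerSeries.coeff h f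

theorem cM_apply {N : ℕ} (h : ℕ) (P : Matrix (Fin N) (Fin N) (PowerSeries (ZMod p)))
    (i j : Fin N) : cM h P i j = PowerSeries.coeff h (P i j) := rfl

/-- the list `L` represents the matrix `P` of power series below degree `pr` -/
def RepP (N pr : ℕ) (L : PMat) (P : Matrix (Fin N) (Fin N) (PowerSeries (ZMod p))) : Prop :=
  ∀ h < pr, toM p N N (L.getD h []) = cM h P

theorem RepP.mono {N pr pr' : ℕ} {L : PMat} {P : Matrix (Fin N) (Fin N) (PowerSeries (ZMod p))}
    (h : RepP N pr L P) (hp : pr' ≤ pr) : RepP N pr' L P := fun i hi => h i (hi.trans_le hp)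

theorem getD_map_range {α : Type*} {n : ℕ} (f : ℕ → α) {i : ℕ} (h : i < n) (d : α) :
    ((List.range n).map f).getD i d = f i := by
  simp [List.getD_eq_getElem?_getD, h]

theorem repP_const (N pr : ℕ) (M : List (List ℕ)) :
    RepP N pr [M] ((toM p N N M).map (PowerSeries.C (R := ZMod p))) := by
  intro h _
  ext i j
  rw [cM_apply, Matrix.map_apply, PowerSeries.coeff_C]
  rcases h with _ | h
  · simp
  · rw [if_neg (Nat.succ_ne_zero h)]
    have : ([M] : PMat).getD (h + 1) [] = [] := by simp
    rw [this, toM_nil]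
    rfl

/-- the doubled series -/
noncomputable def dblSer {N : ℕ} (b : ℕ) (P : Matrix (Fin N) (Fin N) (PowerSeries (ZMod p))) :
    Matrix (Fin N) (Fin N) (PowerSeries (ZMod p)) := fun i j =>
  PowerSeries.mk fun h => if b ≤ h ∧ 2 ∣ h - b then PowerSeries.coeff ((h - b) / 2) (P i j) else 0

theorem repP_dbl {N b : ℕ} {L : PMat} {P : Matrix (Fin N) (Fin N) (PowerSeries (ZMod p))}
    (h : RepP N (N + 1) L P) : RepP N (2 * N + 1) (dblP N (2 * N + 1) b L) (dblSer b P) := by
  intro k hk
  rw [dblP, getD_map_range _ hk, toM_mt]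
  ext i j
  rw [Matrix.of_apply, cM_apply, dblSer, PowerSeries.coeff_mk]
  by_cases hb : b ≤ k ∧ (k - b) % 2 = 0
  · rw [if_pos hb, if_pos ⟨hb.1, Nat.dvd_of_mod_eq_zero hb.2⟩]
    have h1 := h ((k - b) / 2) (by omega)
    have h2 := congrFun (congrFun h1 i) j
    rw [cM_apply] at h2
    rw [← h2]
    rfl
  · rw [if_neg hb, if_neg fun h' => hb ⟨h'.1, Nat.mod_eq_zero_of_dvd h'.2⟩, Nat.cast_zero]

theorem cM_mul_left {N : ℕ} (h : ℕ) (A : Matrix (Fin N) (Fin N) (ZMod p))
    (P : Matrix (Fin N) (Fin N) (PowerSeries (ZMod p))) :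
    cM h (A.map (PowerSeries.C (R := ZMod p)) * P) = A * cM h P := by
  ext i j
  rw [cM_apply, Matrix.mul_apply, map_sum, Matrix.mul_apply]
  refine Finset.sum_congr rfl fun l _ => ?_
  rw [Matrix.map_apply, PowerSeries.coeff_C_mul, cM_apply]

theorem cM_mul_right {N : ℕ} (h : ℕ) (A : Matrix (Fin N) (Fin N) (ZMod p))
    (P : Matrix (Fin N) (Fin N) (PowerSeries (ZMod p))) :
    cM h (P * A.map (PowerSeries.C (R := ZMod p))) = cM h P * A := by
  ext i j
  rw [cM_apply, Matrix.mul_apply, map_sum, Matrix.mul_apply]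
  refine Finset.sum_congr rfl fun l _ => ?_
  rw [Matrix.map_apply, PowerSeries.coeff_mul_C, cM_apply]

/-- the series after the base change -/
noncomputable def bcS {N : ℕ} (S T : Matrix (Fin N) (Fin N) (ZMod p))
    (P : Matrix (Fin N) (Fin N) (PowerSeries (ZMod p))) :
    Matrix (Fin N) (Fin N) (PowerSeries (ZMod p)) :=
  S.map (PowerSeries.C (R := ZMod p)) * P * T.map (PowerSeries.C (R := ZMod p))

theorem cM_bcS {N : ℕ} (h : ℕ) (S T : Matrix (Fin N) (Fin N) (ZMod p))
    (P : Matrix (Fin N) (Fin N) (PowerSeries (ZMod p))) : cM h (bcS S T P) = S * cM h P * T := by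
  rw [bcS, cM_mul_right, cM_mul_left]

/-- the series after an ascent step -/
noncomputable def ascSer {N : ℕ} (w u : ℕ) (Q : Matrix (Fin N) (Fin N) (PowerSeries (ZMod p))) :
    Matrix (Fin N) (Fin N) (PowerSeries (ZMod p)) := fun a b =>
  if w ≤ (a : ℕ) then (if (b : ℕ) < u then PowerSeries.mk fun h => PowerSeries.coeff (h + 1) (Q a b)
    else Q a b)
  else if (b : ℕ) < u then Q a b else PowerSeries.X * Q a b

theorem toM_getD_map {N : ℕ} (S T : List (List ℕ)) (L : PMat) (h : ℕ) :
    toM p N N ((L.map fun M => mulL p N N N (mulL p N N N S M) T).getD h []) =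
      toM p N N S * toM p N N (L.getD h []) * toM p N N T := by
  rw [← toM_mulL, ← toM_mulL]
  by_cases hh : h < L.length
  · congr 1
    simp [List.getD_eq_getElem?_getD, hh]
  · have h1 : (L.map fun M => mulL p N N N (mulL p N N N S M) T).getD h [] = [] := by
      rw [List.getD_eq_default _ _ (by simpa using hh)]
    have h2 : L.getD h [] = [] := List.getD_eq_default _ _ (by simpa using hh)
    rw [h1, h2, toM_mulL, toM_mulL, toM_nil, Matrix.mul_zero, Matrix.zero_mul]

theorem repP_asc {N hh pr w u : ℕ} {S T : List (List ℕ)} {L : PMat}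
    {P : Matrix (Fin N) (Fin N) (PowerSeries (ZMod p))} (h : RepP N (pr + 1) L P)
    (hpr : pr ≤ hh) :
    RepP N pr (ascP p N hh w u S T L) (ascSer w u (bcS (toM p N N S) (toM p N N T) P)) := by
  intro k hk
  rw [ascP, getD_map_range _ (hk.trans_le hpr), toM_mt]
  ext a b
  rw [Matrix.of_apply, cM_apply, ascSer]
  have key : ∀ l < pr + 1, ((entM ((L.map fun M => mulL p N N N (mulL p N N N S M) T).getD l [])
      a b : ℕ) : ZMod p) = PowerSeries.coeff l (bcS (toM p N N S) (toM p N N T) P a b) := by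
    intro l hl
    have h1 := congrFun (congrFun (toM_getD_map (p := p) (N := N) S T L l) a) b
    rw [toM_apply] at h1
    rw [h1, h l hl, ← cM_bcS, cM_apply]
  split_ifs with h1 h2 h3 h4
  · rw [key _ (by omega), PowerSeries.coeff_mk]
  · exact key _ (by omega)
  · exact key _ (by omega)
  · rw [h4, PowerSeries.coeff_zero_X_mul, Nat.cast_zero]
  · obtain ⟨k', rfl⟩ : ∃ k', k = k' + 1 := ⟨k - 1, by omega⟩
    rw [PowerSeries.coeff_succ_X_mul, Nat.add_sub_cancel]
    exact key _ (by omega)

theorem ascSer_eq {N w u : ℕ} (Q : Matrix (Fin N) (Fin N) (PowerSeries (ZMod p)))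
    (h0 : ∀ a b : Fin N, w ≤ (a : ℕ) → (b : ℕ) < u → PowerSeries.constantCoeff (Q a b) = 0)
    (a b : Fin N) :
    (if w ≤ (a : ℕ) then PowerSeries.X * ascSer w u Q a b else ascSer w u Q a b) =
      (if u ≤ (b : ℕ) then PowerSeries.X * Q a b else Q a b) := by
  rw [ascSer]
  by_cases h1 : w ≤ (a : ℕ)
  · rw [if_pos h1, if_pos h1]
    by_cases h2 : (b : ℕ) < u
    · rw [if_pos h2, if_neg (not_le.2 h2)]
      have h3 := PowerSeries.sub_const_eq_X_mul_shift (Q a b)
      rw [h0 a b h1 h2, map_zero, sub_zero] at h3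
      exact h3.symm
    · rw [if_neg h2, if_pos (not_lt.1 h2)]
  · rw [if_neg h1, if_neg h1]
    by_cases h2 : (b : ℕ) < u
    · rw [if_pos h2, if_neg (not_le.2 h2)]
    · rw [if_neg h2, if_pos (not_lt.1 h2)]

end

section
variable {p : ℕ} [hp : Fact p.Prime] {N : ℕ}

theorem length_le_of_ind {W : List (List ℕ)} (h : Ind p N W) : W.length ≤ N := by
  obtain ⟨⟨E, _, hE⟩, _, _, hl⟩ := extL_spec h
  rw [hE, List.length_append] at hl
  omega

/-- the matrix with the vectors of the extended list as columns -/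
theorem isUnit_ext {W : List (List ℕ)} (h : Ind p N W) :
    IsUnit (toM p N N (transpL N N (extL p N W))) := by
  obtain ⟨_, _, h3, hl⟩ := extL_spec h
  rw [toM_transpL]
  exact (Matrix.isUnit_transpose _).2 (isUnit_of_ind h3 hl)

theorem ext_col {W : List (List ℕ)} (h : Ind p N W) {l : ℕ} (hl : l < W.length) (hl' : l < N) :
    (toM p N N (transpL N N (extL p N W))).col ⟨l, hl'⟩ = toV p N (W.getD l []) := by
  obtain ⟨⟨E, _, hE⟩, _, _, _⟩ := extL_spec h
  funext i
  rw [toM_transpL]
  show toM p N N (extL p N W) ⟨l, hl'⟩ i = _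
  rw [toM_row, hE]
  show toV p N (row (W ++ E) l) i = _
  rw [row_append_left hl]
  rfl

/-- the coordinates `≥ dim W` of a vector of `W` vanish after the base change -/
theorem inv_ext_mem {W : List (List ℕ)} (h : Ind p N W) {x : Fin N → ZMod p}
    (hx : x ∈ sp p N W) {a : Fin N} (ha : W.length ≤ (a : ℕ)) :
    (toM p N N (invL p N (transpL N N (extL p N W))) *ᵥ x) a = 0 := by
  have hu := isUnit_ext h
  have h1 : sp p N W ≤ LinearMap.ker ((LinearMap.proj a).comp
      (toM p N N (invL p N (transpL N N (extL p N W)))).mulVecLin) := by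
    rw [sp_eq, spanL_le]
    intro v hv
    obtain ⟨w, hw, rfl⟩ := List.mem_map.1 hv
    obtain ⟨l, hl, rfl⟩ := List.mem_iff_getElem.1 hw
    have hlN : l < N := hl.trans_le (length_le_of_ind h)
    have h2 := ext_col h hl hlN
    rw [List.getD_eq_getElem _ _ hl] at h2
    rw [LinearMap.mem_ker]
    show (toM p N N (invL p N (transpL N N (extL p N W))) *ᵥ toV p N W[l]) a = 0
    rw [← h2, toM_invL hu]
    have h3 : ((toM p N N (transpL N N (extL p N W)))⁻¹ *ᵥ
        (toM p N N (transpL N N (extL p N W))).col ⟨l, hlN⟩) a =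
        ((toM p N N (transpL N N (extL p N W)))⁻¹ * toM p N N (transpL N N (extL p N W))) a
          ⟨l, hlN⟩ := rfl
    rw [h3, Matrix.nonsing_inv_mul _ ((Matrix.isUnit_iff_isUnit_det _).1 hu), Matrix.one_apply,
      if_neg]
    intro h4
    rw [h4] at ha
    simp only at ha
    omega
  exact h1 hx

/-- the zero block -/
theorem zero_block {W U : List (List ℕ)} (hW : Ind p N W) (hU : Ind p N U)
    {B : Matrix (Fin N) (Fin N) (ZMod p)} (hB : ∀ x ∈ sp p N U, B *ᵥ x ∈ sp p N W) {a b : Fin N}
    (ha : W.length ≤ (a : ℕ)) (hb : (b : ℕ) < U.length) :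
    (toM p N N (invL p N (transpL N N (extL p N W))) * B *
      toM p N N (transpL N N (extL p N U))) a b = 0 := by
  have h1 := ext_col hU hb b.2
  have h2 : toV p N (U.getD b []) ∈ sp p N U := by
    rw [List.getD_eq_getElem _ _ hb]
    exact Submodule.subset_span (List.mem_map.2 ⟨_, List.getElem_mem _, rfl⟩)
  have h3 := inv_ext_mem hW (hB _ h2) ha
  rw [← h1, Matrix.mulVec_mulVec] at h3
  exact h3

theorem det_ne_of_isUnit {A : Matrix (Fin N) (Fin N) (ZMod p)} (h : IsUnit A) : A.det ≠ 0 :=
  ((Matrix.isUnit_iff_isUnit_det _).1 h).ne_zero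

theorem isUnit_inv_ext {W : List (List ℕ)} (h : Ind p N W) :
    IsUnit (toM p N N (invL p N (transpL N N (extL p N W)))) := by
  rw [toM_invL (isUnit_ext h)]
  exact (Matrix.isUnit_nonsing_inv_iff).2 (isUnit_ext h)

/-- state invariant -/
def PInv (c : ℕ) (M : ℕ → Matrix (Fin N) (Fin N) (ZMod p)) (cs : ℕ → ℕ) (pr v : ℕ)
    (L : List PMat) : Prop :=
  L.length = c ∧ ∃ P : ℕ → Matrix (Fin N) (Fin N) (PowerSeries (ZMod p)), Rel c M cs v P ∧
    ∀ k < c, RepP N pr (L.getD k []) (P k)

theorem PInv.mono {c : ℕ} {M : ℕ → Matrix (Fin N) (Fin N) (ZMod p)} {cs : ℕ → ℕ}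
    {pr pr' v : ℕ} {L : List PMat} (h : PInv c M cs pr v L) (hp : pr' ≤ pr) :
    PInv c M cs pr' v L := by
  obtain ⟨h1, P, h2, h3⟩ := h
  exact ⟨h1, P, h2, fun k hk => (h3 k hk).mono hp⟩

theorem getD_map' {α β : Type*} (f : α → β) (L : List α) {k : ℕ} (h : k < L.length) (d : α)
    (e : β) : (L.map f).getD k e = f (L.getD k d) := by
  simp [List.getD_eq_getElem?_getD, h]

/-- the argument of `ncr` -/
def ncArg (L : List PMat) : List (List (List ℕ)) := L.map fun P => P.getD 0 []

/-- if the rank algorithm says nonsingular, the order is `n v` -/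
theorem order_of_none {d : ℕ} (hN : NcrSpec p N d) {F : Type} [Field F] [Algebra (ZMod p) F]
    {Z : ℕ → Matrix (Fin d) (Fin d) F} (hZ : Lin p Z) {c : ℕ}
    {M : ℕ → Matrix (Fin N) (Fin N) (ZMod p)} {cs : ℕ → ℕ} {pr v : ℕ} {L : List PMat}
    (h : PInv c M cs (pr + 1) v L) (hn : ncr p N d (ncArg L) = none) :
    (bigS c Z M cs).det.order = ((d * v : ℕ) : ℕ∞) := by
  obtain ⟨hl, P, hR, hP⟩ := h
  apply rel_eq c Z M cs v P hR
  obtain ⟨X, hX⟩ := (hN (ncArg L)).1 hn
  have hlen : (ncArg L).length = c := by rw [ncArg, List.length_map, hl]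
  have h1 := hZ N c (fun k => toM p N N ((ncArg L).getD k [])) X (by
    rw [← hlen]
    exact hX)
  have h2 : (∑ k ∈ Finset.range c, Matrix.kroneckerMap (· * ·)
      ((toM p N N ((ncArg L).getD k [])).map (algebraMap (ZMod p) F)) (Z k)) =
      ∑ k ∈ Finset.range c, Matrix.kroneckerMap (· * ·)
        ((P k).map fun f => algebraMap (ZMod p) F (PowerSeries.constantCoeff f)) (Z k) := by
    refine Finset.sum_congr rfl fun k hk => ?_
    have hk' := Finset.mem_range.1 hk
    rw [ncArg, getD_map' _ _ (by rw [hl]; exact hk') [] []]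
    rw [hP k hk' 0 (Nat.succ_pos _)]
    have h3 : (cM 0 (P k)).map (algebraMap (ZMod p) F) =
        (P k).map fun f => algebraMap (ZMod p) F (PowerSeries.constantCoeff f) := by
      ext i j
      rw [Matrix.map_apply, cM_apply, PowerSeries.coeff_zero_eq_constantCoeff_apply,
        Matrix.map_apply]
    rw [h3]
  rw [← h2]
  exact h1

/-- an ascent step -/
theorem ordS_some {d hh : ℕ} (hN : NcrSpec p N d) {c : ℕ}
    {M : ℕ → Matrix (Fin N) (Fin N) (ZMod p)} {cs : ℕ → ℕ} {pr v : ℕ} {L : List PMat}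
    (h : PInv c M cs (pr + 1) v L) (hpr : pr ≤ hh) {WU : List (List ℕ) × List (List ℕ)}
    (hs : ncr p N d (ncArg L) = some WU) :
    ∃ v' L', ordS p N d hh (v, L) = (v', L') ∧ v + 1 ≤ v' ∧ PInv c M cs pr v' L' := by
  obtain ⟨hl, P, hR, hP⟩ := h
  obtain ⟨hW, hU, hwu, hB⟩ := (hN (ncArg L)).2 WU.1 WU.2 hs
  have hlen : (ncArg L).length = c := by rw [ncArg, List.length_map, hl]
  set S := invL p N (transpL N N (extL p N WU.1)) with hS
  set T := transpL N N (extL p N WU.2) with hT
  refine ⟨v + (WU.2.length - WU.1.length), L.map (ascP p N hh WU.1.length WU.2.length S T), ?_,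
    by omega, ?_, fun k => ascSer WU.1.length WU.2.length (bcS (toM p N N S) (toM p N N T) (P k)),
    ?_, ?_⟩
  · have : ncr p N d ((v, L).2.map fun P => P.getD 0 []) = some WU := hs
    simp only [ordS, this, hS, hT]
  · rw [List.length_map, hl]
  · apply rel_asc c M cs v P _ hR (toM p N N S) (toM p N N T)
      (det_ne_of_isUnit (isUnit_inv_ext hW)) (det_ne_of_isUnit (isUnit_ext hU)) _ _ hwu.le
      (length_le_of_ind hU)
    intro k hk a b
    apply ascSer_eq
    intro a b ha hb
    have h1 : cM 0 (bcS (toM p N N S) (toM p N N T) (P k)) a b = 0 := by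
      rw [cM_bcS]
      apply zero_block hW hU _ ha hb
      have h2 := hB k (by rw [hlen]; exact hk)
      rw [ncArg, getD_map' _ _ (by rw [hl]; exact hk) [] [], hP k hk 0 (Nat.succ_pos _)] at h2
      exact h2
    rw [← PowerSeries.coeff_zero_eq_constantCoeff_apply]
    exact h1
  · intro k hk
    rw [getD_map' _ _ (by rw [hl]; exact hk) [] []]
    exact repP_asc (hP k hk) hpr

theorem ordS_none {d hh v : ℕ} {L : List PMat} (hs : ncr p N d (ncArg L) = none) :
    ordS p N d hh (v, L) = (v, L) := by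
  have : ncr p N d ((v, L).2.map fun P => P.getD 0 []) = none := hs
  simp only [ordS, this]

/-- `j` steps -/
theorem iter_ordS {d hh : ℕ} (hN : NcrSpec p N d) {c : ℕ}
    {M : ℕ → Matrix (Fin N) (Fin N) (ZMod p)} {cs : ℕ → ℕ} {v : ℕ} {L : List PMat} (pr : ℕ) :
    ∀ j, PInv c M cs (pr + j) v L → pr + j ≤ hh →
      ∃ v' L', (List.range j).foldl (fun st _ => ordS p N d hh st) (v, L) = (v', L') ∧
        PInv c M cs pr v' L' ∧ (ncr p N d (ncArg L') = none ∨ v + j ≤ v')
  | 0, h, _ => ⟨v, L, rfl, h, Or.inr le_rfl⟩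
  | j + 1, h, hpr => by
    have key : ∀ (pr' : ℕ), PInv c M cs (pr' + j) v L → pr' + j ≤ hh →
      ∃ v' L', (List.range j).foldl (fun st _ => ordS p N d hh st) (v, L) = (v', L') ∧
        PInv c M cs pr' v' L' ∧ (ncr p N d (ncArg L') = none ∨ v + j ≤ v') :=
      fun pr' h1 h2 => iter_ordS hN pr' j h1 h2
    obtain ⟨v1, L1, h1, h2, h3⟩ := key (pr + 1) (by
      have : pr + 1 + j = pr + (j + 1) := by omega
      rw [this]
      exact h) (by omega)
    rw [List.range_succ, List.foldl_append, h1, List.foldl_cons, List.foldl_nil]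
    rcases hs : ncr p N d (ncArg L1) with _ | WU
    · exact ⟨v1, L1, ordS_none hs, h2.mono (Nat.le_succ _), Or.inl hs⟩
    · obtain ⟨v2, L2, h4, h5, h6⟩ := ordS_some (hh := hh) (pr := pr) hN h2 (by omega) hs
      refine ⟨v2, L2, h4, h6, Or.inr ?_⟩
      rcases h3 with h3 | h3
      · rw [hs] at h3
        exact absurd h3 (by simp)
      · omega

/-- a phase -/
theorem phase_spec {d : ℕ} (hd : 0 < d) (hN : NcrSpec p N d) {F : Type} [Field F]
    [Algebra (ZMod p) F] {Z : ℕ → Matrix (Fin d) (Fin d) F} (hZ : Lin p Z) {c : ℕ}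
    {M : ℕ → Matrix (Fin N) (Fin N) (ZMod p)} {cs : ℕ → ℕ} {v : ℕ} {L : List PMat}
    (h : PInv c M cs (N + 1) v L) (ho : (bigS c Z M cs).det.order = ((d * v : ℕ) : ℕ∞))
    (csl : List ℕ) (hcl : csl.length = c) (i : ℕ) :
    ∃ v' L', phaseS p N d (2 * N + 1) csl (v, L) i = (v', L') ∧
      PInv c M (fun k => 2 * cs k + bitAt (csl.getD k 0) i) (N + 1) v' L' ∧
      (bigS c Z M (fun k => 2 * cs k + bitAt (csl.getD k 0) i)).det.order =
        ((d * v' : ℕ) : ℕ∞) := by
  set cs' : ℕ → ℕ := fun k => 2 * cs k + bitAt (csl.getD k 0) i with hcs'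
  obtain ⟨hl, P, hR, hP⟩ := h
  have hb : ∀ k, bitAt (csl.getD k 0) i ≤ 1 := by
    intro k
    rw [bitAt]
    split_ifs <;> omega
  have h1 : PInv c M cs' (N + 1 + N) (2 * v)
      ((csl.zip L).map fun x => dblP N (2 * N + 1) (bitAt x.1 i) x.2) := by
    refine ⟨by simp [hl, hcl], fun k => dblSer (bitAt (csl.getD k 0) i) (P k), ?_, ?_⟩
    · apply rel_dbl c M cs (fun k => bitAt (csl.getD k 0) i) v P _ hR
      intro k _ a b h
      rw [dblSer, PowerSeries.coeff_mk]
    · intro k hk
      have h2 : ((csl.zip L).map fun x => dblP N (2 * N + 1) (bitAt x.1 i) x.2).getD k [] =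
          dblP N (2 * N + 1) (bitAt (csl.getD k 0) i) (L.getD k []) := by
        have hk1 : k < csl.length := by omega
        have hk2 : k < L.length := by omega
        simp [List.getD_eq_getElem?_getD, hk1, hk2, List.getElem?_zip_eq_some]
      rw [h2]
      exact (repP_dbl (hP k hk)).mono (by omega)
  have hstart : dblS N (2 * N + 1) csl i (v, L) =
      (2 * v, (csl.zip L).map fun x => dblP N (2 * N + 1) (bitAt x.1 i) x.2) := rfl
  obtain ⟨v', L', h2, h3, h4⟩ := iter_ordS (hh := 2 * N + 1) hN (N + 1) N h1 (by omega)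
  refine ⟨v', L', by rw [phaseS, hstart, h2], h3, ?_⟩
  -- the constant term is nonsingular
  have hns : ncr p N d (ncArg L') = none := by
    rcases hs : ncr p N d (ncArg L') with _ | WU
    · rfl
    · exfalso
      rcases h4 with h4 | h4
      · rw [hs] at h4
        exact absurd h4 (by simp)
      · obtain ⟨v2, L2, _, h6, _, P2, hR2, _⟩ := ordS_some (hh := 2 * N + 1) hN h3 (by omega) hs
        have h7 := rel_le c Z M cs' (fun k => 2 * cs k + 1) v2 P2 hR2 (by
          intro k _
          have := hb k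
          simp only [hcs']
          omega)
        rw [ord_dbl c Z M cs v ho] at h7
        have h8 : d * v2 ≤ d * (N + 2 * v) := by exact_mod_cast h7
        have h9 := Nat.le_of_mul_le_mul_left h8 hd
        omega
  exact order_of_none hN hZ h3 hns

theorem bits_getD (i : ℕ) : ∀ c : ℕ, bitAt c i = c / 2 ^ i % 2 := by
  induction i with
  | zero =>
    intro c
    rw [bitAt, pow_zero, Nat.div_one]
    rcases Nat.eq_zero_or_pos c with rfl | hc
    · simp
    · have h1 : Nat.bit (decide (c % 2 = 1)) (c / 2) = c := by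
        rcases Nat.mod_two_eq_zero_or_one c with h | h
        · rw [h, show decide ((0 : ℕ) = 1) = false from rfl, Nat.bit_false]
          show 2 * (c / 2) = c
          omega
        · rw [h, show decide ((1 : ℕ) = 1) = true from rfl, Nat.bit_true]
          show 2 * (c / 2) + 1 = c
          omega
      have h2 : c.bits = decide (c % 2 = 1) :: (c / 2).bits := by
        conv_lhs => rw [← h1]
        rw [Nat.bits_append_bit]
        intro h4
        have : c = 1 := by omega
        subst this
        rfl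
      rw [h2, List.getD_cons_zero]
      rcases Nat.mod_two_eq_zero_or_one c with h | h <;> simp [h]
  | succ i ih =>
    intro c
    have h3 := ih (c / 2)
    rw [Nat.div_div_eq_div_mul, ← pow_succ'] at h3
    rw [← h3, bitAt, bitAt]
    rcases Nat.eq_zero_or_pos c with rfl | hc
    · simp
    · have h1 : Nat.bit (decide (c % 2 = 1)) (c / 2) = c := by
        rcases Nat.mod_two_eq_zero_or_one c with h | h
        · rw [h, show decide ((0 : ℕ) = 1) = false from rfl, Nat.bit_false]
          show 2 * (c / 2) = c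
          omega
        · rw [h, show decide ((1 : ℕ) = 1) = true from rfl, Nat.bit_true]
          show 2 * (c / 2) + 1 = c
          omega
      have h2 : c.bits = decide (c % 2 = 1) :: (c / 2).bits := by
        conv_lhs => rw [← h1]
        rw [Nat.bits_append_bit]
        intro h4
        have : c = 1 := by omega
        subst this
        rfl
      rw [h2, List.getD_cons_succ]

theorem div_pow_succ (c i : ℕ) : c / 2 ^ i = 2 * (c / 2 ^ (i + 1)) + bitAt c i := by
  rw [bits_getD, pow_succ, ← Nat.div_div_eq_div_mul]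
  omega

theorem div_nbits {csl : List ℕ} {c : ℕ} (h : c ∈ csl) : c / 2 ^ nbits csl = 0 := by
  have h1 : c.bits.length ≤ nbits csl := by
    rw [nbits]
    exact List.single_le_sum (fun _ _ => Nat.zero_le _) _
      (List.mem_map.2 ⟨c, h, rfl⟩)
  rw [Nat.size_eq_bits_len] at h1
  apply Nat.div_eq_of_lt
  exact (Nat.lt_size_self c).trans_le (Nat.pow_le_pow_right (by norm_num) h1)

/-- all phases -/
theorem phases_spec {d : ℕ} (hd : 0 < d) (hN : NcrSpec p N d) {F : Type} [Field F]
    [Algebra (ZMod p) F] {Z : ℕ → Matrix (Fin d) (Fin d) F} (hZ : Lin p Z) {c : ℕ}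
    {M : ℕ → Matrix (Fin N) (Fin N) (ZMod p)} (csl : List ℕ) (hcl : csl.length = c) :
    ∀ (B v : ℕ) (L : List PMat), PInv c M (fun k => csl.getD k 0 / 2 ^ B) (N + 1) v L →
      (bigS c Z M (fun k => csl.getD k 0 / 2 ^ B)).det.order = ((d * v : ℕ) : ℕ∞) →
      ∃ v' L', (List.range B).reverse.foldl (phaseS p N d (2 * N + 1) csl) (v, L) = (v', L') ∧
        (bigS c Z M (fun k => csl.getD k 0)).det.order = ((d * v' : ℕ) : ℕ∞)
  | 0, v, L, h, ho => ⟨v, L, rfl, by simpa using ho⟩
  | B + 1, v, L, h, ho => by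
    obtain ⟨v1, L1, h1, h2, h3⟩ := phase_spec hd hN hZ h ho csl hcl B
    have e : (fun k => 2 * (csl.getD k 0 / 2 ^ (B + 1)) + bitAt (csl.getD k 0) B) =
        fun k => csl.getD k 0 / 2 ^ B := by
      funext k
      exact (div_pow_succ _ _).symm
    rw [e] at h2 h3
    obtain ⟨v2, L2, h4, h5⟩ := phases_spec hd hN hZ csl hcl B v1 L1 h2 h3
    refine ⟨v2, L2, ?_, h5⟩
    rw [List.range_succ, List.reverse_append, List.reverse_singleton, List.singleton_append,
      List.foldl_cons, h1, h4]

theorem bigS_congr {F : Type} [Field F] [Algebra (ZMod p) F] {n c : ℕ}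
    (Z : ℕ → Matrix (Fin n) (Fin n) F) (M : ℕ → Matrix (Fin N) (Fin N) (ZMod p))
    {cs cs' : ℕ → ℕ} (h : ∀ k < c, cs k = cs' k) : bigS c Z M cs = bigS c Z M cs' := by
  funext x y
  rw [bigS, bigS]
  refine Finset.sum_congr rfl fun k hk => ?_
  rw [h k (Finset.mem_range.1 hk)]

/-- **`ordDet` is the order of the determinant** -/
theorem ordDet_some {d : ℕ} (hd : 0 < d) (hN : NcrSpec p N d) {F : Type} [Field F]
    [Algebra (ZMod p) F] {Z : ℕ → Matrix (Fin d) (Fin d) F} (hZ : Lin p Z)
    (Ms : List (List (List ℕ))) (csl : List ℕ) (hl : csl.length = Ms.length) {v : ℕ}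
    (h : ordDet p N d Ms csl = some v) :
    (bigS Ms.length Z (fun k => toM p N N (Ms.getD k [])) fun k => csl.getD k 0).det.order =
      ((d * v : ℕ) : ℕ∞) := by
  rcases hs : ncr p N d Ms with _ | WU
  · have h1 : ncArg (Ms.map fun M => [M]) = Ms := by
      rw [ncArg, List.map_map]
      conv_rhs => rw [← List.map_id Ms]
      rfl
    have h2 : PInv Ms.length (fun k => toM p N N (Ms.getD k [])) (fun _ => 0) (N + 1) 0
        (Ms.map fun M => [M]) := by
      refine ⟨by simp, _, rel_zero Ms.length _, ?_⟩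
      intro k hk
      rw [getD_map' _ _ hk [] []]
      exact repP_const N _ _
    have h3 := order_of_none hN hZ (pr := N) h2 (by rw [h1]; exact hs)
    have h4 : ∀ k < Ms.length, (fun _ : ℕ => 0) k = csl.getD k 0 / 2 ^ nbits csl := by
      intro k hk
      rw [div_nbits]
      rw [List.getD_eq_getElem _ _ (by omega)]
      exact List.getElem_mem _
    have h5 : PInv Ms.length (fun k => toM p N N (Ms.getD k []))
        (fun k => csl.getD k 0 / 2 ^ nbits csl) (N + 1) 0 (Ms.map fun M => [M]) := by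
      obtain ⟨a1, P, ⟨S, T, e, b1, b2, b3, b4⟩, a3⟩ := h2
      refine ⟨a1, P, ⟨S, T, e, b1, b2, b3, ?_⟩, a3⟩
      intro k hk
      have h6 := b4 k hk
      rw [h4 k hk] at h6
      exact h6
    rw [bigS_congr Z _ h4] at h3
    obtain ⟨v', L', h6, h7⟩ := phases_spec hd hN hZ csl hl (nbits csl) 0 _ h5 h3
    simp only [ordDet, hs, h6, Option.some.injEq] at h
    rw [← h]
    exact h7
  · simp [ordDet, hs] at h

/-- if the first rank computation finds a shrunk subspace the determinant is zero -/
theorem ordDet_none {d : ℕ} (hd : 0 < d) (hN : NcrSpec p N d) {F : Type} [Field F]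
    [Algebra (ZMod p) F] {Z : ℕ → Matrix (Fin d) (Fin d) F}
    (Ms : List (List (List ℕ))) (csl : List ℕ)
    (h : ordDet p N d Ms csl = none) (cs : ℕ → ℕ) :
    (bigS Ms.length Z (fun k => toM p N N (Ms.getD k [])) cs).det = 0 := by
  rcases hs : ncr p N d Ms with _ | WU
  · simp [ordDet, hs] at h
  · obtain ⟨hW, hU, hwu, hB⟩ := (hN Ms).2 WU.1 WU.2 hs
    set S := toM p N N (invL p N (transpL N N (extL p N WU.1))) with hS
    set T := toM p N N (transpL N N (extL p N WU.2)) with hT
    set w := WU.1.length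
    set u := WU.2.length
    set M : ℕ → Matrix (Fin N) (Fin N) (ZMod p) := fun k => toM p N N (Ms.getD k [])
    have h1 : Rel Ms.length M (fun _ => 0) (0 + (u - w))
        fun k => ascSer w u (bcS S T ((M k).map (PowerSeries.C (R := ZMod p)))) := by
      apply rel_asc Ms.length M _ 0 _ _ (rel_zero Ms.length M) S T
        (det_ne_of_isUnit (isUnit_inv_ext hW)) (det_ne_of_isUnit (isUnit_ext hU)) w u hwu.le
        (length_le_of_ind hU)
      intro k hk a b
      apply ascSer_eq
      intro a b ha hb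
      have h2 : cM 0 (bcS S T ((M k).map (PowerSeries.C (R := ZMod p)))) a b = 0 := by
        rw [cM_bcS]
        have h3 : cM 0 ((M k).map (PowerSeries.C (R := ZMod p))) = M k := by
          ext i j
          rw [cM_apply, Matrix.map_apply, PowerSeries.coeff_zero_C]
        rw [h3]
        exact zero_block hW hU (hB k hk) ha hb
      rw [← PowerSeries.coeff_zero_eq_constantCoeff_apply]
      exact h2
    have hz : ∀ k < Ms.length, ∀ a b : Fin N, w ≤ (a : ℕ) → (b : ℕ) < u →
        bcS S T ((M k).map (PowerSeries.C (R := ZMod p))) a b = 0 := by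
      intro k hk a b ha hb
      ext l
      have h2 : cM l (bcS S T ((M k).map (PowerSeries.C (R := ZMod p)))) a b = 0 := by
        rw [cM_bcS]
        rcases l with _ | l
        · have h3 : cM 0 ((M k).map (PowerSeries.C (R := ZMod p))) = M k := by
            ext i j
            rw [cM_apply, Matrix.map_apply, PowerSeries.coeff_zero_C]
          rw [h3]
          exact zero_block hW hU (hB k hk) ha hb
        · have h3 : cM (l + 1) ((M k).map (PowerSeries.C (R := ZMod p))) = 0 := by
            ext i j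
            rw [cM_apply, Matrix.map_apply, PowerSeries.coeff_succ_C]
            rfl
          rw [h3, Matrix.mul_zero, Matrix.zero_mul]
          rfl
      rw [map_zero]
      exact h2
    have key : ∀ m : ℕ, ∃ P : ℕ → Matrix (Fin N) (Fin N) (PowerSeries (ZMod p)),
        Rel Ms.length M (fun _ => 0) ((m + 1) * (u - w)) P ∧
        ∀ k < Ms.length, ∀ a b : Fin N, w ≤ (a : ℕ) → (b : ℕ) < u → P k a b = 0 := by
      intro m
      induction m with
      | zero =>
        refine ⟨_, by simpa using h1, ?_⟩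
        intro k hk a b ha hb
        rw [ascSer, if_pos ha, if_pos hb, hz k hk a b ha hb]
        ext l
        rw [PowerSeries.coeff_mk, map_zero, map_zero]
      | succ m ih =>
        obtain ⟨P, hR, hP⟩ := ih
        refine ⟨fun k => ascSer w u (P k), ?_, ?_⟩
        · have h4 := rel_asc Ms.length M _ _ P (fun k => ascSer w u (P k)) hR 1 1
            (by rw [Matrix.det_one]; exact one_ne_zero) (by rw [Matrix.det_one]; exact one_ne_zero)
            w u hwu.le (length_le_of_ind hU) (by
              intro k hk a b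
              have e1 : ((1 : Matrix (Fin N) (Fin N) (ZMod p)).map
                  (PowerSeries.C (R := ZMod p))) = 1 :=
                Matrix.map_one _ (map_zero _) (map_one _)
              rw [e1, Matrix.one_mul, Matrix.mul_one]
              apply ascSer_eq
              intro a b ha hb
              rw [hP k hk a b ha hb, map_zero])
          have e2 : (m + 1 + 1) * (u - w) = (m + 1) * (u - w) + (u - w) := by ring
          rw [e2]
          exact h4
        · intro k hk a b ha hb
          show ascSer w u (P k) a b = 0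
          rw [ascSer, if_pos ha, if_pos hb, hP k hk a b ha hb]
          ext l
          rw [PowerSeries.coeff_mk, map_zero, map_zero]
    rw [← PowerSeries.order_eq_top]
    by_contra hne
    obtain ⟨o, ho⟩ := ENat.ne_top_iff_exists.1 hne
    obtain ⟨P, hR, -⟩ := key o
    have h5 := rel_le Ms.length Z M (fun _ => 0) cs _ P hR (fun _ _ => Nat.zero_le _)
    rw [← ho] at h5
    have h6 : d * ((o + 1) * (u - w)) ≤ o := by exact_mod_cast h5
    have h7 : 1 ≤ u - w := by omega
    have h8 : (o + 1) * 1 ≤ (o + 1) * (u - w) := Nat.mul_le_mul_left _ h7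
    have h9 : 1 * ((o + 1) * (u - w)) ≤ d * ((o + 1) * (u - w)) := Nat.mul_le_mul_right _ hd
    omega

end

end Pool.Agent.RTB
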