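import Pool.Agent.RTB.GDefs
import Pool.Agent.RTB.OrdX

/-!
# RTB DELTA: `delta` computes the order of the determinant of the rows

`DeltaSpec` of `GDefs` from the specification of the rank algorithm (`NcrSpec`, used through `ordDet_some`,
`ordDet_none`) and the theorem on the linear matrix `lm` (hypothesis `SchSpec`, helper44).
-/

namespace Pool.Agent.RTB

variable {K F : Type} [DivisionRing K] [Field F]

/-- the vector of a row without its length -/
noncomputable def rowU (g : GD) (Y : ℕ → K) (r : Row) : Fin (1 + g.nd) → PowerSeries K :=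
  if r.1 then vec g.lg Y g.2.2.2 r.2.1 else fun f => if f.1 = r.2.2.2 then 1 else 0

theorem rowV_eq (g : GD) (Y : ℕ → K) (r : Row) (f : Fin (1 + g.nd)) :
    rowV g Y r f = PowerSeries.X ^ r.2.2.1 * rowU g Y r f := by
  unfold rowV rowU
  by_cases h : r.1 = true
  · rw [if_pos h, if_pos h]; rfl
  · rw [if_neg h, if_neg h]
    change (if (f : ℕ) = r.2.2.2 then (PowerSeries.X ^ r.2.2.1 : PowerSeries K) else 0) =
      PowerSeries.X ^ r.2.2.1 * (if (f : ℕ) = r.2.2.2 then 1 else 0)
    split_ifs <;> simp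

theorem sum_len (g : GD) (B : List Row) (hB : B.length = g.np) :
    ∑ i : Fin (1 + g.nd), (gR B i).2.2.1 = (B.map fun r => r.2.2.1).sum := by
  have hB' : B.length = 1 + g.nd := hB
  rw [← Fin.sum_univ_fun_getElem B (fun r => r.2.2.1)]
  refine Fintype.sum_equiv (finCongr hB').symm _ _ ?_
  intro i
  have : gR B i = B[((finCongr hB').symm i : Fin B.length)] := by
    have hi : (i : ℕ) < B.length := by omega
    simp [gR, List.getD_eq_getElem?_getD, List.getElem?_eq_getElem hi]
  rw [this]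
  rfl

theorem ordD_rowsM {n : ℕ} (hn : 0 < n) (φ : K →+* Matrix (Fin n) (Fin n) F) (g : GD) (Y : ℕ → K)
    (B : List Row) (hB : B.length = g.np) :
    ordD φ (rowsM g Y B) = ordD φ (fun i : Fin (1 + g.nd) => rowU g Y (gR B i)) +
      ((n * (B.map fun r => r.2.2.1).sum : ℕ) : ℕ∞) := by
  rw [← sum_len g B hB, ← ordD_diag φ hn]
  congr 1
  funext a b
  exact rowV_eq g Y (gR B a) b

/-- the theorem on the linear matrix of a family -/
def SchSpec {n : ℕ} (p : ℕ) [Algebra (ZMod p) F] (g : GD) (φ : K →+* Matrix (Fin n) (Fin n) F)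
    (Y : ℕ → K) : Prop :=
  ∀ B : List Row, B.length = g.np → (∀ r ∈ B, OkRow g r) →
    (bigS (1 + g.nd) (ZZ φ Y) (fun k => toM p g.sz g.sz ((lm p g B).getD k []))
      fun k => (lmc g).getD k 0).det.order = ordD φ (fun i : Fin (1 + g.nd) => rowU g Y (gR B i))

theorem length_lm (p : ℕ) (g : GD) (B : List Row) : (lm p g B).length = 1 + g.nd := by
  simp [lm, add_comm]

theorem length_lmc (p : ℕ) (g : GD) (B : List Row) : (lmc g).length = (lm p g B).length := by
  simp [lm, lmc]

theorem deltaSpec_of {p : ℕ} [Fact p.Prime] [Algebra (ZMod p) F] (g : GD) (hsz : 0 < g.sz)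
    (hN : NcrSpec p g.sz (2 * g.sz)) (φ : K →+* Matrix (Fin (2 * g.sz)) (Fin (2 * g.sz)) F)
    (Y : ℕ → K) (hY : Lin p (ZZ φ Y)) (hS : SchSpec p g φ Y) : DeltaSpec p g φ Y := by
  have hd : 0 < 2 * g.sz := by omega
  intro B hB hr
  have h1 := hS B hB hr
  rw [ordD_rowsM hd φ g Y B hB, ← h1]
  refine ⟨?_, ?_⟩
  · intro v hv
    unfold delta at hv
    obtain ⟨v', hv', rfl⟩ := Option.map_eq_some_iff.1 hv
    have h2 := ordDet_some hd hN hY (lm p g B) (lmc g) (length_lmc p g B) hv'
    rw [length_lm] at h2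
    rw [h2]
    push_cast
    ring
  · intro hv
    unfold delta at hv
    rw [Option.map_eq_none_iff] at hv
    have h2 := ordDet_none (F := F) (Z := ZZ φ Y) hd hN (lm p g B) (lmc g) hv
      (fun k => (lmc g).getD k 0)
    rw [length_lm] at h2
    rw [h2]
    simp

end Pool.Agent.RTB
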