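import Pool.Agent.RTB.Rho

/-!
# RTB DOM: linear relations between rows are inherited by extensions

All congruences are modulo `t ^ H`. Let `rowW X₀ l₀ = ∑ c_b rowW X_b l_b + (dummies)` (left linear
combination). Then (Z) `t ^ l₀ ρ_{X₀}(z) ≡ ∑ c_b t ^ l_b ρ_{X_b}(z)` for all `z`: the difference `D(z)`
satisfies `D(z) ≡ ∑_{hd q = z} D(tl q) x_q` by `rho_eq` (the constant terms and the `ν_q` cancel by the
coordinates `0` and `1 + q`), all `x_q` are multiples of `t` and `t` is central; so `t ^ k ∣ D` for all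
`k ≤ H` by induction on `k` (coefficientwise). `dom_ext`: let `D'(z)` be the same difference for
`q :: X₀` and `q :: X_b`. `ν_f(q :: X) = ν_f(X)` for `f ≠ q`, `ν_q(q :: X) = ρ_{q :: X}(tl q) x_q`,
so by `rho_eq` `D'(z) ≡ ∑_{hd f = z, f ≠ q} D'(tl f) x_f`, hence `D' ≡ 0`, hence the coordinates of the
new rows satisfy the same relation modulo `t ^ H` (times `t ^ len`).
`dom_coef`: immediate from (Z): a coefficient `c < H` of the right side is a sum of products.
-/

set_option autoImplicit false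

namespace Pool.Agent.RTB

variable {K : Type} [Ring K]

/-- the rows of a set of pairs `(X, l)` and the dummy rows -/
def rowsS (G : LG) (Y : ℕ → K) (s H : ℕ) (W : Set (List ℕ × ℕ)) :
    Set (Fin (1 + G.D) → PowerSeries K) :=
  {v | (∃ x ∈ W, v = rowW G Y s x.1 x.2) ∨ ∃ j, v = rowD G K H j}

/-- all coefficients below `k` vanish -/
private def Zk (k : ℕ) (f : PowerSeries K) : Prop := ∀ m, m < k → PowerSeries.coeff m f = 0

private theorem Zk.mono {k k' : ℕ} (h : k' ≤ k) {f : PowerSeries K} (hf : Zk k f) : Zk k' f :=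
  fun m hm => hf m (lt_of_lt_of_le hm h)

private theorem Zk.zero {k : ℕ} : Zk k (0 : PowerSeries K) := fun m _ => by simp

private theorem Zk.add {k : ℕ} {f g : PowerSeries K} (hf : Zk k f) (hg : Zk k g) : Zk k (f + g) :=
  fun m hm => by rw [map_add, hf m hm, hg m hm, add_zero]

private theorem Zk.sub {k : ℕ} {f g : PowerSeries K} (hf : Zk k f) (hg : Zk k g) : Zk k (f - g) :=
  fun m hm => by rw [map_sub, hf m hm, hg m hm, sub_zero]

private theorem Zk.sum {k : ℕ} {α : Type} {S : Finset α} {f : α → PowerSeries K}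
    (hf : ∀ a ∈ S, Zk k (f a)) : Zk k (∑ a ∈ S, f a) :=
  fun m hm => by rw [map_sum]; exact Finset.sum_eq_zero fun a ha => hf a ha m hm

private theorem Zk.xmul {k l : ℕ} {f : PowerSeries K} (hf : Zk k f) :
    Zk k (PowerSeries.X ^ l * f) := fun m hm => by
  rw [PowerSeries.coeff_X_pow_mul']
  split_ifs with h
  · exact hf _ (by omega)
  · rfl

private theorem Zk.mulx {k : ℕ} {f g : PowerSeries K} (hf : Zk k f) (hg : Zk 1 g) :
    Zk (k + 1) (f * g) := fun m hm => by
  rw [PowerSeries.coeff_mul]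
  refine Finset.sum_eq_zero fun x hx => ?_
  rw [Finset.HasAntidiagonal.mem_antidiagonal] at hx
  by_cases h : x.1 < k
  · rw [hf _ h, zero_mul]
  · rw [hg x.2 (by omega), mul_zero]

private theorem xt_Zk (G : LG) (hG : G.Pos) (Y : ℕ → K) {q : ℕ} (hq : q < G.D) :
    Zk 1 (xt G Y q) := fun m hm => by
  have := hG q hq
  rw [xt, PowerSeries.coeff_monomial, if_neg (by omega)]

/-- the induction -/
private theorem ind_Zk (G : LG) (hG : G.Pos) (Y : ℕ → K) (H : ℕ) (r : ℕ → PowerSeries K)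
    (h : ∀ z, ∃ e, Zk H e ∧ ∃ S : Finset ℕ, (∀ q ∈ S, q < G.D) ∧
      r z = e + ∑ q ∈ S, r (G.tl q) * xt G Y q) (z : ℕ) : Zk H (r z) := by
  have key : ∀ k, k ≤ H → ∀ z, Zk k (r z) := by
    intro k
    induction k with
    | zero => intro _ z m hm; omega
    | succ k ih =>
      intro hk z
      obtain ⟨e, he, S, hS, hr⟩ := h z
      rw [hr]
      exact (he.mono hk).add (Zk.sum fun q hq => (ih (by omega) _).mulx (xt_Zk G hG Y (hS q hq)))
  exact key H le_rfl z

/-- linear combination of the series `ρ` -/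
private noncomputable def Lr (G : LG) (Y : ℕ → K) (s : ℕ) (a : (List ℕ × ℕ) →₀ PowerSeries K)
    (z : ℕ) : PowerSeries K := a.sum fun x c => c * (PowerSeries.X ^ x.2 * rho G Y s x.1 z)

/-- linear combination of the coordinates `ν` -/
private noncomputable def Ln (G : LG) (Y : ℕ → K) (s : ℕ) (a : (List ℕ × ℕ) →₀ PowerSeries K)
    (q : ℕ) : PowerSeries K := a.sum fun x c => c * (PowerSeries.X ^ x.2 * nu G Y s x.1 q)

/-- linear combination of the first coordinates -/
private noncomputable def L0 (a : (List ℕ × ℕ) →₀ PowerSeries K) : PowerSeries K :=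
  a.sum fun x c => c * PowerSeries.X ^ x.2

private theorem Lr_eq (G : LG) (hG : G.Pos) (Y : ℕ → K) (s : ℕ)
    (a : (List ℕ × ℕ) →₀ PowerSeries K) (z : ℕ) :
    Lr G Y s a z = (if z = s then L0 a else 0) + ∑ q ∈ Finset.range G.D,
      if G.hd q = z then Lr G Y s a (G.tl q) * xt G Y q - Ln G Y s a q else 0 := by
  have h1 : ∀ q, (if G.hd q = z then Lr G Y s a (G.tl q) * xt G Y q - Ln G Y s a q else 0) =
      a.sum fun x c => c * (PowerSeries.X ^ x.2 * if G.hd q = z then
        rho G Y s x.1 (G.tl q) * xt G Y q - nu G Y s x.1 q else 0) := by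
    intro q
    split_ifs with h
    · rw [Lr, Ln, Finsupp.sum, Finsupp.sum, Finsupp.sum, Finset.sum_mul, ← Finset.sum_sub_distrib]
      refine Finset.sum_congr rfl fun x _ => ?_
      rw [mul_sub, mul_sub, mul_assoc, mul_assoc]
    · simp [Finsupp.sum]
  have h2 : (if z = s then L0 a else 0) = a.sum fun x c =>
      c * (PowerSeries.X ^ x.2 * if z = s then 1 else 0) := by
    split_ifs with h
    · simp [L0]
    · simp [Finsupp.sum]
  rw [h2, Finset.sum_congr rfl fun q _ => h1 q, Lr]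
  simp only [Finsupp.sum]
  rw [Finset.sum_comm, ← Finset.sum_add_distrib]
  refine Finset.sum_congr rfl fun x _ => ?_
  rw [rho_eq G hG Y s x.1 z, mul_add, mul_add, Finset.mul_sum, Finset.mul_sum]

private theorem Lr_Zk (G : LG) (hG : G.Pos) (Y : ℕ → K) (s H : ℕ)
    (a : (List ℕ × ℕ) →₀ PowerSeries K) (h0 : Zk H (L0 a))
    (h : ∀ q, q < G.D → Zk H (Ln G Y s a q)) (z : ℕ) : Zk H (Lr G Y s a z) := by
  refine ind_Zk G hG Y H (fun z => Lr G Y s a z) (fun z => ?_) z
  refine ⟨(if z = s then L0 a else 0) - ∑ q ∈ (Finset.range G.D).filter (fun q => G.hd q = z),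
    Ln G Y s a q, ?_, (Finset.range G.D).filter (fun q => G.hd q = z), ?_, ?_⟩
  · refine Zk.sub ?_ (Zk.sum fun q hq => h q ?_)
    · split_ifs
      · exact h0
      · exact Zk.zero
    · exact Finset.mem_range.1 (Finset.mem_filter.1 hq).1
  · intro q hq
    exact Finset.mem_range.1 (Finset.mem_filter.1 hq).1
  · show Lr G Y s a z = _
    rw [Lr_eq G hG, ← Finset.sum_filter, Finset.sum_sub_distrib]
    abel

/-- extension of a combination -/
private noncomputable def ex (q l : ℕ) (a : (List ℕ × ℕ) →₀ PowerSeries K) :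
    (List ℕ × ℕ) →₀ PowerSeries K := a.mapDomain fun x => (q :: x.1, x.2 + l)

private theorem ex_sum (q l : ℕ) (a : (List ℕ × ℕ) →₀ PowerSeries K)
    (g : (List ℕ × ℕ) → PowerSeries K) :
    ((ex q l a).sum fun x c => c * g x) = a.sum fun x c => c * g (q :: x.1, x.2 + l) := by
  rw [ex, Finsupp.sum_mapDomain_index]
  · intro _; rw [zero_mul]
  · intro _ _ _; rw [add_mul]

private theorem x_comm (l : ℕ) (c f : PowerSeries K) (n : ℕ) :
    c * (PowerSeries.X ^ (n + l) * f) = PowerSeries.X ^ l * (c * (PowerSeries.X ^ n * f)) := by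
  rw [pow_add, ← mul_assoc, ← mul_assoc, ← mul_assoc, ← mul_assoc]
  congr 1
  rw [(PowerSeries.commute_X_pow (c * PowerSeries.X ^ n) l).eq, ← mul_assoc]

private theorem ex_L0 (q l : ℕ) (a : (List ℕ × ℕ) →₀ PowerSeries K) :
    L0 (ex q l a) = PowerSeries.X ^ l * L0 a := by
  rw [L0, ex_sum q l a fun x => PowerSeries.X ^ x.2, L0, Finsupp.sum, Finsupp.sum, Finset.mul_sum]
  refine Finset.sum_congr rfl fun x _ => ?_
  have := x_comm l (a x) 1 x.2
  simpa using this

private theorem ex_Ln (G : LG) (Y : ℕ → K) (s : ℕ) (q l : ℕ) (a : (List ℕ × ℕ) →₀ PowerSeries K)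
    {f : ℕ} (hf : f ≠ q) : Ln G Y s (ex q l a) f = PowerSeries.X ^ l * Ln G Y s a f := by
  rw [Ln, ex_sum q l a fun x => PowerSeries.X ^ x.2 * nu G Y s x.1 f, Ln, Finsupp.sum, Finsupp.sum,
    Finset.mul_sum]
  refine Finset.sum_congr rfl fun x _ => ?_
  rw [nu_cons_ne G Y s x.1 hf.symm, x_comm]

private theorem ex_Lq (G : LG) (Y : ℕ → K) (s : ℕ) (q l : ℕ)
    (a : (List ℕ × ℕ) →₀ PowerSeries K) :
    Ln G Y s (ex q l a) q = Lr G Y s (ex q l a) (G.tl q) * xt G Y q := by
  rw [Ln, ex_sum q l a fun x => PowerSeries.X ^ x.2 * nu G Y s x.1 q, Lr,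
    ex_sum q l a fun x => PowerSeries.X ^ x.2 * rho G Y s x.1 (G.tl q), Finsupp.sum, Finsupp.sum,
    Finset.sum_mul]
  refine Finset.sum_congr rfl fun x _ => ?_
  rw [nu_self, mul_assoc, mul_assoc]

private theorem ex_Zk (G : LG) (hG : G.Pos) (Y : ℕ → K) (s H : ℕ) (q l : ℕ)
    (a : (List ℕ × ℕ) →₀ PowerSeries K) (h0 : Zk H (L0 a))
    (h : ∀ q, q < G.D → Zk H (Ln G Y s a q)) (z : ℕ) : Zk H (Lr G Y s (ex q l a) z) := by
  refine ind_Zk G hG Y H (fun z => Lr G Y s (ex q l a) z) (fun z => ?_) z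
  have hsub : ∀ f, f ∈ (Finset.range G.D).filter (fun f => G.hd f = z ∧ f ≠ q) →
      f < G.D ∧ f ≠ q := fun f hf =>
    ⟨Finset.mem_range.1 (Finset.mem_filter.1 hf).1, (Finset.mem_filter.1 hf).2.2⟩
  refine ⟨(if z = s then L0 (ex q l a) else 0) -
    ∑ f ∈ (Finset.range G.D).filter (fun f => G.hd f = z ∧ f ≠ q),
    Ln G Y s (ex q l a) f, ?_, (Finset.range G.D).filter (fun f => G.hd f = z ∧ f ≠ q), ?_, ?_⟩
  · refine Zk.sub ?_ (Zk.sum fun f hf => ?_)
    · split_ifs
      · rw [ex_L0]; exact h0.xmul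
      · exact Zk.zero
    · rw [ex_Ln G Y s q l a (hsub f hf).2]
      exact (h f (hsub f hf).1).xmul
  · exact fun f hf => (hsub f hf).1
  · show Lr G Y s (ex q l a) z = _
    rw [Lr_eq G hG]
    have h3 : ∑ f ∈ Finset.range G.D, (if G.hd f = z then
          Lr G Y s (ex q l a) (G.tl f) * xt G Y f - Ln G Y s (ex q l a) f else 0) =
        ∑ f ∈ (Finset.range G.D).filter (fun f => G.hd f = z ∧ f ≠ q),
          (Lr G Y s (ex q l a) (G.tl f) * xt G Y f - Ln G Y s (ex q l a) f) := by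
      rw [Finset.sum_filter]
      refine Finset.sum_congr rfl fun f _ => ?_
      by_cases hf : f = q
      · subst hf
        rw [ex_Lq, sub_self]
        simp
      · simp [hf]
    rw [h3, Finset.sum_sub_distrib]
    abel

/-- linear combination -/
private noncomputable def TT (g : (List ℕ × ℕ) → PowerSeries K)
    (a : (List ℕ × ℕ) →₀ PowerSeries K) : PowerSeries K := a.sum fun x c => c * g x

private theorem TT_sub (g : (List ℕ × ℕ) → PowerSeries K) (a b : (List ℕ × ℕ) →₀ PowerSeries K) :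
    TT g (a - b) = TT g a - TT g b := by
  unfold TT
  rw [Finsupp.sum_sub_index]
  intro _ _ _
  rw [sub_mul]

private theorem TT_add (g : (List ℕ × ℕ) → PowerSeries K) (a b : (List ℕ × ℕ) →₀ PowerSeries K) :
    TT g (a + b) = TT g a + TT g b := by
  unfold TT
  rw [Finsupp.sum_add_index']
  · intro _; rw [zero_mul]
  · intro _ _ _; rw [add_mul]

private theorem TT_smul (g : (List ℕ × ℕ) → PowerSeries K) (r : PowerSeries K)
    (a : (List ℕ × ℕ) →₀ PowerSeries K) : TT g (r • a) = r * TT g a := by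
  unfold TT
  rw [Finsupp.sum_smul_index]
  · rw [Finsupp.sum, Finsupp.sum, Finset.mul_sum]
    exact Finset.sum_congr rfl fun x _ => mul_assoc _ _ _
  · intro _; rw [zero_mul]

private theorem TT_single (g : (List ℕ × ℕ) → PowerSeries K) (x : List ℕ × ℕ) :
    TT g (Finsupp.single x 1) = g x := by
  unfold TT
  rw [Finsupp.sum_single_index]
  · rw [one_mul]
  · rw [zero_mul]

private theorem TT_zero (g : (List ℕ × ℕ) → PowerSeries K) : TT g 0 = 0 := by
  unfold TT
  exact Finsupp.sum_zero_index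

private theorem Zk.mull {k : ℕ} {f g : PowerSeries K} (hg : Zk k g) : Zk k (f * g) :=
    fun m hm => by
  rw [PowerSeries.coeff_mul]
  refine Finset.sum_eq_zero fun x hx => ?_
  rw [Finset.HasAntidiagonal.mem_antidiagonal] at hx
  rw [hg x.2 (by omega), mul_zero]

private theorem span_dec (G : LG) (Y : ℕ → K) (s H : ℕ) (W : Set (List ℕ × ℕ))
    (v : Fin (1 + G.D) → PowerSeries K)
    (h : v ∈ Submodule.span (PowerSeries K) (rowsS G Y s H W)) :
    ∃ c : (List ℕ × ℕ) →₀ PowerSeries K, (∀ x ∈ c.support, x ∈ W) ∧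
      ∀ f, Zk H (v f - TT (fun x => rowW G Y s x.1 x.2 f) c) := by
  classical
  induction h using Submodule.span_induction with
  | mem v hv =>
    rcases hv with ⟨x, hx, rfl⟩ | ⟨j, rfl⟩
    · refine ⟨Finsupp.single x 1, ?_, fun f => ?_⟩
      · intro y hy
        have := Finsupp.support_single_subset hy
        rw [Finset.mem_singleton] at this
        rw [this]; exact hx
      · rw [TT_single, sub_self]; exact Zk.zero
    · refine ⟨0, by simp, fun f => ?_⟩
      rw [TT_zero, sub_zero, rowD]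
      split_ifs
      · intro m hm
        rw [PowerSeries.coeff_X_pow, if_neg (by omega)]
      · exact Zk.zero
  | zero => exact ⟨0, by simp, fun f => by rw [TT_zero, Pi.zero_apply, sub_zero]; exact Zk.zero⟩
  | add v w _ _ ihv ihw =>
    obtain ⟨c, hc, hc'⟩ := ihv
    obtain ⟨d, hd, hd'⟩ := ihw
    refine ⟨c + d, ?_, fun f => ?_⟩
    · intro x hx
      rcases Finset.mem_union.1 (Finsupp.support_add hx) with h | h
      · exact hc x h
      · exact hd x h
    · have := (hc' f).add (hd' f)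
      rw [TT_add, Pi.add_apply]
      rw [show v f + w f - (TT (fun x => rowW G Y s x.1 x.2 f) c +
        TT (fun x => rowW G Y s x.1 x.2 f) d) = v f - TT (fun x => rowW G Y s x.1 x.2 f) c +
        (w f - TT (fun x => rowW G Y s x.1 x.2 f) d) by abel]
      exact this
  | smul r v _ ihv =>
    obtain ⟨c, hc, hc'⟩ := ihv
    refine ⟨r • c, ?_, fun f => ?_⟩
    · intro x hx
      exact hc x (Finsupp.support_smul hx)
    · rw [TT_smul, Pi.smul_apply, smul_eq_mul, ← mul_sub]
      exact (hc' f).mull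

private theorem span_of_Zk (G : LG) (Y : ℕ → K) (s H : ℕ) (W : Set (List ℕ × ℕ))
    (v : Fin (1 + G.D) → PowerSeries K) (h : ∀ f, Zk H (v f)) :
    v ∈ Submodule.span (PowerSeries K) (rowsS G Y s H W) := by
  have h1 : v = ∑ j : Fin (1 + G.D),
      (PowerSeries.mk fun n => PowerSeries.coeff (n + H) (v j)) • rowD G K H j.1 := by
    funext f
    rw [Finset.sum_apply, Finset.sum_eq_single f]
    · rw [Pi.smul_apply, rowD, if_pos rfl, smul_eq_mul]
      refine PowerSeries.ext fun m => ?_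
      rw [PowerSeries.coeff_mul_X_pow']
      split_ifs with hm
      · rw [PowerSeries.coeff_mk, Nat.sub_add_cancel hm]
      · exact h f m (by omega)
    · intro j _ hj
      rw [Pi.smul_apply, rowD, if_neg (fun e => hj (Fin.ext e.symm)), smul_zero]
    · intro hf; exact absurd (Finset.mem_univ _) hf
  rw [h1]
  exact Submodule.sum_mem _ fun j _ => Submodule.smul_mem _ _
    (Submodule.subset_span (Or.inr ⟨j.1, rfl⟩))

private theorem row_L0 (G : LG) (Y : ℕ → K) (s : ℕ) (a : (List ℕ × ℕ) →₀ PowerSeries K)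
    (f : Fin (1 + G.D)) (hf : f.1 = 0) : TT (fun x => rowW G Y s x.1 x.2 f) a = L0 a := by
  unfold TT L0 rowW vec
  simp only [hf, if_true, mul_one]

private theorem row_Ln (G : LG) (Y : ℕ → K) (s : ℕ) (a : (List ℕ × ℕ) →₀ PowerSeries K)
    (f : Fin (1 + G.D)) (hf : f.1 ≠ 0) :
    TT (fun x => rowW G Y s x.1 x.2 f) a = Ln G Y s a (f.1 - 1) := by
  unfold TT Ln rowW vec
  simp only [hf, if_false]

/-- the combination that vanishes -/
private theorem vanish (G : LG) (Y : ℕ → K) (s H : ℕ) (W : Set (List ℕ × ℕ))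
    (X₀ : List ℕ) (l₀ : ℕ)
    (h : rowW G Y s X₀ l₀ ∈ Submodule.span (PowerSeries K) (rowsS G Y s H W)) :
    ∃ c : (List ℕ × ℕ) →₀ PowerSeries K, (∀ x ∈ c.support, x ∈ W) ∧
      Zk H (L0 (Finsupp.single (X₀, l₀) 1 - c)) ∧
      ∀ q, q < G.D → Zk H (Ln G Y s (Finsupp.single (X₀, l₀) 1 - c) q) := by
  obtain ⟨c, hc, hv⟩ := span_dec G Y s H W _ h
  have h1 : ∀ f, Zk H (TT (fun x => rowW G Y s x.1 x.2 f) (Finsupp.single (X₀, l₀) 1 - c)) := by
    intro f
    rw [TT_sub, TT_single]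
    exact hv f
  refine ⟨c, hc, ?_, fun q hq => ?_⟩
  · have := h1 ⟨0, by omega⟩
    rwa [row_L0 G Y s _ _ rfl] at this
  · have := h1 ⟨1 + q, by omega⟩
    rw [row_Ln G Y s _ _ (by simp)] at this
    simpa using this

/-- extension by a letter -/
theorem dom_ext (G : LG) (hG : G.Pos) (Y : ℕ → K) (s H : ℕ) (W : Set (List ℕ × ℕ))
    (X₀ : List ℕ) (l₀ : ℕ) (h : rowW G Y s X₀ l₀ ∈ Submodule.span (PowerSeries K) (rowsS G Y s H W))
    (q l : ℕ) (hq : q < G.D) :
    rowW G Y s (q :: X₀) (l₀ + l) ∈ Submodule.span (PowerSeries K)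
      (rowsS G Y s H ((fun x => (q :: x.1, x.2 + l)) '' W)) := by
  obtain ⟨c, hc, h0, hn⟩ := vanish G Y s H W X₀ l₀ h
  set a := Finsupp.single (X₀, l₀) 1 - c with ha
  have hZ : ∀ f, Zk H (TT (fun x => rowW G Y s x.1 x.2 f) (ex q l a)) := by
    intro f
    by_cases hf : f.1 = 0
    · rw [row_L0 G Y s _ _ hf, ex_L0]
      exact h0.xmul
    · rw [row_Ln G Y s _ _ hf]
      have hf1 : f.1 - 1 < G.D := by have := f.2; omega
      by_cases hfq : f.1 - 1 = q
      · rw [hfq, ex_Lq]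
        exact ((ex_Zk G hG Y s H q l a h0 hn _).mulx (xt_Zk G hG Y hq)).mono (by omega)
      · rw [ex_Ln G Y s q l a hfq]
        exact (hn _ hf1).xmul
  have h2 : rowW G Y s (q :: X₀) (l₀ + l) =
      (fun f => TT (fun x => rowW G Y s x.1 x.2 f) (ex q l a)) +
      c.sum fun x r => r • rowW G Y s (q :: x.1) (x.2 + l) := by
    funext f
    rw [Pi.add_apply, Finsupp.sum, Finset.sum_apply]
    have h3 : TT (fun x => rowW G Y s x.1 x.2 f) (ex q l a) =
        TT (fun x => rowW G Y s (q :: x.1) (x.2 + l) f) a := by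
      unfold TT
      exact ex_sum q l a fun x => rowW G Y s x.1 x.2 f
    rw [h3, ha, TT_sub, TT_single, TT, Finsupp.sum]
    simp only [Pi.smul_apply, smul_eq_mul]
    abel
  rw [h2]
  refine Submodule.add_mem _ (span_of_Zk G Y s H _ _ hZ) ?_
  rw [Finsupp.sum]
  exact Submodule.sum_mem _ fun x hx => Submodule.smul_mem _ _
    (Submodule.subset_span (Or.inl ⟨_, ⟨x, hc x hx, rfl⟩, rfl⟩))

/-- extension without a new letter -/
theorem dom_arc (G : LG) (Y : ℕ → K) (s H : ℕ) (W : Set (List ℕ × ℕ))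
    (X₀ : List ℕ) (l₀ : ℕ) (h : rowW G Y s X₀ l₀ ∈ Submodule.span (PowerSeries K) (rowsS G Y s H W))
    (l : ℕ) :
    rowW G Y s X₀ (l₀ + l) ∈ Submodule.span (PowerSeries K)
      (rowsS G Y s H ((fun x => (x.1, x.2 + l)) '' W)) := by
  have hrow : ∀ X l₁, rowW G Y s X (l₁ + l) = (PowerSeries.X ^ l : PowerSeries K) •
      rowW G Y s X l₁ := by
    intro X l₁
    funext f
    rw [Pi.smul_apply, smul_eq_mul, rowW, rowW, ← mul_assoc, ← pow_add, add_comm]
  have key : ∀ v ∈ Submodule.span (PowerSeries K) (rowsS G Y s H W),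
      (PowerSeries.X ^ l : PowerSeries K) • v ∈ Submodule.span (PowerSeries K)
        (rowsS G Y s H ((fun x => (x.1, x.2 + l)) '' W)) := by
    intro v hv
    induction hv using Submodule.span_induction with
    | mem v hv =>
      rcases hv with ⟨x, hx, rfl⟩ | ⟨j, rfl⟩
      · rw [← hrow]
        exact Submodule.subset_span (Or.inl ⟨_, ⟨x, hx, rfl⟩, rfl⟩)
      · exact Submodule.smul_mem _ _ (Submodule.subset_span (Or.inr ⟨j, rfl⟩))
    | zero => rw [smul_zero]; exact Submodule.zero_mem _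
    | add v w _ _ ihv ihw => rw [smul_add]; exact Submodule.add_mem _ ihv ihw
    | smul r v _ ihv =>
      rw [smul_smul, ← (PowerSeries.commute_X_pow r l).eq, ← smul_smul]
      exact Submodule.smul_mem _ _ ihv
  rw [hrow]
  exact key _ h

/-- a nonzero coefficient of a dominated row is visible at a row of `W` -/
theorem dom_coef (G : LG) (hG : G.Pos) (Y : ℕ → K) (s H : ℕ) (W : Set (List ℕ × ℕ))
    (X₀ : List ℕ) (l₀ : ℕ) (h : rowW G Y s X₀ l₀ ∈ Submodule.span (PowerSeries K) (rowsS G Y s H W))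
    (z c : ℕ) (hc : l₀ + c < H) (hne : PowerSeries.coeff c (rho G Y s X₀ z) ≠ 0) :
    ∃ x ∈ W, ∃ c', x.2 + c' ≤ l₀ + c ∧ PowerSeries.coeff c' (rho G Y s x.1 z) ≠ 0 := by
  obtain ⟨a, ha, h0, hn⟩ := vanish G Y s H W X₀ l₀ h
  have h1 := Lr_Zk G hG Y s H _ h0 hn z (l₀ + c) hc
  have h2 : Lr G Y s (Finsupp.single (X₀, l₀) 1 - a) z =
      PowerSeries.X ^ l₀ * rho G Y s X₀ z -
        a.sum fun x r => r * (PowerSeries.X ^ x.2 * rho G Y s x.1 z) := by
    have := TT_sub (fun x => PowerSeries.X ^ x.2 * rho G Y s x.1 z) (Finsupp.single (X₀, l₀) 1) a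
    rw [TT_single] at this
    exact this
  rw [h2, map_sub, PowerSeries.coeff_X_pow_mul', if_pos (by omega), Nat.add_sub_cancel_left,
    sub_eq_zero] at h1
  rw [h1, Finsupp.sum, map_sum] at hne
  obtain ⟨x, hx, hx'⟩ := Finset.exists_ne_zero_of_sum_ne_zero hne
  rw [PowerSeries.coeff_mul] at hx'
  obtain ⟨y, hy, hy'⟩ := Finset.exists_ne_zero_of_sum_ne_zero hx'
  rw [Finset.HasAntidiagonal.mem_antidiagonal] at hy
  have h3 : PowerSeries.coeff y.2 (PowerSeries.X ^ x.2 * rho G Y s x.1 z) ≠ 0 := by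
    intro h; rw [h, mul_zero] at hy'; exact hy' rfl
  rw [PowerSeries.coeff_X_pow_mul'] at h3
  split_ifs at h3 with h4
  · exact ⟨x, ha x hx, y.2 - x.2, by omega, h3⟩
  · exact absurd rfl h3

end Pool.Agent.RTB
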