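import Pool.Agent.RTB.Phi

/-!
# RTB EXCH: the row whose removal gives the smallest determinant is a combination of the others

`R = K⟦t⟧` (noncommutative) is left Noetherian: every left ideal is generated by a power of `t` (every
nonzero element is `t ^ v` times a unit, `MvPowerSeries.invOfUnit`/`PowerSeries` versions for rings; `t`
is central), so `IsPrincipalIdealRing`, `IsNoetherianRing`, `StrongRankCondition`; hence
(`card_le_of_injective`) the `m + 1` rows `r_0, …, r_m ∈ R ^ m` satisfy a nontrivial relation
`∑ c_j r_j = 0`. Divide by a power of `t`: some `c_j` is a unit. Then row `j` is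
`- ∑_{k ≠ j} c_j⁻¹ c_k r_k`, so by `ordD_update` (and `ordD_perm`: the matrix without row `k` is, up to a
permutation of the rows, the matrix without row `j` in which row `k` is replaced by row `j`)
`δ_k = δ_j + n * order c_k` for all `k ≠ j`. For the minimal (finite) `δ_i`: `order c_i = 0`, so `c_i` is
a unit and `r_i` is a combination of the other rows.
-/

namespace Pool.Agent.RTB

variable {K F : Type} [DivisionRing K] [Field F] {n : ℕ}

/-- the matrix without row `i` -/
def delR {m : ℕ} (r : Fin (m + 1) → Fin m → PowerSeries K) (i : Fin (m + 1)) :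
    Matrix (Fin m) (Fin m) (PowerSeries K) := fun a => r (i.succAbove a)

namespace Exch

open PowerSeries

theorem isUnit_of_const {f : PowerSeries K} (h : constantCoeff f ≠ 0) : IsUnit f :=
  ⟨⟨f, invOfUnit f (Units.mk0 _ h), mul_invOfUnit f (Units.mk0 _ h) rfl,
    invOfUnit_mul f (Units.mk0 _ h) rfl⟩, rfl⟩

theorem order_zero_iff {f : PowerSeries K} : f.order = 0 ↔ constantCoeff f ≠ 0 := by
  rw [← not_iff_not, not_not]
  exact order_ne_zero_iff_constCoeff_eq_zero

theorem isUnit_iff {f : PowerSeries K} : IsUnit f ↔ f.order = 0 :=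
  ⟨order_zero_of_unit, fun h => isUnit_of_const (order_zero_iff.1 h)⟩

theorem order_unit_mul {u f : PowerSeries K} (hu : IsUnit u) : (u * f).order = f.order := by
  rw [order_mul, order_zero_of_unit hu, zero_add]

instance noeth : IsNoetherianRing (PowerSeries K) := by
  rw [isNoetherianRing_iff_ideal_fg]
  intro I
  by_cases hI : I = ⊥
  · rw [hI]
    exact Submodule.fg_bot
  · obtain ⟨f, hf, hf0⟩ := Submodule.exists_mem_ne_zero_of_ne_bot hI
    have hex : ∃ v : ℕ, ∃ f ∈ I, f ≠ 0 ∧ f.order = v :=
      ⟨f.order.toNat, f, hf, hf0, (coe_toNat_order hf0).symm⟩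
    classical
    obtain ⟨g, hg, hg0, hgv⟩ := Nat.find_spec hex
    have hmin := fun k (hk : k < Nat.find hex) => Nat.find_min hex hk
    set v := Nat.find hex with hv
    have hu : IsUnit (divXPowOrder g) :=
      isUnit_of_const (by
        intro h
        exact hg0 (constantCoeff_divXPowOrder_eq_zero_iff.1 h))
    have hgX : (X : PowerSeries K) ^ v ∈ I := by
      have h1 : g = (X : PowerSeries K) ^ v * divXPowOrder g := by
        conv_lhs => rw [← X_pow_order_mul_divXPowOrder (f := g)]
        rw [hgv, ENat.toNat_coe]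
      obtain ⟨u, hu⟩ := hu
      have h2 : (X : PowerSeries K) ^ v = (↑u⁻¹ : PowerSeries K) * g := by
        rw [h1, ← hu, (commute_X_pow (u : PowerSeries K) v).eq.symm, ← mul_assoc,
          Units.inv_mul, one_mul]
      rw [h2]
      exact I.smul_mem _ hg
    refine ⟨{(X : PowerSeries K) ^ v}, ?_⟩
    rw [Finset.coe_singleton]
    apply le_antisymm
    · rw [Submodule.span_le, Set.singleton_subset_iff]
      exact hgX
    · intro h hh
      rw [Submodule.mem_span_singleton]
      by_cases h0 : h = 0
      · exact ⟨0, by rw [h0, zero_smul]⟩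
      · have h3 : v ≤ h.order.toNat := by
          by_contra h4
          exact hmin _ (not_le.1 h4) ⟨h, hh, h0, (coe_toNat_order h0).symm⟩
        have h5 : (X : PowerSeries K) ^ v ∣ h := by
          refine dvd_trans (pow_dvd_pow _ h3) X_pow_order_dvd
        obtain ⟨k, hk⟩ := h5
        exact ⟨k, by rw [smul_eq_mul, hk, (commute_X_pow k v).eq]⟩

/-- a nontrivial relation with a unit coefficient -/
theorem relation {m : ℕ} (r : Fin (m + 1) → Fin m → PowerSeries K) :
    ∃ c : Fin (m + 1) → PowerSeries K, (∑ j, c j • r j = 0) ∧ ∃ j, IsUnit (c j) := by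
  have h1 : ¬ Function.Injective (Fintype.linearCombination (PowerSeries K) r) := by
    intro h
    have h2 := le_of_fin_injective (PowerSeries K) _ h
    omega
  obtain ⟨c, hc, hc0⟩ : ∃ c : Fin (m + 1) → PowerSeries K,
      Fintype.linearCombination (PowerSeries K) r c = 0 ∧ c ≠ 0 := by
    by_contra h
    push Not at h
    exact h1 ((injective_iff_map_eq_zero _).2 fun c hc => h c hc)
  rw [Fintype.linearCombination_apply] at hc
  obtain ⟨j0, hj0⟩ := Function.ne_iff.1 hc0
  obtain ⟨j, -, hj⟩ := Finset.exists_min_image Finset.univ (fun j => (c j).order) ⟨j0, by simp⟩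
  have hcj : c j ≠ 0 := by
    intro h
    have := hj j0 (Finset.mem_univ _)
    rw [h, order_zero, top_le_iff, order_eq_top] at this
    exact hj0 this
  set v := (c j).order.toNat with hv
  have hdvd : ∀ k, (X : PowerSeries K) ^ v ∣ c k := by
    intro k
    rw [X_pow_dvd_iff]
    intro i hi
    apply coeff_of_lt_order
    refine lt_of_lt_of_le ?_ (hj k (Finset.mem_univ _))
    rw [← coe_toNat_order hcj]
    exact_mod_cast hi
  choose d hd using hdvd
  refine ⟨d, ?_, j, ?_⟩
  · have h3 : (X : PowerSeries K) ^ v • ∑ k, d k • r k = 0 := by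
      rw [Finset.smul_sum, ← hc]
      refine Finset.sum_congr rfl fun k _ => ?_
      rw [smul_smul, ← hd]
    funext b
    have h4 := congrFun h3 b
    rw [Pi.smul_apply, smul_eq_mul, Pi.zero_apply] at h4
    have h5 : ((X : PowerSeries K) ^ v) ≠ 0 := by
      intro h6
      have := order_X_pow (R := K) v
      rw [h6, order_zero] at this
      exact ENat.coe_ne_top v this.symm
    exact (mul_eq_zero.1 h4).resolve_left h5
  · rw [isUnit_iff]
    have h6 := congrArg order (hd j)
    rw [order_mul, order_X_pow, ← coe_toNat_order hcj, ← hv] at h6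
    by_contra h7
    have h8 : (1 : ℕ∞) ≤ (d j).order := ENat.one_le_iff_ne_zero.2 h7
    have h9 : (v : ℕ∞) + 1 ≤ (v : ℕ∞) := by
      conv_rhs => rw [h6]
      exact add_le_add le_rfl h8
    have h10 : v + 1 ≤ v := by exact_mod_cast h9
    omega

/-- a row with unit coefficient is a combination of the others -/
theorem mem_span_of_unit {m : ℕ} {r : Fin (m + 1) → Fin m → PowerSeries K}
    {c : Fin (m + 1) → PowerSeries K} (hc : ∑ j, c j • r j = 0) {j : Fin (m + 1)}
    (hj : IsUnit (c j)) :
    ∃ d : Fin m → PowerSeries K, (r j = ∑ a, d a • r (j.succAbove a)) ∧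
      ∀ a, (d a).order = (c (j.succAbove a)).order := by
  obtain ⟨u, hu⟩ := hj
  refine ⟨fun a => -(↑u⁻¹ * c (j.succAbove a)), ?_, ?_⟩
  · rw [Fin.sum_univ_succAbove _ j, ← hu] at hc
    have h1 : (↑u : PowerSeries K) • r j = -∑ a, c (j.succAbove a) • r (j.succAbove a) :=
      eq_neg_of_add_eq_zero_left hc
    have h2 : r j = (↑u⁻¹ : PowerSeries K) • ((↑u : PowerSeries K) • r j) := by
      rw [smul_smul, Units.inv_mul, one_smul]
    rw [h2, h1, smul_neg, Finset.smul_sum, ← Finset.sum_neg_distrib]
    refine Finset.sum_congr rfl fun a _ => ?_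
    rw [neg_smul, smul_smul]
  · intro a
    rw [order_neg, order_unit_mul (Units.isUnit _)]

/-- comparison of the orders -/
theorem ordD_delR (hn : 0 < n) (φ : K →+* Matrix (Fin n) (Fin n) F) {m : ℕ}
    (r : Fin (m + 1) → Fin m → PowerSeries K) {j k : Fin (m + 1)} (hjk : k ≠ j)
    {c : Fin (m + 1) → PowerSeries K} (hc : ∑ j, c j • r j = 0) (hj : IsUnit (c j)) :
    ordD φ (delR r k) = ordD φ (delR r j) + n • (c k).order := by
  obtain ⟨d, hd, hdo⟩ := mem_span_of_unit hc hj
  obtain ⟨a, ha⟩ := Fin.exists_succAbove_eq hjk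
  have h1 := ordD_update φ hn (delR r j) a d
  rw [hdo a, ha] at h1
  rw [← h1]
  -- the updated matrix is a permutation of the matrix without row `k`
  let g : Fin m → Fin (m + 1) := fun a' => if a' = a then j else j.succAbove a'
  have hg : ∀ a', g a' ≠ k := by
    intro a' h
    by_cases h2 : a' = a
    · simp only [g, if_pos h2] at h
      exact hjk h.symm
    · simp only [g, if_neg h2] at h
      rw [← ha] at h
      exact h2 (Fin.succAbove_right_injective h)
  have hginj : Function.Injective g := by
    intro x y h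
    by_cases hx : x = a <;> by_cases hy : y = a
    · rw [hx, hy]
    · simp only [g, if_pos hx, if_neg hy] at h
      exact absurd h.symm (Fin.succAbove_ne j y)
    · simp only [g, if_pos hy, if_neg hx] at h
      exact absurd h (Fin.succAbove_ne j x)
    · simp only [g, if_neg hx, if_neg hy] at h
      exact Fin.succAbove_right_injective h
  choose e he using fun a' => Fin.exists_succAbove_eq (hg a')
  have heinj : Function.Injective e := by
    intro x y h
    apply hginj
    rw [← he x, ← he y, h]
  have hperm := ordD_perm φ (Equiv.ofBijective e (Finite.injective_iff_bijective.1 heinj))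
    (delR r k)
  rw [← hperm]
  congr 1
  funext a'
  show r (k.succAbove (e a')) = _
  rw [he a']
  by_cases h2 : a' = a
  · rw [h2, Matrix.updateRow_self]
    simp only [g, if_true]
    rw [hd]
    funext b
    rw [Finset.sum_apply]
    rfl
  · rw [Matrix.updateRow_ne h2]
    simp only [g, if_neg h2]
    rfl

end Exch

theorem exch (hn : 0 < n) (φ : K →+* Matrix (Fin n) (Fin n) F) {m : ℕ}
    (r : Fin (m + 1) → Fin m → PowerSeries K) (i : Fin (m + 1))
    (hmin : ∀ j, ordD φ (delR r i) ≤ ordD φ (delR r j)) (hfin : ordD φ (delR r i) ≠ ⊤) :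
    r i ∈ Submodule.span (PowerSeries K) (Set.range fun a => r (i.succAbove a)) := by
  obtain ⟨c, hc, j, hj⟩ := Exch.relation r
  have hi : IsUnit (c i) := by
    by_cases hij : i = j
    · rw [hij]
      exact hj
    · have h1 := Exch.ordD_delR hn φ r hij hc hj
      have h2 := hmin j
      rw [h1] at h2 hfin
      rw [Exch.isUnit_iff]
      by_contra h3
      have h4 : ordD φ (delR r j) ≠ ⊤ := fun h => hfin (by rw [h, top_add])
      have h5 : n • (c i).order = 0 := by
        have h6 : ordD φ (delR r j) + n • (c i).order ≤ ordD φ (delR r j) + 0 := by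
          rw [add_zero]
          exact h2
        exact le_zero_iff.1 ((ENat.add_le_add_iff_left h4).1 h6)
      rw [nsmul_eq_mul, mul_eq_zero] at h5
      rcases h5 with h5 | h5
      · have : n = 0 := by exact_mod_cast h5
        omega
      · exact h3 h5
  obtain ⟨d, hd, -⟩ := Exch.mem_span_of_unit hc hi
  rw [hd]
  exact Submodule.sum_mem _ fun a _ => Submodule.smul_mem _ _ (Submodule.subset_span ⟨a, rfl⟩)

end Pool.Agent.RTB
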