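import Pool.Agent.RTB.GDefs
import Pool.Agent.RTB.Exch

/-!
# RTB FAMS: correctness of the families of walks

`Inv g φ Y H r F`: every family `F_w` has `np` good rows with nonzero determinant, its path rows are real
walks `s → w` with at most `r` darts, and the rows of all walks `s → w` with at most `r` darts lie in the
span of its rows. `select_spec` is `exch`, `round_inv` uses `dom_ext` and `dom_arc`.
-/

namespace Pool.Agent.RTB

open PowerSeries

variable {K F : Type} [DivisionRing K] [Field F] {n : ℕ}

/-- the span of the rows of a list -/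
noncomputable def spanF (g : GD) (Y : ℕ → K) (B : List Row) :
    Submodule (PowerSeries K) (Fin (1 + g.nd) → PowerSeries K) :=
  Submodule.span (PowerSeries K) {v | ∃ r ∈ B, v = rowV g Y r}

theorem mem_spanF {g : GD} {Y : ℕ → K} {B : List Row} {r : Row} (h : r ∈ B) :
    rowV g Y r ∈ spanF g Y B := Submodule.subset_span ⟨r, h, rfl⟩

theorem spanF_le {g : GD} {Y : ℕ → K} {B B' : List Row}
    (h : ∀ r ∈ B, rowV g Y r ∈ spanF g Y B') : spanF g Y B ≤ spanF g Y B' := by
  refine Submodule.span_le.2 ?_
  rintro v ⟨r, hr, rfl⟩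
  exact h r hr

/-! ### select -/

theorem gR_eraseIdx {m : ℕ} (C : List Row) (i : Fin (m + 1)) (a : Fin m) :
    gR (C.eraseIdx i) a = gR C (i.succAbove a) := by
  unfold gR
  have ha := a.2
  have hi := i.2
  rw [List.getD_eq_getElem?_getD, List.getD_eq_getElem?_getD, List.getElem?_eraseIdx]
  by_cases h : (a : ℕ) < i
  · rw [if_pos h, Fin.succAbove_of_castSucc_lt _ _ (by simpa [Fin.lt_def] using h)]
    simp
  · rw [if_neg h, Fin.succAbove_of_le_castSucc _ _ (by simpa [Fin.le_def] using Nat.le_of_not_lt h)]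
    simp

theorem gR_mem {C : List Row} {i : ℕ} (h : i < C.length) : gR C i ∈ C := by
  unfold gR
  rw [List.getD_eq_getElem?_getD, List.getElem?_eq_getElem h]
  simp

theorem exists_gR {C : List Row} {r : Row} (h : r ∈ C) : ∃ i, i < C.length ∧ gR C i = r := by
  obtain ⟨i, hi, h⟩ := List.mem_iff_getElem.1 h
  refine ⟨i, hi, ?_⟩
  unfold gR
  rw [List.getD_eq_getElem?_getD, List.getElem?_eq_getElem hi]
  simpa using h

/-- the result of the fold of `better` -/
theorem fold_better (f : ℕ → Option (ℕ × List Row)) (l : List ℕ) (acc : Option (ℕ × List Row)) :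
    (l.foldl (fun acc i => better acc (f i)) acc = none ↔ acc = none ∧ ∀ i ∈ l, f i = none) ∧
    ∀ x, l.foldl (fun acc i => better acc (f i)) acc = some x →
      (acc = some x ∨ ∃ i ∈ l, f i = some x) ∧ (∀ y, acc = some y → x.1 ≤ y.1) ∧
        ∀ i ∈ l, ∀ y, f i = some y → x.1 ≤ y.1 := by
  induction l generalizing acc with
  | nil =>
    refine ⟨by simp, ?_⟩
    intro x hx
    simp only [List.foldl_nil] at hx
    refine ⟨Or.inl hx, ?_, by simp⟩
    intro y hy
    rw [hx] at hy
    cases hy
    exact le_refl _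
  | cons a l ih =>
    obtain ⟨h1, h2⟩ := ih (better acc (f a))
    have hb : better acc (f a) = none ↔ acc = none ∧ f a = none := by
      unfold better
      cases acc with
      | none => simp
      | some u =>
        cases h : f a with
        | none => simp
        | some v =>
          by_cases hv : v.1 < u.1 <;> simp [hv]
    have hb2 : ∀ x, better acc (f a) = some x → (acc = some x ∨ f a = some x) ∧
        (∀ y, acc = some y → x.1 ≤ y.1) ∧ ∀ y, f a = some y → x.1 ≤ y.1 := by
      intro x hx
      unfold better at hx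
      cases hacc : acc with
      | none =>
        rw [hacc] at hx
        simp only at hx
        refine ⟨Or.inr hx, by simp, ?_⟩
        intro y hy
        rw [hx] at hy
        cases hy
        exact le_refl _
      | some u =>
        cases hf : f a with
        | none =>
          rw [hacc, hf] at hx
          simp only at hx
          cases hx
          refine ⟨Or.inl rfl, ?_, by simp⟩
          intro y hy
          cases hy
          exact le_refl _
        | some v =>
          rw [hacc, hf] at hx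
          simp only at hx
          by_cases hv : v.1 < u.1
          · rw [if_pos hv] at hx
            cases hx
            refine ⟨Or.inr rfl, ?_, ?_⟩
            · intro y hy
              cases hy
              exact le_of_lt hv
            · intro y hy
              cases hy
              exact le_refl _
          · rw [if_neg hv] at hx
            cases hx
            refine ⟨Or.inl rfl, ?_, ?_⟩
            · intro y hy
              cases hy
              exact le_refl _
            · intro y hy
              cases hy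
              exact Nat.le_of_not_lt hv
    refine ⟨?_, ?_⟩
    · rw [List.foldl_cons, h1, hb]
      simp only [List.mem_cons, forall_eq_or_imp]
      tauto
    · intro x hx
      rw [List.foldl_cons] at hx
      obtain ⟨h3, h4, h5⟩ := h2 x hx
      have h6 : ∀ y, better acc (f a) = some y → x.1 ≤ y.1 := h4
      cases hba : better acc (f a) with
      | none =>
        obtain ⟨ha1, ha2⟩ := hb.1 hba
        refine ⟨?_, ?_, ?_⟩
        · rcases h3 with h3 | ⟨i, hi, h3⟩
          · rw [hba] at h3
            exact absurd h3 (by simp)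
          · exact Or.inr ⟨i, List.mem_cons_of_mem _ hi, h3⟩
        · intro y hy
          rw [ha1] at hy
          exact absurd hy (by simp)
        · intro i hi y hy
          rcases List.mem_cons.1 hi with hi | hi
          · subst hi
            rw [ha2] at hy
            exact absurd hy (by simp)
          · exact h5 i hi y hy
      | some z =>
        obtain ⟨hz1, hz2, hz3⟩ := hb2 z hba
        have hxz := h6 z hba
        refine ⟨?_, ?_, ?_⟩
        · rcases h3 with h3 | ⟨i, hi, h3⟩
          · rw [hba] at h3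
            cases h3
            rcases hz1 with hz1 | hz1
            · exact Or.inl hz1
            · exact Or.inr ⟨a, by simp, hz1⟩
          · exact Or.inr ⟨i, List.mem_cons_of_mem _ hi, h3⟩
        · intro y hy
          exact le_trans hxz (hz2 y hy)
        · intro i hi y hy
          rcases List.mem_cons.1 hi with hi | hi
          · subst hi
            exact le_trans hxz (hz3 y hy)
          · exact h5 i hi y hy

theorem select_spec (hn : 0 < n) (p : ℕ) (g : GD) (φ : K →+* Matrix (Fin n) (Fin n) F) (Y : ℕ → K)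
    (hδ : DeltaSpec p g φ Y) (B : List Row) (r : Row) (hB : B.length = g.np)
    (hok : ∀ x ∈ B, OkRow g x) (hr : OkRow g r) (hfin : ordD φ (rowsM g Y B) ≠ ⊤) :
    (select p g B r).length = g.np ∧ (∀ x ∈ select p g B r, x ∈ B ∨ x = r) ∧
      ordD φ (rowsM g Y (select p g B r)) ≠ ⊤ ∧ rowV g Y r ∈ spanF g Y (select p g B r) ∧
      spanF g Y B ≤ spanF g Y (select p g B r) := by
  set C := B ++ [r] with hC
  have hCl : C.length = g.np + 1 := by simp [hC, hB]
  have hokC : ∀ x ∈ C, OkRow g x := by
    intro x hx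
    rcases List.mem_append.1 hx with hx | hx
    · exact hok x hx
    · rw [List.mem_singleton.1 hx]
      exact hr
  have hel : ∀ i, i < g.np + 1 → (C.eraseIdx i).length = g.np := by
    intro i hi
    rw [List.length_eraseIdx_of_lt (by omega), hCl]
    rfl
  have hoke : ∀ i, ∀ x ∈ C.eraseIdx i, OkRow g x := fun i x hx =>
    hokC x (List.mem_of_mem_eraseIdx hx)
  have hCB : C.eraseIdx g.np = B := by
    rw [hC, ← hB]
    simp [List.eraseIdx_append_of_length_le]
  -- the fold
  obtain ⟨h1, h2⟩ := fold_better (cand p g C) (List.range (g.np + 1)) none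
  have hcandB : ∃ v, cand p g C g.np = some (v, B) := by
    unfold cand
    rw [hCB]
    cases hd : delta p g B with
    | none => exact absurd ((hδ B hB hok).2 hd) hfin
    | some v => exact ⟨v, rfl⟩
  obtain ⟨v₀, hv₀⟩ := hcandB
  cases hfold : (List.range (g.np + 1)).foldl (fun acc i => better acc (cand p g C i)) none with
  | none =>
    have := (h1.1 hfold).2 g.np (List.mem_range.2 (by omega))
    rw [hv₀] at this
    exact absurd this (by simp)
  | some x =>
    obtain ⟨h3, -, h5⟩ := h2 x hfold
    have hsel : select p g B r = x.2 := by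
      unfold select
      rw [← hC, hfold]
      rfl
    rcases h3 with h3 | ⟨i, hi, h3⟩
    · exact absurd h3 (by simp)
    have hi' : i < g.np + 1 := List.mem_range.1 hi
    -- x = (v, C.eraseIdx i)
    have hx : delta p g (C.eraseIdx i) = some x.1 ∧ x.2 = C.eraseIdx i := by
      unfold cand at h3
      cases hd : delta p g (C.eraseIdx i) with
      | none =>
        rw [hd] at h3
        exact absurd h3 (by simp)
      | some v =>
        rw [hd] at h3
        simp only [Option.map_some, Option.some.injEq] at h3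
        rw [← h3]
        exact ⟨rfl, rfl⟩
    obtain ⟨hx1, hx2⟩ := hx
    rw [hsel, hx2]
    have hord : ordD φ (rowsM g Y (C.eraseIdx i)) = ((n * x.1 : ℕ) : ℕ∞) :=
      (hδ _ (hel i hi') (hoke i)).1 _ hx1
    -- exchange
    have hnp : g.np = 1 + g.nd := rfl
    have hi2 : i < 1 + g.nd + 1 := hi'
    let rr' : Fin (1 + g.nd + 1) → Fin (1 + g.nd) → PowerSeries K := fun k => rowV g Y (gR C k)
    have hdel : ∀ k : Fin (1 + g.nd + 1), delR rr' k = rowsM g Y (C.eraseIdx k) := by
      intro k
      funext a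
      change rowV g Y (gR C (k.succAbove a)) = rowV g Y (gR (C.eraseIdx k) a)
      rw [gR_eraseIdx C k a]
    have hdi : delR rr' ⟨i, hi2⟩ = rowsM g Y (C.eraseIdx i) := hdel ⟨i, hi2⟩
    have hex : rr' ⟨i, hi2⟩ ∈ Submodule.span (PowerSeries K)
        (Set.range fun a => rr' ((⟨i, hi2⟩ : Fin (1 + g.nd + 1)).succAbove a)) := by
      refine exch hn φ rr' ⟨i, hi2⟩ ?_ ?_
      · intro k
        rw [hdi, hord, hdel k]
        cases hd : delta p g (C.eraseIdx k) with
        | none =>
          rw [(hδ _ (hel k k.2) (hoke k)).2 hd]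
          exact le_top
        | some v =>
          rw [(hδ _ (hel k k.2) (hoke k)).1 v hd]
          have h6 := h5 k (List.mem_range.2 k.2) (v, C.eraseIdx k) (by
            unfold cand
            rw [hd]
            rfl)
          exact_mod_cast Nat.mul_le_mul_left n h6
      · rw [hdi, hord]
        exact ENat.natCast_ne_top _
    -- every row of C is in the span
    have hall : ∀ k, k < C.length → rowV g Y (gR C k) ∈ spanF g Y (C.eraseIdx i) := by
      intro k hk
      by_cases hki : k = i
      · subst hki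
        refine Submodule.span_mono ?_ hex
        rintro v ⟨a, rfl⟩
        refine ⟨gR (C.eraseIdx k) a, gR_mem (by rw [hel k hi']; exact a.2), ?_⟩
        have h8 := gR_eraseIdx C ⟨k, hi2⟩ a
        change gR (C.eraseIdx k) a = _ at h8
        rw [h8]
      · have hk' : k < 1 + g.nd + 1 := by omega
        obtain ⟨a, ha⟩ := Fin.exists_succAbove_eq (x := (⟨k, hk'⟩ : Fin (1 + g.nd + 1)))
          (y := ⟨i, hi2⟩) (by intro h; exact hki (congrArg Fin.val h))
        have h7 := gR_eraseIdx C ⟨i, hi2⟩ a
        rw [ha] at h7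
        change gR (C.eraseIdx i) a = gR C k at h7
        rw [← h7]
        exact mem_spanF (gR_mem (by rw [hel i hi']; exact a.2))
    have hall' : ∀ y ∈ C, rowV g Y y ∈ spanF g Y (C.eraseIdx i) := by
      intro y hy
      obtain ⟨k, hk, rfl⟩ := exists_gR hy
      exact hall k hk
    refine ⟨hel i hi', ?_, by rw [hord]; exact ENat.natCast_ne_top _, hall' r (by simp [hC]), ?_⟩
    · intro y hy
      have := List.mem_of_mem_eraseIdx hy
      rcases List.mem_append.1 this with h | h
      · exact Or.inl h
      · exact Or.inr (List.mem_singleton.1 h)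
    · exact spanF_le fun y hy => hall' y (by simp [hC, hy])

/-- many insertions -/
theorem selects_spec (hn : 0 < n) (p : ℕ) (g : GD) (φ : K →+* Matrix (Fin n) (Fin n) F) (Y : ℕ → K)
    (hδ : DeltaSpec p g φ Y) (R : List Row) (B : List Row) (hB : B.length = g.np)
    (hok : ∀ x ∈ B, OkRow g x) (hR : ∀ x ∈ R, OkRow g x) (hfin : ordD φ (rowsM g Y B) ≠ ⊤) :
    (R.foldl (select p g) B).length = g.np ∧ (∀ x ∈ R.foldl (select p g) B, x ∈ B ∨ x ∈ R) ∧
      ordD φ (rowsM g Y (R.foldl (select p g) B)) ≠ ⊤ ∧
      (∀ x ∈ R, rowV g Y x ∈ spanF g Y (R.foldl (select p g) B)) ∧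
      spanF g Y B ≤ spanF g Y (R.foldl (select p g) B) := by
  induction R generalizing B with
  | nil => exact ⟨hB, fun x hx => Or.inl hx, hfin, by simp, le_refl _⟩
  | cons r R ih =>
    obtain ⟨h1, h2, h3, h4, h5⟩ := select_spec hn p g φ Y hδ B r hB hok (hR r (by simp)) hfin
    have hok' : ∀ x ∈ select p g B r, OkRow g x := by
      intro x hx
      rcases h2 x hx with h | h
      · exact hok x h
      · rw [h]
        exact hR r (by simp)
    obtain ⟨k1, k2, k3, k4, k5⟩ := ih (select p g B r) h1 hok' (fun x hx => hR x (by simp [hx])) h3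
    rw [List.foldl_cons]
    refine ⟨k1, ?_, k3, ?_, le_trans h5 k5⟩
    · intro x hx
      rcases k2 x hx with h | h
      · rcases h2 x h with h | h
        · exact Or.inl h
        · exact Or.inr (by simp [h])
      · exact Or.inr (by simp [h])
    · intro x hx
      rcases List.mem_cons.1 hx with h | h
      · rw [h]
        exact k5 h4
      · exact k4 x h

/-! ### walks and forbidden letters -/

theorem fams_walk_concat (G : LG) (a b : ℕ) (P : List ℕ) (q : ℕ) :
    G.IsWalk a (P ++ [q]) b ↔ G.IsWalk a P (G.hd q) ∧ q < G.D ∧ G.tl q = b := by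
  induction P generalizing a with
  | nil =>
    simp only [List.nil_append, LG.IsWalk]
    constructor
    · rintro ⟨h1, h2, h3⟩
      exact ⟨h2.symm, h1, h3⟩
    · rintro ⟨h1, h2, h3⟩
      exact ⟨h2, h1.symm, h3⟩
  | cons d P ih =>
    simp only [List.cons_append, LG.IsWalk, ih]
    tauto

theorem fams_cost_concat (G : LG) (P : List ℕ) (q : ℕ) :
    G.cost (P ++ [q]) = G.cost P + G.len q := by
  simp [LG.cost]

theorem fams_walk_lt (G : LG) (a b : ℕ) (P : List ℕ) (h : G.IsWalk a P b) : ∀ q ∈ P, q < G.D := by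
  induction P generalizing a with
  | nil => simp
  | cons d P ih =>
    intro q hq
    rcases List.mem_cons.1 hq with hq | hq
    · rw [hq]
      exact h.1
    · exact ih _ h.2.2 q hq

theorem confl_length (g : GD) (q : ℕ) : (confl g q).length ≤ 1 := by
  unfold confl
  split_ifs <;> simp

theorem confl_lt {g : GD} (hg : g.Ok) {q : ℕ} (hq : q < g.nd) : ∀ x ∈ confl g q, x < g.nd := by
  intro x hx
  have h1 := hg.1
  unfold confl at hx
  split_ifs at hx with h2 h3
  · simp at hx
  · rw [List.mem_singleton.1 hx]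
    omega
  · rw [List.mem_singleton.1 hx]
    omega

theorem confl_cases (g : GD) (q : ℕ) : confl g q = [] ∨ ∃ x, confl g q = [x] := by
  unfold confl
  split_ifs
  · exact Or.inl rfl
  · exact Or.inr ⟨_, rfl⟩
  · exact Or.inr ⟨_, rfl⟩

theorem forbL_lt {g : GD} (hg : g.Ok) {P : List ℕ} (hP : ∀ q ∈ P, q < g.nd) :
    ∀ x ∈ forbL g P, x < g.nd := by
  intro x hx
  unfold forbL at hx
  obtain ⟨q, hq, hx⟩ := List.mem_flatMap.1 hx
  exact confl_lt hg (hP q (List.mem_reverse.1 hq)) x hx

theorem forbL_length (g : GD) (P : List ℕ) : (forbL g P).length ≤ P.length := by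
  induction P using List.reverseRecOn with
  | nil => simp [forbL]
  | append_singleton P q ih =>
    rw [forbL_append, List.length_append, List.length_append]
    have := confl_length g q
    simp only [List.length_singleton]
    omega

theorem fams_getD_map_range {α : Type} (f : ℕ → α) (m w : ℕ) (d : α) (h : w < m) :
    ((List.range m).map f).getD w d = f w := by
  rw [List.getD_eq_getElem?_getD, List.getElem?_map, List.getElem?_range h]
  rfl

theorem mem_exts {g : GD} {F : List (List Row)} {w : ℕ} {x : Row} :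
    x ∈ exts g F w ↔ ∃ q, q < g.nd ∧ g.tl q = w ∧ ∃ r ∈ F.getD (g.hd q) [], r.1 = true ∧
      x = extR g q r := by
  unfold exts
  simp only [List.mem_flatMap, List.mem_filter, List.mem_range, decide_eq_true_eq, List.mem_map]
  constructor
  · rintro ⟨q, ⟨h1, h2⟩, r, ⟨h3, h4⟩, h5⟩
    exact ⟨q, h1, h2, r, h3, h4, h5.symm⟩
  · rintro ⟨q, h1, h2, r, h3, h4, h5⟩
    exact ⟨q, ⟨h1, h2⟩, r, ⟨h3, h4⟩, h5.symm⟩

/-! ### the invariant -/

/-- the invariant of the family at the vertex `w` after `k` rounds -/
structure FamInv (g : GD) (φ : K →+* Matrix (Fin n) (Fin n) F) (Y : ℕ → K) (H k w : ℕ)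
    (B : List Row) : Prop where
  /-- length -/
  len : B.length = g.np
  /-- dummy indices -/
  ok : ∀ x ∈ B, x.2.2.2 < g.np
  /-- nonzero determinant -/
  fin : ordD φ (rowsM g Y B) ≠ ⊤
  /-- path rows are walks -/
  wlk : ∀ x ∈ B, x.1 = true → ∃ P, g.lg.IsWalk g.2.2.2 P w ∧ P.length ≤ k ∧
    x.2.1 = forbL g P ∧ x.2.2.1 = g.lg.cost P
  /-- dummies -/
  dumr : ∀ x ∈ B, x.1 = false → x.2.1 = [] ∧ x.2.2.1 = H
  /-- the dummies are in the span -/
  dum : ∀ j, rowD g.lg K H j ∈ spanF g Y B
  /-- the walks are in the span -/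
  wal : ∀ P, g.lg.IsWalk g.2.2.2 P w → P.length ≤ k →
    rowW g.lg Y g.2.2.2 (forbL g P) (g.lg.cost P) ∈ spanF g Y B

variable {φ : K →+* Matrix (Fin n) (Fin n) F} {Y : ℕ → K} {g : GD} {H : ℕ}

theorem FamInv.okRow (hg : g.Ok) {k w : ℕ} {B : List Row} (h : FamInv g φ Y H k w B)
    (hk : k ≤ g.nd) : ∀ x ∈ B, OkRow g x := by
  intro x hx
  cases hx1 : x.1 with
  | true =>
    obtain ⟨P, h1, h2, h3, -⟩ := h.wlk x hx hx1
    refine ⟨?_, ?_, h.ok x hx⟩
    · rw [h3]
      exact forbL_lt hg (fams_walk_lt g.lg _ _ P h1)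
    · rw [h3]
      exact le_trans (forbL_length g P) (le_trans h2 hk)
  | false =>
    obtain ⟨h1, -⟩ := h.dumr x hx hx1
    refine ⟨?_, ?_, h.ok x hx⟩
    · rw [h1]
      simp
    · rw [h1]
      simp

/-- the span of a family is contained in the span of `rowsS` -/
theorem FamInv.span_le {k w : ℕ} {B : List Row} (h : FamInv g φ Y H k w B) :
    spanF g Y B ≤ Submodule.span (PowerSeries K) (rowsS g.lg Y g.2.2.2 H
      {y | ∃ x ∈ B, x.1 = true ∧ y = (x.2.1, x.2.2.1)}) := by
  refine Submodule.span_mono ?_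
  rintro v ⟨x, hx, rfl⟩
  cases hx1 : x.1 with
  | true =>
    left
    refine ⟨(x.2.1, x.2.2.1), ⟨x, hx, hx1, rfl⟩, ?_⟩
    simp [rowV, hx1]
  | false =>
    right
    refine ⟨x.2.2.2, ?_⟩
    rw [rowV, hx1, (h.dumr x hx hx1).2]
    simp

theorem rowD_big (j : ℕ) (hj : g.np ≤ j) : rowD g.lg K H j = 0 := by
  funext f
  have := f.2
  have h2 : g.np = 1 + g.lg.D := rfl
  simp only [rowD, Pi.zero_apply]
  rw [if_neg (by omega)]

theorem rowV_dummy (j : ℕ) : rowV g Y (false, ([], (H, j))) = rowD g.lg K H j := by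
  simp [rowV]

/-- the dummy family -/
theorem dummies_inv (hn : 0 < n) (w : ℕ) (hw : w ≠ g.2.2.2) :
    FamInv g φ Y H 0 w (dummies g H) := by
  have hmem : ∀ x ∈ dummies g H, ∃ j, j < g.np ∧ x = (false, ([], (H, j))) := by
    intro x hx
    unfold dummies at hx
    obtain ⟨j, hj, rfl⟩ := List.mem_map.1 hx
    exact ⟨j, List.mem_range.1 hj, rfl⟩
  have hgR : ∀ j, j < g.np → gR (dummies g H) j = (false, ([], (H, j))) := by
    intro j hj
    unfold gR dummies
    rw [fams_getD_map_range _ _ _ _ hj]
  refine ⟨by simp [dummies], ?_, ?_, ?_, ?_, ?_, ?_⟩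
  · intro x hx
    obtain ⟨j, hj, rfl⟩ := hmem x hx
    exact hj
  · have h1 : rowsM g Y (dummies g H) = fun a b => PowerSeries.X ^ H *
        (1 : Matrix (Fin (1 + g.nd)) (Fin (1 + g.nd)) (PowerSeries K)) a b := by
      funext a b
      have ha : (a : ℕ) < g.np := a.2
      change rowV g Y (gR (dummies g H) a) b = _
      rw [hgR a ha, rowV_dummy]
      simp only [rowD, Matrix.one_apply]
      by_cases hab : a = b
      · subst hab
        simp
      · rw [if_neg (fun h => hab (Fin.ext h.symm)), if_neg hab, mul_zero]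
    rw [h1, ordD_diag φ hn (fun _ => H)]
    have h2 : ordD φ (1 : Matrix (Fin (1 + g.nd)) (Fin (1 + g.nd)) (PowerSeries K)) = 0 := by
      unfold ordD
      rw [phM_one, Matrix.det_one]
      exact PowerSeries.order_one
    rw [h2, zero_add]
    exact ENat.natCast_ne_top _
  · intro x hx hx1
    obtain ⟨j, -, rfl⟩ := hmem x hx
    exact absurd hx1 (by simp)
  · intro x hx _
    obtain ⟨j, -, rfl⟩ := hmem x hx
    exact ⟨rfl, rfl⟩
  · intro j
    by_cases hj : j < g.np
    · rw [← rowV_dummy (Y := Y)]
      refine mem_spanF ?_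
      unfold dummies
      exact List.mem_map.2 ⟨j, List.mem_range.2 hj, rfl⟩
    · rw [rowD_big j (Nat.le_of_not_lt hj)]
      exact Submodule.zero_mem _
  · intro P hP hl
    have : P = [] := List.length_eq_zero_iff.1 (Nat.le_zero.1 hl)
    subst this
    exact absurd hP.symm hw

/-- the dummy family at `s`, except for the empty walk -/
theorem dummies_inv' (hn : 0 < n) :
    (dummies g H).length = g.np ∧ (∀ x ∈ dummies g H, OkRow g x) ∧
      ordD φ (rowsM g Y (dummies g H)) ≠ ⊤ ∧
      (∀ x ∈ dummies g H, x.1 = false ∧ x.2.1 = [] ∧ x.2.2.1 = H ∧ x.2.2.2 < g.np) ∧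
      (∀ j, rowD g.lg K H j ∈ spanF g Y (dummies g H)) := by
  have h := dummies_inv (φ := φ) (Y := Y) (g := g) (H := H) hn (g.2.2.2 + 1) (Nat.succ_ne_self _)
  have hmem : ∀ x ∈ dummies g H, x.1 = false ∧ x.2.1 = [] ∧ x.2.2.1 = H ∧ x.2.2.2 < g.np := by
    intro x hx
    unfold dummies at hx
    obtain ⟨j, hj, rfl⟩ := List.mem_map.1 hx
    exact ⟨rfl, rfl, rfl, List.mem_range.1 hj⟩
  refine ⟨h.len, ?_, h.fin, hmem, h.dum⟩
  intro x hx
  obtain ⟨-, h2, -, h4⟩ := hmem x hx
  refine ⟨?_, ?_, h4⟩
  · rw [h2]
    simp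
  · rw [h2]
    simp

theorem init_inv (hn : 0 < n) {p : ℕ} (hδ : DeltaSpec p g φ Y) (w : ℕ) (hw : w < g.nv) :
    FamInv g φ Y H 0 w ((initF p g H).getD w []) := by
  unfold initF
  rw [fams_getD_map_range _ _ _ _ hw]
  by_cases hws : w = g.2.2.2
  · rw [if_pos hws]
    obtain ⟨d1, d2, d3, d4, d5⟩ := dummies_inv' (φ := φ) (Y := Y) (g := g) (H := H) hn
    have hr : OkRow g (true, ([], (0, 0))) := by
      refine ⟨by simp, by simp, ?_⟩
      change 0 < 1 + g.1.length
      omega
    obtain ⟨h1, h2, h3, h4, h5⟩ := select_spec hn p g φ Y hδ (dummies g H) (true, ([], (0, 0)))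
      d1 d2 hr d3
    refine ⟨h1, ?_, h3, ?_, ?_, fun j => h5 (d5 j), ?_⟩
    · intro x hx
      rcases h2 x hx with h | h
      · exact (d4 x h).2.2.2
      · rw [h]
        exact hr.2.2
    · intro x hx hx1
      rcases h2 x hx with h | h
      · rw [(d4 x h).1] at hx1
        exact absurd hx1 (by simp)
      · refine ⟨[], hws.symm, by simp, ?_, ?_⟩
        · rw [h]
          rfl
        · rw [h]
          rfl
    · intro x hx hx1
      rcases h2 x hx with h | h
      · exact ⟨(d4 x h).2.1, (d4 x h).2.2.1⟩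
      · rw [h] at hx1
        exact absurd hx1 (by simp)
    · intro P hP hl
      have : P = [] := List.length_eq_zero_iff.1 (Nat.le_zero.1 hl)
      subst this
      have h6 : rowV g Y (true, ([], (0, 0))) = rowW g.lg Y g.2.2.2 [] 0 := by
        simp [rowV]
      rw [h6] at h4
      exact h4
  · rw [if_neg hws]
    exact dummies_inv hn w hws

theorem round_inv (hn : 0 < n) (hg : g.Ok) {p : ℕ} (hδ : DeltaSpec p g φ Y) {k : ℕ}
    (hk : k + 1 ≤ g.nd) (Fs : List (List Row))
    (hF : ∀ w, w < g.nv → FamInv g φ Y H k w (Fs.getD w [])) (w : ℕ) (hw : w < g.nv) :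
    FamInv g φ Y H (k + 1) w ((roundF p g Fs).getD w []) := by
  unfold roundF
  rw [fams_getD_map_range _ _ _ _ hw]
  unfold newFam
  have hold := hF w hw
  -- the extensions
  have hext : ∀ x ∈ exts g Fs w, x.1 = true ∧ x.2.2.2 < g.np ∧
      ∃ P, g.lg.IsWalk g.2.2.2 P w ∧ P.length ≤ k + 1 ∧ x.2.1 = forbL g P ∧
        x.2.2.1 = g.lg.cost P := by
    intro x hx
    obtain ⟨q, hq, hqw, r, hr, hr1, rfl⟩ := mem_exts.1 hx
    have hh := (hg.2 q hq).1
    have hf := hF _ hh
    obtain ⟨P, h1, h2, h3, h4⟩ := hf.wlk r hr hr1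
    refine ⟨hr1, hf.ok r hr, P ++ [q], ?_, ?_, ?_, ?_⟩
    · rw [fams_walk_concat]
      exact ⟨h1, hq, hqw⟩
    · rw [List.length_append, List.length_singleton]
      omega
    · rw [forbL_append, ← h3]
      rfl
    · rw [fams_cost_concat, ← h4]
      rfl
  have hokx : ∀ x ∈ exts g Fs w, OkRow g x := by
    intro x hx
    obtain ⟨-, h1, P, h2, h3, h4, -⟩ := hext x hx
    refine ⟨?_, ?_, h1⟩
    · rw [h4]
      exact forbL_lt hg (fams_walk_lt g.lg _ _ P h2)
    · rw [h4]
      exact le_trans (forbL_length g P) (le_trans h3 hk)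
  obtain ⟨s1, s2, s3, s4, s5⟩ := selects_spec hn p g φ Y hδ (exts g Fs w) (Fs.getD w []) hold.len
    (hold.okRow hg (by omega)) hokx hold.fin
  have hdum : ∀ j, rowD g.lg K H j ∈
      spanF g Y ((exts g Fs w).foldl (select p g) (Fs.getD w [])) := fun j => s5 (hold.dum j)
  refine ⟨s1, ?_, s3, ?_, ?_, hdum, ?_⟩
  · intro x hx
    rcases s2 x hx with h | h
    · exact hold.ok x h
    · exact (hext x h).2.1
  · intro x hx hx1
    rcases s2 x hx with h | h
    · obtain ⟨P, h1, h2, h3, h4⟩ := hold.wlk x h hx1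
      exact ⟨P, h1, by omega, h3, h4⟩
    · exact (hext x h).2.2
  · intro x hx hx1
    rcases s2 x hx with h | h
    · exact hold.dumr x h hx1
    · rw [(hext x h).1] at hx1
      exact absurd hx1 (by simp)
  · intro P hP hl
    by_cases hPk : P.length ≤ k
    · exact s5 (hold.wal P hP hPk)
    · -- the last dart
      have hne : P ≠ [] := by
        rintro rfl
        simp at hPk
      obtain ⟨P', q, rfl⟩ : ∃ P' q, P = P' ++ [q] :=
        ⟨P.dropLast, P.getLast hne, (List.dropLast_append_getLast hne).symm⟩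
      rw [fams_walk_concat] at hP
      obtain ⟨hP', hq, hqw⟩ := hP
      have hh := (hg.2 q hq).1
      have hf := hF _ hh
      rw [List.length_append, List.length_singleton] at hl
      have h1 := hf.span_le (hf.wal P' hP' (by omega))
      have hle : Submodule.span (PowerSeries K) (rowsS g.lg Y g.2.2.2 H
          ((fun x => (confl g q ++ x.1, x.2 + g.lg.len q)) ''
            {y | ∃ x ∈ Fs.getD (g.hd q) [], x.1 = true ∧ y = (x.2.1, x.2.2.1)})) ≤
          spanF g Y ((exts g Fs w).foldl (select p g) (Fs.getD w [])) := by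
        refine Submodule.span_le.2 ?_
        rintro v (⟨y, ⟨y', ⟨x, hx, hx1, rfl⟩, rfl⟩, rfl⟩ | ⟨j, rfl⟩)
        · have h2 : extR g q x ∈ exts g Fs w := mem_exts.2 ⟨q, hq, hqw, x, hx, hx1, rfl⟩
          have h3 := s4 _ h2
          have h4 : rowV g Y (extR g q x) =
              rowW g.lg Y g.2.2.2 (confl g q ++ x.2.1) (x.2.2.1 + g.lg.len q) := by
            unfold rowV extR
            simp only [hx1, if_true]
            rfl
          rw [h4] at h3
          exact h3
        · exact hdum j
      rw [forbL_append, fams_cost_concat]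
      have hpos : g.lg.Pos := fun q hq => (hg.2 q hq).2.2
      rcases confl_cases g q with hc | ⟨x, hc⟩
      · rw [hc, List.nil_append]
        refine hle ?_
        rw [hc]
        exact dom_arc g.lg Y g.2.2.2 H _ _ _ h1 (g.lg.len q)
      · have hx : x < g.lg.D := confl_lt hg hq x (by rw [hc]; simp)
        rw [hc]
        refine hle ?_
        rw [hc]
        exact dom_ext g.lg hpos Y g.2.2.2 H _ _ _ h1 x (g.lg.len q) hx

theorem fin_inv (hn : 0 < n) (hg : g.Ok) {p : ℕ} (hδ : DeltaSpec p g φ Y) (w : ℕ)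
    (hw : w < g.nv) : FamInv g φ Y H g.nd w ((finF p g H).getD w []) := by
  have key : ∀ k, k ≤ g.nd → ∀ w, w < g.nv → FamInv g φ Y H k w
      (((List.range k).foldl (fun F _ => roundF p g F) (initF p g H)).getD w []) := by
    intro k
    induction k with
    | zero =>
      intro _ w hw
      exact init_inv hn hδ w hw
    | succ k ih =>
      intro hk w hw
      rw [List.range_succ, List.foldl_append]
      exact round_inv hn hg hδ hk _ (ih (by omega)) w hw
  exact key g.nd (le_refl _) w hw

/-- correctness of the final families -/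
theorem finF_spec (hn : 0 < n) (p : ℕ) (g : GD) (hg : g.Ok) (φ : K →+* Matrix (Fin n) (Fin n) F)
    (Y : ℕ → K) (hδ : DeltaSpec p g φ Y) (H w : ℕ) (hw : w < g.nv) :
    (∀ x ∈ (finF p g H).getD w [], x.1 = true → ∃ P, g.lg.IsWalk g.2.2.2 P w ∧
      P.length ≤ g.nd ∧ x.2.1 = forbL g P ∧ x.2.2.1 = g.lg.cost P) ∧
    ∀ P, g.lg.IsWalk g.2.2.2 P w → P.length ≤ g.nd →
      rowW g.lg Y g.2.2.2 (forbL g P) (g.lg.cost P) ∈ Submodule.span (PowerSeries K)
        (rowsS g.lg Y g.2.2.2 H
          {y | ∃ x ∈ (finF p g H).getD w [], x.1 = true ∧ y = (x.2.1, x.2.2.1)}) := by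
  have h := fin_inv (H := H) hn hg hδ w hw
  exact ⟨h.wlk, fun P hP hl => h.span_le (h.wal P hP hl)⟩

end Pool.Agent.RTB
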