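import Mathlib

/-!
# RTB PHI: matrices over `K⟦t⟧`, `K` a division ring embedded into the matrices over a field `F`

`phM φ` is a ring homomorphism from matrices over `K⟦t⟧` to matrices over `F⟦t⟧` (blocks of size `n`).
`ordD φ M` is the order of the determinant of `phM φ M`. Key fact `ordD_single`: for `f ≠ 0` of order `v`
write `f = t ^ v * g` with constant coefficient `g₀ ≠ 0`; `φ g₀` is invertible (a ring homomorphism from a
division ring), so `det (phS φ g)` has constant coefficient `det (φ g₀) ≠ 0`.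
`ordD_update`: `M' = T * M` where `T` is the identity matrix with row `i` replaced by `c`; `T` is (after
removing row and column `i`) unitriangular up to a permutation: `det (phM φ T) = det (phS φ (c i))`.
-/

namespace Pool.Agent.RTB

variable {K F : Type} [DivisionRing K] [Field F] {n : ℕ}

/-- `K⟦t⟧ → M_n(F⟦t⟧)` -/
noncomputable def phS (φ : K →+* Matrix (Fin n) (Fin n) F) (f : PowerSeries K) :
    Matrix (Fin n) (Fin n) (PowerSeries F) :=
  fun a b => PowerSeries.mk fun k => φ (PowerSeries.coeff k f) a b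

/-- matrices over `K⟦t⟧` to matrices over `F⟦t⟧` -/
noncomputable def phM {ι κ : Type} (φ : K →+* Matrix (Fin n) (Fin n) F)
    (M : Matrix ι κ (PowerSeries K)) : Matrix (ι × Fin n) (κ × Fin n) (PowerSeries F) :=
  fun x y => phS φ (M x.1 y.1) x.2 y.2

/-- the order of the determinant -/
noncomputable def ordD {ι : Type} [Fintype ι] [DecidableEq ι] (φ : K →+* Matrix (Fin n) (Fin n) F)
    (M : Matrix ι ι (PowerSeries K)) : ℕ∞ :=
  PowerSeries.order (phM φ M).det

variable (φ : K →+* Matrix (Fin n) (Fin n) F)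

theorem phS_add (f g : PowerSeries K) : phS φ (f + g) = phS φ f + phS φ g := by
  ext a b k
  simp [phS]

theorem phS_mul (f g : PowerSeries K) : phS φ (f * g) = phS φ f * phS φ g := by
  ext a b k
  simp only [phS, PowerSeries.coeff_mk, Matrix.mul_apply, map_sum, PowerSeries.coeff_mul,
    map_mul, Matrix.sum_apply]
  rw [Finset.sum_comm]

theorem phS_one : phS φ 1 = 1 := by
  ext a b k
  simp only [phS, PowerSeries.coeff_mk, PowerSeries.coeff_one]
  by_cases hk : k = 0
  · subst hk
    by_cases hab : a = b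
    · subst hab; simp
    · simp [hab]
  · by_cases hab : a = b
    · subst hab; simp [hk, PowerSeries.coeff_one]
    · simp [hab, hk]

theorem phS_zero : phS φ 0 = 0 := by
  ext a b k
  simp [phS]

theorem phS_neg (f : PowerSeries K) : phS φ (-f) = -phS φ f := by
  ext a b k
  simp [phS]

theorem phS_monomial (k : ℕ) (y : K) :
    phS φ (PowerSeries.monomial k y) = fun a b => PowerSeries.monomial k (φ y a b) := by
  ext a b j
  simp only [phS, PowerSeries.coeff_mk, PowerSeries.coeff_monomial]
  by_cases h : j = k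
  · simp [h]
  · simp [h]

/-- `phS φ` of a power of `t` -/
theorem phS_X_pow (k : ℕ) :
    phS φ (PowerSeries.X ^ k) = Matrix.scalar (Fin n) (PowerSeries.X ^ k : PowerSeries F) := by
  ext a b j
  simp only [phS, PowerSeries.coeff_mk, PowerSeries.coeff_X_pow, Matrix.scalar_apply,
    Matrix.diagonal_apply]
  by_cases h : j = k
  · by_cases hab : a = b
    · simp [h, hab]
    · simp [h, hab]
  · by_cases hab : a = b
    · simp [h, hab, PowerSeries.coeff_X_pow]
    · simp [h, hab]

theorem phM_mul {ι κ μ : Type} [Fintype κ] (M : Matrix ι κ (PowerSeries K))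
    (N : Matrix κ μ (PowerSeries K)) : phM φ (M * N) = phM φ M * phM φ N := by
  have hs : ∀ (s : Finset κ) (g : κ → PowerSeries K),
      phS φ (∑ j ∈ s, g j) = ∑ j ∈ s, phS φ (g j) := by
    intro s g
    classical
    induction s using Finset.induction_on with
    | empty => simp [phS_zero]
    | insert a s ha ih => rw [Finset.sum_insert ha, Finset.sum_insert ha, phS_add, ih]
  ext x y : 1
  change phS φ ((M * N) x.1 y.1) x.2 y.2 = _
  rw [Matrix.mul_apply, hs, Matrix.sum_apply, Matrix.mul_apply, Fintype.sum_prod_type]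
  apply Finset.sum_congr rfl
  intro j _
  rw [phS_mul, Matrix.mul_apply]
  rfl

theorem phM_one {ι : Type} [DecidableEq ι] :
    phM φ (1 : Matrix ι ι (PowerSeries K)) = 1 := by
  ext x y : 1
  change phS φ ((1 : Matrix ι ι (PowerSeries K)) x.1 y.1) x.2 y.2 = _
  rw [Matrix.one_apply, Matrix.one_apply]
  by_cases h : x.1 = y.1
  · rw [if_pos h, phS_one, Matrix.one_apply]
    by_cases h2 : x.2 = y.2
    · rw [if_pos h2, if_pos (Prod.ext h h2)]
    · rw [if_neg h2, if_neg (fun h3 => h2 (by rw [h3]))]
  · rw [if_neg h, phS_zero, if_neg (fun h3 => h (by rw [h3]))]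
    rfl

theorem ordD_mul {ι : Type} [Fintype ι] [DecidableEq ι] (M N : Matrix ι ι (PowerSeries K)) :
    ordD φ (M * N) = ordD φ M + ordD φ N := by
  unfold ordD
  rw [phM_mul, Matrix.det_mul, PowerSeries.order_mul]

/-- order of the determinant of a scalar -/
theorem ordD_single (hn : 0 < n) (f : PowerSeries K) :
    PowerSeries.order (phS φ f).det = n • PowerSeries.order f := by
  by_cases hf : f = 0
  · subst hf
    have : Nonempty (Fin n) := ⟨⟨0, hn⟩⟩
    rw [phS_zero, Matrix.det_zero, PowerSeries.order_zero, PowerSeries.order_zero]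
    rw [nsmul_eq_mul, ENat.mul_top]
    exact_mod_cast hn.ne'
  · obtain ⟨v, hv⟩ : ∃ v : ℕ, PowerSeries.order f = v := by
      have h := PowerSeries.order_finite_iff_ne_zero.2 hf
      exact ⟨_, (ENat.natCast_toNat h.ne).symm⟩
    obtain ⟨g, hg⟩ : ∃ g : PowerSeries K, g = PowerSeries.mk fun k => PowerSeries.coeff (k + v) f :=
      ⟨_, rfl⟩
    have hfg : f = PowerSeries.X ^ v * g := by
      ext k
      rw [PowerSeries.coeff_X_pow_mul']
      by_cases h : v ≤ k
      · rw [if_pos h, hg, PowerSeries.coeff_mk, Nat.sub_add_cancel h]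
      · rw [if_neg h]
        apply PowerSeries.coeff_of_lt_order
        rw [hv]
        exact_mod_cast not_le.1 h
    have hg0 : PowerSeries.coeff v f ≠ 0 := (PowerSeries.order_eq_nat.1 hv).1
    have hdet : ((phS φ g).map (PowerSeries.constantCoeff (R := F))).det ≠ 0 := by
      have h1 : (phS φ g).map (PowerSeries.constantCoeff (R := F)) = φ (PowerSeries.coeff v f) := by
        ext a b
        rw [Matrix.map_apply, ← PowerSeries.coeff_zero_eq_constantCoeff_apply]
        simp [phS, hg]
      rw [h1]
      have h2 : φ (PowerSeries.coeff v f) * φ ((PowerSeries.coeff v f)⁻¹) = 1 := by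
        rw [← map_mul, mul_inv_cancel₀ hg0, map_one]
      intro h3
      have h4 := congrArg Matrix.det h2
      rw [Matrix.det_mul, h3, zero_mul, Matrix.det_one] at h4
      exact zero_ne_one h4
    have hord : PowerSeries.order (phS φ g).det = 0 := by
      rw [← Nat.cast_zero (R := ℕ∞), PowerSeries.order_eq_nat]
      refine ⟨?_, fun i hi => absurd hi (Nat.not_lt_zero i)⟩
      rw [PowerSeries.coeff_zero_eq_constantCoeff_apply]
      have h5 := RingHom.map_det (PowerSeries.constantCoeff (R := F)) (phS φ g)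
      rw [h5]
      exact hdet
    have h6 : (phS φ f).det = (PowerSeries.X ^ v) ^ n * (phS φ g).det := by
      conv_lhs => rw [hfg]
      rw [phS_mul, Matrix.det_mul, phS_X_pow, Matrix.scalar_apply, Matrix.det_diagonal,
        Finset.prod_const, Finset.card_univ, Fintype.card_fin]
    rw [h6, PowerSeries.order_mul, hord, add_zero, ← pow_mul, PowerSeries.order_X_pow, hv,
      nsmul_eq_mul]
    push_cast
    ring

/-- replacing row `i` by a left linear combination of the rows -/
theorem ordD_update (hn : 0 < n) {ι : Type} [Fintype ι] [DecidableEq ι]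
    (M : Matrix ι ι (PowerSeries K)) (i : ι) (c : ι → PowerSeries K) :
    ordD φ (M.updateRow i fun b => ∑ k, c k * M k b) = ordD φ M + n • PowerSeries.order (c i) := by
  obtain ⟨T, hT⟩ : ∃ T : Matrix ι ι (PowerSeries K), T = (1 : Matrix ι ι _).updateRow i c :=
    ⟨_, rfl⟩
  have h1 : (M.updateRow i fun b => ∑ k, c k * M k b) = T * M := by
    ext1 a b
    rw [Matrix.mul_apply, hT]
    by_cases ha : a = i
    · subst ha
      simp only [Matrix.updateRow_self]
    · simp only [Matrix.updateRow_ne ha, Matrix.one_apply, ite_mul, one_mul, zero_mul,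
        Finset.sum_ite_eq, Finset.mem_univ, if_true]
  rw [h1, ordD_mul, add_comm]
  congr 1
  unfold ordD
  rw [← ordD_single φ hn (c i)]
  congr 1
  have h2 := Matrix.twoBlockTriangular_det (phM φ T) (fun x : ι × Fin n => x.1 = i) (by
    intro x hx y hy
    change phS φ (T x.1 y.1) x.2 y.2 = 0
    rw [hT, Matrix.updateRow_ne hx, Matrix.one_apply, if_neg (by rw [hy]; exact hx), phS_zero]
    rfl)
  rw [h2]
  have h3 : (Matrix.toSquareBlockProp (phM φ T) fun x : ι × Fin n => ¬ x.1 = i) = 1 := by
    ext x y : 1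
    rw [Matrix.toSquareBlockProp_def]
    change phS φ (T x.1.1 y.1.1) x.1.2 y.1.2 = _
    rw [hT, Matrix.updateRow_ne x.2, Matrix.one_apply, Matrix.one_apply]
    by_cases h : x.1.1 = y.1.1
    · rw [if_pos h, phS_one, Matrix.one_apply]
      by_cases h4 : x.1.2 = y.1.2
      · rw [if_pos h4, if_pos (Subtype.ext (Prod.ext h h4))]
      · rw [if_neg h4, if_neg (fun h5 => h4 (by rw [h5]))]
    · rw [if_neg h, phS_zero, if_neg (fun h5 => h (by rw [h5]))]
      rfl
  rw [h3, Matrix.det_one, mul_one]
  obtain ⟨e, he⟩ : ∃ e : {x : ι × Fin n // x.1 = i} ≃ Fin n, ∀ x, e x = x.1.2 :=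
    ⟨⟨fun x => x.1.2, fun a => ⟨(i, a), rfl⟩, fun x => Subtype.ext (Prod.ext x.2.symm rfl),
      fun a => rfl⟩, fun x => rfl⟩
  rw [← Matrix.det_reindex_self e]
  congr 1
  ext a b : 1
  rw [Matrix.reindex_apply, Matrix.submatrix_apply, Matrix.toSquareBlockProp_def]
  have ea : (e.symm a).1.2 = a := by rw [← he]; exact e.apply_symm_apply a
  have eb : (e.symm b).1.2 = b := by rw [← he]; exact e.apply_symm_apply b
  change phS φ (T (e.symm a).1.1 (e.symm b).1.1) (e.symm a).1.2 (e.symm b).1.2 = _
  rw [(e.symm a).2, (e.symm b).2, ea, eb, hT, Matrix.updateRow_self]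

/-- permuting the rows -/
theorem ordD_perm {ι : Type} [Fintype ι] [DecidableEq ι] (e : Equiv.Perm ι)
    (M : Matrix ι ι (PowerSeries K)) : ordD φ (fun a => M (e a)) = ordD φ M := by
  unfold ordD
  have h1 : phM φ (fun a => M (e a)) =
      (phM φ M).submatrix (e.prodCongr (Equiv.refl (Fin n))) id := by
    ext x y : 1
    rfl
  rw [h1, Matrix.det_permute]
  rcases Int.units_eq_one_or (Equiv.Perm.sign (e.prodCongr (Equiv.refl (Fin n)))) with h | h
  · rw [h]; simp
  · rw [h]; simp

/-- diagonal powers of `t` -/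
theorem ordD_diag (hn : 0 < n) {ι : Type} [Fintype ι] [DecidableEq ι] (l : ι → ℕ)
    (M : Matrix ι ι (PowerSeries K)) :
    ordD φ (fun a b => PowerSeries.X ^ l a * M a b) = ordD φ M + (n * ∑ a, l a : ℕ) := by
  have h1 : (Matrix.of fun a b => PowerSeries.X ^ l a * M a b : Matrix ι ι (PowerSeries K)) =
      Matrix.diagonal (fun a => PowerSeries.X ^ l a) * M := by
    ext a b : 1
    rw [Matrix.diagonal_mul]
    rfl
  change ordD φ (Matrix.of fun a b => PowerSeries.X ^ l a * M a b) = _
  rw [h1, ordD_mul, add_comm]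
  congr 1
  unfold ordD
  have h2 : phM φ (Matrix.diagonal (fun a => PowerSeries.X ^ l a) : Matrix ι ι (PowerSeries K)) =
      Matrix.diagonal (fun x : ι × Fin n => (PowerSeries.X ^ l x.1 : PowerSeries F)) := by
    ext x y : 1
    change phS φ (Matrix.diagonal (fun a => PowerSeries.X ^ l a) x.1 y.1) x.2 y.2 = _
    rw [Matrix.diagonal_apply, Matrix.diagonal_apply]
    by_cases h : x.1 = y.1
    · rw [if_pos h, phS_X_pow, Matrix.scalar_apply, Matrix.diagonal_apply]
      by_cases h4 : x.2 = y.2
      · rw [if_pos h4, if_pos (Prod.ext h h4)]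
      · rw [if_neg h4, if_neg (fun h5 => h4 (by rw [h5]))]
    · rw [if_neg h, phS_zero, if_neg (fun h5 => h (by rw [h5]))]
      rfl
  rw [h2, Matrix.det_diagonal, Fintype.prod_prod_type]
  simp only [Finset.prod_const, Finset.card_univ, Fintype.card_fin]
  rw [← PowerSeries.order_X_pow (R := F)]
  congr 1
  rw [Finset.mul_sum, Finset.prod_congr rfl (fun a _ => (pow_mul _ _ _).symm), Finset.prod_pow_eq_pow_sum]
  congr 1
  exact Finset.sum_congr rfl fun a _ => Nat.mul_comm _ _

end Pool.Agent.RTB
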