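import Pool.Agent.RTB.Dom
import Pool.Agent.RTB.Phi
import Pool.Agent.RTB.Alg

/-!
# RTB GDEFS: the multigraph and the row vectors of the executable data

`GD.lg g` is the multigraph of the graph data `g`; `rowV g Y r` is the vector over `K⟦t⟧` of the row `r`
(with its length); `rowsM` the square matrix of a family; `DeltaSpec` says that `delta` computes the
order of the determinant of `rowsM` (divided by `n`).
-/

namespace Pool.Agent.RTB

/-- the multigraph of the graph data -/
def GD.lg (g : GD) : LG := ⟨g.nd, g.hd, g.tl, g.len⟩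

/-- well formed graph data: number of darts, ends, positive lengths -/
def GD.Ok (g : GD) : Prop :=
  g.nd = g.2.1.1 + 2 * g.2.1.2 ∧ ∀ q, q < g.nd → g.hd q < g.nv ∧ g.tl q < g.nv ∧ 0 < g.len q

/-- the forbidden letters of a walk, latest first -/
def forbL (g : GD) (P : List ℕ) : List ℕ := P.reverse.flatMap (confl g)

/-- rows that the linear matrix can handle -/
def OkRow (g : GD) (r : Row) : Prop :=
  (∀ x ∈ r.2.1, x < g.nd) ∧ r.2.1.length ≤ g.nd ∧ r.2.2.2 < g.np

/-- the vector of a row, with its length -/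
noncomputable def rowV {K : Type} [Ring K] (g : GD) (Y : ℕ → K) (r : Row) :
    Fin (1 + g.nd) → PowerSeries K :=
  if r.1 then rowW g.lg Y g.2.2.2 r.2.1 r.2.2.1 else rowD g.lg K r.2.2.1 r.2.2.2

/-- the matrix of a family -/
noncomputable def rowsM {K : Type} [Ring K] (g : GD) (Y : ℕ → K) (B : List Row) :
    Matrix (Fin (1 + g.nd)) (Fin (1 + g.nd)) (PowerSeries K) := fun i => rowV g Y (gR B i)

/-- specification of `delta` -/
def DeltaSpec {K F : Type} [DivisionRing K] [Field F] {n : ℕ} (p : ℕ) (g : GD)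
    (φ : K →+* Matrix (Fin n) (Fin n) F) (Y : ℕ → K) : Prop :=
  ∀ B : List Row, B.length = g.np → (∀ r ∈ B, OkRow g r) →
    (∀ v, delta p g B = some v → ordD φ (rowsM g Y B) = ((n * v : ℕ) : ℕ∞)) ∧
    (delta p g B = none → ordD φ (rowsM g Y B) = ⊤)

theorem forbL_nil (g : GD) : forbL g [] = [] := rfl

theorem forbL_append (g : GD) (P : List ℕ) (q : ℕ) :
    forbL g (P ++ [q]) = confl g q ++ forbL g P := by
  simp [forbL]

end Pool.Agent.RTB
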