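import Pool.Agent.RTO.Exact
import Pool.Agent.RTO.PolyF

/-!
# From rational lengths to positive natural lengths (in binary)
-/

namespace Pool.Agent.RTB

open Pool.Agent.RTO Pool.Agent.TM2Lib Pool.Agent.M3

/-- the denominators -/
def dens (G : MixedGraph) : List ℕ := (G.1 ++ G.2).map fun x => x.2.2.den

/-- the product of all denominators -/
def denP (G : MixedGraph) : ℕ := (dens G).prod

/-- `q` times the product of the denominators -/
def scaleN (G : MixedGraph) (q : ℚ) : ℕ :=
  q.num.natAbs * (((dens G).filter fun d => !(decide (d = q.den))).prod *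
    ((dens G).filter fun d => decide (d = q.den)).tail.prod)

/-- the new length -/
def natLen (G : MixedGraph) (q : ℚ) : ℕ := (4 * mG G + 1) * scaleN G q + 1

theorem prod_filter_split (L : List ℕ) (d : ℕ) :
    (L.filter fun x => !(decide (x = d))).prod * (L.filter fun x => decide (x = d)).prod =
      L.prod := by
  induction L with
  | nil => rfl
  | cons a L ih =>
    by_cases h : a = d
    · rw [List.filter_cons_of_neg (by simp [h]), List.filter_cons_of_pos (by simp [h]),
        List.prod_cons, List.prod_cons, ← ih]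
      ring
    · rw [List.filter_cons_of_pos (by simp [h]), List.filter_cons_of_neg (by simp [h]),
        List.prod_cons, List.prod_cons, ← ih]
      ring

theorem scaleN_eq (G : MixedGraph) (q : ℚ) (hq : 0 ≤ q) (hd : q.den ∈ dens G) :
    (scaleN G q : ℚ) = q * denP G := by
  have h1 : q.den * ((dens G).filter fun d => decide (d = q.den)).tail.prod =
      ((dens G).filter fun d => decide (d = q.den)).prod := by
    rcases hl : (dens G).filter fun d => decide (d = q.den) with _ | ⟨b, l⟩
    · exfalso
      rw [List.filter_eq_nil_iff] at hl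
      exact hl _ hd (by simp)
    · have hb : b ∈ (dens G).filter fun d => decide (d = q.den) := by
        rw [hl]
        exact List.mem_cons_self
      have hb' : b = q.den := by simpa using (List.mem_filter.1 hb).2
      rw [List.tail_cons, List.prod_cons, hb']
  have h2 := prod_filter_split (dens G) q.den
  rw [← h1] at h2
  have h3 : ((q.den : ℕ) : ℚ) * (((dens G).filter fun d => !(decide (d = q.den))).prod *
      ((dens G).filter fun d => decide (d = q.den)).tail.prod : ℕ) = denP G := by
    rw [denP, ← h2]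
    push_cast
    ring
  have h4 : (q.num.natAbs : ℚ) = q * q.den := by
    have h5 : ((q.num.natAbs : ℕ) : ℤ) = q.num := Int.natAbs_of_nonneg (Rat.num_nonneg.2 hq)
    rw [Rat.mul_den_eq_num, ← Int.cast_natCast, h5]
  rw [← h3, scaleN, Nat.cast_mul, h4]
  ring

theorem denP_pos (G : MixedGraph) : 0 < denP G := by
  rw [denP]
  refine List.prod_pos fun x hx => ?_
  obtain ⟨y, _, rfl⟩ := List.mem_map.1 hx
  exact y.2.2.pos

/-- the algorithm for rational lengths in binary, from one for positive natural lengths -/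
def binAlg (solve : List Arc → List Arc → ℕ → ℕ → List Bool) (G : MixedGraph) (s t : ℕ) :
    List Bool :=
  if decide (s = t) then G.2.map fun _ => true
  else solve (G.1.map (relen (natLen G))) (G.2.map (relen (natLen G))) s t

/-- what the algorithm for positive natural lengths has to do -/
def Solves (solve : List Arc → List Arc → ℕ → ℕ → List Bool) : Prop :=
  ∀ (A E : List Arc) (s t : ℕ), s ≠ t → (∀ x ∈ A ++ E, 0 < x.2.2) →
    (solve A E s t).length = E.length ∧ ∀ k ∈ Cst A E s t,
      ∃ k₁ k₂, HasWalk (ori A E (solve A E s t)) s t k₁ ∧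
        HasWalk (ori A E (solve A E s t)) t s k₂ ∧ k₁ + k₂ ≤ k

theorem lengthL_mul (G : MixedGraph) (l : List (ℕ × ℕ × ℚ))
    (hl : ∀ x ∈ l, 0 ≤ x.2.2 ∧ x.2.2.den ∈ dens G) :
    lengthL l * denP G = ((l.map fun x => scaleN G x.2.2).sum : ℕ) := by
  induction l with
  | nil => simp [lengthL]
  | cons x l ih =>
    have h1 := ih (fun y hy => hl y (List.mem_cons_of_mem _ hy))
    obtain ⟨h2, h3⟩ := hl x List.mem_cons_self
    unfold lengthL at h1 ⊢
    simp only [List.map_cons, List.sum_cons, Nat.cast_add]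
    rw [← h1, add_mul, scaleN_eq G _ h2 h3]

theorem sum_natLen (G : MixedGraph) (l : List (ℕ × ℕ × ℚ)) :
    (l.map fun x => natLen G x.2.2).sum =
      (4 * mG G + 1) * (l.map fun x => scaleN G x.2.2).sum + l.length := by
  induction l with
  | nil => simp
  | cons x l ih =>
    simp only [List.map_cons, List.sum_cons, List.length_cons]
    rw [ih, natLen]
    ring

theorem roundTrip_self (G : MixedGraph) (σ : List Bool) (s : ℕ) : roundTrip G σ s s = 0 := by
  have h : dist (orient G σ) s s = 0 := by
    have h1 := dist_le (H := orient G σ) (a := s) (b := s) (l := []) rfl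
    have h2 : lengthL [] = 0 := rfl
    rw [h2] at h1
    simpa using h1
  rw [roundTrip, h, add_zero]

theorem binAlg_correct {solve : List Arc → List Arc → ℕ → ℕ → List Bool} (hs : Solves solve)
    (G : MixedGraph) (s t : ℕ) (hG : Nonneg G) :
    (binAlg solve G s t).length = G.2.length ∧
      ∀ τ : List Bool, τ.length = G.2.length →
        roundTrip G (binAlg solve G s t) s t ≤ roundTrip G τ s t := by
  by_cases hst : s = t
  · subst hst
    constructor
    · unfold binAlg
      simp
    · intro τ _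
      rw [roundTrip_self, roundTrip_self]
  have hbin : binAlg solve G s t =
      solve (G.1.map (relen (natLen G))) (G.2.map (relen (natLen G))) s t := by
    unfold binAlg
    simp [hst]
  have hpos : ∀ x ∈ G.1.map (relen (natLen G)) ++ G.2.map (relen (natLen G)), 0 < x.2.2 := by
    intro x hx
    rw [← List.map_append] at hx
    obtain ⟨y, _, rfl⟩ := List.mem_map.1 hx
    simp [relen, natLen]
  obtain ⟨hlen0, hopt0⟩ := hs _ _ s t hst hpos
  rw [← hbin] at hlen0 hopt0
  constructor
  · rw [hlen0]
    simp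
  · intro τ hτ
    by_cases htop : roundTrip G τ s t = ⊤
    · rw [htop]
      exact le_top
    · have h1 : dist (orient G τ) s t ≠ ⊤ := fun h => htop (by unfold roundTrip; rw [h]; simp)
      have h2 : dist (orient G τ) t s ≠ ⊤ := fun h => htop (by unfold roundTrip; rw [h]; simp)
      have hok : ∀ (σ : List Bool), ∀ x ∈ orient G σ, 0 ≤ x.2.2 ∧ x.2.2.den ∈ dens G := by
        intro σ x hx
        obtain ⟨y, hy, hxy⟩ := mem_orient_len G σ x hx
        rw [hxy]
        exact ⟨hG y hy, List.mem_map.2 ⟨y, hy, rfl⟩⟩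
      obtain ⟨l₁, hw₁, hd₁, hn₁⟩ := exists_shortest _ (fun x hx => (hok τ x hx).1) h1
      obtain ⟨l₂, hw₂, hd₂, hn₂⟩ := exists_shortest _ (fun x hx => (hok τ x hx).1) h2
      have hlen := length_orient_le G τ
      have hwf₁ : HasWalk (ori (G.1.map (relen (natLen G))) (G.2.map (relen (natLen G))) τ) s t
          ((l₁.map fun x => natLen G x.2.2).sum) := by
        rw [ori_relen]
        exact (hasWalk_relen (natLen G) _ s t _).2 ⟨l₁, hw₁, rfl⟩
      have hwf₂ : HasWalk (ori (G.1.map (relen (natLen G))) (G.2.map (relen (natLen G))) τ) t s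
          ((l₂.map fun x => natLen G x.2.2).sum) := by
        rw [ori_relen]
        exact (hasWalk_relen (natLen G) _ t s _).2 ⟨l₂, hw₂, rfl⟩
      obtain ⟨k₁, k₂, hk₁, hk₂, hk⟩ := hopt0
        ((l₁.map fun x => natLen G x.2.2).sum + (l₂.map fun x => natLen G x.2.2).sum)
        ⟨τ, by simp [hτ], _, _, hwf₁, hwf₂, rfl⟩
      rw [ori_relen] at hk₁ hk₂
      obtain ⟨m₁, hm₁, hmk₁⟩ := (hasWalk_relen (natLen G) _ s t _).1 hk₁
      obtain ⟨m₂, hm₂, hmk₂⟩ := (hasWalk_relen (natLen G) _ t s _).1 hk₂
      rw [sum_natLen] at hmk₁ hmk₂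
      rw [sum_natLen, sum_natLen] at hk
      have e₁ := lengthL_mul G l₁ (fun x hx => hok τ x (mem_of_isWalkL hw₁ x hx))
      have e₂ := lengthL_mul G l₂ (fun x hx => hok τ x (mem_of_isWalkL hw₂ x hx))
      have e₃ := lengthL_mul G m₁ (fun x hx => hok _ x (mem_of_isWalkL hm₁ x hx))
      have e₄ := lengthL_mul G m₂ (fun x hx => hok _ x (mem_of_isWalkL hm₂ x hx))
      have p₁ : 0 ≤ lengthL l₁ := by
        refine List.sum_nonneg fun x hx => ?_
        obtain ⟨y, hy, rfl⟩ := List.mem_map.1 hx
        exact (hok τ y (mem_of_isWalkL hw₁ y hy)).1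
      have p₂ : 0 ≤ lengthL l₂ := by
        refine List.sum_nonneg fun x hx => ?_
        obtain ⟨y, hy, rfl⟩ := List.mem_map.1 hx
        exact (hok τ y (mem_of_isWalkL hw₂ y hy)).1
      have p₃ : 0 ≤ lengthL m₁ := by
        refine List.sum_nonneg fun x hx => ?_
        obtain ⟨y, hy, rfl⟩ := List.mem_map.1 hx
        exact (hok _ y (mem_of_isWalkL hm₁ y hy)).1
      have p₄ : 0 ≤ lengthL m₂ := by
        refine List.sum_nonneg fun x hx => ?_
        obtain ⟨y, hy, rfl⟩ := List.mem_map.1 hx
        exact (hok _ y (mem_of_isWalkL hm₂ y hy)).1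
      set u₁ := (l₁.map fun x => scaleN G x.2.2).sum
      set u₂ := (l₂.map fun x => scaleN G x.2.2).sum
      set v₁ := (m₁.map fun x => scaleN G x.2.2).sum
      set v₂ := (m₂.map fun x => scaleN G x.2.2).sum
      set c := 4 * mG G + 1 with hc
      have hle : v₁ + v₂ ≤ u₁ + u₂ := by
        by_contra hcon
        have h3 : u₁ + u₂ + 1 ≤ v₁ + v₂ := by omega
        have h4 : c * (u₁ + u₂ + 1) ≤ c * (v₁ + v₂) := Nat.mul_le_mul_left c h3
        have h5 : c * (v₁ + v₂) ≤ c * (u₁ + u₂) + (l₁.length + l₂.length) := by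
          calc c * (v₁ + v₂) = c * v₁ + c * v₂ := by ring
            _ ≤ k₁ + k₂ := by omega
            _ ≤ _ := hk
            _ = c * (u₁ + u₂) + (l₁.length + l₂.length) := by ring
        have h6 : c * (u₁ + u₂ + 1) = c * (u₁ + u₂) + c := by ring
        omega
      have hD : (0 : ℚ) < denP G := by exact_mod_cast denP_pos G
      have hfin : lengthL m₁ + lengthL m₂ ≤ lengthL l₁ + lengthL l₂ := by
        have h7 : (lengthL m₁ + lengthL m₂) * denP G ≤ (lengthL l₁ + lengthL l₂) * denP G := by
          rw [add_mul, add_mul, e₁, e₂, e₃, e₄]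
          exact_mod_cast hle
        exact le_of_mul_le_mul_right h7 hD
      unfold roundTrip
      rw [hd₁, hd₂]
      refine (add_le_add (dist_le hm₁) (dist_le hm₂)).trans ?_
      rw [← ENNReal.ofReal_add (by exact_mod_cast p₃) (by exact_mod_cast p₄),
        ← ENNReal.ofReal_add (by exact_mod_cast p₁) (by exact_mod_cast p₂)]
      exact ENNReal.ofReal_le_ofReal (by exact_mod_cast hfin)

section poly

variable {α : Type} [Enc α]

theorem poly_dens {G : α → MixedGraph} (hG : Poly G) : Poly (fun a => dens (G a)) :=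
  TM2Lib.Poly.map (h := fun y : α × (ℕ × ℕ × ℚ) => y.2.2.2.den) (Poly.append hG.fst' hG.snd')
    (D3.poly_den Poly.snd.snd'.snd')

theorem poly_scaleN {G : α → MixedGraph} {q : α → ℚ} (hG : Poly G) (hq : Poly q) :
    Poly (fun a => scaleN (G a) (q a)) := by
  have hd := poly_dens hG
  have he : Poly (fun x : α × ℕ => decide (x.2 = (q x.1).den)) :=
    Poly.nat_eq Poly.snd ((D3.poly_den hq).comp Poly.fst)
  have h1 := Poly.filter (h := fun x : α × ℕ => !(decide (x.2 = (q x.1).den))) hd he.not
  have h2 := Poly.filter (h := fun x : α × ℕ => decide (x.2 = (q x.1).den)) hd he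
  exact poly_nat_mul (D3.poly_natAbs (D3.poly_num hq)) (poly_nat_mul (D1_prod h1)
    (D1_prod (Poly.tail h2)))

theorem poly_natLen {G : α → MixedGraph} {q : α → ℚ} (hG : Poly G) (hq : Poly q) :
    Poly (fun a => natLen (G a) (q a)) :=
  poly_nat_add (poly_nat_mul (((UPoly.const 4).mul (PolyF_mG hG)).add (UPoly.const 1)).toNat
    (poly_scaleN hG hq)) (TM2Lib.Poly.const 1)

theorem poly_binAlg {solve : List Arc → List Arc → ℕ → ℕ → List Bool}
    (hs : Poly fun x : List Arc × (List Arc × (ℕ × ℕ)) => solve x.1 x.2.1 x.2.2.1 x.2.2.2) :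
    Poly (fun x : MixedGraph × (ℕ × ℕ) => binAlg solve x.1 x.2.1 x.2.2) := by
  have hG : Poly (fun x : MixedGraph × (ℕ × ℕ) => x.1) := Poly.fst
  have hn : Poly (fun y : (MixedGraph × (ℕ × ℕ)) × ℚ => natLen y.1.1 y.2) :=
    poly_natLen Poly.fst.fst' Poly.snd
  have hA := PolyF_relen (l := fun x : MixedGraph × (ℕ × ℕ) => x.1.1)
    (f := fun x => natLen x.1) hG.fst' hn
  have hE := PolyF_relen (l := fun x : MixedGraph × (ℕ × ℕ) => x.1.2)
    (f := fun x => natLen x.1) hG.snd' hn
  have h1 := hs.comp (hA.pair (hE.pair (Poly.snd (α := MixedGraph) (β := ℕ × ℕ))))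
  exact Poly.ite (c := fun x : MixedGraph × (ℕ × ℕ) => decide (x.2.1 = x.2.2))
    (Poly.nat_eq Poly.snd.fst' Poly.snd.snd')
    (TM2Lib.Poly.map (h := fun _ => true) hG.snd' (TM2Lib.Poly.const true)) h1

end poly

end Pool.Agent.RTB
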