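import Pool.Agent.RTB.Alg
import Pool.Agent.RTB.RatRed
import Pool.Agent.RTO.CstEq

/-!
# Self-reduction and relabelling: from the specification of `valR` to `Solves goB`

The self-reduction (`goB_opt`, `solves_goB`) is helper43's. `valB` relabels the vertices by their first
position in `vlist A E s t`; this map is injective on the vertices that occur, so the set `Cst` of the
round trip lengths does not change.
-/

namespace Pool.Agent.RTB

open Pool.Agent.RTO

/-- `val` computes the minimum length of a round trip (for positive lengths) -/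
def IsVal (val : List Arc → List Arc → Option ℕ) (s t : ℕ) : Prop :=
  ∀ A E : List Arc, (∀ x ∈ A ++ E, 0 < x.2.2) →
    (∀ c, IsLeast (Cst A E s t) c → val A E = some c) ∧ (Cst A E s t = ∅ → val A E = none)

theorem length_goB (s t : ℕ) : ∀ (E A : List Arc), (goB s t A E).length = E.length := by
  intro E
  induction E with
  | nil => intro A; rfl
  | cons e E ih =>
    intro A
    unfold goB
    split_ifs
    · simp [ih]
    · simp [ih]

private theorem gob_least {S : Set ℕ} {k : ℕ} (hk : k ∈ S) : ∃ c, IsLeast S c ∧ c ≤ k := by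
  classical
  have h : ∃ n, n ∈ S := ⟨k, hk⟩
  exact ⟨Nat.find h, ⟨Nat.find_spec h, fun x hx => Nat.find_min' h hx⟩, Nat.find_min' h hk⟩

private theorem gob_ori (A E : List Arc) (e : Arc) (b : Bool) (σ : List Bool) :
    ori ((if b then e else rev e) :: A) E σ ⊆ ori A (e :: E) (b :: σ) := by
  intro x hx
  unfold ori at hx ⊢
  simp only [List.zipWith_cons_cons, List.mem_append, List.mem_cons, List.cons_append] at hx ⊢
  tauto

/-- the orientation found by `goB` is optimal -/
theorem goB_opt {s t : ℕ} (hv : IsVal (fun A E => valB A E s t) s t) :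
    ∀ (E A : List Arc), (∀ x ∈ A ++ E, 0 < x.2.2) → ∀ k ∈ Cst A E s t,
    ∃ k₁ k₂, HasWalk (ori A E (goB s t A E)) s t k₁ ∧
      HasWalk (ori A E (goB s t A E)) t s k₂ ∧ k₁ + k₂ ≤ k := by
  intro E
  induction E with
  | nil =>
    intro A _ k hk
    obtain ⟨σ, hσ, k₁, k₂, h1, h2, rfl⟩ := hk
    have hσ' : σ = [] := List.length_eq_zero_iff.1 hσ
    subst hσ'
    exact ⟨k₁, k₂, h1, h2, le_rfl⟩
  | cons e E ih =>
    intro A hpos k hk
    have hpos' : ∀ b : Bool, ∀ x ∈ ((if b then e else rev e) :: A) ++ E, 0 < x.2.2 := by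
      intro b x hx
      simp only [List.cons_append, List.mem_cons, List.mem_append] at hx
      rcases hx with rfl | hx | hx
      · have := hpos e (by simp)
        cases b with
        | true => exact this
        | false => exact this
      · exact hpos x (by simp [hx])
      · exact hpos x (by simp [hx])
    obtain ⟨c, hc, hck⟩ := gob_least hk
    have hv1 : valB A (e :: E) s t = some c := (hv A (e :: E) hpos).1 c hc
    have key : ∀ b : Bool, c ∈ Cst ((if b then e else rev e) :: A) E s t →
        ∃ k₁ k₂, HasWalk (ori A (e :: E) (b :: goB s t ((if b then e else rev e) :: A) E))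
          s t k₁ ∧ HasWalk (ori A (e :: E)
            (b :: goB s t ((if b then e else rev e) :: A) E)) t s k₂ ∧ k₁ + k₂ ≤ k := by
      intro b hb
      obtain ⟨k₁, k₂, h1, h2, h3⟩ := ih _ (hpos' b) c hb
      exact ⟨k₁, k₂, h1.mono (gob_ori A E e b _), h2.mono (gob_ori A E e b _), h3.trans hck⟩
    have hcc := cst_cons A E e s t
    by_cases h : valB (e :: A) E s t = valB A (e :: E) s t
    · have hgo : goB s t A (e :: E) = true :: goB s t (e :: A) E := by
        rw [goB, if_pos h]
      rw [hgo]
      apply key true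
      show c ∈ Cst (e :: A) E s t
      rw [hv1] at h
      by_cases hemp : Cst (e :: A) E s t = ∅
      · have : valB (e :: A) E s t = none := (hv (e :: A) E (hpos' true)).2 hemp
        rw [this] at h
        cases h
      · obtain ⟨k', hk'⟩ := Set.nonempty_iff_ne_empty.2 hemp
        obtain ⟨c', hc', _⟩ := gob_least hk'
        have h2 : valB (e :: A) E s t = some c' := (hv (e :: A) E (hpos' true)).1 c' hc'
        rw [h2] at h
        have : c' = c := by simpa using h
        subst this
        exact hc'.1
    · have hgo : goB s t A (e :: E) = false :: goB s t (rev e :: A) E := by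
        rw [goB, if_neg h]
      rw [hgo]
      apply key false
      show c ∈ Cst (rev e :: A) E s t
      have hc1 : c ∈ Cst (e :: A) E s t ∪ Cst (rev e :: A) E s t := by
        rw [← hcc]; exact hc.1
      rcases hc1 with hc1 | hc1
      · exfalso
        apply h
        rw [hv1]
        refine (hv (e :: A) E (hpos' true)).1 c ⟨hc1, ?_⟩
        intro x hx
        apply hc.2
        rw [hcc]
        exact Or.inl hx
      · exact hc1

theorem solves_goB (hv : ∀ s t, s ≠ t → IsVal (fun A E => valB A E s t) s t) :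
    Solves (fun A E s t => goB s t A E) := by
  intro A E s t hst hpos
  exact ⟨length_goB s t E A, goB_opt (hv s t hst) E A hpos⟩

/-! ### relabelling -/

theorem relab_rev (f : ℕ → ℕ) (e : Arc) : rev (relab f e) = relab f (rev e) := rfl

theorem ori_relab (f : ℕ → ℕ) (A E : List Arc) (σ : List Bool) :
    ori (A.map (relab f)) (E.map (relab f)) σ = (ori A E σ).map (relab f) := by
  unfold ori
  rw [List.map_append]
  congr 1
  induction E generalizing σ with
  | nil => simp
  | cons e E ih =>
    cases σ with
    | nil => simp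
    | cons b σ =>
      simp only [List.map_cons, List.zipWith_cons_cons, List.cons.injEq]
      refine ⟨?_, ih σ⟩
      cases b
      · rfl
      · rfl

theorem hasWalk_relab_mp (f : ℕ → ℕ) {H : List Arc} {a b k : ℕ} (h : HasWalk H a b k) :
    HasWalk (H.map (relab f)) (f a) (f b) k := by
  induction h with
  | nil a => exact HasWalk.nil _
  | cons hm _ ih => exact HasWalk.cons (List.mem_map.2 ⟨_, hm, rfl⟩) ih

theorem hasWalk_relab_mpr (f : ℕ → ℕ) {H : List Arc} (V : Set ℕ) (hf : Set.InjOn f V)
    (hV : ∀ x ∈ H, x.1 ∈ V ∧ x.2.1 ∈ V) {x y k : ℕ} (h : HasWalk (H.map (relab f)) x y k) :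
    ∀ a b, a ∈ V → b ∈ V → f a = x → f b = y → HasWalk H a b k := by
  induction h with
  | nil u =>
    intro a b ha hb h1 h2
    have : a = b := hf ha hb (h1.trans h2.symm)
    subst this
    exact HasWalk.nil _
  | cons hm _ ih =>
    intro a b ha hb h1 h2
    obtain ⟨⟨a', c', l'⟩, hy, he⟩ := List.mem_map.1 hm
    simp only [relab, Prod.mk.injEq] at he
    obtain ⟨e1, e2, e3⟩ := he
    obtain ⟨h3, h4⟩ := hV _ hy
    have : a = a' := hf ha h3 (h1.trans e1.symm)
    subst this
    subst e3
    exact HasWalk.cons hy (ih c' b h4 hb e2 h2)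

theorem mem_ori_ends {A E : List Arc} {σ : List Bool} {x : Arc} (hx : x ∈ ori A E σ) :
    ∃ y ∈ A ++ E, (x = y ∨ x = rev y) := by
  unfold ori at hx
  rcases List.mem_append.1 hx with hx | hx
  · exact ⟨x, List.mem_append_left _ hx, Or.inl rfl⟩
  · suffices h : ∃ y ∈ E, (x = y ∨ x = rev y) by
      obtain ⟨y, hy, hxy⟩ := h
      exact ⟨y, List.mem_append_right _ hy, hxy⟩
    clear * - hx
    induction E generalizing σ with
    | nil => simp at hx
    | cons e E ih =>
      cases σ with
      | nil => simp at hx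
      | cons b σ =>
        simp only [List.zipWith_cons_cons] at hx
        rcases List.mem_cons.1 hx with hx | hx
        · refine ⟨e, by simp, ?_⟩
          rw [hx]
          cases b
          · exact Or.inr rfl
          · exact Or.inl rfl
        · obtain ⟨y, hy, hxy⟩ := ih hx
          exact ⟨y, List.mem_cons_of_mem _ hy, hxy⟩

/-- the set of the lengths does not change under a relabelling that is injective on the vertices -/
theorem cst_relab (f : ℕ → ℕ) (A E : List Arc) (s t : ℕ) (V : Set ℕ) (hf : Set.InjOn f V)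
    (hs : s ∈ V) (ht : t ∈ V) (hV : ∀ x ∈ A ++ E, x.1 ∈ V ∧ x.2.1 ∈ V) :
    Cst (A.map (relab f)) (E.map (relab f)) (f s) (f t) = Cst A E s t := by
  have hH : ∀ σ : List Bool, ∀ x ∈ ori A E σ, x.1 ∈ V ∧ x.2.1 ∈ V := by
    intro σ x hx
    obtain ⟨y, hy, h | h⟩ := mem_ori_ends hx
    · rw [h]
      exact hV y hy
    · rw [h]
      exact ⟨(hV y hy).2, (hV y hy).1⟩
  ext k
  constructor
  · rintro ⟨σ, hσ, k₁, k₂, h1, h2, h3⟩
    rw [ori_relab] at h1 h2
    rw [List.length_map] at hσ
    exact ⟨σ, hσ, k₁, k₂, hasWalk_relab_mpr f V hf (hH σ) h1 s t hs ht rfl rfl,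
      hasWalk_relab_mpr f V hf (hH σ) h2 t s ht hs rfl rfl, h3⟩
  · rintro ⟨σ, hσ, k₁, k₂, h1, h2, h3⟩
    refine ⟨σ, by rw [List.length_map]; exact hσ, k₁, k₂, ?_, ?_, h3⟩
    · rw [ori_relab]
      exact hasWalk_relab_mp f h1
    · rw [ori_relab]
      exact hasWalk_relab_mp f h2

theorem idx_spec {vs : List ℕ} {v : ℕ} (h : v ∈ vs) : vs[idx vs v]? = some v := by
  obtain ⟨i, hi⟩ := List.mem_iff_getElem?.1 h
  have hne : (v, i) ∈ vs.zipIdx.filter fun x => x.1 == v := by
    rw [List.mem_filter, List.mem_zipIdx_iff_getElem?]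
    exact ⟨hi, by simp⟩
  unfold idx
  rcases hl : vs.zipIdx.filter fun x => x.1 == v with _ | ⟨y, l⟩
  · rw [hl] at hne
    simp at hne
  · have hy : y ∈ vs.zipIdx.filter fun x => x.1 == v := by
      rw [hl]
      exact List.mem_cons_self
    rw [List.mem_filter, List.mem_zipIdx_iff_getElem?] at hy
    obtain ⟨h1, h2⟩ := hy
    have h3 : y.1 = v := by simpa using h2
    rw [hl, List.map_cons, List.headD_cons, h1, h3]

theorem idx_lt {vs : List ℕ} {v : ℕ} (h : v ∈ vs) : idx vs v < vs.length := by
  have h1 := idx_spec h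
  by_contra hn
  rw [List.getElem?_eq_none (by omega)] at h1
  cases h1

theorem idx_injOn (vs : List ℕ) : Set.InjOn (idx vs) {v | v ∈ vs} := by
  intro v hv w hw h
  have h1 := idx_spec hv
  have h2 := idx_spec hw
  rw [h, h2] at h1
  exact (Option.some.inj h1).symm

theorem mem_vlist_ends {A E : List Arc} {s t : ℕ} {x : Arc} (hx : x ∈ A ++ E) :
    x.1 ∈ vlist A E s t ∧ x.2.1 ∈ vlist A E s t := by
  have hd : x ∈ dartL A E := by
    unfold dartL
    rcases List.mem_append.1 hx with h | h
    · exact List.mem_append_left _ h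
    · exact List.mem_append_right _ (List.mem_append_left _ h)
  unfold vlist
  constructor
  · refine List.mem_cons_of_mem _ (List.mem_cons_of_mem _ (List.mem_append_left _ ?_))
    exact List.mem_map_of_mem hd
  · refine List.mem_cons_of_mem _ (List.mem_cons_of_mem _ (List.mem_append_right _ ?_))
    exact List.mem_map.2 ⟨x, hd, rfl⟩

/-- specification of `valR` -/
def ValRSpec : Prop :=
  ∀ (A E : List Arc) (s t nv : ℕ), s ≠ t → s < nv → t < nv →
    (∀ x ∈ A ++ E, x.1 < nv ∧ x.2.1 < nv) → (∀ x ∈ A ++ E, 0 < x.2.2) →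
    (∀ c, IsLeast (Cst A E s t) c → valR A E s t nv = some c) ∧
      (Cst A E s t = ∅ → valR A E s t nv = none)

/-- `valB` computes the minimum length of a round trip -/
theorem isVal_valB (h : ValRSpec) (s t : ℕ) (hst : s ≠ t) :
    IsVal (fun A E => valB A E s t) s t := by
  intro A E hpos
  have hs : s ∈ vlist A E s t := by unfold vlist; simp
  have ht : t ∈ vlist A E s t := by unfold vlist; simp
  have hinj := idx_injOn (vlist A E s t)
  have hends : ∀ x ∈ A ++ E, x.1 ∈ {v | v ∈ vlist A E s t} ∧ x.2.1 ∈ {v | v ∈ vlist A E s t} :=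
    fun x hx => mem_vlist_ends hx
  have hc := cst_relab (idx (vlist A E s t)) A E s t _ hinj hs ht hends
  have hmem : ∀ x ∈ A.map (relab (idx (vlist A E s t))) ++ E.map (relab (idx (vlist A E s t))),
      ∃ y ∈ A ++ E, x = relab (idx (vlist A E s t)) y := by
    intro x hx
    rw [← List.map_append] at hx
    obtain ⟨y, hy, hxy⟩ := List.mem_map.1 hx
    exact ⟨y, hy, hxy.symm⟩
  have key := h (A.map (relab (idx (vlist A E s t)))) (E.map (relab (idx (vlist A E s t))))
    (idx (vlist A E s t) s) (idx (vlist A E s t) t) (vlist A E s t).length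
    (fun e => hst (hinj hs ht e)) (idx_lt hs) (idx_lt ht)
    (fun x hx => by
      obtain ⟨y, hy, rfl⟩ := hmem x hx
      exact ⟨idx_lt (hends y hy).1, idx_lt (hends y hy).2⟩)
    (fun x hx => by
      obtain ⟨y, hy, rfl⟩ := hmem x hx
      exact hpos y hy)
  rw [hc] at key
  exact key

/-- from the specification of `valR` to the specification of `goB` -/
theorem solves_goB_of_valR (h : ValRSpec) : Solves (fun A E s t => goB s t A E) :=
  solves_goB fun s t hst => isVal_valB h s t hst

end Pool.Agent.RTB
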