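import Pool.Agent.RTO.LemL
import Pool.Agent.RTB.Bridge

/-!
# RTB LOW: `rr Q (forb P) ≠ 0` gives a valid round trip that is not longer

Immediate from `lemL` and (the contrapositive of) `bridge`.
-/

namespace Pool.Agent.RTB

open Pool.Agent.RTO

variable {V A E : Type}

theorem low [DecidableEq A] [DecidableEq E] {G : MGr V A E} (hG : G.Pos) {s t : V}
    {P Q : List (Dart A E)} (hP : G.IsWalk s P t) (hQ : G.IsWalk t Q s)
    (h : rr Q (forb P) ≠ 0) :
    ∃ P' Q', G.Valid s t P' Q' ∧ G.cost P' + G.cost Q' ≤ G.cost P + G.cost Q ∧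
      (¬ Ok (P ++ Q) → G.cost P' + G.cost Q' < G.cost P + G.cost Q) := by
  apply lemL hG hP hQ
  intro U hs ht e
  by_contra hno
  push Not at hno
  exact h (bridge G hP hQ U hs ht e hno)

end Pool.Agent.RTB
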