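import Pool.Agent.RTB.BfSpec
import Pool.Agent.RTB.Low
import Pool.Agent.RTO.CstEq

/-!
# RTB: the numbers of the darts of `mkGD A E s nv` and the darts of the graph `gr A E`
-/

set_option autoImplicit false

namespace Pool.Agent.RTB

open Pool.Agent.RTO (Arc rev dartL vlist gr Dart MGr und Ok)

/-! ### renaming of letters -/

theorem up_map {L M : Type} [DecidableEq L] [DecidableEq M] {f : L → M}
    (hf : Function.Injective f) (q : L) (X : List L) : up (f q) (X.map f) = (up q X).map f := by
  induction X with
  | nil => rfl
  | cons x X ih =>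
    rw [List.map_cons, up, up]
    by_cases h : x = q
    · rw [if_pos h, if_pos (congrArg f h), List.map_cons]
    · rw [if_neg h, if_neg (fun e => h (hf e)), ih]

theorem mem_map_inj {L M : Type} {f : L → M} (hf : Function.Injective f) (q : L) (X : List L) :
    f q ∈ X.map f ↔ q ∈ X := by
  rw [List.mem_map]
  constructor
  · rintro ⟨x, hx, e⟩
    rw [← hf e]
    exact hx
  · intro h
    exact ⟨q, h, rfl⟩

theorem rr_map {L M : Type} [DecidableEq L] [DecidableEq M] {f : L → M}
    (hf : Function.Injective f) (Q X : List L) : rr (Q.map f) (X.map f) = rr Q X := by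
  induction Q generalizing X with
  | nil => rfl
  | cons q Q ih =>
    rw [List.map_cons, rr, rr, ih, up_map hf, ih]
    simp only [mem_map_inj hf]

/-! ### numbers of the darts -/

/-- number of a dart -/
def num {a m : ℕ} : Dart (Fin a) (Fin m) → ℕ
  | .inl i => i
  | .inr x => if x.2 then a + x.1 else a + m + x.1

theorem num_inj {a m : ℕ} : Function.Injective (num : Dart (Fin a) (Fin m) → ℕ) := by
  rintro (i | ⟨i, b⟩) (j | ⟨j, c⟩) h
  · simp only [num] at h
    rw [Fin.ext h]
  · cases c
    · simp only [num, Bool.false_eq_true, if_false] at h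
      have := i.2
      omega
    · simp only [num, if_true] at h
      have := i.2
      omega
  · cases b
    · simp only [num, Bool.false_eq_true, if_false] at h
      have := j.2
      omega
    · simp only [num, if_true] at h
      have := j.2
      omega
  · have hi := i.2
    have hj := j.2
    cases b <;> cases c
    · simp only [num, Bool.false_eq_true, if_false] at h
      have h' : i = j := Fin.ext (by omega)
      rw [h']
    · simp only [num, Bool.false_eq_true, if_false, if_true] at h
      omega
    · simp only [num, Bool.false_eq_true, if_false, if_true] at h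
      omega
    · simp only [num, if_true] at h
      have h' : i = j := Fin.ext (by omega)
      rw [h']

theorem num_lt {a m : ℕ} (d : Dart (Fin a) (Fin m)) : num d < a + (m + m) := by
  rcases d with i | ⟨i, b⟩
  · simp only [num]
    have := i.2
    omega
  · have := i.2
    cases b
    · simp only [num, Bool.false_eq_true, if_false]
      omega
    · simp only [num, if_true]
      omega

theorem num_surj {a m q : ℕ} (hq : q < a + (m + m)) :
    ∃ d : Dart (Fin a) (Fin m), num d = q := by
  by_cases h1 : q < a
  · exact ⟨.inl ⟨q, h1⟩, rfl⟩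
  · by_cases h2 : q < a + m
    · refine ⟨.inr (⟨q - a, by omega⟩, true), ?_⟩
      simp only [num, if_true]
      omega
    · refine ⟨.inr (⟨q - (a + m), by omega⟩, false), ?_⟩
      simp only [num, Bool.false_eq_true, if_false]
      omega

theorem num_list {a m : ℕ} (Q : List ℕ) (h : ∀ q ∈ Q, q < a + (m + m)) :
    ∃ P : List (Dart (Fin a) (Fin m)), P.map num = Q := by
  induction Q with
  | nil => exact ⟨[], rfl⟩
  | cons q Q ih =>
    obtain ⟨P, hP⟩ := ih fun x hx => h x (by simp [hx])
    obtain ⟨d, hd⟩ := num_surj (h q (by simp))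
    exact ⟨d :: P, by rw [List.map_cons, hd, hP]⟩

/-! ### the data of `mkGD` -/

variable (A E : List Arc) (s nv : ℕ)

theorem nd_mkGD : (mkGD A E s nv).nd = A.length + (E.length + E.length) := by
  simp [mkGD, GD.nd, dartL]

theorem getD_dartL (d : Dart (Fin A.length) (Fin E.length)) :
    (dartL A E).getD (num d) (0, (0, 0)) = ((gr A E).hd d, ((gr A E).tl d, (gr A E).len d)) := by
  unfold dartL
  rcases d with i | ⟨i, b⟩
  · have h : num (Sum.inl i : Dart (Fin A.length) (Fin E.length)) = i := rfl
    rw [h, List.getD_eq_getElem?_getD, List.getElem?_append_left i.2, List.getElem?_eq_getElem i.2]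
    rfl
  · cases b
    · have h : num (Sum.inr (i, false) : Dart (Fin A.length) (Fin E.length)) =
        A.length + E.length + i := rfl
      have h2 := i.2
      rw [h, List.getD_eq_getElem?_getD, List.getElem?_append_right (by omega),
        List.getElem?_append_right (by omega)]
      have h3 : A.length + E.length + (i : ℕ) - A.length - E.length = i := by omega
      rw [h3, List.getElem?_map, List.getElem?_eq_getElem h2]
      rfl
    · have h : num (Sum.inr (i, true) : Dart (Fin A.length) (Fin E.length)) =
        A.length + i := rfl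
      have h2 := i.2
      rw [h, List.getD_eq_getElem?_getD, List.getElem?_append_right (by omega),
        List.getElem?_append_left (by omega)]
      have h3 : A.length + (i : ℕ) - A.length = i := by omega
      rw [h3, List.getElem?_eq_getElem h2]
      rfl

theorem hd_mkGD (d : Dart (Fin A.length) (Fin E.length)) :
    (mkGD A E s nv).hd (num d) = (gr A E).hd d := by
  have h : (mkGD A E s nv).hd (num d) = ((dartL A E).getD (num d) (0, (0, 0))).1 := rfl
  rw [h, getD_dartL]

theorem tl_mkGD (d : Dart (Fin A.length) (Fin E.length)) :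
    (mkGD A E s nv).tl (num d) = (gr A E).tl d := by
  have h : (mkGD A E s nv).tl (num d) = ((dartL A E).getD (num d) (0, (0, 0))).2.1 := rfl
  rw [h, getD_dartL]

theorem len_mkGD (d : Dart (Fin A.length) (Fin E.length)) :
    (mkGD A E s nv).len (num d) = (gr A E).len d := by
  have h : (mkGD A E s nv).len (num d) = ((dartL A E).getD (num d) (0, (0, 0))).2.2 := rfl
  rw [h, getD_dartL]

theorem isWalk_mkGD (x y : ℕ) (P : List (Dart (Fin A.length) (Fin E.length))) :
    (mkGD A E s nv).lg.IsWalk x (P.map num) y ↔ (gr A E).IsWalk x P y := by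
  induction P generalizing x with
  | nil => exact Iff.rfl
  | cons d P ih =>
    rw [List.map_cons]
    constructor
    · rintro ⟨_, h1, h2⟩
      have h1' : (mkGD A E s nv).hd (num d) = x := h1
      have h2' : (mkGD A E s nv).lg.IsWalk ((mkGD A E s nv).tl (num d)) (P.map num) y := h2
      rw [hd_mkGD] at h1'
      rw [tl_mkGD] at h2'
      exact ⟨h1', (ih _).1 h2'⟩
    · rintro ⟨h1, h2⟩
      refine ⟨?_, ?_, ?_⟩
      · change num d < (mkGD A E s nv).nd
        rw [nd_mkGD]
        exact num_lt d
      · change (mkGD A E s nv).hd (num d) = x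
        rw [hd_mkGD]
        exact h1
      · change (mkGD A E s nv).lg.IsWalk ((mkGD A E s nv).tl (num d)) (P.map num) y
        rw [tl_mkGD]
        exact (ih _).2 h2

/-- every walk in the numbers comes from a walk in the darts -/
theorem exists_isWalk_mkGD {x y : ℕ} {Q : List ℕ} (h : (mkGD A E s nv).lg.IsWalk x Q y) :
    ∃ P : List (Dart (Fin A.length) (Fin E.length)), P.map num = Q ∧
      (gr A E).IsWalk x P y := by
  obtain ⟨P, hP⟩ := num_list (a := A.length) (m := E.length) Q (by
    intro q hq
    have h1 : q < (mkGD A E s nv).nd := LG.lt_of_mem h q hq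
    rwa [nd_mkGD] at h1)
  refine ⟨P, hP, ?_⟩
  rw [← hP, isWalk_mkGD] at h
  exact h

theorem cost_mkGD (P : List (Dart (Fin A.length) (Fin E.length))) :
    (mkGD A E s nv).lg.cost (P.map num) = (gr A E).cost P := by
  unfold LG.cost MGr.cost
  rw [List.map_map]
  congr 1
  apply List.map_congr_left
  intro d _
  exact len_mkGD A E s nv d

theorem pos_mkGD (h : ∀ x ∈ A ++ E, 0 < x.2.2) : (mkGD A E s nv).lg.Pos := by
  intro q hq
  have hq' : q < A.length + (E.length + E.length) := by
    have h1 : q < (mkGD A E s nv).nd := hq
    rwa [nd_mkGD] at h1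
  obtain ⟨d, rfl⟩ := num_surj hq'
  change 0 < (mkGD A E s nv).len (num d)
  rw [len_mkGD]
  rcases d with i | ⟨i, b⟩
  · exact h _ (List.mem_append_left _ (List.get_mem _ _))
  · exact h _ (List.mem_append_right _ (List.get_mem _ _))

theorem pos_gr (h : ∀ x ∈ A ++ E, 0 < x.2.2) : (gr A E).Pos :=
  ⟨fun _ => h _ (List.mem_append_left _ (List.get_mem _ _)),
    fun _ => h _ (List.mem_append_right _ (List.get_mem _ _))⟩

theorem ends_mkGD (h : ∀ x ∈ A ++ E, x.1 < nv ∧ x.2.1 < nv) : (mkGD A E s nv).Ends := by
  intro q hq
  rw [nd_mkGD] at hq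
  obtain ⟨d, rfl⟩ := num_surj hq
  rw [hd_mkGD, tl_mkGD]
  change (gr A E).hd d < nv ∧ (gr A E).tl d < nv
  rcases d with i | ⟨i, b⟩
  · exact h _ (List.mem_append_left _ (List.get_mem _ _))
  · have h1 := h _ (List.mem_append_right A (List.get_mem E i))
    cases b
    · exact ⟨h1.2, h1.1⟩
    · exact h1

/-! ### forbidden letters -/

/-- the numbers of the letters forbidden after `P` -/
def forbD {a m : ℕ} (P : List (Dart (Fin a) (Fin m))) : List ℕ := (forb P).map num

theorem confl_mkGD (d : Dart (Fin A.length) (Fin E.length)) :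
    confl (mkGD A E s nv) (num d) = forbD [d] := by
  have h1 : (mkGD A E s nv).2.1.1 = A.length := rfl
  have h2 : (mkGD A E s nv).2.1.2 = E.length := rfl
  unfold confl
  rw [h1, h2]
  rcases d with i | ⟨i, b⟩
  · have hi := i.2
    have h : num (Sum.inl i : Dart (Fin A.length) (Fin E.length)) = i := rfl
    rw [h, if_pos hi]
    simp [forbD, forb, isE]
  · have hi := i.2
    cases b
    · have h : num (Sum.inr (i, false) : Dart (Fin A.length) (Fin E.length)) =
        A.length + E.length + i := rfl
      rw [h, if_neg (by omega), if_neg (by omega)]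
      simp [forbD, forb, isE, flp, num]
      omega
    · have h : num (Sum.inr (i, true) : Dart (Fin A.length) (Fin E.length)) =
        A.length + i := rfl
      rw [h, if_neg (by omega), if_pos (by omega)]
      simp [forbD, forb, isE, flp, num]
      omega

theorem forbD_append {a m : ℕ} (P P' : List (Dart (Fin a) (Fin m))) :
    forbD (P ++ P') = forbD P' ++ forbD P := by
  rw [forbD, forb_append, List.map_append]
  rfl

/-- the forbidden letters of the extension of a walk -/
theorem confl_append_forbD (P : List (Dart (Fin A.length) (Fin E.length)))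
    (d : Dart (Fin A.length) (Fin E.length)) :
    confl (mkGD A E s nv) (num d) ++ forbD P = forbD (P ++ [d]) := by
  rw [forbD_append, confl_mkGD]

theorem rr_forbD {a m : ℕ} (Q P : List (Dart (Fin a) (Fin m))) :
    rr (Q.map num) (forbD P) = rr Q (forb P) :=
  rr_map num_inj Q (forb P)

theorem length_forbD {a m : ℕ} (P : List (Dart (Fin a) (Fin m))) :
    (forbD P).length ≤ P.length := by
  unfold forbD forb
  rw [List.length_map, List.length_reverse, List.length_map]
  exact List.length_filter_le _ _

theorem forbD_lt {a m : ℕ} (P : List (Dart (Fin a) (Fin m))) :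
    ∀ q ∈ forbD P, q < a + (m + m) := by
  intro q hq
  obtain ⟨d, _, rfl⟩ := List.mem_map.1 hq
  exact num_lt d

/-- `Q` avoids the letters forbidden by `P` iff no undirected edge is used in one direction by `P`
and in the other direction by `Q` -/
theorem avoid_iff {a m : ℕ} (P Q : List (Dart (Fin a) (Fin m))) :
    (∀ q ∈ Q.map num, q ∉ forbD P) ↔
      ∀ (e : Fin m) (b : Bool), Sum.inr (e, b) ∈ P → Sum.inr (e, !b) ∉ Q := by
  constructor
  · intro h e b hP hQ
    refine h _ (List.mem_map.2 ⟨_, hQ, rfl⟩) ?_
    refine List.mem_map.2 ⟨_, ?_, rfl⟩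
    unfold forb
    rw [List.mem_reverse, List.mem_map]
    exact ⟨Sum.inr (e, b), List.mem_filter.2 ⟨hP, rfl⟩, rfl⟩
  · intro h q hq hq2
    obtain ⟨d, hd, rfl⟩ := List.mem_map.1 hq
    unfold forbD at hq2
    rw [mem_map_inj num_inj] at hq2
    unfold forb at hq2
    rw [List.mem_reverse, List.mem_map] at hq2
    obtain ⟨d', hd', rfl⟩ := hq2
    rw [List.mem_filter] at hd'
    rcases d' with i | ⟨e, b⟩
    · simp [isE] at hd'
    · exact h e b hd'.1 hd

/-- if moreover neither `P` nor `Q` uses an edge in both directions, the round trip is valid -/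
theorem ok_append_iff {a m : ℕ} (P Q : List (Dart (Fin a) (Fin m))) :
    Ok (P ++ Q) ↔ Ok P ∧ Ok Q ∧ ∀ q ∈ Q.map num, q ∉ forbD P := by
  rw [avoid_iff]
  constructor
  · intro h
    refine ⟨fun e h1 h2 => h e (by simp [h1]) (by simp [h2]),
      fun e h1 h2 => h e (by simp [h1]) (by simp [h2]), ?_⟩
    intro e b h1 h2
    cases b
    · exact h e (List.mem_append_right _ h2) (List.mem_append_left _ h1)
    · exact h e (List.mem_append_left _ h1) (List.mem_append_right _ h2)
  · rintro ⟨hP, hQ, h⟩ e h1 h2
    rcases List.mem_append.1 h1 with h1 | h1 <;> rcases List.mem_append.1 h2 with h2 | h2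
    · exact hP e h1 h2
    · exact h e true h1 h2
    · exact h e false h2 h1
    · exact hQ e h1 h2

end Pool.Agent.RTB
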