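import Pool.Agent.RTB.LinB
import Pool.Agent.M3.NatPoly

/-!
# Polynomial time: elimination over the field with `p` elements

The prime `p` and all lengths are given in unary (`UPoly`).
-/

set_option autoImplicit false

namespace Pool.Agent.RTB

open Pool.Agent.TM2Lib Pool.Agent.M3

variable {α β : Type} [Enc α] [Enc β]

/-! ### remainders -/

theorem modfold (p : ℕ) (hp : 0 < p) (l : List Bool) :
    l.foldr (fun b (s : Un) => (⟨(s.n + s.n + (if b then 1 else 0)) % p⟩ : Un)) ⟨0⟩ =
      ⟨bval l % p⟩ := by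
  induction l with
  | nil =>
    have hnil : bval ([] : List Bool) = 0 := rfl
    rw [hnil, List.foldr_nil, Nat.zero_mod]
  | cons b l ih =>
    have h2 : bval (b :: l) = Nat.bit b (bval l) := rfl
    rw [List.foldr_cons, ih, h2]
    congr 1
    simp only
    cases b
    · simp only [Nat.bit_false, Bool.false_eq_true, if_false, add_zero]
      rw [← Nat.add_mod, two_mul]
    · simp only [Nat.bit_true, if_true]
      rw [two_mul, Nat.add_mod (bval l % p + bval l % p) 1, ← Nat.add_mod (bval l) (bval l),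
        ← Nat.add_mod]

/-- remainder of a binary number modulo a unary one, in unary -/
theorem upoly_modp {f p : α → ℕ} (hf : Poly f) (hp : UPoly p) (h0 : ∀ a, 0 < p a) :
    UPoly (fun a => f a % p a) := by
  have hs : UPoly (fun x : α × (Un × Bool) => x.2.1.n + x.2.1.n + (if x.2.2 then 1 else 0)) :=
    ((UPoly.n.comp Poly.id.snd'.fst').add (UPoly.n.comp Poly.id.snd'.fst')).add
      (UPoly.ite Poly.id.snd'.snd' (UPoly.const 1) (UPoly.const 0))
  have hp' : UPoly (fun x : α × (Un × Bool) => p x.1) := UPoly.comp hp Poly.fst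
  obtain ⟨G, hG⟩ := Poly.size hp
  have h1 := Poly.foldr (f := fun a => (f a).bits) (g := fun _ => (⟨0⟩ : Un))
    (h := fun x : α × (Un × Bool) =>
      (⟨(x.2.1.n + x.2.1.n + (if x.2.2 then 1 else 0)) % p x.1⟩ : Un))
    hf.bits (TM2Lib.Poly.const _) (UPoly.mod hs hp') G (by
      intro a k
      simp only
      rw [modfold _ (h0 a), sz_Un]
      have h2 := hG a
      rw [sz_Un] at h2
      simp only at h2 ⊢
      have h3 := Nat.mod_lt (bval (List.drop k (f a).bits)) (h0 a)
      omega)
  exact Poly.of_eq h1 fun a => by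
    simp only
    rw [modfold _ (h0 a), bval_bits]

/-- remainder of a binary number modulo a unary one, in binary -/
theorem poly_modp {f p : α → ℕ} (hf : Poly f) (hp : UPoly p) (h0 : ∀ a, 0 < p a) :
    Poly (fun a => f a % p a) := UPoly.toNat (upoly_modp hf hp h0)

/-! ### sizes -/

theorem sz_lst_le (l : List β) (R : ℕ) (h : ∀ v ∈ l, sz v ≤ R) :
    sz l ≤ l.length * (R + 1) + 1 := by
  induction l with
  | nil => simp
  | cons x l ih =>
    have h1 := ih fun y hy => h y (List.mem_cons_of_mem _ hy)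
    have h2 := h x List.mem_cons_self
    rw [sz_cons, List.length_cons, Nat.succ_mul]
    omega

theorem sz_list_le (l : List β) (R : ℕ) (h : ∀ v ∈ l, sz v ≤ R) :
    sz l ≤ l.length * (R + 1) + 1 := sz_lst_le l R h

theorem sz_vt_le (m p : ℕ) (hp : 0 < p) (f : ℕ → ℕ) :
    sz (vt m fun i => f i % p) ≤ m * (4 * p + 2) + 1 := by
  have h1 := sz_lst_le (vt m fun i => f i % p) (4 * p + 1) (by
    intro x hx
    simp only [vt, List.mem_map] at hx
    obtain ⟨i, _, rfl⟩ := hx
    have h2 := Nat.mod_lt (f i) hp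
    have h3 := D1_sz_nat (f i % p)
    have h4 : Nat.size (f i % p) ≤ f i % p := Nat.size_le.2 Nat.lt_two_pow_self
    omega)
  rw [length_vt] at h1
  exact h1

/-! ### vectors -/

theorem poly_vt {m : α → ℕ} {f : α → ℕ → ℕ} (hm : UPoly m)
    (hf : Poly (fun x : α × Un => f x.1 x.2.n)) : Poly (fun a => vt (m a) (f a)) :=
  Poly.tab (h := fun x : α × Un => f x.1 x.2.n) hm hf

theorem poly_ent {v : α → List ℕ} {j : α → ℕ} (hv : Poly v) (hj : UPoly j) :
    Poly (fun a => ent (v a) (j a)) := Poly.getD hv hj (TM2Lib.Poly.const 0)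

theorem poly_lsub {p m c : α → ℕ} {r v : α → List ℕ} (hp : UPoly p) (h0 : ∀ a, 0 < p a)
    (hm : UPoly m) (hc : Poly c) (hr : Poly r) (hv : Poly v) :
    Poly (fun a => lsub (p a) (m a) (c a) (r a) (v a)) := by
  unfold lsub
  refine poly_vt (f := fun a i => (ent (v a) i + (p a - c a % p a) * ent (r a) i) % p a) hm ?_
  have hj : UPoly (fun x : α × Un => x.2.n) := UPoly.n.comp Poly.snd
  have hp1 : UPoly (fun x : α × Un => p x.1) := hp.comp Poly.fst
  have h01 : ∀ x : α × Un, 0 < p x.1 := fun x => h0 x.1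
  refine poly_modp (poly_nat_add (poly_ent (hv.comp Poly.fst) hj) (poly_nat_mul
    (poly_nat_sub hp1.toNat (poly_modp (hc.comp Poly.fst) hp1 h01))
    (poly_ent (hr.comp Poly.fst) hj))) hp1 h01

theorem poly_lsmul {p m c : α → ℕ} {v : α → List ℕ} (hp : UPoly p) (h0 : ∀ a, 0 < p a)
    (hm : UPoly m) (hc : Poly c) (hv : Poly v) :
    Poly (fun a => lsmul (p a) (m a) (c a) (v a)) := by
  unfold lsmul
  refine poly_vt (f := fun a i => (c a * ent (v a) i) % p a) hm ?_
  have hj : UPoly (fun x : α × Un => x.2.n) := UPoly.n.comp Poly.snd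
  exact poly_modp (poly_nat_mul (hc.comp Poly.fst) (poly_ent (hv.comp Poly.fst) hj))
    (hp.comp Poly.fst) (fun x => h0 x.1)

theorem poly_range {m : α → ℕ} (hm : UPoly m) : Poly (fun a => List.range (m a)) :=
  (Poly.tab (h := fun x : α × Un => x.2.n) hm (UPoly.toNat (UPoly.n.comp Poly.snd))).of_eq
    fun a => by rw [List.map_id']

theorem poly_pinv {p c : α → ℕ} (hp : UPoly p) (h0 : ∀ a, 0 < p a) (hc : Poly c) :
    Poly (fun a => pinv (p a) (c a)) := by
  unfold pinv
  refine Poly.headD (Poly.filter (h := fun x : α × ℕ => decide (c x.1 * x.2 % p x.1 = 1))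
    (poly_range hp) ?_) (TM2Lib.Poly.const 0)
  exact TM2Lib.Poly.nat_eq (poly_modp (poly_nat_mul (hc.comp Poly.fst) Poly.snd)
    (hp.comp Poly.fst) (fun x => h0 x.1)) (TM2Lib.Poly.const 1)

theorem poly_elimL {p m j : α → ℕ} {r v : α → List ℕ} (hp : UPoly p) (h0 : ∀ a, 0 < p a)
    (hm : UPoly m) (hj : UPoly j) (hr : Poly r) (hv : Poly v) :
    Poly (fun a => elimL (p a) (m a) (j a) (r a) (v a)) :=
  poly_lsub hp h0 hm (poly_ent hv hj) hr hv

theorem poly_normL {p m j : α → ℕ} {r : α → List ℕ} (hp : UPoly p) (h0 : ∀ a, 0 < p a)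
    (hm : UPoly m) (hj : UPoly j) (hr : Poly r) :
    Poly (fun a => normL (p a) (m a) (j a) (r a)) :=
  poly_lsmul hp h0 hm (poly_pinv hp h0 (poly_ent hr hj)) hr

/-! ### the elimination step -/

theorem stepL_eq (p m j : ℕ) (s : List (List ℕ) × List (List ℕ)) :
    stepL p m j s = lcase s (fun r l => (normL p m j r :: s.1.map (elimL p m j (normL p m j r)),
      l.map (elimL p m j (normL p m j r)) ++ s.2.filter (fun v => decide (ent v j % p = 0))))
      (s.2.filter (fun v => !decide (ent v j % p = 0))) := by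
  unfold stepL lcase
  rcases s.2.filter (fun v => !decide (ent v j % p = 0)) with _ | ⟨r, l⟩ <;> rfl

theorem poly_zero_filter {p j : α → ℕ} {L : α → List (List ℕ)} (hp : UPoly p)
    (h0 : ∀ a, 0 < p a) (hj : UPoly j) (hL : Poly L) :
    Poly (fun a => (L a).filter (fun v => decide (ent v (j a) % p a = 0))) :=
  Poly.filter (h := fun x : α × List ℕ => decide (ent x.2 (j x.1) % p x.1 = 0)) hL
    (TM2Lib.Poly.nat_eq (poly_modp (poly_ent Poly.snd (hj.comp Poly.fst)) (hp.comp Poly.fst)
      (fun x => h0 x.1)) (TM2Lib.Poly.const 0))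

theorem poly_nonzero_filter {p j : α → ℕ} {L : α → List (List ℕ)} (hp : UPoly p)
    (h0 : ∀ a, 0 < p a) (hj : UPoly j) (hL : Poly L) :
    Poly (fun a => (L a).filter (fun v => !decide (ent v (j a) % p a = 0))) :=
  Poly.filter (h := fun x : α × List ℕ => !decide (ent x.2 (j x.1) % p x.1 = 0)) hL
    (Poly.not (TM2Lib.Poly.nat_eq (poly_modp (poly_ent Poly.snd (hj.comp Poly.fst))
      (hp.comp Poly.fst) (fun x => h0 x.1)) (TM2Lib.Poly.const 0)))

theorem poly_map_elimL {p m j : α → ℕ} {r : α → List ℕ} {L : α → List (List ℕ)} (hp : UPoly p)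
    (h0 : ∀ a, 0 < p a) (hm : UPoly m) (hj : UPoly j) (hr : Poly r) (hL : Poly L) :
    Poly (fun a => (L a).map (elimL (p a) (m a) (j a) (r a))) :=
  TM2Lib.Poly.map (h := fun x : α × List ℕ => elimL (p x.1) (m x.1) (j x.1) (r x.1) x.2) hL
    (poly_elimL (hp.comp Poly.fst) (fun x => h0 x.1) (hm.comp Poly.fst) (hj.comp Poly.fst)
      (hr.comp Poly.fst) Poly.snd)

theorem poly_stepL {p m j : α → ℕ} {s : α → List (List ℕ) × List (List ℕ)} (hp : UPoly p)
    (h0 : ∀ a, 0 < p a) (hm : UPoly m) (hj : UPoly j) (hs : Poly s) :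
    Poly (fun a => stepL (p a) (m a) (j a) (s a)) := by
  have h := Poly.list_cases (f := fun a => (s a).2.filter (fun v => !decide (ent v (j a) % p a = 0)))
    (g := s) (h := fun x : α × (List ℕ × List (List ℕ)) =>
      (normL (p x.1) (m x.1) (j x.1) x.2.1 ::
        (s x.1).1.map (elimL (p x.1) (m x.1) (j x.1) (normL (p x.1) (m x.1) (j x.1) x.2.1)),
      x.2.2.map (elimL (p x.1) (m x.1) (j x.1) (normL (p x.1) (m x.1) (j x.1) x.2.1)) ++
        (s x.1).2.filter (fun v => decide (ent v (j x.1) % p x.1 = 0))))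
    (poly_nonzero_filter hp h0 hj hs.snd') hs ?_
  · exact h.of_eq fun a => (stepL_eq (p a) (m a) (j a) (s a)).symm
  · have hp1 : UPoly (fun x : α × (List ℕ × List (List ℕ)) => p x.1) := hp.comp Poly.fst
    have h01 : ∀ x : α × (List ℕ × List (List ℕ)), 0 < p x.1 := fun x => h0 x.1
    have hm1 : UPoly (fun x : α × (List ℕ × List (List ℕ)) => m x.1) := hm.comp Poly.fst
    have hj1 : UPoly (fun x : α × (List ℕ × List (List ℕ)) => j x.1) := hj.comp Poly.fst
    have hn := poly_normL hp1 h01 hm1 hj1 (Poly.id.snd'.fst' (α := α × (List ℕ × List (List ℕ))))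
    refine Poly.pair (Poly.cons hn (poly_map_elimL hp1 h01 hm1 hj1 hn (hs.comp Poly.fst).fst')) ?_
    exact Poly.append (poly_map_elimL hp1 h01 hm1 hj1 hn Poly.id.snd'.snd')
      (poly_zero_filter hp1 h01 hj1 (hs.comp Poly.fst).snd')

/-- the state of the elimination is small -/
def SmallS (R K : ℕ) (s : List (List ℕ) × List (List ℕ)) : Prop :=
  (∀ v ∈ s.1, sz v ≤ R) ∧ (∀ v ∈ s.2, sz v ≤ R) ∧ s.1.length + s.2.length = K

theorem small_stepL {p m : ℕ} (hp : 0 < p) (j R K : ℕ) (hR : m * (4 * p + 2) + 1 ≤ R)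
    (s : List (List ℕ) × List (List ℕ)) (h : SmallS R K s) : SmallS R K (stepL p m j s) := by
  obtain ⟨h1, h2, h3⟩ := h
  have hel : ∀ r v : List ℕ, sz (elimL p m j r v) ≤ R := fun r v => (sz_vt_le m p hp _).trans hR
  have hno : ∀ r : List ℕ, sz (normL p m j r) ≤ R := fun r => (sz_vt_le m p hp _).trans hR
  have hlen : (s.2.filter (fun v => decide (ent v j % p = 0))).length +
      (s.2.filter (fun v => !decide (ent v j % p = 0))).length = s.2.length := by
    have := List.length_eq_length_filter_add (l := s.2) (fun v => decide (ent v j % p = 0))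
    simpa using this.symm
  unfold stepL
  rcases hl : s.2.filter (fun v => !decide (ent v j % p = 0)) with _ | ⟨r, l⟩
  · exact ⟨h1, h2, h3⟩
  · rw [hl] at hlen
    refine ⟨?_, ?_, ?_⟩
    · intro v hv
      rcases List.mem_cons.1 hv with rfl | hv
      · exact hno r
      · obtain ⟨w, _, rfl⟩ := List.mem_map.1 hv
        exact hel _ _
    · intro v hv
      rcases List.mem_append.1 hv with hv | hv
      · obtain ⟨w, _, rfl⟩ := List.mem_map.1 hv
        exact hel _ _
      · exact h2 v (List.mem_of_mem_filter hv)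
    · simp only [List.length_cons, List.length_map, List.length_append] at hlen ⊢
      omega

theorem small_foldl {p m : ℕ} (hp : 0 < p) (R K : ℕ) (hR : m * (4 * p + 2) + 1 ≤ R)
    (l : List ℕ) : ∀ s, SmallS R K s →
      SmallS R K (l.foldl (fun s j => stepL p m j s) s) := by
  induction l with
  | nil => exact fun s h => h
  | cons j l ih => exact fun s h => ih _ (small_stepL hp j R K hR s h)

theorem sz_small {R K : ℕ} {s : List (List ℕ) × List (List ℕ)} (h : SmallS R K s) :
    sz s ≤ K * (R + 1) + 3 := by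
  obtain ⟨h1, h2, h3⟩ := h
  have h4 := sz_lst_le s.1 R h1
  have h5 := sz_lst_le s.2 R h2
  have h6 : sz s = sz s.1 + sz s.2 + 1 := sz_pair s.1 s.2
  rw [h6, ← h3, Nat.add_mul]
  omega

theorem small_start (p m : ℕ) (L : List (List ℕ)) :
    SmallS (m * (4 * p + 2) + 1 + sz L) L.length ([], L) := by
  refine ⟨?_, ?_, ?_⟩
  · intro v hv; cases hv
  · intro v hv
    have h1 : sz v ≤ sz L := Poly.sz_mem_le hv
    omega
  · simp

theorem small_elimN {p : ℕ} (hp : 0 < p) (m n : ℕ) (L : List (List ℕ)) :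
    SmallS (m * (4 * p + 2) + 1 + sz L) L.length (elimN p m n L) :=
  small_foldl hp _ _ (by omega) _ _ (small_start p m L)

theorem poly_elimN {p m n : α → ℕ} {L : α → List (List ℕ)} (hp : UPoly p)
    (h0 : ∀ a, 0 < p a) (hm : UPoly m) (hn : UPoly n) (hL : Poly L) :
    Poly (fun a => elimN (p a) (m a) (n a) (L a)) := by
  obtain ⟨P, hP⟩ := Poly.size hp
  obtain ⟨M, hM⟩ := Poly.size hm
  obtain ⟨Q, hQ⟩ := hL.size
  have h := Poly.foldl (f := fun a => (List.range (n a)).map Un.mk)
    (g := fun a => (([] : List (List ℕ)), L a))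
    (h := fun x : α × ((List (List ℕ) × List (List ℕ)) × Un) =>
      stepL (p x.1) (m x.1) x.2.2.n x.2.1) (Poly.range hn) (Poly.pair (TM2Lib.Poly.const []) hL)
    (poly_stepL (hp.comp Poly.fst) (fun x => h0 x.1) (hm.comp Poly.fst)
      (UPoly.n.comp Poly.id.snd'.snd') Poly.id.snd'.fst')
    (Q * (M * (4 * P + 2) + 1 + Q + 1) + 3) (by
      intro a k
      have e : (List.map Un.mk (List.range (n a))).take k =
          ((List.range (n a)).take k).map Un.mk := by rw [List.map_take]
      rw [e, List.foldl_map]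
      have h1 := small_foldl (m := m a) (h0 a) (m a * (4 * p a + 2) + 1 + sz (L a)) (L a).length
        (by omega) ((List.range (n a)).take k) _ (small_start (p a) (m a) (L a))
      refine (sz_small h1).trans ?_
      have h2 := hP a
      have h3 := hM a
      have h4 := hQ a
      rw [sz_Un] at h2 h3
      simp only at h2 h3
      have h5 := length_lt_sz (L a)
      simp only [Polynomial.eval_add, Polynomial.eval_mul, Polynomial.eval_ofNat,
        Polynomial.eval_one]
      have h6 : m a * (4 * p a + 2) ≤ M.eval (sz a) * (4 * P.eval (sz a) + 2) :=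
        Nat.mul_le_mul (by omega) (by omega)
      have h7 : (L a).length * (m a * (4 * p a + 2) + 1 + sz (L a) + 1) ≤
          Q.eval (sz a) * (M.eval (sz a) * (4 * P.eval (sz a) + 2) + 1 + Q.eval (sz a) + 1) :=
        Nat.mul_le_mul (by omega) (by omega)
      omega)
  exact h.of_eq fun a => by
    unfold elimN
    rw [List.foldl_map]

theorem poly_bas {p m : α → ℕ} {L : α → List (List ℕ)} (hp : UPoly p)
    (h0 : ∀ a, 0 < p a) (hm : UPoly m) (hL : Poly L) :
    Poly (fun a => bas (p a) (m a) (L a)) := (poly_elimN hp h0 hm hm hL).fst'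

end Pool.Agent.RTB
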