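import Pool.Agent.RTB.LinP
import Pool.Agent.RTB.LinD

/-!
# Polynomial time: relations, systems of equations, matrices
-/

set_option autoImplicit false

namespace Pool.Agent.RTB

open Pool.Agent.TM2Lib Pool.Agent.M3

variable {α β γ : Type} [Enc α] [Enc β] [Enc γ]

/-! ### options -/

theorem poly_toList {f : α → Option β} (hf : Poly f) : Poly (fun a => (f a).toList) := hf

theorem poly_isSome {f : α → Option β} (hf : Poly f) : Poly (fun a => (f a).isSome) :=
  (Poly.not (Poly.isEmpty (poly_toList hf))).of_eq fun a => by cases f a <;> rfl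

theorem poly_optGetD {f : α → Option β} {g : α → β} (hf : Poly f) (hg : Poly g) :
    Poly (fun a => (f a).getD (g a)) :=
  (Poly.headD (poly_toList hf) hg).of_eq fun a => by cases f a <;> rfl

/-! ### tables -/

theorem poly_tabG {m : α → ℕ} {f : α → ℕ → β} (hm : UPoly m)
    (hf : Poly (fun x : α × Un => f x.1 x.2.n)) : Poly (fun a => (List.range (m a)).map (f a)) :=
  Poly.tab (h := fun x : α × Un => f x.1 x.2.n) hm hf

theorem poly_row {L : α → List (List ℕ)} {i : α → ℕ} (hL : Poly L) (hi : UPoly i) :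
    Poly (fun a => row (L a) (i a)) := Poly.getD hL hi (TM2Lib.Poly.const [])

theorem poly_entM {A : α → List (List ℕ)} {i j : α → ℕ} (hA : Poly A) (hi : UPoly i)
    (hj : UPoly j) : Poly (fun a => entM (A a) (i a) (j a)) := poly_ent (poly_row hA hi) hj

theorem poly_mt {m n : α → ℕ} {f : α → ℕ → ℕ → ℕ} (hm : UPoly m) (hn : UPoly n)
    (hf : Poly (fun x : (α × Un) × Un => f x.1.1 x.1.2.n x.2.n)) :
    Poly (fun a => mt (m a) (n a) (f a)) :=
  poly_tabG (f := fun a i => vt (n a) (f a i)) hm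
    (poly_vt (f := fun (x : α × Un) j => f x.1 x.2.n j) (hn.comp Poly.fst) hf)

theorem poly_sm {n : α → ℕ} {f : α → ℕ → ℕ} (hn : UPoly n)
    (hf : Poly (fun x : α × Un => f x.1 x.2.n)) : Poly (fun a => sm (n a) (f a)) :=
  D1_sum (poly_tabG (f := f) hn hf)

/-! ### relations and systems -/

theorem poly_augRow {m k i : α → ℕ} {v : α → List ℕ} (hm : UPoly m) (hk : UPoly k)
    (hi : UPoly i) (hv : Poly v) : Poly (fun a => augRow (m a) (k a) (i a) (v a)) := by
  unfold augRow
  have hj : UPoly (fun x : α × Un => x.2.n) := UPoly.n.comp Poly.snd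
  have hm1 : UPoly (fun x : α × Un => m x.1) := hm.comp Poly.fst
  have hi1 : UPoly (fun x : α × Un => i x.1) := hi.comp Poly.fst
  refine poly_vt (f := fun a j => if j < m a then ent (v a) j else if j = m a + i a then 1
    else 0) (hm.add hk) ?_
  exact (Poly.ite (UPoly.lt hj hm1) (poly_ent (hv.comp Poly.fst) hj)
    (Poly.ite (UPoly.eq hj (hm1.add hi1)) (TM2Lib.Poly.const 1) (TM2Lib.Poly.const 0))).of_eq
      fun x => by simp only [decide_eq_true_eq]

theorem poly_augL {m k : α → ℕ} {L : α → List (List ℕ)} (hm : UPoly m) (hk : UPoly k)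
    (hL : Poly L) : Poly (fun a => augL (m a) (k a) (L a)) := by
  unfold augL
  have hj : UPoly (fun x : α × Un => x.2.n) := UPoly.n.comp Poly.snd
  exact poly_tabG (f := fun a i => augRow (m a) (k a) i (row (L a) i)) hk
    (poly_augRow (hm.comp Poly.fst) (hk.comp Poly.fst) hj (poly_row (hL.comp Poly.fst) hj))

theorem poly_rels {p m k : α → ℕ} {L : α → List (List ℕ)} (hp : UPoly p)
    (h0 : ∀ a, 0 < p a) (hm : UPoly m) (hk : UPoly k) (hL : Poly L) :
    Poly (fun a => rels (p a) (m a) (k a) (L a)) := by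
  unfold rels
  refine TM2Lib.Poly.map (h := fun x : α × List ℕ => vt (k x.1) fun i =>
    ent x.2 (m x.1 + i) % p x.1) (poly_elimN hp h0 (hm.add hk) hm (poly_augL hm hk hL)).snd' ?_
  refine poly_vt (f := fun (x : α × List ℕ) i => ent x.2 (m x.1 + i) % p x.1)
    (hk.comp Poly.fst) ?_
  exact poly_modp (poly_ent Poly.fst.snd' ((hm.comp Poly.fst.fst').add
    (UPoly.n.comp Poly.snd))) (hp.comp Poly.fst.fst') (fun x => h0 x.1.1)

theorem solve_eq (p m k : ℕ) (L : List (List ℕ)) (b : List ℕ) :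
    solve p m k L b = lcase none (fun c _ => some (vt k fun i =>
      (p - pinv p (ent c 0) % p) * ent c (i + 1) % p))
      ((rels p m (k + 1) (b :: L)).filter (fun c => !decide (ent c 0 % p = 0))) := by
  unfold solve lcase
  rcases (rels p m (k + 1) (b :: L)).filter (fun c => !decide (ent c 0 % p = 0)) with _ | ⟨r, l⟩
    <;> rfl

theorem poly_solve {p m k : α → ℕ} {L : α → List (List ℕ)} {b : α → List ℕ} (hp : UPoly p)
    (h0 : ∀ a, 0 < p a) (hm : UPoly m) (hk : UPoly k) (hL : Poly L) (hb : Poly b) :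
    Poly (fun a => solve (p a) (m a) (k a) (L a) (b a)) := by
  have h := Poly.list_cases (g := fun _ => (none : Option (List ℕ)))
    (h := fun x : α × (List ℕ × List (List ℕ)) => some (vt (k x.1) fun i =>
      (p x.1 - pinv (p x.1) (ent x.2.1 0) % p x.1) * ent x.2.1 (i + 1) % p x.1))
    (poly_nonzero_filter hp h0 (UPoly.const 0)
      (poly_rels hp h0 hm (hk.add (UPoly.const 1)) (Poly.cons hb hL)))
    (TM2Lib.Poly.const none) ?_
  · exact h.of_eq fun a => (solve_eq (p a) (m a) (k a) (L a) (b a)).symm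
  · refine Poly.some (poly_vt (f := fun (x : α × (List ℕ × List (List ℕ))) i =>
      (p x.1 - pinv (p x.1) (ent x.2.1 0) % p x.1) * ent x.2.1 (i + 1) % p x.1)
      (hk.comp Poly.fst) ?_)
    have hp1 : UPoly (fun x : (α × (List ℕ × List (List ℕ))) × Un => p x.1.1) :=
      hp.comp Poly.fst.fst'
    have h01 : ∀ x : (α × (List ℕ × List (List ℕ))) × Un, 0 < p x.1.1 := fun x => h0 x.1.1
    have hc : Poly (fun x : (α × (List ℕ × List (List ℕ))) × Un => x.1.2.1) :=
      Poly.fst.snd'.fst'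
    exact poly_modp (poly_nat_mul (poly_nat_sub hp1.toNat (poly_modp (poly_pinv hp1 h01
      (poly_ent hc (UPoly.const 0))) hp1 h01)) (poly_ent hc
        ((UPoly.n.comp Poly.snd).add (UPoly.const 1)))) hp1 h01

theorem poly_memb {p m : α → ℕ} {L : α → List (List ℕ)} {b : α → List ℕ} (hp : UPoly p)
    (h0 : ∀ a, 0 < p a) (hm : UPoly m) (hL : Poly L) (hb : Poly b) :
    Poly (fun a => memb (p a) (m a) (L a) (b a)) :=
  poly_isSome (poly_solve hp h0 hm (UPoly.length hL) hL hb)

/-! ### matrices -/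

theorem poly_mulVecL {p m n : α → ℕ} {A : α → List (List ℕ)} {x : α → List ℕ} (hp : UPoly p)
    (h0 : ∀ a, 0 < p a) (hm : UPoly m) (hn : UPoly n) (hA : Poly A) (hx : Poly x) :
    Poly (fun a => mulVecL (p a) (m a) (n a) (A a) (x a)) := by
  unfold mulVecL
  refine poly_vt (f := fun a i => sm (n a) (fun j => entM (A a) i j * ent (x a) j) % p a) hm ?_
  refine poly_modp (poly_sm (f := fun (y : α × Un) j => entM (A y.1) y.2.n j * ent (x y.1) j)
    (hn.comp Poly.fst) ?_) (hp.comp Poly.fst) (fun y => h0 y.1)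
  exact poly_nat_mul (poly_entM (hA.comp Poly.fst.fst') (UPoly.n.comp Poly.fst.snd')
    (UPoly.n.comp Poly.snd)) (poly_ent (hx.comp Poly.fst.fst') (UPoly.n.comp Poly.snd))

theorem poly_mulL {p m n k : α → ℕ} {A B : α → List (List ℕ)} (hp : UPoly p)
    (h0 : ∀ a, 0 < p a) (hm : UPoly m) (hn : UPoly n) (hk : UPoly k) (hA : Poly A)
    (hB : Poly B) : Poly (fun a => mulL (p a) (m a) (n a) (k a) (A a) (B a)) := by
  unfold mulL
  refine poly_mt (f := fun a i j => sm (n a) (fun l => entM (A a) i l * entM (B a) l j) % p a)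
    hm hk ?_
  refine poly_modp (poly_sm (f := fun (y : (α × Un) × Un) l =>
    entM (A y.1.1) y.1.2.n l * entM (B y.1.1) l y.2.n)
    (hn.comp Poly.fst.fst') ?_) (hp.comp Poly.fst.fst') (fun y => h0 y.1.1)
  exact poly_nat_mul (poly_entM (hA.comp Poly.fst.fst'.fst') (UPoly.n.comp Poly.fst.fst'.snd')
    (UPoly.n.comp Poly.snd)) (poly_entM (hB.comp Poly.fst.fst'.fst') (UPoly.n.comp Poly.snd)
    (UPoly.n.comp Poly.fst.snd'))

theorem poly_transpL {m n : α → ℕ} {A : α → List (List ℕ)} (hm : UPoly m) (hn : UPoly n)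
    (hA : Poly A) : Poly (fun a => transpL (m a) (n a) (A a)) := by
  unfold transpL
  exact poly_mt (f := fun a i j => entM (A a) j i) hn hm (poly_entM (hA.comp Poly.fst.fst')
    (UPoly.n.comp Poly.snd) (UPoly.n.comp Poly.fst.snd'))

theorem poly_addL {p m n : α → ℕ} {A B : α → List (List ℕ)} (hp : UPoly p)
    (h0 : ∀ a, 0 < p a) (hm : UPoly m) (hn : UPoly n) (hA : Poly A)
    (hB : Poly B) : Poly (fun a => addL (p a) (m a) (n a) (A a) (B a)) := by
  unfold addL
  refine poly_mt (f := fun a i j => (entM (A a) i j + entM (B a) i j) % p a) hm hn ?_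
  exact poly_modp (poly_nat_add (poly_entM (hA.comp Poly.fst.fst') (UPoly.n.comp Poly.fst.snd')
    (UPoly.n.comp Poly.snd)) (poly_entM (hB.comp Poly.fst.fst') (UPoly.n.comp Poly.fst.snd')
    (UPoly.n.comp Poly.snd))) (hp.comp Poly.fst.fst') (fun y => h0 y.1.1)

theorem poly_smulL {p m n c : α → ℕ} {A : α → List (List ℕ)} (hp : UPoly p)
    (h0 : ∀ a, 0 < p a) (hm : UPoly m) (hn : UPoly n) (hc : Poly c) (hA : Poly A) :
    Poly (fun a => smulL (p a) (m a) (n a) (c a) (A a)) := by
  unfold smulL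
  refine poly_mt (f := fun a i j => (c a * entM (A a) i j) % p a) hm hn ?_
  exact poly_modp (poly_nat_mul (hc.comp Poly.fst.fst') (poly_entM (hA.comp Poly.fst.fst')
    (UPoly.n.comp Poly.fst.snd') (UPoly.n.comp Poly.snd))) (hp.comp Poly.fst.fst')
    (fun y => h0 y.1.1)

theorem poly_unitL {m i : α → ℕ} (hm : UPoly m) (hi : UPoly i) :
    Poly (fun a => unitL (m a) (i a)) := by
  unfold unitL
  exact poly_vt (f := fun a j => if j = i a then 1 else 0) hm
    ((Poly.ite (UPoly.eq (UPoly.n.comp Poly.snd) (hi.comp Poly.fst)) (TM2Lib.Poly.const 1)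
      (TM2Lib.Poly.const 0)).of_eq fun x => by simp only [decide_eq_true_eq])

theorem poly_idL {m : α → ℕ} (hm : UPoly m) : Poly (fun a => idL (m a)) := by
  unfold idL
  exact poly_tabG (f := fun a => unitL (m a)) hm
    (poly_unitL (hm.comp Poly.fst) (UPoly.n.comp Poly.snd))

theorem upoly_rkL {p m n : α → ℕ} {A : α → List (List ℕ)} (hp : UPoly p)
    (h0 : ∀ a, 0 < p a) (hm : UPoly m) (hn : UPoly n) (hA : Poly A) :
    UPoly (fun a => rkL (p a) (m a) (n a) (A a)) := by
  unfold rkL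
  exact UPoly.length (poly_bas hp h0 hn (poly_tabG (f := fun a => row (A a)) hm
    (poly_row (hA.comp Poly.fst) (UPoly.n.comp Poly.snd))))

theorem poly_kerL {p m n : α → ℕ} {A : α → List (List ℕ)} (hp : UPoly p)
    (h0 : ∀ a, 0 < p a) (hm : UPoly m) (hn : UPoly n) (hA : Poly A) :
    Poly (fun a => kerL (p a) (m a) (n a) (A a)) :=
  poly_rels hp h0 hm hn (poly_transpL hm hn hA)

theorem poly_solveL {p m n : α → ℕ} {A : α → List (List ℕ)} {b : α → List ℕ} (hp : UPoly p)
    (h0 : ∀ a, 0 < p a) (hm : UPoly m) (hn : UPoly n) (hA : Poly A) (hb : Poly b) :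
    Poly (fun a => solveL (p a) (m a) (n a) (A a) (b a)) :=
  poly_solve hp h0 hm hn (poly_transpL hm hn hA) hb

theorem poly_preimL {p m n : α → ℕ} {A W : α → List (List ℕ)} (hp : UPoly p)
    (h0 : ∀ a, 0 < p a) (hm : UPoly m) (hn : UPoly n) (hA : Poly A) (hW : Poly W) :
    Poly (fun a => preimL (p a) (m a) (n a) (A a) (W a)) := by
  unfold preimL
  refine TM2Lib.Poly.map (h := fun x : α × List ℕ => vt (n x.1) fun i => ent x.2 i % p x.1)
    (poly_rels hp h0 hm (hn.add (UPoly.length hW)) (Poly.append (poly_transpL hm hn hA) hW)) ?_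
  exact poly_vt (f := fun (x : α × List ℕ) i => ent x.2 i % p x.1) (hn.comp Poly.fst)
    (poly_modp (poly_ent Poly.fst.snd' (UPoly.n.comp Poly.snd)) (hp.comp Poly.fst.fst')
      (fun x => h0 x.1.1))

theorem poly_invL {p n : α → ℕ} {A : α → List (List ℕ)} (hp : UPoly p)
    (h0 : ∀ a, 0 < p a) (hn : UPoly n) (hA : Poly A) :
    Poly (fun a => invL (p a) (n a) (A a)) := by
  unfold invL
  refine poly_transpL hn hn (poly_tabG (f := fun a j =>
    (solveL (p a) (n a) (n a) (A a) (unitL (n a) j)).getD []) hn ?_)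
  exact poly_optGetD (poly_solveL (hp.comp Poly.fst) (fun x => h0 x.1) (hn.comp Poly.fst)
    (hn.comp Poly.fst) (hA.comp Poly.fst) (poly_unitL (hn.comp Poly.fst)
      (UPoly.n.comp Poly.snd))) (TM2Lib.Poly.const [])

theorem poly_greedy {p m : α → ℕ} {W L : α → List (List ℕ)} (hp : UPoly p)
    (h0 : ∀ a, 0 < p a) (hm : UPoly m) (hW : Poly W) (hL : Poly L) :
    Poly (fun a => greedy (p a) (m a) (W a) (L a)) := by
  unfold greedy
  obtain ⟨Q, hQ⟩ := hL.size
  have h := Poly.foldl_add (f := L) (g := W)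
    (h := fun x : α × (List (List ℕ) × List ℕ) =>
      if memb (p x.1) (m x.1) x.2.1 x.2.2 then x.2.1 else x.2.1 ++ [x.2.2]) hL hW
    (Poly.ite (poly_memb (hp.comp Poly.fst) (fun x => h0 x.1) (hm.comp Poly.fst)
      Poly.id.snd'.fst' Poly.id.snd'.snd') Poly.id.snd'.fst'
      (Poly.append Poly.id.snd'.fst' (Poly.cons Poly.id.snd'.snd' (TM2Lib.Poly.const []))))
    (Q + 2) (by
      intro a s b hb
      simp only
      have h1 := Poly.sz_mem_le hb
      have h2 := hQ a
      simp only [Polynomial.eval_add, Polynomial.eval_ofNat]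
      split_ifs
      · omega
      · have h3 := Poly.sz_append s [b]
        rw [sz_cons, sz_nil] at h3
        omega)
  exact h

theorem poly_extL {p m : α → ℕ} {W : α → List (List ℕ)} (hp : UPoly p)
    (h0 : ∀ a, 0 < p a) (hm : UPoly m) (hW : Poly W) :
    Poly (fun a => extL (p a) (m a) (W a)) := poly_greedy hp h0 hm hW (poly_idL hm)

end Pool.Agent.RTB
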