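import Pool.Agent.RTB.Alg

/-!
# RTB LMENT: the entries of `lm0`, `lmq`, `lmc`

`LIx g` is the index type of the big matrix, `lix g : LIx g ≃ Fin g.sz` the numbering used by `lm`.
-/

namespace Pool.Agent.RTB

namespace LmE

/-! ### flat lists -/

theorem len1 {β : Type} (m n : ℕ) (f : ℕ → List β) (hf : ∀ i < m, (f i).length = n) :
    ((List.range m).flatMap f).length = m * n := by
  induction m with
  | zero => simp
  | succ m ih =>
    rw [List.range_succ, List.flatMap_append, List.length_append,
      ih fun i hi => hf i (by omega)]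
    simp only [List.flatMap_cons, List.flatMap_nil, List.append_nil]
    rw [hf m (by omega), Nat.succ_mul]

theorem getD1 {β : Type} {m n : ℕ} {f : ℕ → List β} (hf : ∀ i < m, (f i).length = n) (d : β)
    {i j : ℕ} (hi : i < m) (hj : j < n) :
    ((List.range m).flatMap f).getD (i * n + j) d = (f i).getD j d := by
  induction m with
  | zero => omega
  | succ m ih =>
    have hl := len1 m n f fun i hi => hf i (by omega)
    rw [List.range_succ, List.flatMap_append]
    simp only [List.flatMap_cons, List.flatMap_nil, List.append_nil]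
    by_cases h : i < m
    · rw [List.getD_append _ _ _ _ (by
        rw [hl]
        calc i * n + j < i * n + n := by omega
          _ = (i + 1) * n := by ring
          _ ≤ m * n := Nat.mul_le_mul_right _ (by omega))]
      exact ih (fun i hi => hf i (by omega)) h
    · have h1 : i = m := by omega
      subst h1
      rw [List.getD_append_right _ _ _ _ (by rw [hl]; omega), hl]
      congr 1
      omega

theorem len2 {β : Type} (l m n : ℕ) (f : ℕ → ℕ → List β) (hf : ∀ i j, (f i j).length = n) :
    ((List.range l).flatMap fun i => (List.range m).flatMap (f i)).length = l * m * n := by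
  rw [len1 l (m * n) _ fun i _ => len1 m n _ fun j _ => hf i j, Nat.mul_assoc]

theorem getD2 {β : Type} {l m n : ℕ} {f : ℕ → ℕ → List β} (hf : ∀ i j, (f i j).length = n) (d : β)
    {i j a : ℕ} (hi : i < l) (hj : j < m) (ha : a < n) :
    ((List.range l).flatMap fun i => (List.range m).flatMap (f i)).getD ((i * m + j) * n + a) d =
      (f i j).getD a d := by
  have h1 : (i * m + j) * n + a = i * (m * n) + (j * n + a) := by ring
  have h2 : j * n + a < m * n := by
    calc j * n + a < j * n + n := by omega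
      _ = (j + 1) * n := by ring
      _ ≤ m * n := Nat.mul_le_mul_right _ (by omega)
  rw [h1, getD1 (fun i _ => len1 m n _ fun j _ => hf i j) d hi h2,
    getD1 (fun j _ => hf i j) d hj ha]

theorem len_V3 (l m n : ℕ) (f : ℕ → ℕ → ℕ → ℕ) : (mkV3 l m n f).length = l * m * n :=
  len2 l m n (fun i j => vt n (f i j)) fun _ _ => length_vt _ _

theorem ent_V3 {l m n i j a : ℕ} (hi : i < l) (hj : j < m) (ha : a < n)
    (f : ℕ → ℕ → ℕ → ℕ) : ent (mkV3 l m n f) ((i * m + j) * n + a) = f i j a := by
  have h := getD2 (f := fun i j => vt n (f i j)) (fun _ _ => length_vt _ _) 0 hi hj ha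
  have h2 : (mkV3 l m n f).getD ((i * m + j) * n + a) 0 = (vt n (f i j)).getD a 0 := h
  rw [ent, h2, ← ent, ent_vt _ ha]

theorem ent_left {u v : List ℕ} {i : ℕ} (h : i < u.length) : ent (u ++ v) i = ent u i := by
  rw [ent, ent, List.getD_append _ _ _ _ h]

theorem ent_right {u v : List ℕ} {i : ℕ} : ent (u ++ v) (u.length + i) = ent v i := by
  rw [ent, ent, List.getD_append_right _ _ _ _ (by omega)]
  congr 1
  omega

theorem pos_lt {l m n i j a : ℕ} (hi : i < l) (hj : j < m) (ha : a < n) :
    (i * m + j) * n + a < l * m * n := by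
  have h1 : i * m + j < l * m := by
    calc i * m + j < i * m + m := by omega
      _ = (i + 1) * m := by ring
      _ ≤ l * m := Nat.mul_le_mul_right _ (by omega)
  calc (i * m + j) * n + a < (i * m + j) * n + n := by omega
    _ = (i * m + j + 1) * n := by ring
    _ ≤ l * m * n := Nat.mul_le_mul_right _ (by omega)

/-- entries of a row of the shape `mkV3 ++ vt` -/
theorem ent_row_left {l m n k i j a : ℕ} (hi : i < l) (hj : j < m) (ha : a < n)
    (f : ℕ → ℕ → ℕ → ℕ) (h : ℕ → ℕ) :
    ent (mkV3 l m n f ++ vt k h) ((i * m + j) * n + a) = f i j a := by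
  rw [ent_left (by rw [len_V3]; exact pos_lt hi hj ha), ent_V3 hi hj ha]

theorem ent_row_right {l m n k b : ℕ} (hb : b < k) (f : ℕ → ℕ → ℕ → ℕ) (h : ℕ → ℕ) :
    ent (mkV3 l m n f ++ vt k h) (l * m * n + b) = h b := by
  have h1 := ent_right (u := mkV3 l m n f) (v := vt k h) (i := b)
  rw [len_V3] at h1
  rw [h1, ent_vt _ hb]

/-- rows of a matrix of the shape of `lm0` -/
theorem row_top {l m n k i j a : ℕ} (hi : i < l) (hj : j < m) (ha : a < n)
    (R : ℕ → ℕ → ℕ → List ℕ) (S : ℕ → List ℕ) :
    row (((List.range l).flatMap fun i => (List.range m).flatMap fun j =>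
      (List.range n).map fun z => R i j z) ++ (List.range k).map S) ((i * m + j) * n + a) =
      R i j a := by
  have hl := len2 l m n (fun i j => (List.range n).map fun z => R i j z) fun _ _ => by simp
  rw [row_append_left (by
    rw [hl]
    exact pos_lt hi hj ha)]
  have h := getD2 (f := fun i j => (List.range n).map fun z => R i j z) (n := n)
    (fun _ _ => by simp) [] hi hj ha
  rw [row]
  refine h.trans ?_
  rw [List.getD_eq_getElem?_getD, List.getElem?_map, List.getElem?_range ha]
  rfl

theorem row_bot {l m n k b : ℕ} (hb : b < k)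
    (R : ℕ → ℕ → ℕ → List ℕ) (S : ℕ → List ℕ) :
    row (((List.range l).flatMap fun i => (List.range m).flatMap fun j =>
      (List.range n).map fun z => R i j z) ++ (List.range k).map S) (l * m * n + b) = S b := by
  have hl := len2 l m n (fun i j => (List.range n).map fun z => R i j z) fun _ _ => by simp
  have h := row_append_right (A := (List.range l).flatMap fun i => (List.range m).flatMap fun j =>
      (List.range n).map fun z => R i j z) (B := (List.range k).map S) (i := b)
  rw [hl] at h
  rw [h, row_map_range _ hb]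

end LmE

/-! ### the index type -/

/-- index type of the big matrix -/
abbrev LIx (g : GD) : Type := ((Fin g.np × Fin g.nd) × Fin (g.nv + 1)) ⊕ Fin g.np

/-- the numbering -/
def lix (g : GD) : LIx g ≃ Fin g.sz :=
  (Equiv.sumCongr ((Equiv.prodCongr finProdFinEquiv (Equiv.refl _)).trans finProdFinEquiv)
    (Equiv.refl _)).trans finSumFinEquiv

theorem lix_inl (g : GD) (i : Fin g.np) (j : Fin g.nd) (z : Fin (g.nv + 1)) :
    ((lix g (Sum.inl ((i, j), z)) : Fin g.sz) : ℕ) =
      ((i : ℕ) * g.nd + (j : ℕ)) * (g.nv + 1) + (z : ℕ) := by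
  have h : ((lix g (Sum.inl ((i, j), z)) : Fin g.sz) : ℕ) =
      ((finProdFinEquiv (finProdFinEquiv (i, j), z) : Fin (g.np * g.nd * (g.nv + 1))) : ℕ) := rfl
  rw [h, finProdFinEquiv_apply_val, finProdFinEquiv_apply_val]
  ring

theorem lix_inr (g : GD) (f : Fin g.np) :
    ((lix g (Sum.inr f) : Fin g.sz) : ℕ) = g.nt + (f : ℕ) := by
  rfl

/-! ### the entries -/

theorem lm_length (p : ℕ) (g : GD) (B : List Row) : (lm p g B).length = 1 + g.nd := by
  simp [lm, Nat.add_comm]

theorem lm_zero (p : ℕ) (g : GD) (B : List Row) : (lm p g B).getD 0 [] = lm0 p g B := rfl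

theorem lm_succ (p : ℕ) (g : GD) (B : List Row) {q : ℕ} (hq : q < g.nd) :
    (lm p g B).getD (1 + q) [] = lmq p g B q := by
  rw [lm, Nat.add_comm, List.getD_cons_succ, List.getD_eq_getElem?_getD, List.getElem?_map,
    List.getElem?_range hq]
  rfl

theorem lmc_zero (g : GD) : (lmc g).getD 0 0 = 0 := rfl

theorem lmc_succ (g : GD) {q : ℕ} (hq : q < g.nd) : (lmc g).getD (1 + q) 0 = g.len q := by
  rw [lmc, Nat.add_comm, List.getD_cons_succ, List.getD_eq_getElem?_getD, List.getElem?_map,
    List.getElem?_range hq]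
  rfl

section
variable (p : ℕ) (g : GD) (B : List Row)

theorem lm0_ll (i i' : Fin g.np) (j j' : Fin g.nd) (z z' : Fin (g.nv + 1)) :
    entM (lm0 p g B) (lix g (Sum.inl ((i, j), z))) (lix g (Sum.inl ((i', j'), z'))) =
      if i = i' then entT0 g (gR B i) j z j' z' else 0 := by
  rw [lix_inl, lix_inl, entM, lm0, LmE.row_top i.2 j.2 z.2, LmE.ent_row_left i'.2 j'.2 z'.2]
  simp only [Fin.ext_iff]

theorem lm0_lr (i f : Fin g.np) (j : Fin g.nd) (z : Fin (g.nv + 1)) :
    entM (lm0 p g B) (lix g (Sum.inl ((i, j), z))) (lix g (Sum.inr f)) =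
      (p - 1) * entC0 g (gR B i) j z f := by
  rw [lix_inl, lix_inr, entM, lm0, LmE.row_top i.2 j.2 z.2, GD.nt, LmE.ent_row_right f.2]

theorem lm0_rl (i i' : Fin g.np) (j : Fin g.nd) (z : Fin (g.nv + 1)) :
    entM (lm0 p g B) (lix g (Sum.inr i)) (lix g (Sum.inl ((i', j), z))) =
      if i = i' then entS0 g (gR B i) j z else 0 := by
  rw [lix_inl, lix_inr, entM, lm0, GD.nt, LmE.row_bot i.2, LmE.ent_row_left i'.2 j.2 z.2]
  simp only [Fin.ext_iff]

theorem lm0_rr (i f : Fin g.np) :
    entM (lm0 p g B) (lix g (Sum.inr i)) (lix g (Sum.inr f)) = entD0 (gR B i) f := by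
  rw [lix_inr, lix_inr, entM, lm0, GD.nt, LmE.row_bot i.2, LmE.ent_row_right f.2]

theorem lmq_ll (q : ℕ) (i i' : Fin g.np) (j j' : Fin g.nd) (z z' : Fin (g.nv + 1)) :
    entM (lmq p g B q) (lix g (Sum.inl ((i, j), z))) (lix g (Sum.inl ((i', j'), z'))) =
      if i = i' then (p - 1) * entTq g (gR B i) q j z j' z' else 0 := by
  rw [lix_inl, lix_inl, entM, lmq, LmE.row_top i.2 j.2 z.2, LmE.ent_row_left i'.2 j'.2 z'.2]
  simp only [Fin.ext_iff]

theorem lmq_lr (q : ℕ) (i f : Fin g.np) (j : Fin g.nd) (z : Fin (g.nv + 1)) :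
    entM (lmq p g B q) (lix g (Sum.inl ((i, j), z))) (lix g (Sum.inr f)) = 0 := by
  rw [lix_inl, lix_inr, entM, lmq, LmE.row_top i.2 j.2 z.2, GD.nt, LmE.ent_row_right f.2]

theorem lmq_r (q : ℕ) (i : Fin g.np) (x : LIx g) :
    entM (lmq p g B q) (lix g (Sum.inr i)) (lix g x) = 0 := by
  rw [lix_inr, entM, lmq, GD.nt, LmE.row_bot i.2, ent_vt _ (lix g x).2]

end

end Pool.Agent.RTB
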