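import Pool.Agent.RTB.MainVA
import Pool.Agent.RTB.GDefs

/-!
# RTB MAINV: the value

If the final family at `t` consists of rows of walks and its span contains the rows of all short walks,
then `valR` is the minimum length of a round trip.
-/

namespace Pool.Agent.RTB

open Pool.Agent.RTO

/-! ### bounds -/

theorem sum_get {α : Type} (f : α → ℕ) (l : List α) :
    ∑ i : Fin l.length, f (l.get i) = (l.map f).sum := by
  rw [← List.sum_ofFn]
  congr 1
  apply List.ext_get
  · simp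
  · intro n h1 h2
    simp

theorem cost_nodup {A E : List Arc} {P : List (Dart (Fin A.length) (Fin E.length))}
    (h : P.Nodup) : (gr A E).cost P ≤ 2 * ((A ++ E).map fun x => x.2.2).sum := by
  have h1 : (gr A E).cost P = ∑ d ∈ P.toFinset, (gr A E).len d := by
    rw [MGr.cost, List.sum_toFinset _ h]
  have h2 : ∑ d : Dart (Fin A.length) (Fin E.length), (gr A E).len d =
      (A.map fun x => x.2.2).sum + 2 * (E.map fun x => x.2.2).sum := by
    rw [Fintype.sum_sum_type, Fintype.sum_prod_type]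
    have h3 : ∀ i : Fin A.length, (gr A E).len (Sum.inl i) = (A.get i).2.2 := fun _ => rfl
    have h4 : ∀ (i : Fin E.length) (b : Bool), (gr A E).len (Sum.inr (i, b)) = (E.get i).2.2 :=
      fun _ _ => rfl
    simp only [h3, h4]
    rw [sum_get (fun x : Arc => x.2.2) A]
    simp only [Finset.sum_const, Finset.card_univ, Fintype.card_bool, smul_eq_mul]
    rw [← Finset.mul_sum, sum_get (fun x : Arc => x.2.2) E]
  rw [h1]
  refine (Finset.sum_le_sum_of_subset (Finset.subset_univ _)).trans ?_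
  rw [h2, List.map_append, List.sum_append]
  omega

theorem isLG_mkGD (A E : List Arc) (s nv : ℕ) : IsLG (gr A E) (mkGD A E s nv).lg :=
  ⟨nd_mkGD A E s nv, hd_mkGD A E s nv, tl_mkGD A E s nv, len_mkGD A E s nv⟩

theorem forbL_mkGD (A E : List Arc) (s nv : ℕ) (P : List (Dart (Fin A.length) (Fin E.length))) :
    forbL (mkGD A E s nv) (P.map num) = (forb P).map num := by
  induction P using List.reverseRecOn with
  | nil => rfl
  | append_singleton P d ih =>
    rw [List.map_append, List.map_singleton, forbL_append, ih]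
    exact confl_append_forbD A E s nv P d

theorem cst_lt_bigH (A E : List Arc) (s t c : ℕ) (hc : IsLeast (Cst A E s t) c) :
    c < bigH A E := by
  rw [cst_eq] at hc
  obtain ⟨P, Q, ⟨hP, hQ, hok⟩, hcost⟩ := hc.1
  obtain ⟨P', hP1, hP2, hP3, hP4⟩ := exists_nodup hP
  obtain ⟨Q', hQ1, hQ2, hQ3, hQ4⟩ := exists_nodup hQ
  have hsub : P' ++ Q' ⊆ P ++ Q := by
    intro x hx
    rcases List.mem_append.1 hx with hx | hx
    · exact List.mem_append_left _ (hP2 hx)
    · exact List.mem_append_right _ (hQ2 hx)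
  have h1 := hc.2 ⟨P', Q', ⟨hP1, hQ1, fun e h1 h2 => hok e (hsub h1) (hsub h2)⟩, rfl⟩
  have h2 := cost_nodup hP3
  have h3 := cost_nodup hQ3
  unfold bigH
  omega

section

variable {K : Type} [Ring K] (A E : List Arc) (s t nv : ℕ) (Y : ℕ → K) (B : List Row)

/-- the family gives exactly the minimum -/
theorem valF_main (hs : s < nv) (ht : t < nv) (hpos : ∀ x ∈ A ++ E, 0 < x.2.2)
    (hv : ∀ x ∈ A ++ E, x.1 < nv ∧ x.2.1 < nv)
    (hY : ∀ (S : Finset (List ℕ)) (Q₀ : List ℕ), Q₀ ∈ S →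
      (∀ Q ∈ S, Q ≠ Q₀ → ∃ q ∈ Q, q ∉ Q₀) → ∑ Q ∈ S, word Y Q ≠ 0)
    (h1 : ∀ x ∈ B, x.1 = true → ∃ P, (mkGD A E s nv).lg.IsWalk s P t ∧
      x.2.1 = forbL (mkGD A E s nv) P ∧ x.2.2.1 = (mkGD A E s nv).lg.cost P)
    (h2 : ∀ P, (mkGD A E s nv).lg.IsWalk s P t → P.length ≤ (mkGD A E s nv).nd →
      rowW (mkGD A E s nv).lg Y s (forbL (mkGD A E s nv) P) ((mkGD A E s nv).lg.cost P) ∈
        Submodule.span (PowerSeries K) (rowsS (mkGD A E s nv).lg Y s (bigH A E)
          {y | ∃ x ∈ B, x.1 = true ∧ y = (x.2.1, x.2.2.1)})) :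
    (∀ c, IsLeast (Cst A E s t) c → valF (mkGD A E s nv) t B = some c) ∧
      (Cst A E s t = ∅ → valF (mkGD A E s nv) t B = none) := by
  have hL := isLG_mkGD A E s nv
  have hG : (gr A E).Pos := pos_gr A E hpos
  have hsound : ∀ c, valF (mkGD A E s nv) t B = some c → ∃ k ∈ Cst A E s t, k ≤ c := by
    intro c hc
    obtain ⟨r, hr, hr1, Q, hQ, hav, hcost⟩ := valF_sound hc
    obtain ⟨P, hP, hX, hl⟩ := h1 r hr hr1
    obtain ⟨P', hP', rfl⟩ := hL.lift hP
    rw [forbL_mkGD] at hX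
    rw [hX] at hav
    obtain ⟨k, hk, hkc⟩ := fam_ge hL hG hP' hQ hav
    rw [← cst_eq] at hk
    refine ⟨k, hk, ?_⟩
    rw [hl, hL.cost] at hcost
    omega
  refine ⟨fun c hc => ?_, fun he => ?_⟩
  · obtain ⟨x, hx, Q, hQ, hav, hcost⟩ := fam_le hL hG (c := c) (by rw [← cst_eq]; exact hc) Y hY
      (bigH A E) (cst_lt_bigH A E s t c hc) {y | ∃ x ∈ B, x.1 = true ∧ y = (x.2.1, x.2.2.1)}
      (by
        rintro y ⟨x, hx, hx1, rfl⟩
        obtain ⟨P, hP, hX, hl⟩ := h1 x hx hx1
        obtain ⟨P', hP', rfl⟩ := hL.lift hP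
        refine ⟨P', hP', ?_⟩
        rw [hX, hl, forbL_mkGD, hL.cost])
      (by
        intro P hP hPl
        have h3 := h2 (P.map num) (hL.push hP) (by rw [List.length_map]; exact hPl)
        rw [forbL_mkGD, hL.cost] at h3
        exact h3)
    obtain ⟨r, hr, hr1, rfl⟩ := hx
    have hE := ends_mkGD A E s nv hv
    obtain ⟨c', hc', hle⟩ := valF_complete hE ht (show (mkGD A E s nv).2.2.2 < nv from hs) hr hr1
      hQ hav
    obtain ⟨k, hk, hkc⟩ := hsound c' hc'
    have h3 := hc.2 hk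
    simp only at hcost
    have h4 : c' = c := by omega
    rw [hc', h4]
  · rcases hval : valF (mkGD A E s nv) t B with _ | c
    · rfl
    · obtain ⟨k, hk, -⟩ := hsound c hval
      rw [he] at hk
      exact absurd hk (Set.notMem_empty k)

end

end Pool.Agent.RTB
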