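import Pool.Agent.RTB.Low
import Pool.Agent.RTB.Dom
import Pool.Agent.RTB.GrLink
import Pool.Agent.RTO.CstEq

/-!
# RTB MAINV, part A: a family of rows that spans all walks contains an optimal one
-/

namespace Pool.Agent.RTB

open Pool.Agent.RTO

/-! ### the graph of the letters -/

/-- `L` is the graph `G` with the darts written as numbers -/
structure IsLG {a m : ℕ} (G : MGr ℕ (Fin a) (Fin m)) (L : LG) : Prop where
  hD : L.D = a + (m + m)
  hhd : ∀ x, L.hd (num x) = G.hd x
  htl : ∀ x, L.tl (num x) = G.tl x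
  hlen : ∀ x, L.len (num x) = G.len x

variable {a m : ℕ} {G : MGr ℕ (Fin a) (Fin m)} {L : LG}

theorem IsLG.push (h : IsLG G L) : ∀ {Q : List (Dart (Fin a) (Fin m))} {x y : ℕ},
    G.IsWalk x Q y → L.IsWalk x (Q.map num) y
  | [], _, _, hQ => hQ
  | q :: Q, x, y, hQ => by
    obtain ⟨h1, h2⟩ := hQ
    refine ⟨by rw [h.hD]; exact num_lt q, by rw [h.hhd]; exact h1, ?_⟩
    rw [h.htl]
    exact h.push h2

theorem IsLG.lift (h : IsLG G L) : ∀ {Q : List ℕ} {x y : ℕ}, L.IsWalk x Q y →
    ∃ Q' : List (Dart (Fin a) (Fin m)), G.IsWalk x Q' y ∧ Q = Q'.map num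
  | [], _, _, hQ => ⟨[], hQ, rfl⟩
  | q :: Q, x, y, hQ => by
    obtain ⟨h1, h2, h3⟩ := hQ
    obtain ⟨d, rfl⟩ := num_surj (by rw [← h.hD]; exact h1)
    rw [h.htl] at h3
    obtain ⟨Q', h4, rfl⟩ := h.lift h3
    exact ⟨d :: Q', ⟨by rw [← h.hhd]; exact h2, h4⟩, rfl⟩

theorem IsLG.cost (h : IsLG G L) (Q : List (Dart (Fin a) (Fin m))) :
    L.cost (Q.map num) = G.cost Q := by
  unfold LG.cost MGr.cost
  rw [List.map_map]
  congr 1
  exact List.map_congr_left fun x _ => h.hlen x

theorem IsLG.pos (h : IsLG G L) (hG : G.Pos) : L.Pos := by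
  intro q hq
  obtain ⟨d, rfl⟩ := num_surj (by rw [← h.hD]; exact hq)
  rw [h.hlen]
  cases d with
  | inl i => exact hG.1 i
  | inr x => exact hG.2 x.1

theorem len_pos {V A E : Type} {G : MGr V A E} (hG : G.Pos) (d : Dart A E) : 0 < G.len d := by
  cases d with
  | inl i => exact hG.1 i
  | inr x => exact hG.2 x.1

/-! ### a shortest walk is determined by its letters -/

theorem uniq_aux {V A E : Type} {G : MGr V A E} (hG : G.Pos) {t s : V} {Q₀ : List (Dart A E)}
    (hmin : ∀ Q' : List (Dart A E), G.IsWalk t Q' s → Q' ⊆ Q₀ → G.cost Q₀ ≤ G.cost Q') :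
    ∀ (Q pre suf : List (Dart A E)) (x : V), Q₀ = pre ++ suf → G.IsWalk t pre x →
      G.IsWalk x suf s → G.IsWalk x Q s → Q ⊆ Q₀ → G.cost Q = G.cost suf → Q = suf
  | [], pre, suf, x, _, _, _, _, _, hc => by
    cases suf with
    | nil => rfl
    | cons p suf =>
      exfalso
      rw [cost_cons] at hc
      have := len_pos hG p
      simp [MGr.cost] at hc
      omega
  | q :: Q, pre, [], x, _, _, _, _, _, hc => by
    exfalso
    rw [cost_cons] at hc
    have := len_pos hG q
    simp [MGr.cost] at hc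
    omega
  | q :: Q, pre, p :: suf, x, hQ0, hpre, hsuf, hQ, hsub, hc => by
    by_cases hqp : q = p
    · subst hqp
      obtain ⟨h1, h2⟩ := hQ
      obtain ⟨h3, h4⟩ := hsuf
      rw [cost_cons, cost_cons] at hc
      rw [uniq_aux hG hmin Q (pre ++ [q]) suf (G.tl q) (by rw [hQ0]; simp)
        (isWalk_append.2 ⟨x, hpre, h1, rfl⟩) h4 h2 (fun y hy => hsub (List.mem_cons_of_mem _ hy))
        (by omega)]
    · exfalso
      have hq : q ∈ pre ++ p :: suf := by
        rw [← hQ0]
        exact hsub List.mem_cons_self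
      rcases List.mem_append.1 hq with hq | hq
      · obtain ⟨α, β, rfl⟩ := List.append_of_mem hq
        obtain ⟨y, h1, h2, h3⟩ := isWalk_append.1 hpre
        have hy : y = x := by rw [← h2, ← hQ.1]
        rw [hy] at h1
        have h4 := hmin (α ++ p :: suf) (isWalk_append.2 ⟨x, h1, hsuf⟩) (by
          rw [hQ0]
          intro z hz
          simp only [List.mem_append, List.mem_cons] at hz ⊢
          tauto)
        rw [hQ0, cost_append, cost_append, cost_append, cost_cons] at h4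
        have := len_pos hG q
        omega
      · rcases List.mem_cons.1 hq with hq | hq
        · exact hqp hq
        · obtain ⟨β, γ, rfl⟩ := List.append_of_mem hq
          obtain ⟨h1, h2⟩ := hsuf
          obtain ⟨y, h3, h4, h5⟩ := isWalk_append.1 h2
          have h6 := hmin (pre ++ q :: γ) (isWalk_append.2 ⟨x, hpre, hQ.1, h5⟩) (by
            rw [hQ0]
            intro z hz
            simp only [List.mem_append, List.mem_cons] at hz ⊢
            tauto)
          rw [hQ0, cost_append, cost_append, cost_cons, cost_append] at h6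
          have := len_pos hG p
          omega

theorem uniq_min {V A E : Type} {G : MGr V A E} (hG : G.Pos) {t s : V} {Q₀ Q : List (Dart A E)}
    (hmin : ∀ Q' : List (Dart A E), G.IsWalk t Q' s → Q' ⊆ Q₀ → G.cost Q₀ ≤ G.cost Q')
    (h0 : G.IsWalk t Q₀ s) (hQ : G.IsWalk t Q s) (hsub : Q ⊆ Q₀) (hc : G.cost Q = G.cost Q₀) :
    Q = Q₀ :=
  uniq_aux hG hmin Q [] Q₀ t rfl rfl h0 hQ hsub hc

/-! ### avoiding the forbidden letters -/

theorem avoid_of_ok {A E : Type} {P Q : List (Dart A E)} (h : Ok (P ++ Q)) :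
    ∀ q ∈ Q, q ∉ forb P := by
  intro q hq hf
  cases q with
  | inl a => exact inl_notMem_forb hf
  | inr x =>
    obtain ⟨e, b⟩ := x
    have h1 := mem_forb.1 hf
    cases b with
    | true => exact h e (List.mem_append_right _ hq) (List.mem_append_left _ h1)
    | false => exact h e (List.mem_append_left _ h1) (List.mem_append_right _ hq)

theorem length_le_of_nodup {P : List (Dart (Fin a) (Fin m))} (h : P.Nodup) :
    P.length ≤ a + (m + m) := by
  have h1 : P.length = P.toFinset.card := (List.toFinset_card_of_nodup h).symm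
  rw [h1]
  refine (Finset.card_le_univ _).trans ?_
  simp only [Fintype.card_sum, Fintype.card_fin, Fintype.card_prod, Fintype.card_bool]
  omega

variable {K : Type} [Ring K]

/-- an optimal walk is in the family -/
theorem fam_le (h : IsLG G L) (hG : G.Pos) {s t : ℕ} {c : ℕ} (hc : IsLeast (G.costs s t) c)
    (Y : ℕ → K) (hY : ∀ (S : Finset (List ℕ)) (Q₀ : List ℕ), Q₀ ∈ S →
      (∀ Q ∈ S, Q ≠ Q₀ → ∃ q ∈ Q, q ∉ Q₀) → ∑ Q ∈ S, word Y Q ≠ 0)
    (H : ℕ) (hH : c < H) (W : Set (List ℕ × ℕ))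
    (h1 : ∀ x ∈ W, ∃ P : List (Dart (Fin a) (Fin m)), G.IsWalk s P t ∧
      x = ((forb P).map num, G.cost P))
    (h2 : ∀ P : List (Dart (Fin a) (Fin m)), G.IsWalk s P t → P.length ≤ L.D →
      rowW L Y s ((forb P).map num) (G.cost P) ∈
        Submodule.span (PowerSeries K) (rowsS L Y s H W)) :
    ∃ x ∈ W, ∃ Q, L.IsWalk t Q s ∧ (∀ q ∈ Q, q ∉ x.1) ∧ x.2 + L.cost Q = c := by
  classical
  obtain ⟨P₁, Q₀, ⟨hP1, hQ0, hok1⟩, hcost1⟩ := hc.1
  obtain ⟨P, hP, hPsub, hPnd, hPc⟩ := exists_nodup hP1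
  have hok : Ok (P ++ Q₀) := by
    have hs : P ++ Q₀ ⊆ P₁ ++ Q₀ := by
      intro x hx
      rcases List.mem_append.1 hx with hx | hx
      · exact List.mem_append_left _ (hPsub hx)
      · exact List.mem_append_right _ hx
    exact fun e he he' => hok1 e (hs he) (hs he')
  have hcost : G.cost P + G.cost Q₀ = c := by
    have h3 := hc.2 ⟨P, Q₀, ⟨hP, hQ0, hok⟩, rfl⟩
    omega
  -- the walks that count
  have hlow : ∀ (P' Q' : List (Dart (Fin a) (Fin m))), G.IsWalk s P' t → G.IsWalk t Q' s →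
      rr Q' (forb P') ≠ 0 → c ≤ G.cost P' + G.cost Q' ∧
        (G.cost P' + G.cost Q' ≤ c → Ok (P' ++ Q')) := by
    intro P' Q' hP' hQ' hrr
    obtain ⟨P'', Q'', hv, hle, hlt⟩ := low hG hP' hQ' hrr
    have h3 := hc.2 ⟨P'', Q'', hv, rfl⟩
    refine ⟨h3.trans hle, fun h4 => ?_⟩
    by_contra h5
    have := hlt h5
    omega
  set X := (forb P).map num with hX
  set c0 := G.cost Q₀ with hc0
  have hcoef : PowerSeries.coeff c0 (rho L Y s X t) =
      ∑ Q ∈ (wks_finite L (h.pos hG) s c0 t).toFinset.filter (fun Q => ∀ q ∈ Q, q ∉ X),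
        word Y Q := by
    rw [rho, PowerSeries.coeff_mk,
      finsum_mem_eq_finite_toFinset_sum _ (wks_finite L (h.pos hG) s c0 t), Finset.sum_filter]
    refine Finset.sum_congr rfl fun Q hQ => ?_
    rw [Set.Finite.mem_toFinset] at hQ
    obtain ⟨hQ1, hQ2⟩ := hQ
    split_ifs with hav
    · rw [rr_disj hav]
      simp
    · have hrr : rr Q X = 0 := by
        by_contra hne
        obtain ⟨Q', hQ', rfl⟩ := h.lift hQ1
        rw [hX, rr_map num_inj] at hne
        rw [h.cost] at hQ2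
        have h3 := (hlow P Q' hP hQ' hne).2 (by omega)
        apply hav
        intro q hq hqX
        obtain ⟨q', hq', rfl⟩ := List.mem_map.1 hq
        rw [hX, List.mem_map_of_injective num_inj] at hqX
        exact avoid_of_ok h3 q' hq' hqX
      rw [hrr]
      simp
  have hne : PowerSeries.coeff c0 (rho L Y s X t) ≠ 0 := by
    rw [hcoef]
    refine hY _ (Q₀.map num) ?_ ?_
    · rw [Finset.mem_filter, Set.Finite.mem_toFinset]
      refine ⟨⟨h.push hQ0, h.cost Q₀⟩, fun q hq hqX => ?_⟩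
      obtain ⟨q', hq', rfl⟩ := List.mem_map.1 hq
      rw [hX, List.mem_map_of_injective num_inj] at hqX
      exact avoid_of_ok hok q' hq' hqX
    · intro Q hQ hQne
      rw [Finset.mem_filter, Set.Finite.mem_toFinset] at hQ
      obtain ⟨⟨hQ1, hQ2⟩, -⟩ := hQ
      obtain ⟨Q', hQ', rfl⟩ := h.lift hQ1
      rw [h.cost] at hQ2
      by_contra hno
      push Not at hno
      apply hQne
      have hsub : Q' ⊆ Q₀ := by
        intro x hx
        have := hno (num x) (List.mem_map_of_mem hx)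
        rwa [List.mem_map_of_injective num_inj] at this
      have hmin : ∀ Q'' : List (Dart (Fin a) (Fin m)), G.IsWalk t Q'' s → Q'' ⊆ Q₀ →
          G.cost Q₀ ≤ G.cost Q'' := by
        intro Q'' hQ'' hsub''
        have h3 := hc.2 ⟨P, Q'', ⟨hP, hQ'', fun e he he' => ?_⟩, rfl⟩
        · omega
        · have hs : P ++ Q'' ⊆ P ++ Q₀ := by
            intro x hx
            rcases List.mem_append.1 hx with hx | hx
            · exact List.mem_append_left _ hx
            · exact List.mem_append_right _ (hsub'' hx)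
          exact hok e (hs he) (hs he')
      rw [uniq_min hG hmin hQ0 hQ' hsub hQ2]
  have hlen : P.length ≤ L.D := by
    rw [h.hD]
    exact length_le_of_nodup hPnd
  obtain ⟨x, hx, c', hc', hne'⟩ := dom_coef L (h.pos hG) Y s H W X (G.cost P) (h2 P hP hlen) t c0
    (by omega) hne
  obtain ⟨Q, hQ, hQc, hQr⟩ := rho_coeff_ne L Y s x.1 t c' hne'
  obtain ⟨P', hP', rfl⟩ := h1 x hx
  obtain ⟨Q', hQ', rfl⟩ := h.lift hQ
  rw [rr_map num_inj] at hQr
  rw [h.cost] at hQc
  have h3 := hlow P' Q' hP' hQ' hQr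
  have h4 := h3.2 (by simp only at hc'; omega)
  refine ⟨_, hx, _, hQ, ?_, ?_⟩
  · intro q hq hqX
    obtain ⟨q', hq', rfl⟩ := List.mem_map.1 hq
    rw [List.mem_map_of_injective num_inj] at hqX
    exact avoid_of_ok h4 q' hq' hqX
  · rw [h.cost]
    simp only at hc' ⊢
    omega

/-- rows of the family give upper bounds -/
theorem fam_ge (h : IsLG G L) (hG : G.Pos) {s t : ℕ} {P : List (Dart (Fin a) (Fin m))}
    (hP : G.IsWalk s P t) {Q : List ℕ} (hQ : L.IsWalk t Q s)
    (hav : ∀ q ∈ Q, q ∉ (forb P).map num) :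
    ∃ k ∈ G.costs s t, k ≤ G.cost P + L.cost Q := by
  obtain ⟨Q', hQ', rfl⟩ := h.lift hQ
  have hrr : rr Q' (forb P) ≠ 0 := by
    rw [rr_disj fun q hq hf => hav _ (List.mem_map_of_mem hq) (List.mem_map_of_mem hf)]
    exact one_ne_zero
  obtain ⟨P'', Q'', hv, hle, -⟩ := low hG hP hQ' hrr
  exact ⟨_, ⟨P'', Q'', hv, rfl⟩, by rw [h.cost]; exact hle⟩

end Pool.Agent.RTB
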