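import Mathlib

/-!
# RTB MINORP: minors and matrices with polynomial entries

`exists_minor`: rank `≥ r` gives a nonzero `r × r` minor; `le_rank_of_minor`: the converse;
`rank_poly`: if a matrix over `L[T]` with entries of degree `≤ d` has rank `≥ r` at one point then it
has rank `≥ r` outside the roots of a nonzero polynomial of degree `≤ r * d`;
`rank_poly_ext`: the same with coefficients in `K` and the point in an extension field.
-/

open Polynomial

namespace Pool.Agent.RTB

variable {m n : Type} [Fintype m] [Fintype n]

theorem exists_cols {K : Type} [Field K] (A : Matrix m n K) {r : ℕ} (hr : r ≤ A.rank) :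
    ∃ g : Fin r → n, LinearIndependent K (fun i => fun a => A a (g i)) := by
  classical
  set s : Set (m → K) := Set.range A.col with hs
  obtain ⟨b, hbs, hspan, hli⟩ := exists_linearIndependent K s
  have hfin : b.Finite := (Set.finite_range _).subset hbs
  have : Fintype b := hfin.fintype
  have hcard : Fintype.card b = A.rank := by
    rw [Matrix.rank_eq_finrank_span_cols, ← hs, ← hspan]
    have := finrank_span_eq_card hli
    rw [Subtype.range_coe] at this
    exact this.symm
  have hle : Fintype.card (Fin r) ≤ Fintype.card b := by simpa [hcard] using hr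
  obtain ⟨e⟩ := Function.Embedding.nonempty_of_card_le hle
  have hg : ∀ i, ∃ j, A.col j = (e i : m → K) := fun i => hbs (e i).2
  choose g hg using hg
  refine ⟨g, ?_⟩
  have h2 := hli.comp e e.injective
  have h3 : (fun i => fun a => A a (g i)) = (Subtype.val ∘ e : Fin r → m → K) := by
    funext i a
    exact congrFun (hg i) a
  rw [h3]
  exact h2

theorem exists_minor {K : Type} [Field K] (A : Matrix m n K) {r : ℕ} (hr : r ≤ A.rank) :
    ∃ (f : Fin r → m) (g : Fin r → n), (A.submatrix f g).det ≠ 0 := by
  classical
  obtain ⟨g, hg⟩ := exists_cols A hr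
  have h1 : (A.submatrix id g).transpose.rank = r := by
    rw [Matrix.rank_transpose, Matrix.rank_eq_finrank_span_cols]
    have h := finrank_span_eq_card hg
    rw [Fintype.card_fin] at h
    exact h
  obtain ⟨f, hf⟩ := exists_cols (A.submatrix id g).transpose h1.ge
  refine ⟨f, g, ?_⟩
  have h2 : LinearIndependent K (A.submatrix f g).row := by
    exact hf
  exact ((Matrix.isUnit_iff_isUnit_det _).1
    (Matrix.linearIndependent_rows_iff_isUnit.1 h2)).ne_zero

theorem le_rank_of_minor {K : Type} [Field K] (A : Matrix m n K) {r : ℕ} (f : Fin r → m)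
    (g : Fin r → n) (h : (A.submatrix f g).det ≠ 0) : r ≤ A.rank := by
  have h1 : (A.submatrix f g).rank = r := by
    have := Matrix.rank_of_isUnit (A.submatrix f g)
      ((Matrix.isUnit_iff_isUnit_det _).2 (isUnit_iff_ne_zero.2 h))
    simpa using this
  rw [← h1]
  exact Matrix.rank_submatrix_le A f g

theorem natDegree_det_le' {R : Type} [CommRing R] {r d : ℕ} (A : Matrix (Fin r) (Fin r) R[X])
    (h : ∀ a b, (A a b).natDegree ≤ d) : A.det.natDegree ≤ r * d := by
  rw [Matrix.det_apply]
  refine Polynomial.natDegree_sum_le_of_forall_le _ _ fun σ _ => ?_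
  refine (Polynomial.natDegree_smul_le _ _).trans ?_
  refine (Polynomial.natDegree_prod_le _ _).trans ?_
  calc ∑ i : Fin r, (A (σ i) i).natDegree ≤ ∑ _i : Fin r, d := Finset.sum_le_sum fun i _ => h _ _
    _ = r * d := by simp

theorem rank_poly {L : Type} [Field L] (A : Matrix m n L[X]) {r d : ℕ}
    (h : ∀ a b, (A a b).natDegree ≤ d) (t : L) (hr : r ≤ (A.map (eval t)).rank) :
    ∃ P : L[X], P ≠ 0 ∧ P.natDegree ≤ r * d ∧ ∀ v : L, P.eval v ≠ 0 →
      r ≤ (A.map (eval v)).rank := by
  obtain ⟨f, g, hfg⟩ := exists_minor _ hr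
  have key : ∀ v : L, ((A.submatrix f g).det).eval v = ((A.map (eval v)).submatrix f g).det := by
    intro v
    have := RingHom.map_det (evalRingHom v) (A.submatrix f g)
    simpa [RingHom.mapMatrix_apply, Matrix.submatrix_map] using this
  refine ⟨(A.submatrix f g).det, ?_, natDegree_det_le' _ fun a b => h _ _, ?_⟩
  · intro h0
    apply hfg
    rw [← key, h0, eval_zero]
  · intro v hv
    rw [key] at hv
    exact le_rank_of_minor _ f g hv

theorem rank_poly_ext {K L : Type} [Field K] [Field L] [Algebra K L] (A : Matrix m n K[X])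
    {r d : ℕ} (h : ∀ a b, (A a b).natDegree ≤ d) (t : L)
    (hr : r ≤ (A.map (aeval t)).rank) :
    ∃ P : K[X], P ≠ 0 ∧ P.natDegree ≤ r * d ∧ ∀ v : K, P.eval v ≠ 0 →
      r ≤ (A.map (eval v)).rank := by
  obtain ⟨f, g, hfg⟩ := exists_minor _ hr
  have key : ∀ v : K, ((A.submatrix f g).det).eval v = ((A.map (eval v)).submatrix f g).det := by
    intro v
    have := RingHom.map_det (evalRingHom v) (A.submatrix f g)
    simpa [RingHom.mapMatrix_apply, Matrix.submatrix_map] using this
  have key2 : aeval t ((A.submatrix f g).det) = ((A.map (aeval t)).submatrix f g).det := by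
    have := RingHom.map_det ((aeval t : K[X] →ₐ[K] L) : K[X] →+* L) (A.submatrix f g)
    simpa [RingHom.mapMatrix_apply, Matrix.submatrix_map] using this
  refine ⟨(A.submatrix f g).det, ?_, natDegree_det_le' _ fun a b => h _ _, ?_⟩
  · intro h0
    apply hfg
    rw [← key2, h0, map_zero]
  · intro v hv
    rw [key] at hv
    exact le_rank_of_minor _ f g hv

/-- a nonzero polynomial over `ZMod p` of degree `< p` is nonzero somewhere -/
theorem exists_eval_ne_zmod {p : ℕ} [Fact p.Prime] (P : (ZMod p)[X]) (hP : P ≠ 0)
    (hd : P.natDegree < p) : ∃ v : ZMod p, P.eval v ≠ 0 := by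
  by_contra hcon
  push Not at hcon
  have h1 := Polynomial.card_roots' P
  have h2 : (Finset.univ : Finset (ZMod p)).card ≤ P.roots.toFinset.card := by
    apply Finset.card_le_card
    intro v _
    rw [Multiset.mem_toFinset, Polynomial.mem_roots hP]
    exact hcon v
  have h3 := Multiset.toFinset_card_le P.roots
  rw [Finset.card_univ, ZMod.card] at h2
  omega

/-- a nonzero polynomial of degree `< p` over an extension of `ZMod p` is nonzero at some element
of the prime field -/
theorem exists_eval_ne_ext {p : ℕ} [Fact p.Prime] {L : Type} [Field L] [Algebra (ZMod p) L]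
    (P : L[X]) (hP : P ≠ 0) (hd : P.natDegree < p) :
    ∃ v : ZMod p, P.eval (algebraMap (ZMod p) L v) ≠ 0 := by
  classical
  by_contra hcon
  push Not at hcon
  have h1 := Polynomial.card_roots' P
  have h2 : (Finset.univ.image (algebraMap (ZMod p) L)).card ≤ P.roots.toFinset.card := by
    apply Finset.card_le_card
    intro v hv
    obtain ⟨w, -, rfl⟩ := Finset.mem_image.1 hv
    rw [Multiset.mem_toFinset, Polynomial.mem_roots hP]
    exact hcon w
  have h3 := Multiset.toFinset_card_le P.roots
  rw [Finset.card_image_of_injective _ (algebraMap (ZMod p) L).injective, Finset.card_univ,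
    ZMod.card] at h2
  omega

end Pool.Agent.RTB
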