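import Pool.Agent.RTB.RegX
import Pool.Agent.RTB.Blow
import Pool.Agent.RTB.OrdX

/-!
# RTB NCR: correctness of the rank algorithm
-/

set_option autoImplicit false

open Module Matrix

namespace Pool.Agent.RTB

variable {p : ℕ} [hp : Fact p.Prime] {N d : ℕ}

theorem rank_add_ker (A : List (List ℕ)) :
    (toM2 p N d A).rank + (kerL p (N * d) (N * d) A).length = N * d := by
  have h1 := LinearMap.finrank_range_add_finrank_ker (toM2 p N d A).mulVecLin
  have h2 : LinearMap.ker (toM2 p N d A).mulVecLin = sp2 p N d (kerL p (N * d) (N * d) A) := by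
    ext x
    exact mem_kerL2.symm
  have h3 : finrank (ZMod p) (LinearMap.ker (toM2 p N d A).mulVecLin) =
      (kerL p (N * d) (N * d) A).length := by
    rw [h2, sp2, LinearEquiv.finrank_map_eq, finrank_of_ind (ind_kerL _ _ _)]
  have h4 : finrank (ZMod p) (Fin N × Fin d → ZMod p) = N * d := by
    rw [Module.finrank_fintype_fun_eq_card]
    simp
  rw [h3, h4] at h1
  exact h1

theorem det_ne_of_ker (A : List (List ℕ)) (h : kerL p (N * d) (N * d) A = []) :
    (toM2 p N d A).det ≠ 0 := by
  intro h0
  obtain ⟨v, hv, hv1⟩ := Matrix.exists_mulVec_eq_zero_iff.2 h0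
  have h1 := mem_kerL2.2 hv1
  rw [h, sp2_eq] at h1
  apply hv
  have h2 : {v | ∃ x ∈ ([] : List (List ℕ)), v = toV2 p N d x} = ∅ := by
    ext v
    simp
  rw [h2, Submodule.span_empty, Submodule.mem_bot] at h1
  exact h1

theorem count_le (d N ρ : ℕ) (hd : 0 < d) (hρ : ρ ≤ N * d) :
    ((List.range (N + 1)).filter fun j => decide (d * j + (N * d - ρ) ≤ N * d)).length =
      ρ / d + 1 := by
  have h1 : ∀ M, ((List.range M).filter fun j => decide (d * j + (N * d - ρ) ≤ N * d)).length =
      min M (ρ / d + 1) := by
    intro M
    induction M with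
    | zero => simp
    | succ M ih =>
      rw [List.range_succ, List.filter_append, List.length_append, ih]
      have h2 : (d * M + (N * d - ρ) ≤ N * d) ↔ M ≤ ρ / d := by
        rw [Nat.le_div_iff_mul_le hd]
        constructor
        · intro h
          have : M * d = d * M := Nat.mul_comm _ _
          omega
        · intro h
          have : M * d = d * M := Nat.mul_comm _ _
          omega
      by_cases h3 : M ≤ ρ / d
      · have h4 : [M].filter (fun j => decide (d * j + (N * d - ρ) ≤ N * d)) = [M] := by
          rw [List.filter_cons_of_pos (by simpa using h2.2 h3), List.filter_nil]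
        rw [h4, List.length_singleton]
        omega
      · have h4 : [M].filter (fun j => decide (d * j + (N * d - ρ) ≤ N * d)) = [] := by
          rw [List.filter_cons_of_neg (by simpa using fun h => h3 (h2.1 h)), List.filter_nil]
        rw [h4, List.length_nil]
        omega
  rw [h1]
  have h2 : ρ / d ≤ N := by
    calc ρ / d ≤ N * d / d := Nat.div_le_div_right hρ
      _ = N := Nat.mul_div_cancel _ hd
  omega

/-- the result is a shrunk subspace -/
def Shr (p N : ℕ) (Bs : List (List (List ℕ))) (W U : List (List ℕ)) : Prop :=
  Ind p N W ∧ Ind p N U ∧ W.length < U.length ∧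
    ∀ k < Bs.length, ∀ x ∈ sp p N U, toM p N N (Bs.getD k []) *ᵥ x ∈ sp p N W

/-- the invariant of the rank algorithm after `m` rounds -/
structure NInv (p N d : ℕ) (Bs : List (List (List ℕ))) (m : ℕ) (st : NSt) : Prop where
  len : st.2.2.2.length = Bs.length
  run : st.1 = false → m * d ≤ (kr Bs.length (mB p N Bs) (mB p d st.2.2.2)).rank
  non : st.1 = true → st.2.1 = true →
    (kr Bs.length (mB p N Bs) (mB p d st.2.2.2)).det ≠ 0
  shr : st.1 = true → st.2.1 = false → Shr p N Bs st.2.2.1.1 st.2.2.1.2

theorem ncS_inv (hd : 0 < d) (hN : 2 * N ≤ d) (hpn : N * (d * (N * d + 1)) ^ 2 < p)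
    (Bs : List (List (List ℕ))) (m : ℕ) (st : NSt) (hst : NInv p N d Bs m st) :
    NInv p N d Bs (m + 1) (ncS p N d Bs st) := by
  by_cases hf : st.1 = true
  · have he : ncS p N d Bs st = st := by
      simp only [ncS, hf, if_true]
    rw [he]
    exact ⟨hst.len, fun h => absurd (hf.symm.trans h) (by simp), hst.non, hst.shr⟩
  · have hf' : st.1 = false := by simpa using hf
    have hrun := hst.run hf'
    have hbig := toM2_bigA (p := p) N d Bs st.2.2.2 hst.len
    have hrk := rank_add_ker (p := p) (N := N) (d := d) (bigA p N d Bs st.2.2.2)
    rw [hbig] at hrk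
    set ρ := (kr Bs.length (mB p N Bs) (mB p d st.2.2.2)).rank with hρ
    by_cases hk : kerL p (N * d) (N * d) (bigA p N d Bs st.2.2.2) = []
    · have he : ncS p N d Bs st = (true, (true, (([], []), st.2.2.2))) := by
        simp only [ncS, hf', hk, List.isEmpty_nil, if_true]
        simp
      rw [he]
      refine ⟨hst.len, fun h => absurd h (by simp), fun _ _ => ?_, fun _ h => absurd h (by simp)⟩
      rw [← hbig]
      exact det_ne_of_ker _ hk
    · have hk' : (kerL p (N * d) (N * d) (bigA p N d Bs st.2.2.2)).isEmpty = false := by
        rw [List.isEmpty_eq_false_iff]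
        exact hk
      rcases hh : (wong p N d Bs (bigA p N d Bs st.2.2.2)
          (kerL p (N * d) (N * d) (bigA p N d Bs st.2.2.2))).2.head? with _ | h
      · have h0 : (wong p N d Bs (bigA p N d Bs st.2.2.2)
            (kerL p (N * d) (N * d) (bigA p N d Bs st.2.2.2))).2 = [] := by
          rwa [List.head?_eq_none_iff] at hh
        obtain ⟨h1, h2, h3, h4⟩ := wong_closed (p := p) (N := N) (d := d) Bs _ h0 hk
        have he : ncS p N d Bs st = (true, (false, ((bas p N (imgs p N Bs
            (bas p N (comps N d ((wong p N d Bs (bigA p N d Bs st.2.2.2)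
              (kerL p (N * d) (N * d) (bigA p N d Bs st.2.2.2))).1.map Prod.fst)))),
            bas p N (comps N d ((wong p N d Bs (bigA p N d Bs st.2.2.2)
              (kerL p (N * d) (N * d) (bigA p N d Bs st.2.2.2))).1.map Prod.fst))),
            st.2.2.2))) := by
          simp only [ncS, hf', hk', hh]
          simp
        rw [he]
        refine ⟨hst.len, fun h => absurd h (by simp), fun _ h => absurd h (by simp),
          fun _ _ => ⟨h1, h2, h3, h4⟩⟩
      · have hmem : h ∈ (wong p N d Bs (bigA p N d Bs st.2.2.2)
            (kerL p (N * d) (N * d) (bigA p N d Bs st.2.2.2))).2 := List.mem_of_mem_head? hh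
        obtain ⟨hE, hlen, hgl⟩ := wong_esc (p := p) (N := N) (d := d) Bs _ h hmem
        rw [hbig] at hE
        obtain ⟨hpos, x, hx0, hx1, hx2⟩ := esc_chain _ _ h hE
        set r := ((List.range (N + 1)).filter fun j => decide (d * j +
          (kerL p (N * d) (N * d) (bigA p N d Bs st.2.2.2)).length ≤ N * d)).length with hr
        have hr1 : r = ρ / d + 1 := by
          have hkl : (kerL p (N * d) (N * d) (bigA p N d Bs st.2.2.2)).length = N * d - ρ := by
            omega
          rw [hr, hkl]
          exact count_le d N ρ hd (by omega)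
        have hrpos : 0 < r := by
          rw [hr1]
          exact Nat.succ_pos _
        have hrd : (r - 1) * d ≤ ρ := by
          rw [hr1, Nat.add_sub_cancel]
          exact Nat.div_mul_le_self _ _
        have hmr : m + 1 ≤ r := by
          rw [hr1]
          have := (Nat.le_div_iff_mul_le hd).2 hrun
          omega
        have hs : h.reverse.length = h.length := List.length_reverse
        have h5 := blow_spec (p := p) (N := N) (d := d) (n := d * (h.length + 1)) Bs st.2.2.2
          h.reverse hst.len (fun g hg => hgl g (List.mem_reverse.1 hg)) (by rw [hs]) x hx0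
          (by rw [hs]; exact hx1) (by rw [hs]; exact hpos) (by rw [hs]; exact hx2)
        rw [hs] at h5
        have hbl : (blow d st.2.2.2 h.reverse).length = Bs.length := by
          rw [length_blow, hst.len]
        have hsz : N * (d * (h.length + 1)) ^ 2 < p := by
          refine lt_of_le_of_lt ?_ hpn
          refine Nat.mul_le_mul_left N (Nat.pow_le_pow_left ?_ 2)
          exact Nat.mul_le_mul_left d (by omega)
        have h6 := reg_spec (p := p) (N := N) (n := d * (h.length + 1))
          (Nat.mul_pos hd (Nat.succ_pos _)) hsz Bs (blow d st.2.2.2 h.reverse) hbl hrpos (by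
            refine lt_of_le_of_lt ?_ (lt_of_lt_of_le (Nat.lt_succ_self _) h5)
            calc (r - 1) * (d * (h.length + 1)) = (h.length + 1) * ((r - 1) * d) := by ring
              _ ≤ (h.length + 1) * ρ := Nat.mul_le_mul_left _ hrd)
        have hsize : d * (h.length + 1) = d + d * h.length := by ring
        have hrl : (reg p N (d * (h.length + 1)) Bs (blow d st.2.2.2 h.reverse) r).length =
            Bs.length := by
          rw [length_reg, hbl]
        have h7 := down_spec (p := p) (N := N) (n := d) (k := d * h.length) hd hN
          (by rw [← hsize]; exact hsz) Bs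
          (reg p N (d * (h.length + 1)) Bs (blow d st.2.2.2 h.reverse) r) hrl (r := r) (by
            rw [← hsize]
            exact h6)
        have he : ncS p N d Bs st = (false, (false, (([], []), down p N d r Bs (d * h.length)
            (reg p N (d * (h.length + 1)) Bs (blow d st.2.2.2 h.reverse) r)))) := by
          simp only [ncS, hf', hk', hh]
          simp [hr]
        rw [he]
        refine ⟨?_, fun _ => ?_, fun h => absurd h (by simp), fun h => absurd h (by simp)⟩
        · show (down p N d r Bs (d * h.length) _).length = _
          rw [length_down, hrl]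
        · exact le_trans (Nat.mul_le_mul_right d hmr) h7

/-- **correctness of the rank algorithm** -/
theorem ncrSpec (hd : 0 < d) (hN : 2 * N ≤ d) (hpn : N * (d * (N * d + 1)) ^ 2 < p) :
    NcrSpec p N d := by
  intro Bs
  have key : ∀ m, NInv p N d Bs m ((List.range m).foldl (fun st _ => ncS p N d Bs st)
      (false, (false, (([], []), Bs.map fun _ => mt d d fun _ _ => 0)))) := by
    intro m
    induction m with
    | zero =>
      rw [List.range_zero, List.foldl_nil]
      refine ⟨by simp, fun _ => by simp, fun h => absurd h (by simp), fun h => absurd h (by simp)⟩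
    | succ m ih =>
      rw [List.range_succ, List.foldl_append]
      exact ncS_inv hd hN hpn Bs m _ ih
  have hfin := key (N + 1)
  have hdef : ncr p N d Bs = if ((List.range (N + 1)).foldl (fun st _ => ncS p N d Bs st)
      (false, (false, (([], []), Bs.map fun _ => mt d d fun _ _ => 0)))).2.1 then none
      else some ((List.range (N + 1)).foldl (fun st _ => ncS p N d Bs st)
      (false, (false, (([], []), Bs.map fun _ => mt d d fun _ _ => 0)))).2.2.1 := rfl
  rw [hdef]
  generalize ((List.range (N + 1)).foldl (fun st _ => ncS p N d Bs st)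
      (false, (false, (([], []), Bs.map fun _ => mt d d fun _ _ => 0))) : NSt) = st at hfin
  have h1 : st.1 = true := by
    by_contra hc
    have h2 := hfin.run (by simpa using hc)
    have h3 := (kr Bs.length (mB p N Bs) (mB p d st.2.2.2)).rank_le_card_width
    rw [Fintype.card_prod, Fintype.card_fin, Fintype.card_fin] at h3
    have h4 : (N + 1) * d = N * d + d := by ring
    omega
  constructor
  · intro h
    by_cases h2 : st.2.1 = true
    · exact ⟨_, hfin.non h1 h2⟩
    · rw [if_neg h2] at h
      exact absurd h (by simp)
  · intro W U h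
    by_cases h2 : st.2.1 = true
    · rw [if_pos h2] at h
      exact absurd h (by simp)
    · rw [if_neg h2, Option.some.injEq] at h
      have h3 := hfin.shr h1 (by simpa using h2)
      rw [h] at h3
      exact h3

end Pool.Agent.RTB
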