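import Mathlib

/-!
# RTB ORDM: the order of the determinant of `∑ M_k ⊗ Z_k t ^ (c_k)`

`Rel`: `S M_k t ^ (c_k) T = t ^ e P_k` with `ord det S + ord det T + v = N e` (`v` is the value of the dual
solution). `rel_le` (weak duality): from `c ≤ c'`: `S M_k t ^ (c'_k) T = t ^ e (t ^ (c'_k - c_k) P_k)`, so by
determinants of the big matrices (`S ⊗ 1` has determinant `det S ^ n`)
`n (ord det S + ord det T) + ord det (∑ M_k ⊗ Z_k t ^ (c'_k)) ≥ n N e`. `rel_eq`: equality if the constant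
coefficient of `∑ P_k ⊗ Z_k` is invertible. `rel_zero`: `S = T = 1`, `e = 0`. `rel_dbl`: substitute `t ↦ t ^ 2`
(`PowerSeries` substitution / `evalNegHom`-like ring homomorphism; or `PowerSeries.mk` with even
coefficients) and multiply by `t ^ (b_k)`: `S(t²)`, `T(t²)`, `2 e`, `2 v`.
`rel_asc`: new `S` = `diag (t for a < w, 1 for a ≥ w) * S₀ * S`, new `T` = `T * T₀ * diag (1 for b < u, t for
b ≥ u)`, new `e` = `e + 1`; by the hypothesis `diag (1, t) P' = (S₀ P T₀) diag (1, t)` one gets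
`S' M_k t ^ (c_k) T' = t ^ e diag (t, 1) diag (1, t) P'_k = t ^ (e + 1) P'_k`, and
`ord det S' = w + ord det S`, `ord det T' = N - u + ord det T`.
-/

namespace Pool.Agent.RTB

/-- `∑_{k < c} M_k ⊗ Z_k t ^ (cs k)` over `F⟦t⟧` -/
noncomputable def bigS {p : ℕ} {F : Type} [Field F] [Algebra (ZMod p) F] {N n : ℕ} (c : ℕ)
    (Z : ℕ → Matrix (Fin n) (Fin n) F) (M : ℕ → Matrix (Fin N) (Fin N) (ZMod p)) (cs : ℕ → ℕ) :
    Matrix (Fin N × Fin n) (Fin N × Fin n) (PowerSeries F) :=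
  fun x y => ∑ k ∈ Finset.range c,
    PowerSeries.monomial (cs k) (algebraMap (ZMod p) F (M k x.1 y.1) * Z k x.2 y.2)

/-- `v` is the value of the dual solution that transforms `M_k t ^ (cs k)` into `P_k` -/
def Rel {p : ℕ} [Fact p.Prime] {N : ℕ} (c : ℕ) (M : ℕ → Matrix (Fin N) (Fin N) (ZMod p))
    (cs : ℕ → ℕ) (v : ℕ) (P : ℕ → Matrix (Fin N) (Fin N) (PowerSeries (ZMod p))) : Prop :=
  ∃ (S T : Matrix (Fin N) (Fin N) (PowerSeries (ZMod p))) (e : ℕ), S.det ≠ 0 ∧ T.det ≠ 0 ∧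
    S.det.order + T.det.order + (v : ℕ∞) = ((N * e : ℕ) : ℕ∞) ∧
    ∀ k < c, (PowerSeries.X ^ cs k : PowerSeries (ZMod p)) •
      (S * (M k).map (PowerSeries.C (R := ZMod p)) * T) =
        (PowerSeries.X ^ e : PowerSeries (ZMod p)) • P k

end Pool.Agent.RTB
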