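import Pool.Agent.RTB.PolyFam

/-!
# Polynomial time: Bellman-Ford and the value of a family
-/

namespace Pool.Agent.RTB

open Pool.Agent.TM2Lib Pool.Agent.M3
open Pool.Agent.RTO (Arc)

variable {α : Type} [Enc α]

theorem sz_opt {β : Type} [Enc β] (o : Option β) : sz o = sz o.toList := rfl

theorem sz_opt_nat_le {o : Option ℕ} {M : ℕ} (h : ∀ d, o = some d → d ≤ M) :
    sz o ≤ 4 * sz M + 3 := by
  rcases o with _ | d
  · rw [sz_opt]
    simp
  · rw [sz_opt]
    have h1 := sz_le_of_le (h d rfl)
    simp only [Option.toList_some, sz_cons]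
    simp
    omega

theorem omin_sel (x y : Option ℕ) : omin x y = x ∨ omin x y = y := by
  unfold omin
  rcases x with _ | x <;> rcases y with _ | y
  · exact Or.inl rfl
  · exact Or.inr rfl
  · exact Or.inl rfl
  · simp only [Option.some.injEq]
    omega

theorem poly_omin : Poly (fun x : Option ℕ × Option ℕ => omin x.1 x.2) := by
  refine (poly_ocases (f := fun x : Option ℕ × Option ℕ => x.1)
    (g := fun x => x.2)
    (h := fun x c => match x.2 with
      | none => some c
      | some d => if decide (c ≤ d) then some c else some d)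
    Poly.fst Poly.snd ?_).of_eq fun x => ?_
  · refine (poly_ocases
      (f := fun x : (Option ℕ × Option ℕ) × ℕ => x.1.2)
      (g := fun x => some x.2)
      (h := fun x d => if decide (x.2 ≤ d) then some x.2 else some d)
      Poly.fst.snd' (Poly.some Poly.snd) ?_).of_eq fun x => ?_
    · exact Poly.ite (Poly.nat_le Poly.fst.snd' Poly.snd) (Poly.some Poly.fst.snd')
        (Poly.some Poly.snd)
    · rcases x with ⟨⟨x, _ | y⟩, z⟩ <;> rfl
  · obtain ⟨x, y⟩ := x
    unfold omin
    rcases x with _ | x <;> rcases y with _ | y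
    · rfl
    · rfl
    · rfl
    · simp only
      by_cases h : x ≤ y
      · simp [h]
      · simp only [h, decide_false, Bool.false_eq_true, if_false]
        rw [min_eq_right (by omega)]

theorem poly_oadd {f : α → Option ℕ} {g : α → ℕ} (hf : Poly f) (hg : Poly g) :
    Poly (fun a => (f a).map fun x => x + g a) :=
  poly_omap (h := fun a x => x + g a) hf (poly_nat_add Poly.snd (hg.comp Poly.fst))

theorem poly_bfS {g : α → GD} {X : α → List ℕ} {D : α → List (Option ℕ)} (hg : Poly g)
    (hn : UPoly fun a => (g a).nv) (hX : Poly X) (hD : Poly D) :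
    Poly (fun a => bfS (g a) (X a) (D a)) := by
  refine poly_mapR (h := fun a w =>
    ((List.range (g a).nd).filter fun q => decide ((g a).tl q = w) && !((X a).contains q)).foldl
      (fun acc q => omin acc (((D a).getD ((g a).hd q) none).map fun x => x + (g a).len q))
        ((D a).getD w none)) hn ?_
  have hu : Poly (fun x : α × Un => x.2.n) :=
    (UPoly.comp (g := fun u : Un => u.n) UPoly.n Poly.snd).toNat
  have h1 : Poly (fun x : α × Un => (List.range (g x.1).nd).filter fun q =>
      decide ((g x.1).tl q = x.2.n) && !((X x.1).contains q)) := by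
    refine poly_filterR (h := fun (x : α × Un) q =>
      decide ((g x.1).tl q = x.2.n) && !((X x.1).contains q)) (upoly_nd (hg.comp Poly.fst)) ?_
    have hv : Poly (fun y : (α × Un) × Un => y.2.n) :=
      (UPoly.comp (g := fun u : Un => u.n) UPoly.n Poly.snd).toNat
    exact Poly.and (Poly.nat_eq (poly_tl (hg.comp Poly.fst.fst') hv) (hu.comp Poly.fst))
      (Poly.not (poly_contains (hX.comp Poly.fst.fst') hv))
  refine poly_foldSelL (l := fun x : α × Un => (List.range (g x.1).nd).filter fun q =>
      decide ((g x.1).tl q = x.2.n) && !((X x.1).contains q))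
    (f := fun (x : α × Un) q => ((D x.1).getD ((g x.1).hd q) none).map fun z =>
      z + (g x.1).len q)
    (g := fun x : α × Un => (D x.1).getD x.2.n none) (h := omin) h1
    (poly_getDn (hD.comp Poly.fst) hu (TM2Lib.Poly.const none)) ?_ poly_omin omin_sel
  exact poly_oadd (poly_getDn (hD.comp Poly.fst.fst')
    (poly_hd (hg.comp Poly.fst.fst') Poly.snd) (TM2Lib.Poly.const none))
    (poly_len (hg.comp Poly.fst.fst') Poly.snd)

/-- bound for the entries of the table -/
def DB (g : GD) (k : ℕ) (D : List (Option ℕ)) : Prop :=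
  D.length = g.nv ∧ ∀ o ∈ D, ∀ d, o = some d → d ≤ k * (g.1.map fun x => x.2.2).sum

theorem DB.getD {g : GD} {k : ℕ} {D : List (Option ℕ)} (h : DB g k D) (w d : ℕ)
    (hd : D.getD w none = some d) : d ≤ k * (g.1.map fun x => x.2.2).sum := by
  rcases lt_or_ge w D.length with h1 | h1
  · rw [List.getD_eq_getElem _ _ h1] at hd
    exact h.2 _ (List.getElem_mem h1) d hd
  · rw [List.getD_eq_getElem?_getD, List.getElem?_eq_none h1] at hd
    simp at hd

theorem foldl_omin_le {β : Type} (f : β → Option ℕ) (M : ℕ) : ∀ (l : List β) (s : Option ℕ),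
    (∀ d, s = some d → d ≤ M) → (∀ b ∈ l, ∀ d, f b = some d → d ≤ M) →
    ∀ d, l.foldl (fun acc b => omin acc (f b)) s = some d → d ≤ M := by
  intro l
  induction l with
  | nil => intro s h _; exact h
  | cons b l ih =>
    intro s h h2
    rw [List.foldl_cons]
    refine ih _ ?_ fun b' hb' => h2 b' (List.mem_cons_of_mem _ hb')
    intro d hd
    rcases omin_sel s (f b) with h3 | h3
    · rw [h3] at hd
      exact h d hd
    · rw [h3] at hd
      exact h2 b List.mem_cons_self d hd

theorem bfS_DB {g : GD} {X : List ℕ} {k : ℕ} {D : List (Option ℕ)} (h : DB g k D) :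
    DB g (k + 1) (bfS g X D) := by
  refine ⟨by simp [bfS], ?_⟩
  intro o ho
  unfold bfS at ho
  rw [List.mem_map] at ho
  obtain ⟨w, _, rfl⟩ := ho
  refine foldl_omin_le (fun q => ((D.getD (g.hd q) none).map fun x => x + g.len q)) _ _ _ ?_ ?_
  · intro d hd
    have := h.getD w d hd
    rw [Nat.succ_mul]
    omega
  · intro q _ d hd
    rcases h1 : D.getD (g.hd q) none with _ | e
    · rw [h1] at hd
      simp at hd
    · rw [h1] at hd
      have h2 := h.getD _ e h1
      have h3 := len_le_sum g q
      simp only [Option.map_some, Option.some.injEq] at hd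
      rw [Nat.succ_mul]
      omega

theorem DB.sz {g : GD} {k V : ℕ} {D : List (Option ℕ)} (h : DB g k D) (hk : k ≤ g.nd)
    (hV : TM2Lib.sz (g.nd * (g.1.map fun x => x.2.2).sum) ≤ V) :
    TM2Lib.sz D ≤ g.nv * (4 * V + 4) + 1 := by
  refine sz_list_le' D g.nv (4 * V + 3) h.1.le fun o ho => ?_
  have h1 : ∀ d, o = some d → d ≤ g.nd * (g.1.map fun x => x.2.2).sum := fun d hd =>
    (h.2 o ho d hd).trans (Nat.mul_le_mul_right _ hk)
  have := sz_opt_nat_le h1
  omega

theorem poly_bf {g : α → GD} {t : α → ℕ} {X : α → List ℕ} (hg : Poly g)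
    (hn : UPoly fun a => (g a).nv) (ht : Poly t) (hX : Poly X) :
    Poly (fun a => bf (g a) (t a) (X a)) := by
  obtain ⟨V, hV⟩ := Poly.size (poly_nat_mul (upoly_nd hg).toNat
    (poly_sum (f := fun a => (g a).1) (h := fun x : α × Arc => x.2.2.2) hg.fst'
      Poly.snd.snd'.snd'))
  obtain ⟨N, hN⟩ := UPoly.bound hn
  have hu : Poly (fun x : α × Un => x.2.n) :=
    (UPoly.comp (g := fun u : Un => u.n) UPoly.n Poly.snd).toNat
  have h0 : Poly (fun a => (List.range (g a).nv).map fun x =>
      if x = t a then some 0 else none) := by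
    refine poly_mapR (h := fun a x => if x = t a then some 0 else none) hn ?_
    refine (Poly.ite (Poly.nat_eq hu (ht.comp Poly.fst)) (TM2Lib.Poly.const (some 0))
      (TM2Lib.Poly.const none)).of_eq fun x => ?_
    simp only [decide_eq_true_eq]
  refine poly_getDn (poly_foldlRI (h := fun a D _ => bfS (g a) (X a) D)
    (g := fun a => (List.range (g a).nv).map fun x => if x = t a then some 0 else none)
    (upoly_nd hg) h0 ?_ (fun a k D => DB (g a) k D) ?_ (fun a k D _ hD => bfS_DB hD)
    (N * (4 * V + 4) + 1) ?_) hg.snd'.snd'.snd' (TM2Lib.Poly.const none)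
  · exact poly_bfS (hg.comp Poly.fst) (UPoly.comp (g := fun a => (g a).nv) hn Poly.fst)
      (hX.comp Poly.fst) Poly.snd.fst'
  · intro a
    refine ⟨by simp, ?_⟩
    intro o ho d hd
    rw [List.mem_map] at ho
    obtain ⟨x, _, rfl⟩ := ho
    split_ifs at hd
    · simp only [Option.some.injEq] at hd
      omega
  · intro a k D hk hD
    refine (hD.sz hk (hV a)).trans ?_
    simp only [Polynomial.eval_add, Polynomial.eval_mul, Polynomial.eval_one,
      Polynomial.eval_ofNat]
    have h4 := hN a
    gcongr

theorem poly_valF {g : α → GD} {t : α → ℕ} {B : α → List Row} (hg : Poly g)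
    (hn : UPoly fun a => (g a).nv) (ht : Poly t) (hB : Poly B) :
    Poly (fun a => valF (g a) (t a) (B a)) := by
  refine poly_foldSelL (l := fun a => (B a).filter fun r => r.1)
    (f := fun a r => (bf (g a) (t a) r.2.1).map fun x => x + r.2.2.1) (g := fun _ => none)
    (h := omin) (Poly.filter (h := fun x : α × Row => x.2.1) hB Poly.snd.fst')
    (TM2Lib.Poly.const none) ?_ poly_omin omin_sel
  exact poly_oadd (poly_bf (hg.comp Poly.fst) (UPoly.comp (g := fun a => (g a).nv) hn Poly.fst)
    (ht.comp Poly.fst) Poly.snd.snd'.fst') Poly.snd.snd'.snd'.fst'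

end Pool.Agent.RTB
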