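import Pool.Agent.RTB.PolyNcr

/-!
# Polynomial time: the order of the determinant (`ascP`, `ordS`, `dblS`, `phaseS`, `ordDet`)
-/

namespace Pool.Agent.RTB

open Pool.Agent.TM2Lib Pool.Agent.M3

variable {α : Type} [Enc α]

/-! ### sizes -/

theorem pn_sz_getD_le {β : Type} [Enc β] (l : List β) (i : ℕ) (d : β) (hd : sz d ≤ 1) :
    sz (l.getD i d) ≤ sz l := by
  rw [List.getD_eq_getElem?_getD]
  rcases h : l[i]? with _ | x
  · have := sz_pos l
    simp only [Option.getD_none]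
    omega
  · simp only [Option.getD_some]
    exact Poly.sz_mem_le (List.mem_of_getElem? h)

theorem pn_sz_zero : sz (0 : ℕ) ≤ 1 := by
  have := Poly.NPC.sz_nat_le 0
  omega

theorem pn_sz_entM_le (M : List (List ℕ)) (i j : ℕ) : sz (entM M i j) ≤ sz M := by
  have h1 : sz (row M i) ≤ sz M := pn_sz_getD_le M i [] (by rw [sz_nil])
  have h2 : sz (ent (row M i) j) ≤ sz (row M i) := pn_sz_getD_le (row M i) j 0 pn_sz_zero
  exact h2.trans h1

theorem pn_sz_mt_le (m n R : ℕ) (f : ℕ → ℕ → ℕ) (hf : ∀ i j, sz (f i j) ≤ R) :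
    sz (mt m n f) ≤ m * (n * (R + 1) + 2) + 1 := by
  have h1 := sz_list_le (mt m n f) (n * (R + 1) + 1) (by
    intro x hx
    simp only [mt, List.mem_map] at hx
    obtain ⟨i, _, rfl⟩ := hx
    have h2 := sz_list_le (vt n (f i)) R (by
      intro y hy
      simp only [vt, List.mem_map] at hy
      obtain ⟨j, _, rfl⟩ := hy
      exact hf i j)
    rw [length_vt] at h2
    exact h2)
  have h2 : (mt m n f).length = m := by simp [mt]
  rw [h2] at h1
  exact h1

/-- `st` is small: number of polynomials, number of coefficients, size of matrices, of entries -/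
def pn_OI (c H R e : ℕ) (L : List PMat) : Prop :=
  L.length ≤ c ∧ ∀ P ∈ L, P.length ≤ H ∧ (∀ M ∈ P, sz M ≤ R) ∧
    ∀ h i j, sz (entM (P.getD h []) i j) ≤ e

theorem pn_sz_OI {c H R e : ℕ} {L : List PMat} (h : pn_OI c H R e L) :
    sz L ≤ c * (H * (R + 1) + 2) + 1 := by
  obtain ⟨h1, h2⟩ := h
  refine sz_list_le' L c (H * (R + 1) + 1) h1 fun P hP => ?_
  obtain ⟨h3, h4, _⟩ := h2 P hP
  exact sz_list_le' P H R h3 h4

theorem pn_sz_entM_mt (m n R : ℕ) (f : ℕ → ℕ → ℕ) (hf : ∀ i j, sz (f i j) ≤ R) (hR : 1 ≤ R)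
    (i j : ℕ) : sz (entM (mt m n f) i j) ≤ R := by
  have h0 := pn_sz_zero
  rcases lt_or_ge i m with hi | hi
  · have h1 : row (mt m n f) i = vt n (f i) := by
      simp [row, mt, List.getD_eq_getElem?_getD, hi]
    have h2 : entM (mt m n f) i j = ent (vt n (f i)) j := by
      rw [← h1]
      rfl
    rw [h2]
    rcases lt_or_ge j n with hj | hj
    · rw [ent_vt _ hj]
      exact hf i j
    · rw [ent_vt_of_le _ hj]
      omega
  · have h1 : row (mt m n f) i = [] := by
      simp [row, mt, List.getD_eq_getElem?_getD, hi]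
    have h2 : entM (mt m n f) i j = ent [] j := by
      rw [← h1]
      rfl
    rw [h2]
    have h3 : ent [] j = 0 := by simp [ent]
    rw [h3]
    omega

/-- lists of tables are small -/
theorem pn_tab_small (hh N R e : ℕ) (f : ℕ → ℕ → ℕ → ℕ) (hf : ∀ h i j, sz (f h i j) ≤ e)
    (he : 1 ≤ e) (hR : N * (N * (e + 1) + 2) + 1 ≤ R) :
    ((List.range hh).map fun h => mt N N (f h)).length ≤ hh ∧
    (∀ M ∈ (List.range hh).map fun h => mt N N (f h), sz M ≤ R) ∧
    ∀ h i j, sz (entM (((List.range hh).map fun h => mt N N (f h)).getD h []) i j) ≤ e := by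
  refine ⟨by simp, ?_, ?_⟩
  · intro M hM
    obtain ⟨h, _, rfl⟩ := List.mem_map.1 hM
    exact (pn_sz_mt_le N N e _ (hf h)).trans hR
  · intro h i j
    rcases lt_or_ge h hh with h1 | h1
    · have h2 : ((List.range hh).map fun h => mt N N (f h)).getD h [] = mt N N (f h) := by
        simp [List.getD_eq_getElem?_getD, h1]
      rw [h2]
      exact pn_sz_entM_mt N N e _ (hf h) he i j
    · have h2 : ((List.range hh).map fun h => mt N N (f h)).getD h [] = [] := by
        simp [List.getD_eq_getElem?_getD, h1]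
      rw [h2]
      have h3 := pn_sz_entM_le [] i j
      rw [sz_nil] at h3
      omega

/-! ### the ascent step -/

theorem pn_entM_mulL_lt {p : ℕ} (hp : 0 < p) (m n k : ℕ) (A B : List (List ℕ)) (i j : ℕ) :
    sz (entM (mulL p m n k A B) i j) ≤ 4 * p + 1 :=
  pn_sz_entM_mt _ _ _ _ (fun _ _ => sz_nat_lt (Nat.mod_lt _ hp)) (by omega) i j

theorem pn_sz_getD_mul {p : ℕ} (hp : 0 < p) (N : ℕ) (S T : List (List ℕ)) (P : PMat)
    (h i j : ℕ) : sz (entM ((P.map fun M => mulL p N N N (mulL p N N N S M) T).getD h []) i j) ≤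
      4 * p + 1 := by
  rw [List.getD_eq_getElem?_getD]
  rcases h1 : (P.map fun M => mulL p N N N (mulL p N N N S M) T)[h]? with _ | x
  · simp only [Option.getD_none]
    have h3 := pn_sz_entM_le [] i j
    rw [sz_nil] at h3
    omega
  · simp only [Option.getD_some]
    obtain ⟨M, _, rfl⟩ := List.mem_map.1 (List.mem_of_getElem? h1)
    exact pn_entM_mulL_lt hp N N N _ _ i j

theorem pn_ascP_small {p : ℕ} (hp : 0 < p) (N hh w u R e : ℕ) (S T : List (List ℕ)) (P : PMat)
    (he : 4 * p + 1 ≤ e) (hR : N * (N * (e + 1) + 2) + 1 ≤ R) :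
    (ascP p N hh w u S T P).length ≤ hh ∧ (∀ M ∈ ascP p N hh w u S T P, sz M ≤ R) ∧
      ∀ h i j, sz (entM ((ascP p N hh w u S T P).getD h []) i j) ≤ e := by
  refine pn_tab_small hh N R e _ ?_ (by omega) hR
  intro h i j
  have h0 := pn_sz_zero
  have h1 := fun h' => (pn_sz_getD_mul hp N S T P h' i j).trans he
  split_ifs
  · exact h1 _
  · exact h1 _
  · exact h1 _
  · omega
  · exact h1 _

theorem pn_ordS_small {p : ℕ} (hp : 0 < p) (N d hh c R e : ℕ) (st : ℕ × List PMat)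
    (he : 4 * p + 1 ≤ e) (hR : N * (N * (e + 1) + 2) + 1 ≤ R) {H : ℕ} (hH : hh ≤ H)
    (h : pn_OI c H R e st.2) :
    pn_OI c H R e (ordS p N d hh st).2 ∧ (ordS p N d hh st).1 ≤ st.1 + N := by
  unfold ordS
  split
  · exact ⟨h, Nat.le_add_right _ _⟩
  · rename_i WU hWU
    have h1 := pn_ncr_small hp N d _ WU hWU
    refine ⟨⟨by simpa using h.1, ?_⟩, by simp only; omega⟩
    intro P hP
    simp only at hP
    obtain ⟨P', _, rfl⟩ := List.mem_map.1 hP
    obtain ⟨h2, h3⟩ := pn_ascP_small hp N hh WU.1.length WU.2.length R e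
      (invL p N (transpL N N (extL p N WU.1))) (transpL N N (extL p N WU.2)) P' he hR
    exact ⟨h2.trans hH, h3⟩

theorem poly_ascP {p N hh w u : α → ℕ} {S T : α → List (List ℕ)} {P : α → PMat}
    (hp : UPoly p) (h0 : ∀ a, 0 < p a) (hN : UPoly N) (hhh : UPoly hh) (hw : UPoly w)
    (hu : UPoly u) (hS : Poly S) (hT : Poly T) (hP : Poly P) :
    Poly (fun a => ascP (p a) (N a) (hh a) (w a) (u a) (S a) (T a) (P a)) := by
  unfold ascP
  have hQ : Poly (fun a => (P a).map fun M =>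
      mulL (p a) (N a) (N a) (N a) (mulL (p a) (N a) (N a) (N a) (S a) M) (T a)) := by
    refine TM2Lib.Poly.map (h := fun x : α × List (List ℕ) =>
      mulL (p x.1) (N x.1) (N x.1) (N x.1) (mulL (p x.1) (N x.1) (N x.1) (N x.1) (S x.1) x.2)
        (T x.1)) hP ?_
    have hp' := hp.comp (Poly.fst (α := α) (β := List (List ℕ)))
    have hN' := hN.comp (Poly.fst (α := α) (β := List (List ℕ)))
    exact poly_mulL hp' (fun x => h0 x.1) hN' hN' hN' (poly_mulL hp' (fun x => h0 x.1) hN' hN' hN'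
      (hS.comp Poly.fst) Poly.snd) (hT.comp Poly.fst)
  refine poly_mapR (h := fun a h => mt (N a) (N a) fun i j =>
    if w a ≤ i then (if j < u a then entM (((P a).map fun M =>
      mulL (p a) (N a) (N a) (N a) (mulL (p a) (N a) (N a) (N a) (S a) M) (T a)).getD (h + 1) [])
        i j else entM (((P a).map fun M =>
      mulL (p a) (N a) (N a) (N a) (mulL (p a) (N a) (N a) (N a) (S a) M) (T a)).getD h []) i j)
    else (if j < u a then entM (((P a).map fun M =>
      mulL (p a) (N a) (N a) (N a) (mulL (p a) (N a) (N a) (N a) (S a) M) (T a)).getD h []) i j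
      else if h = 0 then 0 else entM (((P a).map fun M =>
      mulL (p a) (N a) (N a) (N a) (mulL (p a) (N a) (N a) (N a) (S a) M) (T a)).getD (h - 1) [])
        i j)) hhh ?_
  refine poly_mt (f := fun (x : α × Un) i j =>
    if w x.1 ≤ i then (if j < u x.1 then entM (((P x.1).map fun M =>
      mulL (p x.1) (N x.1) (N x.1) (N x.1) (mulL (p x.1) (N x.1) (N x.1) (N x.1) (S x.1) M)
        (T x.1)).getD (x.2.n + 1) []) i j else entM (((P x.1).map fun M =>
      mulL (p x.1) (N x.1) (N x.1) (N x.1) (mulL (p x.1) (N x.1) (N x.1) (N x.1) (S x.1) M)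
        (T x.1)).getD x.2.n []) i j)
    else (if j < u x.1 then entM (((P x.1).map fun M =>
      mulL (p x.1) (N x.1) (N x.1) (N x.1) (mulL (p x.1) (N x.1) (N x.1) (N x.1) (S x.1) M)
        (T x.1)).getD x.2.n []) i j
      else if x.2.n = 0 then 0 else entM (((P x.1).map fun M =>
      mulL (p x.1) (N x.1) (N x.1) (N x.1) (mulL (p x.1) (N x.1) (N x.1) (N x.1) (S x.1) M)
        (T x.1)).getD (x.2.n - 1) []) i j)) (hN.comp Poly.fst) (hN.comp Poly.fst) ?_
  have e1 : Poly (fun y : ((α × Un) × Un) × Un => y.1.1.1) := Poly.fst.fst'.fst'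
  have hQ' := hQ.comp e1
  have hh' : UPoly (fun y : ((α × Un) × Un) × Un => y.1.1.2.n) := UPoly.n.comp Poly.fst.fst'.snd'
  have hi : UPoly (fun y : ((α × Un) × Un) × Un => y.1.2.n) := UPoly.n.comp Poly.fst.snd'
  have hj : UPoly (fun y : ((α × Un) × Un) × Un => y.2.n) := UPoly.n.comp Poly.snd
  have hg : ∀ {k : ((α × Un) × Un) × Un → ℕ}, UPoly k → Poly (fun y => entM
      (((P y.1.1.1).map fun M => mulL (p y.1.1.1) (N y.1.1.1) (N y.1.1.1) (N y.1.1.1)
        (mulL (p y.1.1.1) (N y.1.1.1) (N y.1.1.1) (N y.1.1.1) (S y.1.1.1) M)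
          (T y.1.1.1)).getD (k y) []) y.1.2.n y.2.n) :=
    fun hk => poly_entM (Poly.getD hQ' hk (TM2Lib.Poly.const [])) hi hj
  refine D3.poly_ite (UPoly.le (hw.comp e1) hi)
    (D3.poly_ite (UPoly.lt hj (hu.comp e1)) (hg (hh'.add (UPoly.const 1))) (hg hh'))
    (D3.poly_ite (UPoly.lt hj (hu.comp e1)) (hg hh')
      (D3.poly_ite (UPoly.eq hh' (UPoly.const 0)) (TM2Lib.Poly.const 0)
        (hg (hh'.sub (UPoly.const 1)))))

theorem poly_ordS {p N d hh : α → ℕ} {st : α → ℕ × List PMat} (hp : UPoly p)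
    (h0 : ∀ a, 0 < p a) (hN : UPoly N) (hd : UPoly d) (hhh : UPoly hh) (hs : Poly st) :
    Poly (fun a => ordS (p a) (N a) (d a) (hh a) (st a)) := by
  have h1 : Poly (fun a => (st a).2.map fun P => P.getD 0 []) :=
    TM2Lib.Poly.map (h := fun x : α × PMat => x.2.getD 0 []) hs.snd'
      (Poly.getD Poly.snd (UPoly.const 0) (TM2Lib.Poly.const []))
  have h2 := poly_ncr hp h0 hN hd h1
  refine (poly_ocases (f := fun a => ncr (p a) (N a) (d a) ((st a).2.map fun P => P.getD 0 []))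
    (g := st) (h := fun a WU => ((st a).1 + (WU.2.length - WU.1.length),
      (st a).2.map (ascP (p a) (N a) (hh a) WU.1.length WU.2.length
        (invL (p a) (N a) (transpL (N a) (N a) (extL (p a) (N a) WU.1)))
        (transpL (N a) (N a) (extL (p a) (N a) WU.2))))) h2 hs ?_).of_eq fun a => by
      unfold ordS
      cases ncr (p a) (N a) (d a) ((st a).2.map fun P => P.getD 0 []) <;> rfl
  have hl1 : UPoly (fun x : α × (List (List ℕ) × List (List ℕ)) => x.2.1.length) :=
    UPoly.length Poly.snd.fst'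
  have hl2 : UPoly (fun x : α × (List (List ℕ) × List (List ℕ)) => x.2.2.length) :=
    UPoly.length Poly.snd.snd'
  have hp' := hp.comp (Poly.fst (α := α) (β := List (List ℕ) × List (List ℕ)))
  have hN' := hN.comp (Poly.fst (α := α) (β := List (List ℕ) × List (List ℕ)))
  have h0' : ∀ x : α × (List (List ℕ) × List (List ℕ)), 0 < p x.1 := fun x => h0 x.1
  have hS := poly_invL hp' h0' hN' (poly_transpL hN' hN' (poly_extL hp' h0' hN' Poly.snd.fst'))
  have hT := poly_transpL hN' hN' (poly_extL hp' h0' hN' Poly.snd.snd')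
  refine (poly_nat_add (hs.comp Poly.fst).fst' (hl2.sub hl1).toNat).pair
    (TM2Lib.Poly.map (h := fun y : (α × (List (List ℕ) × List (List ℕ))) × PMat =>
      ascP (p y.1.1) (N y.1.1) (hh y.1.1) y.1.2.1.length y.1.2.2.length
        (invL (p y.1.1) (N y.1.1) (transpL (N y.1.1) (N y.1.1) (extL (p y.1.1) (N y.1.1) y.1.2.1)))
        (transpL (N y.1.1) (N y.1.1) (extL (p y.1.1) (N y.1.1) y.1.2.2)) y.2)
      (hs.comp Poly.fst).snd' ?_)
  exact poly_ascP (hp'.comp Poly.fst) (fun y => h0 y.1.1) (hN'.comp Poly.fst)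
    (hhh.comp Poly.fst.fst') (hl1.comp Poly.fst) (hl2.comp Poly.fst) (hS.comp Poly.fst)
    (hT.comp Poly.fst) Poly.snd

/-! ### doubling -/

theorem upoly_bitAt {c i : α → ℕ} (hc : Poly c) (hi : UPoly i) :
    UPoly (fun a => bitAt (c a) (i a)) :=
  UPoly.ite (c := fun a => (c a).bits.getD (i a) false)
    (Poly.getD hc.bits hi (TM2Lib.Poly.const false)) (UPoly.const 1) (UPoly.const 0)

theorem pn_dblP_small (N hh b R e : ℕ) (P : PMat) (hP : ∀ h i j, sz (entM (P.getD h []) i j) ≤ e)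
    (he : 1 ≤ e) (hR : N * (N * (e + 1) + 2) + 1 ≤ R) :
    (dblP N hh b P).length ≤ hh ∧ (∀ M ∈ dblP N hh b P, sz M ≤ R) ∧
      ∀ h i j, sz (entM ((dblP N hh b P).getD h []) i j) ≤ e := by
  refine pn_tab_small hh N R e _ ?_ he hR
  intro h i j
  have h0 := pn_sz_zero
  split_ifs
  · exact hP _ _ _
  · omega

theorem pn_dblS_small (N hh c e R : ℕ) (cs : List ℕ) (i : ℕ) (st : ℕ × List PMat) (he : 1 ≤ e)
    (hc : st.2.length ≤ c) (hR : N * (N * (e + 1) + 2) + 1 ≤ R) {H : ℕ} (hH : hh ≤ H)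
    (h : ∀ P ∈ st.2, ∀ h i j, sz (entM (P.getD h []) i j) ≤ e) :
    pn_OI c H R e (dblS N hh cs i st).2 := by
  unfold dblS
  refine ⟨?_, ?_⟩
  · simp only [List.length_map, List.length_zip]
    omega
  · intro P hP
    simp only at hP
    obtain ⟨x, hx, rfl⟩ := List.mem_map.1 hP
    have h1 : x.2 ∈ st.2 := (List.of_mem_zip (a := x.1) (b := x.2) hx).2
    obtain ⟨h2, h3⟩ := pn_dblP_small N hh (bitAt x.1 i) R e x.2 (h _ h1) he hR
    exact ⟨h2.trans hH, h3⟩

theorem poly_dblP {N hh b : α → ℕ} {P : α → PMat} (hN : UPoly N) (hhh : UPoly hh) (hb : UPoly b)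
    (hP : Poly P) : Poly (fun a => dblP (N a) (hh a) (b a) (P a)) := by
  unfold dblP
  refine poly_mapR (h := fun a h => mt (N a) (N a) fun i j =>
    if b a ≤ h ∧ (h - b a) % 2 = 0 then entM ((P a).getD ((h - b a) / 2) []) i j else 0) hhh ?_
  refine poly_mt (f := fun (x : α × Un) i j => if b x.1 ≤ x.2.n ∧ (x.2.n - b x.1) % 2 = 0 then
    entM ((P x.1).getD ((x.2.n - b x.1) / 2) []) i j else 0) (hN.comp Poly.fst)
    (hN.comp Poly.fst) ?_
  have e1 : Poly (fun y : ((α × Un) × Un) × Un => y.1.1.1) := Poly.fst.fst'.fst'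
  have hh' : UPoly (fun y : ((α × Un) × Un) × Un => y.1.1.2.n) := UPoly.n.comp Poly.fst.fst'.snd'
  have hi : UPoly (fun y : ((α × Un) × Un) × Un => y.1.2.n) := UPoly.n.comp Poly.fst.snd'
  have hj : UPoly (fun y : ((α × Un) × Un) × Un => y.2.n) := UPoly.n.comp Poly.snd
  have hs := hh'.sub (hb.comp e1)
  refine D3.poly_ite (c := fun y : ((α × Un) × Un) × Un =>
    b y.1.1.1 ≤ y.1.1.2.n ∧ (y.1.1.2.n - b y.1.1.1) % 2 = 0) ?_
    (poly_entM (Poly.getD (hP.comp e1) (UPoly.div hs (UPoly.const 2)) (TM2Lib.Poly.const []))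
      hi hj) (TM2Lib.Poly.const 0)
  refine ((UPoly.le (hb.comp e1) hh').and (UPoly.eq (UPoly.mod hs (UPoly.const 2))
    (UPoly.const 0))).of_eq fun y => ?_
  rw [Bool.eq_iff_iff, Bool.and_eq_true, decide_eq_true_iff, decide_eq_true_iff,
    decide_eq_true_iff]

theorem poly_dblS {N hh i : α → ℕ} {cs : α → List ℕ} {st : α → ℕ × List PMat} (hN : UPoly N)
    (hhh : UPoly hh) (hc : Poly cs) (hi : UPoly i) (hs : Poly st) :
    Poly (fun a => dblS (N a) (hh a) (cs a) (i a) (st a)) := by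
  unfold dblS
  refine (poly_nat_mul (TM2Lib.Poly.const 2) hs.fst').pair
    (TM2Lib.Poly.map (h := fun x : α × (ℕ × PMat) =>
      dblP (N x.1) (hh x.1) (bitAt x.2.1 (i x.1)) x.2.2) (poly_zip hc hs.snd') ?_)
  exact poly_dblP (hN.comp Poly.fst) (hhh.comp Poly.fst)
    (upoly_bitAt Poly.snd.fst' (hi.comp Poly.fst)) Poly.snd.snd'

/-! ### pn_phases -/

theorem pn_ordS_iter_small {p : ℕ} (hp : 0 < p) (N d hh c R e : ℕ)
    (he : 4 * p + 1 ≤ e) (hR : N * (N * (e + 1) + 2) + 1 ≤ R) {H : ℕ} (hH : hh ≤ H)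
    (l : List ℕ) : ∀ st : ℕ × List PMat, pn_OI c H R e st.2 →
      pn_OI c H R e (l.foldl (fun st _ => ordS p N d hh st) st).2 ∧
        (l.foldl (fun st _ => ordS p N d hh st) st).1 ≤ st.1 + l.length * N := by
  induction l with
  | nil => intro st h; exact ⟨h, by simp⟩
  | cons x l ih =>
    intro st h
    obtain ⟨h1, h2⟩ := pn_ordS_small hp N d hh c R e st he hR hH h
    obtain ⟨h3, h4⟩ := ih _ h1
    refine ⟨h3, ?_⟩
    rw [List.foldl_cons, List.length_cons, Nat.succ_mul]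
    omega

theorem pn_phaseS_small {p : ℕ} (hp : 0 < p) (N d hh c R e : ℕ) (cs : List ℕ) (i : ℕ)
    (he : 4 * p + 1 ≤ e) (hR : N * (N * (e + 1) + 2) + 1 ≤ R) {H : ℕ} (hH : hh ≤ H)
    (st : ℕ × List PMat) (h : pn_OI c H R e st.2) :
    pn_OI c H R e (phaseS p N d hh cs st i).2 ∧ (phaseS p N d hh cs st i).1 ≤ 2 * st.1 + N * N := by
  have h1 := pn_dblS_small N hh c e R cs i st (by omega) h.1 hR hH fun P hP => (h.2 P hP).2.2
  obtain ⟨h2, h3⟩ := pn_ordS_iter_small hp N d hh c R e he hR hH (List.range N) _ h1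
  rw [List.length_range] at h3
  exact ⟨h2, h3⟩

theorem pn_sz_le_of_le {x y : ℕ} (h : x ≤ y) : sz x ≤ 4 * sz y + 1 := by
  have h1 := D1_sz_nat x
  have h2 := D1_size_le_sz y
  have h3 := Nat.size_le_size h
  omega

theorem poly_phaseS {p N d hh i : α → ℕ} {cs : α → List ℕ} {st : α → ℕ × List PMat}
    (hp : UPoly p) (h0 : ∀ a, 0 < p a) (hN : UPoly N) (hd : UPoly d) (hhh : UPoly hh)
    (hc : Poly cs) (hi : UPoly i) (hs : Poly st) :
    Poly (fun a => phaseS (p a) (N a) (d a) (hh a) (cs a) (st a) (i a)) := by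
  obtain ⟨P, hP⟩ := UPoly.bound hp
  obtain ⟨M, hM⟩ := UPoly.bound hN
  obtain ⟨H, hH⟩ := UPoly.bound hhh
  obtain ⟨S, hS⟩ := Poly.size hs
  have hv : Poly (fun a => 2 * (st a).1 + N a * N a) :=
    poly_nat_add (poly_nat_mul (TM2Lib.Poly.const 2) hs.fst') (hN.mul hN).toNat
  obtain ⟨V, hV⟩ := Poly.size hv
  unfold phaseS
  refine poly_foldlRI (h := fun a st _ => ordS (p a) (N a) (d a) (hh a) st) hN
    (poly_dblS hN hhh hc hi hs)
    (poly_ordS (hp.comp Poly.fst) (fun x => h0 x.1) (hN.comp Poly.fst) (hd.comp Poly.fst)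
      (hhh.comp Poly.fst) Poly.snd.fst')
    (fun a k s => pn_OI (st a).2.length (hh a) (N a * (N a * (4 * p a + 1 + sz (st a) + 1) + 2) + 1)
      (4 * p a + 1 + sz (st a)) s.2 ∧ s.1 ≤ 2 * (st a).1 + k * N a) ?_ ?_
    (4 * V + (S * (H * (M * (M * (4 * P + 1 + S + 1) + 2) + 1 + 1) + 2) + 1) + 2) ?_
  · intro a
    refine ⟨?_, by simp [dblS]⟩
    refine pn_dblS_small (N a) (hh a) _ _ _ (cs a) (i a) (st a) (by omega) le_rfl le_rfl le_rfl ?_
    intro Q hQ h i' j'
    have h1 := pn_sz_entM_le (Q.getD h []) i' j'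
    have h2 : sz (Q.getD h []) ≤ sz Q := pn_sz_getD_le Q h [] (by rw [sz_nil])
    have h3 := Poly.sz_mem_le hQ
    have h4 : sz (st a) = sz (st a).1 + sz (st a).2 + 1 := sz_pair (st a).1 (st a).2
    omega
  · rintro a k s _ ⟨h1, h2⟩
    obtain ⟨h3, h4⟩ := pn_ordS_small (h0 a) (N a) (d a) (hh a) _ _ _ s (by omega) le_rfl le_rfl h1
    refine ⟨h3, ?_⟩
    have h5 : (k + 1) * N a = k * N a + N a := by ring
    rw [h5]
    omega
  · rintro a k ⟨v, L⟩ hk ⟨h1, h2⟩
    have h3 := pn_sz_OI h1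
    have h4 : v ≤ 2 * (st a).1 + N a * N a := by
      have := Nat.mul_le_mul_right (N a) hk
      simp only at h2
      omega
    have h5 := pn_sz_le_of_le h4
    have h6 := hV a
    have h7 := hP a
    have h8 := hM a
    have h9 := hH a
    have h10 := hS a
    have h11 : (st a).2.length ≤ sz (st a) := by
      have h12 := length_lt_sz (st a).2
      have h13 : sz (st a) = sz (st a).1 + sz (st a).2 + 1 := sz_pair (st a).1 (st a).2
      omega
    have h12 : (st a).2.length * (hh a * (N a * (N a * (4 * p a + 1 + sz (st a) + 1) + 2) + 1 + 1) +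
        2) + 1 ≤ S.eval (sz a) * (H.eval (sz a) * (M.eval (sz a) * (M.eval (sz a) *
          (4 * P.eval (sz a) + 1 + S.eval (sz a) + 1) + 2) + 1 + 1) + 2) + 1 := by
      have h13 := h11.trans h10
      gcongr
    simp only [Polynomial.eval_add, Polynomial.eval_mul, Polynomial.eval_ofNat,
      Polynomial.eval_one]
    simp only at h3 h6
    rw [sz_pair]
    omega

theorem upoly_nbits {cs : α → List ℕ} (hc : Poly cs) : UPoly (fun a => nbits (cs a)) := by
  refine (UPoly.length (Poly.flatMap (h := fun x : α × ℕ => x.2.bits) hc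
    (Poly.bits Poly.snd))).of_eq fun a => ?_
  rw [List.length_flatMap]
  rfl

/-- all pn_phases -/
def pn_phases (p N d hh : ℕ) (cs : List ℕ) (st : ℕ × List PMat) : ℕ × List PMat :=
  (List.range (nbits cs)).reverse.foldl (phaseS p N d hh cs) st

theorem pn_foldl_reverse_un {σ : Type} (h : σ → ℕ → σ) (n : ℕ) (s : σ) :
    ((List.range n).map Un.mk).reverse.foldl (fun s u => h s u.n) s =
      (List.range n).reverse.foldl h s := by
  rw [← List.map_reverse, List.foldl_map]

theorem pn_poly_phases {p N d hh : α → ℕ} {cs : α → List ℕ} {Ms : α → List (List (List ℕ))}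
    (hp : UPoly p) (h0 : ∀ a, 0 < p a) (hN : UPoly N) (hd : UPoly d) (hhh : UPoly hh)
    (hc : Poly cs) (hMs : Poly Ms) :
    Poly (fun a => pn_phases (p a) (N a) (d a) (hh a) (cs a) (0, (Ms a).map fun M => [M])) := by
  obtain ⟨P, hP⟩ := UPoly.bound hp
  obtain ⟨M, hM⟩ := UPoly.bound hN
  obtain ⟨H, hH⟩ := UPoly.bound hhh
  obtain ⟨S, hS⟩ := Poly.size hMs
  obtain ⟨C, hC⟩ := UPoly.bound (upoly_nbits hc)
  have hg : Poly (fun a => ((0, (Ms a).map fun M => [M]) : ℕ × List PMat)) :=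
    (TM2Lib.Poly.const 0).pair (TM2Lib.Poly.map (h := fun x : α × List (List ℕ) => [x.2]) hMs
      (Poly.snd.cons (TM2Lib.Poly.const [])))
  refine (poly_foldlI (f := fun a => ((List.range (nbits (cs a))).map Un.mk).reverse)
    (g := fun a => ((0, (Ms a).map fun M => [M]) : ℕ × List PMat))
    (h := fun a s u => phaseS (p a) (N a) (d a) (hh a) (cs a) s u.n)
    (Poly.reverse (Poly.range (upoly_nbits hc))) hg
    (poly_phaseS (hp.comp Poly.fst) (fun x => h0 x.1) (hN.comp Poly.fst) (hd.comp Poly.fst)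
      (hhh.comp Poly.fst) (hc.comp Poly.fst) (UPoly.n.comp Poly.snd.snd') Poly.snd.fst')
    (fun a k s => pn_OI (Ms a).length (hh a + 1)
      (N a * (N a * (4 * p a + 1 + sz (Ms a) + 1) + 2) + 1 + sz (Ms a))
      (4 * p a + 1 + sz (Ms a)) s.2 ∧ s.1 + N a * N a ≤ 2 ^ k * (N a * N a)) ?_ ?_
    (4 * (C + M * M) + 2 + (S * ((H + 1) * (M * (M * (4 * P + 1 + S + 1) + 2) + 1 + S + 1) + 2) +
      1)) ?_).of_eq fun a => pn_foldl_reverse_un (phaseS (p a) (N a) (d a) (hh a) (cs a)) _ _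
  · intro a
    refine ⟨⟨by simp, ?_⟩, by simp⟩
    intro Q hQ
    obtain ⟨A, hA, rfl⟩ := List.mem_map.1 hQ
    have h1 := Poly.sz_mem_le hA
    refine ⟨by simp, ?_, ?_⟩
    · intro B hB
      rw [List.mem_singleton.1 hB]
      omega
    · intro h i j
      rcases h with _ | h
      · have h2 := pn_sz_entM_le A i j
        have h3 : [A].getD 0 [] = A := rfl
        rw [h3]
        omega
      · have h3 : [A].getD (h + 1) [] = [] := by simp
        have h2 := pn_sz_entM_le [] i j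
        rw [sz_nil] at h2
        rw [h3]
        omega
  · rintro a k s b _ _ ⟨h1, h2⟩
    obtain ⟨h3, h4⟩ := pn_phaseS_small (h0 a) (N a) (d a) (hh a) _
      (N a * (N a * (4 * p a + 1 + sz (Ms a) + 1) + 2) + 1 + sz (Ms a))
      (4 * p a + 1 + sz (Ms a)) (cs a) b.n (by omega) (by omega)
      (H := hh a + 1) (by omega) s h1
    refine ⟨h3, ?_⟩
    rw [pow_succ]
    have h5 : 2 ^ k * 2 * (N a * N a) = 2 * (2 ^ k * (N a * N a)) := by ring
    rw [h5]
    omega
  · rintro a k ⟨v, L⟩ hk ⟨h1, h2⟩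
    have h3 := pn_sz_OI h1
    have h4 : v < 2 ^ (k + N a * N a) := by
      rcases Nat.eq_zero_or_pos (N a * N a) with h5 | h5
      · rw [h5] at h2
        simp only at h2
        have h6 : v = 0 := by omega
        rw [h6]
        positivity
      · have h6 : N a * N a < 2 ^ (N a * N a) := Nat.lt_two_pow_self
        calc v < v + N a * N a := by omega
          _ ≤ 2 ^ k * (N a * N a) := h2
          _ ≤ 2 ^ k * 2 ^ (N a * N a) := Nat.mul_le_mul_left _ h6.le
          _ = 2 ^ (k + N a * N a) := by rw [pow_add]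
    have h5 := RTO.sz_lt_pow h4
    have h6 := hC a
    have h7 := hP a
    have h8 := hM a
    have h9 := hH a
    have h10 := hS a
    have hk' : k ≤ nbits (cs a) := by simpa using hk
    have h11 : (Ms a).length ≤ S.eval (sz a) := (length_lt_sz _).le.trans h10
    have h12 : (Ms a).length * ((hh a + 1) * (N a * (N a * (4 * p a + 1 + sz (Ms a) + 1) + 2) + 1 +
        sz (Ms a) + 1) + 2) + 1 ≤ S.eval (sz a) * ((H.eval (sz a) + 1) * (M.eval (sz a) *
          (M.eval (sz a) * (4 * P.eval (sz a) + 1 + S.eval (sz a) + 1) + 2) + 1 + S.eval (sz a) +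
            1) + 2) + 1 := by
      gcongr
    have h13 : N a * N a ≤ M.eval (sz a) * M.eval (sz a) := Nat.mul_le_mul h8 h8
    simp only [Polynomial.eval_add, Polynomial.eval_mul, Polynomial.eval_ofNat,
      Polynomial.eval_one]
    simp only at h3
    rw [sz_pair]
    omega

theorem pn_ordDet_eq (p N d : ℕ) (Ms : List (List (List ℕ))) (cs : List ℕ) : ordDet p N d Ms cs =
    match ncr p N d Ms with
    | none => some (pn_phases p N d (2 * N + 1) cs (0, Ms.map fun M => [M])).1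
    | some _ => none := by
  unfold ordDet pn_phases
  cases ncr p N d Ms <;> rfl

theorem poly_ordDet {p N d : α → ℕ} {cs : α → List ℕ} {Ms : α → List (List (List ℕ))}
    (hp : UPoly p) (h0 : ∀ a, 0 < p a) (hN : UPoly N) (hd : UPoly d) (hMs : Poly Ms)
    (hc : Poly cs) : Poly (fun a => ordDet (p a) (N a) (d a) (Ms a) (cs a)) := by
  have h1 := pn_poly_phases hp h0 hN hd (((UPoly.const 2).mul hN).add (UPoly.const 1)) hc hMs
  exact (poly_ocases (h := fun _ _ => (none : Option ℕ)) (poly_ncr hp h0 hN hd hMs)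
    (Poly.some h1.fst') (TM2Lib.Poly.const none)).of_eq fun a => by
      rw [pn_ordDet_eq]
      cases ncr (p a) (N a) (d a) (Ms a) <;> rfl

end Pool.Agent.RTB
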