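import Pool.Agent.RTB.PolyW
import Pool.Agent.RTB.PolyOrd

/-!
# Polynomial time: the linear matrix `lm` of a family of rows, the value `delta`
-/

set_option autoImplicit false

namespace Pool.Agent.RTB

open Pool.Agent.TM2Lib Pool.Agent.M3

variable {α β : Type} [Enc α] [Enc β]

/-! ### propositions -/

theorem poly_iteP {c : α → Prop} [∀ a, Decidable (c a)] {f g : α → β}
    (hc : Poly fun a => decide (c a)) (hf : Poly f) (hg : Poly g) :
    Poly (fun a => if c a then f a else g a) :=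
  (Poly.ite hc hf hg).of_eq fun a => by
    by_cases h : c a <;> simp [h]

theorem poly_andP {c d : α → Prop} [∀ a, Decidable (c a)] [∀ a, Decidable (d a)]
    (hc : Poly fun a => decide (c a)) (hd : Poly fun a => decide (d a)) :
    Poly (fun a => decide (c a ∧ d a)) :=
  (Poly.and hc hd).of_eq fun a => by
    by_cases h : c a <;> by_cases h' : d a <;> simp [h, h']

theorem poly_orP {c d : α → Prop} [∀ a, Decidable (c a)] [∀ a, Decidable (d a)]
    (hc : Poly fun a => decide (c a)) (hd : Poly fun a => decide (d a)) :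
    Poly (fun a => decide (c a ∨ d a)) :=
  (Poly.or hc hd).of_eq fun a => by
    by_cases h : c a <;> by_cases h' : d a <;> simp [h, h']

theorem poly_boolP {c : α → Bool} (hc : Poly c) : Poly (fun a => decide (c a = true)) :=
  hc.of_eq fun a => by cases c a <;> rfl

/-! ### graph data and rows -/

theorem upoly_nd {g : α → GD} (hg : Poly g) : UPoly (fun a => (g a).nd) :=
  UPoly.length hg.fst'

theorem upoly_np {g : α → GD} (hg : Poly g) : UPoly (fun a => (g a).np) :=
  (UPoly.const 1).add (UPoly.length hg.fst')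

theorem upoly_nt {g : α → GD} (hg : Poly g) (hn : UPoly fun a => (g a).nv) :
    UPoly (fun a => (g a).nt) :=
  ((upoly_np hg).mul (upoly_nd hg)).mul (hn.add (UPoly.const 1))

theorem upoly_gsz {g : α → GD} (hg : Poly g) (hn : UPoly fun a => (g a).nv) :
    UPoly (fun a => (g a).sz) := (upoly_nt hg hn).add (upoly_np hg)

theorem poly_hd {g : α → GD} {q : α → ℕ} (hg : Poly g) (hq : Poly q) :
    Poly (fun a => (g a).hd (q a)) :=
  (poly_getDn hg.fst' hq (TM2Lib.Poly.const (0, (0, 0)))).fst'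

theorem poly_tl {g : α → GD} {q : α → ℕ} (hg : Poly g) (hq : Poly q) :
    Poly (fun a => (g a).tl (q a)) :=
  (poly_getDn hg.fst' hq (TM2Lib.Poly.const (0, (0, 0)))).snd'.fst'

theorem poly_len {g : α → GD} {q : α → ℕ} (hg : Poly g) (hq : Poly q) :
    Poly (fun a => (g a).len (q a)) :=
  (poly_getDn hg.fst' hq (TM2Lib.Poly.const (0, (0, 0)))).snd'.snd'

theorem poly_gR {B : α → List Row} {i : α → ℕ} (hB : Poly B) (hi : UPoly i) :
    Poly (fun a => gR (B a) (i a)) :=
  Poly.getD hB hi (TM2Lib.Poly.const (false, ([], (0, 0))))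

theorem upoly_rkk {r : α → Row} (hr : Poly r) : UPoly (fun a => rkk (r a)) :=
  UPoly.ite hr.fst' (UPoly.length hr.snd'.fst') (UPoly.const 0)

theorem poly_rcr {r : α → Row} {j : α → ℕ} (hr : Poly r) (hj : UPoly j) :
    Poly (fun a => rcr (r a) (j a)) :=
  Poly.getD (Poly.reverse hr.snd'.fst') hj (TM2Lib.Poly.const 0)

theorem poly_lastc {r : α → Row} {j j' : α → ℕ} (hr : Poly r) (hj : UPoly j) (hj' : UPoly j') :
    Poly (fun a => lastc (r a) (j a) (j' a)) := by
  unfold lastc
  refine poly_allR (h := fun a i => decide (i ≤ j a) || (rcr (r a) i != rcr (r a) (j a)))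
    (hj'.add (UPoly.const 1)) ?_
  have hi : UPoly (fun x : α × Un => x.2.n) := UPoly.n.comp Poly.snd
  refine (Poly.or (UPoly.le hi (hj.comp Poly.fst)) (Poly.not (Poly.nat_eq
    (poly_rcr (hr.comp Poly.fst) hi) (poly_rcr (hr.comp Poly.fst) (hj.comp Poly.fst))))).of_eq
      fun x => ?_
  by_cases h : rcr (r x.1) x.2.n = rcr (r x.1) (j x.1) <;> simp [h]

/-! ### entries -/

theorem poly_entT0 {g : α → GD} {r : α → Row} {j z j' z' : α → ℕ} (hg : Poly g)
    (hn : UPoly fun a => (g a).nv) (hr : Poly r) (hj : UPoly j) (hz : UPoly z)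
    (hj' : UPoly j') (hz' : UPoly z') :
    Poly (fun a => entT0 (g a) (r a) (j a) (z a) (j' a) (z' a)) := by
  unfold entT0
  refine poly_iteP (poly_andP (UPoly.eq hj hj') (UPoly.eq hz hz')) (TM2Lib.Poly.const 1)
    (poly_iteP ?_ (TM2Lib.Poly.const 1) (TM2Lib.Poly.const 0))
  exact poly_andP (UPoly.le hj hj') (poly_andP (UPoly.lt hj' (upoly_rkk hr))
    (poly_andP (UPoly.eq hz hn) (poly_andP (UPoly.lt hz' hn)
      (poly_andP (Poly.nat_eq hz'.toNat (poly_hd hg (poly_rcr hr hj)))
        (poly_boolP (poly_lastc hr hj hj'))))))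

theorem poly_entTq {g : α → GD} {r : α → Row} {q j z j' z' : α → ℕ} (hg : Poly g)
    (hn : UPoly fun a => (g a).nv) (hr : Poly r) (hq : UPoly q) (hj : UPoly j) (hz : UPoly z)
    (hj' : UPoly j') (hz' : UPoly z') :
    Poly (fun a => entTq (g a) (r a) (q a) (j a) (z a) (j' a) (z' a)) := by
  unfold entTq
  refine poly_iteP ?_ (TM2Lib.Poly.const 1) (TM2Lib.Poly.const 0)
  exact poly_andP (UPoly.eq hj hj') (poly_andP (UPoly.lt hj (upoly_rkk hr))
    (poly_andP (Poly.nat_eq hz.toNat (poly_tl hg hq.toNat)) (poly_andP (UPoly.lt hz hn)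
      (poly_orP (poly_andP (Poly.nat_eq hz'.toNat (poly_hd hg hq.toNat)) (UPoly.lt hz' hn))
        (poly_andP (UPoly.eq hz' hn) (Poly.nat_eq (poly_rcr hr hj) hq.toNat))))))

theorem poly_entC0 {g : α → GD} {r : α → Row} {j z f : α → ℕ}
    (hn : UPoly fun a => (g a).nv) (hr : Poly r) (hj : UPoly j) (hz : UPoly z)
    (hf : UPoly f) : Poly (fun a => entC0 (g a) (r a) (j a) (z a) (f a)) := by
  unfold entC0
  refine poly_iteP ?_ (TM2Lib.Poly.const 1) (TM2Lib.Poly.const 0)
  exact poly_andP (UPoly.lt hj (upoly_rkk hr)) (poly_andP (UPoly.eq hz hn)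
    (poly_andP (Poly.nat_eq hf.toNat (poly_nat_add (TM2Lib.Poly.const 1) (poly_rcr hr hj)))
      (poly_boolP (poly_lastc hr hj ((upoly_rkk hr).sub (UPoly.const 1))))))

theorem poly_entS0 {g : α → GD} {r : α → Row} {j z : α → ℕ} (hg : Poly g)
    (hr : Poly r) (hj : UPoly j) (hz : UPoly z) :
    Poly (fun a => entS0 (g a) (r a) (j a) (z a)) := by
  unfold entS0
  exact poly_iteP (poly_andP (UPoly.lt hj (upoly_rkk hr))
    (Poly.nat_eq hz.toNat hg.snd'.snd'.snd')) (TM2Lib.Poly.const 1) (TM2Lib.Poly.const 0)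

theorem poly_entD0 {r : α → Row} {f : α → ℕ} (hr : Poly r) (hf : UPoly f) :
    Poly (fun a => entD0 (r a) (f a)) := by
  unfold entD0
  exact poly_iteP (Poly.nat_eq hf.toNat (Poly.ite hr.fst' (TM2Lib.Poly.const 0)
    hr.snd'.snd'.snd')) (TM2Lib.Poly.const 1) (TM2Lib.Poly.const 0)

/-! ### the matrices -/

/-- first block of rows of the coefficient matrices -/
theorem poly_rowsT {l m n : α → ℕ} {f : α → ℕ → ℕ → ℕ → List ℕ} (hl : UPoly l) (hm : UPoly m)
    (hn : UPoly n)
    (hf : Poly (fun x : ((α × Un) × Un) × Un => f x.1.1.1 x.1.1.2.n x.1.2.n x.2.n)) :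
    Poly (fun a => (List.range (l a)).flatMap fun i => (List.range (m a)).flatMap fun j =>
      (List.range (n a)).map fun z => f a i j z) :=
  poly_flatMapR (h := fun a i => (List.range (m a)).flatMap fun j =>
    (List.range (n a)).map fun z => f a i j z) hl
    (poly_flatMapR (h := fun (x : α × Un) j => (List.range (n x.1)).map fun z =>
      f x.1 x.2.n j z) (hm.comp Poly.fst)
      (poly_mapR (h := fun (x : (α × Un) × Un) z => f x.1.1 x.1.2.n x.2.n z)
        (hn.comp Poly.fst.fst') hf))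

theorem poly_lm0 {p : α → ℕ} {g : α → GD} {B : α → List Row} (hp : UPoly p) (hg : Poly g)
    (hn : UPoly fun a => (g a).nv) (hB : Poly B) :
    Poly (fun a => lm0 (p a) (g a) (B a)) := by
  unfold lm0
  refine Poly.append ?_ ?_
  · refine poly_rowsT (f := fun a i j z =>
      mkV3 (g a).np (g a).nd ((g a).nv + 1)
        (fun i' j' z' => if i = i' then entT0 (g a) (gR (B a) i) j z j' z' else 0) ++
        vt (g a).np fun f => (p a - 1) * entC0 (g a) (gR (B a) i) j z f)
      (upoly_np hg) (upoly_nd hg) (hn.add (UPoly.const 1)) ?_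
    have f1 : Poly (fun x : ((α × Un) × Un) × Un => x.1.1.1) := Poly.fst.fst'.fst'
    have ui : UPoly (fun x : ((α × Un) × Un) × Un => x.1.1.2.n) := UPoly.n.comp Poly.fst.fst'.snd'
    have uj : UPoly (fun x : ((α × Un) × Un) × Un => x.1.2.n) := UPoly.n.comp Poly.fst.snd'
    have uz : UPoly (fun x : ((α × Un) × Un) × Un => x.2.n) := UPoly.n.comp Poly.snd
    refine Poly.append ?_ ?_
    · refine poly_mkV3 (f := fun (x : ((α × Un) × Un) × Un) i' j' z' =>
        if x.1.1.2.n = i' then entT0 (g x.1.1.1) (gR (B x.1.1.1) x.1.1.2.n) x.1.2.n x.2.n j' z'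
          else 0) ((upoly_np hg).comp f1) ((upoly_nd hg).comp f1)
          ((hn.comp f1).add (UPoly.const 1)) ?_
      have F : Poly (fun y : ((((((α × Un) × Un) × Un) × Un) × Un) × Un) => y.1.1.1) :=
        Poly.fst.fst'.fst'
      exact poly_iteP (UPoly.eq (ui.comp F) (UPoly.n.comp Poly.fst.fst'.snd'))
        (poly_entT0 (hg.comp (f1.comp F)) (hn.comp (f1.comp F))
          (poly_gR (hB.comp (f1.comp F)) (ui.comp F)) (uj.comp F) (uz.comp F)
          (UPoly.n.comp Poly.fst.snd') (UPoly.n.comp Poly.snd)) (TM2Lib.Poly.const 0)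
    · refine poly_vt (f := fun (x : ((α × Un) × Un) × Un) f =>
        (p x.1.1.1 - 1) * entC0 (g x.1.1.1) (gR (B x.1.1.1) x.1.1.2.n) x.1.2.n x.2.n f)
        ((upoly_np hg).comp f1) ?_
      have F : Poly (fun y : (((α × Un) × Un) × Un) × Un => y.1) := Poly.fst
      exact poly_nat_mul ((hp.comp (f1.comp F)).sub (UPoly.const 1)).toNat
        (poly_entC0 (hn.comp (f1.comp F)) (poly_gR (hB.comp (f1.comp F)) (ui.comp F))
          (uj.comp F) (uz.comp F) (UPoly.n.comp Poly.snd))
  · refine poly_mapR (h := fun a i =>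
      mkV3 (g a).np (g a).nd ((g a).nv + 1)
        (fun i' j z => if i = i' then entS0 (g a) (gR (B a) i) j z else 0) ++
        vt (g a).np fun f => entD0 (gR (B a) i) f) (upoly_np hg) ?_
    have f1 : Poly (fun x : α × Un => x.1) := Poly.fst
    have ui : UPoly (fun x : α × Un => x.2.n) := UPoly.n.comp Poly.snd
    refine Poly.append ?_ ?_
    · refine poly_mkV3 (f := fun (x : α × Un) i' j z =>
        if x.2.n = i' then entS0 (g x.1) (gR (B x.1) x.2.n) j z else 0)
        ((upoly_np hg).comp f1) ((upoly_nd hg).comp f1) ((hn.comp f1).add (UPoly.const 1)) ?_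
      have F : Poly (fun y : (((α × Un) × Un) × Un) × Un => y.1.1.1) := Poly.fst.fst'.fst'
      exact poly_iteP (UPoly.eq (ui.comp F) (UPoly.n.comp Poly.fst.fst'.snd'))
        (poly_entS0 (hg.comp (f1.comp F)) (poly_gR (hB.comp (f1.comp F)) (ui.comp F))
          (UPoly.n.comp Poly.fst.snd') (UPoly.n.comp Poly.snd)) (TM2Lib.Poly.const 0)
    · refine poly_vt (f := fun (x : α × Un) f => entD0 (gR (B x.1) x.2.n) f)
        ((upoly_np hg).comp f1) ?_
      have F : Poly (fun y : (α × Un) × Un => y.1) := Poly.fst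
      exact poly_entD0 (poly_gR (hB.comp (f1.comp F)) (ui.comp F)) (UPoly.n.comp Poly.snd)

theorem poly_lmq {p q : α → ℕ} {g : α → GD} {B : α → List Row} (hp : UPoly p) (hg : Poly g)
    (hn : UPoly fun a => (g a).nv) (hB : Poly B) (hq : UPoly q) :
    Poly (fun a => lmq (p a) (g a) (B a) (q a)) := by
  unfold lmq
  refine Poly.append ?_ ?_
  · refine poly_rowsT (f := fun a i j z =>
      mkV3 (g a).np (g a).nd ((g a).nv + 1)
        (fun i' j' z' =>
          if i = i' then (p a - 1) * entTq (g a) (gR (B a) i) (q a) j z j' z' else 0) ++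
        vt (g a).np fun _ => 0)
      (upoly_np hg) (upoly_nd hg) (hn.add (UPoly.const 1)) ?_
    have f1 : Poly (fun x : ((α × Un) × Un) × Un => x.1.1.1) := Poly.fst.fst'.fst'
    have ui : UPoly (fun x : ((α × Un) × Un) × Un => x.1.1.2.n) := UPoly.n.comp Poly.fst.fst'.snd'
    have uj : UPoly (fun x : ((α × Un) × Un) × Un => x.1.2.n) := UPoly.n.comp Poly.fst.snd'
    have uz : UPoly (fun x : ((α × Un) × Un) × Un => x.2.n) := UPoly.n.comp Poly.snd
    refine Poly.append ?_ ?_
    · refine poly_mkV3 (f := fun (x : ((α × Un) × Un) × Un) i' j' z' =>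
        if x.1.1.2.n = i' then (p x.1.1.1 - 1) *
          entTq (g x.1.1.1) (gR (B x.1.1.1) x.1.1.2.n) (q x.1.1.1) x.1.2.n x.2.n j' z'
          else 0) ((upoly_np hg).comp f1) ((upoly_nd hg).comp f1)
          ((hn.comp f1).add (UPoly.const 1)) ?_
      have F : Poly (fun y : ((((((α × Un) × Un) × Un) × Un) × Un) × Un) => y.1.1.1) :=
        Poly.fst.fst'.fst'
      exact poly_iteP (UPoly.eq (ui.comp F) (UPoly.n.comp Poly.fst.fst'.snd'))
        (poly_nat_mul ((hp.comp (f1.comp F)).sub (UPoly.const 1)).toNat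
          (poly_entTq (hg.comp (f1.comp F)) (hn.comp (f1.comp F))
            (poly_gR (hB.comp (f1.comp F)) (ui.comp F)) (hq.comp (f1.comp F)) (uj.comp F)
            (uz.comp F) (UPoly.n.comp Poly.fst.snd') (UPoly.n.comp Poly.snd)))
          (TM2Lib.Poly.const 0)
    · exact poly_vt (f := fun (_ : ((α × Un) × Un) × Un) _ => 0) ((upoly_np hg).comp f1)
        (TM2Lib.Poly.const 0)
  · exact poly_mapR (h := fun a _ => vt (g a).sz fun _ => 0) (upoly_np hg)
      (poly_vt (f := fun (_ : α × Un) _ => 0) ((upoly_gsz hg hn).comp Poly.fst)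
        (TM2Lib.Poly.const 0))

theorem poly_lm {p : α → ℕ} {g : α → GD} {B : α → List Row} (hp : UPoly p) (hg : Poly g)
    (hn : UPoly fun a => (g a).nv) (hB : Poly B) :
    Poly (fun a => lm (p a) (g a) (B a)) :=
  Poly.cons (poly_lm0 hp hg hn hB)
    (poly_mapR (h := fun a => lmq (p a) (g a) (B a)) (upoly_nd hg)
      (poly_lmq (hp.comp Poly.fst) (hg.comp Poly.fst) (hn.comp Poly.fst) (hB.comp Poly.fst)
        (UPoly.n.comp Poly.snd)))

theorem poly_lmc {g : α → GD} (hg : Poly g) : Poly (fun a => lmc (g a)) :=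
  Poly.cons (TM2Lib.Poly.const 0)
    (poly_mapR (h := fun a => (g a).len) (upoly_nd hg)
      (poly_len (hg.comp Poly.fst) (UPoly.n.comp Poly.snd).toNat))

/-- the value `delta`, from a polynomial time bound for `ordDet` -/
theorem poly_delta_of {p : α → ℕ} {g : α → GD} {B : α → List Row}
    (hO : Poly fun a => ordDet (p a) (g a).sz (2 * (g a).sz) (lm (p a) (g a) (B a)) (lmc (g a)))
    (hB : Poly B) :
    Poly (fun a => delta (p a) (g a) (B a)) := by
  unfold delta
  refine poly_omap (h := fun a v => v + ((B a).map fun r => r.2.2.1).sum) hO ?_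
  exact poly_nat_add Poly.snd (D1_sum (TM2Lib.Poly.map
    (h := fun x : (α × ℕ) × Row => x.2.2.2.1) (hB.comp Poly.fst) Poly.snd.snd'.snd'.fst'))

theorem poly_delta {p : α → ℕ} {g : α → GD} {B : α → List Row} (hp : UPoly p)
    (h0 : ∀ a, 0 < p a) (hg : Poly g) (hn : UPoly fun a => (g a).nv) (hB : Poly B) :
    Poly (fun a => delta (p a) (g a) (B a)) :=
  poly_delta_of (poly_ordDet hp h0 (upoly_gsz hg hn) ((UPoly.const 2).mul (upoly_gsz hg hn))
    (poly_lm hp hg hn hB) (poly_lmc hg)) hB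

end Pool.Agent.RTB
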