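import Pool.Agent.RTO.PolyF
import Pool.Agent.RTB.PolyPr
import Pool.Agent.RTB.LinP

/-!
# Polynomial time: general closure lemmas (loops over `List.range`, zip, random access)
-/

namespace Pool.Agent.RTB

open Pool.Agent.TM2Lib Pool.Agent.M3

section
variable {α β γ σ : Type} [Enc α] [Enc β] [Enc γ] [Enc σ]

/-! ### sizes -/

/-- size of a list of bounded length with bounded elements -/
theorem sz_list_le' (l : List β) (n M : ℕ) (hn : l.length ≤ n) (h : ∀ x ∈ l, sz x ≤ M) :
    sz l ≤ n * (M + 1) + 1 := by
  have h1 := sz_list_le l M h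
  have h2 := Nat.mul_le_mul_right (M + 1) hn
  omega

theorem sz_nat_lt {x p : ℕ} (h : x < p) : sz x ≤ 4 * p + 1 := by
  have := Poly.NPC.sz_nat_le x
  omega

theorem sz_nat_le' {x p : ℕ} (h : x ≤ p) : sz x ≤ 4 * p + 1 := by
  have := Poly.NPC.sz_nat_le x
  omega

/-- a polynomial bound for a unary number -/
theorem UPoly.bound {f : α → ℕ} (hf : UPoly f) : ∃ P : Polynomial ℕ, ∀ a, f a ≤ P.eval (sz a) := by
  obtain ⟨P, hP⟩ := Poly.size hf
  refine ⟨P, fun a => ?_⟩
  have h := hP a
  rw [sz_Un] at h
  simp only at h
  omega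

/-! ### elements of lists -/

/-- random access with a binary index -/
theorem poly_getDn {f : α → List β} {g : α → ℕ} {h : α → β} (hf : Poly f) (hg : Poly g)
    (hh : Poly h) : Poly (fun a => (f a).getD (g a) (h a)) := by
  refine (Poly.getD hf (upoly_min hg (UPoly.length hf)) hh).of_eq fun a => ?_
  rcases le_or_gt (f a).length (g a) with h1 | h1
  · rw [min_eq_right h1, List.getD_eq_getElem?_getD, List.getD_eq_getElem?_getD,
      List.getElem?_eq_none le_rfl, List.getElem?_eq_none h1]
  · rw [min_eq_left h1.le]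

theorem poly_take {f : α → List β} {g : α → ℕ} (hf : Poly f) (hg : UPoly g) :
    Poly (fun a => (f a).take (g a)) := by
  refine (Poly.reverse (Poly.dropU (Poly.reverse hf) ((UPoly.length hf).sub hg))).of_eq
    fun a => ?_
  rw [List.drop_reverse, List.reverse_reverse]
  rcases le_or_gt (f a).length (g a) with h1 | h1
  · rw [Nat.sub_eq_zero_of_le h1, Nat.sub_zero, List.take_length, List.take_of_length_le h1]
  · congr 1
    omega

theorem poly_eraseIdx {f : α → List β} {g : α → ℕ} (hf : Poly f) (hg : UPoly g) :
    Poly (fun a => (f a).eraseIdx (g a)) := by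
  refine (Poly.append (poly_take hf hg) (Poly.dropU hf (hg.add (UPoly.const 1)))).of_eq
    fun a => ?_
  rw [List.eraseIdx_eq_take_drop_succ]

theorem poly_contains {f : α → List ℕ} {g : α → ℕ} (hf : Poly f) (hg : Poly g) :
    Poly (fun a => (f a).contains (g a)) := by
  refine (Poly.any (h := fun x : α × ℕ => decide (x.2 = g x.1)) hf
    (Poly.nat_eq Poly.snd (hg.comp Poly.fst))).of_eq fun a => ?_
  rw [Bool.eq_iff_iff, List.any_eq_true, List.contains_iff_mem]
  constructor
  · rintro ⟨x, hx, h⟩
    rw [decide_eq_true_iff] at h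
    rwa [← h]
  · intro h
    exact ⟨g a, h, by simp⟩

/-- filter, then map -/
theorem poly_length {f : α → List β} (hf : Poly f) : Poly (fun a => (f a).length) :=
  (UPoly.length hf).toNat

/-! ### options -/

theorem poly_ocases {f : α → Option β} {g : α → γ} {h : α → β → γ} (hf : Poly f) (hg : Poly g)
    (hh : Poly fun x : α × β => h x.1 x.2) :
    Poly (fun a => match f a with | none => g a | some b => h a b) :=
  Poly.NPC.option_cases (h := fun x : α × β => h x.1 x.2) hf hg hh

theorem poly_ogetD {f : α → Option β} {g : α → β} (hf : Poly f) (hg : Poly g) :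
    Poly (fun a => (f a).getD (g a)) :=
  (poly_ocases (h := fun _ b => b) hf hg Poly.snd).of_eq fun a => by cases f a <;> rfl

theorem poly_isNone {f : α → Option β} (hf : Poly f) : Poly (fun a => (f a).isNone) :=
  (poly_ocases (h := fun _ _ => false) hf (TM2Lib.Poly.const true)
    (TM2Lib.Poly.const false)).of_eq fun a => by cases f a <;> rfl

theorem poly_omap {f : α → Option β} {h : α → β → γ} (hf : Poly f)
    (hh : Poly fun x : α × β => h x.1 x.2) : Poly (fun a => (f a).map (h a)) :=
  (poly_ocases (h := fun a b => some (h a b)) hf (TM2Lib.Poly.const (none : Option γ))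
    (Poly.some hh)).of_eq fun a => by cases f a <;> rfl

/-! ### loops over ranges, the index being available in unary -/

theorem poly_mapR {n : α → ℕ} {h : α → ℕ → β} (hn : UPoly n)
    (hh : Poly fun x : α × Un => h x.1 x.2.n) :
    Poly (fun a => (List.range (n a)).map (h a)) :=
  Poly.tab (h := fun x : α × Un => h x.1 x.2.n) hn hh

theorem poly_flatMapR {n : α → ℕ} {h : α → ℕ → List β} (hn : UPoly n)
    (hh : Poly fun x : α × Un => h x.1 x.2.n) :
    Poly (fun a => (List.range (n a)).flatMap (h a)) :=
  (Poly.flatten (poly_mapR hn hh)).of_eq fun a => by rw [List.flatMap_def]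

theorem poly_allR {n : α → ℕ} {h : α → ℕ → Bool} (hn : UPoly n)
    (hh : Poly fun x : α × Un => h x.1 x.2.n) :
    Poly (fun a => (List.range (n a)).all (h a)) := by
  refine (Poly.all (h := fun x : α × Un => h x.1 x.2.n) (Poly.range hn) hh).of_eq fun a => ?_
  rw [List.all_map]
  rfl

theorem poly_anyR {n : α → ℕ} {h : α → ℕ → Bool} (hn : UPoly n)
    (hh : Poly fun x : α × Un => h x.1 x.2.n) :
    Poly (fun a => (List.range (n a)).any (h a)) := by
  refine (Poly.any (h := fun x : α × Un => h x.1 x.2.n) (Poly.range hn) hh).of_eq fun a => ?_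
  rw [List.any_map]
  rfl

/-- the numbers below `n` with a property, in unary -/
theorem poly_filterU {n : α → ℕ} {h : α → ℕ → Bool} (hn : UPoly n)
    (hh : Poly fun x : α × Un => h x.1 x.2.n) :
    Poly (fun a => ((List.range (n a)).filter (h a)).map Un.mk) := by
  refine (Poly.filter (h := fun x : α × Un => h x.1 x.2.n) (Poly.range hn) hh).of_eq fun a => ?_
  rw [List.filter_map]
  rfl

theorem poly_filterR {n : α → ℕ} {h : α → ℕ → Bool} (hn : UPoly n)
    (hh : Poly fun x : α × Un => h x.1 x.2.n) :
    Poly (fun a => (List.range (n a)).filter (h a)) := by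
  refine (TM2Lib.Poly.map (h := fun x : α × Un => x.2.n) (poly_filterU hn hh)
    (UPoly.comp (g := fun u : Un => u.n) UPoly.n Poly.snd).toNat).of_eq fun a => ?_
  rw [List.map_map]
  exact List.map_id _

/-- search: the first number below `n` with a property -/
theorem upoly_search {n d : α → ℕ} {h : α → ℕ → Bool} (hn : UPoly n)
    (hh : Poly fun x : α × Un => h x.1 x.2.n) (hd : UPoly d) :
    UPoly (fun a => ((List.range (n a)).filter (h a)).headD (d a)) := by
  refine Poly.of_eq (Poly.headD (poly_filterU hn hh) hd) fun a => ?_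
  simp only
  cases (List.range (n a)).filter (h a) <;> rfl

theorem poly_sumMapR {n : α → ℕ} {h : α → ℕ → ℕ} (hn : UPoly n)
    (hh : Poly fun x : α × Un => h x.1 x.2.n) :
    Poly (fun a => ((List.range (n a)).map (h a)).sum) :=
  D1_sum (poly_mapR hn hh)

/-- loops with a polynomial bound for the intermediate values -/
theorem poly_foldlR {n : α → ℕ} {g : α → σ} {h : α → σ → ℕ → σ} (hn : UPoly n) (hg : Poly g)
    (hh : Poly fun x : α × (σ × Un) => h x.1 x.2.1 x.2.2.n) (B : Polynomial ℕ)
    (hB : ∀ a, ∀ k ≤ n a, sz ((List.range k).foldl (h a) (g a)) ≤ B.eval (sz a)) :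
    Poly (fun a => (List.range (n a)).foldl (h a) (g a)) := by
  have key : ∀ (a : α) (l : List ℕ) (s : σ),
      (l.map Un.mk).foldl (fun s b => h a s b.n) s = l.foldl (h a) s := by
    intro a l
    induction l with
    | nil => intro s; rfl
    | cons x l ih => intro s; exact ih _
  refine (Poly.foldl (f := fun a => (List.range (n a)).map Un.mk) (g := g)
    (h := fun x : α × (σ × Un) => h x.1 x.2.1 x.2.2.n) (Poly.range hn) hg hh B ?_).of_eq
      fun a => key a _ _
  intro a k
  simp only
  rw [← List.map_take, List.take_range, key]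
  exact hB a _ (min_le_right _ _)

/-- loops with an invariant -/
theorem poly_foldlRI {n : α → ℕ} {g : α → σ} {h : α → σ → ℕ → σ} (hn : UPoly n) (hg : Poly g)
    (hh : Poly fun x : α × (σ × Un) => h x.1 x.2.1 x.2.2.n) (I : α → ℕ → σ → Prop)
    (h0 : ∀ a, I a 0 (g a)) (hI : ∀ a k s, k < n a → I a k s → I a (k + 1) (h a s k))
    (B : Polynomial ℕ) (hB : ∀ a k s, k ≤ n a → I a k s → sz s ≤ B.eval (sz a)) :
    Poly (fun a => (List.range (n a)).foldl (h a) (g a)) := by
  have key : ∀ a, ∀ k ≤ n a, I a k ((List.range k).foldl (h a) (g a)) := by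
    intro a k
    induction k with
    | zero => intro _; exact h0 a
    | succ k ih =>
      intro hk
      rw [List.range_succ, List.foldl_append]
      exact hI a k _ (by omega) (ih (by omega))
  exact poly_foldlR hn hg hh B fun a k hk => hB a k _ hk (key a k hk)

/-- loops over lists with an invariant -/
theorem poly_foldlI {f : α → List β} {g : α → σ} {h : α → σ → β → σ} (hf : Poly f) (hg : Poly g)
    (hh : Poly fun x : α × (σ × β) => h x.1 x.2.1 x.2.2) (I : α → ℕ → σ → Prop)
    (h0 : ∀ a, I a 0 (g a)) (hI : ∀ a k s b, k < (f a).length → b ∈ f a → I a k s →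
      I a (k + 1) (h a s b))
    (B : Polynomial ℕ) (hB : ∀ a k s, k ≤ (f a).length → I a k s → sz s ≤ B.eval (sz a)) :
    Poly (fun a => (f a).foldl (h a) (g a)) := by
  have key : ∀ (a : α) (l : List β) (k : ℕ) (s : σ), (∀ b ∈ l, b ∈ f a) →
      k + l.length ≤ (f a).length → I a k s → I a (k + l.length) (l.foldl (h a) s) := by
    intro a l
    induction l with
    | nil => intro k s _ _ hs; exact hs
    | cons b l ih =>
      intro k s hl hk hs
      rw [List.length_cons] at hk
      have h1 := ih (k + 1) (h a s b) (fun b' hb' => hl b' (List.mem_cons_of_mem _ hb'))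
        (by omega) (hI a k s b (by omega) (hl b List.mem_cons_self) hs)
      rw [List.length_cons, List.foldl_cons]
      rw [show k + (l.length + 1) = k + 1 + l.length by omega]
      exact h1
  refine Poly.foldl (h := fun x : α × (σ × β) => h x.1 x.2.1 x.2.2) hf hg hh B ?_
  intro a k
  have h1 := key a ((f a).take k) 0 (g a) (fun b hb => List.mem_of_mem_take hb)
    (by rw [List.length_take]; omega) (h0 a)
  exact hB a _ _ (by rw [List.length_take]; omega) h1

/-! ### zip -/

/-- the step of `zip` -/
def zipSt (s : List γ × List (β × γ)) (b : β) : List γ × List (β × γ) :=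
  match s.1 with
  | [] => s
  | c :: l => (l, (b, c) :: s.2)

omit [Enc β] [Enc γ] in
theorem zipSt_foldl (l : List β) : ∀ (r : List γ) (out : List (β × γ)),
    (l.foldl zipSt (r, out)).2 = (l.zip r).reverse ++ out := by
  induction l with
  | nil => intro r out; rfl
  | cons b l ih =>
    intro r out
    cases r with
    | nil =>
      have h1 : ∀ l' : List β, l'.foldl zipSt (([] : List γ), out) = ([], out) := by
        intro l'
        induction l' with
        | nil => rfl
        | cons b' l' ih' => rw [List.foldl_cons]; exact ih'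
      rw [h1]
      simp
    | cons c r =>
      rw [List.foldl_cons]
      show (l.foldl zipSt (r, (b, c) :: out)).2 = _
      rw [ih, List.zip_cons_cons, List.reverse_cons, List.append_assoc]
      rfl

theorem sz_zipSt (s : List γ × List (β × γ)) (b : β) : sz (zipSt s b) ≤ sz s + (sz b + 1) := by
  obtain ⟨r, out⟩ := s
  unfold zipSt
  cases r with
  | nil => simp only; omega
  | cons c r => simp only [sz_pair, sz_cons]; omega

theorem poly_zipSt : Poly (fun x : (List γ × List (β × γ)) × β => zipSt x.1 x.2) := by
  refine (Poly.list_cases (f := fun x : (List γ × List (β × γ)) × β => x.1.1)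
    (g := fun x => x.1) (h := fun y : ((List γ × List (β × γ)) × β) × (γ × List γ) =>
      (y.2.2, (y.1.2, y.2.1) :: y.1.1.2)) Poly.fst.fst' Poly.fst
    (Poly.snd.snd'.pair ((Poly.fst.snd'.pair Poly.snd.fst').cons Poly.fst.fst'.snd'))).of_eq
      fun x => ?_
  obtain ⟨⟨r, out⟩, b⟩ := x
  cases r <;> rfl

theorem poly_zip {f : α → List β} {g : α → List γ} (hf : Poly f) (hg : Poly g) :
    Poly (fun a => (f a).zip (g a)) := by
  obtain ⟨F, hF⟩ := hf.size
  have h1 := Poly.foldl_add (f := f) (g := fun a => (g a, ([] : List (β × γ))))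
    (h := fun x : α × ((List γ × List (β × γ)) × β) => zipSt x.2.1 x.2.2) hf
    (hg.pair (TM2Lib.Poly.const [])) (poly_zipSt.comp (Poly.snd.fst'.pair Poly.snd.snd'))
    (F + 1) (by
      intro a s b hb
      have h2 := sz_zipSt s b
      have h3 := Poly.sz_mem_le hb
      have h4 := hF a
      simp only [Polynomial.eval_add, Polynomial.eval_one]
      omega)
  refine (Poly.reverse h1.snd').of_eq fun a => ?_
  simp only
  rw [zipSt_foldl, List.append_nil, List.reverse_reverse]

theorem poly_zipWith {δ : Type} [Enc δ] {f : α → List β} {g : α → List γ} {h : α → β → γ → δ}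
    (hf : Poly f) (hg : Poly g) (hh : Poly fun x : α × (β × γ) => h x.1 x.2.1 x.2.2) :
    Poly (fun a => List.zipWith (h a) (f a) (g a)) := by
  refine (TM2Lib.Poly.map (h := fun x : α × (β × γ) => h x.1 x.2.1 x.2.2)
    (poly_zip hf hg) hh).of_eq fun a => ?_
  rw [List.zip_eq_zipWith, List.map_zipWith]

end

end Pool.Agent.RTB
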