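import Pool.Agent.RTB.Alg
import Pool.Agent.RTB.PolyU
import Pool.Agent.RTB.PolyLm

/-!
# Polynomial time: the families of walks
-/

namespace Pool.Agent.RTB

open Pool.Agent.TM2Lib Pool.Agent.M3
open Pool.Agent.RTO (Arc)

variable {α : Type} [Enc α]

theorem sz_le_of_le {x y : ℕ} (h : x ≤ y) : sz x ≤ 4 * sz y + 1 := by
  have h1 := D1_sz_nat x
  have h2 := D1_size_le_sz y
  have h3 := Nat.size_le_size h
  omega

/-- loops that select one of the values -/
theorem poly_foldSel {σ : Type} [Enc σ] {n : α → ℕ} {f : α → ℕ → σ} {g : α → σ} {h : σ → σ → σ}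
    (hn : UPoly n) (hg : Poly g) (hf : Poly fun x : α × Un => f x.1 x.2.n)
    (hh : Poly fun x : σ × σ => h x.1 x.2) (hsel : ∀ x y, h x y = x ∨ h x y = y) :
    Poly (fun a => (List.range (n a)).foldl (fun acc i => h acc (f a i)) (g a)) := by
  obtain ⟨Q, hQ⟩ := hf.size
  obtain ⟨G, hG⟩ := hg.size
  obtain ⟨N, hN⟩ := UPoly.bound hn
  refine poly_foldlRI (h := fun a acc i => h acc (f a i)) hn hg ?_
    (fun a _ s => s = g a ∨ ∃ i, i < n a ∧ s = f a i) (fun a => Or.inl rfl) ?_
    (G + Q.comp (Polynomial.X + 2 * N + 2)) ?_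
  · exact Poly.comp (g := fun x : σ × σ => h x.1 x.2)
      (f := fun x : α × (σ × Un) => (x.2.1, f x.1 x.2.2.n)) hh
      (Poly.snd.fst'.pair (Poly.comp (g := fun x : α × Un => f x.1 x.2.n)
        (f := fun x : α × (σ × Un) => (x.1, x.2.2)) hf (Poly.fst.pair Poly.snd.snd')))
  · intro a k s hk hs
    rcases hsel s (f a k) with h1 | h1
    · rw [h1]; exact hs
    · rw [h1]; exact Or.inr ⟨k, hk, rfl⟩
  · intro a k s hk hs
    simp only [Polynomial.eval_add, Polynomial.eval_comp, Polynomial.eval_mul, Polynomial.eval_X,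
      Polynomial.eval_ofNat]
    rcases hs with rfl | ⟨i, hi, rfl⟩
    · have := hG a
      omega
    · have h1 := hQ (a, ⟨i⟩)
      rw [sz_pair, sz_Un] at h1
      have h2 := hN a
      have h3 : Q.eval (sz a + (2 * i + 1) + 1) ≤ Q.eval (sz a + 2 * N.eval (sz a) + 2) :=
        eval_mono _ (by omega)
      simp only at h1
      omega

/-- loops over lists that select one of the values -/
theorem poly_foldSelL {σ β : Type} [Enc σ] [Enc β] {l : α → List β} {f : α → β → σ} {g : α → σ}
    {h : σ → σ → σ} (hl : Poly l) (hg : Poly g) (hf : Poly fun x : α × β => f x.1 x.2)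
    (hh : Poly fun x : σ × σ => h x.1 x.2) (hsel : ∀ x y, h x y = x ∨ h x y = y) :
    Poly (fun a => (l a).foldl (fun acc b => h acc (f a b)) (g a)) := by
  obtain ⟨Q, hQ⟩ := hf.size
  obtain ⟨G, hG⟩ := hg.size
  obtain ⟨L, hL⟩ := hl.size
  refine poly_foldlI (h := fun a acc b => h acc (f a b)) hl hg ?_
    (fun a _ s => s = g a ∨ ∃ b, b ∈ l a ∧ s = f a b) (fun a => Or.inl rfl) ?_
    (G + Q.comp (Polynomial.X + L + 1)) ?_
  · exact Poly.comp (g := fun x : σ × σ => h x.1 x.2)
      (f := fun x : α × (σ × β) => (x.2.1, f x.1 x.2.2)) hh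
      (Poly.snd.fst'.pair (Poly.comp (g := fun x : α × β => f x.1 x.2)
        (f := fun x : α × (σ × β) => (x.1, x.2.2)) hf (Poly.fst.pair Poly.snd.snd')))
  · intro a k s b hk hb hs
    rcases hsel s (f a b) with h1 | h1
    · rw [h1]; exact hs
    · rw [h1]; exact Or.inr ⟨b, hb, rfl⟩
  · intro a k s hk hs
    simp only [Polynomial.eval_add, Polynomial.eval_comp, Polynomial.eval_X,
      Polynomial.eval_one]
    rcases hs with rfl | ⟨b, hb, rfl⟩
    · have := hG a
      omega
    · have h1 := hQ (a, b)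
      rw [sz_pair] at h1
      have h2 := hL a
      have h4 := Poly.sz_mem_le hb
      have h3 : Q.eval (sz a + sz b + 1) ≤ Q.eval (sz a + L.eval (sz a) + 1) :=
        eval_mono _ (by omega)
      simp only at h1
      omega

/-! ### selection -/

theorem better_sel (x y : Option (ℕ × List Row)) : better x y = x ∨ better x y = y := by
  unfold better
  rcases x with _ | x <;> rcases y with _ | y
  · exact Or.inl rfl
  · exact Or.inr rfl
  · exact Or.inl rfl
  · simp only
    split_ifs
    · exact Or.inr rfl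
    · exact Or.inl rfl

theorem poly_better : Poly (fun x : Option (ℕ × List Row) × Option (ℕ × List Row) =>
    better x.1 x.2) := by
  refine (poly_ocases (f := fun x : Option (ℕ × List Row) × Option (ℕ × List Row) => x.1)
    (g := fun x => x.2)
    (h := fun x c => match x.2 with
      | none => some c
      | some d => if decide (d.1 < c.1) then some d else some c)
    Poly.fst Poly.snd ?_).of_eq fun x => ?_
  · refine (poly_ocases
      (f := fun x : (Option (ℕ × List Row) × Option (ℕ × List Row)) × (ℕ × List Row) => x.1.2)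
      (g := fun x => some x.2)
      (h := fun x d => if decide (d.1 < x.2.1) then some d else some x.2)
      Poly.fst.snd' (Poly.some Poly.snd) ?_).of_eq fun x => ?_
    · exact Poly.ite (poly_nat_lt Poly.snd.fst' Poly.fst.snd'.fst') (Poly.some Poly.snd)
        (Poly.some Poly.fst.snd')
    · rcases x with ⟨⟨x, _ | y⟩, z⟩ <;> rfl
  · obtain ⟨x, y⟩ := x
    unfold better
    rcases x with _ | x <;> rcases y with _ | y
    · rfl
    · rfl
    · rfl
    · simp

theorem poly_cand {p : α → ℕ} {g : α → GD} {C : α → List Row} {i : α → ℕ} (hp : UPoly p)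
    (hp0 : ∀ a, 0 < p a) (hg : Poly g) (hn : UPoly fun a => (g a).nv) (hC : Poly C) (hi : UPoly i) :
    Poly (fun a => cand (p a) (g a) (C a) (i a)) := by
  have h1 := poly_eraseIdx hC hi
  exact poly_omap (h := fun a v => (v, (C a).eraseIdx (i a))) (poly_delta hp hp0 hg hn h1)
    (Poly.snd.pair (h1.comp Poly.fst))

theorem poly_select {p : α → ℕ} {g : α → GD} {B : α → List Row} {r : α → Row} (hp : UPoly p)
    (hp0 : ∀ a, 0 < p a) (hg : Poly g) (hn : UPoly fun a => (g a).nv) (hB : Poly B) (hr : Poly r) :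
    Poly (fun a => select (p a) (g a) (B a) (r a)) := by
  have hBr : Poly (fun a => B a ++ [r a]) := Poly.append hB (hr.cons (TM2Lib.Poly.const []))
  have h1 : Poly (fun a => (List.range ((g a).np + 1)).foldl
      (fun acc i => better acc (cand (p a) (g a) (B a ++ [r a]) i)) none) := by
    refine poly_foldSel (f := fun a i => cand (p a) (g a) (B a ++ [r a]) i)
      (g := fun _ => none) (h := better) ((upoly_np hg).add (UPoly.const 1))
      (TM2Lib.Poly.const none) ?_ poly_better better_sel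
    exact poly_cand (UPoly.comp (g := p) hp Poly.fst) (fun x => hp0 x.1) (hg.comp Poly.fst)
      (UPoly.comp (g := fun a => (g a).nv) hn Poly.fst) (hBr.comp Poly.fst)
      (UPoly.comp (g := fun u : Un => u.n) UPoly.n Poly.snd)
  exact poly_ogetD (poly_omap (h := fun _ c => c.2) h1 Poly.snd.snd') hB

theorem poly_dummies {g : α → GD} {H : α → ℕ} (hg : Poly g) (hH : Poly H) :
    Poly (fun a => dummies (g a) (H a)) := by
  refine poly_mapR (h := fun a j => ((false, ([], (H a, j))) : Row)) (upoly_np hg) ?_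
  exact (TM2Lib.Poly.const false).pair ((TM2Lib.Poly.const []).pair ((hH.comp Poly.fst).pair
    (UPoly.comp (g := fun u : Un => u.n) UPoly.n Poly.snd).toNat))

theorem poly_confl {g : α → GD} {q : α → ℕ} (hg : Poly g) (hq : Poly q) :
    Poly (fun a => confl (g a) (q a)) := by
  refine (Poly.ite (poly_nat_lt hq hg.snd'.fst'.fst') (TM2Lib.Poly.const [])
    (Poly.ite (poly_nat_lt hq (poly_nat_add hg.snd'.fst'.fst' hg.snd'.fst'.snd'))
      ((poly_nat_add hq hg.snd'.fst'.snd').cons (TM2Lib.Poly.const []))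
      ((poly_nat_sub hq hg.snd'.fst'.snd').cons (TM2Lib.Poly.const [])))).of_eq fun a => ?_
  unfold confl
  simp only [decide_eq_true_eq]

theorem poly_extR {g : α → GD} {q : α → ℕ} {r : α → Row} (hg : Poly g) (hq : Poly q)
    (hr : Poly r) : Poly (fun a => extR (g a) (q a) (r a)) :=
  hr.fst'.pair ((Poly.append (poly_confl hg hq) hr.snd'.fst').pair
    ((poly_nat_add hr.snd'.snd'.fst' (poly_len hg hq)).pair hr.snd'.snd'.snd'))

theorem poly_exts {g : α → GD} {F : α → List (List Row)} {w : α → ℕ} (hg : Poly g) (hF : Poly F)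
    (hw : Poly w) : Poly (fun a => exts (g a) (F a) (w a)) := by
  have h1 := poly_filterR (h := fun a q => decide ((g a).tl q = w a)) (upoly_nd hg)
    (Poly.nat_eq (poly_tl (hg.comp Poly.fst)
      (UPoly.comp (g := fun u : Un => u.n) UPoly.n Poly.snd).toNat) (hw.comp Poly.fst))
  refine Poly.flatMap (h := fun x : α × ℕ =>
    (((F x.1).getD ((g x.1).hd x.2) []).filter fun r => r.1).map (extR (g x.1) x.2)) h1 ?_
  have h2 : Poly (fun x : α × ℕ => (F x.1).getD ((g x.1).hd x.2) []) :=
    poly_getDn (hF.comp Poly.fst) (poly_hd (hg.comp Poly.fst) Poly.snd) (TM2Lib.Poly.const [])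
  have h3 := Poly.filter (h := fun y : (α × ℕ) × Row => y.2.1) h2 Poly.snd.fst'
  exact TM2Lib.Poly.map (h := fun y : (α × ℕ) × Row => extR (g y.1.1) y.1.2 y.2) h3
    (poly_extR (hg.comp Poly.fst.fst') Poly.fst.snd' Poly.snd)

/-! ### what selection does to a list of rows -/

theorem foldl_better_mem (f : ℕ → Option (ℕ × List Row)) : ∀ (l : List ℕ)
    (s : Option (ℕ × List Row)),
    l.foldl (fun acc i => better acc (f i)) s = s ∨
      ∃ i ∈ l, l.foldl (fun acc i => better acc (f i)) s = f i := by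
  intro l
  induction l with
  | nil => intro s; exact Or.inl rfl
  | cons x l ih =>
    intro s
    rw [List.foldl_cons]
    rcases ih (better s (f x)) with h | ⟨i, hi, h⟩
    · rcases better_sel s (f x) with h1 | h1
      · rw [h1] at h ⊢
        exact Or.inl h
      · rw [h1] at h ⊢
        exact Or.inr ⟨x, List.mem_cons_self, h⟩
    · exact Or.inr ⟨i, List.mem_cons_of_mem _ hi, h⟩

theorem select_cases (p : ℕ) (g : GD) (B : List Row) (r : Row) :
    select p g B r = B ∨ ∃ i, i ≤ g.np ∧ select p g B r = (B ++ [r]).eraseIdx i := by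
  unfold select
  rcases foldl_better_mem (cand p g (B ++ [r])) (List.range (g.np + 1)) none with h | ⟨i, hi, h⟩
  · rw [h]
    exact Or.inl rfl
  · rw [h]
    unfold cand
    rcases delta p g ((B ++ [r]).eraseIdx i) with _ | v
    · exact Or.inl rfl
    · refine Or.inr ⟨i, ?_, rfl⟩
      rw [List.mem_range] at hi
      omega

theorem select_mem {p : ℕ} {g : GD} {B : List Row} {r x : Row} (h : x ∈ select p g B r) :
    x ∈ B ∨ x = r := by
  rcases select_cases p g B r with h1 | ⟨i, _, h1⟩
  · rw [h1] at h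
    exact Or.inl h
  · rw [h1] at h
    have h2 := List.mem_of_mem_eraseIdx h
    rcases List.mem_append.1 h2 with h3 | h3
    · exact Or.inl h3
    · exact Or.inr (List.mem_singleton.1 h3)

theorem select_length_le (p : ℕ) (g : GD) (B : List Row) (r : Row) :
    (select p g B r).length ≤ B.length + 1 := by
  rcases select_cases p g B r with h1 | ⟨i, _, h1⟩
  · rw [h1]
    omega
  · rw [h1]
    have := List.length_eraseIdx_le (B ++ [r]) i
    rw [List.length_append] at this
    simpa using this

theorem select_length (p : ℕ) (g : GD) (B : List Row) (r : Row) (hB : B.length = g.np) :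
    (select p g B r).length = g.np := by
  rcases select_cases p g B r with h1 | ⟨i, hi, h1⟩
  · rw [h1, hB]
  · rw [h1, List.length_eraseIdx_of_lt (by rw [List.length_append, hB]; simp; omega),
      List.length_append, hB]
    simp

theorem poly_newFam {p : α → ℕ} {g : α → GD} {F : α → List (List Row)} {w : α → ℕ} (hp : UPoly p)
    (hp0 : ∀ a, 0 < p a) (hg : Poly g) (hn : UPoly fun a => (g a).nv) (hF : Poly F) (hw : Poly w) :
    Poly (fun a => newFam (p a) (g a) (F a) (w a)) := by
  have hE := poly_exts hg hF hw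
  have h0 : Poly (fun a => (F a).getD (w a) []) := poly_getDn hF hw (TM2Lib.Poly.const [])
  obtain ⟨Q, hQ⟩ := hE.size
  obtain ⟨G, hG⟩ := h0.size
  refine poly_foldlI (f := fun a => exts (g a) (F a) (w a)) (g := fun a => (F a).getD (w a) [])
    (h := fun a B r => select (p a) (g a) B r) hE h0 ?_
    (fun a k s => s.length ≤ ((F a).getD (w a) []).length + k ∧
      ∀ x ∈ s, x ∈ (F a).getD (w a) [] ∨ x ∈ exts (g a) (F a) (w a))
    (fun a => ⟨by omega, fun x hx => Or.inl hx⟩) ?_ ((G + Q) * (G + Q + 1) + 1) ?_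
  · exact poly_select (UPoly.comp (g := p) hp Poly.fst) (fun x => hp0 x.1) (hg.comp Poly.fst)
      (UPoly.comp (g := fun a => (g a).nv) hn Poly.fst) Poly.snd.fst' Poly.snd.snd'
  · intro a k s b _ hb hs
    refine ⟨?_, ?_⟩
    · have := select_length_le (p a) (g a) s b
      have := hs.1
      omega
    · intro x hx
      rcases select_mem hx with h1 | h1
      · exact hs.2 x h1
      · rw [h1]
        exact Or.inr hb
  · intro a k s hk hs
    simp only [Polynomial.eval_add, Polynomial.eval_mul, Polynomial.eval_one]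
    have h1 := hQ a
    have h2 := hG a
    have h3 := (length_lt_sz ((F a).getD (w a) [])).le
    have h4 := (length_lt_sz (exts (g a) (F a) (w a))).le
    refine sz_list_le' s _ _ (by have := hs.1; omega) fun x hx => ?_
    rcases hs.2 x hx with h5 | h5
    · have := Poly.sz_mem_le h5
      omega
    · have := Poly.sz_mem_le h5
      omega

theorem poly_roundF {p : α → ℕ} {g : α → GD} {F : α → List (List Row)} (hp : UPoly p)
    (hp0 : ∀ a, 0 < p a) (hg : Poly g) (hn : UPoly fun a => (g a).nv) (hF : Poly F) :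
    Poly (fun a => roundF (p a) (g a) (F a)) := by
  refine poly_mapR (h := fun a w => newFam (p a) (g a) (F a) w) hn ?_
  exact poly_newFam (UPoly.comp (g := p) hp Poly.fst) (fun x => hp0 x.1) (hg.comp Poly.fst)
      (UPoly.comp (g := fun a => (g a).nv) hn Poly.fst) (hF.comp Poly.fst)
      (UPoly.comp (g := fun u : Un => u.n) UPoly.n Poly.snd).toNat

theorem poly_initF {p : α → ℕ} {g : α → GD} {H : α → ℕ} (hp : UPoly p)
    (hp0 : ∀ a, 0 < p a) (hg : Poly g) (hn : UPoly fun a => (g a).nv) (hH : Poly H) :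
    Poly (fun a => initF (p a) (g a) (H a)) := by
  refine poly_mapR (h := fun a x => if x = (g a).2.2.2 then
    select (p a) (g a) (dummies (g a) (H a)) (true, ([], (0, 0))) else dummies (g a) (H a)) hn ?_
  have hd := poly_dummies hg hH
  refine (Poly.ite (Poly.nat_eq (UPoly.comp (g := fun u : Un => u.n) UPoly.n Poly.snd).toNat
    (hg.comp Poly.fst).snd'.snd'.snd') (poly_select (UPoly.comp (g := p) hp Poly.fst)
      (fun x => hp0 x.1) (hg.comp Poly.fst) (UPoly.comp (g := fun a => (g a).nv) hn Poly.fst) (hd.comp Poly.fst)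
      (TM2Lib.Poly.const ((true, ([], (0, 0))) : Row))) (hd.comp Poly.fst)).of_eq fun x => ?_
  simp only [decide_eq_true_eq]

/-! ### size of the rows -/

/-- bounds for the rows after `k` rounds -/
def RowB (g : GD) (H k : ℕ) (r : Row) : Prop :=
  r.2.1.length ≤ k ∧ (∀ c ∈ r.2.1, c ≤ g.nd + g.2.1.2) ∧
    r.2.2.1 ≤ H + k * (g.1.map fun x => x.2.2).sum ∧ r.2.2.2 ≤ g.np

theorem len_le_sum (g : GD) (q : ℕ) : g.len q ≤ (g.1.map fun x => x.2.2).sum := by
  unfold GD.len
  rcases lt_or_ge q g.1.length with h | h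
  · rw [List.getD_eq_getElem _ _ h]
    exact List.single_le_sum (fun _ _ => Nat.zero_le _) _
      (List.mem_map.2 ⟨g.1[q], List.getElem_mem h, rfl⟩)
  · rw [List.getD_eq_getElem?_getD, List.getElem?_eq_none h]
    simp

theorem RowB.mono {g : GD} {H k k' : ℕ} {r : Row} (h : RowB g H k r) (hk : k ≤ k') :
    RowB g H k' r := by
  obtain ⟨h1, h2, h3, h4⟩ := h
  refine ⟨h1.trans hk, h2, h3.trans ?_, h4⟩
  exact Nat.add_le_add_left (Nat.mul_le_mul_right _ hk) _

theorem RowB.extR {g : GD} {H k q : ℕ} {r : Row} (h : RowB g H k r) (hq : q < g.nd) :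
    RowB g H (k + 1) (extR g q r) := by
  obtain ⟨h1, h2, h3, h4⟩ := h
  refine ⟨?_, ?_, ?_, h4⟩
  · show (confl g q ++ r.2.1).length ≤ k + 1
    rw [List.length_append]
    have : (confl g q).length ≤ 1 := by
      unfold confl
      split_ifs <;> simp
    omega
  · intro c hc
    change c ∈ confl g q ++ r.2.1 at hc
    rcases List.mem_append.1 hc with h5 | h5
    · unfold confl at h5
      split_ifs at h5
      · simp at h5
      · rw [List.mem_singleton] at h5
        omega
      · rw [List.mem_singleton] at h5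
        omega
    · exact h2 c h5
  · show r.2.2.1 + g.len q ≤ _
    have h5 := len_le_sum g q
    rw [Nat.succ_mul]
    omega

/-- the families after `k` rounds -/
def FamB (g : GD) (H k : ℕ) (F : List (List Row)) : Prop :=
  F.length = g.nv ∧ ∀ B ∈ F, B.length = g.np ∧ ∀ r ∈ B, RowB g H k r

theorem FamB.getD {g : GD} {H k : ℕ} {F : List (List Row)} (h : FamB g H k F) (w : ℕ) :
    ∀ r ∈ F.getD w [], RowB g H k r := by
  intro r hr
  rcases lt_or_ge w F.length with h1 | h1
  · rw [List.getD_eq_getElem _ _ h1] at hr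
    exact (h.2 _ (List.getElem_mem h1)).2 r hr
  · rw [List.getD_eq_getElem?_getD, List.getElem?_eq_none h1] at hr
    simp at hr

theorem exts_rowB {g : GD} {H k : ℕ} {F : List (List Row)} (h : FamB g H k F) (w : ℕ) :
    ∀ r ∈ exts g F w, RowB g H (k + 1) r := by
  intro r hr
  unfold exts at hr
  rw [List.mem_flatMap] at hr
  obtain ⟨q, hq, hr⟩ := hr
  rw [List.mem_map] at hr
  obtain ⟨r', hr', rfl⟩ := hr
  rw [List.mem_filter] at hr' hq
  exact (h.getD _ r' hr'.1).extR (List.mem_range.1 hq.1)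

theorem foldl_select {p : ℕ} {g : GD} {H k : ℕ} : ∀ (l B : List Row), B.length = g.np →
    (∀ r ∈ B, RowB g H k r) → (∀ r ∈ l, RowB g H k r) →
    (l.foldl (select p g) B).length = g.np ∧ ∀ r ∈ l.foldl (select p g) B, RowB g H k r := by
  intro l
  induction l with
  | nil => intro B h1 h2 _; exact ⟨h1, h2⟩
  | cons x l ih =>
    intro B h1 h2 h3
    rw [List.foldl_cons]
    refine ih _ (select_length p g B x h1) ?_ fun r hr => h3 r (List.mem_cons_of_mem _ hr)
    intro r hr
    rcases select_mem hr with h4 | h4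
    · exact h2 r h4
    · rw [h4]
      exact h3 x List.mem_cons_self

theorem roundF_famB {p : ℕ} {g : GD} {H k : ℕ} {F : List (List Row)} (h : FamB g H k F) :
    FamB g H (k + 1) (roundF p g F) := by
  refine ⟨by simp [roundF], ?_⟩
  intro B hB
  unfold roundF at hB
  rw [List.mem_map] at hB
  obtain ⟨w, hw, rfl⟩ := hB
  rw [List.mem_range, ← h.1] at hw
  refine foldl_select _ _ ?_ (fun r hr => (h.getD w r hr).mono (Nat.le_succ k)) (exts_rowB h w)
  rw [List.getD_eq_getElem _ _ hw]
  exact (h.2 _ (List.getElem_mem hw)).1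

theorem initF_famB (p : ℕ) (g : GD) (H : ℕ) : FamB g H 0 (initF p g H) := by
  have hd : (dummies g H).length = g.np ∧ ∀ r ∈ dummies g H, RowB g H 0 r := by
    refine ⟨by simp [dummies], ?_⟩
    intro r hr
    unfold dummies at hr
    rw [List.mem_map] at hr
    obtain ⟨j, hj, rfl⟩ := hr
    rw [List.mem_range] at hj
    exact ⟨le_rfl, fun c hc => by simp at hc, by simp, hj.le⟩
  refine ⟨by simp [initF], ?_⟩
  intro B hB
  unfold initF at hB
  rw [List.mem_map] at hB
  obtain ⟨x, _, rfl⟩ := hB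
  split_ifs
  · refine ⟨select_length _ _ _ _ hd.1, ?_⟩
    intro r hr
    rcases select_mem hr with h4 | h4
    · exact hd.2 r h4
    · rw [h4]
      exact ⟨le_rfl, fun c hc => by simp at hc, by simp, by simp⟩
  · exact hd

theorem FamB.sz {g : GD} {H k U V : ℕ} {F : List (List Row)} (h : FamB g H k F) (hk : k ≤ g.nd)
    (hU : TM2Lib.sz (g.nd + g.2.1.2) ≤ U)
    (hV : TM2Lib.sz (H + g.nd * (g.1.map fun x => x.2.2).sum) ≤ V) :
    TM2Lib.sz F ≤ g.nv * (g.np * (g.nd * (4 * U + 2) + 4 * V + 4 * g.np + 12) + 2) + 1 := by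
  have h1 : ∀ B ∈ F, TM2Lib.sz B ≤ g.np * (g.nd * (4 * U + 2) + 4 * V + 4 * g.np + 12) + 1 := by
    intro B hB
    refine sz_list_le' B g.np (g.nd * (4 * U + 2) + 4 * V + 4 * g.np + 11) (h.2 B hB).1.le ?_
    intro r hr
    obtain ⟨a1, a2, a3, a4⟩ := (h.2 B hB).2 r hr
    obtain ⟨b, X, l, d⟩ := r
    simp only at a1 a2 a3 a4
    have c1 : TM2Lib.sz X ≤ g.nd * (4 * U + 2) + 1 := by
      refine sz_list_le' X g.nd (4 * U + 1) (a1.trans hk) fun c hc => ?_
      have := sz_le_of_le (a2 c hc)
      omega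
    have c2 : TM2Lib.sz l ≤ 4 * V + 1 := by
      have h5 : l ≤ H + g.nd * (g.1.map fun x => x.2.2).sum :=
        a3.trans (Nat.add_le_add_left (Nat.mul_le_mul_right _ hk) _)
      have := sz_le_of_le h5
      omega
    have c3 : TM2Lib.sz d ≤ 4 * g.np + 1 := sz_nat_le' a4
    have c4 : TM2Lib.sz b ≤ 3 := Poly.sz_bool_le b
    rw [sz_pair, sz_pair, sz_pair]
    omega
  have h2 := sz_list_le' F g.nv _ h.1.le h1
  exact h2

theorem poly_finF {p : α → ℕ} {g : α → GD} {H : α → ℕ} (hp : UPoly p)
    (hp0 : ∀ a, 0 < p a) (hg : Poly g) (hn : UPoly fun a => (g a).nv) (hH : Poly H) :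
    Poly (fun a => finF (p a) (g a) (H a)) := by
  obtain ⟨U, hU⟩ := Poly.size (poly_nat_add (upoly_nd hg).toNat hg.snd'.fst'.snd')
  obtain ⟨V, hV⟩ := Poly.size (poly_nat_add hH (poly_nat_mul (upoly_nd hg).toNat
    (poly_sum (f := fun a => (g a).1) (h := fun x : α × Arc => x.2.2.2) hg.fst'
      Poly.snd.snd'.snd')))
  obtain ⟨D, hD⟩ := UPoly.bound (upoly_nd hg)
  obtain ⟨P, hP⟩ := UPoly.bound (upoly_np hg)
  obtain ⟨N, hN⟩ := UPoly.bound hn
  refine poly_foldlRI (h := fun a F _ => roundF (p a) (g a) F) (g := fun a =>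
    initF (p a) (g a) (H a)) (upoly_nd hg) (poly_initF hp hp0 hg hn hH) ?_
    (fun a k F => FamB (g a) (H a) k F) (fun a => initF_famB _ _ _)
    (fun a k F _ hF => roundF_famB hF)
    (N * (P * (D * (4 * U + 2) + 4 * V + 4 * P + 12) + 2) + 1) ?_
  · exact poly_roundF (UPoly.comp (g := p) hp Poly.fst) (fun x => hp0 x.1) (hg.comp Poly.fst)
      (UPoly.comp (g := fun a => (g a).nv) hn Poly.fst) Poly.snd.fst'
  · intro a k F hk hF
    have h1 := hF.sz hk (hU a) (hV a)
    refine h1.trans ?_
    simp only [Polynomial.eval_add, Polynomial.eval_mul, Polynomial.eval_one,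
      Polynomial.eval_ofNat]
    have h2 := hD a
    have h3 := hP a
    have h4 := hN a
    gcongr

end Pool.Agent.RTB
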