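import Pool.Agent.RTB.PolyBF
import Pool.Agent.RTO.PolyA

/-!
# Polynomial time: the value and the self-reduction
-/

namespace Pool.Agent.RTB

open Pool.Agent.TM2Lib Pool.Agent.M3
open Pool.Agent.RTO (Arc rev dartL vlist poly_dartL poly_vlist poly_rev)

variable {α : Type} [Enc α]

theorem poly_mkGD {A E : α → List Arc} {s nv : α → ℕ} (hA : Poly A) (hE : Poly E) (hs : Poly s)
    (hn : UPoly nv) : Poly (fun a => mkGD (A a) (E a) (s a) (nv a)) :=
  (poly_dartL hA hE).pair (((UPoly.length hA).toNat.pair (UPoly.length hE).toNat).pair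
    (hn.toNat.pair hs))

theorem poly_bigH {A E : α → List Arc} (hA : Poly A) (hE : Poly E) :
    Poly (fun a => bigH (A a) (E a)) :=
  poly_nat_add (poly_nat_mul (TM2Lib.Poly.const 4) (poly_sum (f := fun a => A a ++ E a)
    (h := fun x : α × Arc => x.2.2.2) (Poly.append hA hE) Poly.snd.snd'.snd'))
    (TM2Lib.Poly.const 1)

theorem upoly_sz {g : α → GD} (hg : Poly g) (hn : UPoly fun a => (g a).nv) :
    UPoly (fun a => (g a).sz) :=
  (((upoly_np hg).mul (upoly_nd hg)).mul (hn.add (UPoly.const 1))).add (upoly_np hg)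

theorem upoly_prB {g : α → GD} (hg : Poly g) (hn : UPoly fun a => (g a).nv) :
    UPoly (fun a => prB (g a)) := by
  refine (UPoly.eval (upoly_sz hg hn) (36 * Polynomial.X ^ 7 + 1)).of_eq fun a => ?_
  simp [prB]

theorem poly_valR {A E : α → List Arc} {s t nv : α → ℕ} (hA : Poly A) (hE : Poly E) (hs : Poly s)
    (ht : Poly t) (hn : UPoly nv) :
    Poly (fun a => valR (A a) (E a) (s a) (t a) (nv a)) := by
  have hg := poly_mkGD hA hE hs hn
  have hn' : UPoly (fun a => (mkGD (A a) (E a) (s a) (nv a)).nv) := hn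
  exact poly_valF hg hn' ht (poly_getDn (poly_finF (upoly_primeAbove (upoly_prB hg hn'))
    (fun a => (primeAbove_prime _).pos) hg hn' (poly_bigH hA hE)) ht (TM2Lib.Poly.const []))

theorem poly_idx {vs : α → List ℕ} {v : α → ℕ} (hvs : Poly vs) (hv : Poly v) :
    Poly (fun a => idx (vs a) (v a)) := by
  refine Poly.headD (TM2Lib.Poly.map (h := fun x : α × (ℕ × ℕ) => x.2.2)
    (Poly.filter (h := fun x : α × (ℕ × ℕ) => x.2.1 == v x.1) (Poly.NPC.zipIdx hvs) ?_)
    Poly.snd.snd') (TM2Lib.Poly.const 0)
  exact (Poly.nat_eq Poly.snd.fst' (hv.comp Poly.fst)).of_eq fun x => by rw [beq_eq_decide]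

theorem poly_relabL {f : α → ℕ → ℕ} {A : α → List Arc} (hf : Poly fun x : α × ℕ => f x.1 x.2)
    (hA : Poly A) : Poly (fun a => (A a).map (relab (f a))) := by
  refine TM2Lib.Poly.map (h := fun x : α × Arc => relab (f x.1) x.2) hA ?_
  exact (Poly.comp (g := fun x : α × ℕ => f x.1 x.2) (f := fun x : α × Arc => (x.1, x.2.1)) hf
    (Poly.fst.pair Poly.snd.fst')).pair ((Poly.comp (g := fun x : α × ℕ => f x.1 x.2)
      (f := fun x : α × Arc => (x.1, x.2.2.1)) hf (Poly.fst.pair Poly.snd.snd'.fst')).pair
      Poly.snd.snd'.snd')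

theorem poly_valB {A E : α → List Arc} {s t : α → ℕ} (hA : Poly A) (hE : Poly E) (hs : Poly s)
    (ht : Poly t) : Poly (fun a => valB (A a) (E a) (s a) (t a)) := by
  have hvs := poly_vlist hA hE hs ht
  have hf : Poly (fun x : α × ℕ => idx (vlist (A x.1) (E x.1) (s x.1) (t x.1)) x.2) :=
    poly_idx (hvs.comp Poly.fst) Poly.snd
  exact poly_valR (poly_relabL (f := fun a => idx (vlist (A a) (E a) (s a) (t a))) hf hA)
    (poly_relabL (f := fun a => idx (vlist (A a) (E a) (s a) (t a))) hf hE)
    (poly_idx hvs hs) (poly_idx hvs ht) (UPoly.length hvs)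

theorem poly_opt_eq {f g : α → Option ℕ} (hf : Poly f) (hg : Poly g) :
    Poly (fun a => decide (f a = g a)) := by
  have key : ∀ {f : α → Option ℕ}, Poly f →
      Poly (fun a => match f a with | none => 0 | some b => b + 1) := by
    intro f hf
    exact (Poly.NPC.option_cases (g := fun _ => 0) (h := fun p : α × ℕ => p.2 + 1) hf
      (TM2Lib.Poly.const 0) (Poly.NPC.succ Poly.snd)).of_eq fun a => by cases f a <;> rfl
  refine (Poly.nat_eq (key hf) (key hg)).of_eq fun a => ?_
  rw [decide_eq_decide]
  rcases f a with _ | x <;> rcases g a with _ | y <;> simp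

/-- the step of `goB` -/
def pgoStep (s t : ℕ) (st : List Arc × (List Arc × List Bool)) (e : Arc) :
    List Arc × (List Arc × List Bool) :=
  if decide (valB (e :: st.1) st.2.1.tail s t = valB st.1 (e :: st.2.1.tail) s t) then
    (e :: st.1, (st.2.1.tail, true :: st.2.2))
  else (rev e :: st.1, (st.2.1.tail, false :: st.2.2))

theorem pgoStep_foldl (s t : ℕ) : ∀ (E A : List Arc) (out : List Bool),
    (E.foldl (pgoStep s t) (A, (E, out))).2.2 = (goB s t A E).reverse ++ out := by
  intro E
  induction E with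
  | nil => intro A out; simp [goB]
  | cons e E ih =>
    intro A out
    rw [List.foldl_cons]
    unfold pgoStep
    simp only [List.tail_cons]
    rw [goB]
    by_cases h : valB (e :: A) E s t = valB A (e :: E) s t
    · simp only [h, decide_true, if_true]
      have := ih (e :: A) (true :: out)
      unfold pgoStep at this
      rw [this]
      simp
    · simp only [h, decide_false, if_false, Bool.false_eq_true]
      have := ih (rev e :: A) (false :: out)
      unfold pgoStep at this
      rw [this]
      simp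

theorem pgo_sz_rev (e : Arc) : sz (rev e) = sz e := by
  obtain ⟨a, b, l⟩ := e
  simp only [rev, sz_pair]
  omega

theorem pgo_sz_tail {β : Type} [Enc β] (l : List β) : sz l.tail ≤ sz l := by
  cases l with
  | nil => simp
  | cons a l => simp only [List.tail_cons, sz_cons]; omega

theorem pgoStep_sz (s t : ℕ) (st : List Arc × (List Arc × List Bool)) (e : Arc) :
    sz (pgoStep s t st e) ≤ sz st + (sz e + 5) := by
  obtain ⟨A, R, out⟩ := st
  unfold pgoStep
  have h1 := pgo_sz_tail R
  have h2 := Poly.sz_bool_le true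
  have h3 := Poly.sz_bool_le false
  have h4 := pgo_sz_rev e
  split_ifs
  · simp only [sz_pair, sz_cons]; omega
  · simp only [sz_pair, sz_cons]; omega

theorem poly_goB {A E : α → List Arc} {s t : α → ℕ} (hA : Poly A) (hE : Poly E) (hs : Poly s)
    (ht : Poly t) : Poly (fun a => goB (s a) (t a) (A a) (E a)) := by
  have hh : Poly (fun q : α × ((List Arc × (List Arc × List Bool)) × Arc) =>
      pgoStep (s q.1) (t q.1) q.2.1 q.2.2) := by
    have hs' : Poly (fun q : α × ((List Arc × (List Arc × List Bool)) × Arc) => s q.1) :=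
      hs.comp Poly.fst
    have ht' : Poly (fun q : α × ((List Arc × (List Arc × List Bool)) × Arc) => t q.1) :=
      ht.comp Poly.fst
    have hA' : Poly (fun q : α × ((List Arc × (List Arc × List Bool)) × Arc) => q.2.1.1) :=
      Poly.snd.fst'.fst'
    have hR' : Poly (fun q : α × ((List Arc × (List Arc × List Bool)) × Arc) => q.2.1.2.1.tail) :=
      Poly.tail Poly.snd.fst'.snd'.fst'
    have hO' : Poly (fun q : α × ((List Arc × (List Arc × List Bool)) × Arc) => q.2.1.2.2) :=
      Poly.snd.fst'.snd'.snd'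
    have he' : Poly (fun q : α × ((List Arc × (List Arc × List Bool)) × Arc) => q.2.2) :=
      Poly.snd.snd'
    have hc := poly_opt_eq (poly_valB (Poly.cons he' hA') hR' hs' ht')
      (poly_valB hA' (Poly.cons he' hR') hs' ht')
    exact Poly.ite hc ((Poly.cons he' hA').pair (hR'.pair (Poly.cons (TM2Lib.Poly.const true) hO')))
      ((Poly.cons (poly_rev he') hA').pair (hR'.pair (Poly.cons (TM2Lib.Poly.const false) hO')))
  obtain ⟨F, hF⟩ := hE.size
  have hfold := Poly.foldl_add (f := E)
    (g := fun a => ((A a, (E a, [])) : List Arc × (List Arc × List Bool)))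
    (h := fun q : α × ((List Arc × (List Arc × List Bool)) × Arc) =>
      pgoStep (s q.1) (t q.1) q.2.1 q.2.2) hE
    (hA.pair (hE.pair (TM2Lib.Poly.const []))) hh (F + 5) (by
      intro a st e he
      have h1 := pgoStep_sz (s a) (t a) st e
      have h2 := Poly.sz_mem_le he
      have h3 := hF a
      simp only [Polynomial.eval_add, Polynomial.eval_ofNat]
      omega)
  refine (Poly.reverse hfold.snd'.snd').of_eq fun a => ?_
  have := pgoStep_foldl (s a) (t a) (E a) (A a) []
  rw [List.append_nil] at this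
  change ((E a).foldl (pgoStep (s a) (t a)) (A a, (E a, []))).2.2.reverse = _
  rw [this, List.reverse_reverse]

end Pool.Agent.RTB
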