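import Pool.Agent.RTB.PolyReg

/-!
# Polynomial time: the rank algorithm (`ncS`, `ncr`)
-/

namespace Pool.Agent.RTB

open Pool.Agent.TM2Lib Pool.Agent.M3

variable {α : Type} [Enc α]

theorem pn_stepL_small {p : ℕ} (hp : 0 < p) (m j : ℕ) (s : List (List ℕ) × List (List ℕ))
    (h : ∀ v ∈ s.1, sz v ≤ m * (4 * p + 2) + 1) :
    (stepL p m j s).1.length ≤ s.1.length + 1 ∧
      ∀ v ∈ (stepL p m j s).1, sz v ≤ m * (4 * p + 2) + 1 := by
  have hel : ∀ r v : List ℕ, sz (elimL p m j r v) ≤ m * (4 * p + 2) + 1 :=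
    fun r v => sz_vt_le m p hp _
  have hno : ∀ r : List ℕ, sz (normL p m j r) ≤ m * (4 * p + 2) + 1 :=
    fun r => sz_vt_le m p hp _
  rw [stepL_eq]
  cases s.2.filter (fun v => !decide (ent v j % p = 0)) with
  | nil => exact ⟨Nat.le_succ _, h⟩
  | cons r l =>
    refine ⟨by simp [lcase], ?_⟩
    intro v hv
    simp only [lcase] at hv
    rcases List.mem_cons.1 hv with rfl | hv
    · exact hno r
    · obtain ⟨w, _, rfl⟩ := List.mem_map.1 hv
      exact hel _ _

theorem pn_bas_small {p : ℕ} (hp : 0 < p) (m : ℕ) (L : List (List ℕ)) :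
    (bas p m L).length ≤ m ∧ ∀ v ∈ bas p m L, sz v ≤ m * (4 * p + 2) + 1 := by
  have key : ∀ (l : List ℕ) (s : List (List ℕ) × List (List ℕ)),
      (∀ v ∈ s.1, sz v ≤ m * (4 * p + 2) + 1) →
      (l.foldl (fun s j => stepL p m j s) s).1.length ≤ s.1.length + l.length ∧
      ∀ v ∈ (l.foldl (fun s j => stepL p m j s) s).1, sz v ≤ m * (4 * p + 2) + 1 := by
    intro l
    induction l with
    | nil => exact fun s hs => ⟨le_rfl, hs⟩
    | cons x l ih =>
      intro s hs
      obtain ⟨h1, h2⟩ := pn_stepL_small hp m x s hs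
      obtain ⟨h3, h4⟩ := ih _ h2
      refine ⟨?_, h4⟩
      rw [List.foldl_cons, List.length_cons]
      omega
  have h := key (List.range m) ([], L) (by simp)
  rw [List.length_range] at h
  refine ⟨?_, h.2⟩
  have h1 := h.1
  simp only [List.length_nil, zero_add] at h1
  exact h1

theorem pn_sz_bas {p : ℕ} (hp : 0 < p) (m : ℕ) (L : List (List ℕ)) :
    sz (bas p m L) ≤ m * (m * (4 * p + 2) + 2) + 1 := by
  obtain ⟨h1, h2⟩ := pn_bas_small hp m L
  exact sz_list_le' _ m _ h1 h2

theorem pn_length_blow (d : ℕ) (Xs : List (List (List ℕ))) (h : List Gen) :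
    (blow d Xs h).length = Xs.length := by
  simp [blow]

/-- the number `r` of a round -/
def pn_rnd (N d k : ℕ) : ℕ := ((List.range (N + 1)).filter fun j => decide (d * j + k ≤ N * d)).length

theorem pn_upoly_rnd {N d k : α → ℕ} (hN : UPoly N) (hd : UPoly d) (hk : UPoly k) :
    UPoly (fun a => pn_rnd (N a) (d a) (k a)) := by
  refine UPoly.length (poly_filterR (h := fun a j => decide (d a * j + k a ≤ N a * d a))
    (hN.add (UPoly.const 1)) ?_)
  exact UPoly.le (((hd.comp Poly.fst).mul (UPoly.n.comp Poly.snd)).add (hk.comp Poly.fst))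
    ((hN.mul hd).comp Poly.fst)

/-- the end of a round -/
def pn_ncE (p N d : ℕ) (Bs : List (List (List ℕ))) (Xs : List (List (List ℕ)))
    (ker : List (List ℕ)) (pl : PL) : NSt :=
  match pl.2.head? with
  | none => (true, (false, ((bas p N (imgs p N Bs (bas p N (comps N d (pl.1.map Prod.fst)))),
      bas p N (comps N d (pl.1.map Prod.fst))), Xs)))
  | some h => (false, (false, (([], []), down p N d (pn_rnd N d ker.length) Bs (d * h.length)
      (reg p N (d * (h.length + 1)) Bs (blow d Xs h.reverse) (pn_rnd N d ker.length)))))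

theorem pn_ncS_eq (p N d : ℕ) (Bs : List (List (List ℕ))) (st : NSt) : ncS p N d Bs st =
    if st.1 then st else
    if (kerL p (N * d) (N * d) (bigA p N d Bs st.2.2.2)).isEmpty then
      (true, (true, (([], []), st.2.2.2)))
    else pn_ncE p N d Bs st.2.2.2 (kerL p (N * d) (N * d) (bigA p N d Bs st.2.2.2))
      (wong p N d Bs (bigA p N d Bs st.2.2.2)
        (kerL p (N * d) (N * d) (bigA p N d Bs st.2.2.2))) := rfl

theorem pn_poly_ncE {p N d : α → ℕ} {Bs Xs : α → List (List (List ℕ))} {ker : α → List (List ℕ)}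
    {pl : α → PL} (hp : UPoly p) (h0 : ∀ a, 0 < p a) (hN : UPoly N) (hd : UPoly d)
    (hB : Poly Bs) (hX : Poly Xs) (hk : Poly ker) (hpl : Poly pl) :
    Poly (fun a => pn_ncE (p a) (N a) (d a) (Bs a) (Xs a) (ker a) (pl a)) := by
  have hb : Poly (fun a => bas (p a) (N a) (comps (N a) (d a) ((pl a).1.map Prod.fst))) :=
    poly_bas hp h0 hN (poly_comps hN hd (TM2Lib.Poly.map (h := fun x : α × (List ℕ × List Gen) =>
      x.2.1) hpl.fst' Poly.snd.fst'))
  refine (poly_ocases (f := fun a => (pl a).2.head?) (g := fun a => (true, (false,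
      ((bas (p a) (N a) (imgs (p a) (N a) (Bs a) (bas (p a) (N a) (comps (N a) (d a)
        ((pl a).1.map Prod.fst)))), bas (p a) (N a) (comps (N a) (d a) ((pl a).1.map Prod.fst))),
          Xs a))))
    (h := fun a h => (false, (false, (([], []), down (p a) (N a) (d a)
      (pn_rnd (N a) (d a) (ker a).length) (Bs a) (d a * h.length)
      (reg (p a) (N a) (d a * (h.length + 1)) (Bs a) (blow (d a) (Xs a) h.reverse)
        (pn_rnd (N a) (d a) (ker a).length))))))
    (Poly.NPC.head? hpl.snd') ?_ ?_).of_eq fun a => by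
      unfold pn_ncE
      cases (pl a).2.head? <;> rfl
  · exact (TM2Lib.Poly.const true).pair ((TM2Lib.Poly.const false).pair
      (((poly_bas hp h0 hN (poly_imgs hp h0 hN hB hb)).pair hb).pair hX))
  · have hr : UPoly (fun x : α × List Gen => pn_rnd (N x.1) (d x.1) (ker x.1).length) :=
      (pn_upoly_rnd hN hd (UPoly.length hk)).comp Poly.fst
    have hh : UPoly (fun x : α × List Gen => x.2.length) := UPoly.length Poly.snd
    have hd' : UPoly (fun x : α × List Gen => d x.1) := hd.comp Poly.fst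
    exact (TM2Lib.Poly.const false).pair ((TM2Lib.Poly.const false).pair
      ((TM2Lib.Poly.const ([], [])).pair
        (poly_down (hp.comp Poly.fst) (fun x => h0 x.1) (hN.comp Poly.fst) hd' hr
          (hB.comp Poly.fst) (hd'.mul hh)
          (poly_reg (hp.comp Poly.fst) (fun x => h0 x.1) (hN.comp Poly.fst)
            (hd'.mul (hh.add (UPoly.const 1))) (hB.comp Poly.fst)
            (poly_blow hd' (hX.comp Poly.fst) (Poly.reverse Poly.snd)) hr))))

theorem poly_ncS {p N d : α → ℕ} {Bs : α → List (List (List ℕ))} {st : α → NSt}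
    (hp : UPoly p) (h0 : ∀ a, 0 < p a) (hN : UPoly N) (hd : UPoly d)
    (hB : Poly Bs) (hs : Poly st) : Poly (fun a => ncS (p a) (N a) (d a) (Bs a) (st a)) := by
  have hX : Poly (fun a => (st a).2.2.2) := hs.snd'.snd'.snd'
  have hA : Poly (fun a => bigA (p a) (N a) (d a) (Bs a) (st a).2.2.2) :=
    poly_bigA hp h0 hN hd hB hX
  have hNd := hN.mul hd
  have hk := poly_kerL hp h0 hNd hNd hA
  have h1 := Poly.ite (Poly.isEmpty hk) ((TM2Lib.Poly.const true).pair
    ((TM2Lib.Poly.const true).pair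
      ((TM2Lib.Poly.const (([], []) : List (List ℕ) × List (List ℕ))).pair hX)))
    (pn_poly_ncE hp h0 hN hd hB hX hk (poly_wong hp h0 hN hd hB hA hk))
  refine (Poly.ite hs.fst' hs h1).of_eq fun a => ?_
  rw [pn_ncS_eq]

/-- bound for the matrices of the state -/
def pn_nbX (c p d : ℕ) : ℕ := c * (d * (d * (4 * p + 2) + 2) + 2) + 1
/-- bound for the subspaces -/
def pn_nbW (p N : ℕ) : ℕ := N * (N * (4 * p + 2) + 2) + 1

/-- the state is small -/
def pn_NSmall (c p N d : ℕ) (st : NSt) : Prop :=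
  st.2.2.2.length = c ∧ sz st.2.2.2 ≤ pn_nbX c p d ∧ sz st.2.2.1.1 ≤ pn_nbW p N ∧
    sz st.2.2.1.2 ≤ pn_nbW p N ∧ st.2.2.1.1.length ≤ N ∧ st.2.2.1.2.length ≤ N

theorem pn_nsmall_ncS {p : ℕ} (hp : 0 < p) (N d : ℕ) (Bs : List (List (List ℕ))) (c : ℕ)
    (st : NSt) (h : pn_NSmall c p N d st) : pn_NSmall c p N d (ncS p N d Bs st) := by
  have hnil : sz ([] : List (List ℕ)) ≤ pn_nbW p N := by
    rw [sz_nil, pn_nbW]
    omega
  obtain ⟨h1, h2, h3, h4, h5, h6⟩ := h
  rw [pn_ncS_eq]
  split_ifs with hc hk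
  · exact ⟨h1, h2, h3, h4, h5, h6⟩
  · exact ⟨h1, h2, hnil, hnil, Nat.zero_le _, Nat.zero_le _⟩
  · unfold pn_ncE
    split
    · exact ⟨h1, h2, pn_sz_bas hp N _, pn_sz_bas hp N _, (pn_bas_small hp N _).1, (pn_bas_small hp N _).1⟩
    · rename_i g _
      refine ⟨?_, ?_, hnil, hnil, Nat.zero_le _, Nat.zero_le _⟩
      · simp only
        rw [pn_length_down, pn_length_reg, pn_length_blow, h1]
      · simp only
        rcases Nat.eq_zero_or_pos (d * g.length) with h7 | h7
        · rw [h7]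
          have h8 : d * (g.length + 1) = d := by
            rw [Nat.mul_add, h7]
            omega
          have h9 := pn_sz_reg hp N d Bs (blow d st.2.2.2 g.reverse) (pn_rnd N d
            (kerL p (N * d) (N * d) (bigA p N d Bs st.2.2.2)).length)
          rw [pn_length_blow, h1] at h9
          rw [h8]
          exact h9
        · have h9 := pn_sz_down hp N d (pn_rnd N d
            (kerL p (N * d) (N * d) (bigA p N d Bs st.2.2.2)).length) Bs h7
            (reg p N (d * (g.length + 1)) Bs (blow d st.2.2.2 g.reverse) (pn_rnd N d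
            (kerL p (N * d) (N * d) (bigA p N d Bs st.2.2.2)).length))
          rw [pn_length_reg, pn_length_blow, h1] at h9
          exact h9

theorem pn_nsmall_init {p : ℕ} (hp : 0 < p) (N d : ℕ) (Bs : List (List (List ℕ))) :
    pn_NSmall Bs.length p N d (false, (false, (([], []), Bs.map fun _ => mt d d fun _ _ => 0))) := by
  have hnil : sz ([] : List (List ℕ)) ≤ pn_nbW p N := by
    rw [sz_nil, pn_nbW]
    omega
  refine ⟨by simp, ?_, hnil, hnil, Nat.zero_le _, Nat.zero_le _⟩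
  have h1 := sz_list_le (Bs.map fun _ => mt d d fun _ _ => 0) (d * (d * (4 * p + 2) + 2) + 1) (by
    intro x hx
    obtain ⟨y, _, rfl⟩ := List.mem_map.1 hx
    exact pn_sz_mt_lt d d p _ fun _ _ => hp)
  rw [List.length_map] at h1
  exact h1

/-- the final state -/
def pn_ncF (p N d : ℕ) (Bs : List (List (List ℕ))) : NSt :=
  (List.range (N + 1)).foldl (fun st _ => ncS p N d Bs st)
    (false, (false, (([], []), Bs.map fun _ => mt d d fun _ _ => 0)))

theorem pn_ncr_eq (p N d : ℕ) (Bs : List (List (List ℕ))) : ncr p N d Bs =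
    if (pn_ncF p N d Bs).2.1 then none else some (pn_ncF p N d Bs).2.2.1 := rfl

theorem pn_nsmall_ncF {p : ℕ} (hp : 0 < p) (N d : ℕ) (Bs : List (List (List ℕ))) :
    pn_NSmall Bs.length p N d (pn_ncF p N d Bs) := by
  unfold pn_ncF
  generalize List.range (N + 1) = l
  have key : ∀ (l : List ℕ) (s : NSt), pn_NSmall Bs.length p N d s →
      pn_NSmall Bs.length p N d (l.foldl (fun st _ => ncS p N d Bs st) s) := by
    intro l
    induction l with
    | nil => exact fun s hs => hs
    | cons x l ih => exact fun s hs => ih _ (pn_nsmall_ncS hp N d Bs _ s hs)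
  exact key l _ (pn_nsmall_init hp N d Bs)

theorem pn_poly_ncF {p N d : α → ℕ} {Bs : α → List (List (List ℕ))} (hp : UPoly p)
    (h0 : ∀ a, 0 < p a) (hN : UPoly N) (hd : UPoly d) (hB : Poly Bs) :
    Poly (fun a => pn_ncF (p a) (N a) (d a) (Bs a)) := by
  obtain ⟨P, hP⟩ := UPoly.bound hp
  obtain ⟨M, hM⟩ := UPoly.bound hN
  obtain ⟨D, hD⟩ := UPoly.bound hd
  obtain ⟨C, hC⟩ := Poly.size hB
  unfold pn_ncF
  have hi : Poly (fun a => ((false, (false, (([], []),
      (Bs a).map fun _ => mt (d a) (d a) fun _ _ => 0))) : NSt)) := by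
    refine (TM2Lib.Poly.const false).pair ((TM2Lib.Poly.const false).pair
      ((TM2Lib.Poly.const ([], [])).pair (TM2Lib.Poly.map (h := fun x : α × List (List ℕ) =>
        mt (d x.1) (d x.1) fun _ _ => 0) hB ?_)))
    exact poly_mt (f := fun (x : α × List (List ℕ)) _ _ => 0) (hd.comp Poly.fst)
      (hd.comp Poly.fst) (TM2Lib.Poly.const 0)
  refine poly_foldlRI (h := fun a st _ => ncS (p a) (N a) (d a) (Bs a) st)
    (hN.add (UPoly.const 1)) hi
    (poly_ncS (hp.comp Poly.fst) (fun x => h0 x.1) (hN.comp Poly.fst) (hd.comp Poly.fst)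
      (hB.comp Poly.fst) Poly.snd.fst')
    (fun a _ st => pn_NSmall (Bs a).length (p a) (N a) (d a) st)
    (fun a => pn_nsmall_init (h0 a) (N a) (d a) (Bs a))
    (fun a _ st _ h => pn_nsmall_ncS (h0 a) (N a) (d a) (Bs a) _ st h)
    ((C * (D * (D * (4 * P + 2) + 2) + 2) + 1) + 2 * (M * (M * (4 * P + 2) + 2) + 1) + 10) ?_
  rintro a _ ⟨b1, b2, ⟨W, U⟩, Xs⟩ _ ⟨h1, h2, h3, h4, _, _⟩
  have h5 := hP a
  have h6 := hM a
  have h7 := hD a
  have h8 : (Bs a).length ≤ C.eval (sz a) := (length_lt_sz _).le.trans (hC a)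
  have h9 : pn_nbX (Bs a).length (p a) (d a) ≤ C.eval (sz a) * (D.eval (sz a) * (D.eval (sz a) *
      (4 * P.eval (sz a) + 2) + 2) + 2) + 1 := by
    unfold pn_nbX
    gcongr
  have h10 : pn_nbW (p a) (N a) ≤ M.eval (sz a) * (M.eval (sz a) * (4 * P.eval (sz a) + 2) + 2) +
      1 := by
    unfold pn_nbW
    gcongr
  have hb : ∀ b : Bool, sz b ≤ 3 := Poly.sz_bool_le
  have h11 := hb b1
  have h12 := hb b2
  simp only [Polynomial.eval_add, Polynomial.eval_mul, Polynomial.eval_ofNat,
    Polynomial.eval_one]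
  simp only [sz_pair] at h1 h2 h3 h4 ⊢
  omega

theorem poly_ncr {p N d : α → ℕ} {Bs : α → List (List (List ℕ))} (hp : UPoly p)
    (h0 : ∀ a, 0 < p a) (hN : UPoly N) (hd : UPoly d) (hB : Poly Bs) :
    Poly (fun a => ncr (p a) (N a) (d a) (Bs a)) := by
  have h := pn_poly_ncF hp h0 hN hd hB
  exact (Poly.ite h.snd'.fst' (TM2Lib.Poly.const none) (Poly.some h.snd'.snd'.fst')).of_eq
    fun a => by rw [pn_ncr_eq]

/-- the dimensions are at most `N` -/
theorem pn_ncr_small {p : ℕ} (hp : 0 < p) (N d : ℕ) (Bs : List (List (List ℕ)))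
    (WU : List (List ℕ) × List (List ℕ)) (h : ncr p N d Bs = some WU) :
    WU.1.length ≤ N ∧ WU.2.length ≤ N := by
  obtain ⟨_, _, _, _, h5, h6⟩ := pn_nsmall_ncF hp N d Bs
  rw [pn_ncr_eq] at h
  split_ifs at h
  · simp only [Option.some.injEq] at h
    rw [← h]
    exact ⟨h5, h6⟩

end Pool.Agent.RTB
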