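import Pool.Agent.RTB.Alg
import Pool.Agent.RTB.PolyU
import Pool.Agent.RTB.LinP2

/-!
# Polynomial time: tables over several indices, the closure `wong`, the blow-up `blow`
-/

set_option autoImplicit false

namespace Pool.Agent.RTB

open Pool.Agent.TM2Lib Pool.Agent.M3

variable {α : Type} [Enc α]

/-! ### tables -/

theorem poly_mkV2 {m n : α → ℕ} {f : α → ℕ → ℕ → ℕ} (hm : UPoly m) (hn : UPoly n)
    (hf : Poly (fun x : (α × Un) × Un => f x.1.1 x.1.2.n x.2.n)) :
    Poly (fun a => mkV2 (m a) (n a) (f a)) :=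
  poly_flatMapR (h := fun a i => vt (n a) (f a i)) hm
    (poly_vt (f := fun (x : α × Un) j => f x.1 x.2.n j) (hn.comp Poly.fst) hf)

theorem poly_mkV3 {l m n : α → ℕ} {f : α → ℕ → ℕ → ℕ → ℕ} (hl : UPoly l) (hm : UPoly m)
    (hn : UPoly n)
    (hf : Poly (fun x : ((α × Un) × Un) × Un => f x.1.1.1 x.1.1.2.n x.1.2.n x.2.n)) :
    Poly (fun a => mkV3 (l a) (m a) (n a) (f a)) :=
  poly_flatMapR (h := fun a i => mkV2 (m a) (n a) (f a i)) hl
    (poly_mkV2 (f := fun (x : α × Un) j k => f x.1 x.2.n j k) (hm.comp Poly.fst)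
      (hn.comp Poly.fst) hf)

theorem poly_ent2 {n i b : α → ℕ} {v : α → List ℕ} (hn : UPoly n) (hv : Poly v) (hi : UPoly i)
    (hb : UPoly b) : Poly (fun a => ent2 (n a) (v a) (i a) (b a)) :=
  poly_ent hv ((hi.mul hn).add hb)

/-- the second index in binary -/
theorem poly_ent2n {n i b : α → ℕ} {v : α → List ℕ} (hn : UPoly n) (hv : Poly v)
    (hi : UPoly i) (hb : Poly b) : Poly (fun a => ent2 (n a) (v a) (i a) (b a)) :=
  poly_getDn hv (poly_nat_add (hi.mul hn).toNat hb) (TM2Lib.Poly.const 0)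

theorem poly_mkK {m n : α → ℕ} {f : α → ℕ → ℕ → ℕ → ℕ → ℕ} (hm : UPoly m) (hn : UPoly n)
    (hf : Poly (fun x : (((α × Un) × Un) × Un) × Un =>
      f x.1.1.1.1 x.1.1.1.2.n x.1.1.2.n x.1.2.n x.2.n)) :
    Poly (fun a => mkK (m a) (n a) (f a)) :=
  poly_flatMapR (h := fun a i => (List.range (n a)).map fun b => mkV2 (m a) (n a) (f a i b)) hm
    (poly_mapR (h := fun (x : α × Un) b => mkV2 (m x.1) (n x.1) (f x.1 x.2.n b))
      (hn.comp Poly.fst)
      (poly_mkV2 (f := fun (x : (α × Un) × Un) j k => f x.1.1 x.1.2.n x.2.n j k)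
        (hm.comp Poly.fst.fst') (hn.comp Poly.fst.fst') hf))

theorem upoly_sbm {n x y : α → ℕ} (hn : UPoly n) (hx : UPoly x) (hy : UPoly y) :
    UPoly (fun a => sbm (n a) (x a) (y a)) := by
  unfold sbm
  exact (UPoly.ite (UPoly.le hy hx) (hx.sub hy) ((hx.add hn).sub hy)).of_eq fun a => by
    simp only [decide_eq_true_eq]

theorem upoly_powp {p w i : α → ℕ} (hp : UPoly p) (h0 : ∀ a, 0 < p a) (hw : Poly w)
    (hi : UPoly i) : UPoly (fun a => powp (p a) (w a) (i a)) := by
  obtain ⟨P, hP⟩ := Poly.size hp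
  have key : ∀ (q v : ℕ) (l : List ℕ) (x : ℕ),
      l.foldl (fun (s : Un) _ => (⟨s.n * v % q⟩ : Un)) ⟨x⟩ =
        ⟨l.foldl (fun x _ => x * v % q) x⟩ := by
    intro q v l
    induction l with
    | nil => exact fun x => rfl
    | cons y l ih => exact fun x => ih _
  have h1 : Poly (fun a => (List.range (i a)).foldl
      (fun (s : Un) (_ : ℕ) => (⟨s.n * w a % p a⟩ : Un)) ⟨1 % p a⟩) := by
    refine poly_foldlRI (h := fun a (s : Un) (_ : ℕ) => (⟨s.n * w a % p a⟩ : Un)) hi
      (upoly_modp (TM2Lib.Poly.const 1) hp h0) ?_ (fun a _ s => s.n < p a)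
      (fun a => Nat.mod_lt _ (h0 a)) (fun a _ s _ _ => Nat.mod_lt _ (h0 a)) P ?_
    · exact upoly_modp (poly_nat_mul (UPoly.toNat (UPoly.n.comp Poly.id.snd'.fst'))
        (hw.comp Poly.fst)) (hp.comp Poly.fst) (fun x => h0 x.1)
    · intro a _ s _ hs
      have h2 := hP a
      rw [sz_Un] at h2 ⊢
      simp only at h2
      omega
  exact Poly.of_eq h1 fun a => key (p a) (w a) _ _

theorem poly_powp {p w i : α → ℕ} (hp : UPoly p) (h0 : ∀ a, 0 < p a) (hw : Poly w)
    (hi : UPoly i) : Poly (fun a => powp (p a) (w a) (i a)) := (upoly_powp hp h0 hw hi).toNat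

theorem powp_eq (p w i : ℕ) : powp p w i = w ^ i % p := by
  unfold powp
  induction i with
  | zero => simp
  | succ i ih =>
    rw [List.range_succ, List.foldl_append, ih]
    simp only [List.foldl_cons, List.foldl_nil]
    rw [Nat.mod_mul_mod, pow_succ]

/-! ### the linear matrix -/

theorem poly_entA {p i j i' b : α → ℕ} {Bs Xs : α → List (List (List ℕ))} (hp : UPoly p)
    (h0 : ∀ a, 0 < p a) (hB : Poly Bs) (hX : Poly Xs) (hi : UPoly i) (hj : UPoly j)
    (hi' : UPoly i') (hb : UPoly b) :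
    Poly (fun a => entA (p a) (Bs a) (Xs a) (i a) (j a) (i' a) (b a)) := by
  unfold entA
  refine poly_modp (D1_sum (TM2Lib.Poly.map (h := fun x : α × (List (List ℕ) × List (List ℕ)) =>
    entM x.2.1 (i x.1) (i' x.1) * entM x.2.2 (j x.1) (b x.1)) (poly_zip hB hX) ?_)) hp h0
  exact poly_nat_mul (poly_entM Poly.id.snd'.fst' (hi.comp Poly.fst) (hi'.comp Poly.fst))
    (poly_entM Poly.id.snd'.snd' (hj.comp Poly.fst) (hb.comp Poly.fst))

theorem poly_bigA {p N d : α → ℕ} {Bs Xs : α → List (List (List ℕ))} (hp : UPoly p)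
    (h0 : ∀ a, 0 < p a) (hN : UPoly N) (hd : UPoly d) (hB : Poly Bs) (hX : Poly Xs) :
    Poly (fun a => bigA (p a) (N a) (d a) (Bs a) (Xs a)) := by
  unfold bigA
  refine poly_mkK (f := fun a => entA (p a) (Bs a) (Xs a)) hN hd ?_
  exact poly_entA (α := (((α × Un) × Un) × Un) × Un) (hp.comp Poly.fst.fst'.fst'.fst')
    (fun x => h0 x.1.1.1.1) (hB.comp Poly.fst.fst'.fst'.fst')
    (hX.comp Poly.fst.fst'.fst'.fst') (UPoly.n.comp Poly.fst.fst'.fst'.snd')
    (UPoly.n.comp Poly.fst.fst'.snd') (UPoly.n.comp Poly.fst.snd') (UPoly.n.comp Poly.snd)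

theorem poly_appG {p N d : α → ℕ} {Bs : α → List (List (List ℕ))} {g : α → Gen}
    {x : α → List ℕ} (hp : UPoly p) (h0 : ∀ a, 0 < p a) (hN : UPoly N) (hd : UPoly d)
    (hB : Poly Bs) (hg : Poly g) (hx : Poly x) :
    Poly (fun a => appG (p a) (N a) (d a) (Bs a) (g a) (x a)) := by
  unfold appG
  refine poly_mkV2 (f := fun a i b => if b = (g a).2.1 then
    sm (N a) (fun i' => entM ((Bs a).getD (g a).1 []) i i' * ent2 (d a) (x a) i' (g a).2.2) % p a
      else 0) hN hd ?_
  have hg1 : Poly (fun y : (α × Un) × Un => g y.1.1) := hg.comp Poly.fst.fst'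
  refine (Poly.ite (TM2Lib.Poly.nat_eq (UPoly.n.comp Poly.snd).toNat hg1.snd'.fst')
    (f := fun y : (α × Un) × Un => sm (N y.1.1) (fun i' => entM ((Bs y.1.1).getD (g y.1.1).1 [])
      y.1.2.n i' * ent2 (d y.1.1) (x y.1.1) i' (g y.1.1).2.2) % p y.1.1)
    (poly_modp (poly_sm (hN.comp Poly.fst.fst') ?_) (hp.comp Poly.fst.fst')
      (fun y => h0 y.1.1)) (TM2Lib.Poly.const 0)).of_eq fun y => by
        simp only [decide_eq_true_eq]
  have hg2 : Poly (fun y : ((α × Un) × Un) × Un => g y.1.1.1) := hg.comp Poly.fst.fst'.fst'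
  exact poly_nat_mul (poly_entM (poly_getDn (hB.comp Poly.fst.fst'.fst') hg2.fst'
      (TM2Lib.Poly.const [])) (UPoly.n.comp Poly.fst.fst'.snd') (UPoly.n.comp Poly.snd))
    (poly_ent2n (hd.comp Poly.fst.fst'.fst') (hx.comp Poly.fst.fst'.fst')
      (UPoly.n.comp Poly.snd) hg2.snd'.snd')

theorem poly_gens {K d : α → ℕ} (hK : UPoly K) (hd : UPoly d) :
    Poly (fun a => gens (K a) (d a)) := by
  unfold gens
  refine poly_flatMapR (h := fun a k => (List.range (d a)).flatMap fun i =>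
    (List.range (d a)).map fun j => (k, (i, j))) hK ?_
  refine poly_flatMapR (h := fun (x : α × Un) i => (List.range (d x.1)).map fun j =>
    (x.2.n, (i, j))) (hd.comp Poly.fst) ?_
  refine poly_mapR (h := fun (x : (α × Un) × Un) j => (x.1.2.n, (x.2.n, j)))
    (hd.comp Poly.fst.fst') ?_
  exact Poly.pair (UPoly.toNat (UPoly.n.comp Poly.fst.fst'.snd'))
    (Poly.pair (UPoly.toNat (UPoly.n.comp Poly.fst.snd')) (UPoly.toNat (UPoly.n.comp Poly.snd)))

theorem pw_mem_gens {K d : ℕ} {g : Gen} (h : g ∈ gens K d) : g.1 < K ∧ g.2.1 < d ∧ g.2.2 < d := by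
  simp only [gens, List.mem_flatMap, List.mem_map, List.mem_range] at h
  obtain ⟨k, hk, i, hi, j, hj, rfl⟩ := h
  exact ⟨hk, hi, hj⟩

theorem length_gens (K d : ℕ) : (gens K d).length = K * (d * d) := by
  simp only [gens, List.length_flatMap, List.length_map, List.length_range, List.map_const',
    List.sum_replicate, smul_eq_mul]

theorem sz_gen_le {K d : ℕ} {g : Gen} (h : g ∈ gens K d) : sz g ≤ 4 * K + 8 * d + 5 := by
  obtain ⟨h1, h2, h3⟩ := pw_mem_gens h
  obtain ⟨k, i, j⟩ := g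
  have e : sz ((k, (i, j)) : Gen) = sz k + (sz i + sz j + 1) + 1 := by
    rw [show sz ((k, (i, j)) : Gen) = sz k + sz (i, j) + 1 from sz_pair _ _, sz_pair]
  simp only at h1 h2 h3
  have h4 := sz_nat_lt h1
  have h5 := sz_nat_lt h2
  have h6 := sz_nat_lt h3
  omega

/-! ### the closure -/

theorem sz_solve_le {p m k : ℕ} (hp : 0 < p) {L : List (List ℕ)} {b c : List ℕ}
    (h : solve p m k L b = some c) : sz c ≤ k * (4 * p + 2) + 1 := by
  unfold solve at h
  split at h
  · exact absurd h (by simp)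
  · rw [Option.some.injEq] at h
    rw [← h]
    exact sz_vt_le k p hp _

/-- new elements of the closure are small -/
theorem sz_solveL_le {p m n : ℕ} (hp : 0 < p) {A : List (List ℕ)} {b c : List ℕ}
    (h : solveL p m n A b = some c) : sz c ≤ n * (4 * p + 2) + 1 := sz_solve_le hp h

theorem poly_expS {p N d : α → ℕ} {Bs : α → List (List (List ℕ))} {A : α → List (List ℕ)}
    {x : α → List ℕ} {h : α → List Gen} {st : α → PL} {g : α → Gen} (hp : UPoly p)
    (h0 : ∀ a, 0 < p a) (hN : UPoly N) (hd : UPoly d) (hB : Poly Bs) (hA : Poly A)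
    (hx : Poly x) (hh : Poly h) (hst : Poly st) (hg : Poly g) :
    Poly (fun a => expS (p a) (N a) (d a) (Bs a) (A a) (x a) (h a) (st a) (g a)) := by
  unfold expS
  have hNd : UPoly (fun a => N a * d a) := hN.mul hd
  refine (poly_ocases (g := fun a => ((st a).1, (st a).2 ++ [g a :: h a]))
    (h := fun a x' => if decide (N a * d a ≤ (st a).1.length) ||
    memb (p a) (N a * d a) ((st a).1.map Prod.fst) x' then st a
      else ((st a).1 ++ [(x', g a :: h a)], (st a).2))
    (poly_solveL hp h0 hNd hNd hA (poly_appG hp h0 hN hd hB hg hx)) ?_ ?_).of_eq fun a => ?_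
  · exact Poly.pair hst.fst' (Poly.append hst.snd' (Poly.cons (Poly.cons hg hh)
      (TM2Lib.Poly.const [])))
  · have hst1 : Poly (fun y : α × List ℕ => st y.1) := hst.comp Poly.fst
    have hNd1 : UPoly (fun y : α × List ℕ => N y.1 * d y.1) := hNd.comp Poly.fst
    refine Poly.ite (Poly.or (UPoly.le hNd1 (UPoly.length hst1.fst'))
      (poly_memb (hp.comp Poly.fst) (fun y => h0 y.1) hNd1
        (TM2Lib.Poly.map (h := fun z : (α × List ℕ) × (List ℕ × List Gen) => z.2.1) hst1.fst'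
          Poly.snd.fst') Poly.snd)) hst1 ?_
    exact Poly.pair (Poly.append hst1.fst' (Poly.cons (Poly.pair Poly.snd
      (Poly.cons (hg.comp Poly.fst) (hh.comp Poly.fst))) (TM2Lib.Poly.const []))) hst1.snd'
  · rcases solveL (p a) (N a * d a) (N a * d a) (A a) (appG (p a) (N a) (d a) (Bs a) (g a) (x a))
      with _ | x' <;> rfl

theorem sz_expS_le {p N d : ℕ} (hp : 0 < p) (Bs : List (List (List ℕ))) (A : List (List ℕ))
    (x : List ℕ) (h : List Gen) (st : PL) (g : Gen) :
    sz (expS p N d Bs A x h st g) ≤ sz st + (N * d * (4 * p + 2) + sz g + sz h + 7) := by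
  unfold expS
  have e0 : sz st = sz st.1 + sz st.2 + 1 := sz_pair st.1 st.2
  have e1 : sz (g :: h) = sz g + sz h + 1 := sz_cons _ _
  split
  · have e2 : sz ((st.1, st.2 ++ [g :: h]) : PL) = sz st.1 + sz (st.2 ++ [g :: h]) + 1 :=
      sz_pair _ _
    have e3 := Poly.sz_append st.2 [g :: h]
    have e4 : sz [g :: h] = sz (g :: h) + 1 + 1 := by rw [sz_cons, sz_nil]
    omega
  · rename_i x' hx'
    have e2 := sz_solveL_le hp hx'
    split_ifs
    · omega
    · have e3 : sz ((st.1 ++ [(x', g :: h)], st.2) : PL) = sz (st.1 ++ [(x', g :: h)]) + sz st.2 + 1 :=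
        sz_pair _ _
      have e4 := Poly.sz_append st.1 [(x', g :: h)]
      have e5 : sz [(x', g :: h)] = (sz x' + sz (g :: h) + 1) + 1 + 1 := by
        rw [sz_cons, sz_nil, sz_pair]
      omega

theorem poly_wongS {p N d i : α → ℕ} {Bs : α → List (List (List ℕ))} {A : α → List (List ℕ)}
    {st : α → PL} (hp : UPoly p) (h0 : ∀ a, 0 < p a) (hN : UPoly N) (hd : UPoly d)
    (hB : Poly Bs) (hA : Poly A) (hst : Poly st) (hi : UPoly i) :
    Poly (fun a => wongS (p a) (N a) (d a) (Bs a) (A a) (st a) (i a)) := by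
  have hy : Poly (fun a => (st a).1.getD (i a) ([], [])) :=
    Poly.getD hst.fst' hi (TM2Lib.Poly.const ([], []))
  obtain ⟨P, hP⟩ := UPoly.bound hp
  obtain ⟨Q, hQ⟩ := UPoly.bound (hN.mul hd)
  obtain ⟨D, hD⟩ := UPoly.bound hd
  obtain ⟨K, hK⟩ := UPoly.bound (UPoly.length hB)
  obtain ⟨Y, hY⟩ := Poly.size hy
  have h1 : Poly (fun a => (gens (Bs a).length (d a)).foldl
      (fun s g => expS (p a) (N a) (d a) (Bs a) (A a) ((st a).1.getD (i a) ([], [])).1
        ((st a).1.getD (i a) ([], [])).2 s g) (st a)) := by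
    refine Poly.foldl_add (h := fun x : α × (PL × Gen) => expS (p x.1) (N x.1) (d x.1) (Bs x.1)
      (A x.1) ((st x.1).1.getD (i x.1) ([], [])).1 ((st x.1).1.getD (i x.1) ([], [])).2 x.2.1
        x.2.2) (poly_gens (UPoly.length hB) hd) hst ?_
      (Q * (4 * P + 2) + (4 * K + 8 * D + 5) + Y + 7) ?_
    · exact poly_expS (hp.comp Poly.fst) (fun y => h0 y.1) (hN.comp Poly.fst)
        (hd.comp Poly.fst) (hB.comp Poly.fst) (hA.comp Poly.fst) (hy.comp Poly.fst).fst'
        (hy.comp Poly.fst).snd' Poly.id.snd'.fst' Poly.id.snd'.snd'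
    · intro a s g hg
      have e1 := sz_expS_le (h0 a) (N := N a) (d := d a) (Bs a) (A a)
        ((st a).1.getD (i a) ([], [])).1 ((st a).1.getD (i a) ([], [])).2 s g
      have e2 := sz_gen_le hg
      have e3 : N a * d a * (4 * p a + 2) ≤ Q.eval (sz a) * (4 * P.eval (sz a) + 2) :=
        Nat.mul_le_mul (hQ a) (by have := hP a; omega)
      have e4 := hD a
      have e5 := hK a
      have e6 := hY a
      have e7 : sz ((st a).1.getD (i a) ([], [])) = sz ((st a).1.getD (i a) ([], [])).1 +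
        sz ((st a).1.getD (i a) ([], [])).2 + 1 := sz_pair _ _
      simp only [Polynomial.eval_add, Polynomial.eval_mul, Polynomial.eval_ofNat]
      omega
  unfold wongS
  exact (Poly.ite (UPoly.lt hi (UPoly.length hst.fst')) h1 hst).of_eq fun a => by
    simp only [decide_eq_true_eq]

/-- the state of the closure is small -/
structure PWInv (G R L : ℕ) (st : PL) : Prop where
  hist : ∀ y ∈ st.1, y.2.length < st.1.length ∧ (∀ g ∈ y.2, sz g ≤ G) ∧ sz y.1 ≤ R
  len : st.1.length ≤ L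
  esc : ∀ h ∈ st.2, h.length ≤ L ∧ ∀ g ∈ h, sz g ≤ G

theorem winv_expS {p N d G R L : ℕ} (hp : 0 < p) (hR : N * d * (4 * p + 2) + 1 ≤ R)
    (hL : N * d ≤ L) (Bs : List (List (List ℕ))) (A : List (List ℕ)) (x : List ℕ)
    (h : List Gen) (st : PL) (g : Gen) (hst : PWInv G R L st) (hh : h.length < st.1.length)
    (hhG : ∀ g ∈ h, sz g ≤ G) (hg : sz g ≤ G) :
    PWInv G R L (expS p N d Bs A x h st g) ∧
      st.1.length ≤ (expS p N d Bs A x h st g).1.length ∧
      (expS p N d Bs A x h st g).2.length ≤ st.2.length + 1 := by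
  have hgh : ∀ g' ∈ g :: h, sz g' ≤ G := by
    intro g' hg'
    rcases List.mem_cons.1 hg' with rfl | hg'
    · exact hg
    · exact hhG _ hg'
  unfold expS
  split
  · refine ⟨⟨hst.hist, hst.len, ?_⟩, le_rfl, ?_⟩
    · intro h' hh'
      rcases List.mem_append.1 hh' with hh' | hh'
      · exact hst.esc _ hh'
      · rw [List.mem_singleton] at hh'
        subst hh'
        refine ⟨?_, hgh⟩
        have := hst.len
        rw [List.length_cons]
        omega
    · simp
  · rename_i x' hx'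
    have e2 := sz_solveL_le hp hx'
    split_ifs with hc
    · exact ⟨hst, le_rfl, Nat.le_succ _⟩
    · simp only [Bool.or_eq_true, decide_eq_true_eq, not_or, not_le] at hc
      refine ⟨⟨?_, ?_, hst.esc⟩, ?_, Nat.le_succ _⟩
      · intro y hy
        rcases List.mem_append.1 hy with hy | hy
        · obtain ⟨a1, a2, a3⟩ := hst.hist y hy
          refine ⟨?_, a2, a3⟩
          rw [List.length_append]
          omega
        · rw [List.mem_singleton] at hy
          subst hy
          refine ⟨?_, hgh, e2.trans hR⟩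
          simp only [List.length_append, List.length_cons, List.length_nil]
          omega
      · simp only [List.length_append, List.length_cons, List.length_nil]
        omega
      · simp only [List.length_append, List.length_cons, List.length_nil]
        omega

theorem winv_fold {p N d G R L : ℕ} (hp : 0 < p) (hR : N * d * (4 * p + 2) + 1 ≤ R)
    (hL : N * d ≤ L) (Bs : List (List (List ℕ))) (A : List (List ℕ)) (x : List ℕ)
    (h : List Gen) (hhG : ∀ g ∈ h, sz g ≤ G) (l : List Gen) (hl : ∀ g ∈ l, sz g ≤ G) :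
    ∀ st : PL, PWInv G R L st → h.length < st.1.length →
      PWInv G R L (l.foldl (expS p N d Bs A x h) st) ∧
        (l.foldl (expS p N d Bs A x h) st).2.length ≤ st.2.length + l.length := by
  induction l with
  | nil => exact fun st hst _ => ⟨hst, le_rfl⟩
  | cons g l ih =>
    intro st hst hh
    obtain ⟨h1, h2, h3⟩ := winv_expS hp hR hL Bs A x h st g hst hh hhG (hl g List.mem_cons_self)
    obtain ⟨h4, h5⟩ := ih (fun g hg => hl g (List.mem_cons_of_mem _ hg)) _ h1 (by omega)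
    refine ⟨h4, ?_⟩
    rw [List.foldl_cons, List.length_cons]
    omega

theorem winv_wongS {p N d G R L : ℕ} (hp : 0 < p) (hR : N * d * (4 * p + 2) + 1 ≤ R)
    (hL : N * d ≤ L) (Bs : List (List (List ℕ))) (hG : 4 * Bs.length + 8 * d + 5 ≤ G)
    (A : List (List ℕ)) (st : PL) (i : ℕ) (hst : PWInv G R L st) :
    PWInv G R L (wongS p N d Bs A st i) ∧
      (wongS p N d Bs A st i).2.length ≤ st.2.length + Bs.length * (d * d) := by
  unfold wongS
  split_ifs with hi
  · have hy : st.1.getD i ([], []) ∈ st.1 := by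
      rw [List.getD_eq_getElem _ _ hi]
      exact List.getElem_mem hi
    obtain ⟨a1, a2, _⟩ := hst.hist _ hy
    have h1 := winv_fold hp hR hL Bs A (st.1.getD i ([], [])).1 (st.1.getD i ([], [])).2 a2
      (gens Bs.length d) (fun g hg => (sz_gen_le hg).trans hG) st hst a1
    rw [length_gens] at h1
    exact h1
  · exact ⟨hst, Nat.le_add_right _ _⟩

theorem sz_winv_le {G R L : ℕ} {st : PL} (h : PWInv G R L st) {E : ℕ} (hE : st.2.length ≤ E) :
    sz st ≤ L * (R + (L * (G + 1) + 1) + 1 + 1) + 1 + (E * (L * (G + 1) + 1 + 1) + 1) + 1 := by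
  have e0 : sz st = sz st.1 + sz st.2 + 1 := sz_pair st.1 st.2
  have e1 : sz st.1 ≤ L * (R + (L * (G + 1) + 1) + 1 + 1) + 1 := by
    refine sz_list_le' _ _ _ h.len ?_
    intro y hy
    obtain ⟨a1, a2, a3⟩ := h.hist y hy
    have e2 : sz y = sz y.1 + sz y.2 + 1 := sz_pair y.1 y.2
    have e3 := sz_list_le' y.2 L G (by have := h.len; omega) a2
    omega
  have e2 : sz st.2 ≤ E * (L * (G + 1) + 1 + 1) + 1 := by
    refine sz_list_le' _ _ _ hE ?_
    intro y hy
    obtain ⟨a1, a2⟩ := h.esc y hy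
    exact sz_list_le' y L G a1 a2
  omega

theorem poly_wong {p N d : α → ℕ} {Bs : α → List (List (List ℕ))} {A ker : α → List (List ℕ)}
    (hp : UPoly p) (h0 : ∀ a, 0 < p a) (hN : UPoly N) (hd : UPoly d)
    (hB : Poly Bs) (hA : Poly A) (hk : Poly ker) :
    Poly (fun a => wong (p a) (N a) (d a) (Bs a) (A a) (ker a)) := by
  unfold wong
  obtain ⟨P, hP⟩ := UPoly.bound hp
  obtain ⟨Q, hQ⟩ := UPoly.bound (hN.mul hd)
  obtain ⟨D, hD⟩ := UPoly.bound hd
  obtain ⟨K, hK⟩ := UPoly.bound (UPoly.length hB)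
  obtain ⟨Z, hZ⟩ := Poly.size hk
  have hinit : Poly (fun a => (((ker a).map fun x => (x, ([] : List Gen)),
      ([] : List (List Gen))) : PL)) :=
    Poly.pair (TM2Lib.Poly.map (h := fun x : α × List ℕ => (x.2, ([] : List Gen))) hk
      (Poly.pair Poly.snd (TM2Lib.Poly.const []))) (TM2Lib.Poly.const [])
  refine poly_foldlRI (h := fun a st i => wongS (p a) (N a) (d a) (Bs a) (A a) st i)
    (hN.mul hd) hinit ?_
    (fun a k st => PWInv (4 * (Bs a).length + 8 * d a + 5)
      (N a * d a * (4 * p a + 2) + 1 + sz (ker a)) (N a * d a + (ker a).length) st ∧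
        st.2.length ≤ k * ((Bs a).length * (d a * d a))) ?_ ?_
    ((Q + Z) * ((Q * (4 * P + 2) + 1 + Z) + ((Q + Z) * ((4 * K + 8 * D + 5) + 1) + 1) + 1 + 1)
      + 1 + ((Q * (K * (D * D))) * ((Q + Z) * ((4 * K + 8 * D + 5) + 1) + 1 + 1) + 1) + 1) ?_
  · exact poly_wongS (hp.comp Poly.fst) (fun y => h0 y.1) (hN.comp Poly.fst)
      (hd.comp Poly.fst) (hB.comp Poly.fst) (hA.comp Poly.fst) Poly.id.snd'.fst'
      (UPoly.n.comp Poly.id.snd'.snd')
  · intro a
    refine ⟨⟨?_, ?_, ?_⟩, ?_⟩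
    · intro y hy
      simp only [List.mem_map] at hy
      obtain ⟨x, hx, rfl⟩ := hy
      refine ⟨?_, ?_, ?_⟩
      · simp only [List.length_nil, List.length_map]
        exact List.length_pos_of_mem hx
      · intro g hg; cases hg
      · have h1 := Poly.sz_mem_le hx
        simp only
        omega
    · simp
    · intro h hh; cases hh
    · simp
  · intro a k st _ h
    obtain ⟨h1, h2⟩ := h
    obtain ⟨h3, h4⟩ := winv_wongS (N := N a) (h0 a) (by omega) (by omega) (Bs a) le_rfl (A a) st k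
      h1
    refine ⟨h3, h4.trans ?_⟩
    rw [Nat.succ_mul]
    omega
  · intro a k st hk h
    obtain ⟨h1, h2⟩ := h
    have hq := hQ a
    have hpp := hP a
    have hdd := hD a
    have hkk := hK a
    have hz := hZ a
    have hz2 := length_lt_sz (ker a)
    have h3 : st.2.length ≤ Q.eval (sz a) * (K.eval (sz a) * (D.eval (sz a) * D.eval (sz a))) :=
      h2.trans (Nat.mul_le_mul (hk.trans hq) (Nat.mul_le_mul hkk (Nat.mul_le_mul hdd hdd)))
    have h4 : N a * d a * (4 * p a + 2) ≤ Q.eval (sz a) * (4 * P.eval (sz a) + 2) :=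
      Nat.mul_le_mul hq (by omega)
    have h5 : PWInv (4 * K.eval (sz a) + 8 * D.eval (sz a) + 5)
        (Q.eval (sz a) * (4 * P.eval (sz a) + 2) + 1 + Z.eval (sz a))
        (Q.eval (sz a) + Z.eval (sz a)) st := by
      refine ⟨?_, ?_, ?_⟩
      · intro y hy
        obtain ⟨a1, a2, a3⟩ := h1.hist y hy
        exact ⟨a1, fun g hg => (a2 g hg).trans (by omega), a3.trans (by omega)⟩
      · exact h1.len.trans (by omega)
      · intro y hy
        obtain ⟨a1, a2⟩ := h1.esc y hy
        exact ⟨a1.trans (by omega), fun g hg => (a2 g hg).trans (by omega)⟩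
    have h6 := sz_winv_le h5 h3
    simpa only [Polynomial.eval_add, Polynomial.eval_mul, Polynomial.eval_ofNat,
      Polynomial.eval_one] using h6

/-! ### components, images, blow-up -/

theorem poly_comps {N d : α → ℕ} {xs : α → List (List ℕ)} (hN : UPoly N) (hd : UPoly d)
    (hx : Poly xs) : Poly (fun a => comps (N a) (d a) (xs a)) := by
  unfold comps
  refine Poly.flatMap (h := fun x : α × List ℕ => (List.range (d x.1)).map fun b =>
    vt (N x.1) fun i => ent2 (d x.1) x.2 i b) hx ?_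
  refine poly_mapR (h := fun (x : α × List ℕ) b => vt (N x.1) fun i => ent2 (d x.1) x.2 i b)
    (hd.comp Poly.fst) ?_
  exact poly_vt (f := fun (x : (α × List ℕ) × Un) i => ent2 (d x.1.1) x.1.2 i x.2.n)
    (hN.comp Poly.fst.fst') (poly_ent2 (hd.comp Poly.fst.fst'.fst') Poly.fst.fst'.snd'
      (UPoly.n.comp Poly.snd) (UPoly.n.comp Poly.fst.snd'))

theorem poly_imgs {p N : α → ℕ} {Bs : α → List (List (List ℕ))} {us : α → List (List ℕ)}
    (hp : UPoly p) (h0 : ∀ a, 0 < p a) (hN : UPoly N) (hB : Poly Bs) (hu : Poly us) :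
    Poly (fun a => imgs (p a) (N a) (Bs a) (us a)) := by
  unfold imgs
  refine Poly.flatMap (h := fun x : α × List (List ℕ) => (us x.1).map
    (mulVecL (p x.1) (N x.1) (N x.1) x.2)) hB ?_
  refine TM2Lib.Poly.map (h := fun x : (α × List (List ℕ)) × List ℕ =>
    mulVecL (p x.1.1) (N x.1.1) (N x.1.1) x.1.2 x.2) (hu.comp Poly.fst) ?_
  exact poly_mulVecL (hp.comp Poly.fst.fst') (fun x => h0 x.1.1) (hN.comp Poly.fst.fst')
    (hN.comp Poly.fst.fst') Poly.fst.snd' Poly.snd

theorem poly_gen_eq {f g : α → Gen} (hf : Poly f) (hg : Poly g) :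
    Poly (fun a => decide (f a = g a)) :=
  ((TM2Lib.Poly.nat_eq hf.fst' hg.fst').and ((TM2Lib.Poly.nat_eq hf.snd'.fst' hg.snd'.fst').and
    (TM2Lib.Poly.nat_eq hf.snd'.snd' hg.snd'.snd'))).of_eq fun a => by
      rw [Bool.eq_iff_iff]
      simp only [Bool.and_eq_true, decide_eq_true_eq, Prod.ext_iff]

theorem poly_zipIdx {β : Type} [Enc β] {f : α → List β} (hf : Poly f) :
    Poly (fun a => (f a).zipIdx) := Poly.NPC.zipIdx hf

theorem poly_blow {d : α → ℕ} {Xs : α → List (List (List ℕ))} {h : α → List Gen}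
    (hd : UPoly d) (hX : Poly Xs) (hh : Poly h) :
    Poly (fun a => blow (d a) (Xs a) (h a)) := by
  unfold blow
  refine TM2Lib.Poly.map (h := fun x : α × (List (List ℕ) × ℕ) =>
    mkK ((h x.1).length + 1) (d x.1) fun c b c' b' =>
      if c = c' then entM x.2.1 b b'
      else if c = c' + 1 ∧ (h x.1).getD c' (0, (0, 0)) = (x.2.2, (b, b')) then 1 else 0)
    (poly_zipIdx hX) ?_
  refine poly_mkK (f := fun (x : α × (List (List ℕ) × ℕ)) c b c' b' =>
      if c = c' then entM x.2.1 b b'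
      else if c = c' + 1 ∧ (h x.1).getD c' (0, (0, 0)) = (x.2.2, (b, b')) then 1 else 0)
    ((UPoly.length (hh.comp Poly.fst)).add (UPoly.const 1)) (hd.comp Poly.fst) ?_
  have hc : UPoly (fun x : ((((α × (List (List ℕ) × ℕ)) × Un) × Un) × Un) × Un =>
    x.1.1.1.2.n) := UPoly.n.comp Poly.fst.fst'.fst'.snd'
  have hb : UPoly (fun x : ((((α × (List (List ℕ) × ℕ)) × Un) × Un) × Un) × Un =>
    x.1.1.2.n) := UPoly.n.comp Poly.fst.fst'.snd'
  have hc' : UPoly (fun x : ((((α × (List (List ℕ) × ℕ)) × Un) × Un) × Un) × Un =>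
    x.1.2.n) := UPoly.n.comp Poly.fst.snd'
  have hb' : UPoly (fun x : ((((α × (List (List ℕ) × ℕ)) × Un) × Un) × Un) × Un =>
    x.2.n) := UPoly.n.comp Poly.snd
  have hbase : Poly (fun x : ((((α × (List (List ℕ) × ℕ)) × Un) × Un) × Un) × Un =>
    x.1.1.1.1) := Poly.fst.fst'.fst'.fst'
  refine (Poly.ite (UPoly.eq hc hc') (poly_entM hbase.snd'.fst' hb hb')
    (Poly.ite ((UPoly.eq hc (hc'.add (UPoly.const 1))).and (poly_gen_eq
      (Poly.getD (hh.comp hbase.fst') hc' (TM2Lib.Poly.const ((0, (0, 0)) : Gen)))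
      (Poly.pair hbase.snd'.snd' (Poly.pair hb.toNat hb'.toNat))))
      (TM2Lib.Poly.const 1) (TM2Lib.Poly.const 0))).of_eq fun x => ?_
  simp only [decide_eq_true_eq, Bool.and_eq_true]

end Pool.Agent.RTB
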