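import Pool.Agent.RTB.PolyU
import Pool.Agent.RTB.PolyW

/-!
# Polynomial time: regularity (`reg`, `minr`, `down`)
-/

namespace Pool.Agent.RTB

open Pool.Agent.TM2Lib Pool.Agent.M3

variable {α : Type} [Enc α]

theorem poly_kapE {p n u v m : α → ℕ} (hp : UPoly p) (h0 : ∀ a, 0 < p a) (hn : UPoly n)
    (hu : Poly u) (hv : Poly v) (hm : UPoly m) :
    Poly (fun a => kapE (p a) (n a) (u a) (v a) (m a)) := by
  unfold kapE
  refine poly_modp (poly_sm (f := fun a i => powp (p a) (u a) i * powp (p a) (v a) (m a * i % n a))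
    hn ?_) hp h0
  have hi : UPoly (fun x : α × Un => x.2.n) := UPoly.n.comp Poly.snd
  exact poly_nat_mul
    (upoly_powp (hp.comp Poly.fst) (fun x => h0 x.1) (hu.comp Poly.fst) hi).toNat
    (upoly_powp (hp.comp Poly.fst) (fun x => h0 x.1) (hv.comp Poly.fst)
      (UPoly.mod ((hm.comp Poly.fst).mul hi) (hn.comp Poly.fst))).toNat

theorem poly_famE {p n u v y i j : α → ℕ} {X : α → List (List ℕ)} (hp : UPoly p)
    (h0 : ∀ a, 0 < p a) (hn : UPoly n) (hX : Poly X) (hu : Poly u) (hv : Poly v) (hy : Poly y)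
    (hi : UPoly i) (hj : UPoly j) :
    Poly (fun a => famE (p a) (n a) (X a) (u a) (v a) (y a) (i a) (j a)) := by
  unfold famE
  have hs := upoly_sbm hn hi hj
  refine poly_modp (poly_nat_mul (upoly_powp hp h0 hy hs).toNat
    (poly_sm (f := fun a a' => entM (X a) a' (sbm (n a) a' (sbm (n a) (i a) (j a))) *
      kapE (p a) (n a) (u a) (v a) (sbm (n a) (i a) a')) hn ?_)) hp h0
  have hk : UPoly (fun x : α × Un => x.2.n) := UPoly.n.comp Poly.snd
  exact poly_nat_mul
    (poly_entM (hX.comp Poly.fst) hk (upoly_sbm (hn.comp Poly.fst) hk (hs.comp Poly.fst)))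
    (poly_kapE (hp.comp Poly.fst) (fun x => h0 x.1) (hn.comp Poly.fst) (hu.comp Poly.fst)
      (hv.comp Poly.fst) (upoly_sbm (hn.comp Poly.fst) (hi.comp Poly.fst) hk))

theorem poly_famL {p n : α → ℕ} {Xs : α → List (List (List ℕ))} {q : α → ℕ × (ℕ × ℕ)}
    (hp : UPoly p) (h0 : ∀ a, 0 < p a) (hn : UPoly n) (hX : Poly Xs) (hq : Poly q) :
    Poly (fun a => famL (p a) (n a) (Xs a) (q a)) := by
  refine TM2Lib.Poly.map (h := fun x : α × List (List ℕ) =>
    mt (n x.1) (n x.1) (famE (p x.1) (n x.1) x.2 (q x.1).1 (q x.1).2.1 (q x.1).2.2)) hX ?_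
  refine poly_mt (f := fun x : α × List (List ℕ) =>
    famE (p x.1) (n x.1) x.2 (q x.1).1 (q x.1).2.1 (q x.1).2.2) (hn.comp Poly.fst)
    (hn.comp Poly.fst) ?_
  exact poly_famE (hp.comp Poly.fst.fst'.fst') (fun x => h0 x.1.1.1) (hn.comp Poly.fst.fst'.fst')
    Poly.fst.fst'.snd' (hq.comp Poly.fst.fst'.fst').fst' (hq.comp Poly.fst.fst'.fst').snd'.fst'
    (hq.comp Poly.fst.fst'.fst').snd'.snd' (UPoly.n.comp Poly.fst.snd') (UPoly.n.comp Poly.snd)

theorem poly_pars {p : α → ℕ} (hp : UPoly p) : Poly (fun a => pars (p a)) := by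
  unfold pars
  refine poly_flatMapR (h := fun a u => (List.range (p a)).flatMap fun v =>
    (List.range (p a)).map fun y => (u, (v, y))) hp ?_
  refine poly_flatMapR (h := fun (x : α × Un) v => (List.range (p x.1)).map fun y =>
    (x.2.n, (v, y))) (hp.comp Poly.fst) ?_
  refine poly_mapR (h := fun (x : (α × Un) × Un) y => (x.1.2.n, (x.2.n, y)))
    (hp.comp Poly.fst.fst') ?_
  exact (UPoly.toNat (UPoly.n.comp Poly.fst.fst'.snd')).pair
    ((UPoly.toNat (UPoly.n.comp Poly.fst.snd')).pair (UPoly.toNat (UPoly.n.comp Poly.snd)))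

theorem poly_reg {p N n r : α → ℕ} {Bs Xs : α → List (List (List ℕ))} (hp : UPoly p)
    (h0 : ∀ a, 0 < p a) (hN : UPoly N) (hn : UPoly n) (hB : Poly Bs) (hX : Poly Xs)
    (hr : UPoly r) : Poly (fun a => reg (p a) (N a) (n a) (Bs a) (Xs a) (r a)) := by
  unfold reg
  refine poly_famL hp h0 hn hX (Poly.headD ?_ (TM2Lib.Poly.const (0, (0, 0))))
  refine Poly.filter (h := fun x : α × (ℕ × (ℕ × ℕ)) => decide (r x.1 * n x.1 ≤
    rkL (p x.1) (N x.1 * n x.1) (N x.1 * n x.1) (bigA (p x.1) (N x.1) (n x.1) (Bs x.1)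
      (famL (p x.1) (n x.1) (Xs x.1) x.2)))) (poly_pars hp) ?_
  have hNn := (hN.mul hn).comp (Poly.fst (α := α) (β := ℕ × (ℕ × ℕ)))
  exact UPoly.le ((hr.mul hn).comp Poly.fst)
    (upoly_rkL (hp.comp Poly.fst) (fun x => h0 x.1) hNn hNn
      (poly_bigA (hp.comp Poly.fst) (fun x => h0 x.1) (hN.comp Poly.fst) (hn.comp Poly.fst)
        (hB.comp Poly.fst) (poly_famL (hp.comp Poly.fst) (fun x => h0 x.1) (hn.comp Poly.fst)
          (hX.comp Poly.fst) Poly.snd)))

theorem poly_minr {n : α → ℕ} {Xs : α → List (List (List ℕ))} (hn : UPoly n) (hX : Poly Xs) :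
    Poly (fun a => minr (n a) (Xs a)) := by
  refine TM2Lib.Poly.map (h := fun x : α × List (List ℕ) =>
    mt (n x.1) (n x.1) fun i j => entM x.2 i j) hX ?_
  exact poly_mt (f := fun (x : α × List (List ℕ)) i j => entM x.2 i j) (hn.comp Poly.fst)
    (hn.comp Poly.fst) (poly_entM Poly.fst.fst'.snd' (UPoly.n.comp Poly.fst.snd')
      (UPoly.n.comp Poly.snd))

/-- size of a table with entries below `p` -/
theorem pn_sz_mt_lt (m n p : ℕ) (f : ℕ → ℕ → ℕ) (hf : ∀ i j, f i j < p) :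
    sz (mt m n f) ≤ m * (n * (4 * p + 2) + 2) + 1 := by
  have h1 := sz_list_le (mt m n f) (n * (4 * p + 2) + 1) (by
    intro x hx
    simp only [mt, List.mem_map] at hx
    obtain ⟨i, _, rfl⟩ := hx
    have h2 := sz_list_le (vt n (f i)) (4 * p + 1) (by
      intro y hy
      simp only [vt, List.mem_map] at hy
      obtain ⟨j, _, rfl⟩ := hy
      exact sz_nat_lt (hf i j))
    rw [length_vt] at h2
    exact h2)
  have h2 : (mt m n f).length = m := by simp [mt]
  rw [h2] at h1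
  exact h1

theorem pn_famE_lt {p : ℕ} (hp : 0 < p) (n : ℕ) (X : List (List ℕ)) (u v y a b : ℕ) :
    famE p n X u v y a b < p := Nat.mod_lt _ hp

theorem pn_sz_famL {p : ℕ} (hp : 0 < p) (n : ℕ) (Xs : List (List (List ℕ))) (q : ℕ × (ℕ × ℕ)) :
    sz (famL p n Xs q) ≤ Xs.length * (n * (n * (4 * p + 2) + 2) + 2) + 1 := by
  have h1 := sz_list_le (famL p n Xs q) (n * (n * (4 * p + 2) + 2) + 1) (by
    intro x hx
    simp only [famL, List.mem_map] at hx
    obtain ⟨X, _, rfl⟩ := hx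
    exact pn_sz_mt_lt n n p _ fun i j => pn_famE_lt hp n X _ _ _ i j)
  have h2 : (famL p n Xs q).length = Xs.length := by simp [famL]
  rw [h2] at h1
  exact h1

theorem pn_length_reg (p N n : ℕ) (Bs Xs : List (List (List ℕ))) (r : ℕ) :
    (reg p N n Bs Xs r).length = Xs.length := by
  simp [reg, famL]

theorem pn_sz_reg {p : ℕ} (hp : 0 < p) (N n : ℕ) (Bs Xs : List (List (List ℕ))) (r : ℕ) :
    sz (reg p N n Bs Xs r) ≤ Xs.length * (n * (n * (4 * p + 2) + 2) + 2) + 1 :=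
  pn_sz_famL hp n Xs _

theorem pn_length_minr (n : ℕ) (Xs : List (List (List ℕ))) : (minr n Xs).length = Xs.length := by
  simp [minr]

theorem pn_length_regs (p N r : ℕ) (Bs : List (List (List ℕ))) (f : ℕ → ℕ) (l : List ℕ) :
    ∀ Xs : List (List (List ℕ)),
      (l.foldl (fun Xs j => reg p N (f j) Bs (minr (f j) Xs) r) Xs).length = Xs.length := by
  induction l with
  | nil => exact fun Xs => rfl
  | cons x l ih =>
    intro Xs
    rw [List.foldl_cons, ih, pn_length_reg, pn_length_minr]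

/-- length of the result of `down` -/
theorem pn_length_down (p N n r : ℕ) (Bs : List (List (List ℕ))) (k : ℕ)
    (Xs : List (List (List ℕ))) : (down p N n r Bs k Xs).length = Xs.length :=
  pn_length_regs p N r Bs (fun j => n + (k - 1 - j)) _ Xs

/-- size of the result of `down` after at least one step -/
theorem pn_sz_down {p : ℕ} (hp : 0 < p) (N n r : ℕ) (Bs : List (List (List ℕ))) {k : ℕ} (hk : 0 < k)
    (Xs : List (List (List ℕ))) :
    sz (down p N n r Bs k Xs) ≤ Xs.length * (n * (n * (4 * p + 2) + 2) + 2) + 1 := by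
  obtain ⟨j, rfl⟩ := Nat.exists_eq_succ_of_ne_zero (Nat.pos_iff_ne_zero.1 hk)
  have h1 : down p N n r Bs (j + 1) Xs = reg p N n Bs (minr n ((List.range j).foldl (fun Xs i =>
      reg p N (n + (j + 1 - 1 - i)) Bs (minr (n + (j + 1 - 1 - i)) Xs) r) Xs)) r := by
    unfold down
    rw [List.range_succ, List.foldl_append]
    simp
  have h3 := pn_sz_reg hp N n Bs (minr n ((List.range j).foldl (fun Xs i =>
      reg p N (n + (j + 1 - 1 - i)) Bs (minr (n + (j + 1 - 1 - i)) Xs) r) Xs)) r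
  rw [pn_length_minr, pn_length_regs p N r Bs (fun i => n + (j + 1 - 1 - i))] at h3
  rw [h1]
  exact h3

theorem poly_down {p N n r k : α → ℕ} {Bs Xs : α → List (List (List ℕ))} (hp : UPoly p)
    (h0 : ∀ a, 0 < p a) (hN : UPoly N) (hn : UPoly n) (hr : UPoly r) (hB : Poly Bs)
    (hk : UPoly k) (hX : Poly Xs) :
    Poly (fun a => down (p a) (N a) (n a) (r a) (Bs a) (k a) (Xs a)) := by
  obtain ⟨P, hP⟩ := UPoly.bound hp
  obtain ⟨M, hM⟩ := UPoly.bound hn
  obtain ⟨K, hK⟩ := UPoly.bound hk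
  obtain ⟨X, hX'⟩ := Poly.size hX
  unfold down
  have hi : UPoly (fun x : α × (List (List (List ℕ)) × Un) => x.2.2.n) :=
    UPoly.n.comp Poly.snd.snd'
  have hs : UPoly (fun x : α × (List (List (List ℕ)) × Un) =>
      n x.1 + (k x.1 - 1 - x.2.2.n)) :=
    (hn.comp Poly.fst).add (((hk.comp Poly.fst).sub (UPoly.const 1)).sub hi)
  refine poly_foldlRI (h := fun a Xs j =>
    reg (p a) (N a) (n a + (k a - 1 - j)) (Bs a) (minr (n a + (k a - 1 - j)) Xs) (r a)) hk hX
    (poly_reg (hp.comp Poly.fst) (fun x => h0 x.1) (hN.comp Poly.fst) hs (hB.comp Poly.fst)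
      (poly_minr hs Poly.snd.fst') (hr.comp Poly.fst))
    (fun a j s => s.length = (Xs a).length ∧ sz s ≤ sz (Xs a) +
      ((Xs a).length * ((n a + k a) * ((n a + k a) * (4 * p a + 2) + 2) + 2) + 1))
    (fun a => ⟨rfl, by omega⟩) ?_
    (X + (X * ((M + K) * ((M + K) * (4 * P + 2) + 2) + 2) + 1)) ?_
  · rintro a j s _ ⟨h1, h2⟩
    refine ⟨by rw [pn_length_reg, pn_length_minr, h1], ?_⟩
    have h3 := pn_sz_reg (h0 a) (N a) (n a + (k a - 1 - j)) (Bs a)
      (minr (n a + (k a - 1 - j)) s) (r a)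
    rw [pn_length_minr, h1] at h3
    have h4 : n a + (k a - 1 - j) ≤ n a + k a := by omega
    have h5 : (Xs a).length * ((n a + (k a - 1 - j)) * ((n a + (k a - 1 - j)) * (4 * p a + 2) + 2) +
        2) ≤ (Xs a).length * ((n a + k a) * ((n a + k a) * (4 * p a + 2) + 2) + 2) := by
      gcongr
    omega
  · rintro a j s _ ⟨_, h2⟩
    refine h2.trans ?_
    simp only [Polynomial.eval_add, Polynomial.eval_mul, Polynomial.eval_ofNat,
      Polynomial.eval_one]
    have h3 := hP a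
    have h4 := hM a
    have h5 := hK a
    have h6 := hX' a
    have h7 : (Xs a).length ≤ X.eval (sz a) := (length_lt_sz _).le.trans h6
    gcongr

end Pool.Agent.RTB
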