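import Mathlib

/-!
# RTB RANKMUL: the rank of a block matrix over an embedded division ring is a multiple of `n`

Every `M : Matrix (Fin N) (Fin N') K` is `A * B` with `S * A = 1`, `B * T = 1` (sizes `r × r`); apply
`phm φ`, which is multiplicative: the rank of `phm φ M` is `r * n`.
-/

namespace Pool.Agent.RTB

/-- block matrix of a matrix over `K` -/
def phm {K F : Type} [DivisionRing K] [Field F] {n : ℕ} (φ : K →+* Matrix (Fin n) (Fin n) F)
    {ι κ : Type} (M : Matrix ι κ K) : Matrix (ι × Fin n) (κ × Fin n) F :=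
  fun x y => φ (M x.1 y.1) x.2 y.2

theorem phm_mul {K F : Type} [DivisionRing K] [Field F] {n : ℕ}
    (φ : K →+* Matrix (Fin n) (Fin n) F) {ι κ τ : Type} [Fintype κ] (A : Matrix ι κ K)
    (B : Matrix κ τ K) : phm φ (A * B) = phm φ A * phm φ B := by
  ext x y
  simp only [phm, Matrix.mul_apply, map_sum, map_mul, Matrix.sum_apply, Fintype.sum_prod_type]

theorem phm_one {K F : Type} [DivisionRing K] [Field F] {n : ℕ}
    (φ : K →+* Matrix (Fin n) (Fin n) F) {ι : Type} [DecidableEq ι] :
    phm φ (1 : Matrix ι ι K) = 1 := by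
  ext ⟨i, a⟩ ⟨j, b⟩
  change φ ((1 : Matrix ι ι K) i j) a b = _
  rw [Matrix.one_apply, Matrix.one_apply]
  by_cases h : i = j
  · subst h
    by_cases h2 : a = b
    · subst h2
      simp
    · have h3 : ((i, a) : ι × Fin n) ≠ (i, b) := fun h4 => h2 (Prod.ext_iff.1 h4).2
      rw [if_pos rfl, map_one, if_neg h3, Matrix.one_apply_ne h2]
  · have h3 : ((i, a) : ι × Fin n) ≠ (j, b) := fun h4 => h (Prod.ext_iff.1 h4).1
    rw [if_neg h, map_zero, if_neg h3, Matrix.zero_apply]

/-- rank factorisation over a division ring -/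
theorem exists_factor {K : Type} [DivisionRing K] {N N' : ℕ} (M : Matrix (Fin N) (Fin N') K) :
    ∃ (r : ℕ) (A : Matrix (Fin N) (Fin r) K) (B : Matrix (Fin r) (Fin N') K)
      (S : Matrix (Fin r) (Fin N) K) (T : Matrix (Fin N') (Fin r) K),
      M = A * B ∧ S * A = 1 ∧ B * T = 1 := by
  classical
  let f : (Fin N → K) →ₗ[K] (Fin N' → K) := Matrix.toLinearMapRight' M
  let R := LinearMap.range f
  let r := Module.finrank K R
  let e : R ≃ₗ[K] (Fin r → K) := (Module.finBasis K R).equivFun
  let h : (Fin N → K) →ₗ[K] (Fin r → K) := e.toLinearMap ∘ₗ f.rangeRestrict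
  let g : (Fin r → K) →ₗ[K] (Fin N' → K) := R.subtype ∘ₗ e.symm.toLinearMap
  have hgf : g ∘ₗ h = f := by
    ext x
    simp [g, h]
  have hh : LinearMap.range h = ⊤ := by
    rw [LinearMap.range_eq_top]
    exact e.surjective.comp (LinearMap.surjective_rangeRestrict f)
  have hg : LinearMap.ker g = ⊥ := by
    rw [LinearMap.ker_eq_bot]
    exact (Submodule.injective_subtype R).comp e.symm.injective
  obtain ⟨s, hs⟩ := h.exists_rightInverse_of_surjective hh
  obtain ⟨t, ht⟩ := g.exists_leftInverse_of_injective hg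
  refine ⟨r, LinearMap.toMatrixRight' h, LinearMap.toMatrixRight' g, LinearMap.toMatrixRight' s,
    LinearMap.toMatrixRight' t, ?_, ?_, ?_⟩
  · apply Matrix.toLinearMapRight'.injective
    rw [Matrix.toLinearMapRight'_mul]
    change f = Matrix.toLinearMapRight' (Matrix.toLinearMapRight'.symm g) ∘ₗ
      Matrix.toLinearMapRight' (Matrix.toLinearMapRight'.symm h)
    rw [LinearEquiv.apply_symm_apply, LinearEquiv.apply_symm_apply, hgf]
  · apply Matrix.toLinearMapRight'.injective
    rw [Matrix.toLinearMapRight'_mul, Matrix.toLinearMapRight'_one]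
    change Matrix.toLinearMapRight' (Matrix.toLinearMapRight'.symm h) ∘ₗ
      Matrix.toLinearMapRight' (Matrix.toLinearMapRight'.symm s) = _
    rw [LinearEquiv.apply_symm_apply, LinearEquiv.apply_symm_apply, hs]
  · apply Matrix.toLinearMapRight'.injective
    rw [Matrix.toLinearMapRight'_mul, Matrix.toLinearMapRight'_one]
    change Matrix.toLinearMapRight' (Matrix.toLinearMapRight'.symm t) ∘ₗ
      Matrix.toLinearMapRight' (Matrix.toLinearMapRight'.symm g) = _
    rw [LinearEquiv.apply_symm_apply, LinearEquiv.apply_symm_apply, ht]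

theorem rank_mul {K F : Type} [DivisionRing K] [Field F] {n : ℕ}
    (φ : K →+* Matrix (Fin n) (Fin n) F) {N N' : ℕ} (M : Matrix (Fin N) (Fin N') K) :
    n ∣ (phm φ M).rank := by
  obtain ⟨r, A, B, S, T, hM, hS, hT⟩ := exists_factor M
  have h1 : phm φ S * (phm φ M * phm φ T) = 1 := by
    rw [← phm_mul, ← phm_mul, ← phm_one φ, hM]
    congr 1
    calc S * (A * B * T) = (S * A) * (B * T) := by simp only [Matrix.mul_assoc]
      _ = 1 := by rw [hS, hT, Matrix.one_mul]
  have h2 : r * n ≤ (phm φ M).rank := by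
    calc r * n = (1 : Matrix (Fin r × Fin n) (Fin r × Fin n) F).rank := by
          rw [Matrix.rank_one, Fintype.card_prod, Fintype.card_fin, Fintype.card_fin]
      _ = (phm φ S * (phm φ M * phm φ T)).rank := by rw [h1]
      _ ≤ (phm φ M * phm φ T).rank := Matrix.rank_mul_le_right _ _
      _ ≤ (phm φ M).rank := Matrix.rank_mul_le_left _ _
  have h3 : (phm φ M).rank ≤ r * n := by
    rw [hM, phm_mul]
    refine (Matrix.rank_mul_le_right _ _).trans ?_
    refine (Matrix.rank_le_card_height _).trans ?_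
    rw [Fintype.card_prod, Fintype.card_fin, Fintype.card_fin]
  rw [le_antisymm h3 h2]
  exact dvd_mul_left n r

end Pool.Agent.RTB
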