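import Mathlib

/-!
# RTB TWIST: the division ring of twisted matrices

`E` a field with an automorphism `σ`, `𝕃 = E((y))`. `M ∈ M_n(𝕃)` is twisted if the coefficient of `y ^ j` of
`M a b` vanishes unless `a - b ≡ j` modulo `n`, and `M (a + 1) (b + 1)` is `σ` of `M a b` (coefficientwise;
indices modulo `n`). The twisted matrices form a subring (`M = ∑_j diag (σ ^ a c_j) (y P) ^ j`, `P` the
cyclic shift).
(1) A nonzero twisted matrix has nonzero determinant: let `v` be the least order of an entry; all entries of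
one cyclic diagonal have order `v`, all other entries have larger order, so exactly one term of the
determinant has the least order `n v`.
(2) Inverses: `M⁻¹` (over the field `𝕃`) is twisted. Shift rule: `θ M = (σ (M (a - 1) (b - 1)))` is a ring
automorphism of `M_n(𝕃)`, `M` is fixed by it iff it satisfies the shift rule, so `M⁻¹` is fixed. Degree rule:
let `π₀ : M_n(𝕃) → M_n(𝕃)` keep exactly the coefficients of `y ^ j` in the entries `a b` with
`a - b ≡ j`; `π₀` is additive and `π₀ (M N) = M (π₀ N)` if `M` satisfies the degree rule; so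
`M (π₀ M⁻¹) = π₀ 1 = 1`, `M⁻¹ = π₀ M⁻¹`.
-/

namespace Pool.Agent.RTB

set_option linter.unusedSectionVars false

/-- twisted matrices -/
def IsTw {E : Type} [Field E] (σ : E ≃+* E) {n : ℕ} [NeZero n]
    (M : Matrix (Fin n) (Fin n) (LaurentSeries E)) : Prop :=
  (∀ (a b : Fin n) (j : ℤ), (M a b).coeff j ≠ 0 → (n : ℤ) ∣ ((a : ℕ) : ℤ) - ((b : ℕ) : ℤ) - j) ∧
  ∀ (a b : Fin n) (j : ℤ), (M (a + 1) (b + 1)).coeff j = σ ((M a b).coeff j)

namespace TwistAux

section valuation

variable {C : Type} [Field C] (v : AddValuation C (WithTop ℤ))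

/-- the integer valuation of a nonzero element -/
def oo (x : C) : ℤ := (v x).untopD 0

theorem oo_coe {x : C} (hx : x ≠ 0) : v x = ((oo v x : ℤ) : WithTop ℤ) := by
  have h := (AddValuation.ne_top_iff v).2 hx
  obtain ⟨a, ha⟩ := WithTop.ne_top_iff_exists.1 h
  unfold oo
  rw [← ha]
  rfl

theorem oo_one : oo v (1 : C) = 0 := by
  unfold oo
  rw [AddValuation.map_one]
  rfl

theorem oo_mul {x z : C} (hx : x ≠ 0) (hz : z ≠ 0) : oo v (x * z) = oo v x + oo v z := by
  have h1 := oo_coe v (mul_ne_zero hx hz)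
  rw [AddValuation.map_mul, oo_coe v hx, oo_coe v hz, ← WithTop.coe_add] at h1
  exact (WithTop.coe_injective h1).symm

theorem oo_prod {ι : Type} (s : Finset ι) (f : ι → C) (hf : ∀ i ∈ s, f i ≠ 0) :
    oo v (∏ i ∈ s, f i) = ∑ i ∈ s, oo v (f i) := by
  classical
  induction s using Finset.induction_on with
  | empty => simp [oo_one]
  | insert a s ha ih =>
    rw [Finset.prod_insert ha, Finset.sum_insert ha, oo_mul v (hf a (Finset.mem_insert_self _ _))
      (Finset.prod_ne_zero_iff.2 fun i hi => hf i (Finset.mem_insert_of_mem hi)),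
      ih fun i hi => hf i (Finset.mem_insert_of_mem hi)]

/-- A matrix with a permutation on which all entries have the least valuation `w`, while all
other nonzero entries have larger valuation, has nonzero determinant. -/
theorem det_ne_zero_of_unique {n : ℕ} (A : Matrix (Fin n) (Fin n) C) (w : ℤ)
    (π0 : Equiv.Perm (Fin n)) (h0 : ∀ i, A (π0 i) i ≠ 0 ∧ oo v (A (π0 i) i) = w)
    (h1 : ∀ a b, A a b ≠ 0 → a ≠ π0 b → w < oo v (A a b)) : A.det ≠ 0 := by
  have hd : ∀ i, A (π0 i) i ≠ 0 := fun i => (h0 i).1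
  have hP0 : ∏ i, A (π0 i) i ≠ 0 := Finset.prod_ne_zero_iff.2 fun i _ => hd i
  have hlt : ∀ π : Equiv.Perm (Fin n), π ≠ π0 →
      v (∏ i, A (π0 i) i) < v (∏ i, A (π i) i) := by
    intro π hπ
    by_cases h : ∀ i, A (π i) i ≠ 0
    · rw [oo_coe v hP0, oo_coe v (Finset.prod_ne_zero_iff.2 fun i _ => h i),
        oo_prod v _ _ fun i _ => hd i, oo_prod v _ _ fun i _ => h i]
      apply WithTop.coe_lt_coe.2
      obtain ⟨i, hi⟩ : ∃ i, π i ≠ π0 i := by
        by_contra h2
        push Not at h2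
        exact hπ (Equiv.ext h2)
      refine Finset.sum_lt_sum (fun j _ => ?_) ⟨i, Finset.mem_univ _, ?_⟩
      · rw [(h0 j).2]
        by_cases hj : π j = π0 j
        · rw [hj, (h0 j).2]
        · exact (h1 _ _ (h j) hj).le
      · rw [(h0 i).2]
        exact h1 _ _ (h i) hi
    · push Not at h
      obtain ⟨i, hi⟩ := h
      rw [Finset.prod_eq_zero (f := fun i => A (π i) i) (Finset.mem_univ i) hi,
        AddValuation.map_zero, oo_coe v hP0]
      exact WithTop.coe_lt_top _
  have hsgn : ∀ (π : Equiv.Perm (Fin n)) (x : C),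
      v (((Equiv.Perm.sign π : ℤ) : C) * x) = v x := by
    intro π x
    rcases Int.units_eq_one_or (Equiv.Perm.sign π) with h | h
    · rw [h]
      simp
    · rw [h]
      simp
  intro hdet
  rw [Matrix.det_apply', ← Finset.add_sum_erase _ _ (Finset.mem_univ π0)] at hdet
  have h2 : v (∏ i, A (π0 i) i) <
      v (∑ π ∈ Finset.univ.erase π0, ((Equiv.Perm.sign π : ℤ) : C) * ∏ i, A (π i) i) := by
    apply AddValuation.map_lt_sum v ((AddValuation.ne_top_iff v).2 hP0)
    intro π hπ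
    rw [hsgn]
    exact hlt π (Finset.ne_of_mem_erase hπ)
  rw [← neg_eq_of_add_eq_zero_right hdet, AddValuation.map_neg, hsgn] at h2
  exact lt_irrefl _ h2

end valuation

section series

variable {E : Type} [Field E]

theorem ot_eq {x x' : LaurentSeries E} (h : ∀ j, x'.coeff j ≠ 0 ↔ x.coeff j ≠ 0) :
    x'.orderTop = x.orderTop := by
  have key : ∀ {x x' : LaurentSeries E}, (∀ j, x'.coeff j ≠ 0 ↔ x.coeff j ≠ 0) →
      x'.orderTop ≤ x.orderTop := by
    intro x x' h
    by_cases hx : x = 0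
    · rw [hx, HahnSeries.orderTop_zero]
      exact le_top
    · obtain ⟨g, hg⟩ := WithTop.ne_top_iff_exists.1 (HahnSeries.orderTop_ne_top.2 hx)
      rw [← hg]
      exact HahnSeries.orderTop_le_of_coeff_ne_zero ((h g).2 (HahnSeries.coeff_orderTop_ne hg.symm))
  exact le_antisymm (key h) (key fun j => (h j).symm)

/-- coefficientwise application of an automorphism -/
noncomputable def sHat (σ : E ≃+* E) : LaurentSeries E →+* LaurentSeries E where
  toFun x := x.map (σ : E →+* E)
  map_zero' := by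
    ext j
    simp
  map_one' := by
    ext j
    simp [HahnSeries.coeff_one, apply_ite]
  map_add' x z := by
    ext j
    simp
  map_mul' x z := HahnSeries.map_mul ((σ : E →+* E) : E →ₙ+* E)

theorem sHat_coeff (σ : E ≃+* E) (x : LaurentSeries E) (j : ℤ) :
    (sHat σ x).coeff j = σ (x.coeff j) := rfl

/-- the part of a series with exponents in a class modulo `n` -/
noncomputable def cls (n : ℕ) (r : ℤ) (x : LaurentSeries E) : LaurentSeries E where
  coeff j := if (n : ℤ) ∣ r - j then x.coeff j else 0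
  isPWO_support' := by
    apply x.isPWO_support.mono
    intro j hj
    rw [Function.mem_support] at hj
    rw [HahnSeries.mem_support]
    intro h
    apply hj
    rw [h]
    simp

theorem cls_coeff (n : ℕ) (r : ℤ) (x : LaurentSeries E) (j : ℤ) :
    (cls n r x).coeff j = if (n : ℤ) ∣ r - j then x.coeff j else 0 := rfl

theorem cls_add (n : ℕ) (r : ℤ) (x z : LaurentSeries E) :
    cls n r (x + z) = cls n r x + cls n r z := by
  ext j
  simp only [cls_coeff, HahnSeries.coeff_add]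
  split_ifs <;> simp

theorem cls_zero (n : ℕ) (r : ℤ) : cls n r (0 : LaurentSeries E) = 0 := by
  ext j
  simp [cls_coeff]

theorem cls_sum (n : ℕ) (r : ℤ) {ι : Type} (s : Finset ι) (f : ι → LaurentSeries E) :
    cls n r (∑ i ∈ s, f i) = ∑ i ∈ s, cls n r (f i) := by
  classical
  induction s using Finset.induction_on with
  | empty => simp [cls_zero]
  | insert a s ha ih => rw [Finset.sum_insert ha, Finset.sum_insert ha, cls_add, ih]

theorem coeff_mul_ne {x z : LaurentSeries E} {j : ℤ} (h : (x * z).coeff j ≠ 0) :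
    ∃ i k, i + k = j ∧ x.coeff i ≠ 0 ∧ z.coeff k ≠ 0 := by
  obtain ⟨i, hi, k, hk, hik⟩ := HahnSeries.support_mul_subset ((HahnSeries.mem_support _ _).2 h)
  exact ⟨i, k, hik, hi, hk⟩

theorem cls_mul (n : ℕ) {p r : ℤ} {x : LaurentSeries E}
    (hx : ∀ i, x.coeff i ≠ 0 → (n : ℤ) ∣ p - i) (z : LaurentSeries E) :
    cls n r (x * z) = x * cls n (r - p) z := by
  have h1 : x * z = x * cls n (r - p) z + x * (z - cls n (r - p) z) := by ring
  have h2 : cls n r (x * cls n (r - p) z) = x * cls n (r - p) z := by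
    ext j
    rw [cls_coeff]
    split_ifs with h
    · rfl
    · by_contra h3
      obtain ⟨i, k, hik, hi, hk⟩ := coeff_mul_ne (Ne.symm h3)
      rw [cls_coeff] at hk
      have h4 : (n : ℤ) ∣ r - p - k := by
        by_contra h5
        rw [if_neg h5] at hk
        exact hk rfl
      apply h
      have h6 := dvd_add h4 (hx i hi)
      rw [← hik]
      have h7 : r - p - k + (p - i) = r - (i + k) := by ring
      rwa [h7] at h6
  have h3 : cls n r (x * (z - cls n (r - p) z)) = 0 := by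
    ext j
    rw [cls_coeff, HahnSeries.coeff_zero]
    split_ifs with h
    · by_contra h3
      obtain ⟨i, k, hik, hi, hk⟩ := coeff_mul_ne h3
      rw [HahnSeries.coeff_sub, cls_coeff] at hk
      have h4 : ¬ (n : ℤ) ∣ r - p - k := by
        intro h5
        rw [if_pos h5, sub_self] at hk
        exact hk rfl
      apply h4
      have h6 := dvd_sub h (hx i hi)
      rw [← hik] at h6
      have h7 : r - (i + k) - (p - i) = r - p - k := by ring
      rwa [h7] at h6
    · rfl
  rw [h1, cls_add, h2, h3, add_zero]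

end series

section twisted

variable {E : Type} [Field E] (σ : E ≃+* E) {n : ℕ} [NeZero n]

/-- the shift automorphism -/
noncomputable def thetaHom : Matrix (Fin n) (Fin n) (LaurentSeries E) →+*
    Matrix (Fin n) (Fin n) (LaurentSeries E) where
  toFun M := Matrix.of fun a b => sHat σ (M (a - 1) (b - 1))
  map_zero' := by
    ext a b : 1
    simp
  map_one' := by
    ext a b : 1
    by_cases h : a = b
    · subst h
      simp
    · have h2 : a - 1 ≠ b - 1 := fun h3 => h (sub_left_injective h3)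
      simp [h, h2]
  map_add' M N := by
    ext a b : 1
    simp
  map_mul' M N := by
    ext a b : 1
    simp only [Matrix.of_apply, Matrix.mul_apply, map_sum, map_mul]
    exact (Equiv.sum_comp (Equiv.subRight (1 : Fin n))
      (fun c => sHat σ (M (a - 1) c) * sHat σ (N c (b - 1)))).symm

theorem thetaHom_apply (M : Matrix (Fin n) (Fin n) (LaurentSeries E)) (a b : Fin n) :
    thetaHom σ M a b = sHat σ (M (a - 1) (b - 1)) := rfl

/-- the degree rule -/
def Deg (M : Matrix (Fin n) (Fin n) (LaurentSeries E)) : Prop :=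
  ∀ (a b : Fin n) (j : ℤ), (M a b).coeff j ≠ 0 → (n : ℤ) ∣ ((a : ℕ) : ℤ) - ((b : ℕ) : ℤ) - j

theorem isTw_iff (M : Matrix (Fin n) (Fin n) (LaurentSeries E)) :
    IsTw σ M ↔ Deg M ∧ thetaHom σ M = M := by
  constructor
  · rintro ⟨h1, h2⟩
    refine ⟨h1, ?_⟩
    ext a b : 1
    ext j
    rw [thetaHom_apply, sHat_coeff, ← h2, sub_add_cancel, sub_add_cancel]
  · rintro ⟨h1, h2⟩
    refine ⟨h1, fun a b j => ?_⟩
    have h3 : thetaHom σ M (a + 1) (b + 1) = M (a + 1) (b + 1) := by rw [h2]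
    rw [thetaHom_apply, add_sub_cancel_right, add_sub_cancel_right] at h3
    rw [← h3, sHat_coeff]

/-- keep the coefficients allowed by the degree rule -/
noncomputable def pi0 (M : Matrix (Fin n) (Fin n) (LaurentSeries E)) :
    Matrix (Fin n) (Fin n) (LaurentSeries E) :=
  Matrix.of fun a b => cls n (((a : ℕ) : ℤ) - ((b : ℕ) : ℤ)) (M a b)

theorem pi0_apply (M : Matrix (Fin n) (Fin n) (LaurentSeries E)) (a b : Fin n) :
    pi0 M a b = cls n (((a : ℕ) : ℤ) - ((b : ℕ) : ℤ)) (M a b) := rfl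

theorem deg_pi0 (M : Matrix (Fin n) (Fin n) (LaurentSeries E)) : Deg (pi0 M) := by
  intro a b j h
  rw [pi0_apply, cls_coeff] at h
  by_contra h2
  rw [if_neg h2] at h
  exact h rfl

theorem pi0_of_deg {M : Matrix (Fin n) (Fin n) (LaurentSeries E)} (hM : Deg M) : pi0 M = M := by
  ext a b : 1
  ext j
  rw [pi0_apply, cls_coeff]
  split_ifs with h
  · rfl
  · by_contra h2
    exact h (hM a b j (Ne.symm h2))

theorem pi0_mul {M : Matrix (Fin n) (Fin n) (LaurentSeries E)} (hM : Deg M)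
    (N : Matrix (Fin n) (Fin n) (LaurentSeries E)) : pi0 (M * N) = M * pi0 N := by
  ext a b : 1
  rw [pi0_apply, Matrix.mul_apply, Matrix.mul_apply, cls_sum]
  apply Finset.sum_congr rfl
  intro c _
  rw [cls_mul n (p := ((a : ℕ) : ℤ) - ((c : ℕ) : ℤ)) (hM a c), pi0_apply]
  congr 2
  ring

theorem deg_one : Deg (1 : Matrix (Fin n) (Fin n) (LaurentSeries E)) := by
  intro a b j h
  by_cases hab : a = b
  · subst hab
    rw [Matrix.one_apply_eq, HahnSeries.coeff_one] at h
    have hj : j = 0 := by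
      by_contra h2
      rw [if_neg h2] at h
      exact h rfl
    rw [hj]
    simp
  · rw [Matrix.one_apply_ne hab] at h
    exact absurd rfl h

theorem deg_mul {M N : Matrix (Fin n) (Fin n) (LaurentSeries E)} (hM : Deg M) (hN : Deg N) :
    Deg (M * N) := by
  have h := pi0_mul hM N
  rw [pi0_of_deg hN] at h
  rw [← h]
  exact deg_pi0 _

/-- the subring of twisted matrices -/
noncomputable def twRing (n : ℕ) [NeZero n] : Subring (Matrix (Fin n) (Fin n) (LaurentSeries E)) where
  carrier := {M | IsTw σ M}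
  mul_mem' := by
    intro M N hM hN
    have hM' := (isTw_iff σ M).1 hM
    have hN' := (isTw_iff σ N).1 hN
    exact (isTw_iff σ _).2 ⟨deg_mul hM'.1 hN'.1, by rw [map_mul, hM'.2, hN'.2]⟩
  one_mem' := (isTw_iff σ _).2 ⟨deg_one, map_one _⟩
  add_mem' := by
    intro M N hM hN
    have hM' := (isTw_iff σ M).1 hM
    have hN' := (isTw_iff σ N).1 hN
    refine (isTw_iff σ _).2 ⟨fun a b j h => ?_, by rw [map_add, hM'.2, hN'.2]⟩
    rw [Matrix.add_apply, HahnSeries.coeff_add] at h
    by_contra h2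
    apply h
    have h3 : (M a b).coeff j = 0 := by
      by_contra h4
      exact h2 (hM'.1 a b j h4)
    have h5 : (N a b).coeff j = 0 := by
      by_contra h4
      exact h2 (hN'.1 a b j h4)
    rw [h3, h5, add_zero]
  zero_mem' := (isTw_iff σ _).2 ⟨fun a b j h => absurd rfl h, map_zero _⟩
  neg_mem' := by
    intro M hM
    have hM' := (isTw_iff σ M).1 hM
    refine (isTw_iff σ _).2 ⟨fun a b j h => hM'.1 a b j ?_, by rw [map_neg, hM'.2]⟩
    rw [Matrix.neg_apply, HahnSeries.coeff_neg] at h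
    exact neg_ne_zero.1 h

theorem det_ne_zero {M : Matrix (Fin n) (Fin n) (LaurentSeries E)} (hM : IsTw σ M) (h0 : M ≠ 0) :
    M.det ≠ 0 := by
  classical
  set v : AddValuation (LaurentSeries E) (WithTop ℤ) := HahnSeries.addVal ℤ E with hv
  have hvx : ∀ x : LaurentSeries E, v x = x.orderTop := fun x => HahnSeries.addVal_apply
  have hdeg : ∀ a b, M a b ≠ 0 → (n : ℤ) ∣ ((a : ℕ) : ℤ) - ((b : ℕ) : ℤ) - oo v (M a b) := by
    intro a b h
    apply hM.1
    apply HahnSeries.coeff_orderTop_ne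
    rw [← hvx]
    exact oo_coe v h
  have hsucc : ∀ a b, M a b ≠ 0 → M (a + 1) (b + 1) ≠ 0 ∧
      oo v (M (a + 1) (b + 1)) = oo v (M a b) := by
    intro a b h
    have h1 : (M (a + 1) (b + 1)).orderTop = (M a b).orderTop := by
      apply ot_eq
      intro j
      rw [hM.2, ne_eq, ne_eq, map_eq_zero_iff σ σ.injective]
    refine ⟨?_, ?_⟩
    · rw [← HahnSeries.orderTop_ne_top, h1]
      exact HahnSeries.orderTop_ne_top.2 h
    · unfold oo
      rw [hvx, hvx, h1]
  have hne : ∃ p : Fin n × Fin n, M p.1 p.2 ≠ 0 := by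
    by_contra h
    push Not at h
    apply h0
    ext a b : 1
    exact h (a, b)
  obtain ⟨p0, hp0, hmin⟩ := Finset.exists_min_image
    (Finset.univ.filter fun p : Fin n × Fin n => M p.1 p.2 ≠ 0) (fun p => oo v (M p.1 p.2))
    (by
      obtain ⟨p, hp⟩ := hne
      exact ⟨p, by simpa using hp⟩)
  have hp0' : M p0.1 p0.2 ≠ 0 := by simpa using hp0
  have hmin' : ∀ a b, M a b ≠ 0 → oo v (M p0.1 p0.2) ≤ oo v (M a b) := fun a b h =>
    hmin (a, b) (by simpa using h)
  have hdiag : ∀ k : ℕ, ∀ hk : k < n, M (p0.1 + ⟨k, hk⟩) (p0.2 + ⟨k, hk⟩) ≠ 0 ∧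
      oo v (M (p0.1 + ⟨k, hk⟩) (p0.2 + ⟨k, hk⟩)) = oo v (M p0.1 p0.2) := by
    intro k
    induction k with
    | zero =>
      intro hk
      have h1 : (⟨0, hk⟩ : Fin n) = 0 := by
        ext
        simp
      rw [h1, add_zero, add_zero]
      exact ⟨hp0', rfl⟩
    | succ k ih =>
      intro hk
      obtain ⟨h1, h2⟩ := ih (Nat.lt_of_succ_lt hk)
      obtain ⟨h3, h4⟩ := hsucc _ _ h1
      have h5 : (⟨k + 1, hk⟩ : Fin n) = ⟨k, Nat.lt_of_succ_lt hk⟩ + 1 := by
        ext
        rw [Fin.val_add, Fin.val_one', Nat.add_mod_mod, Nat.mod_eq_of_lt hk]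
      rw [h5, ← add_assoc, ← add_assoc]
      exact ⟨h3, h4.trans h2⟩
  have hdiag' : ∀ i : Fin n, M (p0.1 + (i - p0.2)) i ≠ 0 ∧
      oo v (M (p0.1 + (i - p0.2)) i) = oo v (M p0.1 p0.2) := by
    intro i
    have h1 := hdiag (i - p0.2).1 (i - p0.2).2
    have h2 : p0.2 + (⟨(i - p0.2).1, (i - p0.2).2⟩ : Fin n) = i := by
      rw [Fin.eta]
      exact add_sub_cancel p0.2 i
    rw [h2, Fin.eta] at h1
    exact h1
  refine det_ne_zero_of_unique v M (oo v (M p0.1 p0.2))
    ((Equiv.subRight p0.2).trans (Equiv.addLeft p0.1)) (fun i => hdiag' i) ?_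
  intro a b hab hne2
  refine lt_of_le_of_ne (hmin' a b hab) fun h3 => hne2 ?_
  obtain ⟨h4, h5⟩ := hdiag' b
  have h6 := hdeg _ _ h4
  have h7 := hdeg _ _ hab
  rw [h5] at h6
  rw [← h3] at h7
  have h8 := dvd_sub h7 h6
  have h10 := a.2
  have h11 := (p0.1 + (b - p0.2) : Fin n).2
  have h13 : (((Equiv.subRight p0.2).trans (Equiv.addLeft p0.1)) b : Fin n) =
      p0.1 + (b - p0.2) := rfl
  apply Fin.ext
  rw [h13]
  generalize ((p0.1 + (b - p0.2) : Fin n) : ℕ) = x at h8 h11 ⊢
  have h9 : ((a : ℕ) : ℤ) - ((b : ℕ) : ℤ) - oo v (M p0.1 p0.2) -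
      (((x : ℕ) : ℤ) - ((b : ℕ) : ℤ) - oo v (M p0.1 p0.2)) =
      ((a : ℕ) : ℤ) - ((x : ℕ) : ℤ) := by ring
  rw [h9] at h8
  have h12 : ((a : ℕ) : ℤ) - ((x : ℕ) : ℤ) = 0 := by
    apply Int.eq_zero_of_abs_lt_dvd h8
    rw [abs_lt]
    constructor <;> omega
  omega

theorem inv_tw {M : Matrix (Fin n) (Fin n) (LaurentSeries E)} (hM : IsTw σ M) (h0 : M ≠ 0) :
    IsTw σ M⁻¹ ∧ M * M⁻¹ = 1 ∧ M⁻¹ * M = 1 := by
  have hu : IsUnit M.det := isUnit_iff_ne_zero.2 (det_ne_zero σ hM h0)
  have h1 := Matrix.mul_nonsing_inv M hu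
  have h2 := Matrix.nonsing_inv_mul M hu
  have hM' := (isTw_iff σ M).1 hM
  refine ⟨(isTw_iff σ _).2 ⟨?_, ?_⟩, h1, h2⟩
  · have h3 : M * pi0 M⁻¹ = 1 := by rw [← pi0_mul hM'.1, h1, pi0_of_deg deg_one]
    have h4 : M⁻¹ = pi0 M⁻¹ := by
      calc M⁻¹ = M⁻¹ * (M * pi0 M⁻¹) := by rw [h3, mul_one]
        _ = pi0 M⁻¹ := by rw [← mul_assoc, h2, one_mul]
    rw [h4]
    exact deg_pi0 _
  · have h3 : M * thetaHom σ M⁻¹ = 1 := by
      have := congrArg (thetaHom σ) h1
      rw [map_mul, map_one, hM'.2] at this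
      exact this
    calc thetaHom σ M⁻¹ = M⁻¹ * M * thetaHom σ M⁻¹ := by rw [h2, one_mul]
      _ = M⁻¹ * (M * thetaHom σ M⁻¹) := mul_assoc _ _ _
      _ = M⁻¹ := by rw [h3, mul_one]

theorem isUnit_or (x : twRing σ n) : IsUnit x ∨ x = 0 := by
  by_cases h : x = 0
  · exact Or.inr h
  · left
    have h0 : x.1 ≠ 0 := fun h2 => h (Subtype.ext h2)
    obtain ⟨h1, h2, h3⟩ := inv_tw σ x.2 h0
    exact ⟨⟨x, ⟨x.1⁻¹, h1⟩, Subtype.ext h2, Subtype.ext h3⟩, rfl⟩

end twisted

end TwistAux

theorem twist {E : Type} [Field E] (σ : E ≃+* E) (n : ℕ) [NeZero n] :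
    ∃ (K : Type) (_ : DivisionRing K) (φ : K →+* Matrix (Fin n) (Fin n) (LaurentSeries E)),
      ∀ M, (∃ x, φ x = M) ↔ IsTw σ M := by
  have : Nontrivial (TwistAux.twRing σ n) := by
    refine ⟨⟨0, 1, fun h => ?_⟩⟩
    have h1 := congrArg Subtype.val h
    have h2 : (0 : Matrix (Fin n) (Fin n) (LaurentSeries E)) = 1 := h1
    exact zero_ne_one h2
  refine ⟨TwistAux.twRing σ n, DivisionRing.ofIsUnitOrEqZero (TwistAux.isUnit_or σ),
    (TwistAux.twRing σ n).subtype, fun M => ?_⟩
  constructor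
  · rintro ⟨x, rfl⟩
    exact x.2
  · intro h
    exact ⟨⟨M, h⟩, rfl⟩

end Pool.Agent.RTB
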