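import Pool.Agent.RTB.RegCA
import Pool.Agent.RTB.Twist
import Pool.Agent.RTB.RankMul

/-!
# RTB REGC: regularity (with helper92's simplification: three parameters in the prime field)

Let `κ` be the algebraic closure of `ZMod p`, `ζ` a primitive `n`-th root of unity (`n < p`),
`E = RatFunc κ` (variable `u`), `σ` the automorphism of `E` over `κ` with `u ↦ ζ u`, `𝕃 = E((y))`. For
`x_m = kapv u ζ m ∈ E` (`ζ ^ (m i mod n) = ζ ^ (m i)`): `σ x_m = x_{m+1}` (indices modulo `n`), so
`fam X x y` (with `y` = the variable of `𝕃`) is twisted (`IsTw`), and by `twist` and `rank_mul` the rank over `𝕃`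
of `∑ B k ⊗ fam (X k) x y` is a multiple of `n`. (Or helper92's argument: the kernel is stable under a semilinear
map `φ` with `φ ^ n = y`.) At the point `u = 1`, `y = 1` we have `kapv 1 ζ m = n * [m = 0]`, so the matrix
specialises to `n * ∑ B k ⊗ X k` of rank `> r n`; specialisation does not increase the rank (a nonzero minor
stays nonzero before specialisation; the entries are polynomials in `u`, `y`), so the rank over `𝕃` is
`≥ (r + 1) n`. Hence some minor of size `(r + 1) n ≤ N n` of the matrix with three variables `u`, `v`, `y` over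
`ZMod p` is a nonzero polynomial (it is nonzero for `v = ζ`); its degree in each of `u`, `v`, `y` is at most
`N n (n - 1) < p`, so it does not vanish at some point of `(ZMod p) ^ 3`.
-/

namespace Pool.Agent.RTB

open Polynomial Matrix

/-- the matrix of the family, over an arbitrary ring -/
def GG {R : Type} [CommRing R] {p N n : ℕ} [NeZero n] (c : ℕ)
    (B : ℕ → Matrix (Fin N) (Fin N) (ZMod p)) (Y : ℕ → Matrix (Fin n) (Fin n) (ZMod p))
    (i : ZMod p →+* R) (u v y : R) : Matrix (Fin N × Fin n) (Fin N × Fin n) R :=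
  fun s t => ∑ k ∈ Finset.range c, i (B k s.1 t.1) *
    fam ((Y k).map i) (kapv u v) y s.2 t.2

section
variable {R S : Type} [CommRing R] [CommRing S] {p N n : ℕ} [NeZero n] (c : ℕ)
    (B : ℕ → Matrix (Fin N) (Fin N) (ZMod p)) (Y : ℕ → Matrix (Fin n) (Fin n) (ZMod p))

omit [NeZero n] in
theorem map_kapv (f : R →+* S) (u v : R) (m : Fin n) : f (kapv u v m) = kapv (f u) (f v) m := by
  simp [kapv, map_sum]

theorem GG_map (f : R →+* S) (i : ZMod p →+* R) (u v y : R) :
    (GG c B Y i u v y).map f = GG c B Y (f.comp i) (f u) (f v) (f y) := by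
  ext s t
  simp [GG, fam, map_sum, map_kapv]

theorem GG_det (f : R →+* S) (i : ZMod p →+* R) (u v y : R) {k : ℕ} (a : Fin k → Fin N × Fin n)
    (b : Fin k → Fin N × Fin n) :
    f ((GG c B Y i u v y).submatrix a b).det =
      ((GG c B Y (f.comp i) (f u) (f v) (f y)).submatrix a b).det := by
  rw [← GG_map, RingHom.map_det]
  rfl

theorem GG_y (i : ZMod p →+* R) (u v y : R) (s t : Fin N × Fin n) :
    GG c B Y i u v y s t = y ^ ((s.2 - t.2 : Fin n) : ℕ) * GG c B Y i u v 1 s t := by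
  simp only [GG, fam, one_pow, one_mul, Finset.mul_sum]
  refine Finset.sum_congr rfl fun k _ => Finset.sum_congr rfl fun a _ => ?_
  ring

omit [NeZero n] in
theorem pow_mod_n {ζ : R} (hζ : ζ ^ n = 1) (a : ℕ) : ζ ^ (a % n) = ζ ^ a := by
  conv_rhs => rw [← Nat.div_add_mod a n, pow_add, pow_mul, hζ, one_pow, one_mul]

theorem kapv_shift {ζ : R} (hζ : ζ ^ n = 1) (u : R) (m : Fin n) :
    kapv (ζ * u) ζ m = kapv u ζ (m + 1) := by
  unfold kapv
  refine Finset.sum_congr rfl fun i _ => ?_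
  have h1 : ((m + 1 : Fin n) : ℕ) = ((m : ℕ) + 1) % n := by
    rw [Fin.val_add, Fin.val_one', Nat.add_mod_mod]
  have h2 : ζ ^ ((((m : ℕ) + 1) % n) * (i : ℕ)) = ζ ^ (((m : ℕ) + 1) * (i : ℕ)) := by
    rw [pow_mul, pow_mul, pow_mod_n hζ]
  rw [pow_mod_n hζ, pow_mod_n hζ, h1, h2, mul_pow, Nat.add_mul, one_mul, pow_add]
  ring

theorem GG_shift (i : ZMod p →+* R) {ζ : R} (hζ : ζ ^ n = 1) (u : R) (σ : R →+* R)
    (h1 : σ.comp i = i) (h2 : σ ζ = ζ) (h3 : σ u = ζ * u) (s t : Fin N) (a b : Fin n) :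
    GG c B Y i u ζ 1 (s, a + 1) (t, b + 1) = σ (GG c B Y i u ζ 1 (s, a) (t, b)) := by
  have h4 : σ (GG c B Y i u ζ 1 (s, a) (t, b)) =
      ((GG c B Y i u ζ 1).map σ) (s, a) (t, b) := rfl
  rw [h4, GG_map, h1, h2, h3, map_one]
  simp only [GG, fam]
  refine Finset.sum_congr rfl fun k _ => ?_
  have e1 : a + 1 - (b + 1) = a - b := by abel
  rw [e1]
  congr 2
  refine Finset.sum_congr rfl fun a' _ => ?_
  rw [kapv_shift hζ]
  have e2 : a + 1 - a' = a - a' + 1 := by abel
  rw [e2]

end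

section point
variable {κ : Type} [Field κ] {p N n : ℕ} [Fact p.Prime] [NeZero n] (c : ℕ)
    (B : ℕ → Matrix (Fin N) (Fin N) (ZMod p)) (Y : ℕ → Matrix (Fin n) (Fin n) (ZMod p))

theorem kapv_one {ζ : κ} (hζ : IsPrimitiveRoot ζ n) (m : Fin n) :
    kapv 1 ζ m = if m = 0 then (n : κ) else 0 := by
  unfold kapv
  split_ifs with h
  · subst h
    simp
  · have h1 : ζ ^ (m : ℕ) ≠ 1 := by
      intro h2
      have h3 := (hζ.pow_eq_one_iff_dvd _).1 h2
      have h4 := Nat.eq_zero_of_dvd_of_lt h3 m.2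
      apply h
      ext
      simpa using h4
    have h2 : ∑ i : Fin n, (ζ ^ (m : ℕ)) ^ (i : ℕ) = 0 := by
      rw [Fin.sum_univ_eq_sum_range (fun i => (ζ ^ (m : ℕ)) ^ i) n]
      have h3 := geom_sum_mul (ζ ^ (m : ℕ)) n
      have h4 : (ζ ^ (m : ℕ)) ^ n = 1 := by
        rw [← pow_mul, mul_comm, pow_mul, hζ.pow_eq_one, one_pow]
      rw [h4, sub_self] at h3
      exact (mul_eq_zero.1 h3).resolve_right (sub_ne_zero.2 h1)
    rw [← h2]
    refine Finset.sum_congr rfl fun i _ => ?_
    rw [one_pow, one_mul, pow_mod_n hζ.pow_eq_one, pow_mul]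

theorem GG_one {ζ : κ} (hζ : IsPrimitiveRoot ζ n) (i : ZMod p →+* κ) :
    GG c B Y i 1 ζ 1 = (n : κ) • (kr c B Y).map i := by
  ext s t
  simp only [GG, fam, Matrix.smul_apply, Matrix.map_apply, kr, Matrix.sum_apply,
    Matrix.kroneckerMap_apply, map_sum, map_mul, smul_eq_mul, Finset.mul_sum, one_pow, one_mul]
  refine Finset.sum_congr rfl fun k _ => ?_
  rw [Finset.sum_eq_single s.2]
  · rw [kapv_one hζ]
    simp
    ring
  · intro b _ hb
    rw [kapv_one hζ, if_neg, mul_zero, mul_zero]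
    rw [sub_eq_zero]
    exact fun h => hb h.symm
  · simp

/-- the minor at the point `(1, 1)` -/
theorem GG_point {ζ : κ} (hζ : IsPrimitiveRoot ζ n) (i : ZMod p →+* κ) (hn : (n : κ) ≠ 0) {k : ℕ}
    (hk : k ≤ (kr c B Y).rank) : ∃ (a b : Fin k → Fin N × Fin n),
      ((GG c B Y i 1 ζ 1).submatrix a b).det ≠ 0 := by
  obtain ⟨a, b, h⟩ := regc_minor _ hk
  refine ⟨a, b, ?_⟩
  rw [GG_one c B Y hζ i]
  have h1 : ((n : κ) • (kr c B Y).map i).submatrix a b =
      (n : κ) • (((kr c B Y).submatrix a b).map i) := by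
    ext u v
    simp
  rw [h1, Matrix.det_smul]
  refine mul_ne_zero (pow_ne_zero _ hn) ?_
  have h2 : (((kr c B Y).submatrix a b).map i).det =
      i ((kr c B Y).submatrix a b).det := by
    rw [RingHom.map_det]; rfl
  rw [h2]
  exact fun h3 => h (i.injective (by rw [h3, map_zero]))

end point

section big
variable {κ : Type} [Field κ]

/-- `κ[w][y] → κ(w)((y))` -/
noncomputable def emb : κ[X][X] →+* LaurentSeries (RatFunc κ) :=
  (HahnSeries.ofPowerSeries ℤ (RatFunc κ)).comp
    ((Polynomial.coeToPowerSeries.ringHom).comp (mapRingHom (algebraMap κ[X] (RatFunc κ))))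

theorem emb_inj : Function.Injective (emb (κ := κ)) := by
  unfold emb
  rw [RingHom.coe_comp, RingHom.coe_comp]
  refine HahnSeries.ofPowerSeries_injective.comp (Function.Injective.comp ?_ ?_)
  · exact Polynomial.coe_injective _
  · exact map_injective _ (IsFractionRing.injective _ _)

theorem emb_C (z : κ[X]) : emb (C z) = HahnSeries.C (algebraMap κ[X] (RatFunc κ) z) := by
  simp only [emb, RingHom.comp_apply, coe_mapRingHom, map_C, coeToPowerSeries.ringHom_apply,
    coe_C, HahnSeries.ofPowerSeries_C]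

theorem emb_X : emb (κ := κ) X = HahnSeries.single 1 1 := by
  simp only [emb, RingHom.comp_apply, coe_mapRingHom, map_X, coeToPowerSeries.ringHom_apply,
    coe_X, HahnSeries.ofPowerSeries_X]

/-- the automorphism `w ↦ ζ w` -/
theorem exists_sigma {ζ : κ} (hζ : ζ ≠ 0) : ∃ σ : RatFunc κ ≃+* RatFunc κ,
    (∀ a : κ, σ (algebraMap κ[X] (RatFunc κ) (C a)) = algebraMap κ[X] (RatFunc κ) (C a)) ∧
    σ (algebraMap κ[X] (RatFunc κ) X) = algebraMap κ[X] (RatFunc κ) (C ζ * X) := by
  let _ := invertibleOfNonzero hζ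
  let e : κ[X] ≃+* κ[X] := (algEquivCMulXAddC ζ 0).toRingEquiv
  have he1 : ∀ a, e (C a) = C a := fun a => by simp [e]
  have he2 : e X = C ζ * X := by simp [e]
  refine ⟨IsFractionRing.ringEquivOfRingEquiv e, fun a => ?_, ?_⟩
  · rw [IsFractionRing.ringEquivOfRingEquiv_algebraMap, he1]
  · rw [IsFractionRing.ringEquivOfRingEquiv_algebraMap, he2]

/-- the blocks are twisted -/
theorem GG_tw {p N n : ℕ} [NeZero n] (c : ℕ)
    (B : ℕ → Matrix (Fin N) (Fin N) (ZMod p)) (Y : ℕ → Matrix (Fin n) (Fin n) (ZMod p))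
    (i : ZMod p →+* κ) {ζ : κ} (hζ : ζ ^ n = 1) (σ : RatFunc κ ≃+* RatFunc κ)
    (h1 : ∀ a : κ, σ (algebraMap κ[X] (RatFunc κ) (C a)) = algebraMap κ[X] (RatFunc κ) (C a))
    (h2 : σ (algebraMap κ[X] (RatFunc κ) X) = algebraMap κ[X] (RatFunc κ) (C ζ * X))
    (s t : Fin N) :
    IsTw σ (Matrix.of fun a b => GG c B Y (emb.comp (C.comp (C.comp i))) (emb (C X))
      (emb (C (C ζ))) (emb X) (s, a) (t, b)) := by
  set iE : ZMod p →+* RatFunc κ := (algebraMap κ[X] (RatFunc κ)).comp (C.comp i) with hiE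
  set ζE : RatFunc κ := algebraMap κ[X] (RatFunc κ) (C ζ) with hζE
  set wE : RatFunc κ := algebraMap κ[X] (RatFunc κ) X with hwE
  have e1 : (emb.comp (C.comp (C.comp i)) : ZMod p →+* LaurentSeries (RatFunc κ)) =
      HahnSeries.C.comp iE := RingHom.ext fun z => emb_C (C (i z))
  have key : ∀ a b : Fin n, GG c B Y (emb.comp (C.comp (C.comp i))) (emb (C X))
      (emb (C (C ζ))) (emb X) (s, a) (t, b) =
      HahnSeries.single (((a - b : Fin n) : ℕ) : ℤ) (GG c B Y iE wE ζE 1 (s, a) (t, b)) := by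
    intro a b
    have e2 : HahnSeries.C (GG c B Y iE wE ζE 1 (s, a) (t, b)) =
        ((GG c B Y iE wE ζE 1).map (HahnSeries.C : RatFunc κ →+* LaurentSeries (RatFunc κ)))
          (s, a) (t, b) := rfl
    have e3 : HahnSeries.single (((a - b : Fin n) : ℕ) : ℤ) (GG c B Y iE wE ζE 1 (s, a) (t, b)) =
        (HahnSeries.single (1 : ℤ) (1 : RatFunc κ)) ^ ((a - b : Fin n) : ℕ) *
          HahnSeries.C (GG c B Y iE wE ζE 1 (s, a) (t, b)) := by
      rw [HahnSeries.single_pow, HahnSeries.C_apply, HahnSeries.single_mul_single]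
      simp
    have e5 : (HahnSeries.C : RatFunc κ →+* LaurentSeries (RatFunc κ)) 1 = 1 := map_one _
    rw [e3, e2, GG_map, GG_y, emb_C, emb_C, emb_X, e1, e5]
  constructor
  · intro a b j hj
    rw [Matrix.of_apply, key, HahnSeries.coeff_single] at hj
    have hj' : j = (((a - b : Fin n) : ℕ) : ℤ) := by
      by_contra hc
      rw [if_neg hc] at hj
      exact hj rfl
    rw [hj', Fin.val_sub]
    have h3 : (((n - (b : ℕ) + (a : ℕ)) % n : ℕ) : ℤ) = (n - (b : ℕ) + (a : ℕ) : ℤ) % n := by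
      have := b.2
      push_cast [Nat.cast_sub this.le]
      rfl
    rw [h3]
    have h4 := Int.emod_add_mul_ediv (n - (b : ℕ) + (a : ℕ) : ℤ) n
    refine ⟨(n - (b : ℕ) + (a : ℕ) : ℤ) / n - 1, ?_⟩
    linarith
  · intro a b j
    rw [Matrix.of_apply, Matrix.of_apply, key, key, HahnSeries.coeff_single,
      HahnSeries.coeff_single]
    have e4 : a + 1 - (b + 1) = a - b := by abel
    rw [e4]
    split_ifs with hj
    · refine GG_shift c B Y iE ?_ wE (σ : RatFunc κ →+* RatFunc κ) ?_ ?_ ?_ s t a b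
      · rw [hζE, ← map_pow, ← C_pow, hζ]; simp
      · exact RingHom.ext fun z => h1 (i z)
      · exact h1 ζ
      · rw [hζE, hwE, ← map_mul]; exact h2
    · exact (map_zero σ).symm

/-- the rank over the big field is divisible by `n` -/
theorem GG_dvd {p N n : ℕ} [NeZero n] (c : ℕ)
    (B : ℕ → Matrix (Fin N) (Fin N) (ZMod p)) (Y : ℕ → Matrix (Fin n) (Fin n) (ZMod p))
    (i : ZMod p →+* κ) {ζ : κ} (hζ : ζ ^ n = 1) :
    n ∣ (GG c B Y (emb.comp (C.comp (C.comp i))) (emb (C X)) (emb (C (C ζ))) (emb X)).rank := by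
  have hζ0 : ζ ≠ 0 := by
    intro h
    rw [h, zero_pow (NeZero.ne n)] at hζ
    exact zero_ne_one hζ
  obtain ⟨σ, h1, h2⟩ := exists_sigma hζ0
  obtain ⟨K, _, φ, hφ⟩ := twist σ n
  have h3 : ∀ s t : Fin N, ∃ x, φ x = (Matrix.of fun a b => GG c B Y (emb.comp (C.comp (C.comp i)))
      (emb (C X)) (emb (C (C ζ))) (emb X) (s, a) (t, b)) := fun s t =>
    (hφ _).2 (GG_tw c B Y i hζ σ h1 h2 s t)
  choose Z hZ using h3
  have h4 := rank_mul φ (Matrix.of Z)
  have h5 : phm φ (Matrix.of Z) = GG c B Y (emb.comp (C.comp (C.comp i)))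
      (emb (C X)) (emb (C (C ζ))) (emb X) := by
    ext s t
    simp only [phm, Matrix.of_apply, hZ]
  rwa [h5] at h4

end big

section deg
variable {R : Type} [CommRing R] [Nontrivial R] {p N n : ℕ} [NeZero n] (c : ℕ)
    (B : ℕ → Matrix (Fin N) (Fin N) (ZMod p)) (Y : ℕ → Matrix (Fin n) (Fin n) (ZMod p))

omit [NeZero n] in
theorem BD.kapv (v : R) (m : Fin n) :
    BD (n - 1) 0 (kapv (C X : R[X][X]) (C (C v)) m) := by
  unfold RTB.kapv
  apply BD.sum
  intro i _
  have h1 : (C X : R[X][X]) ^ (i : ℕ) * C (C v) ^ ((m : ℕ) * (i : ℕ) % n) =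
      C (X ^ (i : ℕ) * C (v ^ ((m : ℕ) * (i : ℕ) % n))) := by
    simp only [C_mul, C_pow]
  rw [h1]
  refine ⟨(natDegree_C _).le, fun j => ?_⟩
  rw [coeff_C]
  split_ifs
  · refine (natDegree_mul_C_le _ _).trans ?_
    rw [natDegree_X_pow]
    have := i.2
    omega
  · simp

theorem GG_bd (i : ZMod p →+* R) (v : R) (s t : Fin N × Fin n) :
    BD (n - 1) (n - 1) (GG c B Y (C.comp (C.comp i)) (C X) (C (C v)) X s t) := by
  unfold GG fam
  apply BD.sum
  intro k _
  have h1 : BD 0 0 ((C.comp (C.comp i)) (B k s.1 t.1)) := BD.cc _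
  have h2 : BD 0 (n - 1) ((X : R[X][X]) ^ ((s.2 - t.2 : Fin n) : ℕ)) := by
    refine ⟨?_, fun j => ?_⟩
    · rw [natDegree_X_pow]
      have := (s.2 - t.2).2
      omega
    · rw [coeff_X_pow]
      split_ifs <;> simp
  have h3 : BD (n - 1) 0 (∑ a', ((Y k).map (C.comp (C.comp i))) a' (a' - (s.2 - t.2)) *
      RTB.kapv (C X : R[X][X]) (C (C v)) (s.2 - a')) := by
    apply BD.sum
    intro a' _
    have h4 : BD 0 0 (((Y k).map (C.comp (C.comp i))) a' (a' - (s.2 - t.2))) := BD.cc _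
    simpa using h4.mul (BD.kapv v (s.2 - a'))
  simpa using h1.mul (h2.mul h3)

/-- the degree in the third variable -/
theorem GG_deg (i : ZMod p →+* R) (u y : R) (s t : Fin N × Fin n) :
    (GG c B Y (C.comp i) (C u) X (C y) s t).natDegree ≤ n - 1 := by
  unfold GG fam
  refine natDegree_sum_le_of_forall_le _ _ fun k _ => ?_
  refine (natDegree_C_mul_le _ _).trans ?_
  rw [← C_pow]
  refine (natDegree_C_mul_le _ _).trans ?_
  refine natDegree_sum_le_of_forall_le _ _ fun a' _ => ?_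
  refine (natDegree_C_mul_le _ _).trans ?_
  unfold RTB.kapv
  refine natDegree_sum_le_of_forall_le _ _ fun j _ => ?_
  rw [← C_pow]
  refine (natDegree_C_mul_le _ _).trans ?_
  rw [natDegree_X_pow]
  have := Nat.mod_lt ((s.2 - a' : Fin n) * j : ℕ) (Nat.pos_of_ne_zero (NeZero.ne n))
  omega

end deg

theorem det_deg {R : Type} [CommRing R] {k d : ℕ} (M : Matrix (Fin k) (Fin k) R[X])
    (h : ∀ i j, (M i j).natDegree ≤ d) : M.det.natDegree ≤ k * d := by
  rw [Matrix.det_apply]
  refine natDegree_sum_le_of_forall_le _ _ fun σ _ => ?_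
  have h1 : (∏ i, M (σ i) i).natDegree ≤ k * d := by
    refine (natDegree_prod_le _ _).trans ?_
    refine (Finset.sum_le_card_nsmul _ _ d fun i _ => h _ _).trans ?_
    simp
  rcases Int.units_eq_one_or (Equiv.Perm.sign σ) with h2 | h2
  · rw [h2, one_smul]; exact h1
  · rw [h2, Units.neg_smul, one_smul, natDegree_neg]; exact h1

theorem reg_exists {p : ℕ} [Fact p.Prime] {N n : ℕ} [NeZero n] (hp : N * n ^ 2 < p) (c : ℕ)
    (B : ℕ → Matrix (Fin N) (Fin N) (ZMod p)) (X : ℕ → Matrix (Fin n) (Fin n) (ZMod p)) (r : ℕ)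
    (hr : r * n < (kr c B X).rank) :
    ∃ u v y : ZMod p, (r + 1) * n ≤ (kr c B fun k => fam (X k) (kapv u v) y).rank := by
  classical
  set κ := AlgebraicClosure (ZMod p) with hκ
  let i : ZMod p →+* κ := algebraMap (ZMod p) κ
  have hn0 : 0 < n := Nat.pos_of_ne_zero (NeZero.ne n)
  have hN : 0 < N := by
    have h1 := (Matrix.rank_le_card_height (kr c B X))
    have h2 : 0 < Fintype.card (Fin N × Fin n) := lt_of_le_of_lt (Nat.zero_le _) (hr.trans_le h1)
    simp only [Fintype.card_prod, Fintype.card_fin] at h2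
    exact Nat.pos_of_mul_pos_right h2
  have hnp : n < p := by
    refine lt_of_le_of_lt ?_ hp
    calc n ≤ n ^ 2 := Nat.le_self_pow (by norm_num) n
      _ ≤ N * n ^ 2 := Nat.le_mul_of_pos_left _ hN
  have : CharP κ p := charP_of_injective_algebraMap (algebraMap (ZMod p) κ).injective p
  have hn : (n : κ) ≠ 0 := by
    intro h
    rw [CharP.cast_eq_zero_iff κ p] at h
    exact absurd (Nat.le_of_dvd hn0 h) (not_le.2 hnp)
  have : NeZero (n : κ) := ⟨hn⟩
  obtain ⟨ζ, hζ⟩ := HasEnoughRootsOfUnity.exists_primitiveRoot κ n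
  -- a minor of size `r n + 1` at the point `(1, 1)`
  obtain ⟨a, b, hab⟩ := GG_point c B X hζ i hn (k := r * n + 1) hr
  have e0 : ∀ w y : κ, (ev2 w y).comp (C.comp (C.comp i)) = i := fun w y =>
    RingHom.ext fun z => ev2_cc w y (i z)
  have h1 : ((GG c B X (C.comp (C.comp i)) (C Polynomial.X) (C (C ζ)) Polynomial.X).submatrix
      a b).det ≠ 0 := by
    intro h
    apply hab
    have h2 := GG_det c B X (ev2 (1 : κ) 1) (C.comp (C.comp i)) (C Polynomial.X) (C (C ζ))
      Polynomial.X a b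
    rw [h, map_zero, e0, ev2_cc, ev2_w, ev2_y] at h2
    exact h2.symm
  -- the big field
  have h3 : r * n + 1 ≤ (GG c B X (emb.comp (C.comp (C.comp i))) (emb (C Polynomial.X))
      (emb (C (C ζ))) (emb Polynomial.X)).rank := by
    refine regc_le_rank (f := a) (g := b) ?_
    rw [← GG_det]
    exact fun h => h1 (emb_inj (by rw [h, map_zero]))
  obtain ⟨q, hq⟩ := GG_dvd c B X i hζ.pow_eq_one
  have h4 : (r + 1) * n ≤ (GG c B X (emb.comp (C.comp (C.comp i))) (emb (C Polynomial.X))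
      (emb (C (C ζ))) (emb Polynomial.X)).rank := by
    rw [hq] at h3 ⊢
    have h5 : r < q := by
      by_contra hc
      push Not at hc
      have := Nat.mul_le_mul_left n hc
      rw [mul_comm r n] at h3
      omega
    rw [mul_comm]
    exact Nat.mul_le_mul_left n h5
  obtain ⟨f, g, hfg⟩ := regc_minor _ h4
  have h6 : (r + 1) * n ≤ N * n := by
    refine h4.trans ?_
    refine (Matrix.rank_le_card_height _).trans ?_
    simp
  have h7 : (r + 1) * n * (n - 1) < p := by
    refine lt_of_le_of_lt ?_ hp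
    calc (r + 1) * n * (n - 1) ≤ N * n * n := Nat.mul_le_mul h6 (Nat.sub_le _ _)
      _ = N * n ^ 2 := by ring
  -- the polynomial in three variables
  let i3 : ZMod p →+* Polynomial (Polynomial (Polynomial (ZMod p))) := C.comp (C.comp C)
  set Q := ((GG (R := Polynomial (Polynomial (Polynomial (ZMod p)))) c B X i3 (C Polynomial.X)
    (C (C Polynomial.X)) Polynomial.X).submatrix f g).det with hQ
  have hQ0 : Q ≠ 0 := by
    intro h
    let θ : Polynomial (ZMod p) →+* κ := eval₂RingHom i ζ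
    have h8 := GG_det (R := Polynomial (Polynomial (Polynomial (ZMod p)))) c B X
      (mapRingHom (mapRingHom θ)) i3 (C Polynomial.X) (C (C Polynomial.X)) Polynomial.X f g
    rw [← hQ, h, map_zero] at h8
    have e3 : (mapRingHom (mapRingHom θ)).comp i3 = C.comp (C.comp i) :=
      RingHom.ext fun z => by simp [i3, θ]
    have e4 : mapRingHom (mapRingHom θ) (C Polynomial.X) = C Polynomial.X := by simp
    have e5 : mapRingHom (mapRingHom θ) (C (C Polynomial.X)) = C (C ζ) := by simp [θ]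
    have e6 : mapRingHom (mapRingHom θ) Polynomial.X = Polynomial.X := by simp
    rw [e3, e4, e5, e6] at h8
    rw [← GG_det, ← h8, map_zero] at hfg
    exact hfg rfl
  have hQd : BD ((r + 1) * n * (n - 1)) ((r + 1) * n * (n - 1)) Q :=
    BD.det _ fun s t => GG_bd c B X C Polynomial.X _ _
  obtain ⟨u, y, huy⟩ := bd_point (fun z : ZMod p => (C z : Polynomial (ZMod p)))
    C_injective hQd hQ0 (by rw [ZMod.card]; exact h7) (by rw [ZMod.card]; exact h7)
  have e7 : ev2 (C u) (C y) Q =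
      ((GG c B X C (C u) Polynomial.X (C y)).submatrix f g).det := by
    rw [hQ, GG_det, ev2_cc, ev2_w, ev2_y]
    congr 3
    exact RingHom.ext fun z => by simp [i3, ev2]
  have h8 : (ev2 (C u) (C y) Q).natDegree < Fintype.card (ZMod p) := by
    rw [e7, ZMod.card]
    exact lt_of_le_of_lt (det_deg _ fun s t => GG_deg c B X (RingHom.id _) u y _ _) h7
  have h9 : ∃ v : ZMod p, (ev2 (C u) (C y) Q).eval v ≠ 0 := by
    by_contra hc
    push Not at hc
    exact huy (eq_zero_of_natDegree_lt_card_of_eval_eq_zero _ Function.injective_id hc h8)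
  obtain ⟨v, hv⟩ := h9
  refine ⟨u, v, y, ?_⟩
  rw [e7] at hv
  have h10 := GG_det c B X (evalRingHom v) C (C u) Polynomial.X (C y) f g
  rw [coe_evalRingHom] at h10
  rw [h10, eval_C, eval_C, eval_X] at hv
  have h11 := regc_le_rank hv
  have e8 : GG c B X ((evalRingHom v).comp C) u v y = kr c B fun k => fam (X k) (kapv u v) y := by
    have : (evalRingHom v).comp C = RingHom.id (ZMod p) := RingHom.ext fun z => by simp
    rw [this]
    ext s t
    simp only [kr, GG, Matrix.sum_apply, Matrix.kroneckerMap_apply, RingHom.id_apply]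
    rfl
  rw [← e8]
  exact h11

end Pool.Agent.RTB
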