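import Pool.Agent.RTB.RegDefs

/-!
# RTB REGC, part A: minors, degrees of determinants in two variables
-/

namespace Pool.Agent.RTB

open Polynomial Matrix

theorem regc_cols {F : Type} [Field F] {m n : Type} [Fintype m] [Fintype n] (A : Matrix m n F)
    {k : ℕ} (hk : k ≤ A.rank) : ∃ g : Fin k → n, LinearIndependent F (fun i => A.col (g i)) := by
  obtain ⟨ι, a, ha, hsp, hli⟩ := exists_linearIndependent' F A.col
  have : Finite ι := Finite.of_injective a ha
  let _ := Fintype.ofFinite ι
  have hc : Fintype.card ι = A.rank := by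
    rw [A.rank_eq_finrank_span_cols, ← hsp, finrank_span_eq_card hli]
  let e : Fin A.rank ≃ ι := (Fintype.equivFinOfCardEq hc).symm
  refine ⟨fun i => a (e (Fin.castLE hk i)), ?_⟩
  exact hli.comp (fun i => e (Fin.castLE hk i))
    (e.injective.comp (Fin.castLE_injective hk))

theorem regc_minor {F : Type} [Field F] {m n : Type} [Fintype m] [Fintype n] (A : Matrix m n F)
    {k : ℕ} (hk : k ≤ A.rank) :
    ∃ (f : Fin k → m) (g : Fin k → n), (A.submatrix f g).det ≠ 0 := by
  obtain ⟨g, hg⟩ := regc_cols A hk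
  have h1 : ((A.submatrix id g)ᵀ).rank = k := by
    have h2 : LinearIndependent F ((A.submatrix id g)ᵀ).row := hg
    rw [h2.rank_matrix, Fintype.card_fin]
  rw [Matrix.rank_transpose] at h1
  have h3 : k ≤ ((A.submatrix id g)ᵀ).rank := by rw [Matrix.rank_transpose, h1]
  obtain ⟨f, hf⟩ := regc_cols ((A.submatrix id g)ᵀ) h3
  refine ⟨f, g, ?_⟩
  have h4 : LinearIndependent F (A.submatrix f g).row := hf
  have h5 := linearIndependent_rows_iff_isUnit.1 h4
  exact ((Matrix.isUnit_iff_isUnit_det _).1 h5).ne_zero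

theorem regc_le_rank {F : Type} [Field F] {m n : Type} [Fintype m] [Fintype n]
    {A : Matrix m n F} {k : ℕ} {f : Fin k → m} {g : Fin k → n} (h : (A.submatrix f g).det ≠ 0) :
    k ≤ A.rank := by
  have h1 : IsUnit (A.submatrix f g) :=
    (Matrix.isUnit_iff_isUnit_det _).2 (isUnit_iff_ne_zero.2 h)
  have h2 := Matrix.rank_of_isUnit _ h1
  rw [Fintype.card_fin] at h2
  rw [← h2]
  exact Matrix.rank_submatrix_le _ _ _

/-- degrees in the two variables -/
def BD {R : Type} [CommRing R] (a b : ℕ) (Q : R[X][X]) : Prop :=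
  Q.natDegree ≤ b ∧ ∀ j, (Q.coeff j).natDegree ≤ a

section BD
variable {R : Type} [CommRing R]

theorem BD.mono {a b a' b' : ℕ} {Q : R[X][X]} (h : BD a b Q) (ha : a ≤ a') (hb : b ≤ b') :
    BD a' b' Q := ⟨h.1.trans hb, fun j => (h.2 j).trans ha⟩

theorem BD.mul {a b a' b' : ℕ} {P Q : R[X][X]} (h : BD a b P) (h' : BD a' b' Q) :
    BD (a + a') (b + b') (P * Q) := by
  refine ⟨natDegree_mul_le_of_le h.1 h'.1, fun j => ?_⟩
  rw [coeff_mul]
  exact natDegree_sum_le_of_forall_le _ _ fun x _ => natDegree_mul_le_of_le (h.2 _) (h'.2 _)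

theorem BD.sum {a b : ℕ} {ι : Type} (s : Finset ι) (f : ι → R[X][X])
    (h : ∀ i ∈ s, BD a b (f i)) : BD a b (∑ i ∈ s, f i) := by
  refine ⟨natDegree_sum_le_of_forall_le _ _ fun i hi => (h i hi).1, fun j => ?_⟩
  rw [finsetSum_coeff]
  exact natDegree_sum_le_of_forall_le _ _ fun x hx => (h x hx).2 j

theorem BD.one {a b : ℕ} : BD a b (1 : R[X][X]) := by
  refine ⟨by simp, fun j => ?_⟩
  rw [coeff_one]
  split_ifs <;> simp

theorem BD.prod {a b : ℕ} {ι : Type} (s : Finset ι) (f : ι → R[X][X])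
    (h : ∀ i ∈ s, BD a b (f i)) : BD (s.card * a) (s.card * b) (∏ i ∈ s, f i) := by
  classical
  induction s using Finset.induction_on with
  | empty => simpa using BD.one
  | insert x s hx ih =>
    rw [Finset.prod_insert hx, Finset.card_insert_of_notMem hx]
    have h1 := (h x (Finset.mem_insert_self _ _)).mul
      (ih fun i hi => h i (Finset.mem_insert_of_mem hi))
    exact h1.mono (by ring_nf; exact le_refl _) (by ring_nf; exact le_refl _)

theorem BD.neg {a b : ℕ} {Q : R[X][X]} (h : BD a b Q) : BD a b (-Q) :=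
  ⟨by rw [natDegree_neg]; exact h.1, fun j => by rw [coeff_neg, natDegree_neg]; exact h.2 j⟩

theorem BD.det {a b k : ℕ} (M : Matrix (Fin k) (Fin k) R[X][X]) (h : ∀ i j, BD a b (M i j)) :
    BD (k * a) (k * b) M.det := by
  rw [Matrix.det_apply]
  apply BD.sum
  intro σ _
  have h1 : BD (k * a) (k * b) (∏ i, M (σ i) i) := by
    have := BD.prod (a := a) (b := b) Finset.univ (fun i => M (σ i) i) fun i _ => h _ _
    simpa using this
  rcases Int.units_eq_one_or (Equiv.Perm.sign σ) with h2 | h2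
  · rw [h2, one_smul]; exact h1
  · rw [h2, Units.neg_smul, one_smul]; exact h1.neg

theorem BD.cc {a b : ℕ} (r : R) : BD a b (C (C r)) := by
  refine ⟨by simp, fun j => ?_⟩
  rw [coeff_C]
  split_ifs <;> simp

end BD

/-- evaluation at a point -/
noncomputable def ev2 {R : Type} [CommRing R] (w y : R) : R[X][X] →+* R :=
  (evalRingHom y).comp (mapRingHom (evalRingHom w))

theorem ev2_cc {R : Type} [CommRing R] (w y r : R) : ev2 w y (C (C r)) = r := by
  simp [ev2]

theorem ev2_w {R : Type} [CommRing R] (w y : R) : ev2 w y (C X) = w := by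
  simp [ev2]

theorem ev2_y {R : Type} [CommRing R] (w y : R) : ev2 w y X = y := by
  simp [ev2]

/-- a nonzero polynomial in two variables does not vanish at all points of a large grid -/
theorem bd_point {R : Type} [CommRing R] [IsDomain R] {ι : Type} [Fintype ι] (f : ι → R)
    (hf : Function.Injective f) {a b : ℕ} {Q : R[X][X]} (hQ : BD a b Q) (h0 : Q ≠ 0)
    (ha : a < Fintype.card ι) (hb : b < Fintype.card ι) : ∃ u v, ev2 (f u) (f v) Q ≠ 0 := by
  have h1 : Q.leadingCoeff ≠ 0 := leadingCoeff_ne_zero.2 h0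
  have h2 : ∃ u, Q.leadingCoeff.eval (f u) ≠ 0 := by
    by_contra hc
    push Not at hc
    exact h1 (eq_zero_of_natDegree_lt_card_of_eval_eq_zero _ hf hc
      (lt_of_le_of_lt (hQ.2 _) ha))
  obtain ⟨u, hu⟩ := h2
  have h3 : Q.map (evalRingHom (f u)) ≠ 0 := by
    intro h
    apply hu
    have := congrArg (fun P => P.coeff Q.natDegree) h
    simpa [coeff_map] using this
  have h4 : (Q.map (evalRingHom (f u))).natDegree < Fintype.card ι :=
    lt_of_le_of_lt (natDegree_map_le.trans hQ.1) hb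
  by_contra hc
  push Not at hc
  exact h3 (eq_zero_of_natDegree_lt_card_of_eval_eq_zero _ hf (fun v => hc u v) h4)

end Pool.Agent.RTB
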