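import Pool.Agent.RTB.Sem
import Pool.Agent.RTB.RegC
import Pool.Agent.RTB.DelR

/-!
# RTB REGX: the big matrix, regularity and deletion at the level of lists
-/

set_option autoImplicit false

namespace Pool.Agent.RTB

variable {p : ℕ}

/-- **semantics of the big matrix** -/
theorem toM2_bigA (N d : ℕ) (Bs Xs : List (List (List ℕ))) (h : Xs.length = Bs.length) :
    toM2 p N d (bigA p N d Bs Xs) = kr Bs.length (mB p N Bs) (mB p d Xs) := by
  ext x y
  rw [bigA, toM2_mkK, entA, ZMod.natCast_mod, zipsum_eq Bs Xs h, kr, Matrix.sum_apply, Nat.cast_sum]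
  refine Finset.sum_congr rfl fun k _ => ?_
  rw [Nat.cast_mul]
  rfl

/-- **rank of the big matrix** -/
theorem rkL_bigA [Fact p.Prime] (N d : ℕ) (Bs Xs : List (List (List ℕ)))
    (h : Xs.length = Bs.length) :
    rkL p (N * d) (N * d) (bigA p N d Bs Xs) = (kr Bs.length (mB p N Bs) (mB p d Xs)).rank := by
  rw [← toM2_bigA N d Bs Xs h, rank_toM2]

theorem kr_congr {R : Type} [CommRing R] {N n c : ℕ} {B B' : ℕ → Matrix (Fin N) (Fin N) R}
    {X X' : ℕ → Matrix (Fin n) (Fin n) R} (hB : ∀ k < c, B k = B' k) (hX : ∀ k < c, X k = X' k) :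
    kr c B X = kr c B' X' := by
  unfold kr
  refine Finset.sum_congr rfl fun k hk => ?_
  rw [hB k (Finset.mem_range.1 hk), hX k (Finset.mem_range.1 hk)]

/-! ### regularity -/

theorem length_famL (n : ℕ) (Xs : List (List (List ℕ))) (q : ℕ × (ℕ × ℕ)) :
    (famL p n Xs q).length = Xs.length := by simp [famL]

theorem length_reg (N n : ℕ) (Bs Xs : List (List (List ℕ))) (r : ℕ) :
    (reg p N n Bs Xs r).length = Xs.length := length_famL _ _ _

theorem kapE_cast (n u v : ℕ) (m : Fin n) :
    ((kapE p n u v m : ℕ) : ZMod p) = kapv (u : ZMod p) (v : ZMod p) m := by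
  rw [kapE, ZMod.natCast_mod, sm_fin, kapv]
  refine Finset.sum_congr rfl fun i _ => ?_
  rw [Nat.cast_mul, powp_cast, powp_cast]

theorem famE_cast {n : ℕ} [NeZero n] (X : List (List ℕ)) (u v y : ℕ) (a b : Fin n) :
    ((famE p n X u v y a b : ℕ) : ZMod p) =
      fam (toM p n n X) (kapv (u : ZMod p) (v : ZMod p)) (y : ZMod p) a b := by
  rw [famE, ZMod.natCast_mod, Nat.cast_mul, powp_cast, sm_fin, fam, sbm_val]
  congr 1
  refine Finset.sum_congr rfl fun a' _ => ?_
  rw [Nat.cast_mul, sbm_val, sbm_val, kapE_cast, toM_apply]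

theorem mB_famL {n : ℕ} [NeZero n] (Xs : List (List (List ℕ))) (q : ℕ × (ℕ × ℕ)) {k : ℕ}
    (hk : k < Xs.length) :
    mB p n (famL p n Xs q) k =
      fam (mB p n Xs k) (kapv (q.1 : ZMod p) (q.2.1 : ZMod p)) (q.2.2 : ZMod p) := by
  ext a b
  have h : (famL p n Xs q).getD k [] = mt n n (famE p n (Xs.getD k []) q.1 q.2.1 q.2.2) := by
    simp [famL, List.getD_eq_getElem?_getD, hk]
  rw [mB_mt n _ h, famE_cast]
  rfl

theorem mem_pars {q : ℕ × (ℕ × ℕ)} : q ∈ pars p ↔ q.1 < p ∧ q.2.1 < p ∧ q.2.2 < p := by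
  obtain ⟨u, v, y⟩ := q
  simp [pars]

theorem reg_spec [hp : Fact p.Prime] {N n : ℕ} (hn : 0 < n) (hpn : N * n ^ 2 < p)
    (Bs Xs : List (List (List ℕ))) (hX : Xs.length = Bs.length) {r : ℕ} (hr : 0 < r)
    (hrk : (r - 1) * n < (kr Bs.length (mB p N Bs) (mB p n Xs)).rank) :
    r * n ≤ (kr Bs.length (mB p N Bs) (mB p n (reg p N n Bs Xs r))).rank := by
  have : NeZero n := ⟨hn.ne'⟩
  obtain ⟨u, v, y, h1⟩ := reg_exists hpn Bs.length (mB p N Bs) (mB p n Xs) (r - 1) hrk
  have h2 : r - 1 + 1 = r := by omega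
  rw [h2] at h1
  set f : ℕ × (ℕ × ℕ) → Bool := fun q =>
    decide (r * n ≤ rkL p (N * n) (N * n) (bigA p N n Bs (famL p n Xs q))) with hf
  have hex : (u.val, (v.val, y.val)) ∈ (pars p).filter f := by
    rw [List.mem_filter]
    refine ⟨mem_pars.2 ⟨u.val_lt, v.val_lt, y.val_lt⟩, ?_⟩
    rw [hf, decide_eq_true_eq, rkL_bigA N n Bs _ (by rw [length_famL, hX])]
    refine h1.trans_eq ?_
    congr 1
    refine kr_congr (fun _ _ => rfl) fun k hk => ?_
    rw [mB_famL Xs _ (by rw [hX]; exact hk)]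
    simp only [ZMod.natCast_zmod_val]
  have hmem : ((pars p).filter f).headD (0, (0, 0)) ∈ (pars p).filter f := by
    cases hL : (pars p).filter f with
    | nil =>
      rw [hL] at hex
      simp at hex
    | cons x L => simp
  have h3 := (List.mem_filter.1 hmem).2
  rw [hf, decide_eq_true_eq, rkL_bigA N n Bs _ (by rw [length_famL, hX])] at h3
  exact h3

/-! ### deletion -/

theorem length_minr (n : ℕ) (Xs : List (List (List ℕ))) : (minr n Xs).length = Xs.length := by
  simp [minr]

theorem mB_minr {n : ℕ} (Xs : List (List (List ℕ))) (k : ℕ) :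
    mB p n (minr n Xs) k = (mB p (n + 1) Xs k).submatrix Fin.castSucc Fin.castSucc := by
  ext a b
  rw [Matrix.submatrix_apply]
  by_cases hk : k < Xs.length
  · have h : (minr n Xs).getD k [] = mt n n fun a b => entM (Xs.getD k []) a b := by
      simp [minr, List.getD_eq_getElem?_getD, hk]
    rw [mB_mt n _ h, mB, toM_apply]
    simp
  · have h1 : (minr n Xs).getD k [] = [] := by
      rw [List.getD_eq_default]
      rw [length_minr]
      omega
    have h2 : Xs.getD k [] = [] := by
      rw [List.getD_eq_default]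
      omega
    rw [mB, mB, h1, h2, toM_apply, toM_apply]
    simp [entM, row, ent]

theorem kr_minr {N n c : ℕ} (B : ℕ → Matrix (Fin N) (Fin N) (ZMod p))
    (Xs : List (List (List ℕ))) :
    kr c B (mB p n (minr n Xs)) = (kr c B (mB p (n + 1) Xs)).submatrix
      (fun x : Fin N × Fin n => (x.1, x.2.castSucc)) (fun x : Fin N × Fin n => (x.1, x.2.castSucc)) := by
  ext x y
  rw [Matrix.submatrix_apply, kr, kr, Matrix.sum_apply, Matrix.sum_apply]
  refine Finset.sum_congr rfl fun k _ => ?_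
  rw [mB_minr]
  rfl

theorem down_step [hp : Fact p.Prime] {N n : ℕ} (hn : 0 < n) (hN : 2 * N ≤ n)
    (hpn : N * n ^ 2 < p) (Bs Xs : List (List (List ℕ))) (hX : Xs.length = Bs.length) {r : ℕ}
    (hrk : r * (n + 1) ≤ (kr Bs.length (mB p N Bs) (mB p (n + 1) Xs)).rank) :
    r * n ≤ (kr Bs.length (mB p N Bs) (mB p n (reg p N n Bs (minr n Xs) r))).rank := by
  rcases Nat.eq_zero_or_pos r with h0 | h0
  · rw [h0]
    simp
  · refine reg_spec hn hpn Bs _ (by rw [length_minr, hX]) h0 ?_
    have h1 := del_rank (kr Bs.length (mB p N Bs) (mB p (n + 1) Xs))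
    rw [← kr_minr] at h1
    obtain ⟨s, rfl⟩ : ∃ s, r = s + 1 := ⟨r - 1, by omega⟩
    have h2 : (s + 1) * (n + 1) = s * n + s + n + 1 := by ring
    rw [h2] at hrk
    simp only [Nat.add_sub_cancel]
    omega

theorem length_down (N n r : ℕ) (Bs : List (List (List ℕ))) (k : ℕ) (Xs : List (List (List ℕ))) :
    (down p N n r Bs k Xs).length = Xs.length := by
  unfold down
  induction (List.range k) using List.reverseRecOn with
  | nil => rfl
  | append_singleton L j ih =>
    rw [List.foldl_append]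
    simp only [List.foldl_cons, List.foldl_nil]
    rw [length_reg, length_minr, ih]

theorem down_spec [hp : Fact p.Prime] {N n : ℕ} (hn : 0 < n) (hN : 2 * N ≤ n) {k : ℕ}
    (hpn : N * (n + k) ^ 2 < p) (Bs Xs : List (List (List ℕ))) (hX : Xs.length = Bs.length) {r : ℕ}
    (hrk : r * (n + k) ≤ (kr Bs.length (mB p N Bs) (mB p (n + k) Xs)).rank) :
    r * n ≤ (kr Bs.length (mB p N Bs) (mB p n (down p N n r Bs k Xs))).rank := by
  have key : ∀ j, j ≤ k → r * (n + (k - j)) ≤ (kr Bs.length (mB p N Bs) (mB p (n + (k - j))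
      ((List.range j).foldl (fun Xs j => reg p N (n + (k - 1 - j)) Bs
        (minr (n + (k - 1 - j)) Xs) r) Xs))).rank ∧
      ((List.range j).foldl (fun Xs j => reg p N (n + (k - 1 - j)) Bs
        (minr (n + (k - 1 - j)) Xs) r) Xs).length = Bs.length := by
    intro j
    induction j with
    | zero =>
      intro _
      exact ⟨hrk, hX⟩
    | succ j ih =>
      intro hj
      obtain ⟨h1, h2⟩ := ih (by omega)
      rw [List.range_succ, List.foldl_append]
      simp only [List.foldl_cons, List.foldl_nil]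
      have h3 : k - j = k - (j + 1) + 1 := by omega
      have h4 : k - 1 - j = k - (j + 1) := by omega
      rw [h3, ← add_assoc] at h1
      rw [h4]
      refine ⟨down_step (by omega) (by omega) ?_ Bs _ h2 h1, by rw [length_reg, length_minr, h2]⟩
      refine lt_of_le_of_lt (Nat.mul_le_mul_left N (Nat.pow_le_pow_left ?_ 2)) hpn
      omega
  have h := (key k le_rfl).1
  rw [Nat.sub_self, Nat.add_zero] at h
  exact h

end Pool.Agent.RTB
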