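import Pool.Agent.RTB.SchurB
import Pool.Agent.RTB.LmEnt
import Pool.Agent.RTB.Delta

/-!
# RTB SCHUR: the determinant of the linear matrix of a family of rows

`schSpec`: the order of the determinant of the linear matrix `lm` is the order of the determinant of
the rows (without their lengths).
-/

namespace Pool.Agent.RTB

section

variable {p : ℕ} [Fact p.Prime] {K F : Type} [DivisionRing K] [Field F] [Algebra (ZMod p) F]
  {n : ℕ}

/-- `1, Y 0, Y 1, …` in `K` -/
def yy (Y : ℕ → K) : ℕ → K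
  | 0 => 1
  | k + 1 => Y k

/-- the matrix over `K⟦t⟧` of a list of matrices -/
noncomputable def kMat (Y : ℕ → K) (N c : ℕ) (Ms : List (List (List ℕ))) (cs : ℕ → ℕ) :
    Matrix (Fin N) (Fin N) (PowerSeries K) := fun x y =>
  ∑ k ∈ Finset.range c, PowerSeries.monomial (cs k) (((entM (Ms.getD k []) x y : ℕ) : K) * yy Y k)

theorem bigS_eq_phM (φ : K →+* Matrix (Fin n) (Fin n) F) (Y : ℕ → K) (N c : ℕ)
    (Ms : List (List (List ℕ))) (cs : ℕ → ℕ) :
    bigS c (ZZ φ Y) (fun k => toM p N N (Ms.getD k [])) cs = phM φ (kMat Y N c Ms cs) := by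
  ext x y j
  simp only [bigS, phM, phS, kMat, map_sum, PowerSeries.coeff_mk, PowerSeries.coeff_monomial,
    Matrix.sum_apply]
  apply Finset.sum_congr rfl
  intro k _
  have hZ : ZZ φ Y k = φ (yy Y k) := by
    cases k with
    | zero => exact (map_one φ).symm
    | succ k => rfl
  by_cases h : j = cs k
  · rw [if_pos h, if_pos h, map_mul, map_natCast, hZ, toM_apply, map_natCast,
      ← nsmul_eq_mul, ← nsmul_eq_mul, Matrix.smul_apply]
  · rw [if_neg h, if_neg h, map_zero, Matrix.zero_apply]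

theorem cast_p_zero (hn : 0 < n) (p : ℕ) [Fact p.Prime] [Algebra (ZMod p) F]
    (φ : K →+* Matrix (Fin n) (Fin n) F) : ((p : ℕ) : K) = 0 := by
  have : Nonempty (Fin n) := ⟨⟨0, hn⟩⟩
  apply φ.injective
  rw [map_natCast, map_zero]
  have h1 : ((p : ℕ) : F) = 0 := by
    rw [← map_natCast (algebraMap (ZMod p) F), ZMod.natCast_self, map_zero]
  ext a b
  rw [← Matrix.diagonal_natCast, Matrix.diagonal_apply, h1, ite_self, Matrix.zero_apply]

theorem cast_pred (hn : 0 < n) (p : ℕ) [Fact p.Prime] [Algebra (ZMod p) F]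
    (φ : K →+* Matrix (Fin n) (Fin n) F) : ((p - 1 : ℕ) : K) = -1 := by
  have h1 := cast_p_zero hn p φ
  have h2 : ((p - 1 + 1 : ℕ) : K) = 0 := by
    rw [Nat.sub_add_cancel (Fact.out : p.Prime).one_lt.le, h1]
  rw [Nat.cast_add, Nat.cast_one] at h2
  exact eq_neg_of_add_eq_zero_left h2

theorem mono_one : (PowerSeries.monomial 0 (1 : K)) = (1 : PowerSeries K) := by
  ext k
  rw [PowerSeries.coeff_monomial, PowerSeries.coeff_one]

omit [Fact (Nat.Prime p)] in
/-- sums over the letters and the constant matrix -/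
theorem kMat_lm (Y : ℕ → K) (g : GD) (B : List Row) (x y : Fin g.sz) :
    kMat Y g.sz (1 + g.nd) (lm p g B) (fun k => (lmc g).getD k 0) x y =
      PowerSeries.monomial 0 ((entM (lm0 p g B) x y : ℕ) : K) +
      ∑ q ∈ Finset.range g.nd, PowerSeries.monomial (g.len q)
        (((entM (lmq p g B q) x y : ℕ) : K) * Y q) := by
  rw [kMat, Nat.add_comm 1 g.nd, Finset.sum_range_succ', add_comm]
  congr 1
  · rw [lm_zero, lmc_zero, yy, mul_one]
  · apply Finset.sum_congr rfl
    intro q hq
    have hq' := Finset.mem_range.1 hq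
    rw [Nat.add_comm q 1, lm_succ p g B hq', lmc_succ g hq', Nat.add_comm 1 q, yy]

theorem rkk_le (r : Row) : rkk r ≤ r.2.1.length := by
  unfold rkk
  split_ifs
  · exact le_refl _
  · exact Nat.zero_le _

theorem kMat_blocks (hn : 0 < n) (φ : K →+* Matrix (Fin n) (Fin n) F) (Y : ℕ → K) (g : GD)
    (B : List Row) :
    (fun a b => kMat Y g.sz (1 + g.nd) (lm p g B) (fun k => (lmc g).getD k 0)
      (lix g a) (lix g b)) =
    Matrix.fromBlocks
      (TT g.lg Y g.nv g.nd (fun i : Fin g.np => rkk (gR B i)) fun i => (gR B i).2.1)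
      (-CC g.nv g.nd (fun i : Fin g.np => rkk (gR B i)) fun i => (gR B i).2.1)
      (SS g.2.2.2 g.nv g.nd fun i : Fin g.np => rkk (gR B i))
      (Matrix.of fun i f : Fin g.np => PowerSeries.monomial 0 ((entD0 (gR B i) f : ℕ) : K)) := by
  have hp1 := cast_pred hn p φ
  funext a b
  rw [kMat_lm]
  rcases a with ⟨⟨i, j⟩, z⟩ | i <;> rcases b with ⟨⟨i', j'⟩, z'⟩ | f
  · rw [Matrix.fromBlocks_apply₁₁, lm0_ll]
    simp only [lmq_ll]
    simp only [TT]
    by_cases h : i = i'
    · simp only [if_pos h]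
      rw [tt, sub_eq_add_neg, ← Finset.sum_neg_distrib]
      congr 1
      · unfold entT0
        by_cases h1 : (j : ℕ) = j' ∧ (z : ℕ) = z'
        · rw [if_pos h1, if_pos h1, Nat.cast_one]
          exact mono_one
        · rw [if_neg h1, if_neg h1]
          by_cases h2 : (j : ℕ) ≤ j' ∧ (j' : ℕ) < rkk (gR B i) ∧ (z : ℕ) = g.nv ∧ (z' : ℕ) < g.nv ∧
            (z' : ℕ) = g.hd (rcr (gR B i) j) ∧ lastc (gR B i) j j' = true
          · rw [if_pos h2, if_pos, Nat.cast_one]
            · exact mono_one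
            · exact h2
          · rw [if_neg h2, if_neg, Nat.cast_zero, map_zero]
            exact h2
      · apply Finset.sum_congr rfl
        intro q _
        unfold entTq
        by_cases h2 : (j : ℕ) = j' ∧ (j : ℕ) < rkk (gR B i) ∧ (z : ℕ) = g.tl q ∧ (z : ℕ) < g.nv ∧
          (((z' : ℕ) = g.hd q ∧ (z' : ℕ) < g.nv) ∨ ((z' : ℕ) = g.nv ∧ rcr (gR B i) j = q))
        · rw [if_pos h2, if_pos, mul_one, hp1, neg_one_mul, map_neg]
          · rfl
          · exact h2
        · rw [if_neg h2, if_neg, mul_zero, Nat.cast_zero, zero_mul, map_zero, neg_zero]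
          exact h2
    · simp only [if_neg h, Nat.cast_zero, zero_mul, map_zero, Finset.sum_const_zero, add_zero]
  · rw [Matrix.fromBlocks_apply₁₂, lm0_lr]
    simp only [lmq_lr, Nat.cast_zero, zero_mul, map_zero, Finset.sum_const_zero, add_zero]
    rw [Matrix.neg_apply]
    simp only [CC, cc]
    unfold entC0
    by_cases h2 : (j : ℕ) < rkk (gR B i) ∧ (z : ℕ) = g.nv ∧ (f : ℕ) = 1 + rcr (gR B i) j ∧
      lastc (gR B i) j (rkk (gR B i) - 1) = true
    · rw [if_pos h2, if_pos, mul_one, hp1, map_neg, mono_one]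
      exact h2
    · rw [if_neg h2, if_neg, mul_zero, Nat.cast_zero, map_zero, neg_zero]
      exact h2
  · rw [Matrix.fromBlocks_apply₂₁, lm0_rl]
    simp only [lmq_r, Nat.cast_zero, zero_mul, map_zero, Finset.sum_const_zero, add_zero]
    simp only [SS]
    by_cases h : i = i'
    · rw [if_pos h, if_pos h]
      unfold entS0
      by_cases h2 : (j' : ℕ) < rkk (gR B i) ∧ (z' : ℕ) = g.2.2.2
      · rw [if_pos h2, if_pos h2, Nat.cast_one]
        exact mono_one
      · rw [if_neg h2, if_neg h2, Nat.cast_zero, map_zero]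
    · rw [if_neg h, if_neg h, Nat.cast_zero, map_zero]
  · rw [Matrix.fromBlocks_apply₂₂, lm0_rr]
    simp only [lmq_r, Nat.cast_zero, zero_mul, map_zero, Finset.sum_const_zero, add_zero]
    rfl

/-- the determinant of the linear matrix -/
theorem schSpec (hn : 0 < n) (φ : K →+* Matrix (Fin n) (Fin n) F) (Y : ℕ → K) (g : GD)
    (hg : g.Ok) (hs : g.2.2.2 < g.nv) : SchSpec p g φ Y := by
  intro B hB hr
  have hR : ∀ i : Fin g.np, OkRow g (gR B i) := by
    intro i
    apply hr
    rw [gR, List.getD_eq_getElem _ _ (by rw [hB]; exact i.2)]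
    exact List.getElem_mem _
  rw [bigS_eq_phM]
  have h1 := ordD_equiv φ (lix g) (kMat Y g.sz (1 + g.nd) (lm p g B) fun k => (lmc g).getD k 0)
  change ordD φ _ = _
  rw [← h1, kMat_blocks hn φ Y g B, ordD_big Y φ (fun q hq => (hg.2 q hq).2.2)
    (fun i => (hR i).1) (fun q hq => (hg.2 q hq).2.1) hs (fun i => rkk_le _)]
  congr 1
  ext1 i f
  rw [Matrix.of_apply, Matrix.of_apply]
  by_cases h : (gR B i).1 = true
  · rw [WW_CC_path Y (G := g.lg) (fun i => (hR i).1) (fun i => (hR i).2.1) i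
      (by simp only [rkk, if_pos h]) f f.2]
    have h2 : rowU g Y (gR B i) f = if (f : ℕ) = 0 then 1 else
        nu g.lg Y g.2.2.2 (gR B i).2.1 ((f : ℕ) - 1) :=
      congrFun (if_pos h : rowU g Y (gR B i) = vec g.lg Y g.2.2.2 (gR B i).2.1) f
    rw [h2, entD0, if_pos h]
    by_cases hf : (f : ℕ) = 0
    · rw [if_pos hf, if_pos hf, if_pos hf, Nat.cast_one, add_zero]
      exact mono_one
    · rw [if_neg hf, if_neg hf, if_neg hf, Nat.cast_zero, map_zero, zero_add]
  · rw [WW_CC_dummy Y i (by simp only [rkk, if_neg h]) f, add_zero]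
    have h2 : rowU g Y (gR B i) f = if (f : ℕ) = (gR B i).2.2.2 then 1 else 0 :=
      congrFun (if_neg h : rowU g Y (gR B i) =
        fun f => if f.1 = (gR B i).2.2.2 then 1 else 0) f
    rw [h2, entD0, if_neg h]
    by_cases hf : (f : ℕ) = (gR B i).2.2.2
    · rw [if_pos hf, if_pos hf, Nat.cast_one]
      exact mono_one
    · rw [if_neg hf, if_neg hf, Nat.cast_zero, map_zero]

end

end Pool.Agent.RTB
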