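import Pool.Agent.RTB.Rho

/-!
# RTB SCHUR, part A: the recursion of `rho` as a linear system

`crs X j` is the `j`-th crossing in the order of time, `pre X j` the list of the crossings `0, …, j`
(latest first), `lastB X j j'`: the letter of the crossing `j` does not occur at the crossings
`j + 1, …, j'`.
-/

namespace Pool.Agent.RTB

/-- the `j`-th crossing (in the order of time) -/
def crs (X : List ℕ) (j : ℕ) : ℕ := X.reverse.getD j 0

/-- the crossings `0, …, j`, latest first -/
def pre (X : List ℕ) (j : ℕ) : List ℕ := X.drop (X.length - 1 - j)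

/-- the letter of crossing `j` does not occur at the crossings `j + 1, …, j'` -/
def lastB (X : List ℕ) (j j' : ℕ) : Bool :=
  (List.range (j' + 1)).all fun i => decide (i ≤ j) || (crs X i != crs X j)

theorem lastB_iff (X : List ℕ) (j j' : ℕ) :
    lastB X j j' = true ↔ ∀ i, j < i → i ≤ j' → crs X i ≠ crs X j := by
  unfold lastB
  rw [List.all_eq_true]
  constructor
  · intro h i h1 h2
    have h3 := h i (List.mem_range.2 (by omega))
    rw [Bool.or_eq_true, decide_eq_true_eq, bne_iff_ne] at h3
    rcases h3 with h3 | h3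
    · omega
    · exact h3
  · intro h i hi
    rw [List.mem_range] at hi
    rw [Bool.or_eq_true, decide_eq_true_eq, bne_iff_ne]
    by_cases h1 : i ≤ j
    · exact Or.inl h1
    · exact Or.inr (h i (by omega) (by omega))

/-- sum over the last occurrences of the letters -/
theorem sum_last {M : Type} [AddCommMonoid M] (D : ℕ) : ∀ (X : List ℕ), (∀ x ∈ X, x < D) →
    ∀ (h : ℕ → List ℕ → M),
    (∑ i ∈ Finset.range X.length,
      if X.getD i 0 ∈ X.take i then 0 else h (X.getD i 0) (X.drop i)) =
    ∑ q ∈ Finset.range D, if q ∈ X then h q (up q X) else 0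
  | [], _, h => by simp
  | x :: X, hX, h => by
    have hx : x < D := hX x (by simp)
    have ih := sum_last D X (fun y hy => hX y (by simp [hy]))
      (fun q L => if q = x then 0 else h q L)
    rw [List.length_cons, Finset.sum_range_succ']
    have h1 : ∀ i, (if (x :: X).getD (i + 1) 0 ∈ (x :: X).take (i + 1) then 0
        else h ((x :: X).getD (i + 1) 0) ((x :: X).drop (i + 1))) =
        if X.getD i 0 ∈ X.take i then 0
          else (fun q L => if q = x then 0 else h q L) (X.getD i 0) (X.drop i) := by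
      intro i
      rw [List.getD_cons_succ, List.take_succ_cons, List.drop_succ_cons]
      by_cases h2 : X.getD i 0 ∈ X.take i
      · rw [if_pos (List.mem_cons_of_mem _ h2), if_pos h2]
      · by_cases h3 : X.getD i 0 = x
        · rw [if_pos (List.mem_cons.2 (Or.inl h3)), if_neg h2]
          simp only [if_pos h3]
        · rw [if_neg (fun h6 => (List.mem_cons.1 h6).elim h3 h2), if_neg h2]
          simp only [if_neg h3]
    rw [Finset.sum_congr rfl fun i _ => h1 i, ih]
    have h4 : (if (x :: X).getD 0 0 ∈ (x :: X).take 0 then 0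
        else h ((x :: X).getD 0 0) ((x :: X).drop 0)) = h x (x :: X) := by
      simp
    rw [h4]
    have h5 : ∀ q ∈ Finset.range D, (if q ∈ x :: X then h q (up q (x :: X)) else 0) =
        (if q ∈ X then (if q = x then 0 else h q (up q X)) else 0) +
          (if q = x then h x (x :: X) else 0) := by
      intro q _
      by_cases hq : q = x
      · subst hq
        rw [if_pos (by simp), if_pos rfl, if_pos rfl, up_self]
        simp
      · rw [if_neg hq, if_neg hq, add_zero, up_cons_ne (fun e => hq e.symm)]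
        by_cases h6 : q ∈ X
        · rw [if_pos h6, if_pos (by simp [h6])]
        · rw [if_neg h6, if_neg (by simp [h6, hq])]
    rw [Finset.sum_congr rfl h5, Finset.sum_add_distrib, Finset.sum_ite_eq' (Finset.range D) x,
      if_pos (Finset.mem_range.2 hx)]

theorem crs_eq (X : List ℕ) {j : ℕ} (hj : j < X.length) : crs X j = X.getD (X.length - 1 - j) 0 := by
  unfold crs
  rw [List.getD_eq_getElem?_getD, List.getD_eq_getElem?_getD, List.getElem?_reverse hj]

theorem pre_length (X : List ℕ) {j : ℕ} (hj : j < X.length) : (pre X j).length = j + 1 := by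
  unfold pre
  rw [List.length_drop]
  omega

theorem pre_getD (X : List ℕ) {j i : ℕ} (hj : j < X.length) (hi : i ≤ j) :
    (pre X j).getD i 0 = crs X (j - i) := by
  rw [crs_eq X (by omega)]
  unfold pre
  rw [List.getD_eq_getElem?_getD, List.getElem?_drop, ← List.getD_eq_getElem?_getD]
  congr 1
  omega

theorem pre_drop (X : List ℕ) {j i : ℕ} (hj : j < X.length) (hi : i ≤ j) :
    (pre X j).drop i = pre X (j - i) := by
  unfold pre
  rw [List.drop_drop]
  congr 1
  omega

theorem pre_take (X : List ℕ) {j i : ℕ} (hj : j < X.length) (hi : i ≤ j) :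
    crs X (j - i) ∈ (pre X j).take i ↔ ¬ lastB X (j - i) j = true := by
  rw [lastB_iff]
  push Not
  rw [List.mem_take_iff_getElem]
  constructor
  · rintro ⟨m, hm, he⟩
    have hm' := lt_min_iff.1 hm
    refine ⟨j - m, by omega, by omega, ?_⟩
    rw [← he, ← pre_getD X hj (by omega : m ≤ j), List.getD_eq_getElem _ _ hm'.2]
  · rintro ⟨a, h1, h2, h3⟩
    refine ⟨j - a, ?_, ?_⟩
    · rw [lt_min_iff, pre_length X hj]
      omega
    · rw [← h3, ← List.getD_eq_getElem _ 0, pre_getD X hj (by omega)]
      congr 1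
      omega

/-- sum over the last occurrences, in the order of time -/
theorem sum_lastB {M : Type} [AddCommMonoid M] (D : ℕ) (X : List ℕ) (hX : ∀ x ∈ X, x < D)
    {j' : ℕ} (hj : j' < X.length) (h : ℕ → List ℕ → M) :
    (∑ j ∈ Finset.range (j' + 1), if lastB X j j' = true then h (crs X j) (pre X j) else 0) =
    ∑ q ∈ Finset.range D, if q ∈ pre X j' then h q (up q (pre X j')) else 0 := by
  rw [← sum_last D (pre X j') (fun x hx => hX x (List.mem_of_mem_drop hx)) h, pre_length X hj,
    ← Finset.sum_range_reflect]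
  apply Finset.sum_congr rfl
  intro i hi
  rw [Finset.mem_range] at hi
  have h1 : j' + 1 - 1 - i = j' - i := by omega
  rw [h1, pre_getD X hj (by omega), pre_drop X hj (by omega)]
  by_cases h2 : lastB X (j' - i) j' = true
  · rw [if_pos h2, if_neg (by rw [pre_take X hj (by omega)]; exact fun h3 => h3 h2)]
  · rw [if_neg h2, if_pos (by rw [pre_take X hj (by omega)]; exact h2)]

/-! ### the linear system -/

variable {K : Type} [Ring K]

/-- entry of the block `T` -/
noncomputable def tt (G : LG) (Y : ℕ → K) (nv k : ℕ) (X : List ℕ) (j z j' z' : ℕ) :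
    PowerSeries K :=
  (if j = j' ∧ z = z' then 1
    else if j ≤ j' ∧ j' < k ∧ z = nv ∧ z' < nv ∧ z' = G.hd (crs X j) ∧ lastB X j j' = true then 1
    else 0) -
  ∑ q ∈ Finset.range G.D, if j = j' ∧ j < k ∧ z = G.tl q ∧ z < nv ∧
    ((z' = G.hd q ∧ z' < nv) ∨ (z' = nv ∧ crs X j = q)) then xt G Y q else 0

/-- entry of the block `C` -/
noncomputable def cc (nv k : ℕ) (X : List ℕ) (j z f : ℕ) : PowerSeries K :=
  if j < k ∧ z = nv ∧ f = 1 + crs X j ∧ lastB X j (k - 1) = true then 1 else 0

/-- the solution -/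
noncomputable def ww (G : LG) (Y : ℕ → K) (s nv k : ℕ) (X : List ℕ) (j z : ℕ) : PowerSeries K :=
  if j < k then
    (if z = nv then rho G Y s (pre X j) (G.tl (crs X j)) * xt G Y (crs X j)
      else rho G Y s (pre X j) z)
  else 0

/-- sums with one nonzero term -/
theorem sum_one {m nv : ℕ} (j' z' : ℕ) (hj : j' < m) (hz : z' < nv + 1)
    (f : ℕ → ℕ → PowerSeries K) (P : Prop) [Decidable P] (a : PowerSeries K) :
    (∑ x : Fin m × Fin (nv + 1), f x.1 x.2 * (if ((x.1 : ℕ) = j' ∧ (x.2 : ℕ) = z') ∧ P then a else 0)) =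
      if P then f j' z' * a else 0 := by
  rw [Finset.sum_eq_single ((⟨j', hj⟩ : Fin m), (⟨z', hz⟩ : Fin (nv + 1)))]
  · by_cases h : P
    · rw [if_pos h, if_pos ⟨⟨rfl, rfl⟩, h⟩]
    · rw [if_neg h, if_neg (fun h1 => h h1.2), mul_zero]
  · intro x _ hx
    rw [if_neg, mul_zero]
    rintro ⟨⟨h1, h2⟩, _⟩
    exact hx (Prod.ext (Fin.ext h1) (Fin.ext h2))
  · intro h
    exact absurd (Finset.mem_univ _) h

/-- the columns of `T` -/
theorem ww_tt (G : LG) (hG : G.Pos) (Y : ℕ → K) {s nv k m : ℕ} {X : List ℕ}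
    (hX : ∀ x ∈ X, x < G.D) (htl : ∀ q < G.D, G.tl q < nv) (hs : s < nv)
    (hk : k ≤ X.length) (j' z' : ℕ) (hj : j' < m) (hz : z' < nv + 1) :
    (∑ x : Fin m × Fin (nv + 1), ww G Y s nv k X x.1 x.2 * tt G Y nv k X x.1 x.2 j' z') =
      if j' < k ∧ z' = s then 1 else 0 := by
  have hq : (∑ x : Fin m × Fin (nv + 1), ww G Y s nv k X x.1 x.2 *
      ∑ q ∈ Finset.range G.D, (if (x.1 : ℕ) = j' ∧ (x.1 : ℕ) < k ∧ (x.2 : ℕ) = G.tl q ∧ (x.2 : ℕ) < nv ∧
        ((z' = G.hd q ∧ z' < nv) ∨ (z' = nv ∧ crs X x.1 = q)) then xt G Y q else 0)) =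
      ∑ q ∈ Finset.range G.D, if j' < k ∧ ((z' = G.hd q ∧ z' < nv) ∨ (z' = nv ∧ crs X j' = q)) then
        rho G Y s (pre X j') (G.tl q) * xt G Y q else 0 := by
    simp_rw [Finset.mul_sum]
    rw [Finset.sum_comm]
    apply Finset.sum_congr rfl
    intro q hq
    have h1 := htl q (Finset.mem_range.1 hq)
    rw [← Finset.sum_congr rfl (fun x _ => ?_), sum_one (m := m) (nv := nv) j' (G.tl q) hj (by omega)
      (ww G Y s nv k X) (j' < k ∧ ((z' = G.hd q ∧ z' < nv) ∨ (z' = nv ∧ crs X j' = q))) (xt G Y q)]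
    · by_cases h2 : j' < k ∧ ((z' = G.hd q ∧ z' < nv) ∨ (z' = nv ∧ crs X j' = q))
      · rw [if_pos h2, if_pos h2, ww, if_pos h2.1, if_neg (by omega)]
      · rw [if_neg h2, if_neg h2]
    · congr 1
      apply if_congr _ rfl rfl
      constructor
      · rintro ⟨⟨h2, h3⟩, h4, h5⟩
        rw [h2]
        exact ⟨rfl, h4, h3, by omega, h5⟩
      · rintro ⟨h2, h3, h4, _, h5⟩
        rw [h2] at h3 h5
        exact ⟨⟨h2, h4⟩, h3, h5⟩
  have h0 : (∑ x : Fin m × Fin (nv + 1), ww G Y s nv k X x.1 x.2 * tt G Y nv k X x.1 x.2 j' z') =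
      (ww G Y s nv k X j' z' + ∑ x : Fin m × Fin (nv + 1), ww G Y s nv k X x.1 x.2 *
        (if (x.1 : ℕ) ≤ j' ∧ j' < k ∧ (x.2 : ℕ) = nv ∧ z' < nv ∧ z' = G.hd (crs X x.1) ∧
          lastB X x.1 j' = true then 1 else 0)) -
      ∑ q ∈ Finset.range G.D, if j' < k ∧ ((z' = G.hd q ∧ z' < nv) ∨ (z' = nv ∧ crs X j' = q)) then
        rho G Y s (pre X j') (G.tl q) * xt G Y q else 0 := by
    rw [← hq]
    have h1 := sum_one (m := m) (nv := nv) j' z' hj hz (ww G Y s nv k X) True 1
    rw [if_pos trivial, mul_one] at h1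
    rw [← h1, ← Finset.sum_add_distrib, ← Finset.sum_sub_distrib]
    apply Finset.sum_congr rfl
    intro x _
    rw [tt, mul_sub, ← mul_add]
    congr 2
    by_cases h2 : (x.1 : ℕ) = j' ∧ (x.2 : ℕ) = z'
    · rw [if_pos h2, if_pos ⟨h2, trivial⟩, if_neg, add_zero]
      rintro ⟨_, _, h3, h4, _⟩
      omega
    · simp only [h2, if_false, false_and, zero_add]
  rw [h0]
  by_cases hjk : j' < k
  swap
  · rw [if_neg (fun h => hjk h.1), ww, if_neg hjk, zero_add]
    rw [Finset.sum_eq_zero, Finset.sum_eq_zero, sub_zero]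
    · intro q _
      rw [if_neg (fun h => hjk h.1)]
    · intro x _
      rw [if_neg (fun h => hjk h.2.1), mul_zero]
  have hjX : j' < X.length := by omega
  have hcr : ∀ j, j < k → crs X j < G.D := by
    intro j hj
    rw [crs_eq X (by omega)]
    apply hX
    rw [List.getD_eq_getElem _ _ (by omega)]
    exact List.getElem_mem _
  by_cases hzn : z' = nv
  · subst hzn
    rw [if_neg (by omega), ww, if_pos hjk, if_pos rfl]
    have h1 : (∑ x : Fin m × Fin (z' + 1), ww G Y s z' k X x.1 x.2 *
        (if (x.1 : ℕ) ≤ j' ∧ j' < k ∧ (x.2 : ℕ) = z' ∧ z' < z' ∧ z' = G.hd (crs X x.1) ∧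
          lastB X x.1 j' = true then 1 else 0)) = 0 := by
      apply Finset.sum_eq_zero
      intro x _
      rw [if_neg (by rintro ⟨_, _, _, h, _⟩; omega), mul_zero]
    rw [h1, add_zero]
    rw [Finset.sum_eq_single (crs X j')]
    · rw [if_pos ⟨hjk, Or.inr ⟨rfl, rfl⟩⟩, sub_self]
    · intro q _ hq
      rw [if_neg]
      rintro ⟨_, h | h⟩
      · omega
      · exact hq h.2.symm
    · intro h
      exact absurd (Finset.mem_range.2 (hcr j' hjk)) h
  have hz' : z' < nv := by omega
  have h2 : (∑ x : Fin m × Fin (nv + 1), ww G Y s nv k X x.1 x.2 *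
      (if (x.1 : ℕ) ≤ j' ∧ j' < k ∧ (x.2 : ℕ) = nv ∧ z' < nv ∧ z' = G.hd (crs X x.1) ∧
        lastB X x.1 j' = true then 1 else 0)) =
      ∑ q ∈ Finset.range G.D, if G.hd q = z' then nu G Y s (pre X j') q else 0 := by
    have h3 := sum_lastB (M := PowerSeries K) G.D X hX hjX
      (fun q L => if G.hd q = z' then rho G Y s L (G.tl q) * xt G Y q else 0)
    have h4 : (∑ q ∈ Finset.range G.D, if G.hd q = z' then nu G Y s (pre X j') q else 0) =
        ∑ q ∈ Finset.range G.D, if q ∈ pre X j' then
          (fun q L => if G.hd q = z' then rho G Y s L (G.tl q) * xt G Y q else 0) q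
            (up q (pre X j')) else 0 := by
      apply Finset.sum_congr rfl
      intro q _
      by_cases h5 : q ∈ pre X j'
      · rw [if_pos h5, nu, if_pos h5]
      · rw [if_neg h5, nu, if_neg h5, ite_self]
    rw [h4, ← h3, Fintype.sum_prod_type]
    have h6 : ∀ j : Fin m, (∑ z : Fin (nv + 1), ww G Y s nv k X j z *
        (if (j : ℕ) ≤ j' ∧ j' < k ∧ (z : ℕ) = nv ∧ z' < nv ∧ z' = G.hd (crs X j) ∧
          lastB X j j' = true then 1 else 0)) =
        if (j : ℕ) < j' + 1 then (if lastB X j j' = true then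
          (if G.hd (crs X j) = z' then rho G Y s (pre X j) (G.tl (crs X j)) * xt G Y (crs X j) else 0)
          else 0) else 0 := by
      intro j
      rw [Finset.sum_eq_single (⟨nv, by omega⟩ : Fin (nv + 1))]
      · by_cases h7 : (j : ℕ) < j' + 1
        · rw [if_pos h7]
          by_cases h8 : lastB X j j' = true
          · rw [if_pos h8]
            by_cases h9 : G.hd (crs X j) = z'
            · rw [if_pos h9, if_pos ⟨by omega, hjk, rfl, hz', h9.symm, h8⟩, mul_one, ww,
                if_pos (by omega), if_pos rfl]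
            · rw [if_neg h9, if_neg (fun h => h9 h.2.2.2.2.1.symm), mul_zero]
          · rw [if_neg h8, if_neg (fun h => h8 h.2.2.2.2.2), mul_zero]
        · rw [if_neg h7, if_neg (fun h => h7 (by omega)), mul_zero]
      · intro z _ hz
        rw [if_neg (fun h => hz (Fin.ext h.2.2.1)), mul_zero]
      · intro h
        exact absurd (Finset.mem_univ _) h
    rw [Finset.sum_congr rfl fun j _ => h6 j]
    rw [Fin.sum_univ_eq_sum_range (fun j => if j < j' + 1 then (if lastB X j j' = true then
          (if G.hd (crs X j) = z' then rho G Y s (pre X j) (G.tl (crs X j)) * xt G Y (crs X j) else 0)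
          else 0) else 0) m]
    rw [← Finset.sum_filter]
    apply Finset.sum_congr
    · ext j
      simp only [Finset.mem_filter, Finset.mem_range]
      omega
    · intro j _
      rfl
  rw [h2, ww, if_pos hjk, if_neg hzn, rho_eq G hG Y s (pre X j') z']
  have h3 : ∀ q ∈ Finset.range G.D,
      (if j' < k ∧ ((z' = G.hd q ∧ z' < nv) ∨ (z' = nv ∧ crs X j' = q)) then
        rho G Y s (pre X j') (G.tl q) * xt G Y q else 0) =
      (if G.hd q = z' then rho G Y s (pre X j') (G.tl q) * xt G Y q - nu G Y s (pre X j') q else 0) +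
      (if G.hd q = z' then nu G Y s (pre X j') q else 0) := by
    intro q _
    by_cases h4 : G.hd q = z'
    · rw [if_pos h4, if_pos h4, if_pos ⟨hjk, Or.inl ⟨h4.symm, hz'⟩⟩, sub_add_cancel]
    · rw [if_neg h4, if_neg h4, if_neg, add_zero]
      rintro ⟨_, h | h⟩
      · exact h4 h.1.symm
      · exact hzn h.1
  rw [Finset.sum_congr rfl h3, Finset.sum_add_distrib]
  by_cases hzs : z' = s
  · rw [if_pos hzs, if_pos ⟨hjk, hzs⟩]
    abel
  · rw [if_neg hzs, if_neg (fun h => hzs h.2)]
    abel

/-- the columns of `C` -/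
theorem ww_cc (G : LG) (Y : ℕ → K) {s nv m : ℕ} {X : List ℕ}
    (hX : ∀ x ∈ X, x < G.D) (hm : X.length ≤ m) (f : ℕ) (hf : f < 1 + G.D) :
    (∑ x : Fin m × Fin (nv + 1), ww G Y s nv X.length X x.1 x.2 *
      cc nv X.length X x.1 x.2 f) = if f = 0 then 0 else nu G Y s X (f - 1) := by
  rw [Fintype.sum_prod_type]
  have h6 : ∀ j : Fin m, (∑ z : Fin (nv + 1), ww G Y s nv X.length X j z *
      cc nv X.length X j z f) =
      if (j : ℕ) < X.length then (if lastB X j (X.length - 1) = true then
        (if f = 1 + crs X j then rho G Y s (pre X j) (G.tl (crs X j)) * xt G Y (crs X j) else 0)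
        else 0) else 0 := by
    intro j
    rw [Finset.sum_eq_single (⟨nv, by omega⟩ : Fin (nv + 1))]
    · unfold cc ww
      by_cases h7 : (j : ℕ) < X.length
      · rw [if_pos h7, if_pos h7, if_pos rfl]
        by_cases h8 : lastB X j (X.length - 1) = true
        · rw [if_pos h8]
          by_cases h9 : f = 1 + crs X j
          · rw [if_pos h9, if_pos ⟨h7, rfl, h9, h8⟩, mul_one]
          · rw [if_neg h9, if_neg (fun h => h9 h.2.2.1), mul_zero]
        · rw [if_neg h8, if_neg (fun h => h8 h.2.2.2), mul_zero]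
      · rw [if_neg h7, if_neg h7, zero_mul]
    · intro z _ hz
      rw [cc, if_neg (fun h => hz (Fin.ext h.2.1)), mul_zero]
    · intro h
      exact absurd (Finset.mem_univ _) h
  rw [Finset.sum_congr rfl fun j _ => h6 j]
  rw [Fin.sum_univ_eq_sum_range (fun j => if j < X.length then
        (if lastB X j (X.length - 1) = true then
        (if f = 1 + crs X j then rho G Y s (pre X j) (G.tl (crs X j)) * xt G Y (crs X j) else 0)
        else 0) else 0) m, ← Finset.sum_filter]
  have h1 : (Finset.range m).filter (fun j => j < X.length) = Finset.range X.length := by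
    ext j
    simp only [Finset.mem_filter, Finset.mem_range]
    omega
  rw [h1]
  rcases Nat.eq_zero_or_pos X.length with h0 | h0
  · rw [h0, Finset.range_zero, Finset.sum_empty]
    have h2 : X = [] := List.length_eq_zero_iff.1 h0
    rw [h2, nu]
    simp
  · have h2 := sum_lastB (M := PowerSeries K) G.D X hX (j' := X.length - 1) (by omega)
      (fun q L => if f = 1 + q then rho G Y s L (G.tl q) * xt G Y q else 0)
    have h3 : pre X (X.length - 1) = X := by
      unfold pre
      rw [Nat.sub_self, List.drop_zero]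
    rw [h3, Nat.sub_add_cancel h0] at h2
    rw [h2]
    by_cases hf0 : f = 0
    · rw [if_pos hf0]
      apply Finset.sum_eq_zero
      intro q _
      have h4 : ¬ f = 1 + q := by omega
      simp only [h4, if_false, ite_self]
    · rw [if_neg hf0, Finset.sum_eq_single (f - 1)]
      · rw [nu]
        by_cases h4 : f - 1 ∈ X
        · rw [if_pos h4, if_pos h4, if_pos (by omega)]
        · rw [if_neg h4, if_neg h4]
      · intro q _ hq
        have h4 : ¬ f = 1 + q := by omega
        simp only [h4, if_false, ite_self]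
      · intro h
        exact absurd (Finset.mem_range.2 (by omega)) h

end Pool.Agent.RTB
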