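import Pool.Agent.RTB.SchurA
import Pool.Agent.RTB.Phi
import Pool.Agent.RTB.RankMul

/-!
# RTB SCHUR, part B: the block matrix over `K⟦t⟧`

Over `K⟦t⟧` the big matrix is `[[T, -C], [S, D]]` with `W T = S`, and `T` is unipotent at `t = 0`; so
its determinant has the order of the determinant of `D + W C`.
-/

namespace Pool.Agent.RTB

section ord

variable {K F : Type} [DivisionRing K] [Field F] {n : ℕ} (φ : K →+* Matrix (Fin n) (Fin n) F)

theorem ordD_one {ι : Type} [Fintype ι] [DecidableEq ι] :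
    ordD φ (1 : Matrix ι ι (PowerSeries K)) = 0 := by
  unfold ordD
  rw [phM_one, Matrix.det_one, PowerSeries.order_one]

/-- reindexing -/
theorem ordD_equiv {ι κ : Type} [Fintype ι] [DecidableEq ι] [Fintype κ] [DecidableEq κ]
    (e : ι ≃ κ) (M : Matrix κ κ (PowerSeries K)) :
    ordD φ (fun a b => M (e a) (e b)) = ordD φ M := by
  unfold ordD
  have h : phM φ (fun a b => M (e a) (e b)) =
      (phM φ M).submatrix (e.prodCongr (Equiv.refl (Fin n))) (e.prodCongr (Equiv.refl (Fin n))) := by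
    ext x y : 1
    rfl
  rw [h, Matrix.det_submatrix_equiv_self]

/-- block upper triangular matrices -/
theorem ordD_tri {ι κ : Type} [Fintype ι] [DecidableEq ι] [Fintype κ] [DecidableEq κ]
    (A : Matrix ι ι (PowerSeries K)) (B : Matrix ι κ (PowerSeries K))
    (D : Matrix κ κ (PowerSeries K)) :
    ordD φ (Matrix.fromBlocks A B 0 D) = ordD φ A + ordD φ D := by
  unfold ordD
  have h : phM φ (Matrix.fromBlocks A B 0 D) =
      (Matrix.fromBlocks (phM φ A) (phM φ B) 0 (phM φ D)).submatrix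
        (Equiv.sumProdDistrib ι κ (Fin n)) (Equiv.sumProdDistrib ι κ (Fin n)) := by
    ext x y : 1
    rcases x with ⟨x | x, a⟩ <;> rcases y with ⟨y | y, b⟩
    · rfl
    · rfl
    · change phS φ 0 a b = 0
      rw [phS_zero]
      rfl
    · rfl
  rw [h, Matrix.det_submatrix_equiv_self, Matrix.det_fromBlocks_zero₂₁, PowerSeries.order_mul]

/-- block lower triangular matrices -/
theorem ordD_tril {ι κ : Type} [Fintype ι] [DecidableEq ι] [Fintype κ] [DecidableEq κ]
    (A : Matrix ι ι (PowerSeries K)) (C : Matrix κ ι (PowerSeries K))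
    (D : Matrix κ κ (PowerSeries K)) :
    ordD φ (Matrix.fromBlocks A 0 C D) = ordD φ A + ordD φ D := by
  unfold ordD
  have h : phM φ (Matrix.fromBlocks A 0 C D) =
      (Matrix.fromBlocks (phM φ A) 0 (phM φ C) (phM φ D)).submatrix
        (Equiv.sumProdDistrib ι κ (Fin n)) (Equiv.sumProdDistrib ι κ (Fin n)) := by
    ext x y : 1
    rcases x with ⟨x | x, a⟩ <;> rcases y with ⟨y | y, b⟩
    · rfl
    · change phS φ 0 a b = 0
      rw [phS_zero]
      rfl
    · rfl
    · rfl
  rw [h, Matrix.det_submatrix_equiv_self, Matrix.det_fromBlocks_zero₁₂, PowerSeries.order_mul]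

/-- matrices that are invertible at `t = 0` -/
theorem ordD_zero_of_const {ι : Type} [Fintype ι] [DecidableEq ι]
    (M : Matrix ι ι (PowerSeries K)) (M' : Matrix ι ι K)
    (h : M.map (PowerSeries.constantCoeff (R := K)) * M' = 1) : ordD φ M = 0 := by
  unfold ordD
  rw [← Nat.cast_zero (R := ℕ∞), PowerSeries.order_eq_nat]
  refine ⟨?_, fun i hi => absurd hi (Nat.not_lt_zero i)⟩
  rw [PowerSeries.coeff_zero_eq_constantCoeff_apply]
  rw [RingHom.map_det (PowerSeries.constantCoeff (R := F)) (phM φ M)]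
  have h1 : (PowerSeries.constantCoeff (R := F)).mapMatrix (phM φ M) =
      phm φ (M.map (PowerSeries.constantCoeff (R := K))) := by
    ext x y
    change PowerSeries.constantCoeff (R := F) (phS φ (M x.1 y.1) x.2 y.2) =
      φ (PowerSeries.constantCoeff (R := K) (M x.1 y.1)) x.2 y.2
    rw [← PowerSeries.coeff_zero_eq_constantCoeff_apply,
      ← PowerSeries.coeff_zero_eq_constantCoeff_apply]
    simp [phS]
  rw [h1]
  intro h3
  have h4 : (phm φ (M.map (PowerSeries.constantCoeff (R := K)) * M')).det =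
      (phm φ (1 : Matrix ι ι K)).det := by rw [h]
  rw [phm_mul, Matrix.det_mul, h3, zero_mul, phm_one, Matrix.det_one] at h4
  exact zero_ne_one h4

end ord

/-! ### the block matrix -/

section blocks

variable {K : Type} [DivisionRing K]

/-- index set of the block `T` -/
abbrev Ix (np m nv : ℕ) : Type := (Fin np × Fin m) × Fin (nv + 1)

theorem sum_Ix {M : Type} [AddCommMonoid M] {np m nv : ℕ} (f : Ix np m nv → M) :
    ∑ y, f y = ∑ a : Fin np, ∑ x : Fin m × Fin (nv + 1), f ((a, x.1), x.2) := by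
  rw [Fintype.sum_prod_type, Fintype.sum_prod_type]
  apply Finset.sum_congr rfl
  intro a _
  rw [Fintype.sum_prod_type]

variable (G : LG) (Y : ℕ → K) (s nv m : ℕ) {np : ℕ} (k : Fin np → ℕ) (X : Fin np → List ℕ)

/-- the block `T` -/
noncomputable def TT : Matrix (Ix np m nv) (Ix np m nv) (PowerSeries K) := fun x y =>
  if x.1.1 = y.1.1 then tt G Y nv (k x.1.1) (X x.1.1) x.1.2 x.2 y.1.2 y.2 else 0

/-- the block `C` -/
noncomputable def CC : Matrix (Ix np m nv) (Fin np) (PowerSeries K) := fun x f =>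
  cc nv (k x.1.1) (X x.1.1) x.1.2 x.2 f

/-- the block `S` -/
noncomputable def SS : Matrix (Fin np) (Ix np m nv) (PowerSeries K) := fun i y =>
  if i = y.1.1 then (if (y.1.2 : ℕ) < k i ∧ (y.2 : ℕ) = s then 1 else 0) else 0

/-- the solution -/
noncomputable def WW : Matrix (Fin np) (Ix np m nv) (PowerSeries K) := fun i y =>
  if i = y.1.1 then ww G Y s nv (k i) (X i) y.1.2 y.2 else 0

variable {G s nv m k X}

theorem WW_TT (hG : G.Pos) (hX : ∀ i, ∀ x ∈ X i, x < G.D) (htl : ∀ q < G.D, G.tl q < nv)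
    (hs : s < nv) (hk : ∀ i, k i ≤ (X i).length) :
    WW G Y s nv m k X * TT G Y nv m k X = SS s nv m k := by
  ext1 i y
  rw [Matrix.mul_apply, sum_Ix, Finset.sum_eq_single i]
  · simp only [WW, TT, SS, if_true]
    by_cases h : i = y.1.1
    · simp only [if_pos h]
      exact ww_tt G hG Y (hX i) htl hs (hk i) y.1.2 y.2 y.1.2.2 y.2.2
    · simp only [if_neg h, mul_zero]
      exact Finset.sum_const_zero
  · intro a _ ha
    apply Finset.sum_eq_zero
    intro x _
    simp only [WW, if_neg (fun h : i = a => ha h.symm), zero_mul]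
  · intro h
    exact absurd (Finset.mem_univ _) h

theorem WW_CC_path (hX : ∀ i, ∀ x ∈ X i, x < G.D) (hm : ∀ i, (X i).length ≤ m)
    (i : Fin np) (hk : k i = (X i).length) (f : Fin np) (hf : (f : ℕ) < 1 + G.D) :
    (∑ y, WW G Y s nv m k X i y * CC nv m k X y f : PowerSeries K) =
      if (f : ℕ) = 0 then 0 else nu G Y s (X i) (f - 1) := by
  rw [sum_Ix, Finset.sum_eq_single i]
  · simp only [WW, CC, if_true, hk]
    exact ww_cc G Y (hX i) (hm i) f hf
  · intro a _ ha
    apply Finset.sum_eq_zero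
    intro x _
    simp only [WW, if_neg (fun h : i = a => ha h.symm), zero_mul]
  · intro h
    exact absurd (Finset.mem_univ _) h

theorem WW_CC_dummy (i : Fin np) (hk : k i = 0) (f : Fin np) :
    (∑ y, WW G Y s nv m k X i y * CC nv m k X y f : PowerSeries K) = 0 := by
  apply Finset.sum_eq_zero
  intro y _
  simp only [WW, ww, hk, Nat.not_lt_zero, if_false, ite_self, zero_mul]

/-- the part of `T` at `t = 0` -/
def JJ (G : LG) (nv m : ℕ) (k : Fin np → ℕ) (X : Fin np → List ℕ) :
    Matrix (Ix np m nv) (Ix np m nv) K := fun x y =>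
  if x.1.1 = y.1.1 ∧ (x.1.2 : ℕ) ≤ y.1.2 ∧ (y.1.2 : ℕ) < k x.1.1 ∧ (x.2 : ℕ) = nv ∧
    (y.2 : ℕ) < nv ∧ (y.2 : ℕ) = G.hd (crs (X x.1.1) x.1.2) ∧
    lastB (X x.1.1) x.1.2 y.1.2 = true then 1 else 0

theorem constCoeff_tt (hG : G.Pos) (k : ℕ) (X : List ℕ) (j z j' z' : ℕ) :
    PowerSeries.constantCoeff (R := K) (tt G Y nv k X j z j' z') =
      if j = j' ∧ z = z' then 1
      else if j ≤ j' ∧ j' < k ∧ z = nv ∧ z' < nv ∧ z' = G.hd (crs X j) ∧ lastB X j j' = true then 1
      else 0 := by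
  unfold tt
  rw [map_sub, map_sum]
  have h : (∑ q ∈ Finset.range G.D, PowerSeries.constantCoeff (R := K)
      (if j = j' ∧ j < k ∧ z = G.tl q ∧ z < nv ∧
        ((z' = G.hd q ∧ z' < nv) ∨ (z' = nv ∧ crs X j = q)) then xt G Y q else 0)) = 0 := by
    apply Finset.sum_eq_zero
    intro q hq
    have h1 : PowerSeries.constantCoeff (R := K) (xt G Y q) = 0 := by
      rw [xt, ← PowerSeries.coeff_zero_eq_constantCoeff_apply, PowerSeries.coeff_monomial,
        if_neg]
      have h2 := hG q (Finset.mem_range.1 hq)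
      omega
    split_ifs
    · exact h1
    · exact map_zero _
  rw [h, sub_zero]
  split_ifs
  · exact map_one _
  · exact map_one _
  · exact map_zero _

theorem TT_const (hG : G.Pos) :
    (TT G Y nv m k X).map (PowerSeries.constantCoeff (R := K)) = 1 + JJ G nv m k X := by
  ext x y
  rw [Matrix.map_apply, Matrix.add_apply, Matrix.one_apply]
  simp only [TT, JJ]
  by_cases h1 : x.1.1 = y.1.1
  · rw [if_pos h1, constCoeff_tt Y hG]
    by_cases h2 : (x.1.2 : ℕ) = y.1.2 ∧ (x.2 : ℕ) = y.2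
    · have h3 : x = y := Prod.ext (Prod.ext h1 (Fin.ext h2.1)) (Fin.ext h2.2)
      rw [if_pos h2, if_pos h3, if_neg, add_zero]
      rintro ⟨_, _, _, h4, h5, _⟩
      omega
    · have h3 : x ≠ y := fun h => h2 ⟨by rw [h], by rw [h]⟩
      rw [if_neg h2, if_neg h3, zero_add]
      apply if_congr _ rfl rfl
      simp only [h1, true_and]
  · have h3 : x ≠ y := fun h => h1 (by rw [h])
    rw [if_neg h1, map_zero, if_neg h3, if_neg (fun h => h1 h.1), add_zero]

theorem JJ_mul : (JJ G nv m k X : Matrix _ _ K) * JJ G nv m k X = 0 := by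
  ext x y
  rw [Matrix.mul_apply, Matrix.zero_apply]
  apply Finset.sum_eq_zero
  intro u _
  by_cases h : (u.2 : ℕ) = nv
  · rw [JJ, if_neg, zero_mul]
    rintro ⟨_, _, _, _, h1, _⟩
    omega
  · have h1 : (JJ G nv m k X : Matrix _ _ K) u y = 0 := by
      rw [JJ, if_neg]
      rintro ⟨_, _, _, h1, _⟩
      exact h h1
    rw [h1, mul_zero]

theorem ordD_TT {F : Type} [Field F] {n : ℕ} (φ : K →+* Matrix (Fin n) (Fin n) F) (hG : G.Pos) :
    ordD φ (TT G Y nv m k X) = 0 := by
  apply ordD_zero_of_const φ _ (1 - JJ G nv m k X)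
  rw [TT_const Y hG, add_mul, one_mul, mul_sub, mul_one, JJ_mul, sub_zero]
  abel

/-- the determinant of the block matrix -/
theorem ordD_big {F : Type} [Field F] {n : ℕ} (φ : K →+* Matrix (Fin n) (Fin n) F) (hG : G.Pos)
    (hX : ∀ i, ∀ x ∈ X i, x < G.D) (htl : ∀ q < G.D, G.tl q < nv)
    (hs : s < nv) (hk : ∀ i, k i ≤ (X i).length) (DD : Matrix (Fin np) (Fin np) (PowerSeries K)) :
    ordD φ (Matrix.fromBlocks (TT G Y nv m k X) (-CC nv m k X) (SS s nv m k) DD) =
      ordD φ (Matrix.of fun i f => DD i f + ∑ y, WW G Y s nv m k X i y * CC nv m k X y f) := by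
  have h1 : Matrix.fromBlocks (1 : Matrix (Ix np m nv) (Ix np m nv) (PowerSeries K)) 0
      (-WW G Y s nv m k X) (1 : Matrix (Fin np) (Fin np) (PowerSeries K)) *
      Matrix.fromBlocks (TT G Y nv m k X) (-CC nv m k X) (SS s nv m k) DD =
      Matrix.fromBlocks (TT G Y nv m k X) (-CC nv m k X) 0
        (Matrix.of fun i f => DD i f + ∑ y, WW G Y s nv m k X i y * CC nv m k X y f) := by
    rw [Matrix.fromBlocks_multiply, Matrix.neg_mul, WW_TT Y hG hX htl hs hk]
    congr 1
    · rw [Matrix.one_mul, Matrix.zero_mul, add_zero]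
    · rw [Matrix.one_mul, Matrix.zero_mul, add_zero]
    · rw [Matrix.one_mul, neg_add_cancel]
    · rw [Matrix.neg_mul, Matrix.mul_neg, neg_neg, Matrix.one_mul, add_comm]
      rfl
  have h2 := congrArg (ordD φ) h1
  rw [ordD_mul, ordD_tril, ordD_tri, ordD_one, ordD_one, ordD_TT Y φ hG, add_zero, zero_add,
    zero_add] at h2
  exact h2

end blocks

end Pool.Agent.RTB
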