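import Pool.Agent.RTB.Alg

/-!
# RTB SEM: entries of the tables of the executable algorithm (helper9, helper95)

Flat lists, tables over pairs and triples of indices, powers, differences modulo `n`.
The index `(i, a)` has the position `i * n + a = finProdFinEquiv (i, a)`.
-/

set_option autoImplicit false

namespace Pool.Agent.RTB

variable {p : ℕ}

/-! ### flat lists -/

theorem len_flat {β : Type} (m n : ℕ) (f : ℕ → List β) (hf : ∀ i < m, (f i).length = n) :
    ((List.range m).flatMap f).length = m * n := by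
  induction m with
  | zero => simp
  | succ m ih =>
    rw [List.range_succ, List.flatMap_append, List.length_append,
      ih fun i hi => hf i (by omega)]
    simp only [List.flatMap_cons, List.flatMap_nil, List.append_nil]
    rw [hf m (by omega), Nat.succ_mul]

theorem getD_flat {β : Type} {m n : ℕ} {f : ℕ → List β} (hf : ∀ i < m, (f i).length = n) (d : β)
    {i j : ℕ} (hi : i < m) (hj : j < n) :
    ((List.range m).flatMap f).getD (i * n + j) d = (f i).getD j d := by
  induction m with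
  | zero => omega
  | succ m ih =>
    have hl := len_flat m n f fun i hi => hf i (by omega)
    rw [List.range_succ, List.flatMap_append]
    simp only [List.flatMap_cons, List.flatMap_nil, List.append_nil]
    by_cases h : i < m
    · rw [List.getD_append _ _ _ _ (by
        rw [hl]
        calc i * n + j < i * n + n := by omega
          _ = (i + 1) * n := by ring
          _ ≤ m * n := Nat.mul_le_mul_right _ (by omega))]
      exact ih (fun i hi => hf i (by omega)) h
    · have h1 : i = m := by omega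
      subst h1
      rw [List.getD_append_right _ _ _ _ (by rw [hl]; omega), hl]
      congr 1
      omega

/-! ### entries -/

theorem len_mt (m n : ℕ) (f : ℕ → ℕ → ℕ) : (mt m n f).length = m := by simp [mt]

theorem len_mkV2 (m n : ℕ) (f : ℕ → ℕ → ℕ) : (mkV2 m n f).length = m * n :=
  len_flat m n _ fun _ _ => length_vt _ _

theorem mkV2_succ (m n : ℕ) (f : ℕ → ℕ → ℕ) : mkV2 (m + 1) n f = mkV2 m n f ++ vt n (f m) := by
  simp [mkV2, List.range_succ]

theorem ent_append_left {u v : List ℕ} {j : ℕ} (h : j < u.length) : ent (u ++ v) j = ent u j := by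
  rw [ent, ent, List.getD_append _ _ _ _ h]

theorem ent_append_right {u v : List ℕ} {j : ℕ} (h : u.length ≤ j) :
    ent (u ++ v) j = ent v (j - u.length) := by
  rw [ent, ent, List.getD_append_right _ _ _ _ h]

theorem ent_mkV2 {m n : ℕ} (f : ℕ → ℕ → ℕ) {i a : ℕ} (hi : i < m) (ha : a < n) :
    ent (mkV2 m n f) (i * n + a) = f i a := by
  rw [ent, mkV2, getD_flat (fun _ _ => length_vt _ _) 0 hi ha, ← ent, ent_vt _ ha]

theorem ent2_mkV2 {m n : ℕ} (f : ℕ → ℕ → ℕ) {i a : ℕ} (hi : i < m) (ha : a < n) :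
    ent2 n (mkV2 m n f) i a = f i a := ent_mkV2 f hi ha

theorem len_mkV3 (l m n : ℕ) (f : ℕ → ℕ → ℕ → ℕ) :
    (mkV3 l m n f).length = l * (m * n) :=
  len_flat l (m * n) _ fun _ _ => len_mkV2 _ _ _

theorem ent_mkV3 {l m n : ℕ} (f : ℕ → ℕ → ℕ → ℕ) {i j a : ℕ} (hi : i < l) (hj : j < m)
    (ha : a < n) : ent (mkV3 l m n f) ((i * m + j) * n + a) = f i j a := by
  have h1 : (i * m + j) * n + a = i * (m * n) + (j * n + a) := by ring
  have h2 : j * n + a < m * n := by
    calc j * n + a < j * n + n := by omega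
      _ = (j + 1) * n := by ring
      _ ≤ m * n := Nat.mul_le_mul_right _ (by omega)
  rw [ent, mkV3, h1, getD_flat (fun _ _ => len_mkV2 _ _ _) 0 hi h2]
  exact ent_mkV2 _ hj ha

theorem len_mkK (m n : ℕ) (f : ℕ → ℕ → ℕ → ℕ → ℕ) : (mkK m n f).length = m * n :=
  len_flat m n _ fun _ _ => by simp

/-- rows of `mkK` -/
theorem row_mkK {m n : ℕ} (f : ℕ → ℕ → ℕ → ℕ → ℕ) {i a : ℕ} (hi : i < m) (ha : a < n) :
    row (mkK m n f) (i * n + a) = mkV2 m n (f i a) := by
  rw [row, mkK, getD_flat (fun _ _ => by simp) [] hi ha]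
  exact row_map_range (fun a => mkV2 m n (f i a)) ha

theorem entM_mkK {m n : ℕ} (f : ℕ → ℕ → ℕ → ℕ → ℕ) {i a j b : ℕ} (hi : i < m) (ha : a < n)
    (hj : j < m) (hb : b < n) : entM (mkK m n f) (i * n + a) (j * n + b) = f i a j b := by
  rw [entM, row_mkK f hi ha, ent_mkV2 _ hj hb]

/-! ### numbers modulo `p` -/

theorem sm_fin (p n : ℕ) (f : ℕ → ℕ) :
    ((sm n f : ℕ) : ZMod p) = ∑ i : Fin n, (f i : ZMod p) := by
  rw [sm_eq, Nat.cast_sum, Finset.sum_range]

theorem powp_mod (p w i : ℕ) : powp p w i = w ^ i % p := by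
  unfold powp
  induction i with
  | zero => simp
  | succ i ih =>
    rw [List.range_succ, List.foldl_append, ih]
    simp only [List.foldl_cons, List.foldl_nil]
    rw [Nat.mod_mul_mod, pow_succ]

theorem powp_cast (p w i : ℕ) : ((powp p w i : ℕ) : ZMod p) = (w : ZMod p) ^ i := by
  rw [powp_mod, ZMod.natCast_mod, Nat.cast_pow]

theorem powp_lt {p : ℕ} (hp : 0 < p) (w i : ℕ) : powp p w i < p := by
  rw [powp_mod]
  exact Nat.mod_lt _ hp

theorem sbm_val {n : ℕ} [NeZero n] (a b : Fin n) : sbm n a b = ((a - b : Fin n) : ℕ) := by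
  rw [Fin.sub_def, sbm]
  have ha := a.2
  have hb := b.2
  by_cases h : (b : ℕ) ≤ a
  · rw [if_pos h]
    have h1 : n - (b : ℕ) + a = (a - b) + n := by omega
    show (a : ℕ) - b = (n - (b : ℕ) + a) % n
    rw [h1, Nat.add_mod_right, Nat.mod_eq_of_lt (by omega)]
  · rw [if_neg h]
    show (a : ℕ) + n - b = (n - (b : ℕ) + a) % n
    rw [Nat.mod_eq_of_lt (by omega)]
    omega

theorem sbm_lt {n a b : ℕ} (ha : a < n) (hb : b < n) : sbm n a b < n := by
  unfold sbm
  split_ifs <;> omega

/-! ### index pairs -/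

theorem pair_lt {m n i a : ℕ} (hi : i < m) (ha : a < n) : i * n + a < m * n := by
  calc i * n + a < i * n + n := by omega
    _ = (i + 1) * n := by ring
    _ ≤ m * n := Nat.mul_le_mul_right _ (by omega)

/-- the position of an index -/
theorem pos_eq {m n : ℕ} (x : Fin m × Fin n) :
    ((finProdFinEquiv x : Fin (m * n)) : ℕ) = (x.1 : ℕ) * n + (x.2 : ℕ) := by
  rw [finProdFinEquiv_apply_val]
  ring

/-- the vector of a list over the index set `(i, a)` -/
def toV2 (p N d : ℕ) (v : List ℕ) : Fin N × Fin d → ZMod p :=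
  fun x => toV p (N * d) v (finProdFinEquiv x)

theorem toV2_apply (N d : ℕ) (v : List ℕ) (x : Fin N × Fin d) :
    toV2 p N d v x = ((ent2 d v x.1 x.2 : ℕ) : ZMod p) := by
  rw [toV2, toV, pos_eq, ent2]

theorem toV2_mkV2 {m n : ℕ} (f : ℕ → ℕ → ℕ) (x : Fin m × Fin n) :
    toV2 p m n (mkV2 m n f) x = ((f x.1 x.2 : ℕ) : ZMod p) := by
  rw [toV2_apply, ent2_mkV2 _ x.1.2 x.2.2]

theorem red_mkV2 {p : ℕ} (m n : ℕ) (f : ℕ → ℕ → ℕ) (hf : ∀ i < m, ∀ j < n, f i j < p) :
    Red p (m * n) (mkV2 m n f) := by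
  refine ⟨len_mkV2 m n f, ?_⟩
  intro x hx
  simp only [mkV2, vt, List.mem_flatMap, List.mem_map, List.mem_range] at hx
  obtain ⟨i, hi, j, hj, rfl⟩ := hx
  exact hf i hi j hj

/-- the coefficient matrices -/
def mB (p N : ℕ) (Bs : List (List (List ℕ))) (k : ℕ) : Matrix (Fin N) (Fin N) (ZMod p) :=
  toM p N N (Bs.getD k [])

/-- the `(N d) × (N d)` matrix with pairs as indices -/
def toM2 (p N d : ℕ) (A : List (List ℕ)) : Matrix (Fin N × Fin d) (Fin N × Fin d) (ZMod p) :=
  (toM p (N * d) (N * d) A).submatrix finProdFinEquiv finProdFinEquiv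

theorem toM2_apply (N d : ℕ) (A : List (List ℕ)) (x y : Fin N × Fin d) :
    toM2 p N d A x y = ((entM A (x.1 * d + x.2) (y.1 * d + y.2) : ℕ) : ZMod p) := by
  rw [toM2, Matrix.submatrix_apply, toM_apply, pos_eq, pos_eq]

theorem toM2_mkK (N d : ℕ) (f : ℕ → ℕ → ℕ → ℕ → ℕ) (x y : Fin N × Fin d) :
    toM2 p N d (mkK N d f) x y = ((f x.1 x.2 y.1 y.2 : ℕ) : ZMod p) := by
  rw [toM2_apply, entM_mkK f x.1.2 x.2.2 y.1.2 y.2.2]

theorem mulVec_toM2 (N d : ℕ) (A : List (List ℕ)) (v : List ℕ) :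
    (toM2 p N d A).mulVec (toV2 p N d v) =
      fun x => ((toM p (N * d) (N * d) A).mulVec (toV p (N * d) v)) (finProdFinEquiv x) := by
  funext x
  rw [Matrix.mulVec, dotProduct, Matrix.mulVec, dotProduct]
  exact Fintype.sum_equiv finProdFinEquiv _ _ fun y => rfl

theorem rank_toM2 [Fact p.Prime] (N d : ℕ) (A : List (List ℕ)) :
    (toM2 p N d A).rank = rkL p (N * d) (N * d) A := by
  rw [rkL_eq, toM2, Matrix.rank_submatrix]

theorem zipsum_eq : ∀ (Bs Xs : List (List (List ℕ))), Xs.length = Bs.length →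
    ∀ i i' a b : ℕ, ((Bs.zip Xs).map fun x => entM x.1 i i' * entM x.2 a b).sum =
      ∑ k ∈ Finset.range Bs.length, entM (Bs.getD k []) i i' * entM (Xs.getD k []) a b
  | [], _, _, i, i', a, b => by simp
  | B :: Bs, [], h, i, i', a, b => by simp at h
  | B :: Bs, X :: Xs, h, i, i', a, b => by
    rw [List.length_cons, List.length_cons, Nat.add_right_cancel_iff] at h
    rw [List.zip_cons_cons, List.map_cons, List.sum_cons, zipsum_eq Bs Xs h i i' a b,
      List.length_cons, Finset.sum_range_succ']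
    simp only [List.getD_cons_zero, List.getD_cons_succ]
    ring

theorem mB_mt (N : ℕ) (f : ℕ → ℕ → ℕ) {Xs : List (List (List ℕ))} {k : ℕ}
    (h : Xs.getD k [] = mt N N f) (i j : Fin N) : mB p N Xs k i j = ((f i j : ℕ) : ZMod p) := by
  rw [mB, h, toM_apply, entM_mt f i.2 j.2]

end Pool.Agent.RTB
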