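import Pool.Agent.RTB.GrLink

/-!
# RTB TRANSL: round trips in the language of numbers
-/

set_option autoImplicit false

namespace Pool.Agent.RTB

open Pool.Agent.RTO (Arc rev dartL vlist gr Dart MGr und Ok Cst cst_eq)

theorem ok_mkGD (A E : List Arc) (s nv : ℕ) (hpos : ∀ x ∈ A ++ E, 0 < x.2.2)
    (hv : ∀ x ∈ A ++ E, x.1 < nv ∧ x.2.1 < nv) : (mkGD A E s nv).Ok := by
  refine ⟨?_, fun q hq => ?_⟩
  · have h1 : (mkGD A E s nv).2.1.1 = A.length := rfl
    have h2 : (mkGD A E s nv).2.1.2 = E.length := rfl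
    rw [nd_mkGD, h1, h2]
    omega
  · have h := ends_mkGD A E s nv hv q hq
    exact ⟨h.1, h.2, pos_mkGD A E s nv hpos q hq⟩

theorem forbL_num (A E : List Arc) (s nv : ℕ) (P : List (Dart (Fin A.length) (Fin E.length))) :
    forbL (mkGD A E s nv) (P.map num) = forbD P := by
  induction P using List.reverseRecOn with
  | nil => rfl
  | append_singleton P d ih =>
    rw [List.map_append]
    change forbL (mkGD A E s nv) (P.map num ++ [num d]) = _
    rw [forbL_append, ih, confl_append_forbD]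

theorem lowN (A E : List Arc) (s t nv : ℕ) (hpos : ∀ x ∈ A ++ E, 0 < x.2.2) (P Q : List ℕ)
    (hP : (mkGD A E s nv).lg.IsWalk s P t) (hQ : (mkGD A E s nv).lg.IsWalk t Q s)
    (h : rr Q (forbL (mkGD A E s nv) P) ≠ 0) :
    ∃ c ∈ Cst A E s t,
      c ≤ (mkGD A E s nv).lg.cost P + (mkGD A E s nv).lg.cost Q ∧
      ((∃ q ∈ Q, q ∈ forbL (mkGD A E s nv) P) →
        c < (mkGD A E s nv).lg.cost P + (mkGD A E s nv).lg.cost Q) := by
  obtain ⟨P', rfl, hP'⟩ := exists_isWalk_mkGD A E s nv hP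
  obtain ⟨Q', rfl, hQ'⟩ := exists_isWalk_mkGD A E s nv hQ
  rw [forbL_num, rr_forbD] at h
  rw [forbL_num, cost_mkGD, cost_mkGD]
  obtain ⟨P₁, Q₁, hv, hle, hlt⟩ := low (pos_gr A E hpos) hP' hQ' h
  refine ⟨(gr A E).cost P₁ + (gr A E).cost Q₁, ?_, hle, ?_⟩
  · rw [cst_eq]
    exact ⟨P₁, Q₁, hv, rfl⟩
  · rintro ⟨q, hq, hq2⟩
    apply hlt
    intro hok
    exact ((ok_append_iff P' Q').1 hok).2.2 q hq hq2

theorem validN (A E : List Arc) (s t nv : ℕ) (c : ℕ) (hc : c ∈ Cst A E s t) :
    ∃ P Q : List ℕ, (mkGD A E s nv).lg.IsWalk s P t ∧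
      (mkGD A E s nv).lg.IsWalk t Q s ∧ P.Nodup ∧ Q.Nodup ∧
      (∀ q ∈ Q, q ∉ forbL (mkGD A E s nv) P) ∧
      (mkGD A E s nv).lg.cost P + (mkGD A E s nv).lg.cost Q ≤ c := by
  rw [cst_eq] at hc
  obtain ⟨P, Q, ⟨hP, hQ, hok⟩, hcost⟩ := hc
  obtain ⟨P', h1, h2, h3, h4⟩ := Pool.Agent.RTO.exists_nodup hP
  obtain ⟨Q', h5, h6, h7, h8⟩ := Pool.Agent.RTO.exists_nodup hQ
  have hok' : Ok (P' ++ Q') := by
    intro e he he'
    refine hok e ?_ ?_
    · rcases List.mem_append.1 he with he | he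
      · exact List.mem_append_left _ (h2 he)
      · exact List.mem_append_right _ (h6 he)
    · rcases List.mem_append.1 he' with he | he
      · exact List.mem_append_left _ (h2 he)
      · exact List.mem_append_right _ (h6 he)
  refine ⟨P'.map num, Q'.map num, (isWalk_mkGD A E s nv s t P').2 h1,
    (isWalk_mkGD A E s nv t s Q').2 h5, h3.map num_inj, h7.map num_inj, ?_, ?_⟩
  · rw [forbL_num]
    exact ((ok_append_iff P' Q').1 hok').2.2
  · rw [cost_mkGD, cost_mkGD]
    omega

theorem sum_nodup_le {l : List ℕ} {n : ℕ} (f : ℕ → ℕ) (h : l.Nodup) (hn : ∀ x ∈ l, x < n) :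
    (l.map f).sum ≤ ((List.range n).map f).sum := by
  have h1 : (l.map f).sum = ∑ x ∈ l.toFinset, f x := (List.sum_toFinset f h).symm
  have h2 : ((List.range n).map f).sum = ∑ x ∈ Finset.range n, f x := by
    rw [← List.sum_toFinset f List.nodup_range]
    congr 1
    ext x
    simp
  rw [h1, h2]
  apply Finset.sum_le_sum_of_subset
  intro x hx
  rw [List.mem_toFinset] at hx
  exact Finset.mem_range.2 (hn x hx)

theorem map_getD_range {β : Type} (l : List β) (d : β) :
    (List.range l.length).map (fun i => l.getD i d) = l := by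
  apply List.ext_getElem
  · simp
  · intro i h1 h2
    simp [List.getD_eq_getElem?_getD, List.getElem?_eq_getElem h2]

/-- a walk without repeated darts is short -/
theorem nodup_bound (A E : List Arc) (s nv : ℕ) (a b : ℕ) (P : List ℕ)
    (hP : (mkGD A E s nv).lg.IsWalk a P b) (hn : P.Nodup) :
    P.length ≤ (mkGD A E s nv).nd ∧
      (mkGD A E s nv).lg.cost P ≤ 2 * ((A ++ E).map fun x => x.2.2).sum := by
  have hlt : ∀ q ∈ P, q < (mkGD A E s nv).nd := LG.lt_of_mem hP
  refine ⟨nodup_length_le hn hlt, ?_⟩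
  have h1 := sum_nodup_le (mkGD A E s nv).len hn hlt
  have h2 : ((List.range (mkGD A E s nv).nd).map (mkGD A E s nv).len).sum =
      ((dartL A E).map fun x => x.2.2).sum := by
    have h3 : (List.range (mkGD A E s nv).nd).map (mkGD A E s nv).len =
        ((List.range (dartL A E).length).map
          fun i => (dartL A E).getD i (0, (0, 0))).map fun x => x.2.2 := by
      rw [List.map_map]
      rfl
    rw [h3, map_getD_range]
  rw [h2] at h1
  have h4 : ((dartL A E).map fun x => x.2.2).sum =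
      (A.map fun x => x.2.2).sum + ((E.map fun x => x.2.2).sum + (E.map fun x => x.2.2).sum) := by
    unfold dartL
    rw [List.map_append, List.sum_append, List.map_append, List.sum_append, List.map_map]
    rfl
  rw [h4] at h1
  have h5 : ((A ++ E).map fun x => x.2.2).sum =
      (A.map fun x => x.2.2).sum + (E.map fun x => x.2.2).sum := by
    rw [List.map_append, List.sum_append]
  rw [h5]
  have h6 : (mkGD A E s nv).lg.cost P = (P.map (mkGD A E s nv).len).sum := rfl
  rw [h6]
  omega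

end Pool.Agent.RTB
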