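import Pool.Agent.RTB.MainV
import Pool.Agent.RTB.Fams
import Pool.Agent.RTB.TransL

/-!
# RTB VALR: `valR` is the minimum length of a round trip (if `delta` is correct)
-/

namespace Pool.Agent.RTB

open Pool.Agent.RTO

variable {K F : Type} [DivisionRing K] [Field F] {n : ℕ}

theorem valR_main (hn : 0 < n) (A E : List Arc) (s t nv : ℕ) (hs : s < nv) (ht : t < nv)
    (hpos : ∀ x ∈ A ++ E, 0 < x.2.2) (hv : ∀ x ∈ A ++ E, x.1 < nv ∧ x.2.1 < nv)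
    (φ : K →+* Matrix (Fin n) (Fin n) F) (Y : ℕ → K)
    (hY : ∀ (S : Finset (List ℕ)) (Q₀ : List ℕ), Q₀ ∈ S →
      (∀ Q ∈ S, Q ≠ Q₀ → ∃ q ∈ Q, q ∉ Q₀) → ∑ Q ∈ S, word Y Q ≠ 0)
    (hδ : DeltaSpec (primeAbove (prB (mkGD A E s nv))) (mkGD A E s nv) φ Y) :
    (∀ c, IsLeast (Cst A E s t) c → valR A E s t nv = some c) ∧
      (Cst A E s t = ∅ → valR A E s t nv = none) := by
  obtain ⟨h1, h2⟩ := finF_spec hn _ (mkGD A E s nv) (ok_mkGD A E s nv hpos hv) φ Y hδ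
    (bigH A E) t ht
  exact valF_main A E s t nv Y _ hs ht hpos hv hY
    (fun x hx hx1 => by
      obtain ⟨P, hP, -, h3, h4⟩ := h1 x hx hx1
      exact ⟨P, hP, h3, h4⟩) h2

end Pool.Agent.RTB
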