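import Pool.Agent.RTB.ValR
import Pool.Agent.RTB.Gen
import Pool.Agent.RTB.Ncr
import Pool.Agent.RTB.Schur
import Pool.Agent.RTB.PolyPr
import Pool.Agent.RTB.Gob

/-!
# RTB FINALC: the specification of `valR` and the correctness of `goB`

`ValRSpec` from `gen_exists` (the generic letters), `ncrSpec` (the rank algorithm), `deltaSpec_of` and
`schSpec` (the linear matrix), `valR_main` (the families of rows); then `Solves goB`.
-/

namespace Pool.Agent.RTB

open Pool.Agent.RTO

theorem prB_bound (g : GD) (hz : 0 < g.sz) :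
    g.sz * ((2 * g.sz) * (g.sz * (2 * g.sz) + 1)) ^ 2 < prB g := by
  unfold prB
  have h : ∀ x : ℕ, 0 < x → x * ((2 * x) * (x * (2 * x) + 1)) ^ 2 < 36 * x ^ 7 + 1 := by
    intro x hx
    have h1 : x * ((2 * x) * (x * (2 * x) + 1)) ^ 2 = 16 * x ^ 7 + 16 * x ^ 5 + 4 * x ^ 3 := by ring
    have h2 : x ^ 5 ≤ x ^ 7 := Nat.pow_le_pow_right hx (by norm_num)
    have h3 : x ^ 3 ≤ x ^ 7 := Nat.pow_le_pow_right hx (by norm_num)
    omega
  exact h _ hz

/-- `valR` is the minimum length of a round trip -/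
theorem valRSpec : ValRSpec := by
  intro A E s t nv _ hs ht hv hpos
  have hz : 0 < (mkGD A E s nv).sz := by
    unfold GD.sz GD.np
    omega
  have hp : Fact (primeAbove (prB (mkGD A E s nv))).Prime := ⟨primeAbove_prime _⟩
  have hd : 0 < 2 * (mkGD A E s nv).sz := by omega
  obtain ⟨K, F, hK, hF, hA, φ, Y, hY, hL⟩ :=
    gen_exists (primeAbove (prB (mkGD A E s nv))) (2 * (mkGD A E s nv).sz) hd
  refine valR_main hd A E s t nv hs ht hpos hv φ Y hY ?_
  refine deltaSpec_of _ hz ?_ φ Y hL ?_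
  · exact ncrSpec hd le_rfl (lt_trans (prB_bound _ hz) (lt_primeAbove _))
  · exact schSpec hd φ Y _ (ok_mkGD A E s nv hpos hv) hs

/-- the orientation found by `goB` is optimal -/
theorem goB_solves : Solves fun A E s t => goB s t A E := solves_goB_of_valR valRSpec

end Pool.Agent.RTB
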